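import Mathlib
import Pool.Agent.LibMM99.Scales

set_option autoImplicit false

namespace Pool.Agent.LibMM99

open MeasureTheory Filter Topology
open scoped ComplexConjugate

/-- take the coordinates in `C` from `x` and the others from `y` -/
noncomputable def mix (C : Set ℕ) (x y : Om) : Om := by
  classical exact fun p => if p ∈ C then x p else y p

private theorem mix_mem {C : Set ℕ} {x y : Om} {p : ℕ} (h : p ∈ C) : mix C x y p = x p := by
  simp [mix, h]

private theorem mix_notMem {C : Set ℕ} {x y : Om} {p : ℕ} (h : p ∉ C) : mix C x y p = y p := by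
  simp [mix, h]

private theorem continuous_mix (C : Set ℕ) : Continuous fun z : Om × Om => mix C z.1 z.2 := by
  apply continuous_pi
  intro p
  by_cases h : p ∈ C
  · have : (fun z : Om × Om => mix C z.1 z.2 p) = fun z => z.1 p := by
      funext z
      exact mix_mem h
    rw [this]
    exact (continuous_apply p).comp continuous_fst
  · have : (fun z : Om × Om => mix C z.1 z.2 p) = fun z => z.2 p := by
      funext z
      exact mix_notMem h
    rw [this]
    exact (continuous_apply p).comp continuous_snd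

private theorem measurable_mix (C : Set ℕ) : Measurable fun z : Om × Om => mix C z.1 z.2 := by
  apply measurable_pi_iff.2
  intro p
  by_cases h : p ∈ C
  · have : (fun z : Om × Om => mix C z.1 z.2 p) = fun z => z.1 p := by
      funext z
      exact mix_mem h
    rw [this]
    exact (measurable_pi_apply p).comp measurable_fst
  · have : (fun z : Om × Om => mix C z.1 z.2 p) = fun z => z.2 p := by
      funext z
      exact mix_notMem h
    rw [this]
    exact (measurable_pi_apply p).comp measurable_snd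

theorem map_mix (C : Set ℕ) : (mu.prod mu).map (fun z => mix C z.1 z.2) = mu := by
  classical
  have key : ∀ (s : Finset ℕ) (t : ℕ → Set UnitAddCircle), (∀ i ∈ s, MeasurableSet (t i)) →
      mu (Set.pi s t) = ∏ i ∈ s, (AddCircle.haarAddCircle : Measure UnitAddCircle) (t i) := by
    intro s t ht
    exact Measure.infinitePi_pi _ ht
  apply Measure.eq_infinitePi
  intro s t ht
  have hms : ∀ s' : Finset ℕ, s' ⊆ s → MeasurableSet (Set.pi (s' : Set ℕ) t : Set Om) := by
    intro s' hs'
    exact MeasurableSet.pi s'.countable_toSet (fun i _ => ht i)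
  rw [Measure.map_apply (measurable_mix C) (hms s (Finset.Subset.refl s))]
  have hpre : (fun z : Om × Om => mix C z.1 z.2) ⁻¹' (Set.pi (s : Set ℕ) t) =
      (Set.pi ((s.filter (· ∈ C) : Finset ℕ) : Set ℕ) t) ×ˢ
        (Set.pi ((s.filter (· ∉ C) : Finset ℕ) : Set ℕ) t) := by
    ext z
    simp only [Set.mem_preimage, Set.mem_pi, Finset.mem_coe, Set.mem_prod, Finset.mem_filter]
    constructor
    · intro h
      refine ⟨fun i hi => ?_, fun i hi => ?_⟩
      · have := h i hi.1
        rwa [mix_mem hi.2] at this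
      · have := h i hi.1
        rwa [mix_notMem hi.2] at this
    · rintro ⟨h1, h2⟩ i hi
      by_cases hC : i ∈ C
      · rw [mix_mem hC]
        exact h1 i ⟨hi, hC⟩
      · rw [mix_notMem hC]
        exact h2 i ⟨hi, hC⟩
  rw [hpre, Measure.prod_prod, key _ _ (fun i _ => ht i), key _ _ (fun i _ => ht i)]
  exact Finset.prod_filter_mul_prod_filter_not s (· ∈ C) _

private theorem T03_integrable {E : Type*} [NormedAddCommGroup E] {f : Om → E}
    (hf : Continuous f) : Integrable f mu :=
  hf.integrable_of_hasCompactSupport (HasCompactSupport.of_compactSpace f)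

private theorem T03_integrable2 {E : Type*} [NormedAddCommGroup E] {f : Om × Om → E}
    (hf : Continuous f) : Integrable f (mu.prod mu) :=
  hf.integrable_of_hasCompactSupport (HasCompactSupport.of_compactSpace f)

private theorem T03_integral_mix {E : Type*} [NormedAddCommGroup E] [NormedSpace ℝ E]
    [SecondCountableTopology E] {f : Om → E} (C : Set ℕ) (hf : Continuous f) :
    ∫ x, f x ∂mu = ∫ z, f (mix C z.1 z.2) ∂(mu.prod mu) := by
  have h : ∫ x, f x ∂mu = ∫ x, f x ∂((mu.prod mu).map (fun z => mix C z.1 z.2)) := by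
    rw [map_mix]
  rw [h]
  exact integral_map (measurable_mix C).aemeasurable hf.aestronglyMeasurable

private theorem T03_indep {𝕜 : Type*} [RCLike 𝕜] {f g : Om → 𝕜} {S T : Set ℕ}
    (hf : Continuous f) (hg : Continuous g)
    (hS : DependsOn f S) (hT : DependsOn g T) (hST : Disjoint S T) :
    ∫ x, f x * g x ∂mu = (∫ x, f x ∂mu) * ∫ x, g x ∂mu := by
  have h0 : ∫ x, f x * g x ∂mu = ∫ z, f (mix S z.1 z.2) * g (mix S z.1 z.2) ∂(mu.prod mu) :=
    T03_integral_mix S (f := fun x => f x * g x) (hf.mul hg)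
  rw [h0, ← integral_prod_mul]
  apply integral_congr_ae
  filter_upwards with z
  have h1 : f (mix S z.1 z.2) = f z.1 := hS (fun i hi => mix_mem hi)
  have h2 : g (mix S z.1 z.2) = g z.2 :=
    hT (fun i hi => mix_notMem (fun h => (Set.disjoint_left.1 hST) h hi))
  simp only [h1, h2]

theorem integral_mul_indep {f g : Om → ℝ} {S T : Set ℕ} (hf : Continuous f) (hg : Continuous g)
    (hS : DependsOn f S) (hT : DependsOn g T) (hST : Disjoint S T) :
    ∫ x, f x * g x ∂mu = (∫ x, f x ∂mu) * ∫ x, g x ∂mu :=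
  T03_indep hf hg hS hT hST

theorem integral_mul_indep' {f g : Om → ℂ} {S T : Set ℕ} (hf : Continuous f) (hg : Continuous g)
    (hS : DependsOn f S) (hT : DependsOn g T) (hST : Disjoint S T) :
    ∫ x, f x * g x ∂mu = (∫ x, f x ∂mu) * ∫ x, g x ∂mu :=
  T03_indep hf hg hS hT hST

theorem integral_norm_pow_proj_le {k : ℝ} (hk : 1 ≤ k) (C : Set ℕ) {f f0 : Om → ℂ} (hf : Continuous f)
    (hf0 : Continuous f0) (h : ∀ x, ∫ y, f (mix C x y) ∂mu = f0 x) :
    ∫ x, ‖f0 x‖ ^ k ∂mu ≤ ∫ x, ‖f x‖ ^ k ∂mu := by
  have hk0 : 0 ≤ k := by linarith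
  have hcp : ∀ {α : Type} [TopologicalSpace α] {g : α → ℂ}, Continuous g →
      Continuous fun x => ‖g x‖ ^ k := by
    intro α _ g hg
    exact hg.norm.rpow_const (fun x => Or.inr hk0)
  have hcm : ∀ x : Om, Continuous fun y => f (mix C x y) := by
    intro x
    exact hf.comp ((continuous_mix C).comp (Continuous.prodMk_right x))
  have h1 : ∀ x, ‖f0 x‖ ^ k ≤ ∫ y, ‖f (mix C x y)‖ ^ k ∂mu := by
    intro x
    have h2 : ‖f0 x‖ ≤ ∫ y, ‖f (mix C x y)‖ ∂mu := by
      rw [← h x]
      exact norm_integral_le_integral_norm _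
    have h3 : ‖f0 x‖ ^ k ≤ (∫ y, ‖f (mix C x y)‖ ∂mu) ^ k :=
      Real.rpow_le_rpow (norm_nonneg _) h2 hk0
    refine h3.trans ?_
    have h4 := (convexOn_rpow hk).map_integral_le (μ := mu) (f := fun y => ‖f (mix C x y)‖)
      ((Real.continuous_rpow_const hk0).continuousOn) isClosed_Ici
      (Filter.Eventually.of_forall (fun y => norm_nonneg _))
      (T03_integrable (hcm x).norm) (T03_integrable (hcp (hcm x)))
    exact h4
  have h5 : ∫ x, ‖f x‖ ^ k ∂mu = ∫ z, ‖f (mix C z.1 z.2)‖ ^ k ∂(mu.prod mu) :=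
    T03_integral_mix C (hcp hf)
  have hI : Integrable (fun z : Om × Om => ‖f (mix C z.1 z.2)‖ ^ k) (mu.prod mu) :=
    T03_integrable2 (hcp (hf.comp (continuous_mix C)))
  rw [h5, integral_prod _ hI]
  apply integral_mono (T03_integrable (hcp hf0))
  · exact hI.integral_prod_left
  · exact h1

end Pool.Agent.LibMM99
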