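import Mathlib
import Pool.Agent.LibMM99.Scales

set_option autoImplicit false

namespace Pool.Agent.LibMM99

open MeasureTheory Filter Topology
open scoped ComplexConjugate

theorem ch_one (x : Om) : ch x 1 = 1 := by simp [ch]

private theorem ch_eq_of_subset (x : Om) {n : ℕ} {s : Finset ℕ} (hs : n.primeFactors ⊆ s) :
    ch x n = ∏ p ∈ s, (fourier (n.factorization p : ℤ) (x p) : ℂ) := by
  unfold ch
  refine Finset.prod_subset hs fun p _ hp => ?_
  have : n.factorization p = 0 := by
    rw [← Nat.support_factorization, Finsupp.mem_support_iff, not_not] at hp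
    exact hp
  rw [this]; simp

theorem ch_mul (x : Om) {m n : ℕ} (hm : m ≠ 0) (hn : n ≠ 0) : ch x (m * n) = ch x m * ch x n := by
  rw [ch_eq_of_subset x (n := m) (s := (m * n).primeFactors) (Nat.primeFactors_mono (dvd_mul_right m n) (by positivity)),
    ch_eq_of_subset x (n := n) (s := (m * n).primeFactors) (Nat.primeFactors_mono (dvd_mul_left n m) (by positivity)),
    ch, ← Finset.prod_mul_distrib]
  refine Finset.prod_congr rfl fun p _ => ?_
  rw [Nat.factorization_mul hm hn, Finsupp.add_apply]
  push_cast
  rw [fourier_add]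

theorem norm_ch (x : Om) (n : ℕ) : ‖ch x n‖ = 1 := by
  unfold ch
  rw [norm_prod]
  refine Finset.prod_eq_one fun p _ => ?_
  rw [fourier_apply]
  exact Circle.norm_coe _

theorem ch_prime (x : Om) {p : ℕ} (hp : p.Prime) : ch x p = fourier 1 (x p) := by
  unfold ch
  rw [hp.primeFactors, Finset.prod_singleton, hp.factorization_self]
  rfl

theorem continuous_ch (n : ℕ) : Continuous fun x : Om => ch x n := by
  unfold ch
  exact continuous_finsetProd _ fun p _ => (ContinuousMap.continuous _).comp (continuous_apply p)

theorem dependsOn_ch (n : ℕ) : DependsOn (fun x : Om => ch x n) (n.primeFactors : Set ℕ) := by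
  intro x y h
  simp only [ch]
  refine Finset.prod_congr rfl fun p hp => ?_
  rw [h p (by exact_mod_cast hp)]

theorem ch_xt (t : ℝ) {n : ℕ} (hn : n ≠ 0) :
    ch (xt t) n = Complex.exp (-((t * Real.log n : ℝ) : ℂ) * Complex.I) := by
  have h1 : Real.log n = ∑ p ∈ n.primeFactors, (n.factorization p : ℝ) * Real.log p := by
    have h2 := Nat.prod_factorization_pow_eq_self hn
    conv_lhs => rw [← h2, Finsupp.prod, Nat.support_factorization]
    push_cast
    rw [Real.log_prod (fun p hp => by
      have := (Nat.prime_of_mem_primeFactors hp).pos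
      positivity)]
    exact Finset.sum_congr rfl fun p _ => by rw [Real.log_pow]
  rw [ch, h1, Finset.mul_sum]
  push_cast
  rw [← Finset.sum_neg_distrib, Finset.sum_mul, Complex.exp_sum]
  refine Finset.prod_congr rfl fun p _ => ?_
  rw [xt, fourier_coe_apply]
  congr 1
  push_cast
  have : (Real.pi : ℂ) ≠ 0 := by exact_mod_cast Real.pi_ne_zero
  field_simp

theorem continuous_xt : Continuous xt := by
  refine continuous_pi fun p => ?_
  unfold xt
  exact (AddCircle.continuous_mk' 1).comp (by fun_prop)

theorem integrable_of_continuous {E : Type*} [NormedAddCommGroup E] {f : Om → E} (hf : Continuous f) :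
    Integrable f mu := by
  exact hf.integrable_of_hasCompactSupport (HasCompactSupport.of_compactSpace f)

theorem continuous_DS (s : Finset ℕ) (a : ℕ → ℂ) : Continuous (DS s a) := by
  unfold DS
  exact continuous_finsetSum _ fun n _ => continuous_const.mul (continuous_ch n)

theorem dependsOn_DS_smo (u v X : ℝ) (a : ℕ → ℂ) : DependsOn (DS (smo u v X) a) (coo u v) := by
  intro x y h
  unfold DS
  refine Finset.sum_congr rfl fun n hn => ?_
  rw [smo, Finset.mem_filter] at hn
  have := dependsOn_ch n (x := x) (y := y) (fun p hp => h p (hn.2 p (by exact_mod_cast hp)))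
  simp only at this
  rw [this]

end Pool.Agent.LibMM99
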