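import Mathlib
import Pool.Agent.LibMM99.T01

set_option autoImplicit false

namespace Pool.Agent.LibMM99

open MeasureTheory Filter Topology
open scoped ComplexConjugate

private theorem t02_ch_eq (x : Om) {n : ℕ} {s : Finset ℕ} (hs : n.primeFactors ⊆ s) :
    ch x n = ∏ p ∈ s, (fourier (n.factorization p : ℤ) (x p) : ℂ) := by
  unfold ch
  refine Finset.prod_subset hs fun p _ hp => ?_
  have : n.factorization p = 0 := by
    rw [← Nat.support_factorization, Finsupp.mem_support_iff, not_not] at hp
    exact hp
  rw [this]; simp

private theorem t02_integral_fourier (k : ℤ) :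
    ∫ x : UnitAddCircle, (fourier k x : ℂ) ∂AddCircle.haarAddCircle = if k = 0 then 1 else 0 := by
  have h := (orthonormal_iff_ite.1 (orthonormal_fourier (T := (1:ℝ)))) 0 k
  rw [ContinuousMap.inner_toLp (@AddCircle.haarAddCircle (1:ℝ) _) (fourier 0) (fourier k)] at h
  simp only [fourier_zero, map_one, mul_one] at h
  refine h.trans ?_
  simp only [eq_comm]

/-- orthogonality -/
theorem integral_ch {m n : ℕ} (hm : m ≠ 0) (hn : n ≠ 0) :
    ∫ x, ch x m * conj (ch x n) ∂mu = if m = n then 1 else 0 := by
  set S : Finset ℕ := m.primeFactors ∪ n.primeFactors with hS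
  have h1 : ∀ x : Om, ch x m * conj (ch x n) =
      ∏ p : S, (fourier ((m.factorization p : ℤ) - (n.factorization p : ℤ)) ((S.restrict x) p) : ℂ) := by
    intro x
    rw [t02_ch_eq x (n := m) (s := S) Finset.subset_union_left, t02_ch_eq x (n := n) (s := S) Finset.subset_union_right,
      map_prod, ← Finset.prod_mul_distrib, ← Finset.prod_coe_sort]
    refine Finset.prod_congr rfl fun p _ => ?_
    rw [← fourier_neg, ← fourier_add, sub_eq_add_neg]
    rfl
  simp_rw [h1]
  have hf : AEStronglyMeasurable (fun y : (i : S) → UnitAddCircle =>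
      ∏ p : S, (fourier ((m.factorization p : ℤ) - (n.factorization p : ℤ)) (y p) : ℂ))
      (Measure.pi (fun _ : S => (AddCircle.haarAddCircle : Measure UnitAddCircle))) := by
    refine Continuous.aestronglyMeasurable ?_
    exact continuous_finsetProd _ fun p _ => (ContinuousMap.continuous _).comp (continuous_apply p)
  have h2 := integral_restrict_infinitePi (X := fun _ : ℕ => UnitAddCircle)
    (μ := fun _ : ℕ => (AddCircle.haarAddCircle : Measure UnitAddCircle)) (s := S) hf
  refine h2.trans ?_
  rw [integral_fintype_prod_eq_prod (𝕜 := ℂ) (f := fun (p : S) (z : UnitAddCircle) =>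
    (fourier ((m.factorization p : ℤ) - (n.factorization p : ℤ)) z : ℂ))]
  simp_rw [t02_integral_fourier]
  split_ifs with h
  · subst h
    simp
  · have : ∃ p, m.factorization p ≠ n.factorization p := by
      by_contra hcon
      push Not at hcon
      exact h (Nat.eq_of_factorization_eq hm hn hcon)
    obtain ⟨p, hp⟩ := this
    have hpS : p ∈ S := by
      by_contra hpS
      rw [hS, Finset.mem_union, not_or, ← Nat.support_factorization, ← Nat.support_factorization,
        Finsupp.mem_support_iff, Finsupp.mem_support_iff, not_not, not_not] at hpS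
      exact hp (hpS.1.trans hpS.2.symm)
    refine Finset.prod_eq_zero (Finset.mem_univ (⟨p, hpS⟩ : S)) ?_
    rw [if_neg]
    intro h0
    apply hp
    have := sub_eq_zero.1 h0
    exact_mod_cast this

end Pool.Agent.LibMM99
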