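import Mathlib
import Pool.Agent.LibMM99.T02
import Pool.Agent.LibMM99.T09

set_option autoImplicit false

namespace Pool.Agent.LibMM99

open MeasureTheory Filter Topology
open scoped ComplexConjugate

private lemma T23b_ch_prod (x : Om) {ι : Type*} (s : Finset ι) (f : ι → ℕ)
    (hf : ∀ i ∈ s, f i ≠ 0) : ch x (∏ i ∈ s, f i) = ∏ i ∈ s, ch x (f i) := by
  classical
  induction s using Finset.induction_on with
  | empty => simp [ch_one]
  | insert a s ha ih =>
    rw [Finset.prod_insert ha, Finset.prod_insert ha, ch_mul x (hf a (Finset.mem_insert_self a s)),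
      ih fun i hi => hf i (Finset.mem_insert_of_mem hi)]
    exact Finset.prod_ne_zero_iff.2 fun i hi => hf i (Finset.mem_insert_of_mem hi)

/-- weights of a tuple -/
private noncomputable def cw {α : ℕ} (f : Fin α → ℕ) : ℝ := ∏ i, (Real.sqrt (f i))⁻¹

private lemma T23b_pow (P : Finset ℕ) (hP : ∀ p ∈ P, p.Prime) (α : ℕ) (x : Om) :
    DS P (fun _ => 1) x ^ α =
      ∑ f ∈ Fintype.piFinset (fun _ : Fin α => P), ((cw f : ℝ) : ℂ) * ch x (∏ i, f i) := by
  have h1 : DS P (fun _ => 1) x ^ α = ∏ _i : Fin α, DS P (fun _ => 1) x := by simp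
  rw [h1]
  unfold DS
  rw [Finset.prod_univ_sum]
  refine Finset.sum_congr rfl fun f hf => ?_
  rw [Fintype.mem_piFinset] at hf
  rw [T23b_ch_prod x _ _ fun i _ => (hP _ (hf i)).ne_zero, cw, Complex.ofReal_prod,
    ← Finset.prod_mul_distrib]
  refine Finset.prod_congr rfl fun i _ => by rw [one_mul]

private lemma T23b_formula (P : Finset ℕ) (hP : ∀ p ∈ P, p.Prime) (α β : ℕ) :
    ∫ x, DS P (fun _ => 1) x ^ α * conj (DS P (fun _ => 1) x) ^ β ∂mu =
      ((∑ f ∈ Fintype.piFinset (fun _ : Fin α => P), ∑ g ∈ Fintype.piFinset (fun _ : Fin β => P),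
        cw f * cw g * (if (∏ i, f i) = ∏ i, g i then 1 else 0) : ℝ) : ℂ) := by
  have h1 : ∀ x, DS P (fun _ => 1) x ^ α * conj (DS P (fun _ => 1) x) ^ β =
      ∑ f ∈ Fintype.piFinset (fun _ : Fin α => P), ∑ g ∈ Fintype.piFinset (fun _ : Fin β => P),
        ((cw f * cw g : ℝ) : ℂ) * (ch x (∏ i, f i) * conj (ch x (∏ i, g i))) := by
    intro x
    rw [← map_pow, T23b_pow P hP α x, T23b_pow P hP β x, map_sum, Finset.sum_mul_sum]
    refine Finset.sum_congr rfl fun f _ => Finset.sum_congr rfl fun g _ => ?_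
    rw [map_mul, Complex.conj_ofReal]
    push_cast
    ring
  simp_rw [h1]
  have hc : ∀ m n : ℕ, Continuous fun x : Om => ch x m * conj (ch x n) := fun m n =>
    (continuous_ch m).mul (Complex.continuous_conj.comp (continuous_ch n))
  rw [integral_finsetSum _ fun f _ => integrable_finsetSum _ fun g _ =>
    (integrable_of_continuous (hc _ _)).const_mul _]
  push_cast
  refine Finset.sum_congr rfl fun f hf => ?_
  rw [integral_finsetSum _ fun g _ => (integrable_of_continuous (hc _ _)).const_mul _]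
  refine Finset.sum_congr rfl fun g hg => ?_
  rw [Fintype.mem_piFinset] at hf hg
  rw [integral_const_mul, integral_ch
    (Finset.prod_ne_zero_iff.2 fun i _ => (hP _ (hf i)).ne_zero)
    (Finset.prod_ne_zero_iff.2 fun i _ => (hP _ (hg i)).ne_zero)]
  split_ifs <;> simp

private lemma T23b_perm {α β : ℕ} {f : Fin α → ℕ} {g : Fin β → ℕ} (hf : ∀ i, (f i).Prime)
    (hg : ∀ i, (g i).Prime) (h : (∏ i, f i) = ∏ i, g i) : (List.ofFn g).Perm (List.ofFn f) := by
  have h1 : (List.ofFn f).Perm (Nat.primeFactorsList (∏ i, f i)) := by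
    refine Nat.primeFactorsList_unique (List.prod_ofFn) ?_
    intro p hp
    rw [List.mem_ofFn] at hp
    obtain ⟨i, rfl⟩ := hp
    exact hf i
  have h2 : (List.ofFn g).Perm (Nat.primeFactorsList (∏ i, f i)) := by
    rw [h]
    refine Nat.primeFactorsList_unique (List.prod_ofFn) ?_
    intro p hp
    rw [List.mem_ofFn] at hp
    obtain ⟨i, rfl⟩ := hp
    exact hg i
  exact h2.trans h1.symm

private lemma T23b_card_le {s : ℕ} (P : Finset ℕ) (hP : ∀ p ∈ P, p.Prime) {f : Fin s → ℕ}
    (hf : ∀ i, f i ∈ P) :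
    ((Fintype.piFinset (fun _ : Fin s => P)).filter fun g => (∏ i, f i) = ∏ i, g i).card ≤
      s.factorial := by
  classical
  calc ((Fintype.piFinset (fun _ : Fin s => P)).filter fun g => (∏ i, f i) = ∏ i, g i).card
      ≤ ((List.ofFn f).permutations.toFinset).card := by
        refine Finset.card_le_card_of_injOn (fun g => List.ofFn g) ?_ ?_
        · intro g hg
          have hg' := Finset.mem_filter.1 (Finset.mem_coe.1 hg)
          rw [Fintype.mem_piFinset] at hg'
          rw [Finset.mem_coe, List.mem_toFinset, List.mem_permutations]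
          exact T23b_perm (fun i => hP _ (hf i)) (fun i => hP _ (hg'.1 i)) hg'.2
        · intro g _ g' _ h
          exact List.ofFn_injective h
    _ ≤ (List.ofFn f).permutations.length := List.toFinset_card_le _
    _ = s.factorial := by rw [List.length_permutations, List.length_ofFn]

private lemma T23b_card_ge {s : ℕ} (P : Finset ℕ) {f : Fin s → ℕ}
    (hf : ∀ i, f i ∈ P) (hinj : Function.Injective f) :
    s.factorial ≤ ((Fintype.piFinset (fun _ : Fin s => P)).filter
      fun g => (∏ i, f i) = ∏ i, g i).card := by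
  classical
  have h1 : s.factorial = (Finset.univ : Finset (Equiv.Perm (Fin s))).card := by
    rw [Finset.card_univ, Fintype.card_perm, Fintype.card_fin]
  rw [h1]
  refine Finset.card_le_card_of_injOn (fun σ : Equiv.Perm (Fin s) => f ∘ σ) ?_ ?_
  · intro σ _
    rw [Finset.mem_coe, Finset.mem_filter, Fintype.mem_piFinset]
    refine ⟨fun i => hf _, ?_⟩
    exact (Equiv.prod_comp σ f).symm
  · intro σ _ σ' _ h
    ext i
    have := congrFun h i
    exact congrArg Fin.val (hinj this)

private lemma T23b_cw_mul {s : ℕ} {f g : Fin s → ℕ} (_hf : ∀ i, (f i).Prime)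
    (h : (∏ i, f i) = ∏ i, g i) : cw f * cw g = ∏ i, ((f i : ℝ))⁻¹ := by
  have h1 : ∀ f : Fin s → ℕ, cw f = (Real.sqrt ((∏ i, f i : ℕ) : ℝ))⁻¹ := by
    intro f
    unfold cw
    rw [Finset.prod_inv_distrib]
    push_cast
    rw [Real.sqrt_prod _ fun i _ => Nat.cast_nonneg _]
  rw [h1 g, ← h, h1 f, ← mul_inv, Real.mul_self_sqrt (Nat.cast_nonneg _), Finset.prod_inv_distrib]
  push_cast
  rfl

/-- the moment as a weighted count -/
private lemma T23b_diag (P : Finset ℕ) (hP : ∀ p ∈ P, p.Prime) (s : ℕ) :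
    (∑ f ∈ Fintype.piFinset (fun _ : Fin s => P), ∑ g ∈ Fintype.piFinset (fun _ : Fin s => P),
        cw f * cw g * (if (∏ i, f i) = ∏ i, g i then 1 else 0) : ℝ) =
      ∑ f ∈ Fintype.piFinset (fun _ : Fin s => P), (∏ i, ((f i : ℝ))⁻¹) *
        (((Fintype.piFinset (fun _ : Fin s => P)).filter fun g => (∏ i, f i) = ∏ i, g i).card : ℝ) := by
  refine Finset.sum_congr rfl fun f hf => ?_
  rw [Fintype.mem_piFinset] at hf
  rw [Finset.card_filter, Nat.cast_sum, Finset.mul_sum]
  refine Finset.sum_congr rfl fun g hg => ?_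
  split_ifs with h
  · rw [T23b_cw_mul (fun i => hP _ (hf i)) h]
    simp
  · simp

private lemma T23b_noninj (P : Finset ℕ) (s : ℕ) (i j : Fin s) (hij : i ≠ j) :
    ∑ f ∈ (Fintype.piFinset (fun _ : Fin s => P)).filter (fun f => f i = f j),
      ∏ k, ((f k : ℝ))⁻¹ =
      (∑ q ∈ P, ((q : ℝ)⁻¹) ^ 2) * (∑ q ∈ P, (q : ℝ)⁻¹) ^ (s - 2) := by
  classical
  rw [Finset.sum_filter]
  have h1 : ∀ f ∈ Fintype.piFinset (fun _ : Fin s => P),
      (if f i = f j then ∏ k, ((f k : ℝ))⁻¹ else 0) =
        ∑ q ∈ P, ∏ k, (if k = i ∨ k = j then (if f k = q then ((f k : ℝ))⁻¹ else 0)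
          else ((f k : ℝ))⁻¹) := by
    intro f hf
    rw [Fintype.mem_piFinset] at hf
    split_ifs with h
    · rw [Finset.sum_eq_single (f i)]
      · refine Finset.prod_congr rfl fun k _ => ?_
        split_ifs with h2 h3
        · rfl
        · rcases h2 with rfl | rfl
          · exact absurd rfl h3
          · exact absurd h.symm h3
        · rfl
      · intro q _ hq
        refine Finset.prod_eq_zero (Finset.mem_univ i) ?_
        rw [if_pos (Or.inl rfl), if_neg (Ne.symm hq)]
      · intro hn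
        exact absurd (hf i) hn
    · symm
      refine Finset.sum_eq_zero fun q _ => ?_
      by_cases h2 : f i = q
      · refine Finset.prod_eq_zero (Finset.mem_univ j) ?_
        rw [if_pos (Or.inr rfl), if_neg]
        intro h3
        exact h (h2.trans h3.symm)
      · refine Finset.prod_eq_zero (Finset.mem_univ i) ?_
        rw [if_pos (Or.inl rfl), if_neg h2]
  rw [Finset.sum_congr rfl h1, Finset.sum_comm, Finset.sum_mul]
  refine Finset.sum_congr rfl fun q hq => ?_
  have h2 := Finset.prod_univ_sum (fun _ : Fin s => P)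
    (fun (k : Fin s) (p : ℕ) => (if k = i ∨ k = j then (if p = q then ((p : ℝ))⁻¹ else 0)
          else ((p : ℝ))⁻¹))
  rw [← h2]
  have h3 : ∀ k : Fin s, (∑ p ∈ P, (if k = i ∨ k = j then (if p = q then ((p : ℝ))⁻¹ else 0)
          else ((p : ℝ))⁻¹)) = if k = i ∨ k = j then ((q : ℝ))⁻¹ else ∑ p ∈ P, ((p : ℝ))⁻¹ := by
    intro k
    split_ifs with h4
    · rw [Finset.sum_ite_eq' P q (fun p => ((p : ℝ))⁻¹), if_pos hq]
    · rfl
  rw [Finset.prod_congr rfl fun k _ => h3 k, Finset.prod_ite, Finset.prod_const, Finset.prod_const]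
  have h4 : (Finset.univ.filter fun k : Fin s => k = i ∨ k = j) = {i, j} := by
    ext k; simp
  have h5 : (Finset.univ.filter fun k : Fin s => k = i ∨ k = j).card = 2 := by
    rw [h4, Finset.card_pair hij]
  have h6 : (Finset.univ.filter fun k : Fin s => ¬ (k = i ∨ k = j)).card = s - 2 := by
    rw [Finset.filter_not, Finset.card_sdiff_of_subset (Finset.filter_subset _ _), h5,
      Finset.card_univ, Fintype.card_fin]
  rw [h5, h6]

private lemma T23b_abs (P : Finset ℕ) (hP : ∀ p ∈ P, p.Prime) (s : ℕ) :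
    |(∑ f ∈ Fintype.piFinset (fun _ : Fin s => P), ∑ g ∈ Fintype.piFinset (fun _ : Fin s => P),
        cw f * cw g * (if (∏ i, f i) = ∏ i, g i then 1 else 0) : ℝ) -
      s.factorial * (∑ q ∈ P, (q : ℝ)⁻¹) ^ s| ≤
      s.factorial * (s * s * ((∑ q ∈ P, ((q : ℝ)⁻¹) ^ 2) * (∑ q ∈ P, (q : ℝ)⁻¹) ^ (s - 2))) := by
  classical
  rw [T23b_diag P hP s]
  have h1 : (s.factorial : ℝ) * (∑ q ∈ P, (q : ℝ)⁻¹) ^ s =
      ∑ f ∈ Fintype.piFinset (fun _ : Fin s => P), (∏ i, ((f i : ℝ))⁻¹) * s.factorial := by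
    rw [← Finset.sum_mul, mul_comm]
    congr 1
    have h2 := Finset.prod_univ_sum (fun _ : Fin s => P) (fun (_ : Fin s) (p : ℕ) => ((p : ℝ))⁻¹)
    rw [← h2]
    simp
  rw [h1, ← Finset.sum_sub_distrib]
  set NI : Finset (Fin s → ℕ) :=
    (Fintype.piFinset (fun _ : Fin s => P)).filter fun f => ¬ Function.Injective f with hNI
  have hpos : ∀ f : Fin s → ℕ, 0 ≤ ∏ i, ((f i : ℝ))⁻¹ := fun f =>
    Finset.prod_nonneg fun i _ => inv_nonneg.2 (Nat.cast_nonneg _)
  calc |∑ f ∈ Fintype.piFinset (fun _ : Fin s => P), ((∏ i, ((f i : ℝ))⁻¹) *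
        (((Fintype.piFinset (fun _ : Fin s => P)).filter fun g => (∏ i, f i) = ∏ i, g i).card : ℝ) -
        (∏ i, ((f i : ℝ))⁻¹) * s.factorial)|
      ≤ ∑ f ∈ Fintype.piFinset (fun _ : Fin s => P), |(∏ i, ((f i : ℝ))⁻¹) *
        (((Fintype.piFinset (fun _ : Fin s => P)).filter fun g => (∏ i, f i) = ∏ i, g i).card : ℝ) -
        (∏ i, ((f i : ℝ))⁻¹) * s.factorial| := Finset.abs_sum_le_sum_abs _ _
    _ ≤ ∑ f ∈ Fintype.piFinset (fun _ : Fin s => P),
        (if ¬ Function.Injective f then (∏ i, ((f i : ℝ))⁻¹) * s.factorial else 0) := by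
        refine Finset.sum_le_sum fun f hf => ?_
        rw [Fintype.mem_piFinset] at hf
        rw [← mul_sub, abs_mul, abs_of_nonneg (hpos f)]
        have h3 : (((Fintype.piFinset (fun _ : Fin s => P)).filter
            fun g => (∏ i, f i) = ∏ i, g i).card : ℝ) ≤ s.factorial := by
          exact_mod_cast T23b_card_le P hP hf
        by_cases h4 : ¬ Function.Injective f
        · rw [if_pos h4]
          refine mul_le_mul_of_nonneg_left ?_ (hpos f)
          rw [abs_of_nonpos (by linarith)]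
          have : (0 : ℝ) ≤ (((Fintype.piFinset (fun _ : Fin s => P)).filter
            fun g => (∏ i, f i) = ∏ i, g i).card : ℝ) := Nat.cast_nonneg _
          linarith
        · rw [if_neg h4]
          have h5 : (s.factorial : ℝ) ≤ (((Fintype.piFinset (fun _ : Fin s => P)).filter
            fun g => (∏ i, f i) = ∏ i, g i).card : ℝ) := by
            exact_mod_cast T23b_card_ge P hf (not_not.1 h4)
          rw [le_antisymm h3 h5]
          simp
    _ = s.factorial * ∑ f ∈ NI, ∏ i, ((f i : ℝ))⁻¹ := by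
        rw [← Finset.sum_filter, ← Finset.sum_mul, mul_comm]
    _ ≤ s.factorial * (s * s * ((∑ q ∈ P, ((q : ℝ)⁻¹) ^ 2) * (∑ q ∈ P, (q : ℝ)⁻¹) ^ (s - 2))) := by
        refine mul_le_mul_of_nonneg_left ?_ (Nat.cast_nonneg _)
        have h6 : ∑ f ∈ NI, ∏ i, ((f i : ℝ))⁻¹ ≤
            ∑ f ∈ Fintype.piFinset (fun _ : Fin s => P), ∑ ij : Fin s × Fin s,
              (if ij.1 ≠ ij.2 ∧ f ij.1 = f ij.2 then ∏ i, ((f i : ℝ))⁻¹ else 0) := by
          rw [hNI, Finset.sum_filter]
          refine Finset.sum_le_sum fun f _ => ?_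
          have hn : ∀ ij : Fin s × Fin s, 0 ≤
              (if ij.1 ≠ ij.2 ∧ f ij.1 = f ij.2 then ∏ i, ((f i : ℝ))⁻¹ else 0) := by
            intro ij
            split_ifs
            · exact hpos f
            · exact le_rfl
          by_cases h7 : Function.Injective f
          · rw [if_neg (not_not.2 h7)]
            exact Finset.sum_nonneg fun ij _ => hn ij
          · rw [if_pos h7]
            have h8 := h7
            unfold Function.Injective at h8
            push Not at h8
            obtain ⟨i, j, h9, h10⟩ := h8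
            have h11 := Finset.single_le_sum (f := fun ij : Fin s × Fin s =>
              (if ij.1 ≠ ij.2 ∧ f ij.1 = f ij.2 then ∏ i, ((f i : ℝ))⁻¹ else 0))
              (fun ij _ => hn ij) (Finset.mem_univ (i, j))
            refine le_trans ?_ h11
            simp only
            rw [if_pos ⟨h10, h9⟩]
        refine h6.trans ?_
        rw [Finset.sum_comm]
        have h10 : ∀ ij : Fin s × Fin s, ∑ f ∈ Fintype.piFinset (fun _ : Fin s => P),
              (if ij.1 ≠ ij.2 ∧ f ij.1 = f ij.2 then ∏ i, ((f i : ℝ))⁻¹ else 0) ≤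
              (∑ q ∈ P, ((q : ℝ)⁻¹) ^ 2) * (∑ q ∈ P, (q : ℝ)⁻¹) ^ (s - 2) := by
          intro ij
          by_cases h11 : ij.1 ≠ ij.2
          · refine le_of_eq ?_
            rw [← T23b_noninj P s ij.1 ij.2 h11, Finset.sum_filter]
            refine Finset.sum_congr rfl fun f _ => ?_
            simp only [h11, ne_eq, not_false_eq_true, true_and]
          · have h12 : ∀ f ∈ Fintype.piFinset (fun _ : Fin s => P),
              (if ij.1 ≠ ij.2 ∧ f ij.1 = f ij.2 then ∏ i, ((f i : ℝ))⁻¹ else 0) = (0 : ℝ) := by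
              intro f _
              rw [if_neg]
              exact fun h => h11 h.1
            rw [Finset.sum_congr rfl h12, Finset.sum_const_zero]
            positivity
        refine (Finset.sum_le_sum fun ij _ => h10 ij).trans ?_
        rw [Finset.sum_const, Finset.card_univ, Fintype.card_prod, Fintype.card_fin]
        rw [nsmul_eq_mul]
        push_cast
        exact le_rfl

/-- mixed moments of the prime sum over one window converge -/
theorem window_moment_tendsto {a b : ℝ} (ha : 0 < a) (hab : a < b) (α β : ℕ) :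
    ∃ l : ℂ, Tendsto (fun L : ℝ => ∫ x, DS (prm (Real.exp (a * L)) (Real.exp (b * L))) (fun _ => 1) x ^ α *
      conj (DS (prm (Real.exp (a * L)) (Real.exp (b * L))) (fun _ => 1) x) ^ β ∂mu) atTop (𝓝 l) := by
  have hP : ∀ L : ℝ, ∀ p ∈ prm (Real.exp (a * L)) (Real.exp (b * L)), p.Prime := by
    intro L p hp
    unfold prm at hp
    exact (Finset.mem_filter.1 hp).2.1
  simp_rw [fun L => T23b_formula _ (hP L) α β]
  by_cases hαβ : α = β
  · subst hαβ
    set v : ℝ → ℝ := fun L => ∑ p ∈ prm (Real.exp (a * L)) (Real.exp (b * L)), (p : ℝ)⁻¹ with hv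
    have hvt : Tendsto v atTop (𝓝 (Real.log (b / a))) := window_tendsto ha hab
    refine ⟨((α.factorial * Real.log (b / a) ^ α : ℝ) : ℂ), ?_⟩
    have hreal : Tendsto (fun L : ℝ => (∑ f ∈ Fintype.piFinset
        (fun _ : Fin α => prm (Real.exp (a * L)) (Real.exp (b * L))),
        ∑ g ∈ Fintype.piFinset (fun _ : Fin α => prm (Real.exp (a * L)) (Real.exp (b * L))),
        cw f * cw g * (if (∏ i, f i) = ∏ i, g i then 1 else 0) : ℝ)) atTop
        (𝓝 (α.factorial * Real.log (b / a) ^ α)) := by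
      have h1 : Tendsto (fun L : ℝ => α.factorial * v L ^ α) atTop
          (𝓝 (α.factorial * Real.log (b / a) ^ α)) := (hvt.pow α).const_mul _
      have hsq : ∀ L : ℝ, ∑ q ∈ prm (Real.exp (a * L)) (Real.exp (b * L)), ((q : ℝ)⁻¹) ^ 2 ≤
          Real.exp (-(a * L)) * v L := by
        intro L
        rw [hv, Finset.mul_sum]
        refine Finset.sum_le_sum fun q hq => ?_
        rw [sq]
        refine mul_le_mul_of_nonneg_right ?_ (inv_nonneg.2 (Nat.cast_nonneg _))
        unfold prm at hq
        rw [Real.exp_neg]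
        exact inv_anti₀ (Real.exp_pos _) (Finset.mem_filter.1 hq).2.2.le
      have h2 : Tendsto (fun L : ℝ => (α.factorial : ℝ) * (α * α *
          ((Real.exp (-(a * L)) * v L) * v L ^ (α - 2)))) atTop (𝓝 0) := by
        have h3 : Tendsto (fun L : ℝ => Real.exp (-(a * L))) atTop (𝓝 0) :=
          Real.tendsto_exp_neg_atTop_nhds_zero.comp (tendsto_id.const_mul_atTop ha)
        have h4 := (((h3.mul hvt).mul (hvt.pow (α - 2))).const_mul ((α : ℝ) * α)).const_mul
          (α.factorial : ℝ)
        simpa using h4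
      have h5 : Tendsto (fun L : ℝ => (∑ f ∈ Fintype.piFinset
        (fun _ : Fin α => prm (Real.exp (a * L)) (Real.exp (b * L))),
        ∑ g ∈ Fintype.piFinset (fun _ : Fin α => prm (Real.exp (a * L)) (Real.exp (b * L))),
        cw f * cw g * (if (∏ i, f i) = ∏ i, g i then 1 else 0) : ℝ) - α.factorial * v L ^ α)
          atTop (𝓝 0) := by
        refine squeeze_zero_norm (fun L => ?_) h2
        rw [Real.norm_eq_abs]
        refine (T23b_abs _ (hP L) α).trans ?_
        have hv0 : 0 ≤ v L := Finset.sum_nonneg fun q _ => inv_nonneg.2 (Nat.cast_nonneg _)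
        gcongr
        exact hsq L
      have h6 := h5.add h1
      simp only [sub_add_cancel, zero_add] at h6
      exact h6
    exact (Complex.continuous_ofReal.tendsto _).comp hreal
  · refine ⟨0, ?_⟩
    have h0 : ∀ L : ℝ, (∑ f ∈ Fintype.piFinset
        (fun _ : Fin α => prm (Real.exp (a * L)) (Real.exp (b * L))),
        ∑ g ∈ Fintype.piFinset (fun _ : Fin β => prm (Real.exp (a * L)) (Real.exp (b * L))),
        cw f * cw g * (if (∏ i, f i) = ∏ i, g i then 1 else 0) : ℝ) = 0 := by
      intro L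
      refine Finset.sum_eq_zero fun f hf => Finset.sum_eq_zero fun g hg => ?_
      rw [Fintype.mem_piFinset] at hf hg
      rw [if_neg, mul_zero]
      intro h
      have := (T23b_perm (fun i => hP L _ (hf i)) (fun i => hP L _ (hg i)) h).length_eq
      rw [List.length_ofFn, List.length_ofFn] at this
      exact hαβ this.symm
    simp_rw [h0]
    simp

end Pool.Agent.LibMM99
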