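import Mathlib
import Pool.Agent.LibMM99.T03
import Pool.Agent.LibMM99.T23b

set_option autoImplicit false

namespace Pool.Agent.LibMM99

open MeasureTheory Filter Topology
open scoped ComplexConjugate

private theorem t23c_dep_prm (u v : ℝ) (a : ℕ → ℂ) : DependsOn (DS (prm u v) a) (coo u v) := by
  intro x y hxy
  unfold DS
  refine Finset.sum_congr rfl fun n hn => ?_
  have hn' : n.Prime ∧ u < (n : ℝ) ∧ (n : ℝ) ≤ v := by
    unfold prm at hn
    rw [Finset.mem_filter, Finset.mem_Icc] at hn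
    obtain ⟨⟨h1, h2⟩, h3, h4⟩ := hn
    refine ⟨h3, h4, ?_⟩
    have h5 : n ≠ 0 := by omega
    exact (Nat.le_floor_iff' h5).1 h2
  have h : ch x n = ch y n := by
    apply dependsOn_ch n
    intro p hp
    have hp' : p = n := by
      have : p ∈ n.primeFactors := hp
      rw [Nat.Prime.primeFactors hn'.1] at this
      exact Finset.mem_singleton.1 this
    subst hp'
    exact hxy p ⟨hn'.2.1, hn'.2.2⟩
  rw [h]

private noncomputable def t23c_edge (δ : ℝ) (M : ℕ) (L : ℝ) (i : ℕ) : ℝ :=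
  Real.exp ((δ + (1 - δ) * i / M) * L)

private theorem t23c_edge_mono {δ : ℝ} (hδ1 : δ < 1) (M : ℕ) {L : ℝ} (hL : 0 ≤ L) {i j : ℕ}
    (hij : i ≤ j) : t23c_edge δ M L i ≤ t23c_edge δ M L j := by
  unfold t23c_edge
  apply Real.exp_le_exp.2
  apply mul_le_mul_of_nonneg_right _ hL
  have h1 : (i : ℝ) ≤ j := by exact_mod_cast hij
  have h2 : 0 ≤ 1 - δ := by linarith
  gcongr

private theorem t23c_cont_GG (δ : ℝ) (M : ℕ) (L : ℝ) (j : Fin M) : Continuous (GG δ M L j) := by
  unfold GG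
  exact continuous_DS _ _

private theorem t23c_dep_GG (δ : ℝ) (M : ℕ) (L : ℝ) (j : Fin M) :
    DependsOn (GG δ M L j) (coo (t23c_edge δ M L j) (t23c_edge δ M L ((j : ℕ) + 1))) := by
  have h := t23c_dep_prm (Real.exp ((δ + (1 - δ) * j / M) * L))
    (Real.exp ((δ + (1 - δ) * (j + 1) / M) * L)) (fun _ => 1)
  unfold GG win t23c_edge
  push_cast
  exact h

/-- the factor of one window -/
private noncomputable def t23c_fac (δ : ℝ) (M : ℕ) (α β : Fin M → ℕ) (L : ℝ) (j : Fin M) (x : Om) : ℂ :=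
  GG δ M L j x ^ α j * conj (GG δ M L j x) ^ β j

private theorem t23c_prod {δ : ℝ} (hδ1 : δ < 1) {M : ℕ} (α β : Fin M → ℕ) {L : ℝ} (hL : 0 ≤ L)
    (s : Finset (Fin M)) :
    ∫ x, ∏ j ∈ s, t23c_fac δ M α β L j x ∂mu = ∏ j ∈ s, ∫ x, t23c_fac δ M α β L j x ∂mu := by
  classical
  have hcont : ∀ j, Continuous (t23c_fac δ M α β L j) := by
    intro j
    unfold t23c_fac
    exact ((t23c_cont_GG δ M L j).pow _).mul
      ((Complex.continuous_conj.comp (t23c_cont_GG δ M L j)).pow _)
  have hdep : ∀ j, DependsOn (t23c_fac δ M α β L j)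
      (coo (t23c_edge δ M L j) (t23c_edge δ M L ((j : ℕ) + 1))) := by
    intro j x y hxy
    unfold t23c_fac
    rw [t23c_dep_GG δ M L j hxy]
  induction s using Finset.induction_on with
  | empty => simp
  | insert a s ha ih =>
    have h1 : (fun x => ∏ j ∈ insert a s, t23c_fac δ M α β L j x) =
        fun x => t23c_fac δ M α β L a x * ∏ j ∈ s, t23c_fac δ M α β L j x := by
      funext x
      rw [Finset.prod_insert ha]
    rw [h1, Finset.prod_insert ha, ← ih]
    refine integral_mul_indep' (hcont a) (continuous_finsetProd _ fun j _ => hcont j) (hdep a)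
      (T := ⋃ j ∈ s, coo (t23c_edge δ M L j) (t23c_edge δ M L ((j : ℕ) + 1))) ?_ ?_
    · intro x y hxy
      refine Finset.prod_congr rfl fun j hj => ?_
      apply hdep j
      intro p hp
      exact hxy p (Set.mem_biUnion hj hp)
    · rw [Set.disjoint_iUnion₂_right]
      intro j hj
      have hne : (a : ℕ) ≠ j := by
        intro h
        have : a = j := Fin.ext h
        exact ha (this ▸ hj)
      rw [Set.disjoint_left]
      rintro p ⟨hp1, hp2⟩ ⟨hp3, hp4⟩
      rcases lt_or_gt_of_ne hne with h | h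
      · have := t23c_edge_mono (M := M) hδ1 hL (Nat.succ_le_of_lt h)
        have h' : t23c_edge δ M L ((a : ℕ) + 1) ≤ t23c_edge δ M L j := this
        linarith
      · have := t23c_edge_mono (M := M) hδ1 hL (Nat.succ_le_of_lt h)
        have h' : t23c_edge δ M L ((j : ℕ) + 1) ≤ t23c_edge δ M L a := this
        linarith

theorem mixed_moment_tendsto {δ : ℝ} (hδ : 0 < δ) (hδ1 : δ < 1) {M : ℕ} (α β : Fin M → ℕ) :
    ∃ l : ℂ, Tendsto (fun L : ℝ => ∫ x, ∏ j, (GG δ M L j x ^ α j * conj (GG δ M L j x) ^ β j) ∂mu) atTop (𝓝 l) := by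
  have h : ∀ j : Fin M, ∃ l : ℂ, Tendsto (fun L : ℝ => ∫ x, t23c_fac δ M α β L j x ∂mu) atTop (𝓝 l) := by
    intro j
    have hM : (0 : ℝ) < M := by
      have : 0 < M := lt_of_le_of_lt (Nat.zero_le _) j.2
      exact_mod_cast this
    have h1δ : 0 < 1 - δ := by linarith
    have ha : 0 < δ + (1 - δ) * (j : ℕ) / M := by positivity
    have hab : δ + (1 - δ) * (j : ℕ) / M < δ + (1 - δ) * ((j : ℕ) + 1) / M := by
      have : (1 - δ) * (j : ℕ) / M < (1 - δ) * ((j : ℕ) + 1) / M := by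
        gcongr
        linarith
      linarith
    exact window_moment_tendsto ha hab (α j) (β j)
  choose l hl using h
  refine ⟨∏ j, l j, ?_⟩
  have h2 : Tendsto (fun L : ℝ => ∏ j : Fin M, ∫ x, t23c_fac δ M α β L j x ∂mu) atTop (𝓝 (∏ j, l j)) :=
    tendsto_finsetProd _ fun j _ => hl j
  refine h2.congr' ?_
  filter_upwards [eventually_ge_atTop (0 : ℝ)] with L hL
  exact (t23c_prod hδ1 α β hL Finset.univ).symm

/-- expectations of fixed polynomials in the window sums converge -/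
theorem eval_tendsto {δ : ℝ} (hδ : 0 < δ) (hδ1 : δ < 1) {M : ℕ} (p : MvPolynomial (Fin M ⊕ Fin M) ℂ) :
    ∃ l : ℂ, Tendsto (fun L : ℝ => ∫ x, MvPolynomial.eval
      (Sum.elim (fun j => GG δ M L j x) (fun j => conj (GG δ M L j x))) p ∂mu) atTop (𝓝 l) := by
  have h := fun d : (Fin M ⊕ Fin M) →₀ ℕ =>
    mixed_moment_tendsto hδ hδ1 (fun j : Fin M => d (Sum.inl j)) (fun j => d (Sum.inr j))
  choose l hl using h
  refine ⟨∑ d ∈ p.support, p.coeff d * l d, ?_⟩
  have h2 : Tendsto (fun L : ℝ => ∑ d ∈ p.support, p.coeff d *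
      ∫ x, ∏ j, (GG δ M L j x ^ d (Sum.inl j) * conj (GG δ M L j x) ^ d (Sum.inr j)) ∂mu) atTop
      (𝓝 (∑ d ∈ p.support, p.coeff d * l d)) :=
    tendsto_finsetSum _ fun d _ => (hl d).const_mul _
  refine h2.congr fun L => ?_
  have hc : ∀ d : (Fin M ⊕ Fin M) →₀ ℕ, Continuous fun x =>
      ∏ j, (GG δ M L j x ^ d (Sum.inl j) * conj (GG δ M L j x) ^ d (Sum.inr j)) := by
    intro d
    refine continuous_finsetProd _ fun j _ => ?_
    exact ((t23c_cont_GG δ M L j).pow _).mul
      ((Complex.continuous_conj.comp (t23c_cont_GG δ M L j)).pow _)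
  have h3 : ∀ x, MvPolynomial.eval
      (Sum.elim (fun j => GG δ M L j x) (fun j => conj (GG δ M L j x))) p =
      ∑ d ∈ p.support, p.coeff d *
        ∏ j, (GG δ M L j x ^ d (Sum.inl j) * conj (GG δ M L j x) ^ d (Sum.inr j)) := by
    intro x
    rw [MvPolynomial.eval_eq']
    refine Finset.sum_congr rfl fun d _ => ?_
    rw [Fintype.prod_sum_type, ← Finset.prod_mul_distrib]
    simp only [Sum.elim_inl, Sum.elim_inr]
  simp_rw [h3]
  rw [integral_finsetSum]
  · refine Finset.sum_congr rfl fun d _ => ?_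
    rw [integral_const_mul]
  · intro d _
    exact (integrable_of_continuous (hc d)).const_mul _

end Pool.Agent.LibMM99
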