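import Mathlib

set_option autoImplicit false

namespace Pool.Agent.LibMM99

open MeasureTheory Filter Topology
open scoped ComplexConjugate

/-- the standard complex Gaussian measure: density `e^{-|z|^2}/π` -/
noncomputable def gC : Measure ℂ := (volume : Measure ℂ).withDensity fun z => ENNReal.ofReal (Real.exp (-‖z‖ ^ 2) / Real.pi)

private theorem gauss_integral (m : ℕ) : ∫ z : ℂ, ‖z‖ ^ (2 * m) * Real.exp (-‖z‖ ^ 2) =
    Real.pi * (m.factorial : ℝ) := by
  have h := Complex.integral_rpow_mul_exp_neg_rpow (p := 2) (q := 2 * m) (by norm_num)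
    (by have : (0 : ℝ) ≤ m := Nat.cast_nonneg m; linarith)
  have e1 : ∀ z : ℂ, ‖z‖ ^ (2 * (m : ℝ)) * Real.exp (-‖z‖ ^ (2 : ℝ)) =
      ‖z‖ ^ (2 * m) * Real.exp (-‖z‖ ^ 2) := by
    intro z
    have h1 : ‖z‖ ^ (2 * (m : ℝ)) = ‖z‖ ^ (2 * m) := by
      rw [← Real.rpow_natCast]; push_cast; rfl
    have h2 : ‖z‖ ^ (2 : ℝ) = ‖z‖ ^ 2 := by
      rw [← Real.rpow_natCast]; norm_num
    rw [h1, h2]
  simp only [e1] at h
  rw [h]
  have e2 : ((2 * (m : ℝ) + 2) / 2) = (m : ℝ) + 1 := by ring
  rw [e2, Real.Gamma_nat_eq_factorial]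
  ring

private theorem gauss_integrable_even (m : ℕ) :
    Integrable (fun z : ℂ => ‖z‖ ^ (2 * m) * Real.exp (-‖z‖ ^ 2)) := by
  apply Integrable.of_integral_ne_zero
  rw [gauss_integral]
  have := Real.pi_pos
  positivity

private theorem gauss_integrable (m : ℕ) :
    Integrable (fun z : ℂ => ‖z‖ ^ m * Real.exp (-‖z‖ ^ 2)) := by
  have h0 := (gauss_integrable_even 0).add (gauss_integrable_even m)
  refine h0.mono' ?_ ?_
  · apply Continuous.aestronglyMeasurable
    fun_prop
  · refine Eventually.of_forall fun z => ?_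
    rw [Real.norm_of_nonneg (by positivity)]
    simp only [Pi.add_apply, mul_zero, pow_zero, one_mul]
    have h1 : ‖z‖ ^ m ≤ 1 + ‖z‖ ^ (2 * m) := by
      rw [mul_comm 2 m, pow_mul]
      nlinarith [sq_nonneg (‖z‖ ^ m - 1), sq_nonneg (‖z‖ ^ m), pow_nonneg (norm_nonneg z) m]
    nlinarith [Real.exp_pos (-‖z‖ ^ 2)]

private theorem meas_dens : Measurable fun z : ℂ => ENNReal.ofReal (Real.exp (-‖z‖ ^ 2) / Real.pi) := by
  apply ENNReal.measurable_ofReal.comp
  apply Continuous.measurable
  fun_prop

theorem isProb_gC : IsProbabilityMeasure gC := by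
  constructor
  rw [gC, withDensity_apply _ MeasurableSet.univ, Measure.restrict_univ,
    ← ofReal_integral_eq_lintegral_ofReal]
  · have h := gauss_integral 0
    simp only [mul_zero, pow_zero, one_mul, Nat.factorial_zero, Nat.cast_one, mul_one] at h
    rw [integral_div, h, div_self Real.pi_ne_zero, ENNReal.ofReal_one]
  · have h := gauss_integrable 0
    simp only [pow_zero, one_mul] at h
    exact h.div_const _
  · refine Eventually.of_forall fun z => ?_
    have := Real.pi_pos
    simp only [Pi.zero_apply]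
    positivity

instance : IsProbabilityMeasure gC := isProb_gC

theorem integral_gC (f : ℂ → ℂ) : ∫ z, f z ∂gC = ∫ z, ((Real.exp (-‖z‖ ^ 2) / Real.pi : ℝ) : ℂ) * f z := by
  rw [gC, integral_withDensity_eq_integral_toReal_smul meas_dens
    (Eventually.of_forall fun z => ENNReal.ofReal_lt_top)]
  apply integral_congr_ae
  refine Eventually.of_forall fun z => ?_
  simp only
  rw [ENNReal.toReal_ofReal (by have := Real.pi_pos; positivity), Complex.real_smul]

theorem integrable_gC (a b : ℕ) : Integrable (fun z : ℂ => z ^ a * conj z ^ b) gC := by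
  rw [gC, integrable_withDensity_iff_integrable_smul' meas_dens
    (Eventually.of_forall fun z => ENNReal.ofReal_lt_top)]
  have h := (gauss_integrable (a + b)).div_const Real.pi
  refine h.mono' ?_ ?_
  · have hc : Measurable (fun z : ℂ => z ^ a * conj z ^ b) := by
      apply Continuous.measurable
      fun_prop
    have hm : Measurable (fun z : ℂ => (ENNReal.ofReal (Real.exp (-‖z‖ ^ 2) / Real.pi)).toReal •
        (z ^ a * conj z ^ b)) := meas_dens.ennreal_toReal.smul hc
    exact hm.aestronglyMeasurable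
  · refine Eventually.of_forall fun z => ?_
    rw [ENNReal.toReal_ofReal (by have := Real.pi_pos; positivity), norm_smul, norm_mul, norm_pow,
      norm_pow, Complex.norm_conj, ← pow_add, Real.norm_of_nonneg (by have := Real.pi_pos; positivity)]
    apply le_of_eq
    ring

/-- rotation invariance and the Gamma integral -/
theorem moment_gC (a b : ℕ) : ∫ z, z ^ a * conj z ^ b ∂gC = if a = b then (a.factorial : ℂ) else 0 := by
  split_ifs with hab
  · subst hab
    rw [integral_gC]
    have e1 : ∀ z : ℂ, ((Real.exp (-‖z‖ ^ 2) / Real.pi : ℝ) : ℂ) * (z ^ a * conj z ^ a) =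
        ((‖z‖ ^ (2 * a) * Real.exp (-‖z‖ ^ 2) / Real.pi : ℝ) : ℂ) := by
      intro z
      rw [← mul_pow, Complex.mul_conj, Complex.normSq_eq_norm_sq]
      push_cast
      rw [pow_mul]
      ring
    simp only [e1]
    rw [integral_complex_ofReal, integral_div, gauss_integral]
    have := Real.pi_ne_zero
    push_cast
    field_simp
  · set c : ℂ := Complex.exp ((Real.pi / ((a : ℝ) - b) : ℝ) * Complex.I) with hc
    have hab' : (a : ℝ) - b ≠ 0 := by
      rw [sub_ne_zero]; exact_mod_cast hab
    have hcn : ‖c‖ = 1 := Complex.norm_exp_ofReal_mul_I _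
    have hcc : c ^ a * conj c ^ b = -1 := by
      have h1 : conj c = Complex.exp (-((Real.pi / ((a : ℝ) - b) : ℝ) * Complex.I)) := by
        rw [hc, ← Complex.exp_conj]
        congr 1
        simp
      rw [h1, hc, ← Complex.exp_nat_mul, ← Complex.exp_nat_mul, ← Complex.exp_add]
      have h2 : (a : ℂ) * ((Real.pi / ((a : ℝ) - b) : ℝ) * Complex.I) +
          (b : ℂ) * -((Real.pi / ((a : ℝ) - b) : ℝ) * Complex.I) = Real.pi * Complex.I := by
        have h3 : (a : ℂ) - b ≠ 0 := by exact_mod_cast hab'
        push_cast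
        field_simp
        ring
      rw [h2, Complex.exp_pi_mul_I]
    set F : ℂ → ℂ := fun z => ((Real.exp (-‖z‖ ^ 2) / Real.pi : ℝ) : ℂ) * (z ^ a * conj z ^ b)
      with hF
    have hrot : ∀ z, F (c * z) = -F z := by
      intro z
      simp only [hF, norm_mul, hcn, one_mul, mul_pow, map_mul]
      linear_combination (((Real.exp (-‖z‖ ^ 2) / Real.pi : ℝ) : ℂ) * (z ^ a * conj z ^ b)) * hcc
    have hmp : ∫ z, F (c * z) = ∫ z, F z := by
      set u : Circle := ⟨c, by simpa [Submonoid.unitSphere] using hcn⟩ with hu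
      have h4 := (rotation u).measurePreserving.integral_comp
        (rotation u).toHomeomorph.measurableEmbedding F
      exact h4
    rw [integral_gC]
    change ∫ z, F z = 0
    have h5 : ∫ z, F (c * z) = -∫ z, F z := by
      simp only [hrot]
      rw [integral_neg]
    rw [hmp] at h5
    have h6 : (2 : ℂ) * ∫ z, F z = 0 := by linear_combination h5
    simpa using h6

end Pool.Agent.LibMM99
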