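import Mathlib
import Pool.Agent.LibMM99.K1a

set_option autoImplicit false

namespace Pool.Agent.LibMM99

open MeasureTheory Filter Topology
open scoped ComplexConjugate

/-- `M` independent standard complex Gaussians -/
noncomputable def gCM (M : ℕ) : Measure (Fin M → ℂ) := Measure.pi fun _ => gC

instance (M : ℕ) : IsProbabilityMeasure (gCM M) := by unfold gCM; infer_instance

theorem integrable_gCM {M : ℕ} (α β : Fin M → ℕ) :
    Integrable (fun z : Fin M → ℂ => ∏ j, (z j ^ α j * conj (z j) ^ β j)) (gCM M) :=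
  Integrable.fintype_prod (f := fun j (z : ℂ) => z ^ α j * conj z ^ β j)
    (fun j => integrable_gC (α j) (β j))

theorem moment_gCM {M : ℕ} (α β : Fin M → ℕ) :
    ∫ z, ∏ j, (z j ^ α j * conj (z j) ^ β j) ∂gCM M = ∏ j, if α j = β j then ((α j).factorial : ℂ) else 0 := by
  have h := integral_fintype_prod_eq_prod (𝕜 := ℂ) (μ := fun _ : Fin M => gC)
    (fun j (z : ℂ) => z ^ α j * conj z ^ β j)
  rw [gCM, h]
  exact Finset.prod_congr rfl fun j _ => moment_gC (α j) (β j)

private theorem integrable_norm_gC (m : ℕ) : Integrable (fun z : ℂ => ‖z‖ ^ m) gC := by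
  have h := (integrable_gC m 0).norm
  simpa using h

theorem integrable_norm_gCM {M : ℕ} (j : Fin M) (m : ℕ) : Integrable (fun z : Fin M → ℂ => ‖z j‖ ^ m) (gCM M) := by
  have hmp : MeasurePreserving (Function.eval j) (gCM M) gC :=
    measurePreserving_eval (fun _ : Fin M => gC) j
  exact hmp.integrable_comp_of_integrable (integrable_norm_gC m)

theorem abs_moment_gCM {M : ℕ} (j : Fin M) (s : ℕ) : ∫ z : Fin M → ℂ, ‖z j‖ ^ (2 * s) ∂gCM M = s.factorial := by
  have hmp : MeasurePreserving (Function.eval j) (gCM M) gC :=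
    measurePreserving_eval (fun _ : Fin M => gC) j
  have h1 : ∫ z : ℂ, ‖z‖ ^ (2 * s) ∂gC = s.factorial := by
    have h2 := moment_gC s s
    rw [if_pos rfl] at h2
    have e1 : ∀ z : ℂ, z ^ s * conj z ^ s = ((‖z‖ ^ (2 * s) : ℝ) : ℂ) := by
      intro z
      rw [← mul_pow, Complex.mul_conj, Complex.normSq_eq_norm_sq, pow_mul]
      push_cast
      rfl
    simp only [e1] at h2
    rw [integral_complex_ofReal] at h2
    exact_mod_cast h2
  have hae : AEStronglyMeasurable (fun z : ℂ => ‖z‖ ^ (2 * s)) (Measure.map (Function.eval j) (gCM M)) := by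
    apply Continuous.aestronglyMeasurable
    fun_prop
  have h3 := integral_map hmp.aemeasurable hae
  rw [hmp.map_eq, h1] at h3
  exact h3.symm

private noncomputable def dens (z : ℂ) : ENNReal := ENNReal.ofReal (Real.exp (-‖z‖ ^ 2) / Real.pi)

private theorem meas_dens' : Measurable dens := by
  unfold dens
  apply ENNReal.measurable_ofReal.comp
  apply Continuous.measurable
  fun_prop

private theorem lint_dens : ∫⁻ z, dens z = 1 := by
  have h := isProb_gC.measure_univ
  rw [gC, withDensity_apply _ MeasurableSet.univ, Measure.restrict_univ] at h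
  exact h

private theorem integrable_dens_real : Integrable (fun z : ℂ => Real.exp (-‖z‖ ^ 2) / Real.pi) := by
  refine ⟨?_, ?_⟩
  · apply Continuous.aestronglyMeasurable
    fun_prop
  · rw [hasFiniteIntegral_iff_ofReal]
    · have := lint_dens
      unfold dens at this
      rw [this]
      exact ENNReal.one_lt_top
    · refine Eventually.of_forall fun z => ?_
      have := Real.pi_pos
      simp only [Pi.zero_apply]
      positivity

private theorem pi_eq (M : ℕ) : gCM M = (volume : Measure (Fin M → ℂ)).withDensity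
    (fun z => ENNReal.ofReal ((Real.pi ^ M)⁻¹ * Real.exp (-∑ j, ‖z j‖ ^ 2))) := by
  unfold gCM
  have hpi := Real.pi_pos
  apply Measure.pi_eq
  intro s hs
  have hms : MeasurableSet (Set.univ.pi s) := MeasurableSet.univ_pi hs
  rw [withDensity_apply _ hms]
  have hprod : ∀ z : Fin M → ℂ, (Real.pi ^ M)⁻¹ * Real.exp (-∑ j, ‖z j‖ ^ 2) =
      ∏ j, (Real.exp (-‖z j‖ ^ 2) / Real.pi) := by
    intro z
    rw [Finset.prod_div_distrib, ← Real.exp_sum, Finset.prod_const, Finset.card_univ,
      Fintype.card_fin, Finset.sum_neg_distrib]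
    ring
  -- real version of the integral over the box
  set f : Fin M → ℂ → ℝ := fun j => (s j).indicator (fun z => Real.exp (-‖z‖ ^ 2) / Real.pi) with hf
  have hfint : ∀ j, Integrable (f j) := fun j => integrable_dens_real.indicator (hs j)
  have hf0 : ∀ j z, 0 ≤ f j z := by
    intro j z
    apply Set.indicator_nonneg
    intro z _
    positivity
  have h1 : ∫⁻ z in Set.univ.pi s, ENNReal.ofReal ((Real.pi ^ M)⁻¹ * Real.exp (-∑ j, ‖z j‖ ^ 2)) =
      ∫⁻ z : Fin M → ℂ, ENNReal.ofReal (∏ j, f j (z j)) := by
    rw [← lintegral_indicator hms]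
    apply lintegral_congr
    intro z
    by_cases hz : z ∈ Set.univ.pi s
    · rw [Set.indicator_of_mem hz, hprod]
      congr 1
      apply Finset.prod_congr rfl
      intro j _
      have hzj : z j ∈ s j := hz j (Set.mem_univ j)
      simp only [hf, Set.indicator_of_mem hzj]
    · rw [Set.indicator_of_notMem hz]
      have : ∃ j, z j ∉ s j := by
        by_contra hcon
        push Not at hcon
        exact hz fun j _ => hcon j
      obtain ⟨j, hj⟩ := this
      have h0 : ∏ j, f j (z j) = 0 := by
        apply Finset.prod_eq_zero (Finset.mem_univ j)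
        simp only [hf, Set.indicator_of_notMem hj]
      rw [h0, ENNReal.ofReal_zero]
  have hint : Integrable (fun z : Fin M → ℂ => ∏ j, f j (z j)) := by
    have := Integrable.fintype_prod (𝕜 := ℝ) (μ := fun _ : Fin M => (volume : Measure ℂ)) hfint
    exact this
  rw [h1, ← ofReal_integral_eq_lintegral_ofReal hint
    (Eventually.of_forall fun z => Finset.prod_nonneg fun j _ => hf0 j _)]
  have h2 := integral_fintype_prod_volume_eq_prod (𝕜 := ℝ) f
  rw [h2, ENNReal.ofReal_prod_of_nonneg (fun j _ => integral_nonneg (hf0 j))]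
  apply Finset.prod_congr rfl
  intro j _
  rw [gC, withDensity_apply _ (hs j), ← lintegral_indicator (hs j),
    ofReal_integral_eq_lintegral_ofReal (hfint j) (Eventually.of_forall (hf0 j))]
  apply lintegral_congr
  intro z
  by_cases hz : z ∈ s j
  · simp only [hf, Set.indicator_of_mem hz]
  · simp only [hf, Set.indicator_of_notMem hz, ENNReal.ofReal_zero]

/-- the measure in terms of the Lebesgue measure -/
theorem integral_gCM_eq {M : ℕ} (f : (Fin M → ℂ) → ℝ) :
    ∫ z, f z ∂gCM M = (Real.pi ^ M)⁻¹ * ∫ z : Fin M → ℂ, f z * Real.exp (-∑ j, ‖z j‖ ^ 2) := by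
  have hpi := Real.pi_pos
  have hm : Measurable (fun z : Fin M → ℂ =>
      ENNReal.ofReal ((Real.pi ^ M)⁻¹ * Real.exp (-∑ j, ‖z j‖ ^ 2))) := by
    apply ENNReal.measurable_ofReal.comp
    apply Continuous.measurable
    fun_prop
  rw [pi_eq, integral_withDensity_eq_integral_toReal_smul hm
    (Eventually.of_forall fun z => ENNReal.ofReal_lt_top), ← integral_const_mul]
  apply integral_congr_ae
  refine Eventually.of_forall fun z => ?_
  simp only
  rw [ENNReal.toReal_ofReal (by positivity), smul_eq_mul]
  ring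

end Pool.Agent.LibMM99
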