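import Mathlib

set_option autoImplicit false

namespace Pool.Agent.LibMM99

open MeasureTheory Filter Topology
open scoped ComplexConjugate

private noncomputable def t21aFold (R : ℝ) (θ : UnitAddCircle) : ℝ :=
  4 * R * (‖θ + ((1 / 4 : ℝ) : UnitAddCircle)‖ - 1 / 4)

private theorem t21aFold_continuous (R : ℝ) : Continuous (t21aFold R) := by
  unfold t21aFold
  fun_prop

private theorem t21aFold_coe {R : ℝ} (hR : 0 < R) {u : ℝ} (hu : |u| ≤ R) :
    t21aFold R ((u / (4 * R) : ℝ) : UnitAddCircle) = u := by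
  unfold t21aFold
  rw [abs_le] at hu
  have h1 : (((u / (4 * R) : ℝ) : UnitAddCircle) + ((1 / 4 : ℝ) : UnitAddCircle)) =
      ((u / (4 * R) + 1 / 4 : ℝ) : UnitAddCircle) := by
    rw [AddCircle.coe_add]
  rw [h1]
  have h0 : 0 ≤ u / (4 * R) + 1 / 4 := by
    rw [div_add_div _ _ (by positivity) (by norm_num)]
    apply div_nonneg <;> nlinarith
  have h2 : u / (4 * R) + 1 / 4 ≤ 1 / 2 := by
    rw [div_add_div _ _ (by positivity) (by norm_num), div_le_div_iff₀ (by positivity) (by norm_num)]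
    nlinarith
  have h3 : ‖((u / (4 * R) + 1 / 4 : ℝ) : AddCircle (1 : ℝ))‖ = |u / (4 * R) + 1 / 4| := by
    rw [AddCircle.norm_coe_eq_abs_iff (1 : ℝ) one_ne_zero, abs_of_nonneg h0]
    simpa using h2
  rw [h3, abs_of_nonneg h0]
  field_simp
  ring

/-- approximation by trigonometric polynomials on a box -/
theorem box_approx (m : ℕ) (b : (Fin m → ℝ) → ℂ) (hb : Continuous b) (H : ℝ) (hH : ∀ u, ‖b u‖ ≤ H)
    (R : ℝ) (hR : 0 < R) (η : ℝ) (hη : 0 < η) :
    ∃ (s : ℕ) (c : Fin s → ℂ) (ω : Fin s → Fin m → ℝ),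
      (∀ u : Fin m → ℝ, (∀ i, |u i| ≤ R) →
        ‖b u - ∑ j, c j * Complex.exp (((∑ i, ω j i * u i : ℝ) : ℂ) * Complex.I)‖ ≤ η) ∧
      (∀ u : Fin m → ℝ, ‖∑ j, c j * Complex.exp (((∑ i, ω j i * u i : ℝ) : ℂ) * Complex.I)‖ ≤ H + η) := by
  classical
  let B : C(UnitAddTorus (Fin m), ℂ) :=
    ⟨fun θ => b (fun i => t21aFold R (θ i)), by
      have := t21aFold_continuous R
      fun_prop⟩
  have hmem : B ∈ (Submodule.span ℂ (Set.range (UnitAddTorus.mFourier (d := Fin m)))).topologicalClosure := by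
    rw [UnitAddTorus.span_mFourier_closure_eq_top]
    trivial
  rw [← SetLike.mem_coe, Submodule.topologicalClosure_coe, Metric.mem_closure_iff] at hmem
  obtain ⟨g, hg, hdist⟩ := hmem η hη
  rw [SetLike.mem_coe, Finsupp.mem_span_range_iff_exists_finsupp] at hg
  obtain ⟨cc, hcc⟩ := hg
  have hdist' : ∀ θ, ‖B θ - g θ‖ ≤ η := by
    intro θ
    have h1 : ‖(B - g) θ‖ ≤ ‖B - g‖ := ContinuousMap.norm_coe_le_norm _ _
    rw [dist_eq_norm] at hdist
    rw [ContinuousMap.sub_apply] at h1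
    linarith
  have hgval : ∀ u : Fin m → ℝ, g (fun i => ((u i / (4 * R) : ℝ) : UnitAddCircle)) =
      ∑ j : Fin cc.support.card, cc (cc.support.equivFin.symm j : Fin m → ℤ) *
        Complex.exp (((∑ i, (2 * Real.pi * ((cc.support.equivFin.symm j : Fin m → ℤ) i : ℝ) / (4 * R)) * u i : ℝ) : ℂ)
          * Complex.I) := by
    intro u
    rw [← hcc]
    have h2 : (cc.sum fun i a => a • UnitAddTorus.mFourier (d := Fin m) i)
        (fun i => ((u i / (4 * R) : ℝ) : UnitAddCircle)) =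
        ∑ n ∈ cc.support, cc n * UnitAddTorus.mFourier (d := Fin m) n
          (fun i => ((u i / (4 * R) : ℝ) : UnitAddCircle)) := by
      rw [Finsupp.sum, ContinuousMap.sum_apply]
      rfl
    rw [h2, ← Finset.sum_coe_sort, ← Equiv.sum_comp cc.support.equivFin.symm]
    refine Finset.sum_congr rfl fun j _ => ?_
    congr 1
    simp only [UnitAddTorus.mFourier, ContinuousMap.coe_mk, fourier_coe_apply]
    rw [← Complex.exp_sum]
    congr 1
    push_cast
    rw [Finset.sum_mul]
    refine Finset.sum_congr rfl fun i _ => ?_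
    field_simp
  refine ⟨cc.support.card, fun j => cc (cc.support.equivFin.symm j : Fin m → ℤ),
    fun j i => 2 * Real.pi * ((cc.support.equivFin.symm j : Fin m → ℤ) i : ℝ) / (4 * R), ?_, ?_⟩
  · intro u hu
    rw [← hgval u]
    have h1 : B (fun i => ((u i / (4 * R) : ℝ) : UnitAddCircle)) = b u := by
      change b (fun i => t21aFold R (((u i / (4 * R) : ℝ) : UnitAddCircle))) = b u
      congr 1
      funext i
      exact t21aFold_coe hR (hu i)
    rw [← h1]
    exact hdist' _
  · intro u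
    rw [← hgval u]
    have h1 := hdist' (fun i => ((u i / (4 * R) : ℝ) : UnitAddCircle))
    have h2 : ‖B (fun i => ((u i / (4 * R) : ℝ) : UnitAddCircle))‖ ≤ H := hH _
    calc ‖g (fun i => ((u i / (4 * R) : ℝ) : UnitAddCircle))‖
        = ‖B (fun i => ((u i / (4 * R) : ℝ) : UnitAddCircle)) -
          (B (fun i => ((u i / (4 * R) : ℝ) : UnitAddCircle)) -
            g (fun i => ((u i / (4 * R) : ℝ) : UnitAddCircle)))‖ := by
          congr 1
          ring
      _ ≤ _ := norm_sub_le _ _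
      _ ≤ H + η := add_le_add h2 h1

end Pool.Agent.LibMM99
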