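import Mathlib

set_option autoImplicit false

namespace Pool.Agent.LibMM99

open MeasureTheory Filter Topology
open scoped ComplexConjugate

private theorem t21b_nonneg (n : ℕ) : ∀ v : ℝ, 0 ≤ v →
    ‖Complex.exp ((v : ℂ) * Complex.I) - ∑ l ∈ Finset.range n, ((v : ℂ) * Complex.I) ^ l / (l.factorial : ℂ)‖ ≤
      v ^ n / n.factorial := by
  induction n with
  | zero =>
    intro v _
    simp [Complex.norm_exp_ofReal_mul_I]
  | succ n ih =>
    intro v hv
    have hid : ∀ x : ℝ, HasDerivAt (fun y : ℝ => (y : ℂ) * Complex.I) Complex.I x := by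
      intro x
      have h := (Complex.ofRealCLM.hasDerivAt (x := x)).mul_const Complex.I
      simpa using h
    have hpow : ∀ (l : ℕ) (x : ℝ), HasDerivAt
        (fun y : ℝ => ((y : ℂ) * Complex.I) ^ (l + 1) / ((l + 1).factorial : ℂ))
        (Complex.I * (((x : ℂ) * Complex.I) ^ l / (l.factorial : ℂ))) x := by
      intro l x
      have h := ((hid x).pow (l + 1)).div_const ((l + 1).factorial : ℂ)
      refine h.congr_deriv ?_
      have h1 : ((l.factorial : ℕ) : ℂ) ≠ 0 := by exact_mod_cast l.factorial_ne_zero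
      have h2 : ((l : ℂ) + 1) ≠ 0 := by exact_mod_cast l.succ_ne_zero
      rw [Nat.factorial_succ]
      push_cast
      field_simp
    have hder : ∀ x : ℝ, HasDerivAt (fun y : ℝ => Complex.exp ((y : ℂ) * Complex.I) -
        ∑ l ∈ Finset.range (n + 1), ((y : ℂ) * Complex.I) ^ l / (l.factorial : ℂ))
        (Complex.I * (Complex.exp ((x : ℂ) * Complex.I) -
          ∑ l ∈ Finset.range n, ((x : ℂ) * Complex.I) ^ l / (l.factorial : ℂ))) x := by
      intro x
      have h1 : HasDerivAt (fun y : ℝ => Complex.exp ((y : ℂ) * Complex.I))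
          (Complex.exp ((x : ℂ) * Complex.I) * Complex.I) x := (hid x).cexp
      have h2 : HasDerivAt (fun y : ℝ => ∑ l ∈ Finset.range (n + 1),
          ((y : ℂ) * Complex.I) ^ l / (l.factorial : ℂ))
          (∑ l ∈ Finset.range n, Complex.I * (((x : ℂ) * Complex.I) ^ l / (l.factorial : ℂ))) x := by
        have h3 : HasDerivAt (fun y : ℝ => ∑ l ∈ Finset.range n,
          ((y : ℂ) * Complex.I) ^ (l + 1) / ((l + 1).factorial : ℂ))
          (∑ l ∈ Finset.range n, Complex.I * (((x : ℂ) * Complex.I) ^ l / (l.factorial : ℂ))) x :=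
          HasDerivAt.fun_sum fun l _ => hpow l x
        have h4 := h3.add_const (1 : ℂ)
        refine h4.congr_of_eventuallyEq (Filter.Eventually.of_forall fun y => ?_)
        simp only
        rw [Finset.sum_range_succ']
        simp
      refine (h1.sub h2).congr_deriv ?_
      rw [← Finset.mul_sum]
      ring
    have hB : ∀ x : ℝ, HasDerivAt (fun y : ℝ => y ^ (n + 1) / (n + 1).factorial)
        (x ^ n / n.factorial) x := by
      intro x
      have h := (hasDerivAt_pow (n + 1) x).div_const ((n + 1).factorial : ℝ)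
      refine h.congr_deriv ?_
      have h1 : ((n.factorial : ℕ) : ℝ) ≠ 0 := by exact_mod_cast n.factorial_ne_zero
      have h2 : ((n : ℝ) + 1) ≠ 0 := by positivity
      rw [Nat.factorial_succ]
      push_cast
      field_simp
    have hmain := image_norm_le_of_norm_deriv_right_le_deriv_boundary
      (f := fun y : ℝ => Complex.exp ((y : ℂ) * Complex.I) -
        ∑ l ∈ Finset.range (n + 1), ((y : ℂ) * Complex.I) ^ l / (l.factorial : ℂ))
      (f' := fun x => (Complex.I * (Complex.exp ((x : ℂ) * Complex.I) -
          ∑ l ∈ Finset.range n, ((x : ℂ) * Complex.I) ^ l / (l.factorial : ℂ))))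
      (a := 0) (b := v)
      (fun x _ => (hder x).continuousAt.continuousWithinAt)
      (fun x _ => (hder x).hasDerivWithinAt)
      (B := fun y : ℝ => y ^ (n + 1) / (n + 1).factorial)
      (B' := fun x => x ^ n / n.factorial)
      (by
        rw [Finset.sum_range_succ']
        simp)
      hB
      (fun x hx => by
        rw [norm_mul, Complex.norm_I, one_mul]
        exact ih x hx.1)
    exact hmain ⟨hv, le_refl v⟩

/-- Taylor expansion of the exponential on the imaginary axis -/
theorem exp_taylor (v : ℝ) (n : ℕ) :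
    ‖Complex.exp ((v : ℂ) * Complex.I) - ∑ l ∈ Finset.range n, ((v : ℂ) * Complex.I) ^ l / (l.factorial : ℂ)‖ ≤
      |v| ^ n / n.factorial := by
  rcases le_total 0 v with hv | hv
  · rw [abs_of_nonneg hv]
    exact t21b_nonneg n v hv
  · rw [abs_of_nonpos hv]
    have h := t21b_nonneg n (-v) (by linarith)
    rw [← Complex.norm_conj] at h
    have hc : conj (Complex.exp (((-v : ℝ) : ℂ) * Complex.I) -
        ∑ l ∈ Finset.range n, (((-v : ℝ) : ℂ) * Complex.I) ^ l / (l.factorial : ℂ)) =
        Complex.exp ((v : ℂ) * Complex.I) -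
          ∑ l ∈ Finset.range n, ((v : ℂ) * Complex.I) ^ l / (l.factorial : ℂ) := by
      rw [map_sub, ← Complex.exp_conj, map_sum]
      simp [Complex.conj_ofReal]
    rw [hc] at h
    exact h

end Pool.Agent.LibMM99
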