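import Mathlib
import Pool.Agent.LibMM99.T01
import Pool.Agent.LibMM99.K1b
import Pool.Agent.LibMM99.K3

set_option autoImplicit false

namespace Pool.Agent.LibMM99

open MeasureTheory Filter Topology
open scoped ComplexConjugate

/-- expansion into monomials -/
private theorem k4_eval {M : ℕ} (P : MvPolynomial (Fin M ⊕ Fin M) ℂ) (z : Fin M → ℂ) :
    MvPolynomial.eval (Sum.elim z (fun i => conj (z i))) P =
      ∑ d ∈ P.support, P.coeff d * ∏ j, (z j ^ d (Sum.inl j) * conj (z j) ^ d (Sum.inr j)) := by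
  rw [MvPolynomial.eval_eq']
  refine Finset.sum_congr rfl fun d _ => ?_
  rw [Fintype.prod_sum_type, Finset.prod_mul_distrib]
  simp only [Sum.elim_inl, Sum.elim_inr]

private theorem k4_scale {M : ℕ} (v : Fin M → ℝ) (hv : ∀ j, 0 ≤ v j) (α β : Fin M → ℕ) (z : Fin M → ℂ) :
    ∏ j, ((((Real.sqrt (v j) : ℝ) : ℂ) * z j) ^ α j * conj (((Real.sqrt (v j) : ℝ) : ℂ) * z j) ^ β j) =
      (∏ j, ((Real.sqrt (v j) : ℝ) : ℂ) ^ (α j + β j)) * ∏ j, (z j ^ α j * conj (z j) ^ β j) := by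
  rw [← Finset.prod_mul_distrib]
  refine Finset.prod_congr rfl fun j _ => ?_
  rw [map_mul, Complex.conj_ofReal, mul_pow, mul_pow, pow_add]
  ring

private theorem k4_gauss_int {M : ℕ} (v : Fin M → ℝ) (hv : ∀ j, 0 ≤ v j) (α β : Fin M → ℕ) :
    Integrable (fun z : Fin M → ℂ =>
      ∏ j, ((((Real.sqrt (v j) : ℝ) : ℂ) * z j) ^ α j * conj (((Real.sqrt (v j) : ℝ) : ℂ) * z j) ^ β j)) (gCM M) := by
  simp only [k4_scale v hv α β]
  exact (integrable_gCM α β).const_mul _

private theorem k4_gauss {M : ℕ} (v : Fin M → ℝ) (hv : ∀ j, 0 ≤ v j) (α β : Fin M → ℕ) :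
    ∫ z : Fin M → ℂ, ∏ j, ((((Real.sqrt (v j) : ℝ) : ℂ) * z j) ^ α j *
      conj (((Real.sqrt (v j) : ℝ) : ℂ) * z j) ^ β j) ∂gCM M =
      ∏ j, if α j = β j then ((α j).factorial : ℂ) * ((v j : ℝ) : ℂ) ^ α j else 0 := by
  simp only [k4_scale v hv α β]
  rw [integral_const_mul, moment_gCM, ← Finset.prod_mul_distrib]
  refine Finset.prod_congr rfl fun j _ => ?_
  by_cases h : α j = β j
  · rw [if_pos h, if_pos h, ← h, ← two_mul, pow_mul, ← Complex.ofReal_pow, Real.sq_sqrt (hv j)]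
    ring
  · rw [if_neg h, if_neg h, mul_zero]

/-- convergence of the moments of a polynomial -/
private theorem k4_poly {M : ℕ} (v : Fin M → ℝ) (hv : ∀ j, 0 ≤ v j)
    (G : ℝ → Fin M → Om → ℂ) (hG : ∀ L j, Continuous (G L j))
    (hmix : ∀ α β : Fin M → ℕ, Tendsto (fun L : ℝ => ∫ x, ∏ j, (G L j x ^ α j * conj (G L j x) ^ β j) ∂mu) atTop
      (𝓝 (∏ j, if α j = β j then ((α j).factorial : ℂ) * ((v j : ℝ) : ℂ) ^ α j else 0)))
    (P : MvPolynomial (Fin M ⊕ Fin M) ℂ) :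
    Tendsto (fun L : ℝ => ∫ x, MvPolynomial.eval (Sum.elim (fun i => G L i x) (fun i => conj (G L i x))) P ∂mu) atTop
      (𝓝 (∫ z, MvPolynomial.eval (Sum.elim (fun j => ((Real.sqrt (v j) : ℝ) : ℂ) * z j)
        (fun j => conj (((Real.sqrt (v j) : ℝ) : ℂ) * z j))) P ∂gCM M)) := by
  have h1 : ∀ L : ℝ, ∫ x, MvPolynomial.eval (Sum.elim (fun i => G L i x) (fun i => conj (G L i x))) P ∂mu =
      ∑ d ∈ P.support, P.coeff d * ∫ x, ∏ j, (G L j x ^ d (Sum.inl j) * conj (G L j x) ^ d (Sum.inr j)) ∂mu := by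
    intro L
    have hc : ∀ d : (Fin M ⊕ Fin M) →₀ ℕ, Continuous fun x : Om =>
        ∏ j, (G L j x ^ d (Sum.inl j) * conj (G L j x) ^ d (Sum.inr j)) := by
      intro d
      refine continuous_finsetProd _ fun j _ => ?_
      exact ((hG L j).pow _).mul ((Complex.continuous_conj.comp (hG L j)).pow _)
    have h2 : (fun x : Om => MvPolynomial.eval (Sum.elim (fun i => G L i x) (fun i => conj (G L i x))) P) =
        fun x => ∑ d ∈ P.support, P.coeff d * ∏ j, (G L j x ^ d (Sum.inl j) * conj (G L j x) ^ d (Sum.inr j)) := by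
      funext x
      exact k4_eval P (fun i => G L i x)
    rw [h2, integral_finsetSum]
    · refine Finset.sum_congr rfl fun d _ => ?_
      rw [integral_const_mul]
    · intro d _
      exact (integrable_of_continuous (hc d)).const_mul _
  have h3 : ∫ z, MvPolynomial.eval (Sum.elim (fun j => ((Real.sqrt (v j) : ℝ) : ℂ) * z j)
        (fun j => conj (((Real.sqrt (v j) : ℝ) : ℂ) * z j))) P ∂gCM M =
      ∑ d ∈ P.support, P.coeff d * ∏ j, if d (Sum.inl j) = d (Sum.inr j) then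
        ((d (Sum.inl j)).factorial : ℂ) * ((v j : ℝ) : ℂ) ^ d (Sum.inl j) else 0 := by
    have h2 : (fun z : Fin M → ℂ => MvPolynomial.eval (Sum.elim (fun j => ((Real.sqrt (v j) : ℝ) : ℂ) * z j)
        (fun j => conj (((Real.sqrt (v j) : ℝ) : ℂ) * z j))) P) =
        fun z => ∑ d ∈ P.support, P.coeff d * ∏ j, ((((Real.sqrt (v j) : ℝ) : ℂ) * z j) ^ d (Sum.inl j) *
          conj (((Real.sqrt (v j) : ℝ) : ℂ) * z j) ^ d (Sum.inr j)) := by
      funext z
      exact k4_eval P (fun j => ((Real.sqrt (v j) : ℝ) : ℂ) * z j)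
    rw [h2, integral_finsetSum]
    · refine Finset.sum_congr rfl fun d _ => ?_
      rw [integral_const_mul, k4_gauss v hv (fun j => d (Sum.inl j)) (fun j => d (Sum.inr j))]
    · intro d _
      exact (k4_gauss_int v hv (fun j => d (Sum.inl j)) (fun j => d (Sum.inr j))).const_mul _
  rw [h3]
  simp only [h1]
  refine tendsto_finsetSum _ fun d _ => ?_
  exact (hmix (fun j => d (Sum.inl j)) (fun j => d (Sum.inr j))).const_mul _

private theorem k4_cont {M : ℕ} (Q : MvPolynomial (Fin M) ℂ) {k : ℝ} (hk : 0 < k) :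
    Continuous fun z : Fin M → ℂ => ‖MvPolynomial.eval z Q‖ ^ k :=
  (MvPolynomial.continuous_eval Q).norm.rpow_const fun _ => Or.inr hk.le

/-- one space: the absolute moment is close to the moment of the polynomial -/
private theorem k4_close {Ω : Type} {mΩ : MeasurableSpace Ω} {P : Measure Ω} (f : Ω → ℝ) (p q : Ω → ℂ)
    (hf : AEStronglyMeasurable f P) (hp : Integrable p P) (hq : Integrable q P)
    (h : ∀ x, |f x - (p x).re| ≤ (q x).re) {ε : ℝ} (hε : ∫ x, (q x).re ∂P ≤ ε) :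
    Integrable f P ∧ |∫ x, f x ∂P - (∫ x, p x ∂P).re| ≤ ε := by
  have hpr : Integrable (fun x => (p x).re) P := hp.re
  have hqr : Integrable (fun x => (q x).re) P := hq.re
  have hfi : Integrable f P := by
    refine Integrable.mono' (hqr.add hpr.norm) hf (Eventually.of_forall fun x => ?_)
    have h1 := h x
    have h2 : |f x| ≤ |f x - (p x).re| + |(p x).re| := by
      have := abs_add_le (f x - (p x).re) ((p x).re)
      rwa [sub_add_cancel] at this
    simp only [Pi.add_apply, Real.norm_eq_abs]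
    linarith
  refine ⟨hfi, ?_⟩
  have h3 : (∫ x, p x ∂P).re = ∫ x, (p x).re ∂P := by
    have := integral_re (𝕜 := ℂ) (f := p) (μ := P) hp
    simpa using this.symm
  rw [h3, ← integral_sub hfi hpr]
  calc |∫ x, (f x - (p x).re) ∂P| ≤ ∫ x, |f x - (p x).re| ∂P := abs_integral_le_integral_abs
    _ ≤ ∫ x, (q x).re ∂P := integral_mono (hfi.sub hpr).abs hqr h
    _ ≤ ε := hε

/-- method of moments for absolute moments of polynomials in asymptotically Gaussian variables -/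
theorem moment_method {M : ℕ} (Q : MvPolynomial (Fin M) ℂ) {k : ℝ} (hk : 0 < k) (v : Fin M → ℝ) (hv : ∀ j, 0 ≤ v j)
    (G : ℝ → Fin M → Om → ℂ) (hG : ∀ L j, Continuous (G L j)) {V : ℝ} (hV : 0 ≤ V) {L0 : ℝ}
    (hbd : ∀ L : ℝ, L0 ≤ L → ∀ j s, ∫ x, ‖G L j x‖ ^ (2 * s) ∂mu ≤ (s.factorial : ℝ) * V ^ s)
    (hmix : ∀ α β : Fin M → ℕ, Tendsto (fun L : ℝ => ∫ x, ∏ j, (G L j x ^ α j * conj (G L j x) ^ β j) ∂mu) atTop
      (𝓝 (∏ j, if α j = β j then ((α j).factorial : ℂ) * ((v j : ℝ) : ℂ) ^ α j else 0))) :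
    Tendsto (fun L : ℝ => ∫ x, ‖MvPolynomial.eval (fun j => G L j x) Q‖ ^ k ∂mu) atTop
      (𝓝 (∫ z, ‖MvPolynomial.eval (fun j => ((Real.sqrt (v j) : ℝ) : ℂ) * z j) Q‖ ^ k ∂gCM M)) := by
  set v0 : ℝ := V + ∑ j, v j with hv0
  have hs : 0 ≤ ∑ j, v j := Finset.sum_nonneg fun j _ => hv j
  have hv00 : 0 ≤ v0 := by linarith
  have hVv : V ≤ v0 := by linarith
  have hjv : ∀ j, v j ≤ v0 := by
    intro j
    have := Finset.single_le_sum (f := v) (fun i _ => hv i) (Finset.mem_univ j)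
    linarith
  rw [Metric.tendsto_atTop]
  intro ε hε
  obtain ⟨p, q, hpq, hint⟩ := trig_taylor_gen M hk Q v0 (ε / 4) hv00 (by positivity)
  -- the Gaussian side
  have hgc : Continuous fun z : Fin M → ℂ => (fun j => ((Real.sqrt (v j) : ℝ) : ℂ) * z j) := by
    refine continuous_pi fun j => ?_
    exact continuous_const.mul (continuous_apply j)
  obtain ⟨g1, g2, g3⟩ := hint (Fin M → ℂ) _ (gCM M) inferInstance
    (fun j z => ((Real.sqrt (v j) : ℝ) : ℂ) * z j)
    (fun j => (continuous_const.mul (continuous_apply j)).aestronglyMeasurable)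
    (fun j s => by
      have h1 : (fun z : Fin M → ℂ => ‖((Real.sqrt (v j) : ℝ) : ℂ) * z j‖ ^ (2 * s)) =
          fun z => ‖((Real.sqrt (v j) : ℝ) : ℂ)‖ ^ (2 * s) * ‖z j‖ ^ (2 * s) := by
        funext z
        rw [norm_mul, mul_pow]
      rw [h1]
      exact (integrable_norm_gCM j (2 * s)).const_mul _)
    (fun j s => by
      have h1 : (fun z : Fin M → ℂ => ‖((Real.sqrt (v j) : ℝ) : ℂ) * z j‖ ^ (2 * s)) =
          fun z => v j ^ s * ‖z j‖ ^ (2 * s) := by
        funext z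
        rw [norm_mul, mul_pow, Complex.norm_real, Real.norm_of_nonneg (Real.sqrt_nonneg _), pow_mul,
          Real.sq_sqrt (hv j)]
      rw [h1, integral_const_mul, abs_moment_gCM, mul_comm]
      have h2 : v j ^ s ≤ v0 ^ s := pow_le_pow_left₀ (hv j) (hjv j) s
      exact mul_le_mul_of_nonneg_left h2 (Nat.cast_nonneg _))
  obtain ⟨_, g4⟩ := k4_close (P := gCM M)
    (fun z => ‖MvPolynomial.eval (fun j => ((Real.sqrt (v j) : ℝ) : ℂ) * z j) Q‖ ^ k) _ _
    ((k4_cont Q hk).comp hgc).aestronglyMeasurable g1 g2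
    (fun z => hpq (fun j => ((Real.sqrt (v j) : ℝ) : ℂ) * z j)) g3
  -- the moments of `p`
  have hlim := k4_poly v hv G hG hmix p
  obtain ⟨L1, hL1⟩ := (Metric.tendsto_atTop.1 hlim) (ε / 4) (by positivity)
  refine ⟨max L0 L1, fun L hL => ?_⟩
  have hLL0 : L0 ≤ L := le_trans (le_max_left _ _) hL
  have hLL1 : L1 ≤ L := le_trans (le_max_right _ _) hL
  obtain ⟨m1, m2, m3⟩ := hint Om _ mu inferInstance (fun j x => G L j x)
    (fun j => (hG L j).aestronglyMeasurable)
    (fun j s => integrable_of_continuous ((hG L j).norm.pow _))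
    (fun j s => by
      refine (hbd L hLL0 j s).trans ?_
      have h2 : V ^ s ≤ v0 ^ s := pow_le_pow_left₀ hV hVv s
      exact mul_le_mul_of_nonneg_left h2 (Nat.cast_nonneg _))
  have hGc : Continuous fun x : Om => (fun j => G L j x) := continuous_pi fun j => hG L j
  obtain ⟨_, m4⟩ := k4_close (P := mu)
    (fun x => ‖MvPolynomial.eval (fun j => G L j x) Q‖ ^ k) _ _
    ((k4_cont Q hk).comp hGc).aestronglyMeasurable m1 m2
    (fun x => hpq (fun j => G L j x)) m3
  have h5 := hL1 L hLL1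
  rw [dist_eq_norm] at h5
  have h6 : |(∫ x, MvPolynomial.eval (Sum.elim (fun i => G L i x) (fun i => conj (G L i x))) p ∂mu).re -
      (∫ z, MvPolynomial.eval (Sum.elim (fun j => ((Real.sqrt (v j) : ℝ) : ℂ) * z j)
        (fun j => conj (((Real.sqrt (v j) : ℝ) : ℂ) * z j))) p ∂gCM M).re| < ε / 4 := by
    rw [← Complex.sub_re]
    exact lt_of_le_of_lt (Complex.abs_re_le_norm _) h5
  rw [Real.dist_eq]
  rw [abs_le] at m4 g4
  rw [abs_lt] at h6 ⊢
  constructor
  · linarith [m4.1, m4.2, g4.1, g4.2, h6.1, h6.2]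
  · linarith [m4.1, m4.2, g4.1, g4.2, h6.1, h6.2]

end Pool.Agent.LibMM99
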