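import Mathlib
import Pool.Agent.LibZM.Tau

set_option autoImplicit false

namespace Pool.Agent.LibMM99

open MeasureTheory Filter Topology
open scoped ComplexConjugate

namespace T04aux

theorem dcoef_add_le {α : ℝ} (hα : 1 ≤ α) (a b : ℕ) :
    LibZM.dcoef α (a + b) ≤ LibZM.dcoef α a * LibZM.dcoef α b := by
  have hα0 : 0 ≤ α := by linarith
  have h : LibZM.dcoef α (a + b) =
      LibZM.dcoef α a * ∏ i ∈ Finset.range b, (α + ((a + i : ℕ) : ℝ)) / (((a + i : ℕ) : ℝ) + 1) := by
    unfold LibZM.dcoef
    rw [Finset.prod_range_add]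
  rw [h]
  apply mul_le_mul_of_nonneg_left _ (LibZM.dcoef_nonneg hα0 a)
  unfold LibZM.dcoef
  apply Finset.prod_le_prod
  · intro i _
    positivity
  · intro i _
    rw [div_le_div_iff₀ (by positivity) (by positivity)]
    push_cast
    have h1 : 0 ≤ (a : ℝ) * (α - 1) := mul_nonneg (Nat.cast_nonneg a) (by linarith)
    nlinarith

theorem tau_eq_prod {α : ℝ} {n : ℕ} (hn : n ≠ 0) (s : Finset ℕ) (hs : n.primeFactors ⊆ s) :
    LibZM.tau α n = ∏ p ∈ s, LibZM.dcoef α (n.factorization p) := by
  rw [LibZM.tau_apply hn]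
  rw [Finsupp.prod_of_support_subset _ (by simpa using hs)]
  intro i _
  exact LibZM.dcoef_zero α

end T04aux

theorem tau_mul_le {α : ℝ} (hα : 1 ≤ α) (m n : ℕ) :
    LibZM.tau α (m * n) ≤ LibZM.tau α m * LibZM.tau α n := by
  have hα0 : 0 ≤ α := by linarith
  rcases eq_or_ne m 0 with rfl | hm
  · simp
  rcases eq_or_ne n 0 with rfl | hn
  · simp
  have hmn : m * n ≠ 0 := mul_ne_zero hm hn
  have e1 : m.primeFactors ⊆ (m * n).primeFactors := Nat.primeFactors_mono (Nat.dvd_mul_right m n) hmn
  have e2 : n.primeFactors ⊆ (m * n).primeFactors := Nat.primeFactors_mono (Nat.dvd_mul_left n m) hmn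
  rw [T04aux.tau_eq_prod hmn _ (Finset.Subset.refl _), T04aux.tau_eq_prod hm _ e1,
    T04aux.tau_eq_prod hn _ e2, ← Finset.prod_mul_distrib]
  apply Finset.prod_le_prod
  · intro p _
    exact LibZM.dcoef_nonneg hα0 _
  · intro p _
    rw [Nat.factorization_mul hm hn]
    exact T04aux.dcoef_add_le hα _ _

theorem tau_le_pow (k n : ℕ) : LibZM.tau (k : ℝ) n ≤ (n : ℝ) ^ k := by
  induction k generalizing n with
  | zero =>
    rw [Nat.cast_zero, LibZM.tau_zero_eq, ArithmeticFunction.one_apply, pow_zero]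
    split_ifs
    · exact le_rfl
    · exact zero_le_one
  | succ k ih =>
    rcases eq_or_ne n 0 with rfl | hn
    · simp
    rw [Nat.cast_succ, ← LibZM.tau_mul, ArithmeticFunction.mul_apply]
    have h1 : ∀ q ∈ n.divisorsAntidiagonal,
        LibZM.tau (k : ℝ) q.1 * LibZM.tau 1 q.2 ≤ (n : ℝ) ^ k := by
      intro q hq
      rw [Nat.mem_divisorsAntidiagonal] at hq
      have hq2 : q.2 ≠ 0 := by
        rintro h
        rw [h, mul_zero] at hq
        exact hn hq.1.symm
      rw [LibZM.tau_one_apply hq2, mul_one]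
      apply (ih q.1).trans
      apply pow_le_pow_left₀ (Nat.cast_nonneg _)
      exact_mod_cast Nat.le_of_dvd (Nat.pos_of_ne_zero hn) ⟨q.2, hq.1.symm⟩
    refine (Finset.sum_le_card_nsmul _ _ _ h1).trans ?_
    rw [nsmul_eq_mul, pow_succ, mul_comm]
    apply mul_le_mul_of_nonneg_left _ (by positivity)
    rw [← Nat.map_div_right_divisors, Finset.card_map]
    exact_mod_cast Nat.card_divisors_le_self n

/-- the number of `r`-tuples from `s` with product `N` is at most `d_r(N)` -/
theorem card_prod_eq_le (r : ℕ) (s : Finset ℕ) (hs : ∀ n ∈ s, 1 ≤ n) (N : ℕ) (hN : 1 ≤ N) :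
    ((Fintype.piFinset fun _ : Fin r => s).filter fun f => ∏ i, f i = N).card ≤ LibZM.tau (r : ℝ) N := by
  induction r generalizing N with
  | zero =>
    rw [Nat.cast_zero, LibZM.tau_zero_eq, ArithmeticFunction.one_apply]
    by_cases h1 : N = 1
    · rw [if_pos h1]
      have : ((Fintype.piFinset fun _ : Fin 0 => s).filter fun f => ∏ i, f i = N).card ≤ 1 := by
        rw [Finset.card_le_one]
        intro a _ b _
        exact Subsingleton.elim a b
      exact_mod_cast this
    · rw [if_neg h1]
      have : ((Fintype.piFinset fun _ : Fin 0 => s).filter fun f => ∏ i, f i = N) = ∅ := by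
        rw [Finset.filter_eq_empty_iff]
        intro f _ hf
        apply h1
        rw [← hf]
        simp
      rw [this]
      simp
  | succ r ih =>
    have hcard : ((Fintype.piFinset fun _ : Fin (r + 1) => s).filter fun f => ∏ i, f i = N).card ≤
        (N.divisorsAntidiagonal.sigma (fun q =>
          (Fintype.piFinset fun _ : Fin r => s).filter fun f => ∏ i, f i = q.2)).card := by
      apply Finset.card_le_card_of_injOn (fun f => ⟨(f 0, ∏ i, Fin.tail f i), Fin.tail f⟩)
      · intro f hf
        rw [Finset.mem_coe, Finset.mem_filter, Fintype.mem_piFinset, Fin.prod_univ_succ] at hf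
        rw [Finset.mem_coe, Finset.mem_sigma, Nat.mem_divisorsAntidiagonal, Finset.mem_filter,
          Fintype.mem_piFinset]
        refine ⟨⟨hf.2, by omega⟩, fun i => hf.1 _, rfl⟩
      · intro f _ g _ hfg
        simp only [Sigma.mk.injEq, Prod.mk.injEq, heq_eq_eq] at hfg
        rw [← Fin.cons_self_tail f, ← Fin.cons_self_tail g, hfg.1.1, hfg.2]
    rw [Finset.card_sigma] at hcard
    have h2 : (((Fintype.piFinset fun _ : Fin (r + 1) => s).filter fun f => ∏ i, f i = N).card : ℝ) ≤
        ∑ q ∈ N.divisorsAntidiagonal,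
          (((Fintype.piFinset fun _ : Fin r => s).filter fun f => ∏ i, f i = q.2).card : ℝ) := by
      exact_mod_cast hcard
    refine h2.trans ?_
    rw [Nat.cast_succ, add_comm (r : ℝ) 1, ← LibZM.tau_mul, ArithmeticFunction.mul_apply]
    apply Finset.sum_le_sum
    intro q hq
    rw [Nat.mem_divisorsAntidiagonal] at hq
    have hq1 : q.1 ≠ 0 := by
      rintro h
      rw [h, zero_mul] at hq
      omega
    have hq2 : q.2 ≠ 0 := by
      rintro h
      rw [h, mul_zero] at hq
      omega
    rw [LibZM.tau_one_apply hq1, one_mul]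
    exact ih q.2 (Nat.pos_of_ne_zero hq2)

end Pool.Agent.LibMM99
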