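import Mathlib
import Pool.Agent.LibMM99.T01
import Pool.Agent.LibMM99.T02
import Pool.Agent.LibMM99.T04

set_option autoImplicit false

namespace Pool.Agent.LibMM99

open MeasureTheory Filter Topology
open scoped ComplexConjugate

private theorem T05_ch_prod (x : Om) {κ : Type*} (t : Finset κ) (m : κ → ℕ)
    (hm : ∀ j ∈ t, m j ≠ 0) : ch x (∏ j ∈ t, m j) = ∏ j ∈ t, ch x (m j) := by
  classical
  induction t using Finset.induction_on with
  | empty => simp [ch_one]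
  | insert j t hj ih =>
    rw [Finset.prod_insert hj, Finset.prod_insert hj,
      ch_mul x (hm j (Finset.mem_insert_self j t))
        (Finset.prod_ne_zero_iff.2 fun i hi => hm i (Finset.mem_insert_of_mem hi)),
      ih (fun i hi => hm i (Finset.mem_insert_of_mem hi))]

private theorem T05_tau_prod {r : ℕ} (t : Finset (Fin r)) (m : Fin r → ℕ) :
    LibZM.tau (r : ℝ) (∏ j ∈ t, m j) ≤ ∏ j ∈ t, LibZM.tau (r : ℝ) (m j) := by
  classical
  induction t using Finset.induction_on with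
  | empty => simp [(LibZM.tau_isMultiplicative (r : ℝ)).map_one]
  | insert j t hj ih =>
    rw [Finset.prod_insert hj, Finset.prod_insert hj]
    have hr : 1 ≤ r := Nat.one_le_iff_ne_zero.2 (by
      rintro rfl
      exact j.elim0)
    refine (tau_mul_le (by exact_mod_cast hr) _ _).trans ?_
    exact mul_le_mul_of_nonneg_left ih (LibZM.tau_nonneg (by positivity) _)

/-- mean square of a finite sum with arbitrary coincidences -/
private theorem T05_sq {κ : Type*} (F : Finset κ) (P : κ → ℕ) (hP : ∀ ν ∈ F, P ν ≠ 0) (c : κ → ℂ) :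
    ∫ x, ‖∑ ν ∈ F, c ν * ch x (P ν)‖ ^ 2 ∂mu ≤
      ∑ ν ∈ F, ∑ ν' ∈ F, if P ν = P ν' then ‖c ν‖ * ‖c ν'‖ else 0 := by
  have h1 : ((∫ x, ‖∑ ν ∈ F, c ν * ch x (P ν)‖ ^ 2 ∂mu : ℝ) : ℂ) =
      ∑ ν ∈ F, ∑ ν' ∈ F, c ν * conj (c ν') * (if P ν = P ν' then 1 else 0) := by
    rw [← integral_complex_ofReal]
    have h2 : ∀ x : Om, (((‖∑ ν ∈ F, c ν * ch x (P ν)‖ ^ 2 : ℝ)) : ℂ) =
        ∑ ν ∈ F, ∑ ν' ∈ F, c ν * conj (c ν') * (ch x (P ν) * conj (ch x (P ν'))) := by
      intro x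
      rw [← Complex.normSq_eq_norm_sq, ← Complex.mul_conj, map_sum, Finset.sum_mul_sum]
      apply Finset.sum_congr rfl
      intro ν _
      apply Finset.sum_congr rfl
      intro ν' _
      rw [map_mul]
      ring
    simp_rw [h2]
    have hc : ∀ ν ν' : κ, Continuous fun x : Om =>
        c ν * conj (c ν') * (ch x (P ν) * conj (ch x (P ν'))) := by
      intro ν ν'
      exact continuous_const.mul ((continuous_ch _).mul
        (Complex.continuous_conj.comp (continuous_ch _)))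
    rw [integral_finset_sum]
    swap
    · intro ν _
      exact integrable_of_continuous (continuous_finset_sum _ fun ν' _ => hc ν ν')
    apply Finset.sum_congr rfl
    intro ν hν
    rw [integral_finset_sum]
    swap
    · intro ν' _
      exact integrable_of_continuous (hc ν ν')
    apply Finset.sum_congr rfl
    intro ν' hν'
    rw [integral_const_mul, integral_ch (hP ν hν) (hP ν' hν')]
  have h3 : ∫ x, ‖∑ ν ∈ F, c ν * ch x (P ν)‖ ^ 2 ∂mu =
      ‖((∫ x, ‖∑ ν ∈ F, c ν * ch x (P ν)‖ ^ 2 ∂mu : ℝ) : ℂ)‖ := by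
    rw [Complex.norm_real, Real.norm_of_nonneg]
    exact integral_nonneg fun x => by positivity
  rw [h3, h1]
  refine (norm_sum_le _ _).trans (Finset.sum_le_sum fun ν _ => ?_)
  refine (norm_sum_le _ _).trans (Finset.sum_le_sum fun ν' _ => ?_)
  rw [norm_mul, norm_mul, RCLike.norm_conj]
  split_ifs <;> simp

/-- moment lemma -/
theorem moment_le (r : ℕ) {ι : Type*} (s : Finset ι) (n : ι → ℕ) (a : ι → ℂ) (H : ℝ)
    (hn : ∀ i ∈ s, 1 ≤ n i) (hinj : Set.InjOn n s) (ha : ∀ i ∈ s, ‖a i‖ ≤ H) :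
    ∫ x, ‖∑ i ∈ s, a i * (((Real.sqrt (n i))⁻¹ : ℝ) : ℂ) * ch x (n i)‖ ^ (2 * r) ∂mu ≤
      H ^ r * (∑ i ∈ s, ‖a i‖ * LibZM.tau (r : ℝ) (n i) / n i) ^ r := by
  classical
  set F : Finset (Fin r → ι) := Fintype.piFinset fun _ => s with hF
  set P : (Fin r → ι) → ℕ := fun ν => ∏ j, n (ν j) with hPdef
  set c : (Fin r → ι) → ℂ := fun ν => ∏ j, (a (ν j) * (((Real.sqrt (n (ν j)))⁻¹ : ℝ) : ℂ)) with hc
  have hmem : ∀ ν ∈ F, ∀ j, ν j ∈ s := fun ν hν j => (Fintype.mem_piFinset.1 hν) j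
  have hn0 : ∀ ν ∈ F, ∀ j, n (ν j) ≠ 0 := fun ν hν j =>
    Nat.one_le_iff_ne_zero.1 (hn _ (hmem ν hν j))
  have hP0 : ∀ ν ∈ F, P ν ≠ 0 := fun ν hν => Finset.prod_ne_zero_iff.2 fun j _ => hn0 ν hν j
  have h1 : ∀ x : Om, ‖∑ i ∈ s, a i * (((Real.sqrt (n i))⁻¹ : ℝ) : ℂ) * ch x (n i)‖ ^ (2 * r) =
      ‖∑ ν ∈ F, c ν * ch x (P ν)‖ ^ 2 := by
    intro x
    rw [mul_comm 2 r, pow_mul, ← norm_pow]
    congr 2
    have h2 := Finset.prod_univ_sum (ι := Fin r) (t := fun _ => s)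
      (f := fun _ i => a i * (((Real.sqrt (n i))⁻¹ : ℝ) : ℂ) * ch x (n i))
    rw [Finset.prod_const, Finset.card_univ, Fintype.card_fin] at h2
    rw [h2]
    apply Finset.sum_congr rfl
    intro ν hν
    rw [Finset.prod_mul_distrib, hc, hPdef]
    simp only
    rw [T05_ch_prod x _ _ (fun j _ => hn0 ν hν j)]
  simp_rw [h1]
  refine (T05_sq F P hP0 c).trans ?_
  -- norms of the coefficients
  set A : (Fin r → ι) → ℝ := fun ν => ∏ j, ‖a (ν j)‖ with hA
  have hA0 : ∀ ν, 0 ≤ A ν := fun ν => Finset.prod_nonneg fun j _ => norm_nonneg _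
  have hAH : ∀ ν ∈ F, A ν ≤ H ^ r := by
    intro ν hν
    calc A ν ≤ ∏ _j : Fin r, H := Finset.prod_le_prod (fun j _ => norm_nonneg _)
          (fun j _ => ha _ (hmem ν hν j))
      _ = H ^ r := by simp
  have hcn : ∀ ν, ‖c ν‖ = A ν * (Real.sqrt (P ν))⁻¹ := by
    intro ν
    rw [hc, hA, hPdef]
    simp only
    rw [norm_prod, Nat.cast_prod, Real.sqrt_prod _ (fun j _ => Nat.cast_nonneg _),
      ← Finset.prod_inv_distrib, ← Finset.prod_mul_distrib]
    apply Finset.prod_congr rfl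
    intro j _
    rw [norm_mul, Complex.norm_real, Real.norm_of_nonneg (by positivity)]
  have hcard : ∀ ν ∈ F, ((F.filter fun ν' => P ν = P ν').card : ℝ) ≤ ∏ j, LibZM.tau (r : ℝ) (n (ν j)) := by
    intro ν hν
    have h2 := card_prod_eq_le r (s.image n) (by
      intro m hm
      obtain ⟨i, hi, rfl⟩ := Finset.mem_image.1 hm
      exact hn i hi) (P ν) (Nat.one_le_iff_ne_zero.2 (hP0 ν hν))
    have h3 : (F.filter fun ν' => P ν = P ν').card ≤
        ((Fintype.piFinset fun _ : Fin r => s.image n).filter fun f => ∏ i, f i = P ν).card := by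
      apply Finset.card_le_card_of_injOn (fun ν' => fun j => n (ν' j))
      · intro ν' hν'
        have hν'' := Finset.mem_filter.1 (Finset.mem_coe.1 hν')
        rw [Finset.mem_coe, Finset.mem_filter, Fintype.mem_piFinset]
        exact ⟨fun j => Finset.mem_image_of_mem n (hmem ν' hν''.1 j), hν''.2.symm⟩
      · intro ν1 h1' ν2 h2' heq
        have hν1 := (Finset.mem_filter.1 (Finset.mem_coe.1 h1')).1
        have hν2 := (Finset.mem_filter.1 (Finset.mem_coe.1 h2')).1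
        funext j
        exact hinj (hmem ν1 hν1 j) (hmem ν2 hν2 j) (congrFun heq j)
    calc ((F.filter fun ν' => P ν = P ν').card : ℝ) ≤
        ((((Fintype.piFinset fun _ : Fin r => s.image n).filter fun f => ∏ i, f i = P ν).card : ℕ) : ℝ) := by
          exact_mod_cast h3
      _ ≤ LibZM.tau (r : ℝ) (P ν) := h2
      _ ≤ _ := T05_tau_prod Finset.univ _
  have hinner : ∀ ν ∈ F, (∑ ν' ∈ F, if P ν = P ν' then ‖c ν‖ * ‖c ν'‖ else 0) ≤
      H ^ r * ∏ j, (‖a (ν j)‖ * LibZM.tau (r : ℝ) (n (ν j)) / n (ν j)) := by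
    intro ν hν
    have hPpos : (0 : ℝ) < P ν := by exact_mod_cast Nat.pos_of_ne_zero (hP0 ν hν)
    rw [← Finset.sum_filter]
    have h4 : ∀ ν' ∈ F.filter (fun ν' => P ν = P ν'), ‖c ν‖ * ‖c ν'‖ ≤ A ν / P ν * H ^ r := by
      intro ν' hν'
      obtain ⟨hν1, hν2⟩ := Finset.mem_filter.1 hν'
      rw [hcn, hcn, ← hν2]
      have h5 : A ν * (Real.sqrt (P ν))⁻¹ * (A ν' * (Real.sqrt (P ν))⁻¹) = A ν / P ν * A ν' := by
        have h6 : (Real.sqrt (P ν))⁻¹ * (Real.sqrt (P ν))⁻¹ = (P ν : ℝ)⁻¹ := by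
          rw [← mul_inv, Real.mul_self_sqrt hPpos.le]
        rw [div_eq_mul_inv, ← h6]
        ring
      rw [h5]
      exact mul_le_mul_of_nonneg_left (hAH ν' hν1) (div_nonneg (hA0 ν) hPpos.le)
    have h7 := Finset.sum_le_card_nsmul _ _ _ h4
    refine h7.trans ?_
    rw [nsmul_eq_mul]
    have hHr : 0 ≤ H ^ r := (hA0 ν).trans (hAH ν hν)
    calc ((F.filter fun ν' => P ν = P ν').card : ℝ) * (A ν / P ν * H ^ r)
        ≤ (∏ j, LibZM.tau (r : ℝ) (n (ν j))) * (A ν / P ν * H ^ r) :=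
          mul_le_mul_of_nonneg_right (hcard ν hν)
            (mul_nonneg (div_nonneg (hA0 ν) hPpos.le) hHr)
      _ = H ^ r * ∏ j, (‖a (ν j)‖ * LibZM.tau (r : ℝ) (n (ν j)) / n (ν j)) := by
          rw [Finset.prod_div_distrib, Finset.prod_mul_distrib, hA, hPdef]
          simp only
          push_cast
          ring
  refine (Finset.sum_le_sum hinner).trans ?_
  rw [← Finset.mul_sum]
  apply le_of_eq
  congr 1
  have h8 := Finset.prod_univ_sum (ι := Fin r) (t := fun _ => s)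
      (f := fun _ i => ‖a i‖ * LibZM.tau (r : ℝ) (n i) / n i)
  rw [Finset.prod_const, Finset.card_univ, Fintype.card_fin] at h8
  exact h8.symm

end Pool.Agent.LibMM99
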