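import Mathlib
import Pool.Agent.LibMM99.T01
import Pool.Agent.LibMM99.T02

set_option autoImplicit false

namespace Pool.Agent.LibMM99

open MeasureTheory Filter Topology
open scoped ComplexConjugate

private theorem T06_gen {ι : Type*} (s : Finset ι) (n : ι → ℕ) (g : ι → ℂ)
    (hn : ∀ i ∈ s, 1 ≤ n i) (hinj : Set.InjOn n s) :
    ∫ x, ‖∑ i ∈ s, g i * ch x (n i)‖ ^ 2 ∂mu = ∑ i ∈ s, ‖g i‖ ^ 2 := by
  classical
  have h1 : ((∫ x, ‖∑ i ∈ s, g i * ch x (n i)‖ ^ 2 ∂mu : ℝ) : ℂ) =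
      ∑ i ∈ s, ∑ j ∈ s, g i * conj (g j) * (if n i = n j then 1 else 0) := by
    rw [← integral_complex_ofReal]
    have h2 : ∀ x : Om, (((‖∑ i ∈ s, g i * ch x (n i)‖ ^ 2 : ℝ)) : ℂ) =
        ∑ i ∈ s, ∑ j ∈ s, g i * conj (g j) * (ch x (n i) * conj (ch x (n j))) := by
      intro x
      rw [← Complex.normSq_eq_norm_sq, ← Complex.mul_conj, map_sum, Finset.sum_mul_sum]
      apply Finset.sum_congr rfl
      intro i _
      apply Finset.sum_congr rfl
      intro j _
      rw [map_mul]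
      ring
    simp_rw [h2]
    have hc : ∀ i j : ι, Continuous fun x : Om =>
        g i * conj (g j) * (ch x (n i) * conj (ch x (n j))) := by
      intro i j
      exact continuous_const.mul ((continuous_ch _).mul
        (Complex.continuous_conj.comp (continuous_ch _)))
    rw [integral_finsetSum]
    swap
    · intro i _
      exact integrable_of_continuous (continuous_finsetSum _ fun j _ => hc i j)
    apply Finset.sum_congr rfl
    intro i hi
    rw [integral_finsetSum]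
    swap
    · intro j _
      exact integrable_of_continuous (hc i j)
    apply Finset.sum_congr rfl
    intro j hj
    rw [integral_const_mul, integral_ch (Nat.one_le_iff_ne_zero.1 (hn i hi))
      (Nat.one_le_iff_ne_zero.1 (hn j hj))]
  have h4 : (∑ i ∈ s, ∑ j ∈ s, g i * conj (g j) * (if n i = n j then (1 : ℂ) else 0)) =
      ((∑ i ∈ s, ‖g i‖ ^ 2 : ℝ) : ℂ) := by
    rw [Complex.ofReal_sum]
    apply Finset.sum_congr rfl
    intro i hi
    rw [Finset.sum_eq_single i]
    · rw [if_pos rfl, mul_one, Complex.mul_conj, Complex.normSq_eq_norm_sq]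
    · intro j hj hji
      rw [if_neg, mul_zero]
      intro h
      exact hji (hinj hj hi h.symm)
    · intro h
      exact absurd hi h
  rw [h4] at h1
  exact_mod_cast h1

theorem integral_norm_sq (s : Finset ℕ) (hs : ∀ n ∈ s, 1 ≤ n) (a : ℕ → ℂ) :
    ∫ x, ‖DS s a x‖ ^ 2 ∂mu = ∑ n ∈ s, ‖a n‖ ^ 2 / n := by
  have h := T06_gen s (fun n => n) (fun n => a n * (((Real.sqrt n)⁻¹ : ℝ) : ℂ)) hs
    (fun a _ b _ h => h)
  unfold DS
  rw [h]
  apply Finset.sum_congr rfl
  intro n hn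
  rw [norm_mul, mul_pow, Complex.norm_real, Real.norm_of_nonneg (by positivity), inv_pow,
    Real.sq_sqrt (Nat.cast_nonneg _), div_eq_mul_inv]

/-- mean square of a sum over an injective family -/
theorem integral_norm_sq' {ι : Type*} (s : Finset ι) (n : ι → ℕ) (a : ι → ℂ)
    (hn : ∀ i ∈ s, 1 ≤ n i) (hinj : Set.InjOn n s) :
    ∫ x, ‖∑ i ∈ s, a i * (((Real.sqrt (n i))⁻¹ : ℝ) : ℂ) * ch x (n i)‖ ^ 2 ∂mu = ∑ i ∈ s, ‖a i‖ ^ 2 / n i := by
  have h := T06_gen s n (fun i => a i * (((Real.sqrt (n i))⁻¹ : ℝ) : ℂ)) hn hinj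
  rw [h]
  apply Finset.sum_congr rfl
  intro i hi
  rw [norm_mul, mul_pow, Complex.norm_real, Real.norm_of_nonneg (by positivity), inv_pow,
    Real.sq_sqrt (Nat.cast_nonneg _), div_eq_mul_inv]

end Pool.Agent.LibMM99
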