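import Mathlib
import Pool.Agent.LibMM99.T09

set_option autoImplicit false

namespace Pool.Agent.LibMM99

open MeasureTheory Filter Topology
open scoped ComplexConjugate

private lemma T10_mem_prm {u v : ℝ} {p : ℕ} : p ∈ prm u v ↔ p.Prime ∧ u < (p : ℝ) ∧ (p : ℝ) ≤ v := by
  unfold prm
  rw [Finset.mem_filter, Finset.mem_Icc]
  constructor
  · rintro ⟨⟨h1, h2⟩, h3, h4⟩
    refine ⟨h3, h4, ?_⟩
    exact (Nat.le_floor_iff' (by omega)).1 h2
  · rintro ⟨h1, h2, h3⟩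
    exact ⟨⟨h1.one_le, (Nat.le_floor_iff' h1.ne_zero).2 h3⟩, h1, h2⟩

/-- finite sums over `smo` are bounded by Euler products -/
lemma T10_sum_smo_le_prod (r : ℕ) {u v X σ : ℝ} (hσ1 : σ < 1) :
    ∑ n ∈ smo u v X, LibZM.tau (r : ℝ) n * (n : ℝ) ^ (σ - 1) ≤
      ∏ p ∈ prm u v, ((1 - (p : ℝ) ^ (σ - 1)) ^ (r : ℝ))⁻¹ := by
  classical
  set f : ℕ → ℝ := fun n => LibZM.tau (r : ℝ) n * (n : ℝ) ^ (σ - 1) with hf
  have hr : (0 : ℝ) ≤ (r : ℝ) := Nat.cast_nonneg r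
  have hf0 : ∀ n, 0 ≤ f n := fun n => mul_nonneg (LibZM.tau_nonneg hr n) (by positivity)
  have hf1 : f 1 = 1 := by
    have : LibZM.tau (r : ℝ) 1 = 1 := (LibZM.tau_isMultiplicative (r : ℝ)).map_one
    simp [hf, this]
  have hmul : ∀ {m n : ℕ}, Nat.Coprime m n → f (m * n) = f m * f n := by
    intro m n hmn
    simp only [hf]
    rw [(LibZM.tau_isMultiplicative (r : ℝ)).map_mul_of_coprime hmn]
    push_cast
    rw [Real.mul_rpow (by positivity) (by positivity)]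
    ring
  have hpp : ∀ {p : ℕ}, p.Prime → ∀ a : ℕ, f (p ^ a) = LibZM.dcoef r a * ((p : ℝ) ^ (σ - 1)) ^ a := by
    intro p hp a
    simp only [hf]
    rw [LibZM.tau_prime_pow _ hp]
    push_cast
    rw [← Real.rpow_natCast, ← Real.rpow_natCast, ← Real.rpow_mul (by positivity),
      ← Real.rpow_mul (by positivity), mul_comm (a : ℝ)]
  have hx : ∀ {p : ℕ}, p.Prime → 0 ≤ (p : ℝ) ^ (σ - 1) ∧ (p : ℝ) ^ (σ - 1) < 1 := by
    intro p hp
    have h2 : (1 : ℝ) < p := by exact_mod_cast hp.one_lt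
    exact ⟨by positivity, Real.rpow_lt_one_of_one_lt_of_neg h2 (by linarith)⟩
  have hpart : ∀ {p : ℕ}, p.Prime → ∀ N : ℕ, ∑ a ∈ Finset.range N, f (p ^ a) ≤
      ((1 - (p : ℝ) ^ (σ - 1)) ^ (r : ℝ))⁻¹ := by
    intro p hp N
    rw [Finset.sum_congr rfl fun a _ => hpp hp a]
    exact LibZM.partial_binomial_le' hr N (hx hp).1 (hx hp).2
  have hsum : ∀ {p : ℕ}, p.Prime → Summable (fun n : ℕ => ‖f (p ^ n)‖) := by
    intro p hp
    have h1 : Summable fun n : ℕ => f (p ^ n) :=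
      summable_of_sum_range_le (fun a => hf0 _) (hpart hp)
    exact h1.congr fun n => by rw [Real.norm_of_nonneg (hf0 _)]
  have hE := (EulerProduct.summable_and_hasSum_factoredNumbers_prod_filter_prime_tsum hf1 hmul hsum
    (prm u v)).2
  have hfil : (prm u v).filter Nat.Prime = prm u v := by
    apply Finset.filter_true_of_mem
    intro p hp
    exact (T10_mem_prm.1 hp).1
  rw [hfil] at hE
  have hE' := (hasSum_subtype_iff_indicator (f := f)).1 hE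
  have h1 : ∑ n ∈ smo u v X, f n ≤ ∏ p ∈ prm u v, ∑' n : ℕ, f (p ^ n) := by
    have h2 : ∑ n ∈ smo u v X, f n =
        ∑ n ∈ smo u v X, (Nat.factoredNumbers (prm u v)).indicator f n := by
      refine Finset.sum_congr rfl fun n hn => ?_
      unfold smo at hn
      rw [Finset.mem_filter, Finset.mem_Icc] at hn
      have hn0 : n ≠ 0 := by omega
      rw [Set.indicator_of_mem]
      refine ⟨hn0, fun p hp => ?_⟩
      have hp' : p ∈ n.primeFactors := List.mem_toFinset.2 hp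
      exact T10_mem_prm.2 ⟨Nat.prime_of_mem_primeFactors hp', hn.2 p hp'⟩
    rw [h2]
    exact sum_le_hasSum _ (fun n _ => Set.indicator_nonneg (fun n _ => hf0 n) n) hE'
  refine h1.trans ?_
  refine Finset.prod_le_prod (fun p _ => tsum_nonneg fun n => hf0 _) fun p hp => ?_
  have hp' := (T10_mem_prm.1 hp).1
  exact Real.tsum_le_of_sum_range_le (fun n => hf0 _) (hpart hp')

lemma T10_exp_le {y : ℝ} (h0 : 0 ≤ y) (h1 : y ≤ 1 / 5) : Real.exp y ≤ 1 + 5 / 4 * y := by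
  have h2 : 1 - y ≤ Real.exp (-y) := by
    have := Real.add_one_le_exp (-y)
    linarith
  have h3 : Real.exp y * Real.exp (-y) = 1 := by rw [← Real.exp_add]; simp
  have h4 : 0 < Real.exp y := Real.exp_pos y
  have h5 : Real.exp y * (1 - y) ≤ Real.exp y * Real.exp (-y) :=
    mul_le_mul_of_nonneg_left h2 h4.le
  rw [h3] at h5
  nlinarith

lemma T10_inv_le {w : ℝ} (_h0 : 0 ≤ w) (h1 : w ≤ 5 / 8) :
    (1 - w)⁻¹ ≤ Real.exp (w + 8 / 3 * w ^ 2) := by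
  have h2 : 0 < 1 - w := by linarith
  have h3 : 1 - (1 - w)⁻¹ ≤ Real.log (1 - w) := Real.one_sub_inv_le_log_of_pos h2
  have h4 : (1 - w)⁻¹ = Real.exp (-Real.log (1 - w)) := by
    rw [Real.exp_neg, Real.exp_log h2]
  rw [h4]
  apply Real.exp_le_exp.2
  have h5 : (1 - w)⁻¹ - 1 ≤ w + 8 / 3 * w ^ 2 := by
    rw [inv_eq_one_div, div_sub_one h2.ne', div_le_iff₀ h2]
    nlinarith [mul_nonneg (sq_nonneg w) (by linarith : (0 : ℝ) ≤ 5 / 8 - w)]
  linarith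

theorem sum_smo_tau_le (r : ℕ) : ∃ C : ℝ, 0 < C ∧ ∀ u v X σ : ℝ, Real.sqrt 2 ≤ u → u ≤ v → 0 ≤ σ →
    σ * Real.log v ≤ 1 / 5 →
    ∑ n ∈ smo u v X, LibZM.tau (r : ℝ) n * (n : ℝ) ^ (σ - 1) ≤ C * (Real.log v / Real.log u) ^ r := by
  obtain ⟨C1, hC1, h1⟩ := sum_inv_prime_le
  obtain ⟨C2, hC2, h2⟩ := sum_log_prime_le
  have hZs : Summable fun n : ℕ => 1 / (n : ℝ) ^ 2 := Real.summable_one_div_nat_pow.2 (by norm_num)
  set Z : ℝ := ∑' n : ℕ, 1 / (n : ℝ) ^ 2 with hZ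
  have hZ0 : 0 ≤ Z := tsum_nonneg fun n => by positivity
  set C3 : ℝ := C1 + 1 / 4 + 5 / 4 * C2 + 8 / 3 * (25 / 16 * Z) with hC3
  refine ⟨Real.exp (r * C3), Real.exp_pos _, ?_⟩
  intro u v X σ hu huv hσ hσv
  have hs2 : (1 : ℝ) < Real.sqrt 2 := by
    rw [show (1 : ℝ) = Real.sqrt 1 by simp]
    exact Real.sqrt_lt_sqrt (by norm_num) (by norm_num)
  have hu1 : 1 < u := lt_of_lt_of_le hs2 hu
  have hv1 : 1 < v := lt_of_lt_of_le hu1 huv
  have hlu : 0 < Real.log u := Real.log_pos hu1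
  have hlv : 0 < Real.log v := Real.log_pos hv1
  have hlv3 : (0.34 : ℝ) ≤ Real.log v := by
    have h3 : Real.log (Real.sqrt 2) ≤ Real.log v := Real.log_le_log (by positivity) (hu.trans huv)
    rw [Real.log_sqrt (by norm_num)] at h3
    have := Real.log_two_gt_d9
    linarith
  have hσ1 : σ ≤ 3 / 5 := by
    by_contra hc
    push Not at hc
    nlinarith
  refine (T10_sum_smo_le_prod r (by linarith)).trans ?_
  -- local estimates
  have hloc : ∀ p ∈ prm u v, (p : ℝ) ^ (σ - 1) ≤ (p : ℝ)⁻¹ + 5 / 4 * σ * (Real.log p / p) ∧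
      0 ≤ (p : ℝ) ^ (σ - 1) ∧ (p : ℝ) ^ (σ - 1) ≤ 5 / 4 * (p : ℝ)⁻¹ ∧ (p : ℝ) ^ (σ - 1) ≤ 5 / 8 := by
    intro p hp
    obtain ⟨hpp, hp1, hp2⟩ := T10_mem_prm.1 hp
    have hp0 : (0 : ℝ) < p := by exact_mod_cast hpp.pos
    have hp2' : (2 : ℝ) ≤ p := by exact_mod_cast hpp.two_le
    have hlp : 0 ≤ Real.log p := Real.log_nonneg (by linarith)
    have hy1 : σ * Real.log p ≤ 1 / 5 :=
      le_trans (mul_le_mul_of_nonneg_left (Real.log_le_log hp0 hp2) hσ) hσv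
    have hy0 : 0 ≤ σ * Real.log p := mul_nonneg hσ hlp
    have he := T10_exp_le hy0 hy1
    have heq : (p : ℝ) ^ (σ - 1) = Real.exp (σ * Real.log p) * (p : ℝ)⁻¹ := by
      rw [Real.rpow_sub hp0, Real.rpow_one, Real.rpow_def_of_pos hp0, mul_comm (Real.log _), div_eq_mul_inv]
    have hpi : 0 < (p : ℝ)⁻¹ := inv_pos.2 hp0
    have h3 : (p : ℝ) ^ (σ - 1) ≤ 5 / 4 * (p : ℝ)⁻¹ := by
      rw [heq]
      exact mul_le_mul_of_nonneg_right (by linarith) hpi.le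
    refine ⟨?_, by positivity, h3, ?_⟩
    · rw [heq]
      calc Real.exp (σ * Real.log p) * (p : ℝ)⁻¹ ≤ (1 + 5 / 4 * (σ * Real.log p)) * (p : ℝ)⁻¹ :=
            mul_le_mul_of_nonneg_right he hpi.le
        _ = (p : ℝ)⁻¹ + 5 / 4 * σ * (Real.log p / p) := by ring
    · refine h3.trans ?_
      have : (p : ℝ)⁻¹ ≤ 2⁻¹ := inv_anti₀ (by norm_num) hp2'
      linarith
  have hprod : ∏ p ∈ prm u v, ((1 - (p : ℝ) ^ (σ - 1)) ^ (r : ℝ))⁻¹ ≤
      ∏ p ∈ prm u v, Real.exp (r * ((p : ℝ) ^ (σ - 1) + 8 / 3 * ((p : ℝ) ^ (σ - 1)) ^ 2)) := by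
    refine Finset.prod_le_prod (fun p hp => ?_) fun p hp => ?_
    · have := (hloc p hp).2.2.2
      have h3 : 0 ≤ 1 - (p : ℝ) ^ (σ - 1) := by linarith
      positivity
    · obtain ⟨-, ha, -, hb⟩ := hloc p hp
      have h3 : 0 < 1 - (p : ℝ) ^ (σ - 1) := by linarith
      rw [Real.rpow_natCast, ← inv_pow, Real.exp_nat_mul]
      exact pow_le_pow_left₀ (by positivity) (T10_inv_le ha hb) r
  refine hprod.trans ?_
  rw [← Real.exp_sum, ← Finset.mul_sum]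
  have hsum : ∑ p ∈ prm u v, ((p : ℝ) ^ (σ - 1) + 8 / 3 * ((p : ℝ) ^ (σ - 1)) ^ 2) ≤
      Real.log (Real.log v / Real.log u) + C3 := by
    have ha : ∑ p ∈ prm u v, ((p : ℝ) ^ (σ - 1) + 8 / 3 * ((p : ℝ) ^ (σ - 1)) ^ 2) ≤
        ∑ p ∈ prm u v, (((p : ℝ)⁻¹ + 5 / 4 * σ * (Real.log p / p)) +
          8 / 3 * (25 / 16 * (1 / (p : ℝ) ^ 2))) := by
      refine Finset.sum_le_sum fun p hp => ?_
      obtain ⟨h3, h4, h5, -⟩ := hloc p hp
      refine add_le_add h3 (mul_le_mul_of_nonneg_left ?_ (by norm_num))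
      calc ((p : ℝ) ^ (σ - 1)) ^ 2 ≤ (5 / 4 * (p : ℝ)⁻¹) ^ 2 := pow_le_pow_left₀ h4 h5 2
        _ = 25 / 16 * (1 / (p : ℝ) ^ 2) := by rw [mul_pow, inv_pow, one_div]; norm_num
    refine ha.trans ?_
    rw [Finset.sum_add_distrib, Finset.sum_add_distrib, ← Finset.mul_sum, ← Finset.mul_sum,
      ← Finset.mul_sum]
    have hb := h1 u v hu huv
    have hc : ∑ p ∈ prm u v, Real.log p / p ≤ Real.log v + C2 := by
      refine le_trans ?_ (h2 v hv1.le)
      refine Finset.sum_le_sum_of_subset_of_nonneg ?_ ?_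
      · intro p hp
        obtain ⟨h3, h4, h5⟩ := T10_mem_prm.1 hp
        exact T10_mem_prm.2 ⟨h3, by linarith, h5⟩
      · intro p hp _
        obtain ⟨h3, h4, h5⟩ := T10_mem_prm.1 hp
        exact div_nonneg (Real.log_nonneg h4.le) (by positivity)
    have hd : ∑ p ∈ prm u v, 1 / (p : ℝ) ^ 2 ≤ Z :=
      hZs.sum_le_tsum _ (fun n _ => by positivity)
    have he : 5 / 4 * σ * ∑ p ∈ prm u v, Real.log p / p ≤ 1 / 4 + 5 / 4 * C2 := by
      calc 5 / 4 * σ * ∑ p ∈ prm u v, Real.log p / p ≤ 5 / 4 * σ * (Real.log v + C2) :=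
            mul_le_mul_of_nonneg_left hc (by positivity)
        _ = 5 / 4 * (σ * Real.log v) + 5 / 4 * C2 * σ := by ring
        _ ≤ 5 / 4 * (1 / 5) + 5 / 4 * C2 * 1 := by
            refine add_le_add (mul_le_mul_of_nonneg_left hσv (by norm_num))
              (mul_le_mul_of_nonneg_left (by linarith) (by positivity))
        _ = 1 / 4 + 5 / 4 * C2 := by ring
    rw [hC3]
    linarith
  have hq : 0 < Real.log v / Real.log u := div_pos hlv hlu
  calc Real.exp (r * ∑ p ∈ prm u v, ((p : ℝ) ^ (σ - 1) + 8 / 3 * ((p : ℝ) ^ (σ - 1)) ^ 2))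
      ≤ Real.exp (r * (Real.log (Real.log v / Real.log u) + C3)) :=
        Real.exp_le_exp.2 (mul_le_mul_of_nonneg_left hsum (Nat.cast_nonneg r))
    _ = Real.exp (r * C3) * (Real.log v / Real.log u) ^ r := by
        rw [mul_add, Real.exp_add, mul_comm, Real.exp_nat_mul (Real.log _), Real.exp_log hq]

end Pool.Agent.LibMM99
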