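import Mathlib
import Pool.Agent.LibMM99.T10

set_option autoImplicit false

namespace Pool.Agent.LibMM99

open MeasureTheory Filter Topology
open scoped ComplexConjugate

private lemma T11_log_pos {u v : ℝ} (hu : Real.sqrt 2 ≤ u) (huv : u ≤ v) :
    0 < Real.log u ∧ 0 < Real.log v := by
  have hs2 : (1 : ℝ) < Real.sqrt 2 := by
    rw [show (1 : ℝ) = Real.sqrt 1 by simp]
    exact Real.sqrt_lt_sqrt (by norm_num) (by norm_num)
  exact ⟨Real.log_pos (lt_of_lt_of_le hs2 hu), Real.log_pos (lt_of_lt_of_le hs2 (hu.trans huv))⟩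

private lemma T11_smo_pos {u v X : ℝ} {n : ℕ} (hn : n ∈ smo u v X) : 1 ≤ n := by
  unfold smo at hn
  rw [Finset.mem_filter, Finset.mem_Icc] at hn
  exact hn.1.1

theorem sum_smo_tau_tail_le (r : ℕ) : ∃ C : ℝ, 0 < C ∧ ∀ u v X Y : ℝ, Real.sqrt 2 ≤ u → u ≤ v → 1 ≤ X →
    ∑ n ∈ (smo u v Y).filter (fun n : ℕ => X < (n : ℝ)), LibZM.tau (r : ℝ) n / n ≤
      C * (Real.log v / Real.log u) ^ r * Real.exp (-(Real.log X) / (5 * Real.log v)) := by
  obtain ⟨C, hC, h⟩ := sum_smo_tau_le r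
  refine ⟨C, hC, ?_⟩
  intro u v X Y hu huv hX
  obtain ⟨hlu, hlv⟩ := T11_log_pos hu huv
  have hr : (0 : ℝ) ≤ (r : ℝ) := Nat.cast_nonneg r
  set σ : ℝ := 1 / (5 * Real.log v) with hσ
  have hσ0 : 0 < σ := by positivity
  have hσv : σ * Real.log v ≤ 1 / 5 := by
    rw [hσ]
    field_simp
    exact le_rfl
  have hX0 : 0 < X := by linarith
  have hexp : Real.exp (-(Real.log X) / (5 * Real.log v)) = X ^ (-σ) := by
    rw [Real.rpow_def_of_pos hX0, hσ]
    congr 1
    ring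
  rw [hexp]
  calc ∑ n ∈ (smo u v Y).filter (fun n : ℕ => X < (n : ℝ)), LibZM.tau (r : ℝ) n / n
      ≤ ∑ n ∈ (smo u v Y).filter (fun n : ℕ => X < (n : ℝ)),
          LibZM.tau (r : ℝ) n * (n : ℝ) ^ (σ - 1) * X ^ (-σ) := by
        refine Finset.sum_le_sum fun n hn => ?_
        rw [Finset.mem_filter] at hn
        have hn1 := T11_smo_pos hn.1
        have hn0 : (0 : ℝ) < n := by exact_mod_cast hn1
        have h1 : (1 : ℝ) ≤ (n : ℝ) ^ σ * X ^ (-σ) := by
          rw [Real.rpow_neg hX0.le, ← div_eq_mul_inv, ← Real.div_rpow hn0.le hX0.le]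
          apply Real.one_le_rpow _ hσ0.le
          rw [le_div_iff₀ hX0, one_mul]
          exact hn.2.le
        have h2 : LibZM.tau (r : ℝ) n * (n : ℝ) ^ (σ - 1) * X ^ (-σ) =
            LibZM.tau (r : ℝ) n / n * ((n : ℝ) ^ σ * X ^ (-σ)) := by
          rw [Real.rpow_sub hn0, Real.rpow_one]
          ring
        rw [h2]
        have h3 : 0 ≤ LibZM.tau (r : ℝ) n / n := div_nonneg (LibZM.tau_nonneg hr n) hn0.le
        exact le_mul_of_one_le_right h3 h1
    _ ≤ ∑ n ∈ smo u v Y, LibZM.tau (r : ℝ) n * (n : ℝ) ^ (σ - 1) * X ^ (-σ) := by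
        refine Finset.sum_le_sum_of_subset_of_nonneg (Finset.filter_subset _ _) fun n _ _ => ?_
        exact mul_nonneg (mul_nonneg (LibZM.tau_nonneg hr n) (by positivity)) (by positivity)
    _ = (∑ n ∈ smo u v Y, LibZM.tau (r : ℝ) n * (n : ℝ) ^ (σ - 1)) * X ^ (-σ) := by
        rw [Finset.sum_mul]
    _ ≤ C * (Real.log v / Real.log u) ^ r * X ^ (-σ) :=
        mul_le_mul_of_nonneg_right (h u v Y σ hu huv hσ0.le hσv) (by positivity)

theorem sum_smo_log_tau_le (r : ℕ) : ∃ C : ℝ, 0 < C ∧ ∀ u v X : ℝ, Real.sqrt 2 ≤ u → u ≤ v →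
    ∑ n ∈ smo u v X, Real.log n * LibZM.tau (r : ℝ) n / n ≤
      C * (Real.log v / Real.log u) ^ r * Real.log v := by
  obtain ⟨C, hC, h⟩ := sum_smo_tau_le r
  refine ⟨C * 5, by positivity, ?_⟩
  intro u v X hu huv
  obtain ⟨hlu, hlv⟩ := T11_log_pos hu huv
  have hr : (0 : ℝ) ≤ (r : ℝ) := Nat.cast_nonneg r
  set σ : ℝ := 1 / (5 * Real.log v) with hσ
  have hσ0 : 0 < σ := by positivity
  have hσv : σ * Real.log v ≤ 1 / 5 := by
    rw [hσ]
    field_simp
    exact le_rfl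
  calc ∑ n ∈ smo u v X, Real.log n * LibZM.tau (r : ℝ) n / n
      ≤ ∑ n ∈ smo u v X, LibZM.tau (r : ℝ) n * (n : ℝ) ^ (σ - 1) * (5 * Real.log v) := by
        refine Finset.sum_le_sum fun n hn => ?_
        have hn1 := T11_smo_pos hn
        have hn0 : (0 : ℝ) < n := by exact_mod_cast hn1
        have h1 : Real.log n ≤ (n : ℝ) ^ σ * (5 * Real.log v) := by
          have := Real.log_le_rpow_div hn0.le hσ0
          rw [hσ] at this ⊢
          rw [div_div_eq_mul_div, div_one] at this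
          exact this
        have h2 : LibZM.tau (r : ℝ) n * (n : ℝ) ^ (σ - 1) * (5 * Real.log v) =
            ((n : ℝ) ^ σ * (5 * Real.log v)) * (LibZM.tau (r : ℝ) n / n) := by
          rw [Real.rpow_sub hn0, Real.rpow_one]
          ring
        rw [h2, mul_div_assoc]
        exact mul_le_mul_of_nonneg_right h1 (div_nonneg (LibZM.tau_nonneg hr n) hn0.le)
    _ = (∑ n ∈ smo u v X, LibZM.tau (r : ℝ) n * (n : ℝ) ^ (σ - 1)) * (5 * Real.log v) := by
        rw [Finset.sum_mul]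
    _ ≤ C * (Real.log v / Real.log u) ^ r * (5 * Real.log v) :=
        mul_le_mul_of_nonneg_right (h u v X σ hu huv hσ0.le hσv) (by positivity)
    _ = C * 5 * (Real.log v / Real.log u) ^ r * Real.log v := by ring

end Pool.Agent.LibMM99
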