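import Mathlib
import Pool.Agent.LibMM99.Scales

set_option autoImplicit false

namespace Pool.Agent.LibMM99

open MeasureTheory Filter Topology
open scoped ComplexConjugate

/-- exponent attached to a prime: upper end of its window -/
noncomputable def uS (δ : ℝ) (M : ℕ) (L : ℝ) (S : Finset ℕ) : ℝ := by
  classical exact ∑ p ∈ S, ∑ j : Fin M, if p ∈ win δ M L j then (δ + (1 - δ) * (j + 1) / M) else 0

/-- sets of primes in `(e^{δL}, e^L]` with at most one element in each window -/
noncomputable def goodS (δ : ℝ) (M : ℕ) (L : ℝ) : Finset (Finset ℕ) := by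
  classical exact ((prm (Real.exp (δ * L)) (Real.exp L)).powerset.filter
    (fun S => ∀ j : Fin M, (S ∩ win δ M L j).card ≤ 1))

/-- the polynomial of the top part in the window sums -/
noncomputable def Qw (w : ℝ → ℂ) (δ : ℝ) (M : ℕ) : MvPolynomial (Fin M) ℂ :=
  ∑ B : Finset (Fin M), MvPolynomial.C (w (∑ j ∈ B, (δ + (1 - δ) * (j + 1) / M))) *
    ∏ j ∈ B, MvPolynomial.X j

end Pool.Agent.LibMM99
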