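import Mathlib
import Pool.Agent.LibMM99.T01
import Pool.Agent.LibMM99.WinDefs

set_option autoImplicit false

namespace Pool.Agent.LibMM99

open MeasureTheory Filter Topology
open scoped ComplexConjugate

section t22a

open Finset

theorem t22a_image {M : ℕ} (W : Fin M → Finset ℕ) (hdis : ∀ i j, i ≠ j → Disjoint (W i) (W j))
    (B : Finset (Fin M)) (g : ∀ j ∈ B, ℕ) (hg : ∀ j hj, g j hj ∈ W j) (j : Fin M) :
    (B.attach.image (fun j => g j.1 j.2)) ∩ W j = if hj : j ∈ B then {g j hj} else ∅ := by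
  classical
  split_ifs with hj
  · ext p
    simp only [mem_inter, mem_image, mem_attach, true_and, Subtype.exists, mem_singleton]
    constructor
    · rintro ⟨⟨i, hi, rfl⟩, hp⟩
      by_cases hij : i = j
      · subst hij; rfl
      · exact absurd hp (Finset.disjoint_left.1 (hdis i j hij) (hg i hi))
    · rintro rfl
      exact ⟨⟨j, hj, rfl⟩, hg j hj⟩
  · rw [← Finset.disjoint_iff_inter_eq_empty, Finset.disjoint_left]
    intro p hp hpj
    simp only [mem_image, mem_attach, true_and, Subtype.exists] at hp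
    obtain ⟨i, hi, rfl⟩ := hp
    have hij : i ≠ j := by rintro rfl; exact hj hi
    exact absurd hpj (Finset.disjoint_left.1 (hdis i j hij) (hg i hi))

theorem t22a_sum {M : ℕ} (W : Fin M → Finset ℕ) (hdis : ∀ i j, i ≠ j → Disjoint (W i) (W j))
    (φ : Finset (Fin M) → ℂ) (f : ℕ → ℂ) :
    ∑ B : Finset (Fin M), φ B * ∏ j ∈ B, ∑ p ∈ W j, f p =
      ∑ S ∈ (univ.biUnion W).powerset.filter (fun S => ∀ j, (S ∩ W j).card ≤ 1),
        φ (univ.filter (fun j => (S ∩ W j).Nonempty)) * ∏ p ∈ S, f p := by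
  classical
  have h1 : ∀ B : Finset (Fin M), φ B * ∏ j ∈ B, ∑ p ∈ W j, f p =
      ∑ g ∈ B.pi W, φ B * ∏ j ∈ B.attach, f (g j.1 j.2) := by
    intro B
    rw [prod_sum, mul_sum]
  simp_rw [h1]
  rw [sum_sigma']
  refine sum_bij (fun Bg _ => Bg.1.attach.image (fun j => Bg.2 j.1 j.2)) ?_ ?_ ?_ ?_
  · rintro ⟨B, g⟩ h
    simp only [mem_sigma, mem_univ, true_and, Finset.mem_pi] at h
    simp only [mem_filter, mem_powerset]
    constructor
    · intro p hp
      simp only [mem_image, mem_attach, true_and, Subtype.exists] at hp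
      obtain ⟨i, hi, rfl⟩ := hp
      exact mem_biUnion.2 ⟨i, mem_univ _, h i hi⟩
    · intro j
      rw [t22a_image W hdis B g h j]
      split_ifs <;> simp
  · rintro ⟨B, g⟩ h ⟨B', g'⟩ h' heq
    simp only [mem_sigma, mem_univ, true_and, Finset.mem_pi] at h h'
    simp only at heq
    have h2 : ∀ j, (if hj : j ∈ B then ({g j hj} : Finset ℕ) else ∅) =
        if hj : j ∈ B' then {g' j hj} else ∅ := by
      intro j
      rw [← t22a_image W hdis B g h j, ← t22a_image W hdis B' g' h' j, heq]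
    have hB : B = B' := by
      ext j
      have := h2 j
      by_cases hj : j ∈ B <;> by_cases hj' : j ∈ B' <;> simp_all
    subst hB
    congr 1
    funext j hj
    have := h2 j
    rw [dif_pos hj, dif_pos hj] at this
    exact singleton_injective this
  · intro S hS
    simp only [mem_filter, mem_powerset] at hS
    obtain ⟨hS1, hS2⟩ := hS
    set B := univ.filter (fun j => (S ∩ W j).Nonempty) with hB
    have hBm : ∀ j ∈ B, (S ∩ W j).Nonempty := fun j hj => (mem_filter.1 hj).2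
    refine ⟨⟨B, fun j hj => (hBm j hj).choose⟩, ?_, ?_⟩
    · simp only [mem_sigma, mem_univ, true_and, Finset.mem_pi]
      intro j hj
      exact (mem_inter.1 (hBm j hj).choose_spec).2
    · ext p
      simp only [mem_image, mem_attach, true_and, Subtype.exists]
      constructor
      · rintro ⟨j, hj, rfl⟩
        exact (mem_inter.1 (hBm j hj).choose_spec).1
      · intro hp
        obtain ⟨j, -, hj⟩ := mem_biUnion.1 (hS1 hp)
        have hpj : p ∈ S ∩ W j := mem_inter.2 ⟨hp, hj⟩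
        have hjB : j ∈ B := mem_filter.2 ⟨mem_univ _, ⟨p, hpj⟩⟩
        exact ⟨j, hjB, card_le_one.1 (hS2 j) _ (hBm j hjB).choose_spec _ hpj⟩
  · rintro ⟨B, g⟩ h
    simp only [mem_sigma, mem_univ, true_and, Finset.mem_pi] at h
    simp only
    have hBeq : (univ.filter (fun j => ((B.attach.image (fun j => g j.1 j.2)) ∩ W j).Nonempty)) = B := by
      ext j
      simp only [mem_filter, mem_univ, true_and]
      rw [t22a_image W hdis B g h j]
      by_cases hj : j ∈ B <;> simp [hj]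
    rw [hBeq, prod_image]
    rintro ⟨i, hi⟩ - ⟨j, hj⟩ - hij
    simp only at hij
    by_contra hne
    have hne' : i ≠ j := fun h => hne (by subst h; rfl)
    have h3 := h i hi
    rw [hij] at h3
    exact Finset.disjoint_left.1 (hdis i j hne') h3 (h j hj)


theorem t22a_mem_prm {u v : ℝ} {p : ℕ} : p ∈ prm u v ↔ p.Prime ∧ u < (p : ℝ) ∧ (p : ℝ) ≤ v := by
  unfold prm
  rw [Finset.mem_filter, Finset.mem_Icc]
  constructor
  · rintro ⟨⟨h1, h2⟩, h3, h4⟩
    refine ⟨h3, h4, ?_⟩
    by_cases hv : 0 ≤ v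
    · exact (Nat.le_floor_iff hv).1 h2
    · rw [Nat.floor_of_nonpos (by linarith)] at h2
      omega
  · rintro ⟨h1, h2, h3⟩
    exact ⟨⟨h1.one_lt.le, Nat.le_floor h3⟩, h1, h2⟩

/-- the left end of a window -/
noncomputable def t22a_e (δ : ℝ) (M : ℕ) (j : ℕ) : ℝ := δ + (1 - δ) * j / M

theorem t22a_e_mono {δ : ℝ} (hδ1 : δ < 1) {M : ℕ} {i j : ℕ} (hij : i ≤ j) :
    t22a_e δ M i ≤ t22a_e δ M j := by
  unfold t22a_e
  have h1 : (i : ℝ) ≤ j := by exact_mod_cast hij
  have h2 : 0 ≤ 1 - δ := by linarith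
  gcongr

theorem t22a_mem_win {δ : ℝ} {M : ℕ} {L : ℝ} {j : Fin M} {p : ℕ} : p ∈ win δ M L j ↔
    p.Prime ∧ Real.exp (t22a_e δ M j * L) < (p : ℝ) ∧ (p : ℝ) ≤ Real.exp (t22a_e δ M (j + 1) * L) := by
  unfold win t22a_e
  rw [t22a_mem_prm]
  push_cast
  rfl

theorem t22a_win_disj {δ : ℝ} (hδ1 : δ < 1) {M : ℕ} {L : ℝ} (hL : 0 < L) (i j : Fin M)
    (hij : i ≠ j) : Disjoint (win δ M L i) (win δ M L j) := by
  have key : ∀ i j : Fin M, (i : ℕ) < j → Disjoint (win δ M L i) (win δ M L j) := by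
    intro i j hij
    rw [Finset.disjoint_left]
    intro p hp hq
    rw [t22a_mem_win] at hp hq
    have h1 : t22a_e δ M (i + 1) ≤ t22a_e δ M j := t22a_e_mono hδ1 hij
    have h2 : Real.exp (t22a_e δ M (i + 1) * L) ≤ Real.exp (t22a_e δ M j * L) := by
      apply Real.exp_le_exp.2
      gcongr
    linarith [hp.2.2, hq.2.1]
  rcases lt_or_gt_of_ne (fun h => hij (Fin.ext h) : (i : ℕ) ≠ j) with h | h
  · exact key i j h
  · exact (key j i h).symm

theorem t22a_biUnion {δ : ℝ} (hδ : 0 < δ) (hδ1 : δ < 1) {M : ℕ} (hM : 0 < M) {L : ℝ} (hL : 0 < L) :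
    Finset.univ.biUnion (win δ M L) = prm (Real.exp (δ * L)) (Real.exp L) := by
  have hM' : (0 : ℝ) < M := by exact_mod_cast hM
  have hd : 0 < 1 - δ := by linarith
  ext p
  rw [Finset.mem_biUnion, t22a_mem_prm]
  constructor
  · rintro ⟨j, -, hj⟩
    rw [t22a_mem_win] at hj
    refine ⟨hj.1, lt_of_le_of_lt ?_ hj.2.1, hj.2.2.trans ?_⟩
    · apply Real.exp_le_exp.2
      have h0 := t22a_e_mono (M := M) hδ1 (Nat.zero_le j)
      have h1 : t22a_e δ M 0 = δ := by unfold t22a_e; simp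
      rw [h1] at h0
      gcongr
    · apply Real.exp_le_exp.2
      have h0 := t22a_e_mono (M := M) hδ1 (show (j : ℕ) + 1 ≤ M from j.2)
      have h1 : t22a_e δ M M = 1 := by
        unfold t22a_e
        field_simp
        ring
      rw [h1] at h0
      calc t22a_e δ M (j + 1) * L ≤ 1 * L := by gcongr
        _ = L := one_mul _
  · rintro ⟨hp, h1, h2⟩
    have hp0 : (0 : ℝ) < p := by exact_mod_cast hp.pos
    have h3 : δ * L < Real.log p := by
      rw [Real.lt_log_iff_exp_lt hp0]; exact h1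
    have h4 : Real.log p ≤ L := by
      rw [Real.log_le_iff_le_exp hp0]; exact h2
    set y : ℝ := (Real.log p / L - δ) * M / (1 - δ) with hy
    have hy0 : 0 < y := by
      have : 0 < Real.log p / L - δ := by
        rw [sub_pos, lt_div_iff₀ hL]; exact h3
      positivity
    have hyM : y ≤ M := by
      rw [hy, div_le_iff₀ hd, mul_comm (M : ℝ)]
      have : Real.log p / L ≤ 1 := by rw [div_le_one hL]; exact h4
      gcongr
    have hc0 : 0 < ⌈y⌉₊ := Nat.ceil_pos.2 hy0
    have hcM : ⌈y⌉₊ ≤ M := Nat.ceil_le.2 hyM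
    have hlt : ((⌈y⌉₊ - 1 : ℕ) : ℝ) < y := by
      rw [Nat.cast_sub hc0, Nat.cast_one]
      linarith [Nat.ceil_lt_add_one hy0.le]
    refine ⟨⟨⌈y⌉₊ - 1, by omega⟩, Finset.mem_univ _, ?_⟩
    rw [t22a_mem_win]
    have hyeq : Real.log p = (δ + (1 - δ) * y / M) * L := by
      rw [hy]; field_simp; ring
    have hexp : (p : ℝ) = Real.exp ((δ + (1 - δ) * y / M) * L) := by
      rw [← hyeq, Real.exp_log hp0]
    refine ⟨hp, ?_, ?_⟩
    · rw [hexp]
      apply Real.exp_lt_exp.2
      unfold t22a_e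
      gcongr
    · rw [hexp]
      apply Real.exp_le_exp.2
      unfold t22a_e
      have : y ≤ ((⌈y⌉₊ - 1 + 1 : ℕ) : ℝ) := by
        rw [Nat.sub_add_cancel hc0]
        exact Nat.le_ceil y
      gcongr

theorem t22a_ch_prod (x : Om) (S : Finset ℕ) (hS : ∀ p ∈ S, p ≠ 0) :
    ch x (∏ p ∈ S, p) = ∏ p ∈ S, ch x p := by
  classical
  induction S using Finset.induction_on with
  | empty => simp [ch_one]
  | insert a s ha ih =>
    rw [prod_insert ha, prod_insert ha, ch_mul x (hS a (mem_insert_self _ _)), ih]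
    · intro p hp; exact hS p (mem_insert_of_mem hp)
    · exact prod_ne_zero_iff.2 fun p hp => hS p (mem_insert_of_mem hp)

theorem t22a_sqrt_prod (S : Finset ℕ) :
    Real.sqrt ((∏ p ∈ S, p : ℕ) : ℝ) = ∏ p ∈ S, Real.sqrt p := by
  classical
  induction S using Finset.induction_on with
  | empty => simp
  | insert a s ha ih =>
    rw [prod_insert ha, prod_insert ha, ← ih, ← Real.sqrt_mul (Nat.cast_nonneg _)]
    push_cast
    rfl

end t22a

theorem Qw_eval {δ : ℝ} (hδ : 0 < δ) (hδ1 : δ < 1) (w : ℝ → ℂ) {M : ℕ} (hM : 0 < M) {L : ℝ} (hL : 0 < L) (x : Om) :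
    MvPolynomial.eval (fun j => GG δ M L j x) (Qw w δ M) =
      ∑ S ∈ goodS δ M L, w (uS δ M L S) * (((Real.sqrt ((∏ p ∈ S, p : ℕ) : ℝ))⁻¹ : ℝ) : ℂ) * ch x (∏ p ∈ S, p) := by
  classical
  have h1 : MvPolynomial.eval (fun j => GG δ M L j x) (Qw w δ M) =
      ∑ B : Finset (Fin M), w (∑ j ∈ B, (δ + (1 - δ) * (j + 1) / M)) *
        ∏ j ∈ B, ∑ p ∈ win δ M L j, (((Real.sqrt p)⁻¹ : ℝ) : ℂ) * ch x p := by
    unfold Qw
    rw [map_sum]
    refine Finset.sum_congr rfl fun B _ => ?_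
    rw [map_mul, MvPolynomial.eval_C, map_prod]
    congr 1
    refine Finset.prod_congr rfl fun j _ => ?_
    rw [MvPolynomial.eval_X]
    unfold GG DS
    refine Finset.sum_congr rfl fun p _ => ?_
    rw [one_mul]
  rw [h1, t22a_sum (win δ M L) (fun i j hij => t22a_win_disj hδ1 hL i j hij)
    (fun B => w (∑ j ∈ B, (δ + (1 - δ) * (j + 1) / M))) (fun p => (((Real.sqrt p)⁻¹ : ℝ) : ℂ) * ch x p)]
  rw [t22a_biUnion hδ hδ1 hM hL]
  have hg : (prm (Real.exp (δ * L)) (Real.exp L)).powerset.filter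
      (fun S => ∀ j : Fin M, (S ∩ win δ M L j).card ≤ 1) = goodS δ M L := by
    unfold goodS
    congr!
  rw [hg]
  refine Finset.sum_congr rfl fun S hS => ?_
  rw [← hg, Finset.mem_filter, Finset.mem_powerset] at hS
  obtain ⟨hS1, hS2⟩ := hS
  have hS0 : ∀ p ∈ S, p ≠ 0 := fun p hp => (t22a_mem_prm.1 (hS1 hp)).1.ne_zero
  have hu : uS δ M L S = ∑ j ∈ Finset.univ.filter (fun j => (S ∩ win δ M L j).Nonempty),
      (δ + (1 - δ) * (j + 1) / M) := by
    unfold uS
    rw [Finset.sum_comm, Finset.sum_filter]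
    refine Finset.sum_congr rfl fun j _ => ?_
    have h2 : ∑ p ∈ S, (if p ∈ win δ M L j then (δ + (1 - δ) * ((j : ℕ) + 1) / M) else 0) =
        ((S ∩ win δ M L j).card : ℝ) * (δ + (1 - δ) * ((j : ℕ) + 1) / M) := by
      rw [← Finset.sum_filter, Finset.sum_const, nsmul_eq_mul, Finset.filter_mem_eq_inter]
    split_ifs with h
    · have h3 : (S ∩ win δ M L j).card = 1 := le_antisymm (hS2 j) (Finset.card_pos.2 h)
      rw [h3, Nat.cast_one, one_mul] at h2
      convert h2
    · rw [Finset.not_nonempty_iff_eq_empty] at h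
      rw [h, Finset.card_empty, Nat.cast_zero, zero_mul] at h2
      convert h2
  rw [hu, mul_assoc]
  congr 1
  rw [t22a_ch_prod x S hS0, Finset.prod_mul_distrib]
  congr 1
  rw [t22a_sqrt_prod]
  push_cast
  rw [Finset.prod_inv_distrib]

end Pool.Agent.LibMM99
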