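import Mathlib
import Pool.Agent.LibMM99.T05
import Pool.Agent.LibMM99.T06
import Pool.Agent.LibMM99.T11
import Pool.Agent.LibMM99.T22a

set_option autoImplicit false

namespace Pool.Agent.LibMM99

open MeasureTheory Filter Topology
open scoped ComplexConjugate

/-- sum of the reciprocals of the smooth numbers -/
noncomputable def t22b_V (T : Finset ℕ) : ℝ := ∑ n ∈ T, (n : ℝ)⁻¹

theorem t22b_mem_smo {u v X : ℝ} (hX : 0 ≤ X) {n : ℕ} : n ∈ smo u v X ↔
    1 ≤ n ∧ (n : ℝ) ≤ X ∧ ∀ p ∈ n.primeFactors, u < (p : ℝ) ∧ (p : ℝ) ≤ v := by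
  unfold smo
  rw [Finset.mem_filter, Finset.mem_Icc, Nat.le_floor_iff hX, and_assoc]

theorem t22b_smo_div {u v X : ℝ} (hX : 0 ≤ X) {n m d : ℕ} (h : n ∈ smo u v X) (hn : n = d * m) :
    m ∈ smo u v X := by
  rw [t22b_mem_smo hX] at h ⊢
  obtain ⟨h1, h2, h3⟩ := h
  have hm : m ≠ 0 := by rintro rfl; simp at hn; omega
  have hd : d ≠ 0 := by rintro rfl; simp at hn; omega
  refine ⟨Nat.one_le_iff_ne_zero.2 hm, ?_, fun p hp => h3 p ?_⟩
  · refine le_trans ?_ h2
    exact_mod_cast Nat.le_of_dvd h1 ⟨d, by rw [hn, mul_comm]⟩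
  · rw [hn, Nat.primeFactors_mul hd hm]
    exact Finset.mem_union_right _ hp

/-- multiples of `d` -/
theorem t22b_mult {u v X : ℝ} (hX : 0 ≤ X) {d : ℕ} (hd : 0 < d) :
    ∑ n ∈ (smo u v X).filter (fun n => d ∣ n), (n : ℝ)⁻¹ ≤ (d : ℝ)⁻¹ * t22b_V (smo u v X) := by
  classical
  unfold t22b_V
  rw [Finset.mul_sum]
  have h1 : ∀ n ∈ (smo u v X).filter (fun n => d ∣ n), (n : ℝ)⁻¹ = (d : ℝ)⁻¹ * ((n / d : ℕ) : ℝ)⁻¹ := by
    intro n hn
    obtain ⟨m, rfl⟩ := (Finset.mem_filter.1 hn).2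
    rw [Nat.mul_div_cancel_left _ hd]
    push_cast
    rw [mul_inv]
  rw [Finset.sum_congr rfl h1]
  have hinj : Set.InjOn (fun n : ℕ => n / d) ((smo u v X).filter (fun n => d ∣ n)) := by
    intro a ha b hb hab
    simp only [Finset.coe_filter, Set.mem_setOf_eq] at ha hb
    obtain ⟨m, rfl⟩ := ha.2
    obtain ⟨m', rfl⟩ := hb.2
    simp only [Nat.mul_div_cancel_left _ hd] at hab
    rw [hab]
  rw [← Finset.sum_image (f := fun m : ℕ => (d : ℝ)⁻¹ * (m : ℝ)⁻¹) hinj]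
  refine Finset.sum_le_sum_of_subset_of_nonneg ?_ (fun _ _ _ => by positivity)
  intro m hm
  rw [Finset.mem_image] at hm
  obtain ⟨n, hn, rfl⟩ := hm
  rw [Finset.mem_filter] at hn
  obtain ⟨hn1, m, rfl⟩ := hn
  simp only [Nat.mul_div_cancel_left _ hd]
  exact t22b_smo_div hX hn1 rfl

/-- a number is bad if two primes of one window divide it (possibly equal, with multiplicity) -/
def t22b_Bad (δ : ℝ) (M : ℕ) (L : ℝ) (n : ℕ) : Prop :=
  ∃ j : Fin M, ∃ p ∈ win δ M L j, ∃ q ∈ win δ M L j, p * q ∣ n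

/-- a number is good if it is the product of a good set of primes -/
def t22b_Good (δ : ℝ) (M : ℕ) (L : ℝ) (n : ℕ) : Prop :=
  ∏ p ∈ n.primeFactors, p = n ∧ n.primeFactors ∈ goodS δ M L

theorem t22b_mem_goodS {δ : ℝ} {M : ℕ} {L : ℝ} {S : Finset ℕ} : S ∈ goodS δ M L ↔
    S ⊆ prm (Real.exp (δ * L)) (Real.exp L) ∧ ∀ j : Fin M, (S ∩ win δ M L j).card ≤ 1 := by
  classical
  unfold goodS
  rw [Finset.mem_filter, Finset.mem_powerset]

theorem t22b_bad_of_not_good {δ : ℝ} (hδ : 0 < δ) (hδ1 : δ < 1) {M : ℕ} (hM : 0 < M) {L : ℝ}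
    (hL : 0 < L) {n : ℕ} (hn : n ∈ smo (Real.exp (δ * L)) (Real.exp L) (Real.exp L))
    (h : ¬ t22b_Good δ M L n) : t22b_Bad δ M L n := by
  classical
  rw [t22b_mem_smo (Real.exp_pos _).le] at hn
  obtain ⟨hn1, hn2, hn3⟩ := hn
  have hn0 : n ≠ 0 := by omega
  have hsub : n.primeFactors ⊆ prm (Real.exp (δ * L)) (Real.exp L) := by
    intro p hp
    rw [t22a_mem_prm]
    exact ⟨Nat.prime_of_mem_primeFactors hp, hn3 p hp⟩
  unfold t22b_Good at h
  by_cases h1 : ∏ p ∈ n.primeFactors, p = n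
  · have h2 : n.primeFactors ∉ goodS δ M L := fun h2 => h ⟨h1, h2⟩
    rw [t22b_mem_goodS] at h2
    push Not at h2
    obtain ⟨j, hj⟩ := h2 hsub
    obtain ⟨p, hp, q, hq, hpq⟩ := Finset.one_lt_card.1 hj
    rw [Finset.mem_inter] at hp hq
    refine ⟨j, p, hp.2, q, hq.2, ?_⟩
    have hpp := Nat.prime_of_mem_primeFactors hp.1
    have hqq := Nat.prime_of_mem_primeFactors hq.1
    exact Nat.Coprime.mul_dvd_of_dvd_of_dvd ((Nat.coprime_primes hpp hqq).2 hpq)
      (Nat.dvd_of_mem_primeFactors hp.1) (Nat.dvd_of_mem_primeFactors hq.1)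
  · have h2 : ¬ Squarefree n := fun h2 => h1 (Nat.prod_primeFactors_of_squarefree h2)
    rw [Nat.squarefree_iff_prime_squarefree] at h2
    push Not at h2
    obtain ⟨p, hp, hpp⟩ := h2
    have hpn : p ∈ n.primeFactors := Nat.mem_primeFactors.2 ⟨hp, (dvd_mul_right p p).trans hpp, hn0⟩
    have hpu := hsub hpn
    rw [← t22a_biUnion hδ hδ1 hM hL, Finset.mem_biUnion] at hpu
    obtain ⟨j, -, hj⟩ := hpu
    exact ⟨j, p, hj, p, hj, hpp⟩

theorem t22b_bad_sum {δ : ℝ} {M : ℕ} {L : ℝ} (P : ℕ → Prop) [DecidablePred P]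
    (hP : ∀ n ∈ smo (Real.exp (δ * L)) (Real.exp L) (Real.exp L), P n → t22b_Bad δ M L n) :
    ∑ n ∈ (smo (Real.exp (δ * L)) (Real.exp L) (Real.exp L)).filter P, (n : ℝ)⁻¹ ≤
      (∑ j : Fin M, (∑ p ∈ win δ M L j, (p : ℝ)⁻¹) ^ 2) *
        t22b_V (smo (Real.exp (δ * L)) (Real.exp L) (Real.exp L)) := by
  classical
  set T := smo (Real.exp (δ * L)) (Real.exp L) (Real.exp L) with hT
  have hV0 : 0 ≤ t22b_V T := Finset.sum_nonneg fun _ _ => by positivity
  calc ∑ n ∈ T.filter P, (n : ℝ)⁻¹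
      ≤ ∑ n ∈ T.filter P, ∑ j : Fin M, ∑ p ∈ win δ M L j, ∑ q ∈ win δ M L j,
          (if p * q ∣ n then (n : ℝ)⁻¹ else 0) := by
        refine Finset.sum_le_sum fun n hn => ?_
        rw [Finset.mem_filter] at hn
        obtain ⟨j, p, hp, q, hq, hpq⟩ := hP n hn.1 hn.2
        have hnn : ∀ a b : ℕ, 0 ≤ (if a * b ∣ n then (n : ℝ)⁻¹ else 0) := by
          intro a b; split_ifs <;> positivity
        calc (n : ℝ)⁻¹ = (if p * q ∣ n then (n : ℝ)⁻¹ else 0) := by rw [if_pos hpq]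
          _ ≤ ∑ q ∈ win δ M L j, (if p * q ∣ n then (n : ℝ)⁻¹ else 0) :=
            Finset.single_le_sum (f := fun q => (if p * q ∣ n then (n : ℝ)⁻¹ else 0))
              (fun b _ => hnn p b) hq
          _ ≤ ∑ p ∈ win δ M L j, ∑ q ∈ win δ M L j, (if p * q ∣ n then (n : ℝ)⁻¹ else 0) :=
            Finset.single_le_sum (f := fun p => ∑ q ∈ win δ M L j, (if p * q ∣ n then (n : ℝ)⁻¹ else 0))
              (fun a _ => Finset.sum_nonneg fun b _ => hnn a b) hp
          _ ≤ _ := Finset.single_le_sum (f := fun j => ∑ p ∈ win δ M L j, ∑ q ∈ win δ M L j,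
              (if p * q ∣ n then (n : ℝ)⁻¹ else 0))
              (fun j _ => Finset.sum_nonneg fun a _ => Finset.sum_nonneg fun b _ => hnn a b)
              (Finset.mem_univ j)
    _ ≤ ∑ n ∈ T, ∑ j : Fin M, ∑ p ∈ win δ M L j, ∑ q ∈ win δ M L j,
          (if p * q ∣ n then (n : ℝ)⁻¹ else 0) := by
        refine Finset.sum_le_sum_of_subset_of_nonneg (Finset.filter_subset _ _) ?_
        intro n _ _
        refine Finset.sum_nonneg fun j _ => Finset.sum_nonneg fun a _ => Finset.sum_nonneg fun b _ => ?_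
        split_ifs <;> positivity
    _ = ∑ j : Fin M, ∑ p ∈ win δ M L j, ∑ q ∈ win δ M L j, ∑ n ∈ T.filter (fun n => p * q ∣ n),
          (n : ℝ)⁻¹ := by
        rw [Finset.sum_comm]
        refine Finset.sum_congr rfl fun j _ => ?_
        rw [Finset.sum_comm]
        refine Finset.sum_congr rfl fun p _ => ?_
        rw [Finset.sum_comm]
        refine Finset.sum_congr rfl fun q _ => ?_
        rw [Finset.sum_filter]
    _ ≤ ∑ j : Fin M, ∑ p ∈ win δ M L j, ∑ q ∈ win δ M L j, ((p : ℝ)⁻¹ * (q : ℝ)⁻¹) * t22b_V T := by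
        refine Finset.sum_le_sum fun j _ => Finset.sum_le_sum fun p hp => Finset.sum_le_sum fun q hq => ?_
        have hp0 := (t22a_mem_win.1 hp).1.pos
        have hq0 := (t22a_mem_win.1 hq).1.pos
        have := t22b_mult (u := Real.exp (δ * L)) (v := Real.exp L) (X := Real.exp L)
          (Real.exp_pos _).le (Nat.mul_pos hp0 hq0)
        refine this.trans (le_of_eq ?_)
        push_cast
        rw [mul_inv]
    _ = _ := by
        rw [Finset.sum_mul]
        refine Finset.sum_congr rfl fun j _ => ?_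
        rw [sq, Finset.sum_mul_sum, Finset.sum_mul]
        refine Finset.sum_congr rfl fun p _ => ?_
        rw [Finset.sum_mul]

/-- exponents of a good set against the logarithm of its product -/
theorem t22b_log_prod {S : Finset ℕ} (hS : ∀ p ∈ S, p ≠ 0) :
    Real.log ((∏ p ∈ S, p : ℕ) : ℝ) = ∑ p ∈ S, Real.log p := by
  rw [Nat.cast_prod, Real.log_prod]
  intro p hp
  exact_mod_cast hS p hp

theorem t22b_prod_le {u : ℝ} {S : Finset ℕ} {Y : ℝ} (hS : ∀ p ∈ S, p.Prime ∧ u < Real.log p)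
    (h : Real.log ((∏ p ∈ S, p : ℕ) : ℝ) ≤ Y) : (S.card : ℝ) * u ≤ Y := by
  rw [t22b_log_prod (fun p hp => (hS p hp).1.ne_zero)] at h
  refine le_trans ?_ h
  rw [← nsmul_eq_mul, ← Finset.sum_const]
  exact Finset.sum_le_sum fun p hp => (hS p hp).2.le

/-- for `p` in the union of the windows, the upper end of its window -/
theorem t22b_uS {δ : ℝ} (hδ : 0 < δ) (hδ1 : δ < 1) {M : ℕ} (hM : 0 < M) {L : ℝ} (hL : 0 < L)
    {p : ℕ} (hp : p ∈ prm (Real.exp (δ * L)) (Real.exp L)) :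
    Real.log p / L ≤ ∑ j : Fin M, (if p ∈ win δ M L j then (δ + (1 - δ) * (j + 1) / M) else 0) ∧
      ∑ j : Fin M, (if p ∈ win δ M L j then (δ + (1 - δ) * (j + 1) / M) else 0) ≤
        Real.log p / L + (1 - δ) / M := by
  have hM' : (0 : ℝ) < M := by exact_mod_cast hM
  rw [← t22a_biUnion hδ hδ1 hM hL, Finset.mem_biUnion] at hp
  obtain ⟨j, -, hj⟩ := hp
  have h1 : ∑ j : Fin M, (if p ∈ win δ M L j then (δ + (1 - δ) * (j + 1) / M) else 0) =
      δ + (1 - δ) * (j + 1) / M := by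
    rw [Finset.sum_eq_single j]
    · rw [if_pos hj]
    · intro i _ hij
      rw [if_neg]
      intro hi
      exact Finset.disjoint_left.1 (t22a_win_disj hδ1 hL i j hij) hi hj
    · intro h; exact absurd (Finset.mem_univ _) h
  rw [h1]
  have h2 := t22a_mem_win.1 hj
  have hp0 : (0 : ℝ) < p := by exact_mod_cast h2.1.pos
  have h3 : t22a_e δ M j * L < Real.log p := by
    rw [Real.lt_log_iff_exp_lt hp0]; exact h2.2.1
  have h4 : Real.log p ≤ t22a_e δ M (j + 1) * L := by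
    rw [Real.log_le_iff_le_exp hp0]; exact h2.2.2
  unfold t22a_e at h3 h4
  push_cast at h3 h4
  constructor
  · rw [div_le_iff₀ hL]; exact h4
  · rw [← sub_le_iff_le_add, le_div_iff₀ hL]
    refine le_trans (le_of_eq ?_) h3.le
    ring

theorem t22b_uS_set {δ : ℝ} (hδ : 0 < δ) (hδ1 : δ < 1) {M : ℕ} (hM : 0 < M) {L : ℝ} (hL : 0 < L)
    {S : Finset ℕ} (hS : S ⊆ prm (Real.exp (δ * L)) (Real.exp L)) :
    Real.log ((∏ p ∈ S, p : ℕ) : ℝ) / L ≤ uS δ M L S ∧
      uS δ M L S ≤ Real.log ((∏ p ∈ S, p : ℕ) : ℝ) / L + S.card * ((1 - δ) / M) := by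
  classical
  rw [t22b_log_prod (fun p hp => (t22a_mem_prm.1 (hS hp)).1.ne_zero), Finset.sum_div]
  have h1 : uS δ M L S = ∑ p ∈ S, ∑ j : Fin M,
      (if p ∈ win δ M L j then (δ + (1 - δ) * (j + 1) / M) else 0) := by
    unfold uS
    refine Finset.sum_congr rfl fun p _ => Finset.sum_congr rfl fun j _ => ?_
    congr!
  rw [h1]
  constructor
  · exact Finset.sum_le_sum fun p hp => (t22b_uS hδ hδ1 hM hL (hS hp)).1
  · rw [← nsmul_eq_mul, ← Finset.sum_const, ← Finset.sum_add_distrib]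
    exact Finset.sum_le_sum fun p hp => (t22b_uS hδ hδ1 hM hL (hS hp)).2

theorem t22b_norm_w {w : ℝ → ℂ} {Λ : ℝ} (hw : IsWeight w Λ) {u : ℝ} (hu : 0 ≤ u) : ‖w u‖ ≤ Λ := by
  rcases le_or_gt 1 u with h | h
  · rw [hw.supp u h, norm_zero]; linarith [hw.one_le]
  · have h1 := hw.lip u 1 hu zero_le_one
    rw [hw.supp 1 le_rfl, sub_zero] at h1
    refine h1.trans ?_
    have h2 : |u - 1| ≤ 1 := by rw [abs_le]; constructor <;> linarith
    nlinarith [hw.one_le, abs_nonneg (u - 1)]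

/-- coefficients of `Q` -/
noncomputable def t22b_b (w : ℝ → ℂ) (δ : ℝ) (M : ℕ) (L : ℝ) (n : ℕ) : ℂ := by
  classical exact if t22b_Good δ M L n then w (uS δ M L n.primeFactors) else 0

theorem t22b_b_pos {w : ℝ → ℂ} {δ : ℝ} {M : ℕ} {L : ℝ} {n : ℕ} (h : t22b_Good δ M L n) :
    t22b_b w δ M L n = w (uS δ M L n.primeFactors) := by
  unfold t22b_b; rw [if_pos h]

theorem t22b_b_neg {w : ℝ → ℂ} {δ : ℝ} {M : ℕ} {L : ℝ} {n : ℕ} (h : ¬ t22b_Good δ M L n) :
    t22b_b w δ M L n = 0 := by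
  unfold t22b_b; rw [if_neg h]

theorem t22b_Q_eq {δ : ℝ} (hδ : 0 < δ) (hδ1 : δ < 1) {w : ℝ → ℂ} {Λ : ℝ} (hw : IsWeight w Λ)
    {M : ℕ} (hM : 0 < M) {L : ℝ} (hL : 0 < L) (x : Om) :
    MvPolynomial.eval (fun j => GG δ M L j x) (Qw w δ M) =
      DS (smo (Real.exp (δ * L)) (Real.exp L) (Real.exp L)) (t22b_b w δ M L) x := by
  classical
  rw [Qw_eval hδ hδ1 w hM hL x]
  unfold DS
  set T := smo (Real.exp (δ * L)) (Real.exp L) (Real.exp L) with hT
  have h1 : ∀ S ∈ (goodS δ M L).filter (fun S => w (uS δ M L S) ≠ 0), (∏ p ∈ S, p).primeFactors = S := by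
    intro S hS
    rw [Finset.mem_filter, t22b_mem_goodS] at hS
    exact Nat.primeFactors_prod fun p hp => (t22a_mem_prm.1 (hS.1.1 hp)).1
  rw [← Finset.sum_filter_add_sum_filter_not (goodS δ M L) (fun S => w (uS δ M L S) ≠ 0),
    Finset.sum_eq_zero (s := (goodS δ M L).filter (fun S => ¬ w (uS δ M L S) ≠ 0)), add_zero]
  swap
  · intro S hS
    have := (Finset.mem_filter.1 hS).2
    rw [not_not] at this
    rw [this, zero_mul, zero_mul]
  rw [← Finset.sum_filter_add_sum_filter_not T (fun n => t22b_b w δ M L n ≠ 0),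
    Finset.sum_eq_zero (s := T.filter (fun n => ¬ t22b_b w δ M L n ≠ 0)), add_zero]
  swap
  · intro n hn
    have := (Finset.mem_filter.1 hn).2
    rw [not_not] at this
    rw [this, zero_mul, zero_mul]
  refine Finset.sum_bij' (fun S _ => ∏ p ∈ S, p) (fun n _ => n.primeFactors) ?_ ?_ ?_ ?_ ?_
  · intro S hS
    have hS1 := h1 S hS
    rw [Finset.mem_filter] at hS
    have hg : t22b_Good δ M L (∏ p ∈ S, p) := by
      unfold t22b_Good
      rw [hS1]; exact ⟨rfl, hS.1⟩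
    have hS2 := t22b_mem_goodS.1 hS.1
    have hpr : ∀ p ∈ S, p.Prime := fun p hp => (t22a_mem_prm.1 (hS2.1 hp)).1
    have hpos : 0 < ∏ p ∈ S, p := Finset.prod_pos fun p hp => (hpr p hp).pos
    have hu1 : uS δ M L S < 1 := by
      by_contra hcon
      exact hS.2 (hw.supp _ (not_lt.1 hcon))
    have hlog := (t22b_uS_set hδ hδ1 hM hL hS2.1).1
    rw [div_le_iff₀ hL] at hlog
    rw [Finset.mem_filter, t22b_b_pos hg, hS1, hT, t22b_mem_smo (Real.exp_pos _).le]
    refine ⟨⟨hpos, ?_, ?_⟩, hS.2⟩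
    · rw [← Real.log_le_iff_le_exp (by exact_mod_cast hpos)]
      nlinarith
    · intro p hp
      rw [hS1] at hp
      exact (t22a_mem_prm.1 (hS2.1 hp)).2
  · intro n hn
    rw [Finset.mem_filter] at hn
    have hg : t22b_Good δ M L n := by
      by_contra hcon
      exact hn.2 (t22b_b_neg hcon)
    rw [Finset.mem_filter]
    exact ⟨hg.2, by rw [← t22b_b_pos (w := w) hg]; exact hn.2⟩
  · intro S hS
    exact h1 S hS
  · intro n hn
    rw [Finset.mem_filter] at hn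
    have hg : t22b_Good δ M L n := by
      by_contra hcon
      exact hn.2 (t22b_b_neg hcon)
    exact hg.1
  · intro S hS
    have hS1 := h1 S hS
    rw [Finset.mem_filter] at hS
    have hg : t22b_Good δ M L (∏ p ∈ S, p) := by
      unfold t22b_Good
      rw [hS1]; exact ⟨rfl, hS.1⟩
    rw [t22b_b_pos hg, hS1]

theorem t22b_norm_b {δ : ℝ} (hδ : 0 < δ) (hδ1 : δ < 1) {w : ℝ → ℂ} {Λ : ℝ} (hw : IsWeight w Λ)
    (M : ℕ) (L : ℝ) (n : ℕ) : ‖t22b_b w δ M L n‖ ≤ Λ := by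
  classical
  by_cases hg : t22b_Good δ M L n
  · rw [t22b_b_pos hg]
    apply t22b_norm_w hw
    unfold uS
    refine Finset.sum_nonneg fun p _ => Finset.sum_nonneg fun j _ => ?_
    have h2 : 0 ≤ 1 - δ := by linarith
    split_ifs <;> positivity
  · rw [t22b_b_neg hg, norm_zero]; linarith [hw.one_le]

/-- the coefficients of `A - Q` at good numbers -/
theorem t22b_good_coeff {δ : ℝ} (hδ : 0 < δ) (hδ1 : δ < 1) {w : ℝ → ℂ} {Λ : ℝ} (hw : IsWeight w Λ)
    {M : ℕ} (hM : 0 < M) {L : ℝ} (hL : 0 < L) {n : ℕ}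
    (hn : n ∈ smo (Real.exp (δ * L)) (Real.exp L) (Real.exp L)) (hg : t22b_Good δ M L n) :
    ‖w (Real.log n / L) - t22b_b w δ M L n‖ ≤ Λ / (δ * M) := by
  have hM' : (0 : ℝ) < M := by exact_mod_cast hM
  rw [t22b_b_pos hg]
  rw [t22b_mem_smo (Real.exp_pos _).le] at hn
  have hsub := (t22b_mem_goodS.1 hg.2).1
  have h1 := t22b_uS_set hδ hδ1 hM hL hsub
  rw [hg.1] at h1
  have hn0 : (0 : ℝ) < n := by exact_mod_cast hn.1
  have hlogn : Real.log n ≤ L := by
    rw [Real.log_le_iff_le_exp hn0]; exact hn.2.1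
  have hlog0 : 0 ≤ Real.log n := Real.log_natCast_nonneg n
  have hcard : (n.primeFactors.card : ℝ) * (δ * L) ≤ L := by
    apply t22b_prod_le (S := n.primeFactors)
    · intro p hp
      have hp1 := t22a_mem_prm.1 (hsub hp)
      refine ⟨hp1.1, ?_⟩
      rw [Real.lt_log_iff_exp_lt (by exact_mod_cast hp1.1.pos)]
      exact hp1.2.1
    · rw [hg.1]; exact hlogn
  have hcard' : (n.primeFactors.card : ℝ) ≤ 1 / δ := by
    rw [le_div_iff₀ hδ]
    have : (n.primeFactors.card : ℝ) * δ * L ≤ 1 * L := by linarith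
    exact le_of_mul_le_mul_right this hL
  have h2 := hw.lip (Real.log n / L) (uS δ M L n.primeFactors) (by positivity)
    (le_trans (by positivity) h1.1)
  refine h2.trans ?_
  have h3 : |Real.log n / L - uS δ M L n.primeFactors| ≤ 1 / δ * ((1 - δ) / M) := by
    rw [abs_le]
    have h4 : (n.primeFactors.card : ℝ) * ((1 - δ) / M) ≤ 1 / δ * ((1 - δ) / M) := by
      have : 0 ≤ (1 - δ) / M := div_nonneg (by linarith) hM'.le
      gcongr
    have h5 : 0 ≤ 1 / δ * ((1 - δ) / M) :=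
      mul_nonneg (by positivity) (div_nonneg (by linarith) hM'.le)
    constructor <;> linarith [h1.1, h1.2]
  have hΛ : 0 ≤ Λ := by linarith [hw.one_le]
  calc Λ * |Real.log n / L - uS δ M L n.primeFactors|
      ≤ Λ * (1 / δ * ((1 - δ) / M)) := by gcongr
    _ ≤ Λ * (1 / δ * (1 / M)) := by
        have : 1 - δ ≤ 1 := by linarith
        gcongr
    _ = Λ / (δ * M) := by field_simp

theorem window_approx {δ : ℝ} (hδ : 0 < δ) (hδ1 : δ < 1) {w : ℝ → ℂ} {Λ : ℝ} (hw : IsWeight w Λ) :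
    ∃ C : ℕ → ℝ, ∀ ε : ℝ, 0 < ε → ∃ (M : ℕ) (Q : MvPolynomial (Fin M) ℂ) (L0 : ℝ), ∀ L : ℝ, L0 ≤ L →
      (∫ x, ‖DS (smo (Real.exp (δ * L)) (Real.exp L) (Real.exp L)) (fun n => w (Real.log n / L)) x -
        MvPolynomial.eval (fun j => GG δ M L j x) Q‖ ^ 2 ∂mu ≤ ε) ∧
      (∀ s : ℕ, ∫ x, ‖MvPolynomial.eval (fun j => GG δ M L j x) Q‖ ^ (2 * s) ∂mu ≤ C s) := by
  classical
  have hΛ : 0 < Λ := by linarith [hw.one_le]
  choose C hC0 hC using sum_smo_tau_le
  have htau : ∀ (r : ℕ) (L : ℝ), 0 < L → Real.sqrt 2 ≤ Real.exp (δ * L) →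
      ∑ n ∈ smo (Real.exp (δ * L)) (Real.exp L) (Real.exp L), LibZM.tau (r : ℝ) n * (n : ℝ)⁻¹ ≤
        C r * (1 / δ) ^ r := by
    intro r L hL h2
    have h := hC r (Real.exp (δ * L)) (Real.exp L) (Real.exp L) 0 h2
      (Real.exp_le_exp.2 (by nlinarith)) le_rfl (by norm_num)
    rw [Real.log_exp, Real.log_exp] at h
    have h3 : L / (δ * L) = 1 / δ := by field_simp
    rw [h3] at h
    refine le_trans (le_of_eq ?_) h
    refine Finset.sum_congr rfl fun n _ => ?_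
    rw [zero_sub, Real.rpow_neg_one]
  refine ⟨fun s => Λ ^ s * (Λ * (C s * (1 / δ) ^ s)) ^ s, fun ε hε => ?_⟩
  set C1 := C 1 with hC1
  have hC1pos : 0 < C1 := hC0 1
  obtain ⟨M, hM⟩ := exists_nat_gt (5 * Λ ^ 2 * C1 / (δ ^ 3 * ε))
  have hMpos : 0 < M := by
    have : (0 : ℝ) < M := lt_of_le_of_lt (by positivity) hM
    exact_mod_cast this
  have hM' : (0 : ℝ) < M := by exact_mod_cast hMpos
  have hM1 : (1 : ℝ) ≤ M := by exact_mod_cast hMpos
  have hwin : ∀ j : Fin M, ∀ᶠ L : ℝ in atTop, ∑ p ∈ win δ M L j, (p : ℝ)⁻¹ ≤ 2 / (δ * M) := by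
    intro j
    have ha : 0 < δ + (1 - δ) * (j : ℕ) / M := by
      have : 0 ≤ 1 - δ := by linarith
      positivity
    have hab : δ + (1 - δ) * (j : ℕ) / M < δ + (1 - δ) * ((j : ℕ) + 1) / M := by
      have : 0 < 1 - δ := by linarith
      have h1 : ((j : ℕ) : ℝ) < (j : ℕ) + 1 := by linarith
      gcongr
    have h := window_tendsto ha hab
    have hlt : Real.log ((δ + (1 - δ) * ((j : ℕ) + 1) / M) / (δ + (1 - δ) * (j : ℕ) / M)) <
        2 / (δ * M) := by
      have hb : 0 < δ + (1 - δ) * ((j : ℕ) + 1) / M := ha.trans hab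
      have h1 := Real.log_le_sub_one_of_pos (div_pos hb ha)
      refine lt_of_le_of_lt h1 ?_
      have h2 : (δ + (1 - δ) * ((j : ℕ) + 1) / M) / (δ + (1 - δ) * (j : ℕ) / M) - 1 =
          ((1 - δ) / M) / (δ + (1 - δ) * (j : ℕ) / M) := by
        rw [div_sub_one ha.ne']
        congr 1
        ring
      rw [h2]
      have h3 : δ ≤ δ + (1 - δ) * (j : ℕ) / M := by
        have : 0 ≤ (1 - δ) * (j : ℕ) / M := by
          have : 0 ≤ 1 - δ := by linarith
          positivity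
        linarith
      calc ((1 - δ) / M) / (δ + (1 - δ) * (j : ℕ) / M) ≤ (1 / M) / δ := by
            have h4 : 1 - δ ≤ 1 := by linarith
            gcongr
        _ = 1 / (δ * M) := by field_simp
        _ < 2 / (δ * M) := by gcongr; norm_num
    filter_upwards [h.eventually_lt_const hlt] with L hL
    unfold win
    exact hL.le
  have hall := eventually_all.2 hwin
  obtain ⟨L1, hL1⟩ := eventually_atTop.1 hall
  refine ⟨M, Qw w δ M, max (max L1 1) (Real.log 2 / δ), fun L hL => ?_⟩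
  have hLL1 : L1 ≤ L := le_trans (le_trans (le_max_left _ _) (le_max_left _ _)) hL
  have hL1' : 1 ≤ L := le_trans (le_trans (le_max_right _ _) (le_max_left _ _)) hL
  have hL2 : Real.log 2 / δ ≤ L := le_trans (le_max_right _ _) hL
  have hL0 : 0 < L := by linarith
  have hs2 : Real.sqrt 2 ≤ Real.exp (δ * L) := by
    have h1 : Real.log 2 ≤ δ * L := by
      rw [div_le_iff₀ hδ] at hL2; linarith
    have h2 : (2 : ℝ) ≤ Real.exp (δ * L) := by
      rw [← Real.log_le_iff_le_exp (by norm_num)]; exact h1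
    have h3 : Real.sqrt 2 ≤ 2 := by
      rw [Real.sqrt_le_left (by norm_num)]; norm_num
    linarith
  set T := smo (Real.exp (δ * L)) (Real.exp L) (Real.exp L) with hT
  have hT1 : ∀ n ∈ T, 1 ≤ n := by
    intro n hn
    rw [hT, t22b_mem_smo (Real.exp_pos _).le] at hn
    exact hn.1
  have hV : t22b_V T ≤ C1 / δ := by
    have h := htau 1 L hL0 hs2
    rw [pow_one] at h
    refine le_trans (le_of_eq ?_) (h.trans (le_of_eq (by ring)))
    unfold t22b_V
    refine Finset.sum_congr rfl fun n hn => ?_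
    rw [Nat.cast_one, LibZM.tau_one_apply (by have := hT1 n hn; omega), one_mul]
  constructor
  · have h1 : ∀ x, DS T (fun n => w (Real.log n / L)) x -
        MvPolynomial.eval (fun j => GG δ M L j x) (Qw w δ M) =
        DS T (fun n => w (Real.log n / L) - t22b_b w δ M L n) x := by
      intro x
      rw [t22b_Q_eq hδ hδ1 hw hMpos hL0 x]
      unfold DS
      rw [← Finset.sum_sub_distrib]
      refine Finset.sum_congr rfl fun n _ => ?_
      ring
    simp_rw [h1]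
    rw [integral_norm_sq T hT1]
    rw [← Finset.sum_filter_add_sum_filter_not T (fun n => t22b_Good δ M L n)]
    have hgood : ∑ n ∈ T.filter (fun n => t22b_Good δ M L n),
        ‖w (Real.log n / L) - t22b_b w δ M L n‖ ^ 2 / n ≤ (Λ / (δ * M)) ^ 2 * t22b_V T := by
      calc ∑ n ∈ T.filter (fun n => t22b_Good δ M L n), ‖w (Real.log n / L) - t22b_b w δ M L n‖ ^ 2 / n
          ≤ ∑ n ∈ T.filter (fun n => t22b_Good δ M L n), (Λ / (δ * M)) ^ 2 * (n : ℝ)⁻¹ := by
            refine Finset.sum_le_sum fun n hn => ?_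
            rw [Finset.mem_filter] at hn
            have h2 := t22b_good_coeff hδ hδ1 hw hMpos hL0 hn.1 hn.2
            rw [div_eq_mul_inv]
            gcongr
        _ ≤ ∑ n ∈ T, (Λ / (δ * M)) ^ 2 * (n : ℝ)⁻¹ :=
            Finset.sum_le_sum_of_subset_of_nonneg (Finset.filter_subset _ _)
              (fun _ _ _ => by positivity)
        _ = _ := by rw [t22b_V, Finset.mul_sum]
    have hbad : ∑ n ∈ T.filter (fun n => ¬ t22b_Good δ M L n),
        ‖w (Real.log n / L) - t22b_b w δ M L n‖ ^ 2 / n ≤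
        Λ ^ 2 * ((M * (2 / (δ * M)) ^ 2) * t22b_V T) := by
      calc ∑ n ∈ T.filter (fun n => ¬ t22b_Good δ M L n),
            ‖w (Real.log n / L) - t22b_b w δ M L n‖ ^ 2 / n
          ≤ ∑ n ∈ T.filter (fun n => ¬ t22b_Good δ M L n), Λ ^ 2 * (n : ℝ)⁻¹ := by
            refine Finset.sum_le_sum fun n hn => ?_
            rw [Finset.mem_filter] at hn
            rw [t22b_b_neg hn.2, sub_zero, div_eq_mul_inv]
            have h2 := t22b_norm_w hw (u := Real.log n / L)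
              (div_nonneg (Real.log_natCast_nonneg n) hL0.le)
            gcongr
        _ = Λ ^ 2 * ∑ n ∈ T.filter (fun n => ¬ t22b_Good δ M L n), (n : ℝ)⁻¹ := by
            rw [Finset.mul_sum]
        _ ≤ Λ ^ 2 * ((∑ j : Fin M, (∑ p ∈ win δ M L j, (p : ℝ)⁻¹) ^ 2) * t22b_V T) := by
            gcongr
            exact t22b_bad_sum (fun n => ¬ t22b_Good δ M L n)
              (fun n hn hng => t22b_bad_of_not_good hδ hδ1 hMpos hL0 hn hng)
        _ ≤ _ := by
            have hV0 : 0 ≤ t22b_V T := Finset.sum_nonneg fun _ _ => by positivity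
            gcongr
            calc ∑ j : Fin M, (∑ p ∈ win δ M L j, (p : ℝ)⁻¹) ^ 2
                ≤ ∑ j : Fin M, (2 / (δ * M)) ^ 2 := by
                  refine Finset.sum_le_sum fun j _ => ?_
                  have h0 : 0 ≤ ∑ p ∈ win δ M L j, (p : ℝ)⁻¹ :=
                    Finset.sum_nonneg fun _ _ => by positivity
                  have := hL1 L hLL1 j
                  gcongr
              _ = M * (2 / (δ * M)) ^ 2 := by simp
    refine (add_le_add hgood hbad).trans ?_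
    have h5 : (Λ / (δ * M)) ^ 2 * t22b_V T + Λ ^ 2 * ((M * (2 / (δ * M)) ^ 2) * t22b_V T) =
        (Λ ^ 2 / (δ ^ 2 * M) * (1 / M + 4)) * t22b_V T := by
      field_simp
      ring
    rw [h5]
    have hV0 : 0 ≤ t22b_V T := Finset.sum_nonneg fun _ _ => by positivity
    calc (Λ ^ 2 / (δ ^ 2 * M) * (1 / M + 4)) * t22b_V T
        ≤ (Λ ^ 2 / (δ ^ 2 * M) * (1 + 4)) * (C1 / δ) := by
          have : 1 / (M : ℝ) ≤ 1 := by rw [div_le_one hM']; exact hM1
          gcongr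
      _ = 5 * Λ ^ 2 * C1 / δ ^ 3 / M := by field_simp; ring
      _ ≤ ε := by
          rw [div_le_iff₀ hM']
          rw [div_lt_iff₀ (by positivity)] at hM
          rw [div_le_iff₀ (by positivity)]
          nlinarith
  · intro s
    have h1 : ∀ x, MvPolynomial.eval (fun j => GG δ M L j x) (Qw w δ M) =
        ∑ n ∈ T, t22b_b w δ M L n * (((Real.sqrt ((id n : ℕ) : ℝ))⁻¹ : ℝ) : ℂ) * ch x (id n) := by
      intro x
      rw [t22b_Q_eq hδ hδ1 hw hMpos hL0 x]
      rfl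
    simp_rw [h1]
    refine (moment_le s T id (t22b_b w δ M L) Λ hT1 Function.injective_id.injOn
      (fun n _ => t22b_norm_b hδ hδ1 hw M L n)).trans ?_
    have h2 := htau s L hL0 hs2
    have h3 : ∑ n ∈ T, ‖t22b_b w δ M L n‖ * LibZM.tau (s : ℝ) (id n) / ((id n : ℕ) : ℝ) ≤
        Λ * (C s * (1 / δ) ^ s) := by
      calc ∑ n ∈ T, ‖t22b_b w δ M L n‖ * LibZM.tau (s : ℝ) (id n) / ((id n : ℕ) : ℝ)
          ≤ ∑ n ∈ T, Λ * (LibZM.tau (s : ℝ) n * (n : ℝ)⁻¹) := by
            refine Finset.sum_le_sum fun n _ => ?_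
            have h4 := t22b_norm_b hδ hδ1 hw M L n
            have h5 : 0 ≤ LibZM.tau (s : ℝ) n := LibZM.tau_nonneg (Nat.cast_nonneg s) n
            simp only [id]
            rw [div_eq_mul_inv, mul_assoc]
            gcongr
        _ = Λ * ∑ n ∈ T, LibZM.tau (s : ℝ) n * (n : ℝ)⁻¹ := by rw [Finset.mul_sum]
        _ ≤ _ := by gcongr
    have h6 : 0 ≤ ∑ n ∈ T, ‖t22b_b w δ M L n‖ * LibZM.tau (s : ℝ) (id n) / ((id n : ℕ) : ℝ) :=
      Finset.sum_nonneg fun n _ => div_nonneg (mul_nonneg (norm_nonneg _)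
        (LibZM.tau_nonneg (Nat.cast_nonneg s) _)) (Nat.cast_nonneg _)
    gcongr

end Pool.Agent.LibMM99
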