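import Mathlib
import Pool.Agent.LibMM99.T22b

set_option autoImplicit false

namespace Pool.Agent.LibMM99

open MeasureTheory Filter Topology
open scoped ComplexConjugate

/-- `window_approx` (T22b) with the explicit polynomial `Qw w δ M`, for all large `M` -/
theorem window_approx_all {δ : ℝ} (hδ : 0 < δ) (hδ1 : δ < 1) {w : ℝ → ℂ} {Λ : ℝ} (hw : IsWeight w Λ) :
    ∃ C : ℕ → ℝ, ∀ ε : ℝ, 0 < ε → ∃ M0 : ℕ, 1 ≤ M0 ∧ ∀ M : ℕ, M0 ≤ M → ∃ L0 : ℝ, ∀ L : ℝ, L0 ≤ L →
      (∫ x, ‖DS (smo (Real.exp (δ * L)) (Real.exp L) (Real.exp L)) (fun n => w (Real.log n / L)) x -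
        MvPolynomial.eval (fun j => GG δ M L j x) (Qw w δ M)‖ ^ 2 ∂mu ≤ ε) ∧
      (∀ s : ℕ, ∫ x, ‖MvPolynomial.eval (fun j => GG δ M L j x) (Qw w δ M)‖ ^ (2 * s) ∂mu ≤ C s) := by
  classical
  have hΛ : 0 < Λ := by linarith [hw.one_le]
  choose C hC0 hC using sum_smo_tau_le
  have htau : ∀ (r : ℕ) (L : ℝ), 0 < L → Real.sqrt 2 ≤ Real.exp (δ * L) →
      ∑ n ∈ smo (Real.exp (δ * L)) (Real.exp L) (Real.exp L), LibZM.tau (r : ℝ) n * (n : ℝ)⁻¹ ≤
        C r * (1 / δ) ^ r := by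
    intro r L hL h2
    have h := hC r (Real.exp (δ * L)) (Real.exp L) (Real.exp L) 0 h2
      (Real.exp_le_exp.2 (by nlinarith)) le_rfl (by norm_num)
    rw [Real.log_exp, Real.log_exp] at h
    have h3 : L / (δ * L) = 1 / δ := by field_simp
    rw [h3] at h
    refine le_trans (le_of_eq ?_) h
    refine Finset.sum_congr rfl fun n _ => ?_
    rw [zero_sub, Real.rpow_neg_one]
  refine ⟨fun s => Λ ^ s * (Λ * (C s * (1 / δ) ^ s)) ^ s, fun ε hε => ?_⟩
  set C1 := C 1 with hC1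
  have hC1pos : 0 < C1 := hC0 1
  obtain ⟨M0, hM0⟩ := exists_nat_gt (5 * Λ ^ 2 * C1 / (δ ^ 3 * ε))
  have hM0pos : 1 ≤ M0 := by
    have : (0 : ℝ) < M0 := lt_of_le_of_lt (by positivity) hM0
    exact_mod_cast this
  refine ⟨M0, hM0pos, fun M hMM => ?_⟩
  have hM : 5 * Λ ^ 2 * C1 / (δ ^ 3 * ε) < (M : ℝ) :=
    lt_of_lt_of_le hM0 (by exact_mod_cast hMM)
  have hMpos : 0 < M := by
    have : (0 : ℝ) < M := lt_of_le_of_lt (by positivity) hM
    exact_mod_cast this
  have hM' : (0 : ℝ) < M := by exact_mod_cast hMpos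
  have hM1 : (1 : ℝ) ≤ M := by exact_mod_cast hMpos
  have hwin : ∀ j : Fin M, ∀ᶠ L : ℝ in atTop, ∑ p ∈ win δ M L j, (p : ℝ)⁻¹ ≤ 2 / (δ * M) := by
    intro j
    have ha : 0 < δ + (1 - δ) * (j : ℕ) / M := by
      have : 0 ≤ 1 - δ := by linarith
      positivity
    have hab : δ + (1 - δ) * (j : ℕ) / M < δ + (1 - δ) * ((j : ℕ) + 1) / M := by
      have : 0 < 1 - δ := by linarith
      have h1 : ((j : ℕ) : ℝ) < (j : ℕ) + 1 := by linarith
      gcongr
    have h := window_tendsto ha hab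
    have hlt : Real.log ((δ + (1 - δ) * ((j : ℕ) + 1) / M) / (δ + (1 - δ) * (j : ℕ) / M)) <
        2 / (δ * M) := by
      have hb : 0 < δ + (1 - δ) * ((j : ℕ) + 1) / M := ha.trans hab
      have h1 := Real.log_le_sub_one_of_pos (div_pos hb ha)
      refine lt_of_le_of_lt h1 ?_
      have h2 : (δ + (1 - δ) * ((j : ℕ) + 1) / M) / (δ + (1 - δ) * (j : ℕ) / M) - 1 =
          ((1 - δ) / M) / (δ + (1 - δ) * (j : ℕ) / M) := by
        rw [div_sub_one ha.ne']
        congr 1
        ring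
      rw [h2]
      have h3 : δ ≤ δ + (1 - δ) * (j : ℕ) / M := by
        have : 0 ≤ (1 - δ) * (j : ℕ) / M := by
          have : 0 ≤ 1 - δ := by linarith
          positivity
        linarith
      calc ((1 - δ) / M) / (δ + (1 - δ) * (j : ℕ) / M) ≤ (1 / M) / δ := by
            have h4 : 1 - δ ≤ 1 := by linarith
            gcongr
        _ = 1 / (δ * M) := by field_simp
        _ < 2 / (δ * M) := by gcongr; norm_num
    filter_upwards [h.eventually_lt_const hlt] with L hL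
    unfold win
    exact hL.le
  have hall := eventually_all.2 hwin
  obtain ⟨L1, hL1⟩ := eventually_atTop.1 hall
  refine ⟨max (max L1 1) (Real.log 2 / δ), fun L hL => ?_⟩
  have hLL1 : L1 ≤ L := le_trans (le_trans (le_max_left _ _) (le_max_left _ _)) hL
  have hL1' : 1 ≤ L := le_trans (le_trans (le_max_right _ _) (le_max_left _ _)) hL
  have hL2 : Real.log 2 / δ ≤ L := le_trans (le_max_right _ _) hL
  have hL0 : 0 < L := by linarith
  have hs2 : Real.sqrt 2 ≤ Real.exp (δ * L) := by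
    have h1 : Real.log 2 ≤ δ * L := by
      rw [div_le_iff₀ hδ] at hL2; linarith
    have h2 : (2 : ℝ) ≤ Real.exp (δ * L) := by
      rw [← Real.log_le_iff_le_exp (by norm_num)]; exact h1
    have h3 : Real.sqrt 2 ≤ 2 := by
      rw [Real.sqrt_le_left (by norm_num)]; norm_num
    linarith
  set T := smo (Real.exp (δ * L)) (Real.exp L) (Real.exp L) with hT
  have hT1 : ∀ n ∈ T, 1 ≤ n := by
    intro n hn
    rw [hT, t22b_mem_smo (Real.exp_pos _).le] at hn
    exact hn.1
  have hV : t22b_V T ≤ C1 / δ := by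
    have h := htau 1 L hL0 hs2
    rw [pow_one] at h
    refine le_trans (le_of_eq ?_) (h.trans (le_of_eq (by ring)))
    unfold t22b_V
    refine Finset.sum_congr rfl fun n hn => ?_
    rw [Nat.cast_one, LibZM.tau_one_apply (by have := hT1 n hn; omega), one_mul]
  constructor
  · have h1 : ∀ x, DS T (fun n => w (Real.log n / L)) x -
        MvPolynomial.eval (fun j => GG δ M L j x) (Qw w δ M) =
        DS T (fun n => w (Real.log n / L) - t22b_b w δ M L n) x := by
      intro x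
      rw [t22b_Q_eq hδ hδ1 hw hMpos hL0 x]
      unfold DS
      rw [← Finset.sum_sub_distrib]
      refine Finset.sum_congr rfl fun n _ => ?_
      ring
    simp_rw [h1]
    rw [integral_norm_sq T hT1]
    rw [← Finset.sum_filter_add_sum_filter_not T (fun n => t22b_Good δ M L n)]
    have hgood : ∑ n ∈ T.filter (fun n => t22b_Good δ M L n),
        ‖w (Real.log n / L) - t22b_b w δ M L n‖ ^ 2 / n ≤ (Λ / (δ * M)) ^ 2 * t22b_V T := by
      calc ∑ n ∈ T.filter (fun n => t22b_Good δ M L n), ‖w (Real.log n / L) - t22b_b w δ M L n‖ ^ 2 / n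
          ≤ ∑ n ∈ T.filter (fun n => t22b_Good δ M L n), (Λ / (δ * M)) ^ 2 * (n : ℝ)⁻¹ := by
            refine Finset.sum_le_sum fun n hn => ?_
            rw [Finset.mem_filter] at hn
            have h2 := t22b_good_coeff hδ hδ1 hw hMpos hL0 hn.1 hn.2
            rw [div_eq_mul_inv]
            gcongr
        _ ≤ ∑ n ∈ T, (Λ / (δ * M)) ^ 2 * (n : ℝ)⁻¹ :=
            Finset.sum_le_sum_of_subset_of_nonneg (Finset.filter_subset _ _)
              (fun _ _ _ => by positivity)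
        _ = _ := by rw [t22b_V, Finset.mul_sum]
    have hbad : ∑ n ∈ T.filter (fun n => ¬ t22b_Good δ M L n),
        ‖w (Real.log n / L) - t22b_b w δ M L n‖ ^ 2 / n ≤
        Λ ^ 2 * ((M * (2 / (δ * M)) ^ 2) * t22b_V T) := by
      calc ∑ n ∈ T.filter (fun n => ¬ t22b_Good δ M L n),
            ‖w (Real.log n / L) - t22b_b w δ M L n‖ ^ 2 / n
          ≤ ∑ n ∈ T.filter (fun n => ¬ t22b_Good δ M L n), Λ ^ 2 * (n : ℝ)⁻¹ := by
            refine Finset.sum_le_sum fun n hn => ?_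
            rw [Finset.mem_filter] at hn
            rw [t22b_b_neg hn.2, sub_zero, div_eq_mul_inv]
            have h2 := t22b_norm_w hw (u := Real.log n / L)
              (div_nonneg (Real.log_natCast_nonneg n) hL0.le)
            gcongr
        _ = Λ ^ 2 * ∑ n ∈ T.filter (fun n => ¬ t22b_Good δ M L n), (n : ℝ)⁻¹ := by
            rw [Finset.mul_sum]
        _ ≤ Λ ^ 2 * ((∑ j : Fin M, (∑ p ∈ win δ M L j, (p : ℝ)⁻¹) ^ 2) * t22b_V T) := by
            gcongr
            exact t22b_bad_sum (fun n => ¬ t22b_Good δ M L n)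
              (fun n hn hng => t22b_bad_of_not_good hδ hδ1 hMpos hL0 hn hng)
        _ ≤ _ := by
            have hV0 : 0 ≤ t22b_V T := Finset.sum_nonneg fun _ _ => by positivity
            gcongr
            calc ∑ j : Fin M, (∑ p ∈ win δ M L j, (p : ℝ)⁻¹) ^ 2
                ≤ ∑ j : Fin M, (2 / (δ * M)) ^ 2 := by
                  refine Finset.sum_le_sum fun j _ => ?_
                  have h0 : 0 ≤ ∑ p ∈ win δ M L j, (p : ℝ)⁻¹ :=
                    Finset.sum_nonneg fun _ _ => by positivity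
                  have := hL1 L hLL1 j
                  gcongr
              _ = M * (2 / (δ * M)) ^ 2 := by simp
    refine (add_le_add hgood hbad).trans ?_
    have h5 : (Λ / (δ * M)) ^ 2 * t22b_V T + Λ ^ 2 * ((M * (2 / (δ * M)) ^ 2) * t22b_V T) =
        (Λ ^ 2 / (δ ^ 2 * M) * (1 / M + 4)) * t22b_V T := by
      field_simp
      ring
    rw [h5]
    have hV0 : 0 ≤ t22b_V T := Finset.sum_nonneg fun _ _ => by positivity
    calc (Λ ^ 2 / (δ ^ 2 * M) * (1 / M + 4)) * t22b_V T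
        ≤ (Λ ^ 2 / (δ ^ 2 * M) * (1 + 4)) * (C1 / δ) := by
          have : 1 / (M : ℝ) ≤ 1 := by rw [div_le_one hM']; exact hM1
          gcongr
      _ = 5 * Λ ^ 2 * C1 / δ ^ 3 / M := by field_simp; ring
      _ ≤ ε := by
          rw [div_le_iff₀ hM']
          rw [div_lt_iff₀ (by positivity)] at hM
          rw [div_le_iff₀ (by positivity)]
          nlinarith
  · intro s
    have h1 : ∀ x, MvPolynomial.eval (fun j => GG δ M L j x) (Qw w δ M) =
        ∑ n ∈ T, t22b_b w δ M L n * (((Real.sqrt ((id n : ℕ) : ℝ))⁻¹ : ℝ) : ℂ) * ch x (id n) := by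
      intro x
      rw [t22b_Q_eq hδ hδ1 hw hMpos hL0 x]
      rfl
    simp_rw [h1]
    refine (moment_le s T id (t22b_b w δ M L) Λ hT1 Function.injective_id.injOn
      (fun n _ => t22b_norm_b hδ hδ1 hw M L n)).trans ?_
    have h2 := htau s L hL0 hs2
    have h3 : ∑ n ∈ T, ‖t22b_b w δ M L n‖ * LibZM.tau (s : ℝ) (id n) / ((id n : ℕ) : ℝ) ≤
        Λ * (C s * (1 / δ) ^ s) := by
      calc ∑ n ∈ T, ‖t22b_b w δ M L n‖ * LibZM.tau (s : ℝ) (id n) / ((id n : ℕ) : ℝ)
          ≤ ∑ n ∈ T, Λ * (LibZM.tau (s : ℝ) n * (n : ℝ)⁻¹) := by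
            refine Finset.sum_le_sum fun n _ => ?_
            have h4 := t22b_norm_b hδ hδ1 hw M L n
            have h5 : 0 ≤ LibZM.tau (s : ℝ) n := LibZM.tau_nonneg (Nat.cast_nonneg s) n
            simp only [id]
            rw [div_eq_mul_inv, mul_assoc]
            gcongr
        _ = Λ * ∑ n ∈ T, LibZM.tau (s : ℝ) n * (n : ℝ)⁻¹ := by rw [Finset.mul_sum]
        _ ≤ _ := by gcongr
    have h6 : 0 ≤ ∑ n ∈ T, ‖t22b_b w δ M L n‖ * LibZM.tau (s : ℝ) (id n) / ((id n : ℕ) : ℝ) :=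
      Finset.sum_nonneg fun n _ => div_nonneg (mul_nonneg (norm_nonneg _)
        (LibZM.tau_nonneg (Nat.cast_nonneg s) _)) (Nat.cast_nonneg _)
    gcongr

end Pool.Agent.LibMM99
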