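import Mathlib
import Pool.Agent.LibMM99.T01
import Pool.Agent.LibMM99.T21a
import Pool.Agent.LibMM99.T21b

set_option autoImplicit false

namespace Pool.Agent.LibMM99

open MeasureTheory Filter Topology
open scoped ComplexConjugate

/-- polynomial growth -/
private theorem t21c_growth (M : ℕ) (Q : MvPolynomial (Fin M) ℂ) :
    ∃ (C : ℝ) (N : ℕ), 0 ≤ C ∧ ∀ z : Fin M → ℂ, ‖MvPolynomial.eval z Q‖ ≤ C * (1 + ∑ i, ‖z i‖) ^ N := by
  induction Q using MvPolynomial.induction_on with
  | C a => exact ⟨‖a‖, 0, norm_nonneg a, fun z => by simp⟩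
  | add p q hp hq =>
    obtain ⟨C1, N1, h1, H1⟩ := hp
    obtain ⟨C2, N2, h2, H2⟩ := hq
    refine ⟨C1 + C2, max N1 N2, by positivity, fun z => ?_⟩
    have hs : (1 : ℝ) ≤ 1 + ∑ i, ‖z i‖ := by
      have : 0 ≤ ∑ i, ‖z i‖ := Finset.sum_nonneg fun i _ => norm_nonneg _
      linarith
    rw [map_add, add_mul]
    refine (norm_add_le _ _).trans (add_le_add ((H1 z).trans ?_) ((H2 z).trans ?_))
    · exact mul_le_mul_of_nonneg_left (pow_le_pow_right₀ hs (le_max_left _ _)) h1
    · exact mul_le_mul_of_nonneg_left (pow_le_pow_right₀ hs (le_max_right _ _)) h2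
  | mul_X p i hp =>
    obtain ⟨C1, N1, h1, H1⟩ := hp
    refine ⟨C1, N1 + 1, h1, fun z => ?_⟩
    have h0 : ‖z i‖ ≤ 1 + ∑ i, ‖z i‖ := by
      have := Finset.single_le_sum (f := fun i => ‖z i‖) (fun i _ => norm_nonneg _) (Finset.mem_univ i)
      linarith
    rw [map_mul, MvPolynomial.eval_X, norm_mul, pow_succ, ← mul_assoc]
    exact mul_le_mul (H1 z) h0 (norm_nonneg _)
      (mul_nonneg h1 (pow_nonneg (by have := Finset.sum_nonneg (fun i (_ : i ∈ Finset.univ) => norm_nonneg (z i)); linarith) _))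

private theorem t21c_sum_pow {M : ℕ} (a : Fin M → ℝ) (ha : ∀ i, 0 ≤ a i) (n : ℕ) :
    (∑ i, a i) ^ n ≤ 1 + (M : ℝ) ^ n * ∑ i, a i ^ n := by
  rcases Nat.eq_zero_or_pos M with rfl | hM
  · simp only [Finset.univ_eq_empty, Finset.sum_empty, mul_zero, add_zero]
    exact pow_le_one₀ le_rfl zero_le_one
  · obtain ⟨i0, -, hi0⟩ := Finset.exists_max_image Finset.univ a ⟨⟨0, hM⟩, Finset.mem_univ _⟩
    have h1 : ∑ i, a i ≤ M * a i0 := by
      have := Finset.sum_le_card_nsmul Finset.univ a (a i0) hi0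
      simpa using this
    have h2 : (∑ i, a i) ^ n ≤ (M : ℝ) ^ n * ∑ i, a i ^ n := by
      calc (∑ i, a i) ^ n ≤ (M * a i0) ^ n := pow_le_pow_left₀ (Finset.sum_nonneg fun i _ => ha i) h1 n
        _ = (M : ℝ) ^ n * a i0 ^ n := mul_pow _ _ _
        _ ≤ _ := by
          apply mul_le_mul_of_nonneg_left _ (by positivity)
          exact Finset.single_le_sum (f := fun i => a i ^ n) (fun i _ => pow_nonneg (ha i) n) (Finset.mem_univ i0)
    linarith

private theorem t21c_one_add_pow {S : ℝ} (hS : 0 ≤ S) (n : ℕ) : (1 + S) ^ n ≤ 2 ^ n * (1 + S ^ n) := by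
  rcases le_total S 1 with h | h
  · calc (1 + S) ^ n ≤ 2 ^ n := pow_le_pow_left₀ (by linarith) (by linarith) n
      _ ≤ 2 ^ n * (1 + S ^ n) := by
        have : 0 ≤ S ^ n := pow_nonneg hS n
        nlinarith [pow_pos (by norm_num : (0 : ℝ) < 2) n]
  · calc (1 + S) ^ n ≤ (2 * S) ^ n := pow_le_pow_left₀ (by linarith) (by linarith) n
      _ = 2 ^ n * S ^ n := mul_pow _ _ _
      _ ≤ 2 ^ n * (1 + S ^ n) := by
        have : 0 ≤ S ^ n := pow_nonneg hS n
        nlinarith [pow_pos (by norm_num : (0 : ℝ) < 2) n]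

/-- the expectation of a power of the sum of the absolute values -/
private theorem t21c_int_sum_pow {M : ℕ} {v : ℝ} (G : Fin M → Om → ℂ) (hG : ∀ i, Continuous (G i))
    (hm : ∀ i s, ∫ x, ‖G i x‖ ^ (2 * s) ∂mu ≤ s.factorial * v ^ s) (n : ℕ) :
    ∫ x, (∑ i, ‖G i x‖) ^ (2 * n) ∂mu ≤ 1 + (M : ℝ) ^ (2 * n) * (M * (n.factorial * v ^ n)) := by
  have hc : Continuous fun x => (∑ i, ‖G i x‖) ^ (2 * n) := by fun_prop
  have hc2 : Continuous fun x => 1 + (M : ℝ) ^ (2 * n) * ∑ i, ‖G i x‖ ^ (2 * n) := by fun_prop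
  calc ∫ x, (∑ i, ‖G i x‖) ^ (2 * n) ∂mu
      ≤ ∫ x, (1 + (M : ℝ) ^ (2 * n) * ∑ i, ‖G i x‖ ^ (2 * n)) ∂mu :=
        integral_mono (integrable_of_continuous hc) (integrable_of_continuous hc2)
          fun x => t21c_sum_pow _ (fun i => norm_nonneg _) _
    _ = 1 + (M : ℝ) ^ (2 * n) * ∑ i, ∫ x, ‖G i x‖ ^ (2 * n) ∂mu := by
        rw [integral_add (integrable_const _) (integrable_of_continuous (by fun_prop)),
          integral_const_mul, integral_finsetSum]
        · simp
        · intro i _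
          exact integrable_of_continuous (by fun_prop)
    _ ≤ _ := by
        have : ∑ i, ∫ x, ‖G i x‖ ^ (2 * n) ∂mu ≤ M * (n.factorial * v ^ n) := by
          have h := Finset.sum_le_card_nsmul Finset.univ (fun i => ∫ x, ‖G i x‖ ^ (2 * n) ∂mu)
            (n.factorial * v ^ n) (fun i _ => hm i n)
          simpa using h
        have h0 : (0 : ℝ) ≤ (M : ℝ) ^ (2 * n) := by positivity
        nlinarith [mul_le_mul_of_nonneg_left this h0]

/-- real part coordinate and imaginary part coordinate -/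
private noncomputable def t21cU {M : ℕ} (z : Fin M → ℂ) (a : Fin (M + M)) : ℝ :=
  Sum.elim (fun i => (z i).re) (fun i => (z i).im) (finSumFinEquiv.symm a)

private noncomputable def t21cV {M : ℕ} (a : Fin (M + M)) : MvPolynomial (Fin M ⊕ Fin M) ℂ :=
  Sum.elim (fun i => MvPolynomial.C (1 / 2) * (MvPolynomial.X (Sum.inl i) + MvPolynomial.X (Sum.inr i)))
    (fun i => MvPolynomial.C (-(Complex.I / 2)) * (MvPolynomial.X (Sum.inl i) - MvPolynomial.X (Sum.inr i)))
    (finSumFinEquiv.symm a)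

private noncomputable def t21cZ {M : ℕ} (u : Fin (M + M) → ℝ) (i : Fin M) : ℂ :=
  (u (finSumFinEquiv (Sum.inl i)) : ℂ) + (u (finSumFinEquiv (Sum.inr i)) : ℂ) * Complex.I

private theorem t21c_eval_V {M : ℕ} (z : Fin M → ℂ) (a : Fin (M + M)) :
    MvPolynomial.eval (Sum.elim z (fun i => conj (z i))) (t21cV a) = (t21cU z a : ℂ) := by
  unfold t21cV t21cU
  rcases finSumFinEquiv.symm a with i | i
  · simp only [Sum.elim_inl, map_mul, map_add, MvPolynomial.eval_C, MvPolynomial.eval_X, Sum.elim_inr]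
    rw [Complex.add_conj]
    push_cast
    ring
  · simp only [Sum.elim_inl, map_mul, map_sub, MvPolynomial.eval_C, MvPolynomial.eval_X, Sum.elim_inr]
    rw [Complex.sub_conj]
    push_cast
    ring_nf
    rw [Complex.I_sq]
    ring

private theorem t21c_Z_U {M : ℕ} (z : Fin M → ℂ) : t21cZ (t21cU z) = z := by
  funext i
  unfold t21cZ t21cU
  simp only [Equiv.symm_apply_apply, Sum.elim_inl, Sum.elim_inr]
  exact Complex.re_add_im (z i)

private theorem t21c_abs_U {M : ℕ} (z : Fin M → ℂ) (a : Fin (M + M)) : |t21cU z a| ≤ ∑ i, ‖z i‖ := by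
  unfold t21cU
  rcases finSumFinEquiv.symm a with i | i
  · exact (Complex.abs_re_le_norm (z i)).trans
      (Finset.single_le_sum (f := fun i => ‖z i‖) (fun i _ => norm_nonneg _) (Finset.mem_univ i))
  · exact (Complex.abs_im_le_norm (z i)).trans
      (Finset.single_le_sum (f := fun i => ‖z i‖) (fun i _ => norm_nonneg _) (Finset.mem_univ i))

/-- the polynomial `|Q|^2` -/
private noncomputable def t21cN {M : ℕ} (Q : MvPolynomial (Fin M) ℂ) : MvPolynomial (Fin M ⊕ Fin M) ℂ :=
  MvPolynomial.rename Sum.inl Q * MvPolynomial.rename Sum.inr (MvPolynomial.map (starRingEnd ℂ) Q)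

private theorem t21c_eval_N {M : ℕ} (Q : MvPolynomial (Fin M) ℂ) (z : Fin M → ℂ) :
    MvPolynomial.eval (Sum.elim z (fun i => conj (z i))) (t21cN Q) =
      ((‖MvPolynomial.eval z Q‖ ^ 2 : ℝ) : ℂ) := by
  unfold t21cN
  rw [map_mul, MvPolynomial.eval_rename, MvPolynomial.eval_rename]
  have h1 : (Sum.elim z (fun i => conj (z i))) ∘ (Sum.inl : Fin M → Fin M ⊕ Fin M) = z := rfl
  have h2 : (Sum.elim z (fun i => conj (z i))) ∘ (Sum.inr : Fin M → Fin M ⊕ Fin M) =
      fun i => conj (z i) := rfl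
  rw [h1, h2]
  have h3 : MvPolynomial.eval (fun i => conj (z i)) (MvPolynomial.map (starRingEnd ℂ) Q) =
      conj (MvPolynomial.eval z Q) := by
    rw [MvPolynomial.eval_map]
    induction Q using MvPolynomial.induction_on with
    | C a => simp
    | add p q hp hq => simp only [map_add, MvPolynomial.eval₂_add, hp, hq]
    | mul_X p i hp => simp only [map_mul, MvPolynomial.eval₂_mul, hp, MvPolynomial.eval₂_X, MvPolynomial.eval_X]
  rw [h3, Complex.mul_conj, Complex.normSq_eq_norm_sq]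

private theorem t21c_min {a H : ℝ} (ha : 0 ≤ a) (hH : 0 < H) : |a - min a H| ≤ a ^ 2 / H := by
  rcases le_total a H with h | h
  · rw [min_eq_left h, sub_self, abs_zero]
    positivity
  · rw [min_eq_right h, abs_of_nonneg (by linarith), le_div_iff₀ hH]
    nlinarith

private theorem t21c_rpow {a k : ℝ} (ha : 0 ≤ a) (hk : 0 < k) {s : ℕ} (hs : k ≤ s) :
    (a ^ k) ^ 2 ≤ 1 + (a ^ 2) ^ s := by
  have h0 : (a ^ k) ^ 2 = a ^ (2 * k) := by
    rw [← Real.rpow_natCast (a ^ k) 2, ← Real.rpow_mul ha]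
    congr 1
    push_cast
    ring
  rw [h0, ← pow_mul]
  rcases le_total a 1 with h | h
  · have h1 : a ^ (2 * k) ≤ 1 := Real.rpow_le_one ha h (by positivity)
    have h2 : 0 ≤ a ^ (2 * s) := by positivity
    linarith
  · have h1 : a ^ (2 * k) ≤ a ^ (((2 * s : ℕ)) : ℝ) := by
      apply Real.rpow_le_rpow_of_exponent_le h
      push_cast
      linarith
    rw [Real.rpow_natCast] at h1
    linarith

private theorem t21c_tendsto (A W v : ℝ) (M : ℕ) (hv : 0 ≤ v) :
    Tendsto (fun d : ℕ => A * (W ^ (2 * d) * (1 + (M : ℝ) ^ (2 * d) * (M * (d.factorial * v ^ d))) /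
      (2 * d).factorial)) atTop (𝓝 0) := by
  have h1 : Tendsto (fun d : ℕ => (W ^ 2) ^ d / (d.factorial : ℝ)) atTop (𝓝 0) :=
    FloorSemiring.tendsto_pow_div_factorial_atTop _
  have h2 : Tendsto (fun d : ℕ => (W ^ 2 * M ^ 2 * v) ^ d / (d.factorial : ℝ)) atTop (𝓝 0) :=
    FloorSemiring.tendsto_pow_div_factorial_atTop _
  have h3 : Tendsto (fun d : ℕ => (W ^ 2) ^ d / (d.factorial : ℝ) +
      M * ((W ^ 2 * M ^ 2 * v) ^ d / (d.factorial : ℝ))) atTop (𝓝 0) := by
    simpa using h1.add (h2.const_mul (M : ℝ))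
  have h4 : Tendsto (fun d : ℕ => W ^ (2 * d) * (1 + (M : ℝ) ^ (2 * d) * (M * (d.factorial * v ^ d))) /
      (2 * d).factorial) atTop (𝓝 0) := by
    refine squeeze_zero (fun d => ?_) (fun d => ?_) h3
    · have : 0 ≤ W ^ (2 * d) := by rw [pow_mul]; positivity
      positivity
    · have hd : (0 : ℝ) < d.factorial := by positivity
      have hd1 : (1 : ℝ) ≤ d.factorial := by exact_mod_cast d.factorial_pos
      have hdd : (d.factorial : ℝ) * d.factorial ≤ (2 * d).factorial := by
        have := Nat.le_of_dvd (Nat.factorial_pos _) (Nat.factorial_mul_factorial_dvd_factorial_add d d)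
        rw [two_mul]
        exact_mod_cast this
      have hW : 0 ≤ W ^ (2 * d) := by rw [pow_mul]; positivity
      rw [div_add' _ _ _ hd.ne', div_le_div_iff₀ (by positivity) hd]
      have e1 : (W ^ 2) ^ d = W ^ (2 * d) := by rw [pow_mul]
      have e2 : (W ^ 2 * M ^ 2 * v) ^ d = W ^ (2 * d) * (M : ℝ) ^ (2 * d) * v ^ d := by
        rw [mul_pow, mul_pow, ← pow_mul, ← pow_mul]
      rw [e1, e2]
      have e3 : W ^ (2 * d) + (M : ℝ) * (W ^ (2 * d) * (M : ℝ) ^ (2 * d) * v ^ d / d.factorial) * d.factorial =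
        W ^ (2 * d) + (M : ℝ) * (W ^ (2 * d) * (M : ℝ) ^ (2 * d) * v ^ d) := by
        field_simp
      rw [e3]
      have hX : 0 ≤ W ^ (2 * d) := hW
      have hY : 0 ≤ (M : ℝ) * (W ^ (2 * d) * (M : ℝ) ^ (2 * d) * v ^ d) := by positivity
      have e4 : W ^ (2 * d) * (1 + (M : ℝ) ^ (2 * d) * (M * (d.factorial * v ^ d))) * d.factorial =
        W ^ (2 * d) * d.factorial + ((M : ℝ) * (W ^ (2 * d) * (M : ℝ) ^ (2 * d) * v ^ d)) *
          (d.factorial * d.factorial) := by ring
      rw [e4, add_mul]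
      have hle : (d.factorial : ℝ) ≤ (2 * d).factorial := le_trans (by nlinarith) hdd
      exact add_le_add (mul_le_mul_of_nonneg_left hle hX) (mul_le_mul_of_nonneg_left hdd hY)
  simpa using h4.const_mul A

theorem trig_taylor (M : ℕ) {k : ℝ} (hk : 0 < k) (Q : MvPolynomial (Fin M) ℂ) (v ε : ℝ) (hv : 0 ≤ v) (hε : 0 < ε) :
    ∃ p q : MvPolynomial (Fin M ⊕ Fin M) ℂ,
      (∀ z : Fin M → ℂ, |‖MvPolynomial.eval z Q‖ ^ k -
          (MvPolynomial.eval (Sum.elim z (fun i => conj (z i))) p).re| ≤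
        (MvPolynomial.eval (Sum.elim z (fun i => conj (z i))) q).re) ∧
      (∀ G : Fin M → Om → ℂ, (∀ i, Continuous (G i)) →
        (∀ i s, ∫ x, ‖G i x‖ ^ (2 * s) ∂mu ≤ s.factorial * v ^ s) →
        ∫ x, (MvPolynomial.eval (Sum.elim (fun i => G i x) (fun i => conj (G i x))) q).re ∂mu ≤ ε) := by
  classical
  obtain ⟨s, hs⟩ := exists_nat_ge k
  obtain ⟨CQ, N, hCQ, hgr⟩ := t21c_growth M Q
  obtain ⟨CE, hCE0, hCE⟩ : ∃ CE : ℝ, 0 ≤ CE ∧ ∀ G : Fin M → Om → ℂ, (∀ i, Continuous (G i)) →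
      (∀ i s, ∫ x, ‖G i x‖ ^ (2 * s) ∂mu ≤ s.factorial * v ^ s) →
      ∫ x, (‖MvPolynomial.eval (fun i => G i x) Q‖ ^ 2) ^ s ∂mu ≤ CE := by
    refine ⟨CQ ^ (2 * s) * (2 ^ (2 * (N * s)) * (1 + (1 + (M : ℝ) ^ (2 * (N * s)) *
      (M * ((N * s).factorial * v ^ (N * s)))))), by positivity, fun G hG hm => ?_⟩
    have hcQ : Continuous fun x => MvPolynomial.eval (fun i => G i x) Q :=
      MvPolynomial.continuous_eval Q |>.comp (continuous_pi hG)
    calc ∫ x, (‖MvPolynomial.eval (fun i => G i x) Q‖ ^ 2) ^ s ∂mu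
        ≤ ∫ x, CQ ^ (2 * s) * (2 ^ (2 * (N * s)) * (1 + (∑ i, ‖G i x‖) ^ (2 * (N * s)))) ∂mu := by
          refine integral_mono (integrable_of_continuous (by fun_prop))
            (integrable_of_continuous (by fun_prop)) fun x => ?_
          have hS : 0 ≤ ∑ i, ‖G i x‖ := Finset.sum_nonneg fun i _ => norm_nonneg _
          calc (‖MvPolynomial.eval (fun i => G i x) Q‖ ^ 2) ^ s
              ≤ ((CQ * (1 + ∑ i, ‖G i x‖) ^ N) ^ 2) ^ s := by
                apply pow_le_pow_left₀ (by positivity)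
                exact pow_le_pow_left₀ (norm_nonneg _) (hgr _) 2
            _ = CQ ^ (2 * s) * (1 + ∑ i, ‖G i x‖) ^ (2 * (N * s)) := by
                rw [mul_pow, mul_pow, ← pow_mul, ← pow_mul, ← pow_mul]
                congr 2
                ring
            _ ≤ _ := by
                apply mul_le_mul_of_nonneg_left _ (by positivity)
                exact t21c_one_add_pow hS _
      _ = CQ ^ (2 * s) * (2 ^ (2 * (N * s)) * (1 + ∫ x, (∑ i, ‖G i x‖) ^ (2 * (N * s)) ∂mu)) := by
          rw [integral_const_mul, integral_const_mul, integral_add (integrable_const _)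
            (integrable_of_continuous (by fun_prop))]
          simp
      _ ≤ _ := by
          have := t21c_int_sum_pow (v := v) G hG hm (N * s)
          gcongr
  -- constants
  set H : ℝ := 4 * (1 + CE) / ε with hHdef
  have hH : 0 < H := by positivity
  set η : ℝ := ε / 4 with hηdef
  have hη : 0 < η := by positivity
  set K2 : ℝ := (M + M) * (1 + (M : ℝ) ^ (2 * 1) * (M * ((1 : ℕ).factorial * v ^ 1))) with hK2
  have hK20 : 0 ≤ K2 := by positivity
  set R : ℝ := 1 + 4 * (2 * H + η) * K2 / ε with hRdef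
  have hR1 : 1 ≤ R := by
    have : 0 ≤ 4 * (2 * H + η) * K2 / ε := by positivity
    linarith
  have hR : 0 < R := by linarith
  -- the function b
  let b : (Fin (M + M) → ℝ) → ℂ := fun u => ((min (‖MvPolynomial.eval (t21cZ u) Q‖ ^ k) H : ℝ) : ℂ)
  have hb : Continuous b := by
    have h1 : Continuous fun u : Fin (M + M) → ℝ => t21cZ u := by
      refine continuous_pi fun i => ?_
      unfold t21cZ
      fun_prop
    have h2 : Continuous fun u : Fin (M + M) → ℝ => MvPolynomial.eval (t21cZ u) Q :=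
      (MvPolynomial.continuous_eval Q).comp h1
    exact Complex.continuous_ofReal.comp
      ((h2.norm.rpow_const fun _ => Or.inr hk.le).min continuous_const)
  have hbH : ∀ u, ‖b u‖ ≤ H := by
    intro u
    change ‖((min (‖MvPolynomial.eval (t21cZ u) Q‖ ^ k) H : ℝ) : ℂ)‖ ≤ H
    rw [Complex.norm_real, Real.norm_eq_abs, abs_of_nonneg (le_min (by positivity) hH.le)]
    exact min_le_right _ _
  obtain ⟨S, c, ω, hbox, hglob⟩ := box_approx (M + M) b hb H hbH R hR η hη
  set W : ℝ := ∑ j, ∑ a, |ω j a| with hW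
  have hW0 : 0 ≤ W := Finset.sum_nonneg fun j _ => Finset.sum_nonneg fun a _ => abs_nonneg _
  -- choice of d
  obtain ⟨d, hd⟩ : ∃ d : ℕ, (∑ j, ‖c j‖) * (W ^ (2 * d) *
      (1 + (M : ℝ) ^ (2 * d) * (M * (d.factorial * v ^ d))) / (2 * d).factorial) < ε / 4 :=
    ((t21c_tendsto (∑ j, ‖c j‖) W v M hv).eventually (gt_mem_nhds (by positivity))).exists
  -- the linear forms
  let vf : Fin S → (Fin M → ℂ) → ℝ := fun j z => ∑ a, ω j a * t21cU z a
  have hvf : ∀ j z, |vf j z| ≤ W * ∑ i, ‖z i‖ := by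
    intro j z
    have hS : 0 ≤ ∑ i, ‖z i‖ := Finset.sum_nonneg fun i _ => norm_nonneg _
    calc |vf j z| ≤ ∑ a, |ω j a * t21cU z a| := Finset.abs_sum_le_sum_abs _ _
      _ ≤ ∑ a, |ω j a| * ∑ i, ‖z i‖ := by
          refine Finset.sum_le_sum fun a _ => ?_
          rw [abs_mul]
          exact mul_le_mul_of_nonneg_left (t21c_abs_U z a) (abs_nonneg _)
      _ = (∑ a, |ω j a|) * ∑ i, ‖z i‖ := by rw [Finset.sum_mul]
      _ ≤ _ := by
          apply mul_le_mul_of_nonneg_right _ hS
          exact Finset.single_le_sum (f := fun j => ∑ a, |ω j a|)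
            (fun j _ => Finset.sum_nonneg fun a _ => abs_nonneg _) (Finset.mem_univ j)
  let Vf : Fin S → MvPolynomial (Fin M ⊕ Fin M) ℂ := fun j => ∑ a, MvPolynomial.C (ω j a : ℂ) * t21cV a
  have hVf : ∀ j z, MvPolynomial.eval (Sum.elim z (fun i => conj (z i))) (Vf j) = ((vf j z : ℝ) : ℂ) := by
    intro j z
    simp only [Vf, vf, map_sum, map_mul, MvPolynomial.eval_C, t21c_eval_V]
    push_cast
    rfl
  let p : MvPolynomial (Fin M ⊕ Fin M) ℂ := ∑ j, MvPolynomial.C (c j) *
    ∑ l ∈ Finset.range (2 * d), MvPolynomial.C (Complex.I ^ l / (l.factorial : ℂ)) * Vf j ^ l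
  let q : MvPolynomial (Fin M ⊕ Fin M) ℂ := MvPolynomial.C ((1 / H : ℝ) : ℂ) * (1 + t21cN Q ^ s) +
    MvPolynomial.C ((η : ℝ) : ℂ) + MvPolynomial.C (((2 * H + η) / R ^ 2 : ℝ) : ℂ) * ∑ a, t21cV a ^ 2 +
    ∑ j, MvPolynomial.C ((‖c j‖ / (2 * d).factorial : ℝ) : ℂ) * Vf j ^ (2 * d)
  let qr : (Fin M → ℂ) → ℝ := fun z => 1 / H * (1 + (‖MvPolynomial.eval z Q‖ ^ 2) ^ s) +
    η + (2 * H + η) / R ^ 2 * ∑ a, t21cU z a ^ 2 +
    ∑ j, ‖c j‖ / (2 * d).factorial * vf j z ^ (2 * d)
  have hq : ∀ z : Fin M → ℂ, (MvPolynomial.eval (Sum.elim z (fun i => conj (z i))) q).re = qr z := by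
    intro z
    have : MvPolynomial.eval (Sum.elim z (fun i => conj (z i))) q = ((qr z : ℝ) : ℂ) := by
      simp only [q, qr, map_add, map_mul, map_sum, map_pow, MvPolynomial.eval_C, t21c_eval_V, t21c_eval_N,
        hVf, map_one]
      push_cast
      rfl
    rw [this, Complex.ofReal_re]
  have hp : ∀ z : Fin M → ℂ, MvPolynomial.eval (Sum.elim z (fun i => conj (z i))) p =
      ∑ j, c j * ∑ l ∈ Finset.range (2 * d), ((vf j z : ℂ) * Complex.I) ^ l / (l.factorial : ℂ) := by
    intro z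
    simp only [p, map_mul, map_sum, map_pow, MvPolynomial.eval_C, hVf]
    refine Finset.sum_congr rfl fun j _ => ?_
    congr 1
    refine Finset.sum_congr rfl fun l _ => ?_
    rw [mul_pow]
    ring
  refine ⟨p, q, fun z => ?_, fun G hG hm => ?_⟩
  · rw [hq z]
    have hbz : b (t21cU z) = ((min (‖MvPolynomial.eval z Q‖ ^ k) H : ℝ) : ℂ) := by
      change ((min (‖MvPolynomial.eval (t21cZ (t21cU z)) Q‖ ^ k) H : ℝ) : ℂ) = _
      rw [t21c_Z_U]
    set A : ℝ := ‖MvPolynomial.eval z Q‖ ^ k with hA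
    have hA0 : 0 ≤ A := by positivity
    have h1 : |A - min A H| ≤ 1 / H * (1 + (‖MvPolynomial.eval z Q‖ ^ 2) ^ s) := by
      refine (t21c_min hA0 hH).trans ?_
      rw [div_eq_mul_one_div, mul_comm]
      exact mul_le_mul_of_nonneg_left (t21c_rpow (norm_nonneg _) hk hs) (by positivity)
    set τ : ℂ := ∑ j, c j * Complex.exp (((∑ a, ω j a * t21cU z a : ℝ) : ℂ) * Complex.I) with hτ
    have h2 : ‖b (t21cU z) - τ‖ ≤ η + (2 * H + η) / R ^ 2 * ∑ a, t21cU z a ^ 2 := by
      by_cases hall : ∀ a, |t21cU z a| ≤ R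
      · have h3 := hbox (t21cU z) hall
        have h4 : 0 ≤ (2 * H + η) / R ^ 2 * ∑ a, t21cU z a ^ 2 := by
          apply mul_nonneg (by positivity)
          exact Finset.sum_nonneg fun a _ => sq_nonneg _
        linarith
      · push Not at hall
        obtain ⟨a, ha⟩ := hall
        have h3 : ‖b (t21cU z) - τ‖ ≤ H + (H + η) :=
          (norm_sub_le _ _).trans (add_le_add (hbH _) (hglob _))
        have h4 : R ^ 2 ≤ ∑ a, t21cU z a ^ 2 := by
          calc R ^ 2 ≤ t21cU z a ^ 2 := by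
                rw [← sq_abs (t21cU z a)]
                exact pow_le_pow_left₀ hR.le ha.le 2
            _ ≤ _ := Finset.single_le_sum (f := fun a => t21cU z a ^ 2) (fun a _ => sq_nonneg _)
                (Finset.mem_univ a)
        have h5 : 2 * H + η ≤ (2 * H + η) / R ^ 2 * ∑ a, t21cU z a ^ 2 := by
          rw [div_mul_eq_mul_div, le_div_iff₀ (by positivity)]
          exact mul_le_mul_of_nonneg_left h4 (by positivity)
        linarith
    have h3 : ‖τ - MvPolynomial.eval (Sum.elim z (fun i => conj (z i))) p‖ ≤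
        ∑ j, ‖c j‖ / (2 * d).factorial * vf j z ^ (2 * d) := by
      rw [hp z, hτ, ← Finset.sum_sub_distrib]
      refine (norm_sum_le _ _).trans (Finset.sum_le_sum fun j _ => ?_)
      rw [← mul_sub, norm_mul, div_mul_eq_mul_div, mul_div_assoc]
      apply mul_le_mul_of_nonneg_left _ (norm_nonneg _)
      have h4 := exp_taylor (vf j z) (2 * d)
      rw [Even.pow_abs ⟨d, by ring⟩] at h4
      exact h4
    have h4 : |min A H - (MvPolynomial.eval (Sum.elim z (fun i => conj (z i))) p).re| ≤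
        ‖b (t21cU z) - MvPolynomial.eval (Sum.elim z (fun i => conj (z i))) p‖ := by
      have := Complex.abs_re_le_norm (b (t21cU z) - MvPolynomial.eval (Sum.elim z (fun i => conj (z i))) p)
      rw [Complex.sub_re, hbz, Complex.ofReal_re] at this
      rw [hbz]
      exact this
    have h5 : ‖b (t21cU z) - MvPolynomial.eval (Sum.elim z (fun i => conj (z i))) p‖ ≤
        ‖b (t21cU z) - τ‖ + ‖τ - MvPolynomial.eval (Sum.elim z (fun i => conj (z i))) p‖ :=
      norm_sub_le_norm_sub_add_norm_sub _ _ _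
    have h6 : |A - (MvPolynomial.eval (Sum.elim z (fun i => conj (z i))) p).re| ≤
        |A - min A H| + |min A H - (MvPolynomial.eval (Sum.elim z (fun i => conj (z i))) p).re| :=
      abs_sub_le _ _ _
    change _ ≤ 1 / H * (1 + (‖MvPolynomial.eval z Q‖ ^ 2) ^ s) +
      η + (2 * H + η) / R ^ 2 * ∑ a, t21cU z a ^ 2 +
      ∑ j, ‖c j‖ / (2 * d).factorial * vf j z ^ (2 * d)
    linarith
  · have hcU : ∀ a, Continuous fun x => t21cU (fun i => G i x) a := by
      intro a
      unfold t21cU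
      rcases finSumFinEquiv.symm a with i | i
      · exact Complex.continuous_re.comp (hG i)
      · exact Complex.continuous_im.comp (hG i)
    have hcQ : Continuous fun x => MvPolynomial.eval (fun i => G i x) Q :=
      MvPolynomial.continuous_eval Q |>.comp (continuous_pi hG)
    have hcv : ∀ j, Continuous fun x => vf j (fun i => G i x) := by
      intro j
      simp only [vf]
      fun_prop
    have e1 : ∫ x, (MvPolynomial.eval (Sum.elim (fun i => G i x) (fun i => conj (G i x))) q).re ∂mu =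
        ∫ x, qr (fun i => G i x) ∂mu := by
      congr 1
      funext x
      exact hq (fun i => G i x)
    rw [e1]
    have e2 : ∫ x, qr (fun i => G i x) ∂mu =
        1 / H * (1 + ∫ x, (‖MvPolynomial.eval (fun i => G i x) Q‖ ^ 2) ^ s ∂mu) + η +
        (2 * H + η) / R ^ 2 * ∑ a, ∫ x, t21cU (fun i => G i x) a ^ 2 ∂mu +
        ∑ j, ‖c j‖ / (2 * d).factorial * ∫ x, vf j (fun i => G i x) ^ (2 * d) ∂mu := by
      have i1 : Integrable (fun x => 1 / H * (1 + (‖MvPolynomial.eval (fun i => G i x) Q‖ ^ 2) ^ s)) mu :=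
        integrable_of_continuous (by fun_prop)
      have i2 : Integrable (fun x => (2 * H + η) / R ^ 2 * ∑ a, t21cU (fun i => G i x) a ^ 2) mu :=
        integrable_of_continuous (by fun_prop)
      have i3 : ∀ j, Integrable (fun x => ‖c j‖ / (2 * d).factorial * vf j (fun i => G i x) ^ (2 * d)) mu :=
        fun j => integrable_of_continuous (continuous_const.mul ((hcv j).pow _))
      have i4 : Integrable (fun x => ∑ j, ‖c j‖ / (2 * d).factorial * vf j (fun i => G i x) ^ (2 * d)) mu :=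
        integrable_finsetSum _ fun j _ => i3 j
      have i5 : Integrable (fun x => 1 / H * (1 + (‖MvPolynomial.eval (fun i => G i x) Q‖ ^ 2) ^ s) + η) mu :=
        i1.add (integrable_const η)
      have i6 : Integrable (fun x => 1 / H * (1 + (‖MvPolynomial.eval (fun i => G i x) Q‖ ^ 2) ^ s) + η +
        (2 * H + η) / R ^ 2 * ∑ a, t21cU (fun i => G i x) a ^ 2) mu := i5.add i2
      have i7 : ∀ a, Integrable (fun x => t21cU (fun i => G i x) a ^ 2) mu :=
        fun a => integrable_of_continuous ((hcU a).pow 2)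
      simp only [qr]
      rw [integral_add i6 i4, integral_add i5 i2, integral_add i1 (integrable_const η),
        integral_const_mul, integral_add (integrable_const _) (integrable_of_continuous (by fun_prop)),
        integral_const_mul, integral_finsetSum _ (fun a _ => i7 a),
        integral_finsetSum _ (fun j _ => i3 j)]
      simp only [integral_const_mul]
      simp
    rw [e2]
    have t1 : 1 / H * (1 + ∫ x, (‖MvPolynomial.eval (fun i => G i x) Q‖ ^ 2) ^ s ∂mu) ≤ ε / 4 := by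
      have := hCE G hG hm
      rw [div_mul_eq_mul_div, one_mul, div_le_iff₀ hH, hHdef]
      have e3 : ε / 4 * (4 * (1 + CE) / ε) = 1 + CE := by field_simp
      rw [e3]
      linarith
    have t2 : (2 * H + η) / R ^ 2 * ∑ a, ∫ x, t21cU (fun i => G i x) a ^ 2 ∂mu ≤ ε / 4 := by
      have h1 : ∑ a, ∫ x, t21cU (fun i => G i x) a ^ 2 ∂mu ≤ K2 := by
        have h2 : ∀ a : Fin (M + M), ∫ x, t21cU (fun i => G i x) a ^ 2 ∂mu ≤
            (1 + (M : ℝ) ^ (2 * 1) * (M * ((1 : ℕ).factorial * v ^ 1))) := by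
          intro a
          refine le_trans ?_ (t21c_int_sum_pow (v := v) G hG hm 1)
          refine integral_mono (integrable_of_continuous ((hcU a).pow 2))
            (integrable_of_continuous (by fun_prop)) fun x => ?_
          simp only
          rw [← sq_abs]
          exact pow_le_pow_left₀ (abs_nonneg _) (t21c_abs_U _ a) 2
        have h3 := Finset.sum_le_card_nsmul Finset.univ _ _ (fun a _ => h2 a)
        rw [Finset.card_univ, Fintype.card_fin, nsmul_eq_mul] at h3
        rw [hK2]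
        push_cast at h3 ⊢
        exact h3
      have h4 : (2 * H + η) / R ^ 2 * ∑ a, ∫ x, t21cU (fun i => G i x) a ^ 2 ∂mu ≤
          (2 * H + η) / R ^ 2 * K2 := mul_le_mul_of_nonneg_left h1 (by positivity)
      refine h4.trans ?_
      rw [div_mul_eq_mul_div, div_le_iff₀ (by positivity)]
      have h5 : R ≤ R ^ 2 := by nlinarith
      have h6 : (2 * H + η) * K2 ≤ ε / 4 * R := by
        rw [hRdef]
        have : ε / 4 * (1 + 4 * (2 * H + η) * K2 / ε) = ε / 4 + (2 * H + η) * K2 := by field_simp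
        rw [this]
        linarith
      nlinarith
    have t3 : ∑ j, ‖c j‖ / (2 * d).factorial * ∫ x, vf j (fun i => G i x) ^ (2 * d) ∂mu ≤ ε / 4 := by
      refine le_trans ?_ hd.le
      rw [Finset.sum_mul]
      refine Finset.sum_le_sum fun j _ => ?_
      have h1 : ∫ x, vf j (fun i => G i x) ^ (2 * d) ∂mu ≤
          W ^ (2 * d) * (1 + (M : ℝ) ^ (2 * d) * (M * (d.factorial * v ^ d))) := by
        calc ∫ x, vf j (fun i => G i x) ^ (2 * d) ∂mu
            ≤ ∫ x, W ^ (2 * d) * (∑ i, ‖G i x‖) ^ (2 * d) ∂mu := by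
              refine integral_mono (integrable_of_continuous ((hcv j).pow _))
                (integrable_of_continuous (by fun_prop)) fun x => ?_
              simp only
              rw [← mul_pow, ← Even.pow_abs (⟨d, by ring⟩ : Even (2 * d))]
              exact pow_le_pow_left₀ (abs_nonneg _) (hvf j _) _
          _ = W ^ (2 * d) * ∫ x, (∑ i, ‖G i x‖) ^ (2 * d) ∂mu := integral_const_mul _ _
          _ ≤ _ := mul_le_mul_of_nonneg_left (t21c_int_sum_pow (v := v) G hG hm d) (by positivity)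
      calc ‖c j‖ / (2 * d).factorial * ∫ x, vf j (fun i => G i x) ^ (2 * d) ∂mu
          ≤ ‖c j‖ / (2 * d).factorial *
            (W ^ (2 * d) * (1 + (M : ℝ) ^ (2 * d) * (M * (d.factorial * v ^ d)))) :=
            mul_le_mul_of_nonneg_left h1 (by positivity)
        _ = _ := by ring
    have e4 : η = ε / 4 := hηdef
    linarith

end Pool.Agent.LibMM99
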