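import Mathlib
import Pool.Agent.LibMM99.T01
import Pool.Agent.LibMM99.T02

set_option autoImplicit false

namespace Pool.Agent.LibMM99

open MeasureTheory Filter Topology
open scoped ComplexConjugate

private theorem t23a_ch_prod (x : Om) {ι : Type*} (S : Finset ι) (f : ι → ℕ) (hf : ∀ i ∈ S, f i ≠ 0) :
    ch x (∏ i ∈ S, f i) = ∏ i ∈ S, ch x (f i) := by
  classical
  induction S using Finset.induction_on with
  | empty => simp [ch_one]
  | insert a S ha ih =>
    rw [Finset.prod_insert ha, Finset.prod_insert ha,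
      ch_mul x (hf a (Finset.mem_insert_self a S))
        (Finset.prod_ne_zero_iff.2 fun i hi => hf i (Finset.mem_insert_of_mem hi)),
      ih fun i hi => hf i (Finset.mem_insert_of_mem hi)]

private theorem t23a_card (s : ℕ) (P : Finset ℕ) (hP : ∀ p ∈ P, p.Prime) (f : Fin s → ℕ)
    (hf : ∀ i, f i ∈ P) :
    ((Fintype.piFinset fun _ : Fin s => P).filter fun g => ∏ i, f i = ∏ i, g i).card ≤
      s.factorial := by
  classical
  have hsub : ((Fintype.piFinset fun _ : Fin s => P).filter fun g => ∏ i, f i = ∏ i, g i) ⊆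
      (Finset.univ : Finset (Equiv.Perm (Fin s))).image (fun σ : Equiv.Perm (Fin s) => f ∘ σ) := by
    intro g hg
    rw [Finset.mem_filter, Fintype.mem_piFinset] at hg
    obtain ⟨hgP, hprod⟩ := hg
    rw [Finset.mem_image]
    have h1 : (List.ofFn f).Perm (∏ i, f i).primeFactorsList := by
      apply Nat.primeFactorsList_unique
      · rw [List.prod_ofFn]
      · intro p hp
        rw [List.mem_ofFn] at hp
        obtain ⟨i, rfl⟩ := hp
        exact hP _ (hf i)
    have h2 : (List.ofFn g).Perm (∏ i, f i).primeFactorsList := by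
      apply Nat.primeFactorsList_unique
      · rw [List.prod_ofFn, hprod]
      · intro p hp
        rw [List.mem_ofFn] at hp
        obtain ⟨i, rfl⟩ := hp
        exact hP _ (hgP i)
    have h3 : (List.ofFn g).Perm (List.ofFn f) := h2.trans h1.symm
    have h4 : g ∘ Tuple.sort g = f ∘ Tuple.sort f := by
      apply List.ofFn_injective
      exact (((Equiv.Perm.ofFn_comp_perm (Tuple.sort g) g).trans h3).trans
        (Equiv.Perm.ofFn_comp_perm (Tuple.sort f) f).symm).eq_of_pairwise'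
        (Tuple.monotone_sort g).sortedLE_ofFn.pairwise (Tuple.monotone_sort f).sortedLE_ofFn.pairwise
    refine ⟨(Tuple.sort g).symm.trans (Tuple.sort f), Finset.mem_univ _, ?_⟩
    funext i
    have h5 := congrFun h4 ((Tuple.sort g).symm i)
    simp only [Function.comp_apply, Equiv.apply_symm_apply] at h5
    rw [h5]
    rfl
  calc _ ≤ _ := Finset.card_le_card hsub
    _ ≤ (Finset.univ : Finset (Equiv.Perm (Fin s))).card := Finset.card_image_le
    _ = s.factorial := by rw [Finset.card_univ, Fintype.card_perm, Fintype.card_fin]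

theorem prime_sum_moment (s : ℕ) (P : Finset ℕ) (hP : ∀ p ∈ P, p.Prime) :
    ∫ x, ‖DS P (fun _ => 1) x‖ ^ (2 * s) ∂mu ≤ s.factorial * (∑ p ∈ P, (p : ℝ)⁻¹) ^ s := by
  classical
  set A : Finset (Fin s → ℕ) := Fintype.piFinset fun _ : Fin s => P with hA
  set c : (Fin s → ℕ) → ℝ := fun f => ∏ i, (Real.sqrt (f i))⁻¹ with hc
  have hmem : ∀ f ∈ A, ∀ i, f i ∈ P := fun f hf i => (Fintype.mem_piFinset.1 hf) i
  have hne : ∀ f ∈ A, ∀ i, f i ≠ 0 := fun f hf i => (hP _ (hmem f hf i)).ne_zero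
  have hpow : ∀ x, DS P (fun _ => 1) x ^ s = ∑ f ∈ A, (c f : ℂ) * ch x (∏ i, f i) := by
    intro x
    have h1 : DS P (fun _ => 1) x ^ s =
        ∏ _i : Fin s, ∑ n ∈ P, ((1 : ℂ) * (((Real.sqrt n)⁻¹ : ℝ) : ℂ) * ch x n) := by
      rw [Finset.prod_const, Finset.card_univ, Fintype.card_fin]
      rfl
    rw [h1, Finset.prod_univ_sum]
    apply Finset.sum_congr rfl
    intro f hf
    rw [t23a_ch_prod x Finset.univ f (fun i _ => hne f hf i), hc]
    simp only [one_mul]
    rw [Finset.prod_mul_distrib]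
    push_cast
    rfl
  have hsq : ∀ x, ((‖DS P (fun _ => 1) x‖ ^ (2 * s) : ℝ) : ℂ) =
      ∑ f ∈ A, ∑ g ∈ A, ((c f * c g : ℝ) : ℂ) * (ch x (∏ i, f i) * conj (ch x (∏ i, g i))) := by
    intro x
    have h1 : ((‖DS P (fun _ => 1) x‖ ^ (2 * s) : ℝ) : ℂ) =
        DS P (fun _ => 1) x ^ s * conj (DS P (fun _ => 1) x ^ s) := by
      rw [Complex.mul_conj, Complex.normSq_eq_norm_sq, norm_pow, ← pow_mul, mul_comm s 2]
    rw [h1, hpow, map_sum, Finset.sum_mul_sum]
    apply Finset.sum_congr rfl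
    intro f _
    apply Finset.sum_congr rfl
    intro g _
    rw [map_mul, Complex.conj_ofReal]
    push_cast
    ring
  have hint : ((∫ x, ‖DS P (fun _ => 1) x‖ ^ (2 * s) ∂mu : ℝ) : ℂ) =
      ((∑ f ∈ A, ∑ g ∈ A, c f * c g * (if ∏ i, f i = ∏ i, g i then 1 else 0) : ℝ) : ℂ) := by
    have e0 : ((∫ x, ‖DS P (fun _ => 1) x‖ ^ (2 * s) ∂mu : ℝ) : ℂ) =
        ∫ x, ((‖DS P (fun _ => 1) x‖ ^ (2 * s) : ℝ) : ℂ) ∂mu := integral_ofReal.symm
    rw [e0]
    have hcont : ∀ f g : Fin s → ℕ, Continuous fun x : Om =>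
        ((c f * c g : ℝ) : ℂ) * (ch x (∏ i, f i) * conj (ch x (∏ i, g i))) := fun f g =>
      continuous_const.mul ((continuous_ch _).mul (Complex.continuous_conj.comp (continuous_ch _)))
    have e1 : ∫ x, ((‖DS P (fun _ => 1) x‖ ^ (2 * s) : ℝ) : ℂ) ∂mu =
        ∫ x, ∑ f ∈ A, ∑ g ∈ A,
          ((c f * c g : ℝ) : ℂ) * (ch x (∏ i, f i) * conj (ch x (∏ i, g i))) ∂mu := by
      apply integral_congr_ae
      exact Filter.Eventually.of_forall hsq
    refine (Eq.trans e1 ?_)
    rw [integral_finsetSum _ fun f _ => integrable_finsetSum _ fun g _ =>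
      integrable_of_continuous (hcont f g)]
    rw [Complex.ofReal_sum]
    apply Finset.sum_congr rfl
    intro f hf
    rw [integral_finsetSum _ fun g _ => integrable_of_continuous (hcont f g)]
    rw [Complex.ofReal_sum]
    apply Finset.sum_congr rfl
    intro g hg
    rw [integral_const_mul, integral_ch (Finset.prod_ne_zero_iff.2 fun i _ => hne f hf i)
      (Finset.prod_ne_zero_iff.2 fun i _ => hne g hg i)]
    split_ifs <;> simp
  have hint' := Complex.ofReal_injective hint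
  rw [hint']
  have hcN : ∀ f, c f = (Real.sqrt ((∏ i, f i : ℕ) : ℝ))⁻¹ := by
    intro f
    rw [hc]
    simp only
    rw [Finset.prod_inv_distrib, Nat.cast_prod, Real.sqrt_prod]
    intro i _
    exact Nat.cast_nonneg _
  have hinner : ∀ f ∈ A, ∑ g ∈ A, c f * c g * (if ∏ i, f i = ∏ i, g i then 1 else 0) ≤
      s.factorial * ∏ i, ((f i : ℕ) : ℝ)⁻¹ := by
    intro f hf
    have h1 : ∀ g ∈ A, c f * c g * (if ∏ i, f i = ∏ i, g i then (1 : ℝ) else 0) =
        if ∏ i, f i = ∏ i, g i then ∏ i, ((f i : ℕ) : ℝ)⁻¹ else 0 := by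
      intro g _
      split_ifs with h
      · rw [mul_one, hcN f, hcN g, ← h, ← mul_inv, Real.mul_self_sqrt (Nat.cast_nonneg _),
          Nat.cast_prod, Finset.prod_inv_distrib]
      · rw [mul_zero]
    rw [Finset.sum_congr rfl h1, ← Finset.sum_filter, Finset.sum_const, nsmul_eq_mul]
    apply mul_le_mul_of_nonneg_right
    · exact_mod_cast t23a_card s P hP f (hmem f hf)
    · exact Finset.prod_nonneg fun i _ => inv_nonneg.2 (Nat.cast_nonneg _)
  calc _ ≤ ∑ f ∈ A, s.factorial * ∏ i, ((f i : ℕ) : ℝ)⁻¹ := Finset.sum_le_sum hinner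
    _ = s.factorial * ∑ f ∈ A, ∏ i, ((f i : ℕ) : ℝ)⁻¹ := by rw [Finset.mul_sum]
    _ = s.factorial * (∑ p ∈ P, (p : ℝ)⁻¹) ^ s := by
      congr 1
      have h1 : (∑ p ∈ P, (p : ℝ)⁻¹) ^ s = ∏ _i : Fin s, ∑ n ∈ P, ((n : ℝ)⁻¹) := by
        rw [Finset.prod_const, Finset.card_univ, Fintype.card_fin]
      rw [h1, Finset.prod_univ_sum]

end Pool.Agent.LibMM99
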