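import Mathlib
import Pool.Agent.LibMM99.T01

set_option autoImplicit false

namespace Pool.Agent.LibMM99

open MeasureTheory Filter Topology
open scoped ComplexConjugate

/-- a two sided polynomial indexed by an arbitrary finite family -/
private theorem T07_of_sum {ι : Type*} (s : Finset ι) (n m : ι → ℕ) (c : ι → ℂ) {a : ℝ} {Φ : Om → ℂ}
    (h1 : ∀ i ∈ s, 1 ≤ n i ∧ 1 ≤ m i ∧ (n i : ℝ) ≤ Real.exp a ∧ (m i : ℝ) ≤ Real.exp a)
    (h2 : ∑ i ∈ s, ‖c i‖ ≤ Real.exp a)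
    (h3 : ∀ x, Φ x = ∑ i ∈ s, c i * ch x (n i) * conj (ch x (m i))) : IsPoly a Φ := by
  classical
  refine ⟨s.image fun i => (n i, m i), fun q => ∑ i ∈ s with (n i, m i) = q, c i, ?_, ?_, ?_⟩
  · intro q hq
    obtain ⟨i, hi, rfl⟩ := Finset.mem_image.1 hq
    exact h1 i hi
  · refine le_trans ?_ h2
    rw [← Finset.sum_fiberwise_of_maps_to (s := s) (t := s.image fun i => (n i, m i))
      (g := fun i => (n i, m i)) (fun i hi => Finset.mem_image_of_mem _ hi) (fun i => ‖c i‖)]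
    exact Finset.sum_le_sum fun q _ => norm_sum_le _ _
  · intro x
    rw [h3 x, ← Finset.sum_fiberwise_of_maps_to (s := s) (t := s.image fun i => (n i, m i))
      (g := fun i => (n i, m i)) (fun i hi => Finset.mem_image_of_mem _ hi)]
    apply Finset.sum_congr rfl
    intro q _
    rw [Finset.sum_mul, Finset.sum_mul]
    apply Finset.sum_congr rfl
    intro i hi
    obtain ⟨_, rfl⟩ := Finset.mem_filter.1 hi
    rfl

private theorem T07_two_le : (2 : ℝ) ≤ Real.exp 1 := by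
  have := Real.add_one_le_exp (1 : ℝ)
  linarith

theorem IsPoly.mono {a b : ℝ} {Φ : Om → ℂ} (h : IsPoly a Φ) (hab : a ≤ b) : IsPoly b Φ := by
  obtain ⟨s, c, h1, h2, h3⟩ := h
  have he : Real.exp a ≤ Real.exp b := Real.exp_le_exp.2 hab
  exact ⟨s, c, fun q hq => ⟨(h1 q hq).1, (h1 q hq).2.1, (h1 q hq).2.2.1.trans he,
    (h1 q hq).2.2.2.trans he⟩, h2.trans he, h3⟩

theorem IsPoly.const (c : ℂ) {a : ℝ} (ha : 0 ≤ a) (hc : ‖c‖ ≤ Real.exp a) : IsPoly a (fun _ => c) := by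
  refine T07_of_sum (Finset.univ : Finset Unit) (fun _ => 1) (fun _ => 1) (fun _ => c) ?_ ?_ ?_
  · intro i _
    have := Real.one_le_exp ha
    simpa using this
  · simpa using hc
  · intro x
    simp [ch_one]

private theorem T07_smul {a : ℝ} {Φ : Om → ℂ} (h : IsPoly a Φ) (z : ℂ) (hz : ‖z‖ ≤ 1) :
    IsPoly a (fun x => z * Φ x) := by
  obtain ⟨s, c, h1, h2, h3⟩ := h
  refine ⟨s, fun q => z * c q, h1, ?_, ?_⟩
  · refine le_trans (Finset.sum_le_sum fun q _ => ?_) h2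
    rw [norm_mul]
    exact mul_le_of_le_one_left (norm_nonneg _) hz
  · intro x
    show z * Φ x = _
    rw [h3 x, Finset.mul_sum]
    apply Finset.sum_congr rfl
    intro q _
    ring

theorem IsPoly.add {a : ℝ} {Φ Ψ : Om → ℂ} (h : IsPoly a Φ) (h' : IsPoly a Ψ) :
    IsPoly (a + 1) (fun x => Φ x + Ψ x) := by
  obtain ⟨s, c, h1, h2, h3⟩ := h
  obtain ⟨s', c', h1', h2', h3'⟩ := h'
  have he : Real.exp a ≤ Real.exp (a + 1) := Real.exp_le_exp.2 (by linarith)
  refine T07_of_sum (s.disjSum s') (Sum.elim (fun q => q.1) (fun q => q.1))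
    (Sum.elim (fun q => q.2) (fun q => q.2)) (Sum.elim c c') ?_ ?_ ?_
  · intro i hi
    rcases i with q | q
    · have hq : q ∈ s := by simpa using hi
      exact ⟨(h1 q hq).1, (h1 q hq).2.1, (h1 q hq).2.2.1.trans he, (h1 q hq).2.2.2.trans he⟩
    · have hq : q ∈ s' := by simpa using hi
      exact ⟨(h1' q hq).1, (h1' q hq).2.1, (h1' q hq).2.2.1.trans he, (h1' q hq).2.2.2.trans he⟩
  · rw [Finset.sum_disjSum]
    have h4 : Real.exp (a + 1) = Real.exp a * Real.exp 1 := Real.exp_add _ _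
    have h5 := T07_two_le
    have h6 := Real.exp_pos a
    simp only [Sum.elim_inl, Sum.elim_inr]
    nlinarith
  · intro x
    rw [Finset.sum_disjSum, h3 x, h3' x]
    rfl

theorem IsPoly.sub {a : ℝ} {Φ Ψ : Om → ℂ} (h : IsPoly a Φ) (h' : IsPoly a Ψ) :
    IsPoly (a + 1) (fun x => Φ x - Ψ x) := by
  have h2 := h.add (T07_smul h' (-1) (by simp))
  have e : (fun x => Φ x - Ψ x) = fun x => Φ x + -1 * Ψ x := by
    funext x
    ring
  rw [e]
  exact h2

theorem IsPoly.sum {ι : Type*} (s : Finset ι) {a : ℝ} (Φ : ι → Om → ℂ) (h : ∀ i ∈ s, IsPoly a (Φ i)) :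
    IsPoly (a + s.card) (fun x => ∑ i ∈ s, Φ i x) := by
  classical
  induction s using Finset.induction_on with
  | empty =>
    refine ⟨∅, fun _ => 0, by simp, by simpa using (Real.exp_pos _).le, by simp⟩
  | insert i s hi ih =>
    have h1 := ih (fun j hj => h j (Finset.mem_insert_of_mem hj))
    have h2 : IsPoly (a + s.card) (Φ i) :=
      (h i (Finset.mem_insert_self _ _)).mono (by
        have : (0 : ℝ) ≤ s.card := Nat.cast_nonneg _
        linarith)
    have h3 := h2.add h1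
    rw [Finset.card_insert_of_notMem hi]
    have e : (fun x => ∑ j ∈ insert i s, Φ j x) = fun x => Φ i x + ∑ j ∈ s, Φ j x := by
      funext x
      rw [Finset.sum_insert hi]
    rw [e]
    refine h3.mono ?_
    push_cast
    linarith

theorem IsPoly.mul {a b : ℝ} {Φ Ψ : Om → ℂ} (h : IsPoly a Φ) (h' : IsPoly b Ψ) :
    IsPoly (a + b) (fun x => Φ x * Ψ x) := by
  obtain ⟨s, c, h1, h2, h3⟩ := h
  obtain ⟨s', c', h1', h2', h3'⟩ := h'
  refine T07_of_sum (s ×ˢ s') (fun i => i.1.1 * i.2.1) (fun i => i.1.2 * i.2.2)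
    (fun i => c i.1 * c' i.2) ?_ ?_ ?_
  · rintro ⟨q, q'⟩ hi
    obtain ⟨hq, hq'⟩ := Finset.mem_product.1 hi
    have A := h1 q hq
    have B := h1' q' hq'
    refine ⟨Nat.mul_pos A.1 B.1, Nat.mul_pos A.2.1 B.2.1, ?_, ?_⟩
    · rw [Real.exp_add]
      push_cast
      exact mul_le_mul A.2.2.1 B.2.2.1 (Nat.cast_nonneg _) (Real.exp_pos _).le
    · rw [Real.exp_add]
      push_cast
      exact mul_le_mul A.2.2.2 B.2.2.2 (Nat.cast_nonneg _) (Real.exp_pos _).le
  · rw [Finset.sum_product]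
    simp only [norm_mul]
    rw [← Finset.sum_mul_sum, Real.exp_add]
    exact mul_le_mul h2 h2' (Finset.sum_nonneg fun _ _ => norm_nonneg _) (Real.exp_pos _).le
  · intro x
    rw [h3 x, h3' x, Finset.sum_mul_sum, Finset.sum_product]
    apply Finset.sum_congr rfl
    intro q hq
    apply Finset.sum_congr rfl
    intro q' hq'
    have A := h1 q hq
    have B := h1' q' hq'
    simp only
    rw [ch_mul x (Nat.one_le_iff_ne_zero.1 A.1) (Nat.one_le_iff_ne_zero.1 B.1),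
      ch_mul x (Nat.one_le_iff_ne_zero.1 A.2.1) (Nat.one_le_iff_ne_zero.1 B.2.1), map_mul]
    ring

theorem IsPoly.prod {ι : Type*} (s : Finset ι) (a : ι → ℝ) (Φ : ι → Om → ℂ)
    (h : ∀ i ∈ s, IsPoly (a i) (Φ i)) : IsPoly (∑ i ∈ s, a i) (fun x => ∏ i ∈ s, Φ i x) := by
  classical
  induction s using Finset.induction_on with
  | empty =>
    simpa using IsPoly.const (1 : ℂ) (le_refl (0 : ℝ)) (by simp)
  | insert i s hi ih =>
    have h1 := ih (fun j hj => h j (Finset.mem_insert_of_mem hj))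
    have h3 := (h i (Finset.mem_insert_self _ _)).mul h1
    rw [Finset.sum_insert hi]
    have e : (fun x => ∏ j ∈ insert i s, Φ j x) = fun x => Φ i x * ∏ j ∈ s, Φ j x := by
      funext x
      rw [Finset.prod_insert hi]
    rw [e]
    exact h3

theorem IsPoly.pow {a : ℝ} {Φ : Om → ℂ} (h : IsPoly a Φ) (m : ℕ) : IsPoly (m * a) (fun x => Φ x ^ m) := by
  have h1 := IsPoly.prod (Finset.range m) (fun _ => a) (fun _ => Φ) (fun _ _ => h)
  simpa using h1

theorem IsPoly.conj {a : ℝ} {Φ : Om → ℂ} (h : IsPoly a Φ) :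
    IsPoly a (fun x => (starRingEnd ℂ) (Φ x)) := by
  obtain ⟨s, c, h1, h2, h3⟩ := h
  refine T07_of_sum s (fun q => q.2) (fun q => q.1) (fun q => (starRingEnd ℂ) (c q)) ?_ ?_ ?_
  · intro q hq
    exact ⟨(h1 q hq).2.1, (h1 q hq).1, (h1 q hq).2.2.2, (h1 q hq).2.2.1⟩
  · simpa using h2
  · intro x
    rw [h3 x, map_sum]
    apply Finset.sum_congr rfl
    intro q _
    rw [map_mul, map_mul, Complex.conj_conj]
    ring

theorem IsPoly.normSq {a : ℝ} {Φ : Om → ℂ} (h : IsPoly a Φ) : IsPolyR (2 * a) (fun x => ‖Φ x‖ ^ 2) := by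
  have h1 := h.mul h.conj
  unfold IsPolyR
  have e : (fun x => (((‖Φ x‖ ^ 2 : ℝ)) : ℂ)) = fun x => Φ x * (starRingEnd ℂ) (Φ x) := by
    funext x
    rw [Complex.mul_conj, Complex.normSq_eq_norm_sq]
  rw [e, two_mul]
  exact h1

theorem IsPoly.normPow {a : ℝ} {Φ : Om → ℂ} (h : IsPoly a Φ) (r : ℕ) :
    IsPolyR (2 * r * a) (fun x => ‖Φ x‖ ^ (2 * r)) := by
  have h1 := h.normSq
  unfold IsPolyR at h1 ⊢
  have h2 := h1.pow r
  have e : (fun x => (((‖Φ x‖ ^ (2 * r) : ℝ)) : ℂ)) = fun x => (((‖Φ x‖ ^ 2 : ℝ)) : ℂ) ^ r := by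
    funext x
    rw [pow_mul]
    push_cast
    ring
  rw [e]
  exact h2.mono (by linarith)

theorem IsPoly.re {a : ℝ} {Φ : Om → ℂ} (h : IsPoly a Φ) : IsPolyR (a + 1) (fun x => (Φ x).re) := by
  have h1 := T07_smul (h.add h.conj) (1 / 2) (by norm_num)
  unfold IsPolyR
  have e : (fun x => (((Φ x).re : ℝ) : ℂ)) = fun x => 1 / 2 * (Φ x + (starRingEnd ℂ) (Φ x)) := by
    funext x
    rw [Complex.add_conj]
    push_cast
    ring
  rw [e]
  exact h1

theorem IsPoly.ds {u v X A : ℝ} (hX : 1 ≤ X) (hA : 0 ≤ A) (a : ℕ → ℂ)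
    (ha : ∀ n : ℕ, 1 ≤ n → (n : ℝ) ≤ X → ‖a n‖ ≤ Real.exp (A * Real.log X)) :
    IsPoly ((A + 1) * Real.log X) (DS (smo u v X) a) := by
  have hX0 : 0 < X := by linarith
  have hlog : 0 ≤ Real.log X := Real.log_nonneg hX
  have hexp : Real.exp ((A + 1) * Real.log X) = Real.exp (A * Real.log X) * X := by
    rw [add_mul, one_mul, Real.exp_add, Real.exp_log hX0]
  have hmem : ∀ n ∈ smo u v X, 1 ≤ n ∧ (n : ℝ) ≤ X := by
    intro n hn
    unfold smo at hn
    have h1 := (Finset.mem_filter.1 hn).1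
    rw [Finset.mem_Icc] at h1
    exact ⟨h1.1, (Nat.le_floor_iff hX0.le).1 h1.2⟩
  have hXle : X ≤ Real.exp ((A + 1) * Real.log X) := by
    rw [hexp]
    have : 1 ≤ Real.exp (A * Real.log X) := Real.one_le_exp (by positivity)
    nlinarith
  refine T07_of_sum (smo u v X) (fun n => n) (fun _ => 1)
    (fun n => a n * (((Real.sqrt n)⁻¹ : ℝ) : ℂ)) ?_ ?_ ?_
  · intro n hn
    obtain ⟨h1, h2⟩ := hmem n hn
    refine ⟨h1, le_rfl, h2.trans hXle, ?_⟩
    push_cast
    exact hX.trans hXle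
  · have h1 : ∀ n ∈ smo u v X, ‖a n * (((Real.sqrt n)⁻¹ : ℝ) : ℂ)‖ ≤ Real.exp (A * Real.log X) := by
      intro n hn
      obtain ⟨h1, h2⟩ := hmem n hn
      rw [norm_mul, Complex.norm_real, Real.norm_of_nonneg (by positivity)]
      have h3 : (Real.sqrt n)⁻¹ ≤ 1 := by
        apply inv_le_one_of_one_le₀
        rw [Real.one_le_sqrt]
        exact_mod_cast h1
      calc ‖a n‖ * (Real.sqrt n)⁻¹ ≤ ‖a n‖ * 1 := mul_le_mul_of_nonneg_left h3 (norm_nonneg _)
        _ = ‖a n‖ := mul_one _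
        _ ≤ _ := ha n h1 h2
    calc ∑ n ∈ smo u v X, ‖a n * (((Real.sqrt n)⁻¹ : ℝ) : ℂ)‖
        ≤ ∑ n ∈ smo u v X, Real.exp (A * Real.log X) := Finset.sum_le_sum h1
      _ = (smo u v X).card * Real.exp (A * Real.log X) := by rw [Finset.sum_const, nsmul_eq_mul]
      _ ≤ X * Real.exp (A * Real.log X) := by
          apply mul_le_mul_of_nonneg_right _ (Real.exp_pos _).le
          have h4 : (smo u v X).card ≤ ⌊X⌋₊ := by
            unfold smo
            refine (Finset.card_filter_le _ _).trans ?_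
            simp
          calc ((smo u v X).card : ℝ) ≤ (⌊X⌋₊ : ℝ) := by exact_mod_cast h4
            _ ≤ X := Nat.floor_le hX0.le
      _ = Real.exp ((A + 1) * Real.log X) := by rw [hexp]; ring
  · intro x
    unfold DS
    simp only [ch_one, map_one, mul_one]

theorem IsPoly.continuous {a : ℝ} {Φ : Om → ℂ} (h : IsPoly a Φ) : Continuous Φ := by
  obtain ⟨s, c, h1, h2, h3⟩ := h
  have e : Φ = fun x => ∑ q ∈ s, c q * ch x q.1 * (starRingEnd ℂ) (ch x q.2) := funext h3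
  rw [e]
  exact continuous_finsetSum _ fun q _ => (continuous_const.mul (continuous_ch _)).mul
    (Complex.continuous_conj.comp (continuous_ch _))

theorem IsPolyR.continuous {a : ℝ} {Φ : Om → ℝ} (h : IsPolyR a Φ) : Continuous Φ := by
  have h1 : Continuous fun x => ((Φ x : ℝ) : ℂ) := IsPoly.continuous h
  have h2 := Complex.continuous_re.comp h1
  simpa [Function.comp_def] using h2

theorem IsPolyR.mono {a b : ℝ} {Φ : Om → ℝ} (h : IsPolyR a Φ) (hab : a ≤ b) : IsPolyR b Φ :=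
  IsPoly.mono h hab

theorem IsPolyR.const (c : ℝ) {a : ℝ} (ha : 0 ≤ a) (hc : |c| ≤ Real.exp a) : IsPolyR a (fun _ => c) :=
  IsPoly.const (c : ℂ) ha (by simpa using hc)

theorem IsPolyR.add {a : ℝ} {Φ Ψ : Om → ℝ} (h : IsPolyR a Φ) (h' : IsPolyR a Ψ) :
    IsPolyR (a + 1) (fun x => Φ x + Ψ x) := by
  have h1 := IsPoly.add h h'
  unfold IsPolyR
  simpa using h1

theorem IsPolyR.sum {ι : Type*} (s : Finset ι) {a : ℝ} (Φ : ι → Om → ℝ) (h : ∀ i ∈ s, IsPolyR a (Φ i)) :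
    IsPolyR (a + s.card) (fun x => ∑ i ∈ s, Φ i x) := by
  have h1 := IsPoly.sum s (fun i x => ((Φ i x : ℝ) : ℂ)) h
  unfold IsPolyR
  simpa using h1

theorem IsPolyR.mul {a b : ℝ} {Φ Ψ : Om → ℝ} (h : IsPolyR a Φ) (h' : IsPolyR b Ψ) :
    IsPolyR (a + b) (fun x => Φ x * Ψ x) := by
  have h1 := IsPoly.mul h h'
  unfold IsPolyR
  simpa using h1

end Pool.Agent.LibMM99
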