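import Mathlib
import Pool.Agent.LibMM99.T07

set_option autoImplicit false

namespace Pool.Agent.LibMM99

open MeasureTheory Filter Topology
open scoped ComplexConjugate

/-- the windows consist of primes of the large range -/
private theorem T23d_win {δ : ℝ} (hδ : 0 < δ) (hδ1 : δ < 1) {M : ℕ} {L : ℝ} (hL : 0 ≤ L) (j : Fin M)
    {p : ℕ} (hp : p ∈ win δ M L j) :
    p.Prime ∧ 1 ≤ p ∧ Real.exp (δ * L) < p ∧ (p : ℝ) ≤ Real.exp L := by
  unfold win prm at hp
  obtain ⟨h1, h2, h3⟩ := Finset.mem_filter.1 hp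
  rw [Finset.mem_Icc] at h1
  have hM : (0 : ℝ) < M := by
    have := j.2
    exact_mod_cast (by omega : 0 < M)
  have hj : ((j : ℕ) : ℝ) + 1 ≤ M := by exact_mod_cast j.2
  have hj0 : (0 : ℝ) ≤ ((j : ℕ) : ℝ) := Nat.cast_nonneg _
  refine ⟨h2, h1.1, lt_of_le_of_lt ?_ h3, ?_⟩
  · apply Real.exp_le_exp.2
    apply mul_le_mul_of_nonneg_right _ hL
    have : 0 ≤ (1 - δ) * (j : ℕ) / M := by
      apply div_nonneg (mul_nonneg (by linarith) hj0) hM.le
    linarith
  · refine ((Nat.le_floor_iff (Real.exp_pos _).le).1 h1.2).trans ?_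
    apply Real.exp_le_exp.2
    have h4 : (1 - δ) * ((j : ℕ) + 1) / M ≤ 1 - δ := by
      rw [div_le_iff₀ hM]
      exact mul_le_mul_of_nonneg_left hj (by linarith)
    calc (δ + (1 - δ) * ((j : ℕ) + 1) / M) * L ≤ 1 * L :=
          mul_le_mul_of_nonneg_right (by linarith) hL
      _ = L := one_mul L

private theorem T23d_GG {δ : ℝ} (hδ : 0 < δ) (hδ1 : δ < 1) {M : ℕ} {L : ℝ} (hL : 0 ≤ L) (j : Fin M) :
    IsPoly (1 * L) (GG δ M L j) := by
  have h0 : 0 < Real.exp L := Real.exp_pos L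
  have hone : 1 ≤ Real.exp L := Real.one_le_exp hL
  have hw := fun p (hp : p ∈ win δ M L j) => T23d_win hδ hδ1 hL j hp
  refine ⟨(win δ M L j).image fun p => (p, 1), fun q => (((Real.sqrt q.1)⁻¹ : ℝ) : ℂ), ?_, ?_, ?_⟩
  · intro q hq
    obtain ⟨p, hp, rfl⟩ := Finset.mem_image.1 hq
    obtain ⟨_, h1, _, h2⟩ := hw p hp
    rw [one_mul]
    exact ⟨h1, le_rfl, h2, by simpa using hone⟩
  · rw [Finset.sum_image (by
      intro p _ p' _ h
      exact (Prod.mk.inj h).1)]
    have h3 : ∀ p ∈ win δ M L j, ‖(((Real.sqrt ((p, 1) : ℕ × ℕ).1)⁻¹ : ℝ) : ℂ)‖ ≤ 1 := by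
      intro p hp
      obtain ⟨_, h1, _, _⟩ := hw p hp
      rw [Complex.norm_real, Real.norm_of_nonneg (by positivity)]
      apply inv_le_one_of_one_le₀
      rw [Real.one_le_sqrt]
      exact_mod_cast h1
    refine (Finset.sum_le_sum h3).trans ?_
    rw [Finset.sum_const, nsmul_eq_mul, mul_one, one_mul]
    have h4 : (win δ M L j) ⊆ Finset.Icc 1 ⌊Real.exp L⌋₊ := by
      intro p hp
      obtain ⟨_, h1, _, h2⟩ := hw p hp
      rw [Finset.mem_Icc]
      exact ⟨h1, (Nat.le_floor_iff h0.le).2 h2⟩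
    have h5 := Finset.card_le_card h4
    rw [Nat.card_Icc, Nat.add_sub_cancel] at h5
    calc ((win δ M L j).card : ℝ) ≤ (⌊Real.exp L⌋₊ : ℝ) := by exact_mod_cast h5
      _ ≤ Real.exp L := Nat.floor_le h0.le
  · intro x
    rw [Finset.sum_image (by
      intro p _ p' _ h
      exact (Prod.mk.inj h).1)]
    unfold GG DS
    apply Finset.sum_congr rfl
    intro p _
    simp [ch_one]

/-- fixed polynomials in the window sums are two sided Dirichlet polynomials of length `e^{ΘL}` -/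
theorem eval_poly (δ : ℝ) {M : ℕ} (hδ : 0 < δ) (hδ1 : δ < 1) (p : MvPolynomial (Fin M ⊕ Fin M) ℂ) : ∃ Θ : ℝ, ∀ L : ℝ, 1 ≤ L →
    IsPoly (Θ * L) (fun x => MvPolynomial.eval
      (Sum.elim (fun j => GG δ M L j x) (fun j => conj (GG δ M L j x))) p) := by
  induction p using MvPolynomial.induction_on with
  | C a =>
    refine ⟨‖a‖, fun L hL => ?_⟩
    simp only [MvPolynomial.eval_C]
    apply IsPoly.const
    · exact mul_nonneg (norm_nonneg _) (by linarith)
    · have h1 := Real.add_one_le_exp (‖a‖ * L)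
      have h2 := norm_nonneg a
      nlinarith
  | add p q hp hq =>
    obtain ⟨Θ₁, h1⟩ := hp
    obtain ⟨Θ₂, h2⟩ := hq
    refine ⟨|Θ₁| + |Θ₂| + 1, fun L hL => ?_⟩
    simp only [map_add]
    have hL0 : 0 ≤ L := by linarith
    have e1 : Θ₁ * L ≤ (|Θ₁| + |Θ₂|) * L :=
      mul_le_mul_of_nonneg_right (by linarith [le_abs_self Θ₁, abs_nonneg Θ₂]) hL0
    have e2 : Θ₂ * L ≤ (|Θ₁| + |Θ₂|) * L :=
      mul_le_mul_of_nonneg_right (by linarith [le_abs_self Θ₂, abs_nonneg Θ₁]) hL0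
    have h3 := ((h1 L hL).mono e1).add ((h2 L hL).mono e2)
    refine h3.mono ?_
    linarith
  | mul_X p i hp =>
    obtain ⟨Θ, h1⟩ := hp
    refine ⟨Θ + 1, fun L hL => ?_⟩
    have hL0 : 0 ≤ L := by linarith
    simp only [map_mul, MvPolynomial.eval_X]
    have h2 : IsPoly (1 * L) (fun x => (Sum.elim (fun j => GG δ M L j x)
        (fun j => (starRingEnd ℂ) (GG δ M L j x)) i : ℂ)) := by
      rcases i with j | j
      · exact T23d_GG hδ hδ1 hL0 j
      · exact (T23d_GG hδ hδ1 hL0 j).conj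
    have h3 := (h1 L hL).mul h2
    rw [add_mul]
    exact h3

theorem dependsOn_eval {δ : ℝ} (hδ : 0 < δ) (hδ1 : δ < 1) {M : ℕ} {L : ℝ} (hL : 0 ≤ L) (p : MvPolynomial (Fin M ⊕ Fin M) ℂ) :
    DependsOn (fun x : Om => MvPolynomial.eval
      (Sum.elim (fun j => GG δ M L j x) (fun j => conj (GG δ M L j x))) p) (coo (Real.exp (δ * L)) (Real.exp L)) := by
  intro x y hxy
  have h1 : ∀ j : Fin M, GG δ M L j x = GG δ M L j y := by
    intro j
    unfold GG DS
    apply Finset.sum_congr rfl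
    intro q hq
    obtain ⟨h2, h3, h4, h5⟩ := T23d_win hδ hδ1 hL j hq
    have h6 : ch x q = ch y q := by
      apply dependsOn_ch q
      intro r hr
      rw [h2.primeFactors] at hr
      have hr' : r = q := by simpa using hr
      subst hr'
      exact hxy r ⟨h4, h5⟩
    rw [h6]
  have h7 : (Sum.elim (fun j => GG δ M L j x) (fun j => (starRingEnd ℂ) (GG δ M L j x))) =
      (Sum.elim (fun j => GG δ M L j y) (fun j => (starRingEnd ℂ) (GG δ M L j y))) := by
    funext i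
    rcases i with j | j
    · exact h1 j
    · simp only [Sum.elim_inr, h1 j]
  show MvPolynomial.eval _ p = MvPolynomial.eval _ p
  rw [h7]

end Pool.Agent.LibMM99
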