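import Mathlib

set_option autoImplicit false

namespace Pool.Agent.LibMM99

open MeasureTheory Filter Topology
open scoped ComplexConjugate

/-- real version of `pow_diff` -/
theorem T29_real {k : ℝ} (hk : 0 < k) {η : ℝ} (hη : 0 < η) : ∃ C : ℝ, 0 < C ∧ ∀ x y z : ℝ,
    0 ≤ x → 0 ≤ y → 0 ≤ z → y ≤ x + z → x ≤ y + z → |y ^ k - x ^ k| ≤ η * x ^ k + C * z ^ k := by
  have hc : ContinuousAt (fun t : ℝ => (1 + t) ^ k) 0 :=
    (continuousAt_const.add continuousAt_id).rpow_const (Or.inr hk.le)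
  have hc1 := Metric.continuousAt_iff.1 hc η hη
  obtain ⟨δ0, hδ0, hδ⟩ := hc1
  set δ := min (δ0 / 2) (1 / 2) with hδdef
  have hδpos : 0 < δ := by
    rw [hδdef]; exact lt_min (by linarith) (by norm_num)
  have hδlt : δ < δ0 := lt_of_le_of_lt (min_le_left _ _) (by linarith)
  have hδle : δ ≤ 1 / 2 := min_le_right _ _
  have hp : (1 + δ) ^ k ≤ 1 + η := by
    have h := hδ (x := δ) (by rw [Real.dist_eq, sub_zero, abs_of_pos hδpos]; exact hδlt)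
    simp only [add_zero, Real.one_rpow, Real.dist_eq] at h
    have := (abs_lt.1 h).2
    linarith
  have hm : 1 - η ≤ (1 - δ) ^ k := by
    have h := hδ (x := -δ) (by rw [Real.dist_eq, sub_zero, abs_neg, abs_of_pos hδpos]; exact hδlt)
    simp only [add_zero, Real.one_rpow, Real.dist_eq] at h
    have h1 := (abs_lt.1 h).1
    have h2 : (1 + -δ) = 1 - δ := by ring
    rw [h2] at h1
    linarith
  refine ⟨(1 / δ + 1) ^ k, Real.rpow_pos_of_pos (by positivity) _, ?_⟩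
  intro x y z hx hy hz h1 h2
  have hxk : 0 ≤ x ^ k := Real.rpow_nonneg hx k
  have hyk : 0 ≤ y ^ k := Real.rpow_nonneg hy k
  have hzk : 0 ≤ z ^ k := Real.rpow_nonneg hz k
  by_cases hzx : z ≤ δ * x
  · have hy1 : y ≤ (1 + δ) * x := by nlinarith
    have hy2 : (1 - δ) * x ≤ y := by nlinarith
    have e1 : y ^ k ≤ (1 + η) * x ^ k := by
      calc y ^ k ≤ ((1 + δ) * x) ^ k := Real.rpow_le_rpow hy hy1 hk.le
        _ = (1 + δ) ^ k * x ^ k := Real.mul_rpow (by linarith) hx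
        _ ≤ (1 + η) * x ^ k := mul_le_mul_of_nonneg_right hp hxk
    have e2 : (1 - η) * x ^ k ≤ y ^ k := by
      calc (1 - η) * x ^ k ≤ (1 - δ) ^ k * x ^ k := mul_le_mul_of_nonneg_right hm hxk
        _ = ((1 - δ) * x) ^ k := (Real.mul_rpow (by linarith) hx).symm
        _ ≤ y ^ k := Real.rpow_le_rpow (mul_nonneg (by linarith) hx) hy2 hk.le
    have e3 : 0 ≤ (1 / δ + 1) ^ k * z ^ k :=
      mul_nonneg (Real.rpow_nonneg (by positivity) _) hzk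
    rw [abs_le]
    constructor <;> nlinarith
  · have hzx' : δ * x < z := not_le.1 hzx
    have hx1 : x ≤ 1 / δ * z := by
      rw [div_mul_eq_mul_div, one_mul, le_div_iff₀ hδpos]
      linarith
    have hx2 : x ≤ (1 / δ + 1) * z := by linarith
    have hy2 : y ≤ (1 / δ + 1) * z := by linarith
    have hC0 : 0 ≤ 1 / δ + 1 := by positivity
    have e1 : x ^ k ≤ (1 / δ + 1) ^ k * z ^ k := by
      rw [← Real.mul_rpow hC0 hz]
      exact Real.rpow_le_rpow hx hx2 hk.le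
    have e2 : y ^ k ≤ (1 / δ + 1) ^ k * z ^ k := by
      rw [← Real.mul_rpow hC0 hz]
      exact Real.rpow_le_rpow hy hy2 hk.le
    have e3 : 0 ≤ η * x ^ k := mul_nonneg hη.le hxk
    rw [abs_le]
    constructor <;> linarith

theorem pow_diff {k : ℝ} (hk : 0 < k) {η : ℝ} (hη : 0 < η) : ∃ C : ℝ, 0 < C ∧ ∀ a b : ℂ,
    |‖a + b‖ ^ k - ‖a‖ ^ k| ≤ η * ‖a‖ ^ k + C * ‖b‖ ^ k := by
  obtain ⟨C, hC, h⟩ := T29_real hk hη
  refine ⟨C, hC, fun a b => ?_⟩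
  refine h ‖a‖ ‖a + b‖ ‖b‖ (norm_nonneg _) (norm_nonneg _) (norm_nonneg _) (norm_add_le a b) ?_
  have h1 := norm_sub_le (a + b) b
  rwa [add_sub_cancel_right] at h1

theorem norm_add_rpow_le {k : ℝ} (hk : 0 < k) (a b : ℂ) :
    ‖a + b‖ ^ k ≤ 2 ^ k * (‖a‖ ^ k + ‖b‖ ^ k) := by
  have hak : 0 ≤ ‖a‖ ^ k := Real.rpow_nonneg (norm_nonneg _) k
  have hbk : 0 ≤ ‖b‖ ^ k := Real.rpow_nonneg (norm_nonneg _) k
  have h2k : (0 : ℝ) ≤ 2 ^ k := Real.rpow_nonneg (by norm_num) k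
  have h1 : ‖a + b‖ ≤ 2 * max ‖a‖ ‖b‖ := by
    have := norm_add_le a b
    have h3 := le_max_left ‖a‖ ‖b‖
    have h4 := le_max_right ‖a‖ ‖b‖
    linarith
  calc ‖a + b‖ ^ k ≤ (2 * max ‖a‖ ‖b‖) ^ k := Real.rpow_le_rpow (norm_nonneg _) h1 hk.le
    _ = 2 ^ k * (max ‖a‖ ‖b‖) ^ k :=
      Real.mul_rpow (by norm_num) (le_max_of_le_left (norm_nonneg _))
    _ ≤ 2 ^ k * (‖a‖ ^ k + ‖b‖ ^ k) := by
      refine mul_le_mul_of_nonneg_left ?_ h2k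
      rcases max_choice ‖a‖ ‖b‖ with h | h <;> rw [h] <;> linarith

/-- difference of `k`-th powers with even majorants -/
theorem rpow_sub_le {k : ℝ} (hk : 0 < k) {s : ℕ} (hs : k ≤ s) : ∃ C : ℝ, 0 < C ∧ ∀ ρ : ℝ, 0 < ρ → ρ ≤ 1 →
    ∃ D : ℝ, 0 < D ∧ ∀ a b : ℂ, |‖a‖ ^ k - ‖b‖ ^ k| ≤ D * ‖a - b‖ ^ 2 + C * ρ * (1 + ‖a‖ ^ (2 * s) + ‖b‖ ^ (2 * s)) := by
  have hs1 : 1 ≤ s := by
    have : (0 : ℝ) < s := lt_of_lt_of_le hk hs
    exact_mod_cast this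
  refine ⟨2 + 2 ^ (2 * s), by positivity, ?_⟩
  intro ρ hρ hρ1
  obtain ⟨C, hC, h⟩ := T29_real hk hρ
  -- thresholds
  set Z0 : ℝ := (ρ / C) ^ (1 / k) with hZ0
  have hZ0pos : 0 < Z0 := Real.rpow_pos_of_pos (div_pos hρ hC) _
  have hZ0k : Z0 ^ k = ρ / C := by
    rw [hZ0, ← Real.rpow_mul (div_pos hρ hC).le, one_div, inv_mul_cancel₀ hk.ne', Real.rpow_one]
  set Z1 : ℝ := max 1 (C / ρ) with hZ1
  have hZ1one : 1 ≤ Z1 := le_max_left _ _
  have hZ1C : C / ρ ≤ Z1 := le_max_right _ _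
  have key : ∀ z : ℝ, 0 ≤ z → C * z ^ k ≤ C * Z1 ^ k / Z0 ^ 2 * z ^ 2 + ρ * (1 + z ^ (2 * s)) := by
    intro z hz
    have hzs : 0 ≤ z ^ (2 * s) := pow_nonneg hz _
    have hD0 : 0 ≤ C * Z1 ^ k / Z0 ^ 2 := by positivity
    have hD : 0 ≤ C * Z1 ^ k / Z0 ^ 2 * z ^ 2 := mul_nonneg hD0 (sq_nonneg z)
    rcases le_total z Z0 with h0 | h0
    · have h1 : z ^ k ≤ ρ / C := by
        rw [← hZ0k]; exact Real.rpow_le_rpow hz h0 hk.le
      have h2 : C * z ^ k ≤ ρ := by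
        calc C * z ^ k ≤ C * (ρ / C) := mul_le_mul_of_nonneg_left h1 hC.le
          _ = ρ := by field_simp
      nlinarith
    · rcases le_total z Z1 with h1 | h1
      · have h2 : z ^ k ≤ Z1 ^ k := Real.rpow_le_rpow hz h1 hk.le
        have h3 : 1 ≤ z ^ 2 / Z0 ^ 2 := by
          rw [le_div_iff₀ (by positivity), one_mul]
          exact pow_le_pow_left₀ hZ0pos.le h0 2
        have h4 : C * z ^ k ≤ C * Z1 ^ k / Z0 ^ 2 * z ^ 2 := by
          have h5 : C * Z1 ^ k / Z0 ^ 2 * z ^ 2 = C * Z1 ^ k * (z ^ 2 / Z0 ^ 2) := by ring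
          rw [h5]
          have h6 : 0 ≤ C * Z1 ^ k := by positivity
          calc C * z ^ k ≤ C * Z1 ^ k := mul_le_mul_of_nonneg_left h2 hC.le
            _ = C * Z1 ^ k * 1 := by ring
            _ ≤ C * Z1 ^ k * (z ^ 2 / Z0 ^ 2) := mul_le_mul_of_nonneg_left h3 h6
        nlinarith
      · have hz1 : 1 ≤ z := hZ1one.trans h1
        have hz0 : 0 < z := by linarith
        have h2 : C * z ^ k ≤ ρ * z ^ (2 * s) := by
          have h3 : z ^ k ≤ z ^ s := by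
            rw [← Real.rpow_natCast]
            exact Real.rpow_le_rpow_of_exponent_le hz1 hs
          have h4 : C ≤ ρ * z ^ s := by
            have h5 : C / ρ ≤ z ^ s := by
              calc C / ρ ≤ Z1 := hZ1C
                _ ≤ z := h1
                _ = z ^ 1 := (pow_one z).symm
                _ ≤ z ^ s := pow_le_pow_right₀ hz1 hs1
            rw [div_le_iff₀ hρ] at h5
            linarith
          calc C * z ^ k ≤ (ρ * z ^ s) * z ^ s :=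
                mul_le_mul h4 h3 (Real.rpow_nonneg hz k) (by positivity)
            _ = ρ * z ^ (2 * s) := by rw [two_mul, pow_add]; ring
        nlinarith
  refine ⟨C * Z1 ^ k / Z0 ^ 2, by positivity, ?_⟩
  intro a b
  have hx := norm_nonneg a
  have hy := norm_nonneg b
  have hz := norm_nonneg (a - b)
  have h1 : ‖a‖ ≤ ‖b‖ + ‖a - b‖ := by
    have := norm_add_le b (a - b)
    rwa [add_sub_cancel] at this
  have h2 : ‖b‖ ≤ ‖a‖ + ‖a - b‖ := by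
    have := norm_sub_le a (a - b)
    rwa [sub_sub_cancel] at this
  have h3 := h ‖b‖ ‖a‖ ‖a - b‖ hy hx hz h1 h2
  have h4 := key ‖a - b‖ hz
  have h5 : ‖b‖ ^ k ≤ 1 + ‖b‖ ^ (2 * s) := by
    rcases le_total ‖b‖ 1 with h6 | h6
    · have h7 := Real.rpow_le_one hy h6 hk.le
      have h8 := pow_nonneg hy (2 * s)
      linarith
    · have h7 : ‖b‖ ^ k ≤ ‖b‖ ^ (2 * s) := by
        rw [← Real.rpow_natCast]
        refine Real.rpow_le_rpow_of_exponent_le h6 ?_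
        push_cast
        linarith
      linarith
  have h6 : ‖a - b‖ ^ (2 * s) ≤ 2 ^ (2 * s) * (‖a‖ ^ (2 * s) + ‖b‖ ^ (2 * s)) := by
    have h7 : ‖a - b‖ ≤ 2 * max ‖a‖ ‖b‖ := by
      have := norm_sub_le a b
      have h3 := le_max_left ‖a‖ ‖b‖
      have h4 := le_max_right ‖a‖ ‖b‖
      linarith
    calc ‖a - b‖ ^ (2 * s) ≤ (2 * max ‖a‖ ‖b‖) ^ (2 * s) := pow_le_pow_left₀ hz h7 _
      _ = 2 ^ (2 * s) * (max ‖a‖ ‖b‖) ^ (2 * s) := mul_pow _ _ _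
      _ ≤ 2 ^ (2 * s) * (‖a‖ ^ (2 * s) + ‖b‖ ^ (2 * s)) := by
        refine mul_le_mul_of_nonneg_left ?_ (by positivity)
        have h8 := pow_nonneg hx (2 * s)
        have h9 := pow_nonneg hy (2 * s)
        rcases max_choice ‖a‖ ‖b‖ with h | h <;> rw [h] <;> linarith
  have h8 := pow_nonneg hx (2 * s)
  have h9 := pow_nonneg hy (2 * s)
  have h10 : (1 : ℝ) ≤ 2 ^ (2 * s) := one_le_pow₀ (by norm_num)
  have h11 : ρ * ‖b‖ ^ k ≤ ρ * (1 + ‖b‖ ^ (2 * s)) := mul_le_mul_of_nonneg_left h5 hρ.le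
  have h12 : ρ * (1 + ‖a - b‖ ^ (2 * s)) ≤
      ρ * (1 + 2 ^ (2 * s) * (‖a‖ ^ (2 * s) + ‖b‖ ^ (2 * s))) :=
    mul_le_mul_of_nonneg_left (by linarith) hρ.le
  have h13 : ρ * (1 + ‖b‖ ^ (2 * s)) +
      ρ * (1 + 2 ^ (2 * s) * (‖a‖ ^ (2 * s) + ‖b‖ ^ (2 * s))) ≤
      (2 + 2 ^ (2 * s)) * ρ * (1 + ‖a‖ ^ (2 * s) + ‖b‖ ^ (2 * s)) := by
    have h14 : (2 + 2 ^ (2 * s)) * ρ * (1 + ‖a‖ ^ (2 * s) + ‖b‖ ^ (2 * s)) -
        (ρ * (1 + ‖b‖ ^ (2 * s)) +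
        ρ * (1 + 2 ^ (2 * s) * (‖a‖ ^ (2 * s) + ‖b‖ ^ (2 * s)))) =
        ρ * (2 ^ (2 * s) + 2 * ‖a‖ ^ (2 * s) + ‖b‖ ^ (2 * s)) := by ring
    have h15 : 0 ≤ ρ * (2 ^ (2 * s) + 2 * ‖a‖ ^ (2 * s) + ‖b‖ ^ (2 * s)) :=
      mul_nonneg hρ.le (by linarith)
    linarith
  linarith

end Pool.Agent.LibMM99
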