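import Mathlib
import Pool.Agent.LibMM99.T09
import Pool.Agent.LibMM99.T11
import Pool.Agent.LibMM99.T21c
import Pool.Agent.LibMM99.T22b
import Pool.Agent.LibMM99.T23a
import Pool.Agent.LibMM99.T23c
import Pool.Agent.LibMM99.T23d
import Pool.Agent.LibMM99.T29

set_option autoImplicit false

namespace Pool.Agent.LibMM99

open MeasureTheory Filter Topology
open scoped ComplexConjugate

theorem IsWeight.norm_le {w : ℝ → ℂ} {Λ : ℝ} (hw : IsWeight w Λ) {u : ℝ} (hu : 0 ≤ u) : ‖w u‖ ≤ 1 + Λ := by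
  have h1 := hw.one_le
  by_cases h : 1 ≤ u
  · rw [hw.supp u h]; simp; linarith
  · have h2 := hw.lip u 0 hu le_rfl
    rw [hw.zero, sub_zero, abs_of_nonneg hu] at h2
    have h3 : ‖w u‖ ≤ ‖w u - 1‖ + ‖(1 : ℂ)‖ := by
      have := norm_add_le (w u - 1) 1
      simpa using this
    rw [norm_one] at h3
    have : Λ * u ≤ Λ * 1 := by gcongr; exact (not_le.1 h).le
    linarith

theorem mem_smo {u v X : ℝ} {n : ℕ} : n ∈ smo u v X ↔
    (1 ≤ n ∧ n ≤ ⌊X⌋₊) ∧ ∀ p ∈ n.primeFactors, u < (p : ℝ) ∧ (p : ℝ) ≤ v := by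
  unfold smo
  rw [Finset.mem_filter, Finset.mem_Icc]

theorem sqrt_two_le_exp {L : ℝ} (h : Real.log 2 / 2 ≤ L) : Real.sqrt 2 ≤ Real.exp L := by
  rw [← Real.log_le_iff_le_exp (by positivity), Real.log_sqrt (by norm_num)]
  exact h

theorem top_moment {δ : ℝ} (hδ : 0 < δ) (hδ1 : δ ≤ 1) (Λ : ℝ) (r : ℕ) : ∃ C L0 : ℝ, 0 < C ∧ ∀ w : ℝ → ℂ, IsWeight w Λ →
    ∀ L : ℝ, L0 ≤ L → ∫ x, ‖DS (smo (Real.exp (δ * L)) (Real.exp L) (Real.exp L)) (fun n => w (Real.log n / L)) x‖ ^ (2 * r) ∂mu ≤ C := by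
  obtain ⟨C, hC, h⟩ := sum_smo_tau_le r
  refine ⟨(1 + |Λ|) ^ r * ((1 + |Λ|) * (C * (1 / δ) ^ r)) ^ r, Real.log 2 / 2 / δ, by positivity, ?_⟩
  intro w hw L hL
  have hlog2 : 0 < Real.log 2 := Real.log_pos (by norm_num)
  have hL0 : 0 < L := lt_of_lt_of_le (by positivity) hL
  have hΛ : |Λ| = Λ := abs_of_nonneg (by linarith [hw.one_le])
  rw [hΛ]
  set S := smo (Real.exp (δ * L)) (Real.exp L) (Real.exp L) with hS
  have hw' : ∀ n ∈ S, ‖w (Real.log (n : ℕ) / L)‖ ≤ 1 + Λ := by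
    intro n hn
    exact hw.norm_le (div_nonneg (Real.log_natCast_nonneg n) hL0.le)
  have h1 := moment_le r S (fun n => n) (fun n => w (Real.log n / L)) (1 + Λ)
    (fun i hi => (mem_smo.1 hi).1.1) (fun a _ b _ hab => hab) hw'
  have h2 := h (Real.exp (δ * L)) (Real.exp L) (Real.exp L) 0
    (sqrt_two_le_exp (by rw [div_le_iff₀ hδ] at hL; linarith))
    (Real.exp_le_exp.2 (by nlinarith)) le_rfl (by simp)
  rw [Real.log_exp, Real.log_exp] at h2
  have h3 : L / (δ * L) = 1 / δ := by field_simp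
  rw [h3] at h2
  have hτ : ∀ n : ℕ, 0 ≤ LibZM.tau (r : ℝ) n := fun n => LibZM.tau_nonneg (Nat.cast_nonneg r) n
  have h4 : ∑ i ∈ S, ‖w (Real.log (i : ℕ) / L)‖ * LibZM.tau (r : ℝ) i / i ≤
      (1 + Λ) * (C * (1 / δ) ^ r) := by
    calc ∑ i ∈ S, ‖w (Real.log (i : ℕ) / L)‖ * LibZM.tau (r : ℝ) i / i
        ≤ ∑ i ∈ S, (1 + Λ) * (LibZM.tau (r : ℝ) i * (i : ℝ) ^ ((0 : ℝ) - 1)) := by
          apply Finset.sum_le_sum
          intro i hi
          rw [mul_div_assoc]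
          have h5 : (i : ℝ) ^ ((0 : ℝ) - 1) = (i : ℝ)⁻¹ := by
            rw [zero_sub, Real.rpow_neg_one]
          rw [h5, div_eq_mul_inv]
          have h6 : 0 ≤ LibZM.tau (r : ℝ) i * (i : ℝ)⁻¹ := mul_nonneg (hτ i) (by positivity)
          exact mul_le_mul_of_nonneg_right (hw' i hi) h6
      _ = (1 + Λ) * ∑ i ∈ S, (LibZM.tau (r : ℝ) i * (i : ℝ) ^ ((0 : ℝ) - 1)) := by rw [Finset.mul_sum]
      _ ≤ _ := by
          apply mul_le_mul_of_nonneg_left h2
          linarith [hw.one_le]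
  have hnn : 0 ≤ ∑ i ∈ S, ‖w (Real.log (i : ℕ) / L)‖ * LibZM.tau (r : ℝ) i / i := by
    apply Finset.sum_nonneg
    intro i _
    have := hτ i
    positivity
  have hΛ0 : 0 ≤ 1 + Λ := by linarith [hw.one_le]
  calc ∫ x, ‖DS S (fun n => w (Real.log n / L)) x‖ ^ (2 * r) ∂mu
      ≤ _ := h1
    _ ≤ _ := by gcongr

theorem win_sum_le {δ : ℝ} (hδ : 0 < δ) (hδ1 : δ < 1) : ∃ v : ℝ, 0 ≤ v ∧ ∀ (M : ℕ) (L : ℝ),
    Real.log 2 / 2 / δ ≤ L → ∀ j : Fin M, ∑ p ∈ win δ M L j, (p : ℝ)⁻¹ ≤ v := by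
  obtain ⟨C, hC, h⟩ := sum_inv_prime_le
  refine ⟨Real.log (1 / δ) + C, by have := Real.log_nonneg (one_le_one_div hδ hδ1.le); linarith, ?_⟩
  intro M L hL j
  have hlog2 : 0 < Real.log 2 := Real.log_pos (by norm_num)
  have hL0 : 0 < L := lt_of_lt_of_le (by positivity) hL
  have hM : (0 : ℝ) < M := by
    have := j.pos
    exact_mod_cast this
  set a : ℝ := δ + (1 - δ) * j / M with ha
  set b : ℝ := δ + (1 - δ) * (j + 1) / M with hb
  have h1 : δ ≤ a := by
    have : 0 ≤ (1 - δ) * j / M := by have : 0 ≤ 1 - δ := by linarith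
                                     positivity
    linarith
  have hab : a ≤ b := by
    rw [ha, hb]
    have : (1 - δ) * j / M ≤ (1 - δ) * (j + 1) / M := by
      gcongr
      linarith
    linarith
  have hb1 : b ≤ 1 := by
    have hj : ((j : ℕ) : ℝ) + 1 ≤ M := by exact_mod_cast j.2
    have : (1 - δ) * (j + 1) / M ≤ (1 - δ) := by
      rw [div_le_iff₀ hM]
      have : 0 ≤ 1 - δ := by linarith
      gcongr
    linarith
  have h2 := h (Real.exp (a * L)) (Real.exp (b * L))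
    (sqrt_two_le_exp (by
      rw [div_le_iff₀ hδ] at hL
      have : δ * L ≤ a * L := by gcongr
      linarith)) (Real.exp_le_exp.2 (by gcongr))
  rw [Real.log_exp, Real.log_exp] at h2
  have h3 : Real.log (b * L / (a * L)) ≤ Real.log (1 / δ) := by
    have ha0 : 0 < a := by linarith
    have hb0 : 0 < b := by linarith
    apply Real.log_le_log (by positivity)
    rw [mul_div_mul_right _ _ hL0.ne']
    gcongr
  have h4 : win δ M L j = prm (Real.exp (a * L)) (Real.exp (b * L)) := rfl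
  rw [h4]
  linarith

theorem top_approx {k : ℝ} (hk : 0 < k) {δ : ℝ} (hδ : 0 < δ) (hδ1 : δ < 1) {w : ℝ → ℂ} {Λ : ℝ} (hw : IsWeight w Λ)
    {ε : ℝ} (hε : 0 < ε) :
    ∃ (l Θ L0 : ℝ), ∀ L : ℝ, L0 ≤ L → ∃ Φ Ξ : Om → ℝ,
      DependsOn Φ (coo (Real.exp (δ * L)) (Real.exp L)) ∧ DependsOn Ξ (coo (Real.exp (δ * L)) (Real.exp L)) ∧
      (∀ x, |‖DS (smo (Real.exp (δ * L)) (Real.exp L) (Real.exp L)) (fun n => w (Real.log n / L)) x‖ ^ k - Φ x| ≤ Ξ x) ∧
      ∫ x, Ξ x ∂mu ≤ ε ∧ |∫ x, Φ x ∂mu - l| ≤ ε ∧ IsPolyR (Θ * L) Φ ∧ IsPolyR (Θ * L) Ξ := by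
  set s : ℕ := ⌈k⌉₊ with hs
  have hks : k ≤ s := Nat.le_ceil k
  obtain ⟨C1, hC1, h1⟩ := rpow_sub_le hk hks
  obtain ⟨Cw, h2⟩ := window_approx hδ hδ1 hw
  obtain ⟨CA, LA, hCA, h3⟩ := top_moment hδ hδ1.le Λ s
  -- choice of ρ
  set W : ℝ := 1 + CA + |Cw s| with hW
  have hW0 : 0 < W := by positivity
  set ρ : ℝ := min 1 (ε / (3 * C1 * W)) with hρ
  have hρ0 : 0 < ρ := lt_min one_pos (by positivity)
  have hρ1 : ρ ≤ 1 := min_le_left _ _
  have hρ2 : C1 * ρ * W ≤ ε / 3 := by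
    have : ρ ≤ ε / (3 * C1 * W) := min_le_right _ _
    calc C1 * ρ * W ≤ C1 * (ε / (3 * C1 * W)) * W := by gcongr
      _ = ε / 3 := by field_simp
  obtain ⟨D, hD, h4⟩ := h1 ρ hρ0 hρ1
  obtain ⟨M, Q, LQ, h5⟩ := h2 (ε / (3 * D)) (by positivity)
  obtain ⟨v, hv, h6⟩ := win_sum_le hδ hδ1
  obtain ⟨p, q, h7, h8⟩ := trig_taylor M hk Q v (ε / 3) hv (by positivity)
  obtain ⟨l, hl⟩ := eval_tendsto hδ hδ1 (M := M) p
  obtain ⟨L1, hL1⟩ := (Metric.tendsto_atTop.1 hl) ε hε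
  obtain ⟨Θp, hΘp⟩ := eval_poly δ hδ hδ1 p
  obtain ⟨Θq, hΘq⟩ := eval_poly δ hδ hδ1 q
  obtain ⟨ΘQ, hΘQ⟩ := eval_poly δ hδ hδ1 (MvPolynomial.rename Sum.inl Q)
  have hlog2 : 0 < Real.log 2 := Real.log_pos (by norm_num)
  set Θ1 : ℝ := |Θp| + |Θq| + |ΘQ| + |Λ| + 1 with hΘ1
  have hΘ1' : 1 ≤ Θ1 := by rw [hΘ1]; have := abs_nonneg Θp; have := abs_nonneg Θq; have := abs_nonneg ΘQ; have := abs_nonneg Λ; linarith
  refine ⟨l.re, (2 * Θ1 + 4 + 2 * s * Θ1 + |Real.log (C1 * ρ)| + |Real.log D| + 1 + Θ1 + 4), max (max LA LQ) (max L1 (max 1 (Real.log 2 / 2 / δ))), ?_⟩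
  intro L hL
  have hLA : LA ≤ L := le_trans (le_max_left _ _) (le_trans (le_max_left _ _) hL)
  have hLQ : LQ ≤ L := le_trans (le_max_right _ _) (le_trans (le_max_left _ _) hL)
  have hLL1 : L1 ≤ L := le_trans (le_max_left _ _) (le_trans (le_max_right _ _) hL)
  have hL2 : 1 ≤ L := le_trans (le_max_left _ _) (le_trans (le_max_right _ _) (le_trans (le_max_right _ _) hL))
  have hL3 : Real.log 2 / 2 / δ ≤ L := le_trans (le_max_right _ _) (le_trans (le_max_right _ _) (le_trans (le_max_right _ _) hL))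
  have hL0 : 0 < L := by linarith
  set A : Om → ℂ := DS (smo (Real.exp (δ * L)) (Real.exp L) (Real.exp L)) (fun n => w (Real.log n / L)) with hA
  set G : Fin M → Om → ℂ := fun j => GG δ M L j with hG
  set z : Om → (Fin M ⊕ Fin M → ℂ) := fun x => Sum.elim (fun j => G j x) (fun j => conj (G j x)) with hz
  have hAc : Continuous A := continuous_DS _ _
  have hGc : ∀ j, Continuous (G j) := fun j => continuous_DS _ _
  have hevalQ : ∀ x, MvPolynomial.eval (fun j => GG δ M L j x) Q = MvPolynomial.eval (z x) (MvPolynomial.rename Sum.inl Q) := by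
    intro x
    rw [MvPolynomial.eval_rename]
    rfl
  have hΛ0 : 0 ≤ Λ := by linarith [hw.one_le]
  -- polynomials
  have hAp : IsPoly (Θ1 * L) A := by
    have := IsPoly.ds (u := Real.exp (δ * L)) (v := Real.exp L) (X := Real.exp L) (A := Λ) (Real.one_le_exp hL0.le) hΛ0
      (fun n => w (Real.log n / L)) (by
        intro n hn _
        rw [Real.log_exp]
        calc ‖w (Real.log n / L)‖ ≤ 1 + Λ := hw.norm_le (div_nonneg (Real.log_natCast_nonneg n) hL0.le)
          _ ≤ Real.exp Λ := by linarith [Real.add_one_le_exp Λ]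
          _ ≤ Real.exp (Λ * L) := by apply Real.exp_le_exp.2; nlinarith)
    rw [Real.log_exp] at this
    apply this.mono
    have h9 : Λ + 1 ≤ Θ1 := by
      rw [hΘ1]
      have := le_abs_self Λ
      have := abs_nonneg Θp; have := abs_nonneg Θq; have := abs_nonneg ΘQ
      linarith
    gcongr
  have hPp : IsPoly (Θ1 * L) (fun x => MvPolynomial.eval (z x) p) := by
    apply (hΘp L hL2).mono
    have h9 : Θp ≤ Θ1 := by
      rw [hΘ1]
      have := le_abs_self Θp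
      have := abs_nonneg Λ; have := abs_nonneg Θq; have := abs_nonneg ΘQ
      linarith
    gcongr
  have hPq : IsPoly (Θ1 * L) (fun x => MvPolynomial.eval (z x) q) := by
    apply (hΘq L hL2).mono
    have h9 : Θq ≤ Θ1 := by
      rw [hΘ1]
      have := le_abs_self Θq
      have := abs_nonneg Λ; have := abs_nonneg Θp; have := abs_nonneg ΘQ
      linarith
    gcongr
  have hPQ : IsPoly (Θ1 * L) (fun x => MvPolynomial.eval (fun j => GG δ M L j x) Q) := by
    have h10 : (fun x => MvPolynomial.eval (fun j => GG δ M L j x) Q) = fun x => MvPolynomial.eval (z x) (MvPolynomial.rename Sum.inl Q) := by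
      funext x; exact hevalQ x
    rw [h10]
    apply (hΘQ L hL2).mono
    have h9 : ΘQ ≤ Θ1 := by
      rw [hΘ1]
      have := le_abs_self ΘQ
      have := abs_nonneg Λ; have := abs_nonneg Θq; have := abs_nonneg Θp
      linarith
    gcongr
  set B : Om → ℂ := fun x => MvPolynomial.eval (fun j => GG δ M L j x) Q with hB
  have hBc : Continuous B := hPQ.continuous
  have hΘL : 0 ≤ Θ1 * L := by positivity
  -- dependence
  have hAd : DependsOn A (coo (Real.exp (δ * L)) (Real.exp L)) := dependsOn_DS_smo _ _ _ _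
  have hpd := dependsOn_eval hδ hδ1 hL0.le p
  have hqd := dependsOn_eval hδ hδ1 hL0.le q
  have hBd : DependsOn B (coo (Real.exp (δ * L)) (Real.exp L)) := by
    have := dependsOn_eval hδ hδ1 hL0.le (MvPolynomial.rename Sum.inl Q)
    intro x y hxy
    have h10 := this hxy
    simp only [hB]
    rw [hevalQ, hevalQ]
    exact h10
  obtain ⟨h11, h12⟩ := h5 L hLQ
  have hABp : IsPoly (Θ1 * L + 1) (fun x => A x - B x) := hAp.sub hPQ
  refine ⟨fun x => (MvPolynomial.eval (z x) p).re,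
    fun x => D * ‖A x - B x‖ ^ 2 + C1 * ρ * (1 + ‖A x‖ ^ (2 * s) + ‖B x‖ ^ (2 * s)) + (MvPolynomial.eval (z x) q).re,
    ?_, ?_, ?_, ?_, ?_, ?_, ?_⟩
  · intro x y hxy
    exact congrArg Complex.re (hpd hxy)
  · intro x y hxy
    have h13 : MvPolynomial.eval (z x) q = MvPolynomial.eval (z y) q := hqd hxy
    simp only
    rw [hAd hxy, hBd hxy, h13]
  · intro x
    have h14 := h7 (fun j => G j x)
    have h15 := h4 (A x) (B x)
    have h16 : |‖A x‖ ^ k - (MvPolynomial.eval (z x) p).re| ≤ |‖A x‖ ^ k - ‖B x‖ ^ k| + |‖B x‖ ^ k - (MvPolynomial.eval (z x) p).re| := by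
      have := abs_sub_le (‖A x‖ ^ k) (‖B x‖ ^ k) ((MvPolynomial.eval (z x) p).re)
      exact this
    exact le_trans h16 (add_le_add h15 h14)
  · have i1 : Integrable (fun x => ‖A x - B x‖ ^ 2) mu := integrable_of_continuous (by fun_prop)
    have i2 : Integrable (fun x => ‖A x‖ ^ (2 * s)) mu := integrable_of_continuous (by fun_prop)
    have i3 : Integrable (fun x => ‖B x‖ ^ (2 * s)) mu := integrable_of_continuous (by fun_prop)
    have i4 : Integrable (fun x => (MvPolynomial.eval (z x) q).re) mu :=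
      integrable_of_continuous (Complex.continuous_re.comp hPq.continuous)
    have e1 : ∫ x, (D * ‖A x - B x‖ ^ 2 + C1 * ρ * (1 + ‖A x‖ ^ (2 * s) + ‖B x‖ ^ (2 * s)) + (MvPolynomial.eval (z x) q).re) ∂mu =
        D * ∫ x, ‖A x - B x‖ ^ 2 ∂mu + C1 * ρ * (1 + (∫ x, ‖A x‖ ^ (2 * s) ∂mu) + ∫ x, ‖B x‖ ^ (2 * s) ∂mu) +
          ∫ x, (MvPolynomial.eval (z x) q).re ∂mu := by
      have i5 : Integrable (fun x => D * ‖A x - B x‖ ^ 2) mu := i1.const_mul D
      have i6 : Integrable (fun x => 1 + ‖A x‖ ^ (2 * s)) mu := (integrable_const 1).add i2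
      have i7 : Integrable (fun x => 1 + ‖A x‖ ^ (2 * s) + ‖B x‖ ^ (2 * s)) mu := i6.add i3
      have i8 : Integrable (fun x => C1 * ρ * (1 + ‖A x‖ ^ (2 * s) + ‖B x‖ ^ (2 * s))) mu := i7.const_mul _
      have i9 : Integrable (fun x => D * ‖A x - B x‖ ^ 2 + C1 * ρ * (1 + ‖A x‖ ^ (2 * s) + ‖B x‖ ^ (2 * s))) mu := i5.add i8
      rw [integral_add i9 i4, integral_add i5 i8, integral_const_mul, integral_const_mul, integral_add i6 i3,
        integral_add (integrable_const 1) i2]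
      simp
    rw [e1]
    have e2 : D * ∫ x, ‖A x - B x‖ ^ 2 ∂mu ≤ ε / 3 := by
      calc D * ∫ x, ‖A x - B x‖ ^ 2 ∂mu ≤ D * (ε / (3 * D)) := by gcongr
        _ = ε / 3 := by field_simp
    have e3 : C1 * ρ * (1 + (∫ x, ‖A x‖ ^ (2 * s) ∂mu) + ∫ x, ‖B x‖ ^ (2 * s) ∂mu) ≤ ε / 3 := by
      refine le_trans ?_ hρ2
      have h17 := h3 w hw L hLA
      have h18 := h12 s
      have h19 := le_abs_self (Cw s)
      apply mul_le_mul_of_nonneg_left _ (by positivity)
      rw [hW]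
      linarith
    have e4 : ∫ x, (MvPolynomial.eval (z x) q).re ∂mu ≤ ε / 3 := by
      apply h8 G hGc
      intro i t
      have h20 : ∀ p ∈ win δ M L i, p.Prime := by
        intro p hp
        unfold win prm at hp
        rw [Finset.mem_filter] at hp
        exact hp.2.1
      refine le_trans (prime_sum_moment t (win δ M L i) h20) ?_
      have h21 := h6 M L hL3 i
      have h22 : 0 ≤ ∑ p ∈ win δ M L i, (p : ℝ)⁻¹ := Finset.sum_nonneg fun _ _ => by positivity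
      gcongr
    linarith
  · have h23 := hL1 L hLL1
    rw [dist_eq_norm] at h23
    have h24 : ∫ x, (MvPolynomial.eval (z x) p).re ∂mu = (∫ x, MvPolynomial.eval (z x) p ∂mu).re := by
      have := integral_re (𝕜 := ℂ) (f := fun x => MvPolynomial.eval (z x) p) (μ := mu) (integrable_of_continuous hPp.continuous)
      simpa using this
    rw [h24, ← Complex.sub_re]
    exact le_trans (Complex.abs_re_le_norm _) h23.le
  · apply hPp.re.mono
    have : 1 ≤ L := hL2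
    have h25 : 0 ≤ |Real.log (C1 * ρ)| := abs_nonneg _
    have h26 : 0 ≤ |Real.log D| := abs_nonneg _
    have h27 : (0 : ℝ) ≤ s := Nat.cast_nonneg s
    have h28 : Θ1 * L + 1 ≤ (Θ1 + 1) * L := by linarith
    refine le_trans h28 ?_
    apply mul_le_mul_of_nonneg_right _ hL0.le
    have : 0 ≤ 2 * (s : ℝ) * Θ1 := by positivity
    linarith
  · have j1 : IsPolyR (2 * (Θ1 * L + 1)) (fun x => ‖A x - B x‖ ^ 2) := hABp.normSq
    have j2 : IsPolyR (2 * s * (Θ1 * L)) (fun x => ‖A x‖ ^ (2 * s)) := hAp.normPow s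
    have j3 : IsPolyR (2 * s * (Θ1 * L)) (fun x => ‖B x‖ ^ (2 * s)) := hPQ.normPow s
    have j4 : IsPolyR (Θ1 * L + 1) (fun x => (MvPolynomial.eval (z x) q).re) := hPq.re
    have jD : IsPolyR |Real.log D| (fun _ => D) := by
      apply IsPolyR.const D (abs_nonneg _)
      rw [abs_of_pos hD]
      calc D = Real.exp (Real.log D) := (Real.exp_log hD).symm
        _ ≤ _ := Real.exp_le_exp.2 (le_abs_self _)
    have jC : IsPolyR |Real.log (C1 * ρ)| (fun _ => C1 * ρ) := by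
      apply IsPolyR.const (C1 * ρ) (abs_nonneg _)
      have : 0 < C1 * ρ := by positivity
      rw [abs_of_pos this]
      calc C1 * ρ = Real.exp (Real.log (C1 * ρ)) := (Real.exp_log this).symm
        _ ≤ _ := Real.exp_le_exp.2 (le_abs_self _)
    have j5 : IsPolyR (2 * s * (Θ1 * L)) (fun _ => (1 : ℝ)) := by
      apply IsPolyR.const 1 (by positivity)
      rw [abs_one]
      exact Real.one_le_exp (by positivity)
    have j6 := ((j5.add j2).add (j3.mono (by linarith : 2 * s * (Θ1 * L) ≤ 2 * s * (Θ1 * L) + 1)))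
    have j7 := jC.mul j6
    have j8 := jD.mul j1
    set m1 : ℝ := |Real.log D| + 2 * (Θ1 * L + 1) + (|Real.log (C1 * ρ)| + (2 * s * (Θ1 * L) + 1 + 1)) with hm1
    have h25 : 0 ≤ |Real.log (C1 * ρ)| := abs_nonneg _
    have h26 : 0 ≤ |Real.log D| := abs_nonneg _
    have h27 : (0 : ℝ) ≤ s := Nat.cast_nonneg s
    have h29 : 0 ≤ 2 * (s : ℝ) * (Θ1 * L) := by positivity
    have j9 := (j8.mono (show _ ≤ m1 by rw [hm1]; linarith)).add (j7.mono (show _ ≤ m1 by rw [hm1]; linarith))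
    have j10 := j9.add (j4.mono (show _ ≤ m1 + 1 by rw [hm1]; linarith))
    apply j10.mono
    rw [hm1]
    have h30 : |Real.log D| ≤ |Real.log D| * L := le_mul_of_one_le_right h26 hL2
    have h31 : |Real.log (C1 * ρ)| ≤ |Real.log (C1 * ρ)| * L := le_mul_of_one_le_right h25 hL2
    nlinarith

end Pool.Agent.LibMM99
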