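import Mathlib
import Pool.Agent.LibMM99.K2
import Pool.Agent.LibMM99.K4
import Pool.Agent.LibMM99.K5
import Pool.Agent.LibMM99.T24

set_option autoImplicit false

namespace Pool.Agent.LibMM99

open MeasureTheory Filter Topology
open scoped ComplexConjugate

/-- `k`-th absolute moment of the Gaussian model -/
noncomputable def gaussMom (k : ℝ) (w : ℝ → ℂ) (δ : ℝ) (M : ℕ) : ℝ :=
  ∫ z, ‖MvPolynomial.eval (fun j => ((Real.sqrt (vw δ M j) : ℝ) : ℂ) * z j) (Qw w δ M)‖ ^ k ∂gCM M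

theorem k6_double (m : ℝ → ℝ) (g : ℕ → ℝ)
    (h : ∀ ε : ℝ, 0 < ε → ∃ M0 : ℕ, ∀ M : ℕ, M0 ≤ M → ∃ L0 : ℝ, ∀ L : ℝ, L0 ≤ L → |m L - g M| ≤ ε) :
    ∃ l : ℝ, Tendsto m atTop (𝓝 l) ∧ Tendsto g atTop (𝓝 l) := by
  have hcau : CauchySeq g := by
    rw [Metric.cauchySeq_iff]
    intro ε hε
    obtain ⟨M0, hM0⟩ := h (ε / 3) (by positivity)
    refine ⟨M0, fun M hM M' hM' => ?_⟩
    obtain ⟨L0, hL0⟩ := hM0 M hM
    obtain ⟨L1, hL1⟩ := hM0 M' hM'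
    have h1 := hL0 (max L0 L1) (le_max_left _ _)
    have h2 := hL1 (max L0 L1) (le_max_right _ _)
    rw [Real.dist_eq]
    rw [abs_le] at h1 h2
    rw [abs_lt]
    constructor
    · linarith [h1.1, h1.2, h2.1, h2.2]
    · linarith [h1.1, h1.2, h2.1, h2.2]
  obtain ⟨l, hl⟩ := cauchySeq_tendsto_of_complete hcau
  refine ⟨l, ?_, hl⟩
  rw [Metric.tendsto_atTop]
  intro ε hε
  obtain ⟨M0, hM0⟩ := h (ε / 3) (by positivity)
  obtain ⟨M1, hM1⟩ := (Metric.tendsto_atTop.1 hl) (ε / 3) (by positivity)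
  obtain ⟨L0, hL0⟩ := hM0 (max M0 M1) (le_max_left _ _)
  refine ⟨L0, fun L hL => ?_⟩
  have h1 := hL0 L hL
  have h2 := hM1 (max M0 M1) (le_max_right _ _)
  rw [Real.dist_eq] at h2 ⊢
  rw [abs_le] at h1
  rw [abs_lt] at h2 ⊢
  constructor
  · linarith [h1.1, h1.2, h2.1, h2.2]
  · linarith [h1.1, h1.2, h2.1, h2.2]

theorem k6_cont {δ : ℝ} {M : ℕ} (L : ℝ) (Q : MvPolynomial (Fin M) ℂ) :
    Continuous fun x : Om => MvPolynomial.eval (fun j => GG δ M L j x) Q := by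
  have h1 : Continuous fun x : Om => (fun j => GG δ M L j x) := by
    refine continuous_pi fun j => ?_
    unfold GG
    exact continuous_DS _ _
  exact (MvPolynomial.continuous_eval Q).comp h1

/-- the Gaussian model of one window decomposition -/
theorem k6_gauss {k : ℝ} (hk : 0 < k) {δ : ℝ} (hδ : 0 < δ) (hδ1 : δ < 1) (w : ℝ → ℂ) (M : ℕ) :
    Tendsto (fun L : ℝ => ∫ x, ‖MvPolynomial.eval (fun j => GG δ M L j x) (Qw w δ M)‖ ^ k ∂mu) atTop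
      (𝓝 (gaussMom k w δ M)) := by
  obtain ⟨V, hV, hwin⟩ := win_sum_le hδ hδ1
  refine moment_method (Qw w δ M) hk (vw δ M) (vw_nonneg hδ hδ1 M) (fun L j => GG δ M L j)
    (fun L j => ?_) hV (L0 := Real.log 2 / 2 / δ) (fun L hL j s => ?_)
    (fun α β => mixed_moment_limit hδ hδ1 α β)
  · unfold GG
    exact continuous_DS _ _
  · have h20 : ∀ p ∈ win δ M L j, p.Prime := by
      intro p hp
      unfold win prm at hp
      rw [Finset.mem_filter] at hp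
      exact hp.2.1
    refine le_trans (prime_sum_moment s (win δ M L j) h20) ?_
    have h21 := hwin M L hL j
    have h22 : 0 ≤ ∑ p ∈ win δ M L j, (p : ℝ)⁻¹ := Finset.sum_nonneg fun _ _ => by positivity
    gcongr

theorem k6_close {k : ℝ} (hk : 0 < k) {δ : ℝ} (hδ : 0 < δ) (hδ1 : δ < 1) {w : ℝ → ℂ} {Λ : ℝ}
    (hw : IsWeight w Λ) {ε : ℝ} (hε : 0 < ε) : ∃ M0 : ℕ, ∀ M : ℕ, M0 ≤ M → ∃ L0 : ℝ, ∀ L : ℝ, L0 ≤ L →
    |∫ x, ‖DS (smo (Real.exp (δ * L)) (Real.exp L) (Real.exp L))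
        (fun n => w (Real.log n / L)) x‖ ^ k ∂mu -
      ∫ x, ‖MvPolynomial.eval (fun j => GG δ M L j x) (Qw w δ M)‖ ^ k ∂mu| ≤ ε := by
  set s : ℕ := ⌈k⌉₊ with hs
  have hks : k ≤ s := Nat.le_ceil k
  obtain ⟨C1, hC1, h1⟩ := rpow_sub_le hk hks
  obtain ⟨Cw, h2⟩ := window_approx_all hδ hδ1 hw
  obtain ⟨CA, LA, hCA, h3⟩ := top_moment hδ hδ1.le Λ s
  set W : ℝ := 1 + CA + |Cw s| with hW
  have hW0 : 0 < W := by positivity
  set ρ : ℝ := min 1 (ε / (2 * C1 * W)) with hρ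
  have hρ0 : 0 < ρ := lt_min one_pos (by positivity)
  have hρ1 : ρ ≤ 1 := min_le_left _ _
  have hρ2 : C1 * ρ * W ≤ ε / 2 := by
    have : ρ ≤ ε / (2 * C1 * W) := min_le_right _ _
    calc C1 * ρ * W ≤ C1 * (ε / (2 * C1 * W)) * W := by gcongr
      _ = ε / 2 := by field_simp
  obtain ⟨D, hD, h4⟩ := h1 ρ hρ0 hρ1
  obtain ⟨M0, hM01, hM0⟩ := h2 (ε / (2 * D)) (by positivity)
  refine ⟨M0, fun M hM => ?_⟩
  obtain ⟨LQ, hLQ⟩ := hM0 M hM
  refine ⟨max LA LQ, fun L hL => ?_⟩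
  have hLA : LA ≤ L := le_trans (le_max_left _ _) hL
  have hLQ' : LQ ≤ L := le_trans (le_max_right _ _) hL
  obtain ⟨h11, h12⟩ := hLQ L hLQ'
  set A : Om → ℂ := DS (smo (Real.exp (δ * L)) (Real.exp L) (Real.exp L)) (fun n => w (Real.log n / L)) with hA
  set B : Om → ℂ := fun x => MvPolynomial.eval (fun j => GG δ M L j x) (Qw w δ M) with hB
  have hAc : Continuous A := continuous_DS _ _
  have hBc : Continuous B := k6_cont L _
  have iA : Integrable (fun x => ‖A x‖ ^ k) mu :=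
    integrable_of_continuous (hAc.norm.rpow_const fun _ => Or.inr hk.le)
  have iB : Integrable (fun x => ‖B x‖ ^ k) mu :=
    integrable_of_continuous (hBc.norm.rpow_const fun _ => Or.inr hk.le)
  have i1 : Integrable (fun x => ‖A x - B x‖ ^ 2) mu := integrable_of_continuous (by fun_prop)
  have i2 : Integrable (fun x => ‖A x‖ ^ (2 * s)) mu := integrable_of_continuous (by fun_prop)
  have i3 : Integrable (fun x => ‖B x‖ ^ (2 * s)) mu := integrable_of_continuous (by fun_prop)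
  have i5 : Integrable (fun x => D * ‖A x - B x‖ ^ 2) mu := i1.const_mul D
  have i6 : Integrable (fun x => 1 + ‖A x‖ ^ (2 * s)) mu := (integrable_const 1).add i2
  have i7 : Integrable (fun x => 1 + ‖A x‖ ^ (2 * s) + ‖B x‖ ^ (2 * s)) mu := i6.add i3
  have i8 : Integrable (fun x => C1 * ρ * (1 + ‖A x‖ ^ (2 * s) + ‖B x‖ ^ (2 * s))) mu := i7.const_mul _
  have i9 : Integrable (fun x => D * ‖A x - B x‖ ^ 2 + C1 * ρ * (1 + ‖A x‖ ^ (2 * s) + ‖B x‖ ^ (2 * s))) mu :=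
    i5.add i8
  have e1 : ∫ x, (D * ‖A x - B x‖ ^ 2 + C1 * ρ * (1 + ‖A x‖ ^ (2 * s) + ‖B x‖ ^ (2 * s))) ∂mu =
      D * ∫ x, ‖A x - B x‖ ^ 2 ∂mu + C1 * ρ * (1 + (∫ x, ‖A x‖ ^ (2 * s) ∂mu) + ∫ x, ‖B x‖ ^ (2 * s) ∂mu) := by
    rw [integral_add i5 i8, integral_const_mul, integral_const_mul, integral_add i6 i3,
      integral_add (integrable_const 1) i2]
    simp
  have e2 : D * ∫ x, ‖A x - B x‖ ^ 2 ∂mu ≤ ε / 2 := by
    calc D * ∫ x, ‖A x - B x‖ ^ 2 ∂mu ≤ D * (ε / (2 * D)) := by gcongr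
      _ = ε / 2 := by field_simp
  have e3 : C1 * ρ * (1 + (∫ x, ‖A x‖ ^ (2 * s) ∂mu) + ∫ x, ‖B x‖ ^ (2 * s) ∂mu) ≤ ε / 2 := by
    refine le_trans ?_ hρ2
    have h17 := h3 w hw L hLA
    have h18 := h12 s
    have h19 := le_abs_self (Cw s)
    apply mul_le_mul_of_nonneg_left _ (by positivity)
    rw [hW]
    linarith
  calc |∫ x, ‖A x‖ ^ k ∂mu - ∫ x, ‖B x‖ ^ k ∂mu|
      = |∫ x, (‖A x‖ ^ k - ‖B x‖ ^ k) ∂mu| := by rw [integral_sub iA iB]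
    _ ≤ ∫ x, |‖A x‖ ^ k - ‖B x‖ ^ k| ∂mu := abs_integral_le_integral_abs
    _ ≤ ∫ x, (D * ‖A x - B x‖ ^ 2 + C1 * ρ * (1 + ‖A x‖ ^ (2 * s) + ‖B x‖ ^ (2 * s))) ∂mu :=
        integral_mono (iA.sub iB).abs i9 fun x => h4 (A x) (B x)
    _ ≤ ε := by rw [e1]; linarith

/-- the moment of the sum over rough numbers converges, and the limit is the limit of Gaussian integrals -/
theorem top_limit {k : ℝ} (hk : 0 < k) {δ : ℝ} (hδ : 0 < δ) (hδ1 : δ < 1) {w : ℝ → ℂ} {Λ : ℝ} (hw : IsWeight w Λ) :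
    ∃ l : ℝ, Tendsto (fun L : ℝ => ∫ x, ‖DS (smo (Real.exp (δ * L)) (Real.exp L) (Real.exp L))
        (fun n => w (Real.log n / L)) x‖ ^ k ∂mu) atTop (𝓝 l) ∧
      Tendsto (fun M : ℕ => gaussMom k w δ M) atTop (𝓝 l) := by
  apply k6_double
  intro ε hε
  obtain ⟨M0, hM0⟩ := k6_close hk hδ hδ1 hw (ε := ε / 2) (by positivity)
  refine ⟨M0, fun M hM => ?_⟩
  obtain ⟨L0, hL0⟩ := hM0 M hM
  obtain ⟨L1, hL1⟩ := (Metric.tendsto_atTop.1 (k6_gauss hk hδ hδ1 w M)) (ε / 2) (by positivity)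
  refine ⟨max L0 L1, fun L hL => ?_⟩
  have h1 := hL0 L (le_trans (le_max_left _ _) hL)
  have h2 := hL1 L (le_trans (le_max_right _ _) hL)
  rw [Real.dist_eq] at h2
  rw [abs_le] at h1 ⊢
  rw [abs_lt] at h2
  constructor
  · linarith [h1.1, h1.2, h2.1, h2.2]
  · linarith [h1.1, h1.2, h2.1, h2.2]

end Pool.Agent.LibMM99
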