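import Mathlib
import Pool.Agent.LibMM99.Scales
import Pool.Agent.LibMaier.Mertens

set_option autoImplicit false

namespace Pool.Agent.LibMM99

open MeasureTheory Filter Topology
open scoped ComplexConjugate

lemma t12_mem_prm {u v : ℝ} {p : ℕ} : p ∈ prm u v ↔ p.Prime ∧ u < (p : ℝ) ∧ (p : ℝ) ≤ v := by
  unfold prm
  rw [Finset.mem_filter, Finset.mem_Icc]
  constructor
  · rintro ⟨⟨h1, h2⟩, h3, h4⟩
    exact ⟨h3, h4, (Nat.le_floor_iff' h3.ne_zero).1 h2⟩
  · rintro ⟨h3, h4, h5⟩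
    exact ⟨⟨h3.one_le, (Nat.le_floor_iff' h3.ne_zero).2 h5⟩, h3, h4⟩

lemma t12_inv {p : ℕ} (hp : p.Prime) : 0 < ((p : ℝ)⁻¹) ∧ ((p : ℝ)⁻¹) ≤ 1 / 2 := by
  have h2 : (2 : ℝ) ≤ p := by exact_mod_cast hp.two_le
  refine ⟨by positivity, ?_⟩
  rw [inv_eq_one_div]
  exact one_div_le_one_div_of_le (by norm_num) h2

lemma t12_one_le_Gsum {k : ℝ} (hk : 0 ≤ k) {p : ℕ} (hp : p.Prime) :
    1 ≤ LibZM.Gsum (k / 2) ((p : ℝ)⁻¹) := by
  obtain ⟨h0, h1⟩ := t12_inv hp
  have := LibZM.Gsum_ge (κ := k / 2) (by linarith) h0.le (by linarith)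
  have : 0 ≤ (k / 2) ^ 2 * (p : ℝ)⁻¹ := by positivity
  linarith

theorem one_le_PS {k : ℝ} (hk : 0 ≤ k) (u v : ℝ) : 1 ≤ PS k u v := by
  unfold PS
  apply Finset.one_le_prod
  intro p hp
  exact t12_one_le_Gsum hk (t12_mem_prm.1 hp).1

theorem PS_mul (k : ℝ) {u v w : ℝ} (huv : u ≤ v) (hvw : v ≤ w) : PS k u v * PS k v w = PS k u w := by
  unfold PS
  rw [← Finset.prod_union]
  · congr 1
    ext p
    rw [Finset.mem_union, t12_mem_prm, t12_mem_prm, t12_mem_prm]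
    constructor
    · rintro (⟨h1, h2, h3⟩ | ⟨h1, h2, h3⟩)
      · exact ⟨h1, h2, h3.trans hvw⟩
      · exact ⟨h1, huv.trans_lt h2, h3⟩
    · rintro ⟨h1, h2, h3⟩
      rcases le_or_gt (p : ℝ) v with h | h
      · exact Or.inl ⟨h1, h2, h⟩
      · exact Or.inr ⟨h1, h, h3⟩
  · rw [Finset.disjoint_left]
    intro p hp hp'
    rw [t12_mem_prm] at hp hp'
    linarith [hp.2.2, hp'.2.1]

/-- product over the primes `≤ N` -/
noncomputable def t12P (k : ℝ) (N : ℕ) : ℝ :=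
  ∏ p ∈ (Finset.range (N + 1)).filter Nat.Prime, LibZM.Gsum (k / 2) ((p : ℝ)⁻¹)

lemma t12_PS_eq (k t : ℝ) : PS k 1 t = t12P k ⌊t⌋₊ := by
  unfold PS t12P
  congr 1
  ext p
  rw [t12_mem_prm, Finset.mem_filter, Finset.mem_range, Nat.lt_succ_iff]
  constructor
  · rintro ⟨h1, h2, h3⟩
    exact ⟨(Nat.le_floor_iff' h1.ne_zero).2 h3, h1⟩
  · rintro ⟨h1, h2⟩
    exact ⟨h2, by exact_mod_cast h2.one_lt, (Nat.le_floor_iff' h2.ne_zero).1 h1⟩

lemma t12_tendsto_E {κ : ℝ} (hκ : 0 ≤ κ) :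
    Tendsto (fun N : ℕ => ∏ p ∈ (Finset.range (N + 1)).filter Nat.Prime, LibZM.Efac κ ((p : ℝ)⁻¹)) atTop
      (𝓝 (LibZM.Aconst κ)) := by
  have h := (LibZM.multipliable_Efac hκ).hasProd
  have h2 : Tendsto (fun N : ℕ => (Finset.range (N + 1)).subtype Nat.Prime) atTop atTop := by
    apply tendsto_atTop_finset_of_monotone
    · intro a b hab
      exact Finset.subtype_mono (Finset.range_mono (by omega))
    · intro x
      refine ⟨x.1, ?_⟩
      rw [Finset.mem_subtype, Finset.mem_range]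
      omega
  have h3 := h.comp h2
  refine h3.congr fun N => ?_
  simp only [Function.comp]
  exact Finset.prod_subtype_eq_prod_filter (fun p : ℕ => LibZM.Efac κ ((p : ℝ)⁻¹))

lemma t12_tendsto {k : ℝ} (hk : 0 < k) : ∃ c : ℝ, 0 < c ∧
    Tendsto (fun N : ℕ => t12P k N / (Real.log N) ^ (k ^ 2 / 4)) atTop (𝓝 c) := by
  have hκ : 0 ≤ k / 2 := by linarith
  have h1 := t12_tendsto_E hκ
  have h2 := LibMaier.mertens_third
  have h3 := h2.rpow_const (p := k ^ 2 / 4) (Or.inl (Real.exp_pos _).ne')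
  have h4 := h1.div h3 (Real.rpow_pos_of_pos (Real.exp_pos _) _).ne'
  refine ⟨_, ?_, h4.congr' ?_⟩
  · exact div_pos (LibZM.Aconst_pos hκ) (Real.rpow_pos_of_pos (Real.exp_pos _) _)
  · filter_upwards [eventually_ge_atTop 2] with N hN
    have hN' : (2 : ℝ) ≤ N := by exact_mod_cast hN
    have hlog : 0 < Real.log N := Real.log_pos (by linarith)
    have hpos : 0 ≤ ∏ p ∈ (Finset.range (N + 1)).filter Nat.Prime, (1 - 1 / (p : ℝ)) := by
      apply Finset.prod_nonneg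
      intro p hp
      obtain ⟨h0, h1⟩ := t12_inv (Finset.mem_filter.1 hp).2
      rw [one_div]; linarith
    simp only [Pi.div_apply]
    rw [Real.mul_rpow hpos hlog.le, ← Real.finsetProd_rpow]
    · rw [div_mul_eq_div_div, ← Finset.prod_div_distrib]
      congr 1
      unfold t12P
      apply Finset.prod_congr rfl
      intro p hp
      obtain ⟨h0, h1⟩ := t12_inv (Finset.mem_filter.1 hp).2
      have hpos : 0 < (1 - (p : ℝ)⁻¹) ^ (k ^ 2 / 4) := Real.rpow_pos_of_pos (by linarith) _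
      unfold LibZM.Efac
      rw [one_div, show (k / 2) ^ 2 = k ^ 2 / 4 by ring]
      exact mul_div_cancel_left₀ _ hpos.ne'
    · intro p hp
      obtain ⟨h0, h1⟩ := t12_inv (Finset.mem_filter.1 hp).2
      rw [one_div]; linarith

lemma t12_log_floor : Tendsto (fun t : ℝ => Real.log (⌊t⌋₊ : ℝ) / Real.log t) atTop (𝓝 1) := by
  have h0 : Tendsto (fun t : ℝ => 1 - (1 / Real.log t)) atTop (𝓝 (1 - 0)) := by
    apply Tendsto.sub tendsto_const_nhds
    simp_rw [one_div]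
    exact Real.tendsto_log_atTop.inv_tendsto_atTop
  rw [sub_zero] at h0
  refine tendsto_of_tendsto_of_tendsto_of_le_of_le' h0 tendsto_const_nhds ?_ ?_
  · filter_upwards [eventually_ge_atTop 2] with t ht
    have hlog : 0 < Real.log t := Real.log_pos (by linarith)
    have h1 : (1 : ℝ) ≤ ⌊t⌋₊ := by
      have : 1 ≤ ⌊t⌋₊ := Nat.le_floor (by push_cast; linarith)
      exact_mod_cast this
    have h2 : t ≤ ⌊t⌋₊ * Real.exp 1 := by
      have h3 := (Nat.lt_floor_add_one t).le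
      have h4 : (2 : ℝ) ≤ Real.exp 1 := by
        have := Real.add_one_le_exp 1; linarith
      nlinarith
    have h3 : Real.log t ≤ Real.log (⌊t⌋₊ : ℝ) + 1 := by
      have := Real.log_le_log (by linarith) h2
      rwa [Real.log_mul (by linarith) (Real.exp_pos _).ne', Real.log_exp] at this
    rw [le_div_iff₀ hlog, sub_mul, one_mul, one_div, inv_mul_cancel₀ hlog.ne']
    linarith
  · filter_upwards [eventually_ge_atTop 2] with t ht
    have hlog : 0 < Real.log t := Real.log_pos (by linarith)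
    rw [div_le_one hlog]
    have h1 : (1 : ℝ) ≤ ⌊t⌋₊ := by
      have : 1 ≤ ⌊t⌋₊ := Nat.le_floor (by push_cast; linarith)
      exact_mod_cast this
    exact Real.log_le_log (by linarith) (Nat.floor_le (by linarith))

theorem PS_asymp {k : ℝ} (hk : 0 < k) : ∃ c : ℝ, 0 < c ∧
    Tendsto (fun t : ℝ => PS k 1 t / (Real.log t) ^ (k ^ 2 / 4)) atTop (𝓝 c) := by
  obtain ⟨c, hc, h⟩ := t12_tendsto hk
  refine ⟨c, hc, ?_⟩
  have h1 := (h.comp (tendsto_nat_floor_atTop (α := ℝ))).mul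
    (t12_log_floor.rpow_const (p := k ^ 2 / 4) (Or.inl one_ne_zero))
  rw [Real.one_rpow, mul_one] at h1
  refine h1.congr' ?_
  filter_upwards [eventually_ge_atTop 2] with t ht
  have hlog : 0 < Real.log t := Real.log_pos (by linarith)
  have h1 : (2 : ℝ) ≤ ⌊t⌋₊ := by
    have : 2 ≤ ⌊t⌋₊ := Nat.le_floor (by push_cast; linarith)
    exact_mod_cast this
  have hlog2 : 0 < Real.log (⌊t⌋₊ : ℝ) := Real.log_pos (by linarith)
  simp only [Function.comp]
  rw [Real.div_rpow hlog2.le hlog.le, t12_PS_eq]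
  have : 0 < Real.log (⌊t⌋₊ : ℝ) ^ (k ^ 2 / 4) := Real.rpow_pos_of_pos hlog2 _
  field_simp

lemma t12_mono {k : ℝ} (hk : 0 ≤ k) {u v w : ℝ} (huv : u ≤ v) (hvw : v ≤ w) : PS k u v ≤ PS k u w := by
  rw [← PS_mul k huv hvw]
  have h1 := one_le_PS hk u v
  have h2 := one_le_PS hk v w
  nlinarith

theorem PS_le {k : ℝ} (hk : 0 < k) : ∃ C : ℝ, 0 < C ∧ ∀ t : ℝ, Real.sqrt 2 ≤ t →
    PS k 1 t ≤ C * (Real.log t) ^ (k ^ 2 / 4) := by
  obtain ⟨c, hc, h⟩ := PS_asymp hk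
  have h1 : ∀ᶠ t : ℝ in atTop, PS k 1 t / (Real.log t) ^ (k ^ 2 / 4) < c + 1 :=
    h.eventually_lt_const (by linarith)
  obtain ⟨T, hT⟩ := eventually_atTop.1 (h1.and (eventually_ge_atTop 2))
  have hs : 1 < Real.sqrt 2 := Real.lt_sqrt_of_sq_lt (by norm_num)
  have hls : 0 < Real.log (Real.sqrt 2) := Real.log_pos hs
  have ha : 0 ≤ k ^ 2 / 4 := by positivity
  have hb : 0 < Real.log (Real.sqrt 2) ^ (k ^ 2 / 4) := Real.rpow_pos_of_pos hls _
  refine ⟨(c + 1) + PS k 1 T / Real.log (Real.sqrt 2) ^ (k ^ 2 / 4), ?_, ?_⟩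
  · have := one_le_PS hk.le 1 T
    have : 0 < PS k 1 T := by linarith
    positivity
  · intro t ht
    have hlt : 0 < Real.log t := Real.log_pos (by linarith)
    have hT1 := one_le_PS hk.le 1 T
    rcases le_or_gt T t with h2 | h2
    · have h3 := (hT t h2).1
      rw [div_lt_iff₀ (Real.rpow_pos_of_pos hlt _)] at h3
      refine h3.le.trans ?_
      apply mul_le_mul_of_nonneg_right _ (Real.rpow_nonneg hlt.le _)
      have : 0 ≤ PS k 1 T / Real.log (Real.sqrt 2) ^ (k ^ 2 / 4) := by positivity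
      linarith
    · have h3 : PS k 1 t ≤ PS k 1 T := t12_mono hk.le (by linarith) h2.le
      have h4 : Real.log (Real.sqrt 2) ^ (k ^ 2 / 4) ≤ Real.log t ^ (k ^ 2 / 4) :=
        Real.rpow_le_rpow hls.le (Real.log_le_log (by linarith) ht) ha
      calc PS k 1 t ≤ PS k 1 T := h3
        _ = PS k 1 T / Real.log (Real.sqrt 2) ^ (k ^ 2 / 4) * Real.log (Real.sqrt 2) ^ (k ^ 2 / 4) := by
          field_simp
        _ ≤ PS k 1 T / Real.log (Real.sqrt 2) ^ (k ^ 2 / 4) * Real.log t ^ (k ^ 2 / 4) := by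
          apply mul_le_mul_of_nonneg_left h4
          positivity
        _ ≤ _ := by
          apply mul_le_mul_of_nonneg_right _ (Real.rpow_nonneg hlt.le _)
          linarith

lemma t12_ge {k : ℝ} (hk : 0 < k) : ∃ c : ℝ, 0 < c ∧ ∀ t : ℝ, Real.sqrt 2 ≤ t →
    c * (Real.log t) ^ (k ^ 2 / 4) ≤ PS k 1 t := by
  obtain ⟨c, hc, h⟩ := PS_asymp hk
  have h1 : ∀ᶠ t : ℝ in atTop, c / 2 < PS k 1 t / (Real.log t) ^ (k ^ 2 / 4) :=
    h.eventually_const_lt (by linarith)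
  obtain ⟨T, hT⟩ := eventually_atTop.1 (h1.and (eventually_ge_atTop 2))
  have hT2 := (hT T le_rfl).2
  have hs : 1 < Real.sqrt 2 := Real.lt_sqrt_of_sq_lt (by norm_num)
  have hlT : 0 < Real.log T := Real.log_pos (by linarith)
  have ha : 0 ≤ k ^ 2 / 4 := by positivity
  have hb : 0 < Real.log T ^ (k ^ 2 / 4) := Real.rpow_pos_of_pos hlT _
  refine ⟨min (c / 2) (1 / Real.log T ^ (k ^ 2 / 4)), lt_min (by linarith) (by positivity), ?_⟩
  intro t ht
  have hlt : 0 < Real.log t := Real.log_pos (by linarith)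
  rcases le_or_gt T t with h2 | h2
  · have h3 := (hT t h2).1
    rw [lt_div_iff₀ (Real.rpow_pos_of_pos hlt _)] at h3
    refine le_trans ?_ h3.le
    exact mul_le_mul_of_nonneg_right (min_le_left _ _) (Real.rpow_nonneg hlt.le _)
  · have h4 : Real.log t ^ (k ^ 2 / 4) ≤ Real.log T ^ (k ^ 2 / 4) :=
      Real.rpow_le_rpow hlt.le (Real.log_le_log (by linarith) h2.le) ha
    calc min (c / 2) (1 / Real.log T ^ (k ^ 2 / 4)) * Real.log t ^ (k ^ 2 / 4)
        ≤ 1 / Real.log T ^ (k ^ 2 / 4) * Real.log t ^ (k ^ 2 / 4) :=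
          mul_le_mul_of_nonneg_right (min_le_right _ _) (Real.rpow_nonneg hlt.le _)
      _ ≤ 1 / Real.log T ^ (k ^ 2 / 4) * Real.log T ^ (k ^ 2 / 4) :=
          mul_le_mul_of_nonneg_left h4 (by positivity)
      _ = 1 := by field_simp
      _ ≤ _ := one_le_PS hk.le 1 t

/-- in one scale the Euler product is bounded -/
theorem PS_scale_le {k : ℝ} (hk : 0 < k) : ∃ C : ℝ, 1 ≤ C ∧ ∀ u v : ℝ, Real.sqrt 2 ≤ u → u ≤ v →
    Real.log v ≤ 2 * Real.log u → PS k u v ≤ C := by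
  obtain ⟨C, hC, h1⟩ := PS_le hk
  obtain ⟨c, hc, h2⟩ := t12_ge hk
  have hs : 1 < Real.sqrt 2 := Real.lt_sqrt_of_sq_lt (by norm_num)
  have ha : 0 ≤ k ^ 2 / 4 := by positivity
  refine ⟨max 1 (C * 2 ^ (k ^ 2 / 4) / c), le_max_left _ _, ?_⟩
  intro u v hu huv hl
  have hlu : 0 < Real.log u := Real.log_pos (by linarith)
  have hlv : 0 < Real.log v := Real.log_pos (by linarith)
  refine le_trans ?_ (le_max_right _ _)
  rw [le_div_iff₀ hc]
  have h3 := h1 v (by linarith)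
  rw [← PS_mul k (by linarith : (1 : ℝ) ≤ u) huv] at h3
  have h4 := h2 u hu
  have h5 : Real.log v ^ (k ^ 2 / 4) ≤ 2 ^ (k ^ 2 / 4) * Real.log u ^ (k ^ 2 / 4) := by
    rw [← Real.mul_rpow (by norm_num) hlu.le]
    exact Real.rpow_le_rpow hlv.le hl ha
  have h6 : 0 < Real.log u ^ (k ^ 2 / 4) := Real.rpow_pos_of_pos hlu _
  have h7 := one_le_PS hk.le u v
  have h8 : (PS k u v * c) * Real.log u ^ (k ^ 2 / 4) ≤ (C * 2 ^ (k ^ 2 / 4)) * Real.log u ^ (k ^ 2 / 4) := by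
    calc (PS k u v * c) * Real.log u ^ (k ^ 2 / 4) = (c * Real.log u ^ (k ^ 2 / 4)) * PS k u v := by ring
      _ ≤ PS k 1 u * PS k u v := mul_le_mul_of_nonneg_right h4 (by linarith)
      _ ≤ C * Real.log v ^ (k ^ 2 / 4) := h3
      _ ≤ C * (2 ^ (k ^ 2 / 4) * Real.log u ^ (k ^ 2 / 4)) := mul_le_mul_of_nonneg_left h5 hC.le
      _ = _ := by ring
  exact le_of_mul_le_mul_right h8 h6

end Pool.Agent.LibMM99
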