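import Mathlib
import Pool.Agent.LibMM99.T12

set_option autoImplicit false

namespace Pool.Agent.LibMM99

open MeasureTheory Filter Topology
open scoped ComplexConjugate

private lemma K7_tendsto {k : ℝ} (hk : 0 < k) :
    Tendsto (fun N : ℕ => t12P k N / (Real.log N) ^ (k ^ 2 / 4)) atTop
      (𝓝 (LibZM.Aconst (k / 2) / Real.exp (-Real.eulerMascheroniConstant) ^ (k ^ 2 / 4))) := by
  have hκ : 0 ≤ k / 2 := by linarith
  have h1 := t12_tendsto_E hκ
  have h2 := LibMaier.mertens_third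
  have h3 := h2.rpow_const (p := k ^ 2 / 4) (Or.inl (Real.exp_pos _).ne')
  have h4 := h1.div h3 (Real.rpow_pos_of_pos (Real.exp_pos _) _).ne'
  refine h4.congr' ?_
  filter_upwards [eventually_ge_atTop 2] with N hN
  have hN' : (2 : ℝ) ≤ N := by exact_mod_cast hN
  have hlog : 0 < Real.log N := Real.log_pos (by linarith)
  have hpos : 0 ≤ ∏ p ∈ (Finset.range (N + 1)).filter Nat.Prime, (1 - 1 / (p : ℝ)) := by
    apply Finset.prod_nonneg
    intro p hp
    obtain ⟨h0, h1⟩ := t12_inv (Finset.mem_filter.1 hp).2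
    rw [one_div]; linarith
  simp only [Pi.div_apply]
  rw [Real.mul_rpow hpos hlog.le, ← Real.finsetProd_rpow]
  · rw [div_mul_eq_div_div, ← Finset.prod_div_distrib]
    congr 1
    unfold t12P
    apply Finset.prod_congr rfl
    intro p hp
    obtain ⟨h0, h1⟩ := t12_inv (Finset.mem_filter.1 hp).2
    have hpos : 0 < (1 - (p : ℝ)⁻¹) ^ (k ^ 2 / 4) := Real.rpow_pos_of_pos (by linarith) _
    unfold LibZM.Efac
    rw [one_div, show (k / 2) ^ 2 = k ^ 2 / 4 by ring]
    exact mul_div_cancel_left₀ _ hpos.ne'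
  · intro p hp
    obtain ⟨h0, h1⟩ := t12_inv (Finset.mem_filter.1 hp).2
    rw [one_div]; linarith

/-- the explicit constant in `PS_asymp` (T12) -/
theorem PS_limit {k : ℝ} (hk : 0 < k) :
    Tendsto (fun t : ℝ => PS k 1 t / (Real.log t) ^ (k ^ 2 / 4)) atTop
      (𝓝 (Real.exp (Real.eulerMascheroniConstant * (k ^ 2 / 4)) * LibZM.Aconst (k / 2))) := by
  have hval : Real.exp (Real.eulerMascheroniConstant * (k ^ 2 / 4)) * LibZM.Aconst (k / 2) =
      LibZM.Aconst (k / 2) / Real.exp (-Real.eulerMascheroniConstant) ^ (k ^ 2 / 4) := by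
    have e : Real.eulerMascheroniConstant * (k ^ 2 / 4) =
        -(-Real.eulerMascheroniConstant * (k ^ 2 / 4)) := by ring
    rw [eq_div_iff (Real.rpow_pos_of_pos (Real.exp_pos _) _).ne', ← Real.exp_mul, e,
      Real.exp_neg]
    have := (Real.exp_pos (-Real.eulerMascheroniConstant * (k ^ 2 / 4))).ne'
    field_simp
  rw [hval]
  have h := K7_tendsto hk
  have h1 := (h.comp (tendsto_nat_floor_atTop (α := ℝ))).mul
    (t12_log_floor.rpow_const (p := k ^ 2 / 4) (Or.inl one_ne_zero))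
  rw [Real.one_rpow, mul_one] at h1
  refine h1.congr' ?_
  filter_upwards [eventually_ge_atTop 2] with t ht
  have hlog : 0 < Real.log t := Real.log_pos (by linarith)
  have h1 : (2 : ℝ) ≤ ⌊t⌋₊ := by
    have : 2 ≤ ⌊t⌋₊ := Nat.le_floor (by push_cast; linarith)
    exact_mod_cast this
  have hlog2 : 0 < Real.log (⌊t⌋₊ : ℝ) := Real.log_pos (by linarith)
  simp only [Function.comp]
  rw [Real.div_rpow hlog2.le hlog.le, t12_PS_eq]
  have : 0 < Real.log (⌊t⌋₊ : ℝ) ^ (k ^ 2 / 4) := Real.rpow_pos_of_pos hlog2 _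
  field_simp

end Pool.Agent.LibMM99
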