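import Mathlib
import Pool.Agent.LibMM99.T01
import Pool.Agent.LibMM99.T07

set_option autoImplicit false

namespace Pool.Agent.LibMM99

open MeasureTheory Filter Topology
open scoped ComplexConjugate

theorem log_tj (l0 : ℝ) (j : ℕ) : Real.log (tj l0 j) = l0 * 2 ^ j := by
  rw [tj, Real.log_exp]

theorem sqrt_two_le_tj {l0 : ℝ} (h : Real.log 2 / 2 ≤ l0) (j : ℕ) : Real.sqrt 2 ≤ tj l0 j := by
  have h2 : (0:ℝ) < Real.log 2 := Real.log_pos (by norm_num)
  rw [tj, ← Real.log_le_iff_le_exp (by positivity), Real.log_sqrt (by norm_num)]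
  have : (1:ℝ) ≤ 2 ^ j := one_le_pow₀ (by norm_num)
  nlinarith

theorem tj_mono {l0 : ℝ} (h0 : 0 ≤ l0) {i j : ℕ} (hij : i ≤ j) : tj l0 i ≤ tj l0 j := by
  unfold tj
  apply Real.exp_le_exp.2
  exact mul_le_mul_of_nonneg_left (pow_le_pow_right₀ (by norm_num) hij) h0

private theorem one_le_tj {l0 : ℝ} (h0 : 0 ≤ l0) (j : ℕ) : 1 ≤ tj l0 j := by
  unfold tj
  exact Real.one_le_exp (by positivity)

private theorem coo_mono {a b c d : ℝ} (h1 : c ≤ a) (h2 : b ≤ d) : coo a b ⊆ coo c d :=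
  fun _ hp => ⟨lt_of_le_of_lt h1 hp.1, hp.2.trans h2⟩

theorem dependsOn_psi {l0 K : ℝ} {J j : ℕ} : DependsOn (psi l0 K J j) (coo (tj l0 j) (tj l0 (j + 1))) := by
  intro x y h
  exact dependsOn_DS_smo _ _ _ _ h

private theorem dependsOn_scale {E : Type*} {l0 : ℝ} {f : Om → E} {i j : ℕ} (h0 : 0 ≤ l0) (hij : i < j)
    (hf : DependsOn f (coo (tj l0 i) (tj l0 (i + 1)))) : DependsOn f (coo 1 (tj l0 j)) := by
  intro x y h
  exact hf fun p hp => h p (coo_mono (one_le_tj h0 i) (tj_mono h0 (Nat.succ_le_of_lt hij)) hp)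

private theorem dependsOn_up {E : Type*} {l0 : ℝ} {f : Om → E} {i j : ℕ} (h0 : 0 ≤ l0) (hij : i ≤ j)
    (hf : DependsOn f (coo 1 (tj l0 i))) : DependsOn f (coo 1 (tj l0 j)) := by
  intro x y h
  exact hf fun p hp => h p (coo_mono le_rfl (tj_mono h0 hij) hp)

theorem dependsOn_Fj {l0 K : ℝ} {J j : ℕ} (h0 : 0 ≤ l0) : DependsOn (Fj l0 K J j) (coo 1 (tj l0 j)) := by
  intro x y h
  unfold Fj
  refine Finset.prod_congr rfl fun i hi => ?_
  rw [Finset.mem_range] at hi
  exact dependsOn_scale h0 hi dependsOn_psi h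

theorem dependsOn_BB {l0 : ℝ} {b : ℕ → Om → ℝ} {j : ℕ} (h0 : 0 ≤ l0)
    (hb : ∀ i < j, DependsOn (b i) (coo (tj l0 i) (tj l0 (i + 1)))) : DependsOn (BB b j) (coo 1 (tj l0 j)) := by
  intro x y h
  unfold BB
  refine Finset.prod_congr rfl fun i hi => ?_
  rw [Finset.mem_range] at hi
  exact dependsOn_scale h0 hi (hb i hi) h

theorem dependsOn_UU {r : ℕ} {l0 K : ℝ} {J : ℕ} {b e : ℕ → Om → ℝ} {j : ℕ} (h0 : 0 ≤ l0)
    (hb : ∀ i < j, DependsOn (b i) (coo (tj l0 i) (tj l0 (i + 1))))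
    (he : ∀ i < j, DependsOn (e i) (coo (tj l0 i) (tj l0 (i + 1)))) :
    DependsOn (UU r l0 K J b e j) (coo 1 (tj l0 j)) := by
  induction j with
  | zero => intro x y _; rfl
  | succ j ih =>
    intro x y h
    have h1 := ih (fun i hi => hb i (hi.trans (Nat.lt_succ_self j))) (fun i hi => he i (hi.trans (Nat.lt_succ_self j)))
    have e1 : UU r l0 K J b e j x = UU r l0 K J b e j y := dependsOn_up h0 (Nat.le_succ j) h1 h
    have e2 : BB b j x = BB b j y :=
      dependsOn_up h0 (Nat.le_succ j) (dependsOn_BB h0 fun i hi => hb i (hi.trans (Nat.lt_succ_self j))) h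
    have e3 : e j x = e j y := dependsOn_scale h0 (Nat.lt_succ_self j) (he j (Nat.lt_succ_self j)) h
    have e4 : psi l0 K J j x = psi l0 K J j y := dependsOn_scale h0 (Nat.lt_succ_self j) dependsOn_psi h
    simp only [UU]
    rw [e1, e2, e3, e4]

theorem dependsOn_Ej {w : ℝ → ℂ} {l0 K V L : ℝ} {J j : ℕ} (h0 : 0 ≤ l0) (hV : l0 * 2 ^ (j + 1) ≤ V) :
    DependsOn (Ej w l0 K V L J j) (coo (tj l0 j) (Real.exp V)) := by
  intro x y h
  have hle : tj l0 (j + 1) ≤ Real.exp V := Real.exp_le_exp.2 hV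
  have e1 : psi l0 K J j x = psi l0 K J j y := dependsOn_psi fun p hp => h p (coo_mono le_rfl hle hp)
  have e2 : AA w l0 V L (j + 1) x = AA w l0 V L (j + 1) y :=
    dependsOn_DS_smo _ _ _ _ fun p hp => h p (coo_mono (tj_mono h0 (Nat.le_succ j)) le_rfl hp)
  have e3 : AA w l0 V L j x = AA w l0 V L j y := dependsOn_DS_smo _ _ _ _ h
  unfold Ej
  rw [e1, e2, e3]

theorem coo_disjoint {a b c d : ℝ} (h : b ≤ c) : Disjoint (coo a b) (coo c d) := by
  rw [Set.disjoint_left]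
  intro p hp hq
  exact absurd (hp.2.trans h) (not_le.2 hq.1)

theorem continuous_psi {l0 K : ℝ} {J j : ℕ} : Continuous (psi l0 K J j) := continuous_DS _ _

theorem continuous_Fj {l0 K : ℝ} {J j : ℕ} : Continuous (Fj l0 K J j) := by
  unfold Fj
  exact continuous_finsetProd _ fun i _ => continuous_psi

theorem continuous_AA {w : ℝ → ℂ} {l0 V L : ℝ} {j : ℕ} : Continuous (AA w l0 V L j) := continuous_DS _ _

theorem continuous_BB {b : ℕ → Om → ℝ} {j : ℕ} (hb : ∀ i < j, Continuous (b i)) : Continuous (BB b j) := by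
  unfold BB
  exact continuous_finsetProd _ fun i hi => hb i (Finset.mem_range.1 hi)

theorem continuous_UU {r : ℕ} {l0 K : ℝ} {J : ℕ} {b e : ℕ → Om → ℝ} {j : ℕ} (hb : ∀ i < j, Continuous (b i))
    (he : ∀ i < j, Continuous (e i)) : Continuous (UU r l0 K J b e j) := by
  induction j with
  | zero => exact continuous_const
  | succ j ih =>
    have h1 := ih (fun i hi => hb i (hi.trans (Nat.lt_succ_self j))) (fun i hi => he i (hi.trans (Nat.lt_succ_self j)))
    have h2 : Continuous (BB b j) := continuous_BB fun i hi => hb i (hi.trans (Nat.lt_succ_self j))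
    have h3 := he j (Nat.lt_succ_self j)
    have h4 : Continuous (psi l0 K J j) := continuous_psi
    exact ((continuous_const.add (h4.norm.pow _)).mul h1).add (h3.mul h2)

theorem continuous_Ej {w : ℝ → ℂ} {l0 K V L : ℝ} {J j : ℕ} : Continuous (Ej w l0 K V L J j) :=
  (continuous_psi.mul continuous_AA).sub continuous_AA

theorem continuous_RR {w : ℝ → ℂ} {l0 K V L : ℝ} {J : ℕ} : Continuous (RR w l0 K V L J) := by
  unfold RR
  exact continuous_finsetSum _ fun j _ => continuous_Fj.mul continuous_Ej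

theorem BB_nonneg {b : ℕ → Om → ℝ} {j : ℕ} (hb : ∀ i < j, ∀ x, 0 ≤ b i x) (x : Om) : 0 ≤ BB b j x :=
  Finset.prod_nonneg fun i hi => hb i (Finset.mem_range.1 hi) x

theorem UU_nonneg {r : ℕ} {l0 K : ℝ} {J : ℕ} {b e : ℕ → Om → ℝ} {j : ℕ} (hb : ∀ i < j, ∀ x, 0 ≤ b i x)
    (he : ∀ i < j, ∀ x, 0 ≤ e i x) (x : Om) : 0 ≤ UU r l0 K J b e j x := by
  induction j with
  | zero => exact le_rfl
  | succ j ih =>
    have h1 := ih (fun i hi => hb i (hi.trans (Nat.lt_succ_self j))) (fun i hi => he i (hi.trans (Nat.lt_succ_self j)))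
    have h2 : 0 ≤ BB b j x := BB_nonneg (fun i hi => hb i (hi.trans (Nat.lt_succ_self j))) x
    have h3 := he j (Nat.lt_succ_self j) x
    simp only [UU]
    positivity

end Pool.Agent.LibMM99
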