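import Mathlib
import Pool.Agent.LibMM99.T03
import Pool.Agent.LibMM99.T12
import Pool.Agent.LibMM99.T30

set_option autoImplicit false

namespace Pool.Agent.LibMM99

open MeasureTheory Filter Topology
open scoped ComplexConjugate

private theorem T15b_kap_ge {K : ℝ} (hK : 0 ≤ K) (J i : ℕ) : K ≤ kap K J i := by
  unfold kap
  exact le_mul_of_one_le_right hK (one_le_pow₀ (by norm_num))

private theorem T15b_sum {K : ℝ} (hK : 20 ≤ K) (J : ℕ) :
    ∑ i ∈ Finset.range J, Real.exp (-kap K J i / 10) ≤ 2 * Real.exp (-K / 10) := by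
  have h2 : ∑ i ∈ Finset.range J, Real.exp (-kap K J i / 10) =
      ∑ i ∈ Finset.range J, Real.exp (-(K * (3 / 2 : ℝ) ^ i) / 10) :=
    Finset.sum_range_reflect (fun n => Real.exp (-(K * (3 / 2 : ℝ) ^ n) / 10)) J
  rw [h2]
  have he : Real.exp (-1) ≤ 1 / 2 := by
    have h3 := Real.exp_one_gt_d9
    rw [Real.exp_neg, inv_le_comm₀ (Real.exp_pos _) (by norm_num)]
    norm_num
    linarith
  have h3 : ∀ i : ℕ, Real.exp (-(K * (3 / 2 : ℝ) ^ i) / 10) ≤ Real.exp (-K / 10) * (1 / 2) ^ i := by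
    intro i
    have hb : 1 + (i : ℝ) * (1 / 2) ≤ (3 / 2 : ℝ) ^ i := by
      have := one_add_mul_le_pow (a := (1 / 2 : ℝ)) (by norm_num) i
      norm_num at this ⊢
      linarith
    have hi : (0 : ℝ) ≤ i := Nat.cast_nonneg i
    have h4 : -(K * (3 / 2 : ℝ) ^ i) / 10 ≤ -K / 10 + i * (-1) := by nlinarith
    calc Real.exp (-(K * (3 / 2 : ℝ) ^ i) / 10) ≤ Real.exp (-K / 10 + i * (-1)) := Real.exp_le_exp.mpr h4
      _ = Real.exp (-K / 10) * Real.exp (-1) ^ i := by
          rw [Real.exp_add, Real.exp_nat_mul]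
      _ ≤ Real.exp (-K / 10) * (1 / 2) ^ i :=
          mul_le_mul_of_nonneg_left (pow_le_pow_left₀ (Real.exp_pos _).le he i) (Real.exp_pos _).le
  refine (Finset.sum_le_sum fun i _ => h3 i).trans ?_
  rw [← Finset.mul_sum, mul_comm]
  refine mul_le_mul_of_nonneg_right ?_ (Real.exp_pos _).le
  have h5 : ∑ i ∈ Finset.range J, (1 / 2 : ℝ) ^ i ≤ 2 := by
    rw [geom_sum_eq (by norm_num)]
    have : (0 : ℝ) ≤ (1 / 2) ^ J := by positivity
    have e : ((1 / 2 : ℝ) ^ J - 1) / (1 / 2 - 1) = 2 - 2 * (1 / 2) ^ J := by ring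
    rw [e]
    linarith
  exact h5

private theorem T15b_int_BB {k C0 l0 K : ℝ} {J : ℕ} {b e : ℕ → Om → ℝ} (h0 : 0 ≤ l0)
    (hS : ∀ i < J, ScaleData k C0 (tj l0 i) (tj l0 (i + 1)) (kap K J i) (b i) (e i)) :
    ∀ j ≤ J, ∫ x, BB b j x ∂mu = ∏ i ∈ Finset.range j, ∫ x, b i x ∂mu := by
  intro j
  induction j with
  | zero =>
    intro _
    simp [BB]
  | succ j ih =>
    intro hj
    have hc : ∀ i < J, Continuous (b i) := fun i hi => (hS i hi).b_poly.continuous
    have h1 : ∀ x, BB b (j + 1) x = BB b j x * b j x := fun x => by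
      simp only [BB, Finset.prod_range_succ]
    simp only [h1]
    rw [integral_mul_indep (continuous_BB fun i hi => hc i (by omega)) (hc j (by omega))
      (dependsOn_BB h0 fun i hi => (hS i (by omega)).b_dep) (hS j (by omega)).b_dep
      (coo_disjoint le_rfl), ih (by omega), Finset.prod_range_succ]

private theorem T15b_prod_PS {l0 : ℝ} (h0 : 0 ≤ l0) (hl : l0 < Real.log 2) (k : ℝ) (j : ℕ) :
    ∏ i ∈ Finset.range j, PS k (tj l0 i) (tj l0 (i + 1)) = PS k 1 (tj l0 j) := by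
  induction j with
  | zero =>
    have ht : tj l0 0 < 2 := by
      rw [tj, pow_zero, mul_one]
      have := Real.exp_lt_exp.mpr hl
      rwa [Real.exp_log (by norm_num)] at this
    have : prm 1 (tj l0 0) = ∅ := by
      rw [prm, Finset.filter_eq_empty_iff]
      rintro p hp ⟨h1, h2⟩
      rw [Finset.mem_Icc] at hp
      have h3 : (p : ℝ) ≤ tj l0 0 := (Nat.cast_le.mpr hp.2).trans (Nat.floor_le (Real.exp_pos _).le)
      have h4 : (2 : ℝ) ≤ p := by exact_mod_cast h1.two_le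
      linarith
    simp [PS, this]
  | succ j ih =>
    have h1t : (1 : ℝ) ≤ tj l0 j := Real.one_le_exp (by positivity)
    rw [Finset.prod_range_succ, ih, PS_mul k h1t (tj_mono h0 (Nat.le_succ _))]

private theorem T15b_prod_lower (s : ℕ) (x : ℕ → ℝ) (h0 : ∀ i < s, 0 ≤ x i) (h1 : ∀ i < s, x i ≤ 1) :
    1 - ∑ i ∈ Finset.range s, x i ≤ ∏ i ∈ Finset.range s, (1 - x i) ∧
      ∏ i ∈ Finset.range s, (1 - x i) ≤ 1 ∧ 0 ≤ ∏ i ∈ Finset.range s, (1 - x i) := by
  induction s with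
  | zero => simp
  | succ s ih =>
    obtain ⟨a1, a2, a3⟩ := ih (fun i hi => h0 i (by omega)) (fun i hi => h1 i (by omega))
    have b0 := h0 s (by omega)
    have b1 := h1 s (by omega)
    rw [Finset.sum_range_succ, Finset.prod_range_succ]
    refine ⟨?_, ?_, mul_nonneg a3 (by linarith)⟩
    · nlinarith
    · nlinarith

theorem scale_product_mean {k : ℝ} (hk : 0 < k) {C0 : ℝ} (hC0 : 1 ≤ C0) :
    ∃ C K1 : ℝ, 1 ≤ C ∧ 1 ≤ K1 ∧ ∀ (l0 K : ℝ) (J : ℕ),
    Real.log 2 / 2 ≤ l0 → l0 < Real.log 2 → K1 ≤ K → ∀ b e : ℕ → Om → ℝ,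
    (∀ i < J, ScaleData k C0 (tj l0 i) (tj l0 (i + 1)) (kap K J i) (b i) (e i)) →
    (1 - C * Real.exp (-K / 10)) * PS k 1 (tj l0 J) ≤ ∫ x, BB b J x ∂mu ∧
    ∫ x, BB b J x ∂mu ≤ (1 + C * Real.exp (-K / 10)) * PS k 1 (tj l0 J) := by
  set K1 : ℝ := max 20 (10 * Real.log (2 * C0)) with hK1
  refine ⟨4 * C0, K1, by linarith, le_max_of_le_left (by norm_num), ?_⟩
  intro l0 K J hl hl2 hK b e hS
  have hK20 : 20 ≤ K := (le_max_left _ _).trans hK
  have hK0 : 0 ≤ K := by linarith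
  have hl0 : 0 ≤ l0 := le_trans (by positivity) hl
  have hs : C0 * Real.exp (-K / 10) ≤ 1 / 2 := by
    have h1 : 10 * Real.log (2 * C0) ≤ K := (le_max_right _ _).trans hK
    have h2 : Real.exp (-K / 10) ≤ Real.exp (-Real.log (2 * C0)) :=
      Real.exp_le_exp.mpr (by linarith)
    rw [Real.exp_neg, Real.exp_log (by positivity)] at h2
    calc C0 * Real.exp (-K / 10) ≤ C0 * (2 * C0)⁻¹ :=
          mul_le_mul_of_nonneg_left h2 (by positivity)
      _ = 1 / 2 := by field_simp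
  have hE : 0 < Real.exp (-K / 10) := Real.exp_pos _
  set x : ℕ → ℝ := fun i => C0 * Real.exp (-kap K J i / 10) with hx
  have hx0 : ∀ i, 0 ≤ x i := fun i => by positivity
  have hx1 : ∀ i, x i ≤ 1 / 2 := fun i => by
    refine le_trans ?_ hs
    refine mul_le_mul_of_nonneg_left (Real.exp_le_exp.mpr ?_) (by linarith)
    have := T15b_kap_ge hK0 J i
    linarith
  have hsum : ∑ i ∈ Finset.range J, x i ≤ 2 * (C0 * Real.exp (-K / 10)) := by
    simp only [hx]
    rw [← Finset.mul_sum]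
    have := mul_le_mul_of_nonneg_left (T15b_sum hK20 J) (show 0 ≤ C0 by linarith)
    linarith
  have hsum0 : 0 ≤ ∑ i ∈ Finset.range J, x i := Finset.sum_nonneg fun i _ => hx0 i
  have hPS : ∀ i, 1 ≤ PS k (tj l0 i) (tj l0 (i + 1)) := fun i => one_le_PS hk.le _ _
  have hP := T15b_prod_PS hl0 hl2 k J
  have hP1 : 1 ≤ PS k 1 (tj l0 J) := one_le_PS hk.le _ _
  rw [T15b_int_BB hl0 hS J le_rfl]
  constructor
  · have h1 : ∏ i ∈ Finset.range J, (PS k (tj l0 i) (tj l0 (i + 1)) * (1 - x i)) ≤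
        ∏ i ∈ Finset.range J, ∫ x, b i x ∂mu := by
      refine Finset.prod_le_prod ?_ ?_
      · intro i _
        exact mul_nonneg (zero_le_one.trans (hPS i)) (by linarith [hx1 i])
      · intro i hi
        exact (hS i (Finset.mem_range.mp hi)).le_b
    refine le_trans ?_ h1
    rw [Finset.prod_mul_distrib, hP, mul_comm]
    refine mul_le_mul_of_nonneg_left ?_ (by linarith)
    have h2 := (T15b_prod_lower J x (fun i _ => hx0 i) (fun i _ => by linarith [hx1 i])).1
    nlinarith [mul_pos (show 0 < C0 by linarith) hE]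
  · have h1 : ∏ i ∈ Finset.range J, ∫ x, b i x ∂mu ≤
        ∏ i ∈ Finset.range J, (PS k (tj l0 i) (tj l0 (i + 1)) * Real.exp (x i)) := by
      refine Finset.prod_le_prod ?_ ?_
      · intro i hi
        exact integral_nonneg (hS i (Finset.mem_range.mp hi)).b_nonneg
      · intro i hi
        refine (hS i (Finset.mem_range.mp hi)).b_le.trans ?_
        refine mul_le_mul_of_nonneg_left ?_ (zero_le_one.trans (hPS i))
        rw [add_comm]
        exact Real.add_one_le_exp _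
    refine h1.trans ?_
    rw [Finset.prod_mul_distrib, hP, ← Real.exp_sum, mul_comm]
    refine mul_le_mul_of_nonneg_right ?_ (by linarith)
    have h3 : ∑ i ∈ Finset.range J, x i ≤ 1 := by linarith
    have h4 : Real.exp (∑ i ∈ Finset.range J, x i) ≤ 1 + 2 * ∑ i ∈ Finset.range J, x i := by
      have h5 := Real.abs_exp_sub_one_le (x := ∑ i ∈ Finset.range J, x i) (by
        rw [abs_of_nonneg hsum0]; exact h3)
      rw [abs_of_nonneg hsum0] at h5
      have h6 := (abs_le.mp h5).2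
      linarith
    linarith

end Pool.Agent.LibMM99
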