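import Mathlib
import Pool.Agent.LibMM99.T05
import Pool.Agent.LibMM99.T06
import Pool.Agent.LibMM99.T11

set_option autoImplicit false

namespace Pool.Agent.LibMM99

open MeasureTheory Filter Topology
open scoped ComplexConjugate

/-- Arithmetic functions which agree with `tau α` on `smo u v X` and are dominated by it. -/
structure T14P (u v X α : ℝ) (M : ℕ) (f : ArithmeticFunction ℝ) : Prop where
  eq : ∀ n ∈ smo u v X, f n = LibZM.tau α n
  nonneg : ∀ n, 0 ≤ f n
  le : ∀ n, f n ≤ LibZM.tau α n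
  supp : ∀ n, f n ≠ 0 → ∀ p ∈ n.primeFactors, u < (p : ℝ) ∧ (p : ℝ) ≤ v
  bdd : ∀ n, M < n → f n = 0

private theorem t14_mem_smo {u v X : ℝ} {n : ℕ} :
    n ∈ smo u v X ↔ (1 ≤ n ∧ n ≤ ⌊X⌋₊) ∧ ∀ p ∈ n.primeFactors, u < (p : ℝ) ∧ (p : ℝ) ≤ v := by
  unfold smo
  rw [Finset.mem_filter, Finset.mem_Icc]

private theorem t14_smo_dvd {u v X : ℝ} {n d : ℕ} (hn : n ∈ smo u v X) (hd : d ∣ n) :
    d ∈ smo u v X := by
  rw [t14_mem_smo] at hn ⊢
  have hn0 : 0 < n := hn.1.1
  refine ⟨⟨Nat.pos_of_dvd_of_pos hd hn0, (Nat.le_of_dvd hn0 hd).trans hn.1.2⟩, fun p hp => ?_⟩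
  exact hn.2 p (Nat.primeFactors_mono hd hn0.ne' hp)

theorem T14P.mul {u v X α β : ℝ} {M M' : ℕ} {f g : ArithmeticFunction ℝ}
    (hf : T14P u v X α M f) (hg : T14P u v X β M' g) (hα : 0 ≤ α) : T14P u v X (α + β) (M * M') (f * g) := by
  refine ⟨fun n hn => ?_, fun n => ?_, fun n => ?_, fun n hn p hp => ?_, fun n hn => ?_⟩
  · rw [← LibZM.tau_mul, ArithmeticFunction.mul_apply, ArithmeticFunction.mul_apply]
    refine Finset.sum_congr rfl fun q hq => ?_
    rw [Nat.mem_divisorsAntidiagonal] at hq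
    rw [hf.eq _ (t14_smo_dvd hn ⟨q.2, hq.1.symm⟩),
      hg.eq _ (t14_smo_dvd hn ⟨q.1, by rw [mul_comm]; exact hq.1.symm⟩)]
  · rw [ArithmeticFunction.mul_apply]
    exact Finset.sum_nonneg fun q _ => mul_nonneg (hf.nonneg _) (hg.nonneg _)
  · rw [← LibZM.tau_mul, ArithmeticFunction.mul_apply, ArithmeticFunction.mul_apply]
    exact Finset.sum_le_sum fun q _ => mul_le_mul (hf.le _) (hg.le _) (hg.nonneg _)
      (LibZM.tau_nonneg hα _)
  · rw [ArithmeticFunction.mul_apply] at hn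
    obtain ⟨q, hq, hq0⟩ := Finset.exists_ne_zero_of_sum_ne_zero hn
    rw [Nat.mem_divisorsAntidiagonal] at hq
    have h1 : q.1 ≠ 0 := fun h => hq.2 (by rw [← hq.1, h, zero_mul])
    have h2 : q.2 ≠ 0 := fun h => hq.2 (by rw [← hq.1, h, mul_zero])
    rw [← hq.1, Nat.primeFactors_mul h1 h2, Finset.mem_union] at hp
    rcases hp with hp | hp
    · exact hf.supp _ (left_ne_zero_of_mul hq0) p hp
    · exact hg.supp _ (right_ne_zero_of_mul hq0) p hp
  · rw [ArithmeticFunction.mul_apply]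
    refine Finset.sum_eq_zero fun q hq => ?_
    rw [Nat.mem_divisorsAntidiagonal] at hq
    rcases lt_or_ge M q.1 with h | h
    · rw [hf.bdd _ h, zero_mul]
    rcases lt_or_ge M' q.2 with h' | h'
    · rw [hg.bdd _ h', mul_zero]
    exfalso
    have := Nat.mul_le_mul h h'
    rw [hq.1] at this
    omega

theorem T14P.one (u v X : ℝ) : T14P u v X 0 1 1 := by
  refine ⟨fun n _ => ?_, fun n => ?_, fun n => ?_, fun n hn p hp => ?_, fun n hn => ?_⟩
  · rw [LibZM.tau_zero_eq]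
  · rw [ArithmeticFunction.one_apply]; split_ifs <;> norm_num
  · rw [LibZM.tau_zero_eq]
  · rw [ArithmeticFunction.one_apply] at hn
    have h1 : n = 1 := by
      by_contra h
      rw [if_neg h] at hn
      exact hn rfl
    rw [h1] at hp
    simp at hp
  · rw [ArithmeticFunction.one_apply, if_neg (by omega)]

theorem T14P.pow {u v X α : ℝ} {M : ℕ} {f : ArithmeticFunction ℝ}
    (hf : T14P u v X α M f) (hα : 0 ≤ α) (j : ℕ) : T14P u v X (j * α) (M ^ j) (f ^ j) := by
  induction j with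
  | zero =>
    rw [Nat.cast_zero, zero_mul, pow_zero, pow_zero]
    exact T14P.one u v X
  | succ j ih =>
    have h := ih.mul hf (by positivity)
    rw [pow_succ, pow_succ, show (((j + 1 : ℕ)) : ℝ) * α = j * α + α by push_cast; ring]
    exact h

/-- Truncation of `tau α` to `smo u v X`. -/
noncomputable def t14tr (u v X α : ℝ) : ArithmeticFunction ℝ :=
  ⟨fun n => if n ∈ smo u v X then LibZM.tau α n else 0, by simp⟩

theorem t14tr_apply (u v X α : ℝ) (n : ℕ) :
    t14tr u v X α n = if n ∈ smo u v X then LibZM.tau α n else 0 := rfl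

theorem T14P.tr (u v X : ℝ) {α : ℝ} (hα : 0 ≤ α) : T14P u v X α ⌊X⌋₊ (t14tr u v X α) := by
  refine ⟨fun n hn => ?_, fun n => ?_, fun n => ?_, fun n hn => ?_, fun n hn => ?_⟩
  · rw [t14tr_apply, if_pos hn]
  · rw [t14tr_apply]
    split_ifs
    · exact LibZM.tau_nonneg hα n
    · exact le_rfl
  · rw [t14tr_apply]
    split_ifs
    · exact le_rfl
    · exact LibZM.tau_nonneg hα n
  · rw [t14tr_apply] at hn
    have h1 : n ∈ smo u v X := by
      by_contra h
      rw [if_neg h] at hn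
      exact hn rfl
    exact (t14_mem_smo.mp h1).2
  · rw [t14tr_apply, if_neg]
    intro h
    have := (t14_mem_smo.mp h).1.2
    omega

/-- Dirichlet polynomial attached to an arithmetic function. -/
noncomputable def t14A (M : ℕ) (f : ArithmeticFunction ℝ) (x : Om) : ℂ :=
  ∑ n ∈ Finset.Icc 1 M, ((f n : ℝ) : ℂ) * ((((Real.sqrt n)⁻¹ : ℝ) : ℂ) * ch x n)

theorem t14A_mul {M M' : ℕ} {f g : ArithmeticFunction ℝ} (hf : ∀ n, M < n → f n = 0)
    (hg : ∀ n, M' < n → g n = 0) (x : Om) : t14A M f x * t14A M' g x = t14A (M * M') (f * g) x := by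
  unfold t14A
  rw [LibZM.sum_mul_reindex (fun n => ((f n : ℝ) : ℂ)) (fun n => ((g n : ℝ) : ℂ))
    (fun n => (((Real.sqrt n)⁻¹ : ℝ) : ℂ) * ch x n)]
  · refine Finset.sum_congr rfl fun n _ => ?_
    rw [ArithmeticFunction.mul_apply]
    push_cast
    rfl
  · intro n hn; simp [hf n hn]
  · intro n hn; simp [hg n hn]
  · intro a b
    rcases Nat.eq_zero_or_pos a with rfl | ha
    · simp
    rcases Nat.eq_zero_or_pos b with rfl | hb
    · simp
    rw [ch_mul x ha.ne' hb.ne', Nat.cast_mul, Real.sqrt_mul (Nat.cast_nonneg _), mul_inv]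
    push_cast
    ring

theorem t14A_one (x : Om) : t14A 1 1 x = 1 := by
  unfold t14A
  simp [ch_one]

theorem t14A_pow {M : ℕ} {f : ArithmeticFunction ℝ} {u v X α : ℝ} (hf : T14P u v X α M f) (hα : 0 ≤ α)
    (x : Om) (j : ℕ) : t14A M f x ^ j = t14A (M ^ j) (f ^ j) x := by
  induction j with
  | zero => rw [pow_zero, pow_zero, pow_zero, t14A_one]
  | succ j ih =>
    rw [pow_succ, ih, t14A_mul (hf.pow hα j).bdd hf.bdd, ← pow_succ, ← pow_succ]

theorem t14A_ext {M M' : ℕ} {f : ArithmeticFunction ℝ} (hf : ∀ n, M < n → f n = 0) (h : M ≤ M') (x : Om) :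
    t14A M f x = t14A M' f x := by
  unfold t14A
  apply Finset.sum_subset (Finset.Icc_subset_Icc le_rfl h)
  intro n _ hn
  rw [Finset.mem_Icc] at *
  rw [hf n (by omega)]
  simp

theorem t14A_tr (u v X α : ℝ) (x : Om) :
    t14A ⌊X⌋₊ (t14tr u v X α) x = DS (smo u v X) (fun n => ((LibZM.tau α n : ℝ) : ℂ)) x := by
  unfold t14A DS
  rw [show smo u v X = (Finset.Icc 1 ⌊X⌋₊).filter (fun n => n ∈ smo u v X) by
    ext n
    rw [Finset.mem_filter, Finset.mem_Icc]
    constructor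
    · intro h; exact ⟨(t14_mem_smo.mp h).1, h⟩
    · intro h; exact h.2, Finset.sum_filter]
  refine Finset.sum_congr rfl fun n _ => ?_
  rw [t14tr_apply]
  have e : (n ∈ (Finset.Icc 1 ⌊X⌋₊).filter (fun n => n ∈ smo u v X)) ↔ n ∈ smo u v X := by
    rw [Finset.mem_filter, Finset.mem_Icc]
    constructor
    · intro h; exact h.2
    · intro h; exact ⟨(t14_mem_smo.mp h).1, h⟩
  by_cases h : n ∈ smo u v X
  · rw [if_pos h]
    simp only [if_pos h]
    ring
  · rw [if_neg h]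
    simp only [if_neg h]
    simp

theorem t14_psi (u v X : ℝ) (x : Om) :
    DS (smo u v X) (fun _ => 1) x = t14A ⌊X⌋₊ (t14tr u v X 1) x := by
  rw [t14A_tr]
  unfold DS
  refine Finset.sum_congr rfl fun n hn => ?_
  have : n ≠ 0 := by
    have := (t14_mem_smo.mp hn).1.1
    omega
  beta_reduce
  rw [LibZM.tau_one_apply this]
  simp

theorem h_meanSq (k : ℕ) : ∃ C : ℝ, 0 < C ∧ ∀ u v X : ℝ, Real.sqrt 2 ≤ u → u ≤ v →
    Real.log v ≤ 2 * Real.log u → 1 ≤ X →
    ∫ x, ‖DS (smo u v X) (fun _ => 1) x ^ k -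
        DS (smo u v X) (fun n => ((LibZM.tau ((k : ℝ) / 2) n : ℝ) : ℂ)) x ^ 2‖ ^ 2 ∂mu ≤
      C * Real.exp (-(Real.log X) / (5 * Real.log v)) := by
  obtain ⟨C, hC, hT⟩ := sum_smo_tau_tail_le (k ^ 2)
  refine ⟨C * 2 ^ (k ^ 2), by positivity, fun u v X hu huv hlog hX => ?_⟩
  have hu1 : 1 < u := lt_of_lt_of_le (by
    rw [show (1:ℝ) = Real.sqrt 1 by simp]
    exact Real.sqrt_lt_sqrt (by norm_num) (by norm_num)) hu
  have hlu : 0 < Real.log u := Real.log_pos hu1
  have hlv : 0 < Real.log v := Real.log_pos (by linarith)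
  set M := ⌊X⌋₊ with hM
  have hk2 : (0:ℝ) ≤ (k:ℝ) / 2 := by positivity
  have hF := (T14P.tr u v X zero_le_one).pow zero_le_one k
  have hG := (T14P.tr u v X hk2).pow hk2 2
  set F := (t14tr u v X 1) ^ k with hFdef
  set G := (t14tr u v X ((k:ℝ)/2)) ^ 2 with hGdef
  have hαG : ((2:ℕ):ℝ) * ((k:ℝ)/2) = k := by push_cast; ring
  rw [hαG] at hG
  rw [mul_one] at hF
  set N := max (M ^ k) (M ^ 2) with hN
  have hpt : ∀ x : Om, DS (smo u v X) (fun _ => 1) x ^ k -
        DS (smo u v X) (fun n => ((LibZM.tau ((k : ℝ) / 2) n : ℝ) : ℂ)) x ^ 2 =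
      DS (Finset.Icc 1 N) (fun n => ((F n - G n : ℝ) : ℂ)) x := by
    intro x
    rw [t14_psi, ← t14A_tr, t14A_pow (T14P.tr u v X zero_le_one) zero_le_one,
      t14A_pow (T14P.tr u v X hk2) hk2,
      t14A_ext hF.bdd (le_max_left _ _ : M ^ k ≤ N), t14A_ext hG.bdd (le_max_right _ _ : M ^ 2 ≤ N)]
    unfold t14A DS
    rw [← Finset.sum_sub_distrib]
    refine Finset.sum_congr rfl fun n _ => ?_
    push_cast
    ring
  simp_rw [hpt]
  rw [integral_norm_sq _ (fun n hn => (Finset.mem_Icc.mp hn).1)]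
  have hsub : (smo u v (N:ℝ)).filter (fun n : ℕ => X < (n : ℝ)) ⊆ Finset.Icc 1 N := by
    intro n hn
    rw [Finset.mem_filter, t14_mem_smo, Nat.floor_natCast] at hn
    rw [Finset.mem_Icc]
    exact hn.1.1
  rw [← Finset.sum_subset hsub]
  swap
  · intro n hn hn'
    rw [Finset.mem_filter, t14_mem_smo, Nat.floor_natCast] at hn'
    rw [Finset.mem_Icc] at hn
    have h0 : F n - G n = 0 := by
      by_cases hp : ∀ p ∈ n.primeFactors, u < (p : ℝ) ∧ (p : ℝ) ≤ v
      · by_cases hX' : X < (n:ℝ)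
        · exact absurd ⟨⟨hn, hp⟩, hX'⟩ hn'
        · rw [not_lt] at hX'
          have hmem : n ∈ smo u v X := by
            rw [t14_mem_smo]
            exact ⟨⟨hn.1, Nat.le_floor hX'⟩, hp⟩
          rw [hF.eq n hmem, hG.eq n hmem, sub_self]
      · have h1 : F n = 0 := by
          by_contra h
          exact hp (hF.supp n h)
        have h2 : G n = 0 := by
          by_contra h
          exact hp (hG.supp n h)
        rw [h1, h2, sub_self]
    rw [h0]; simp
  calc ∑ n ∈ (smo u v (N:ℝ)).filter (fun n : ℕ => X < (n : ℝ)), ‖((F n - G n : ℝ) : ℂ)‖ ^ 2 / n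
      ≤ ∑ n ∈ (smo u v (N:ℝ)).filter (fun n : ℕ => X < (n : ℝ)), LibZM.tau ((k ^ 2 : ℕ) : ℝ) n / n := by
        refine Finset.sum_le_sum fun n _ => ?_
        apply div_le_div_of_nonneg_right _ (Nat.cast_nonneg n)
        rw [Complex.norm_real, Real.norm_eq_abs, sq_abs]
        have h1 := hF.le n
        have h2 := hG.le n
        have h3 := hF.nonneg n
        have h4 := hG.nonneg n
        have h5 : (F n - G n) ^ 2 ≤ LibZM.tau (k:ℝ) n ^ 2 := by
          apply sq_le_sq'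
          · linarith
          · linarith
        refine h5.trans ((LibZM.tau_sq_le (Nat.cast_nonneg k) n).trans (le_of_eq ?_))
        push_cast
        rfl
    _ ≤ C * (Real.log v / Real.log u) ^ (k ^ 2) * Real.exp (-(Real.log X) / (5 * Real.log v)) :=
        hT u v X N hu huv hX
    _ ≤ C * 2 ^ (k ^ 2) * Real.exp (-(Real.log X) / (5 * Real.log v)) := by
        have h1 : Real.log v / Real.log u ≤ 2 := by
          rw [div_le_iff₀ hlu]; exact hlog
        have h2 : 0 ≤ Real.log v / Real.log u := by positivity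
        gcongr

theorem psi_moment (r : ℕ) : ∃ C : ℝ, 0 < C ∧ ∀ u v X : ℝ, Real.sqrt 2 ≤ u → u ≤ v →
    Real.log v ≤ 2 * Real.log u →
    ∫ x, ‖DS (smo u v X) (fun _ => 1) x‖ ^ (2 * r) ∂mu ≤ C := by
  obtain ⟨C, hC, hT⟩ := sum_smo_tau_le r
  refine ⟨(C * 2 ^ r) ^ r, by positivity, fun u v X hu huv hlog => ?_⟩
  have hu1 : 1 < u := lt_of_lt_of_le (by
    rw [show (1:ℝ) = Real.sqrt 1 by simp]
    exact Real.sqrt_lt_sqrt (by norm_num) (by norm_num)) hu
  have hlu : 0 < Real.log u := Real.log_pos hu1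
  have hlv : 0 < Real.log v := Real.log_pos (by linarith)
  have h := moment_le r (smo u v X) (fun n => n) (fun _ => (1:ℂ)) 1
    (fun n hn => (t14_mem_smo.mp hn).1.1) (fun a _ b _ h => h) (fun n _ => by simp)
  unfold DS
  refine h.trans ?_
  rw [one_pow, one_mul]
  have h2 : ∑ n ∈ smo u v X, ‖(1:ℂ)‖ * LibZM.tau (r : ℝ) n / n ≤ C * 2 ^ r := by
    have h3 := hT u v X 0 hu huv le_rfl (by simp)
    have h4 : ∑ n ∈ smo u v X, ‖(1:ℂ)‖ * LibZM.tau (r : ℝ) n / n =
        ∑ n ∈ smo u v X, LibZM.tau (r : ℝ) n * (n : ℝ) ^ ((0:ℝ) - 1) := by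
      refine Finset.sum_congr rfl fun n hn => ?_
      rw [norm_one, one_mul, zero_sub, Real.rpow_neg_one, div_eq_mul_inv]
    rw [h4]
    refine h3.trans ?_
    have h5 : Real.log v / Real.log u ≤ 2 := by
      rw [div_le_iff₀ hlu]; exact hlog
    have h6 : 0 ≤ Real.log v / Real.log u := by positivity
    gcongr
  have h7 : 0 ≤ ∑ n ∈ smo u v X, ‖(1:ℂ)‖ * LibZM.tau (r : ℝ) n / n := by
    refine Finset.sum_nonneg fun n _ => ?_
    have := LibZM.tau_nonneg (Nat.cast_nonneg r) n (α := (r:ℝ))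
    positivity
  gcongr

end Pool.Agent.LibMM99
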