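import Mathlib
import Pool.Agent.LibMM99.T03
import Pool.Agent.LibMM99.T12
import Pool.Agent.LibMM99.T14
import Pool.Agent.LibMM99.T30

set_option autoImplicit false

namespace Pool.Agent.LibMM99

open MeasureTheory Filter Topology
open scoped ComplexConjugate

private theorem T15a_kap_ge {K : ℝ} (hK : 0 ≤ K) (J i : ℕ) : K ≤ kap K J i := by
  unfold kap
  exact le_mul_of_one_le_right hK (one_le_pow₀ (by norm_num))

private theorem T15a_sum {K : ℝ} (hK : 20 ≤ K) {J j : ℕ} (hj : j ≤ J) :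
    ∑ i ∈ Finset.range j, Real.exp (-kap K J i / 10) ≤ 2 * Real.exp (-K / 10) := by
  have h1 : ∑ i ∈ Finset.range j, Real.exp (-kap K J i / 10) ≤
      ∑ i ∈ Finset.range J, Real.exp (-kap K J i / 10) :=
    Finset.sum_le_sum_of_subset_of_nonneg (Finset.range_mono hj) fun i _ _ => (Real.exp_pos _).le
  refine h1.trans ?_
  have h2 : ∑ i ∈ Finset.range J, Real.exp (-kap K J i / 10) =
      ∑ i ∈ Finset.range J, Real.exp (-(K * (3 / 2 : ℝ) ^ i) / 10) :=
    Finset.sum_range_reflect (fun n => Real.exp (-(K * (3 / 2 : ℝ) ^ n) / 10)) J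
  rw [h2]
  have he : Real.exp (-1) ≤ 1 / 2 := by
    have h3 := Real.exp_one_gt_d9
    rw [Real.exp_neg, inv_le_comm₀ (Real.exp_pos _) (by norm_num)]
    norm_num
    linarith
  have h3 : ∀ i : ℕ, Real.exp (-(K * (3 / 2 : ℝ) ^ i) / 10) ≤ Real.exp (-K / 10) * (1 / 2) ^ i := by
    intro i
    have hb : 1 + (i : ℝ) * (1 / 2) ≤ (3 / 2 : ℝ) ^ i := by
      have := one_add_mul_le_pow (a := (1 / 2 : ℝ)) (by norm_num) i
      norm_num at this ⊢
      linarith
    have hi : (0 : ℝ) ≤ i := Nat.cast_nonneg i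
    have h4 : -(K * (3 / 2 : ℝ) ^ i) / 10 ≤ -K / 10 + i * (-1) := by nlinarith
    calc Real.exp (-(K * (3 / 2 : ℝ) ^ i) / 10) ≤ Real.exp (-K / 10 + i * (-1)) := Real.exp_le_exp.mpr h4
      _ = Real.exp (-K / 10) * Real.exp (-1) ^ i := by
          rw [Real.exp_add, Real.exp_nat_mul]
      _ ≤ Real.exp (-K / 10) * (1 / 2) ^ i :=
          mul_le_mul_of_nonneg_left (pow_le_pow_left₀ (Real.exp_pos _).le he i) (Real.exp_pos _).le
  refine (Finset.sum_le_sum fun i _ => h3 i).trans ?_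
  rw [← Finset.mul_sum, mul_comm]
  refine mul_le_mul_of_nonneg_right ?_ (Real.exp_pos _).le
  have h5 : ∑ i ∈ Finset.range J, (1 / 2 : ℝ) ^ i ≤ 2 := by
    rw [geom_sum_eq (by norm_num)]
    have : (0 : ℝ) ≤ (1 / 2) ^ J := by positivity
    have e : ((1 / 2 : ℝ) ^ J - 1) / (1 / 2 - 1) = 2 - 2 * (1 / 2) ^ J := by ring
    rw [e]
    linarith
  exact h5

section

variable {k C0 l0 K : ℝ} {J : ℕ} {b e : ℕ → Om → ℝ}

private theorem T15a_int_BB (h0 : 0 ≤ l0)
    (hS : ∀ i < J, ScaleData k C0 (tj l0 i) (tj l0 (i + 1)) (kap K J i) (b i) (e i)) :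
    ∀ j ≤ J, ∫ x, BB b j x ∂mu = ∏ i ∈ Finset.range j, ∫ x, b i x ∂mu := by
  intro j
  induction j with
  | zero =>
    intro _
    simp [BB]
  | succ j ih =>
    intro hj
    have hc : ∀ i < J, Continuous (b i) := fun i hi => (hS i hi).b_poly.continuous
    have h1 : ∀ x, BB b (j + 1) x = BB b j x * b j x := fun x => by
      simp only [BB, Finset.prod_range_succ]
    simp only [h1]
    rw [integral_mul_indep (continuous_BB fun i hi => hc i (by omega)) (hc j (by omega))
      (dependsOn_BB h0 fun i hi => (hS i (by omega)).b_dep) (hS j (by omega)).b_dep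
      (coo_disjoint le_rfl), ih (by omega), Finset.prod_range_succ]

private theorem T15a_prod_PS {l0 : ℝ} (h0 : 0 ≤ l0) (k : ℝ) (j : ℕ) :
    ∏ i ∈ Finset.range j, PS k (tj l0 i) (tj l0 (i + 1)) = PS k (tj l0 0) (tj l0 j) := by
  induction j with
  | zero =>
    have : prm (tj l0 0) (tj l0 0) = ∅ := by
      rw [prm, Finset.filter_eq_empty_iff]
      rintro p hp ⟨h1, h2⟩
      rw [Finset.mem_Icc] at hp
      have h3 : (p : ℝ) ≤ tj l0 0 := (Nat.cast_le.mpr hp.2).trans (Nat.floor_le (Real.exp_pos _).le)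
      linarith
    simp [PS, this]
  | succ j ih =>
    rw [Finset.prod_range_succ, ih, PS_mul k (tj_mono h0 (Nat.zero_le _)) (tj_mono h0 (Nat.le_succ _))]

end

private theorem T15a_BB_le {k : ℝ} (hk : 0 < k) {C0 : ℝ} (hC0 : 1 ≤ C0) :
    ∃ C : ℝ, 1 ≤ C ∧ ∀ (l0 K : ℝ) (J : ℕ), Real.log 2 / 2 ≤ l0 → 20 ≤ K → ∀ b e : ℕ → Om → ℝ,
    (∀ i < J, ScaleData k C0 (tj l0 i) (tj l0 (i + 1)) (kap K J i) (b i) (e i)) → ∀ j ≤ J,
    ∫ x, BB b j x ∂mu ≤ C * (l0 * 2 ^ j) ^ (k ^ 2 / 4) := by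
  obtain ⟨C, hC, h⟩ := PS_le hk
  refine ⟨max 1 (Real.exp (2 * C0) * C), le_max_left _ _, ?_⟩
  intro l0 K J hl hK b e hS j hj
  have hl0 : 0 ≤ l0 := le_trans (by positivity) hl
  rw [T15a_int_BB hl0 hS j hj]
  have h1 : ∏ i ∈ Finset.range j, ∫ x, b i x ∂mu ≤
      ∏ i ∈ Finset.range j, (PS k (tj l0 i) (tj l0 (i + 1)) *
        Real.exp (C0 * Real.exp (-kap K J i / 10))) := by
    refine Finset.prod_le_prod ?_ ?_
    · intro i hi
      exact integral_nonneg (hS i (by have := Finset.mem_range.mp hi; omega)).b_nonneg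
    · intro i hi
      have hi' : i < J := by have := Finset.mem_range.mp hi; omega
      refine (hS i hi').b_le.trans ?_
      refine mul_le_mul_of_nonneg_left ?_ (zero_le_one.trans (one_le_PS hk.le _ _))
      rw [add_comm]
      exact Real.add_one_le_exp _
  refine h1.trans ?_
  rw [Finset.prod_mul_distrib, T15a_prod_PS hl0, ← Real.exp_sum, ← Finset.mul_sum]
  have h2 : C0 * ∑ i ∈ Finset.range j, Real.exp (-kap K J i / 10) ≤ 2 * C0 := by
    have h3 := T15a_sum hK hj
    have h4 : Real.exp (-K / 10) ≤ 1 := Real.exp_le_one_iff.mpr (by linarith)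
    nlinarith
  have h3 : PS k (tj l0 0) (tj l0 j) ≤ C * (l0 * 2 ^ j) ^ (k ^ 2 / 4) := by
    have h4 : PS k (tj l0 0) (tj l0 j) ≤ PS k 1 (tj l0 j) := by
      have h1t : (1 : ℝ) ≤ tj l0 0 := Real.one_le_exp (by positivity)
      rw [← PS_mul k h1t (tj_mono hl0 (Nat.zero_le j))]
      exact le_mul_of_one_le_left (zero_le_one.trans (one_le_PS hk.le _ _)) (one_le_PS hk.le _ _)
    refine h4.trans ?_
    have := h (tj l0 j) (sqrt_two_le_tj hl j)
    rwa [log_tj] at this
  have hpow : 0 ≤ (l0 * 2 ^ j) ^ (k ^ 2 / 4) := Real.rpow_nonneg (by positivity) _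
  calc PS k (tj l0 0) (tj l0 j) * Real.exp (C0 * ∑ i ∈ Finset.range j, Real.exp (-kap K J i / 10))
      ≤ (C * (l0 * 2 ^ j) ^ (k ^ 2 / 4)) * Real.exp (2 * C0) :=
        mul_le_mul h3 (Real.exp_le_exp.mpr h2) (Real.exp_pos _).le (by positivity)
    _ = (Real.exp (2 * C0) * C) * (l0 * 2 ^ j) ^ (k ^ 2 / 4) := by ring
    _ ≤ max 1 (Real.exp (2 * C0) * C) * (l0 * 2 ^ j) ^ (k ^ 2 / 4) :=
        mul_le_mul_of_nonneg_right (le_max_right _ _) hpow

private theorem T15a_rpow_le {k : ℝ} (hk : 0 < k) {r : ℕ} (hr : k ≤ 2 * r) {y : ℝ} (hy : 0 ≤ y) :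
    y ^ k ≤ 1 + y ^ (2 * r) := by
  rcases le_total y 1 with h | h
  · have h1 : y ^ k ≤ 1 := Real.rpow_le_one hy h hk.le
    have h2 : 0 ≤ y ^ (2 * r) := pow_nonneg hy _
    linarith
  · have h1 : y ^ k ≤ y ^ ((2 * r : ℕ) : ℝ) :=
      Real.rpow_le_rpow_of_exponent_le h (by push_cast; exact hr)
    rw [Real.rpow_natCast] at h1
    linarith

theorem scale_product {k : ℝ} (hk : 0 < k) {r : ℕ} (hr : k ≤ 2 * r) {C0 : ℝ} (hC0 : 1 ≤ C0) :
    ∃ C K1 : ℝ, 1 ≤ C ∧ 1 ≤ K1 ∧ ∀ (l0 K : ℝ) (J : ℕ),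
    Real.log 2 / 2 ≤ l0 → l0 ≤ Real.log 2 → K1 ≤ K → ∀ b e : ℕ → Om → ℝ,
    (∀ i < J, ScaleData k C0 (tj l0 i) (tj l0 (i + 1)) (kap K J i) (b i) (e i)) → ∀ j ≤ J,
    (∀ x, |‖Fj l0 K J j x‖ ^ k - BB b j x| ≤ UU r l0 K J b e j x) ∧
    ∫ x, BB b j x ∂mu ≤ C * (l0 * 2 ^ j) ^ (k ^ 2 / 4) ∧
    ∫ x, UU r l0 K J b e j x ∂mu ≤ C * Real.exp (-K / 10) * (l0 * 2 ^ j) ^ (k ^ 2 / 4) := by
  obtain ⟨CB, hCB, hB⟩ := T15a_BB_le hk hC0
  obtain ⟨Cm, hCm, hm⟩ := psi_moment r
  set D : ℝ := 2 * C0 * CB with hD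
  have hD2 : 2 ≤ D := by rw [hD]; nlinarith
  set K1 : ℝ := max 20 (20 * Real.log (2 * (1 + Cm))) with hK1
  refine ⟨max CB D, K1, le_max_of_le_left hCB, le_max_of_le_left (by norm_num), ?_⟩
  intro l0 K J hl _ hK b e hS
  have hK20 : 20 ≤ K := (le_max_left _ _).trans hK
  have hK0 : 0 ≤ K := by linarith
  have hKm : (1 + Cm) * Real.exp (-K / 20) ≤ 1 / 2 := by
    have h1 : 20 * Real.log (2 * (1 + Cm)) ≤ K := (le_max_right _ _).trans hK
    have h2 : Real.exp (-K / 20) ≤ Real.exp (-Real.log (2 * (1 + Cm))) :=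
      Real.exp_le_exp.mpr (by linarith)
    rw [Real.exp_neg, Real.exp_log (by positivity)] at h2
    calc (1 + Cm) * Real.exp (-K / 20) ≤ (1 + Cm) * (2 * (1 + Cm))⁻¹ :=
          mul_le_mul_of_nonneg_left h2 (by positivity)
      _ = 1 / 2 := by field_simp
  have hlog2 : 0 < Real.log 2 := Real.log_pos (by norm_num)
  have hl00 : 0 < l0 := lt_of_lt_of_le (by positivity) hl
  have hl0 : 0 ≤ l0 := hl00.le
  have hbc : ∀ i < J, Continuous (b i) := fun i hi => (hS i hi).b_poly.continuous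
  have hec : ∀ i < J, Continuous (e i) := fun i hi => (hS i hi).e_poly.continuous
  -- pointwise
  have hpt : ∀ j ≤ J, ∀ x, |‖Fj l0 K J j x‖ ^ k - BB b j x| ≤ UU r l0 K J b e j x := by
    intro j
    induction j with
    | zero =>
      intro _ x
      simp [Fj, BB, UU]
    | succ j ih =>
      intro hj x
      have ih' := ih (by omega) x
      have hF : Fj l0 K J (j + 1) x = Fj l0 K J j x * psi l0 K J j x := by
        simp only [Fj, Finset.prod_range_succ]
      have hBB : BB b (j + 1) x = BB b j x * b j x := by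
        simp only [BB, Finset.prod_range_succ]
      have hUU : UU r l0 K J b e (j + 1) x =
          (1 + ‖psi l0 K J j x‖ ^ (2 * r)) * UU r l0 K J b e j x + e j x * BB b j x := rfl
      have happ : |‖psi l0 K J j x‖ ^ k - b j x| ≤ e j x := by
        have := (hS j (by omega)).approx x
        rw [log_tj] at this
        exact this
      have hBn : 0 ≤ BB b j x := BB_nonneg (fun i hi => (hS i (by omega)).b_nonneg) x
      rw [hF, hBB, hUU, norm_mul, Real.mul_rpow (norm_nonneg _) (norm_nonneg _)]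
      set X := ‖Fj l0 K J j x‖ ^ k
      set Y := ‖psi l0 K J j x‖ ^ k with hY
      have hY0 : 0 ≤ Y := Real.rpow_nonneg (norm_nonneg _) _
      have hY1 : Y ≤ 1 + ‖psi l0 K J j x‖ ^ (2 * r) := T15a_rpow_le hk hr (norm_nonneg _)
      have e1 : X * Y - BB b j x * b j x = (X - BB b j x) * Y + BB b j x * (Y - b j x) := by ring
      rw [e1]
      refine (abs_add_le _ _).trans ?_
      rw [abs_mul, abs_mul, abs_of_nonneg hY0, abs_of_nonneg hBn]
      have hU0 : 0 ≤ UU r l0 K J b e j x := (abs_nonneg _).trans ih'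
      have g1 : |X - BB b j x| * Y ≤ (1 + ‖psi l0 K J j x‖ ^ (2 * r)) * UU r l0 K J b e j x := by
        rw [mul_comm (1 + _)]
        exact mul_le_mul ih' hY1 hY0 hU0
      have g2 : BB b j x * |Y - b j x| ≤ e j x * BB b j x := by
        rw [mul_comm (e j x)]
        exact mul_le_mul_of_nonneg_left happ hBn
      linarith
  -- the recursion for the means
  have hrec : ∀ j < J, ∫ x, UU r l0 K J b e (j + 1) x ∂mu ≤
      (1 + Cm) * ∫ x, UU r l0 K J b e j x ∂mu +
        C0 * Real.exp (-kap K J j / 10) * (CB * (l0 * 2 ^ j) ^ (k ^ 2 / 4)) := by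
    intro j hj
    have hUc : Continuous (UU r l0 K J b e j) :=
      continuous_UU (fun i hi => hbc i (by omega)) (fun i hi => hec i (by omega))
    have hBc : Continuous (BB b j) := continuous_BB fun i hi => hbc i (by omega)
    have hpc : Continuous (fun x => ‖psi l0 K J j x‖ ^ (2 * r)) :=
      (continuous_psi.norm).pow _
    have hUd : DependsOn (UU r l0 K J b e j) (coo 1 (tj l0 j)) :=
      dependsOn_UU hl0 (fun i hi => (hS i (by omega)).b_dep) (fun i hi => (hS i (by omega)).e_dep)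
    have hBd : DependsOn (BB b j) (coo 1 (tj l0 j)) :=
      dependsOn_BB hl0 fun i hi => (hS i (by omega)).b_dep
    have hpd : DependsOn (fun x => ‖psi l0 K J j x‖ ^ (2 * r)) (coo (tj l0 j) (tj l0 (j + 1))) := by
      intro x y hxy
      have := (dependsOn_psi (l0 := l0) (K := K) (J := J) (j := j)) hxy
      simp only [this]
    have hUn : 0 ≤ ∫ x, UU r l0 K J b e j x ∂mu :=
      integral_nonneg (UU_nonneg (fun i hi => (hS i (by omega)).b_nonneg)
        (fun i hi => (hS i (by omega)).e_nonneg))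
    have hBn : 0 ≤ ∫ x, BB b j x ∂mu :=
      integral_nonneg (BB_nonneg fun i hi => (hS i (by omega)).b_nonneg)
    have e1 : ∫ x, UU r l0 K J b e (j + 1) x ∂mu =
        ∫ x, UU r l0 K J b e j x ∂mu +
          ∫ x, UU r l0 K J b e j x * ‖psi l0 K J j x‖ ^ (2 * r) ∂mu +
          ∫ x, BB b j x * e j x ∂mu := by
      have i1 : Integrable (fun x => UU r l0 K J b e j x) mu := integrable_of_continuous hUc
      have i2 : Integrable (fun x => UU r l0 K J b e j x * ‖psi l0 K J j x‖ ^ (2 * r)) mu :=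
        integrable_of_continuous (hUc.mul hpc)
      have i3 : Integrable (fun x => BB b j x * e j x) mu :=
        integrable_of_continuous (hBc.mul (hec j hj))
      have i12 : Integrable (fun x => UU r l0 K J b e j x +
          UU r l0 K J b e j x * ‖psi l0 K J j x‖ ^ (2 * r)) mu := i1.add i2
      rw [← integral_add i1 i2, ← integral_add i12 i3]
      refine integral_congr_ae (Eventually.of_forall fun x => ?_)
      simp only [UU]
      ring
    rw [e1, integral_mul_indep hUc hpc hUd hpd (coo_disjoint le_rfl),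
      integral_mul_indep hBc (hec j hj) hBd (hS j hj).e_dep (coo_disjoint le_rfl)]
    have g1 : ∫ x, ‖psi l0 K J j x‖ ^ (2 * r) ∂mu ≤ Cm := by
      refine hm (tj l0 j) (tj l0 (j + 1)) _ (sqrt_two_le_tj hl j) (tj_mono hl0 (Nat.le_succ j)) ?_
      rw [log_tj, log_tj, pow_succ]
      linarith
    have g2 := (hS j hj).e_le
    have g3 := hB l0 K J hl hK20 b e hS j hj.le
    have g4 : (∫ x, BB b j x ∂mu) * ∫ x, e j x ∂mu ≤
        (CB * (l0 * 2 ^ j) ^ (k ^ 2 / 4)) * (C0 * Real.exp (-kap K J j / 10)) := by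
      have hen : 0 ≤ ∫ x, e j x ∂mu := integral_nonneg (hS j hj).e_nonneg
      exact mul_le_mul g3 g2 hen (hBn.trans g3)
    have g5 : (∫ x, UU r l0 K J b e j x ∂mu) * ∫ x, ‖psi l0 K J j x‖ ^ (2 * r) ∂mu ≤
        (∫ x, UU r l0 K J b e j x ∂mu) * Cm := mul_le_mul_of_nonneg_left g1 hUn
    linarith
  -- the induction
  have hmain : ∀ j, j + 1 ≤ J → ∫ x, UU r l0 K J b e (j + 1) x ∂mu ≤
      D * Real.exp (-kap K J j / 10) * (l0 * 2 ^ (j + 1)) ^ (k ^ 2 / 4) := by
    have hpw : ∀ j : ℕ, (l0 * 2 ^ j) ^ (k ^ 2 / 4) ≤ (l0 * 2 ^ (j + 1)) ^ (k ^ 2 / 4) := by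
      intro j
      refine Real.rpow_le_rpow (by positivity) ?_ (by positivity)
      exact mul_le_mul_of_nonneg_left (pow_le_pow_right₀ (by norm_num) (Nat.le_succ j)) hl0
    intro j
    induction j with
    | zero =>
      intro hj
      have h1 := hrec 0 (by omega)
      have h2 : ∫ x, UU r l0 K J b e 0 x ∂mu = 0 := by simp [UU]
      rw [h2, mul_zero] at h1
      refine h1.trans ?_
      have h3 := hpw 0
      have h4 : 0 ≤ (l0 * 2 ^ 0) ^ (k ^ 2 / 4) := Real.rpow_nonneg (by positivity) _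
      have h5 : 0 < Real.exp (-kap K J 0 / 10) := Real.exp_pos _
      calc 0 + C0 * Real.exp (-kap K J 0 / 10) * (CB * (l0 * 2 ^ 0) ^ (k ^ 2 / 4))
          = (C0 * CB) * Real.exp (-kap K J 0 / 10) * (l0 * 2 ^ 0) ^ (k ^ 2 / 4) := by ring
        _ ≤ D * Real.exp (-kap K J 0 / 10) * (l0 * 2 ^ (0 + 1)) ^ (k ^ 2 / 4) := by
          refine mul_le_mul ?_ h3 h4 (by positivity)
          refine mul_le_mul_of_nonneg_right ?_ h5.le
          rw [hD]
          nlinarith [mul_pos (show 0 < C0 by linarith) (show 0 < CB by linarith)]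
    | succ j ih =>
      intro hj
      have h1 := hrec (j + 1) (by omega)
      have h2 := ih (by omega)
      refine h1.trans ?_
      have hkap : kap K J j = 3 / 2 * kap K J (j + 1) := by
        unfold kap
        have : J - 1 - j = (J - 1 - (j + 1)) + 1 := by omega
        rw [this, pow_succ]
        ring
      have hk1 : K ≤ kap K J (j + 1) := T15a_kap_ge hK0 J (j + 1)
      set κ := kap K J (j + 1) with hκ
      set P := (l0 * 2 ^ (j + 1)) ^ (k ^ 2 / 4) with hP
      have hP0 : 0 ≤ P := Real.rpow_nonneg (by positivity) _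
      have hP1 := hpw (j + 1)
      rw [← hP] at hP1
      have hE : 0 < Real.exp (-κ / 10) := Real.exp_pos _
      have h3 : Real.exp (-kap K J j / 10) ≤ Real.exp (-κ / 10) * Real.exp (-K / 20) := by
        rw [← Real.exp_add, hkap]
        refine Real.exp_le_exp.mpr ?_
        linarith
      have h4 : (1 + Cm) * ∫ x, UU r l0 K J b e (j + 1) x ∂mu ≤
          (D / 2) * Real.exp (-κ / 10) * P := by
        calc (1 + Cm) * ∫ x, UU r l0 K J b e (j + 1) x ∂mu
            ≤ (1 + Cm) * (D * Real.exp (-kap K J j / 10) * P) :=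
              mul_le_mul_of_nonneg_left h2 (by linarith)
          _ ≤ (1 + Cm) * (D * (Real.exp (-κ / 10) * Real.exp (-K / 20)) * P) := by
              refine mul_le_mul_of_nonneg_left ?_ (by linarith)
              refine mul_le_mul_of_nonneg_right ?_ hP0
              exact mul_le_mul_of_nonneg_left h3 (by linarith)
          _ = ((1 + Cm) * Real.exp (-K / 20)) * (D * Real.exp (-κ / 10) * P) := by ring
          _ ≤ (1 / 2) * (D * Real.exp (-κ / 10) * P) :=
              mul_le_mul_of_nonneg_right hKm (by positivity)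
          _ = (D / 2) * Real.exp (-κ / 10) * P := by ring
      have h5 : C0 * Real.exp (-κ / 10) * (CB * P) = (D / 2) * Real.exp (-κ / 10) * P := by
        rw [hD]; ring
      rw [h5]
      calc (1 + Cm) * ∫ x, UU r l0 K J b e (j + 1) x ∂mu + (D / 2) * Real.exp (-κ / 10) * P
          ≤ (D / 2) * Real.exp (-κ / 10) * P + (D / 2) * Real.exp (-κ / 10) * P := by linarith
        _ = D * Real.exp (-κ / 10) * P := by ring
        _ ≤ D * Real.exp (-κ / 10) * (l0 * 2 ^ (j + 1 + 1)) ^ (k ^ 2 / 4) :=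
            mul_le_mul_of_nonneg_left hP1 (by positivity)
  intro j hj
  have hPn : 0 ≤ (l0 * 2 ^ j) ^ (k ^ 2 / 4) := Real.rpow_nonneg (by positivity) _
  refine ⟨hpt j hj, ?_, ?_⟩
  · exact (hB l0 K J hl hK20 b e hS j hj).trans
      (mul_le_mul_of_nonneg_right (le_max_left _ _) hPn)
  · rcases Nat.eq_zero_or_pos j with h | h
    · subst h
      have h2 : ∫ x, UU r l0 K J b e 0 x ∂mu = 0 := by simp [UU]
      rw [h2]
      have : 0 ≤ max CB D := le_max_of_le_left (by linarith)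
      positivity
    · obtain ⟨i, rfl⟩ : ∃ i, j = i + 1 := ⟨j - 1, by omega⟩
      refine (hmain i hj).trans ?_
      refine mul_le_mul_of_nonneg_right ?_ hPn
      refine mul_le_mul (le_max_right _ _) ?_ (Real.exp_pos _).le (le_max_of_le_left (by linarith))
      refine Real.exp_le_exp.mpr ?_
      have := T15a_kap_ge hK0 J i
      linarith

end Pool.Agent.LibMM99
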