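import Mathlib
import Pool.Agent.LibMM99.Scales

set_option autoImplicit false

namespace Pool.Agent.LibMM99

open MeasureTheory Filter Topology
open scoped ComplexConjugate

/-- what the argument needs of a weight -/
structure GoodWeight (w : ℝ → ℂ) (Λ : ℝ) (r : ℕ) (CE : ℝ) : Prop where
  one_le : 1 ≤ Λ
  zero : w 0 = 1
  bdd : ∀ u, 0 ≤ u → ‖w u‖ ≤ Λ
  emom : ∀ (l0 K V L : ℝ) (J j : ℕ), Real.log 2 / 2 ≤ l0 → 1 ≤ K → j < J → l0 * 2 ^ (j + 1) ≤ V → V ≤ L →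
    Real.exp (-(kap K J j) / 5) ≤ l0 * 2 ^ (j + 1) / L →
    ∫ x, ‖Ej w l0 K V L J j x‖ ^ (2 * r) ∂mu ≤
      (CE * (V / L) * (V / (l0 * 2 ^ (j + 1))) ^ (r - 1 : ℝ)) ^ r

end Pool.Agent.LibMM99
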