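import Mathlib
import Pool.Agent.LibMM99.T05
import Pool.Agent.LibMM99.T11

set_option autoImplicit false

namespace Pool.Agent.LibMM99

open MeasureTheory Filter Topology
open scoped ComplexConjugate

theorem t16_mem_smo {u v X : ℝ} (hX : 0 ≤ X) {n : ℕ} : n ∈ smo u v X ↔
    1 ≤ n ∧ (n : ℝ) ≤ X ∧ ∀ p ∈ n.primeFactors, u < (p : ℝ) ∧ (p : ℝ) ≤ v := by
  unfold smo
  rw [Finset.mem_filter, Finset.mem_Icc, Nat.le_floor_iff hX, and_assoc]

theorem t16_norm_w {w : ℝ → ℂ} {Λ : ℝ} (hw : IsWeight w Λ) {u : ℝ} (hu : 0 ≤ u) : ‖w u‖ ≤ Λ := by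
  rcases le_or_gt 1 u with h | h
  · rw [hw.supp u h, norm_zero]; linarith [hw.one_le]
  · have h1 := hw.lip u 1 hu zero_le_one
    rw [hw.supp 1 le_rfl, sub_zero] at h1
    refine h1.trans ?_
    have h2 : |u - 1| ≤ 1 := by rw [abs_le]; constructor <;> linarith
    nlinarith [hw.one_le, abs_nonneg (u - 1)]

/-- splitting a number at a threshold -/
theorem t16_split {u w v : ℝ} (n : ℕ) (hn : n ≠ 0)
    (h : ∀ p ∈ n.primeFactors, u < (p : ℝ) ∧ (p : ℝ) ≤ v) :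
    ∃ c m : ℕ, n = c * m ∧ (∀ p ∈ c.primeFactors, u < (p : ℝ) ∧ (p : ℝ) ≤ w) ∧
      (∀ p ∈ m.primeFactors, w < (p : ℝ) ∧ (p : ℝ) ≤ v) := by
  induction n using induction_on_primes with
  | zero => exact absurd rfl hn
  | one => exact ⟨1, 1, rfl, by simp, by simp⟩
  | prime_mul p a hp ih =>
    have ha : a ≠ 0 := by rintro rfl; simp at hn
    have hpf : (p * a).primeFactors = insert p a.primeFactors := by
      rw [Nat.primeFactors_mul hp.ne_zero ha, hp.primeFactors]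
      rfl
    rw [hpf] at h
    obtain ⟨c, m, hcm, hc, hm⟩ := ih ha (fun q hq => h q (Finset.mem_insert_of_mem hq))
    have hpuv := h p (Finset.mem_insert_self _ _)
    have hc0 : c ≠ 0 := by rintro rfl; simp at hcm; exact ha hcm
    have hm0 : m ≠ 0 := by rintro rfl; simp at hcm; exact ha hcm
    rcases le_or_gt (p : ℝ) w with hpw | hpw
    · refine ⟨p * c, m, by rw [hcm]; ring, ?_, hm⟩
      intro q hq
      rw [Nat.primeFactors_mul hp.ne_zero hc0, hp.primeFactors, Finset.mem_union,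
        Finset.mem_singleton] at hq
      rcases hq with rfl | hq
      · exact ⟨hpuv.1, hpw⟩
      · exact hc q hq
    · refine ⟨c, p * m, by rw [hcm]; ring, hc, ?_⟩
      intro q hq
      rw [Nat.primeFactors_mul hp.ne_zero hm0, hp.primeFactors, Finset.mem_union,
        Finset.mem_singleton] at hq
      rcases hq with rfl | hq
      · exact ⟨hpw, hpuv.2⟩
      · exact hm q hq

theorem t16_coprime {u w v : ℝ} {c m : ℕ} (hc0 : c ≠ 0) (hm0 : m ≠ 0)
    (hc : ∀ p ∈ c.primeFactors, u < (p : ℝ) ∧ (p : ℝ) ≤ w)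
    (hm : ∀ p ∈ m.primeFactors, w < (p : ℝ) ∧ (p : ℝ) ≤ v) : Nat.Coprime c m := by
  apply Nat.Coprime.symm
  rw [Nat.coprime_iff_gcd_eq_one]
  by_contra hg
  obtain ⟨p, hp, hpd⟩ := Nat.exists_prime_and_dvd hg
  have h1 := hc p (Nat.mem_primeFactors.2 ⟨hp, hpd.trans (Nat.gcd_dvd_right _ _), hc0⟩)
  have h2 := hm p (Nat.mem_primeFactors.2 ⟨hp, hpd.trans (Nat.gcd_dvd_left _ _), hm0⟩)
  linarith [h1.2, h2.1]

/-- the index set of pairs -/
noncomputable def t16_s (u w v Y Z : ℝ) : Finset (ℕ × ℕ) := smo u w Y ×ˢ smo w v Z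

theorem t16_inj {u w v Y Z : ℝ} (hY : 0 ≤ Y) (hZ : 0 ≤ Z) :
    Set.InjOn (fun q : ℕ × ℕ => q.1 * q.2) (t16_s u w v Y Z : Set (ℕ × ℕ)) := by
  rintro ⟨c, m⟩ h ⟨c', m'⟩ h' heq
  unfold t16_s at h h'
  rw [Finset.mem_coe, Finset.mem_product, t16_mem_smo hY, t16_mem_smo hZ] at h h'
  obtain ⟨⟨hc1, -, hc⟩, ⟨hm1, -, hm⟩⟩ := h
  obtain ⟨⟨hc1', -, hc'⟩, ⟨hm1', -, hm'⟩⟩ := h'
  simp only at heq hc1 hm1 hc1' hm1' hc hm hc' hm'
  have e1 : Nat.Coprime c m' := t16_coprime (by omega) (by omega) hc hm'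
  have e2 : Nat.Coprime c' m := t16_coprime (by omega) (by omega) hc' hm
  have d1 : c ∣ c' := e1.dvd_of_dvd_mul_right (heq ▸ dvd_mul_right c m)
  have d2 : c' ∣ c := e2.dvd_of_dvd_mul_right (heq ▸ dvd_mul_right c' m')
  have hcc : c = c' := Nat.dvd_antisymm d1 d2
  subst hcc
  have hmm : m = m' := Nat.eq_of_mul_eq_mul_left (by omega) heq
  rw [hmm]

theorem t16_image {u w v Y Z : ℝ} (hYZ : Z ≤ Y) (hZ : 0 ≤ Z) (huw : u ≤ w) (hwv : w ≤ v) :
    smo u v Z = ((t16_s u w v Y Z).filter (fun q => ((q.1 * q.2 : ℕ) : ℝ) ≤ Z)).image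
      (fun q => q.1 * q.2) := by
  classical
  ext n
  rw [t16_mem_smo hZ, Finset.mem_image]
  constructor
  · rintro ⟨h1, h2, h3⟩
    obtain ⟨c, m, hcm, hc, hm⟩ := t16_split (w := w) n (by omega) h3
    have hc0 : c ≠ 0 := by rintro rfl; simp at hcm; omega
    have hm0 : m ≠ 0 := by rintro rfl; simp at hcm; omega
    refine ⟨(c, m), ?_, hcm.symm⟩
    rw [Finset.mem_filter]
    unfold t16_s
    rw [Finset.mem_product, t16_mem_smo (hZ.trans hYZ), t16_mem_smo hZ]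
    have hcn : (c : ℝ) ≤ n := by
      exact_mod_cast Nat.le_of_dvd h1 ⟨m, hcm⟩
    have hmn : (m : ℝ) ≤ n := by
      exact_mod_cast Nat.le_of_dvd h1 ⟨c, by rw [hcm, mul_comm]⟩
    refine ⟨⟨⟨Nat.one_le_iff_ne_zero.2 hc0, ?_, hc⟩, ⟨Nat.one_le_iff_ne_zero.2 hm0, ?_, hm⟩⟩, ?_⟩
    · linarith
    · linarith
    · simp only
      rw [← hcm]; exact h2
  · rintro ⟨⟨c, m⟩, h, rfl⟩
    rw [Finset.mem_filter] at h
    unfold t16_s at h
    rw [Finset.mem_product, t16_mem_smo (hZ.trans hYZ), t16_mem_smo hZ] at h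
    obtain ⟨⟨⟨hc1, -, hc⟩, ⟨hm1, -, hm⟩⟩, hle⟩ := h
    simp only at hc1 hm1 hc hm hle
    refine ⟨Nat.mul_pos hc1 hm1, hle, ?_⟩
    intro p hp
    rw [Nat.primeFactors_mul (by omega) (by omega), Finset.mem_union] at hp
    rcases hp with hp | hp
    · exact ⟨(hc p hp).1, (hc p hp).2.trans hwv⟩
    · exact ⟨lt_of_le_of_lt huw (hm p hp).1, (hm p hp).2⟩

/-- the term of a pair -/
noncomputable def t16_f (x : Om) (n : ℕ) : ℂ := (((Real.sqrt n)⁻¹ : ℝ) : ℂ) * ch x n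

theorem t16_f_mul (x : Om) {c m : ℕ} (hc : c ≠ 0) (hm : m ≠ 0) :
    t16_f x (c * m) = t16_f x c * t16_f x m := by
  unfold t16_f
  rw [ch_mul x hc hm, Nat.cast_mul, Real.sqrt_mul (Nat.cast_nonneg c), mul_inv]
  push_cast
  ring

theorem t16_DS (s : Finset ℕ) (a : ℕ → ℂ) (x : Om) : DS s a x = ∑ n ∈ s, a n * t16_f x n := by
  unfold DS t16_f
  exact Finset.sum_congr rfl fun n _ => by ring

/-- the coefficients of the error -/
noncomputable def t16_a (w : ℝ → ℂ) (L X : ℝ) (q : ℕ × ℕ) : ℂ :=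
  (if (q.1 : ℝ) ≤ X then w (Real.log q.2 / L) else 0) - w (Real.log ((q.1 * q.2 : ℕ) : ℝ) / L)

theorem t16_expand {u t v X L : ℝ} {w : ℝ → ℂ} {Λ : ℝ} (hw : IsWeight w Λ) (hL : 0 < L)
    (hX : 0 ≤ X) (hut : u ≤ t) (htv : t ≤ v) (x : Om) :
    DS (smo u t X) (fun _ => 1) x * DS (smo t v (Real.exp L)) (fun n => w (Real.log n / L)) x -
      DS (smo u v (Real.exp L)) (fun n => w (Real.log n / L)) x =
    ∑ q ∈ t16_s u t v (max X (Real.exp L)) (Real.exp L),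
      t16_a w L X q * (((Real.sqrt ((q.1 * q.2 : ℕ) : ℝ))⁻¹ : ℝ) : ℂ) * ch x (q.1 * q.2) := by
  classical
  have hE : 0 ≤ Real.exp L := (Real.exp_pos L).le
  set Y := max X (Real.exp L) with hY
  have hY0 : 0 ≤ Y := hX.trans (le_max_left _ _)
  set s := t16_s u t v Y (Real.exp L) with hs
  have hs0 : ∀ q ∈ s, q.1 ≠ 0 ∧ q.2 ≠ 0 := by
    intro q hq
    rw [hs] at hq
    unfold t16_s at hq
    rw [Finset.mem_product, t16_mem_smo hY0, t16_mem_smo hE] at hq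
    obtain ⟨⟨h1, -⟩, ⟨h2, -⟩⟩ := hq
    exact ⟨by omega, by omega⟩
  have h1 : DS (smo u t X) (fun _ => 1) x *
      DS (smo t v (Real.exp L)) (fun n => w (Real.log n / L)) x =
      ∑ q ∈ s, (if (q.1 : ℝ) ≤ X then w (Real.log q.2 / L) else 0) * t16_f x (q.1 * q.2) := by
    rw [t16_DS, t16_DS]
    have h2 : smo u t X = (smo u t Y).filter (fun c : ℕ => (c : ℝ) ≤ X) := by
      ext c
      rw [Finset.mem_filter, t16_mem_smo hX, t16_mem_smo hY0]
      constructor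
      · rintro ⟨a1, a2, a3⟩
        exact ⟨⟨a1, a2.trans (le_max_left _ _), a3⟩, a2⟩
      · rintro ⟨⟨a1, -, a3⟩, a2⟩
        exact ⟨a1, a2, a3⟩
    rw [h2, Finset.sum_filter, Finset.sum_mul_sum, hs]
    unfold t16_s
    rw [Finset.sum_product]
    refine Finset.sum_congr rfl fun c hc => Finset.sum_congr rfl fun m hm => ?_
    have hq := hs0 (c, m) (by rw [hs]; exact Finset.mem_product.2 ⟨hc, hm⟩)
    simp only at hq ⊢
    rw [t16_f_mul x hq.1 hq.2]
    split_ifs <;> ring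
  have h3 : DS (smo u v (Real.exp L)) (fun n => w (Real.log n / L)) x =
      ∑ q ∈ s, w (Real.log ((q.1 * q.2 : ℕ) : ℝ) / L) * t16_f x (q.1 * q.2) := by
    rw [t16_DS, t16_image (Y := Y) (le_max_right _ _) hE hut htv, Finset.sum_image]
    · rw [← hs, Finset.sum_filter]
      refine Finset.sum_congr rfl fun q hq => ?_
      split_ifs with h
      · rfl
      · have hq0 := hs0 q hq
        have hpos : (0 : ℝ) < ((q.1 * q.2 : ℕ) : ℝ) := by
          exact_mod_cast Nat.pos_of_ne_zero (mul_ne_zero hq0.1 hq0.2)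
        rw [hw.supp _ ?_, zero_mul]
        rw [one_le_div hL, Real.le_log_iff_exp_le hpos]
        exact (not_le.1 h).le
    · exact (t16_inj hY0 hE).mono (Finset.coe_subset.2 (Finset.filter_subset _ _))
  rw [h1, h3, ← Finset.sum_sub_distrib]
  refine Finset.sum_congr rfl fun q _ => ?_
  unfold t16_a t16_f
  ring

theorem t16_norm_a {w : ℝ → ℂ} {Λ : ℝ} (hw : IsWeight w Λ) {L : ℝ} (hL : 0 < L) (X : ℝ)
    (q : ℕ × ℕ) (h1 : q.1 ≠ 0) (h2 : q.2 ≠ 0) :
    ‖t16_a w L X q‖ ≤ 2 * Λ ∧ ‖t16_a w L X q‖ ≤ Λ / L * Real.log q.1 +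
      (if X < (q.1 : ℝ) then Λ else 0) := by
  have hΛ : 0 < Λ := by linarith [hw.one_le]
  have n1 := t16_norm_w hw (u := Real.log q.2 / L) (div_nonneg (Real.log_natCast_nonneg _) hL.le)
  have n2 := t16_norm_w hw (u := Real.log ((q.1 * q.2 : ℕ) : ℝ) / L)
    (div_nonneg (Real.log_natCast_nonneg _) hL.le)
  have l1 : 0 ≤ Real.log q.1 := Real.log_natCast_nonneg _
  have l2 : 0 ≤ Real.log q.2 := Real.log_natCast_nonneg _
  have hlog : Real.log ((q.1 * q.2 : ℕ) : ℝ) = Real.log q.1 + Real.log q.2 := by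
    rw [Nat.cast_mul, Real.log_mul (by exact_mod_cast h1) (by exact_mod_cast h2)]
  unfold t16_a
  rcases le_or_gt (q.1 : ℝ) X with h | h
  · rw [if_pos h, if_neg (not_lt.2 h), add_zero]
    constructor
    · exact (norm_sub_le _ _).trans (by linarith)
    · have h3 := hw.lip (Real.log q.2 / L) (Real.log ((q.1 * q.2 : ℕ) : ℝ) / L)
        (div_nonneg l2 hL.le) (div_nonneg (Real.log_natCast_nonneg _) hL.le)
      refine h3.trans (le_of_eq ?_)
      rw [hlog]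
      have h4 : Real.log q.2 / L - (Real.log q.1 + Real.log q.2) / L = -(Real.log q.1 / L) := by
        ring
      rw [h4, abs_neg, abs_of_nonneg (div_nonneg l1 hL.le)]
      ring
  · rw [if_neg (not_le.2 h), if_pos h, zero_sub, norm_neg]
    constructor
    · linarith
    · have : 0 ≤ Λ / L * Real.log q.1 := by positivity
      linarith

theorem E_moment (r : ℕ) (Λ : ℝ) : ∃ C : ℝ, 1 ≤ C ∧ ∀ (w : ℝ → ℂ), IsWeight w Λ → ∀ (l0 K V L : ℝ) (J j : ℕ),
    Real.log 2 / 2 ≤ l0 → 1 ≤ K → j < J → l0 * 2 ^ (j + 1) ≤ V → V ≤ L →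
    Real.exp (-(kap K J j) / 5) ≤ l0 * 2 ^ (j + 1) / L →
    ∫ x, ‖Ej w l0 K V L J j x‖ ^ (2 * r) ∂mu ≤
      (C * (V / L) * (V / (l0 * 2 ^ (j + 1))) ^ (r - 1 : ℝ)) ^ r := by
  classical
  obtain ⟨C1, hC1, hT10⟩ := sum_smo_tau_le r
  obtain ⟨C2, hC2, hT11a⟩ := sum_smo_tau_tail_le r
  obtain ⟨C3, hC3, hT11b⟩ := sum_smo_log_tau_le r
  set Λ' := max Λ 1 with hΛ'
  have hΛ'1 : 1 ≤ Λ' := le_max_right _ _
  refine ⟨max 1 (2 * Λ' * (C1 * (Λ' * (C3 * 2 ^ r) + Λ' * (C2 * 2 ^ r)))), le_max_left _ _, ?_⟩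
  intro w hw l0 K V L J j hl0 hK hj hV hVL hkap
  have hΛ : Λ = Λ' := by rw [hΛ', max_eq_left hw.one_le]
  rw [← hΛ]
  rw [← hΛ] at hΛ'1
  clear_value Λ'
  subst hΛ
  have hl0pos : 0 < l0 := lt_of_lt_of_le (by have := Real.log_pos (show (1:ℝ) < 2 by norm_num); linarith) hl0
  set a : ℝ := l0 * 2 ^ (j + 1) with ha
  have ha0 : 0 < a := by positivity
  have hV0 : 0 < V := lt_of_lt_of_le ha0 hV
  have hL0 : 0 < L := lt_of_lt_of_le hV0 hVL
  set κ := kap K J j with hκ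
  have hκ0 : 0 ≤ κ := by rw [hκ]; unfold kap; positivity
  set X := Real.exp (κ * a) with hX
  have hX1 : 1 ≤ X := by rw [hX]; exact Real.one_le_exp (by positivity)
  have htj : tj l0 j = Real.exp (l0 * 2 ^ j) := rfl
  have htj1 : tj l0 (j + 1) = Real.exp a := rfl
  have hsq : ∀ i : ℕ, Real.sqrt 2 ≤ tj l0 i := by
    intro i
    have h1 : Real.sqrt 2 = Real.exp (Real.log 2 / 2) := by
      rw [Real.exp_half, Real.exp_log (by norm_num)]
    rw [h1]
    unfold tj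
    apply Real.exp_le_exp.2
    have h2 : (1 : ℝ) ≤ 2 ^ i := one_le_pow₀ (by norm_num)
    nlinarith
  have hjj : tj l0 j ≤ tj l0 (j + 1) := by
    unfold tj
    apply Real.exp_le_exp.2
    have : (2 : ℝ) ^ j ≤ 2 ^ (j + 1) := pow_le_pow_right₀ (by norm_num) (by omega)
    gcongr
  have hjV : tj l0 (j + 1) ≤ Real.exp V := by rw [htj1]; exact Real.exp_le_exp.2 hV
  have hlogr : Real.log (tj l0 (j + 1)) / Real.log (tj l0 j) = 2 := by
    rw [htj1, htj, Real.log_exp, Real.log_exp, ha, pow_succ]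
    field_simp
  have hlog1 : Real.log (tj l0 (j + 1)) = a := by rw [htj1, Real.log_exp]
  -- the three sums
  have s1 : ∑ m ∈ smo (tj l0 (j + 1)) (Real.exp V) (Real.exp L), LibZM.tau (r : ℝ) m / m ≤
      C1 * (V / a) ^ r := by
    have h := hT10 (tj l0 (j + 1)) (Real.exp V) (Real.exp L) 0 (hsq _) hjV le_rfl (by norm_num)
    rw [Real.log_exp, hlog1] at h
    refine le_trans (le_of_eq ?_) h
    refine Finset.sum_congr rfl fun n _ => ?_
    rw [zero_sub, Real.rpow_neg_one, div_eq_mul_inv]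
  set Y := max X (Real.exp L) with hY
  have s2 : ∑ c ∈ smo (tj l0 j) (tj l0 (j + 1)) Y, Real.log c * LibZM.tau (r : ℝ) c / c ≤
      C3 * 2 ^ r * a := by
    have h := hT11b (tj l0 j) (tj l0 (j + 1)) Y (hsq _) hjj
    rw [hlogr, hlog1] at h
    exact h
  have s3 : ∑ c ∈ (smo (tj l0 j) (tj l0 (j + 1)) Y).filter (fun n : ℕ => X < (n : ℝ)),
      LibZM.tau (r : ℝ) c / c ≤ C2 * 2 ^ r * (a / L) := by
    have h := hT11a (tj l0 j) (tj l0 (j + 1)) X Y (hsq _) hjj hX1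
    rw [hlogr, hlog1] at h
    refine h.trans ?_
    have h2 : Real.exp (-(Real.log X) / (5 * a)) = Real.exp (-κ / 5) := by
      rw [hX, Real.log_exp]
      congr 1
      field_simp
    rw [h2]
    gcongr
  have hE0 : 0 ≤ Real.exp L := (Real.exp_pos L).le
  have hX0 : 0 ≤ X := by linarith
  have hY0 : 0 ≤ Y := hX0.trans (le_max_left _ _)
  set s := t16_s (tj l0 j) (tj l0 (j + 1)) (Real.exp V) Y (Real.exp L) with hs
  have hsmem : ∀ q ∈ s, q.1 ∈ smo (tj l0 j) (tj l0 (j + 1)) Y ∧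
      q.2 ∈ smo (tj l0 (j + 1)) (Real.exp V) (Real.exp L) := by
    intro q hq
    rw [hs] at hq
    unfold t16_s at hq
    exact Finset.mem_product.1 hq
  have hs0 : ∀ q ∈ s, q.1 ≠ 0 ∧ q.2 ≠ 0 := by
    intro q hq
    have h := hsmem q hq
    rw [t16_mem_smo hY0, t16_mem_smo hE0] at h
    obtain ⟨⟨h1, -⟩, ⟨h2, -⟩⟩ := h
    exact ⟨by omega, by omega⟩
  have hexp : ∀ x, Ej w l0 K V L J j x = ∑ q ∈ s,
      t16_a w L X q * (((Real.sqrt ((q.1 * q.2 : ℕ) : ℝ))⁻¹ : ℝ) : ℂ) * ch x (q.1 * q.2) := by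
    intro x
    unfold Ej psi AA
    exact t16_expand hw hL0 hX0 hjj hjV x
  simp_rw [hexp]
  refine (moment_le r s (fun q => q.1 * q.2) (t16_a w L X) (2 * Λ)
    (fun q hq => Nat.one_le_iff_ne_zero.2 (mul_ne_zero (hs0 q hq).1 (hs0 q hq).2))
    (t16_inj hY0 hE0) (fun q hq => (t16_norm_a hw hL0 X q (hs0 q hq).1 (hs0 q hq).2).1)).trans ?_
  rw [← mul_pow]
  have htau0 : ∀ n : ℕ, 0 ≤ LibZM.tau (r : ℝ) n := fun n => LibZM.tau_nonneg (Nat.cast_nonneg r) n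
  -- the weighted sum
  have hmain : ∑ q ∈ s, ‖t16_a w L X q‖ * LibZM.tau (r : ℝ) (q.1 * q.2) / ((q.1 * q.2 : ℕ) : ℝ) ≤
      (Λ / L * (C3 * 2 ^ r * a) + Λ * (C2 * 2 ^ r * (a / L))) * (C1 * (V / a) ^ r) := by
    calc ∑ q ∈ s, ‖t16_a w L X q‖ * LibZM.tau (r : ℝ) (q.1 * q.2) / ((q.1 * q.2 : ℕ) : ℝ)
        ≤ ∑ q ∈ s, (Λ / L * Real.log q.1 + (if X < (q.1 : ℝ) then Λ else 0)) *
            (LibZM.tau (r : ℝ) q.1 / q.1) * (LibZM.tau (r : ℝ) q.2 / q.2) := by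
          refine Finset.sum_le_sum fun q hq => ?_
          have h0 := hs0 q hq
          have h := hsmem q hq
          rw [t16_mem_smo hY0, t16_mem_smo hE0] at h
          have hcop : Nat.Coprime q.1 q.2 := t16_coprime h0.1 h0.2 h.1.2.2 h.2.2.2
          rw [(LibZM.tau_isMultiplicative (r : ℝ)).map_mul_of_coprime hcop]
          have hn := (t16_norm_a hw hL0 X q h0.1 h0.2).2
          have t1 := htau0 q.1
          have t2 := htau0 q.2
          have e : ‖t16_a w L X q‖ * (LibZM.tau (r : ℝ) q.1 * LibZM.tau (r : ℝ) q.2) /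
              ((q.1 * q.2 : ℕ) : ℝ) = ‖t16_a w L X q‖ * (LibZM.tau (r : ℝ) q.1 / q.1) *
                (LibZM.tau (r : ℝ) q.2 / q.2) := by
            push_cast
            have a1 : (q.1 : ℝ) ≠ 0 := by exact_mod_cast h0.1
            have a2 : (q.2 : ℝ) ≠ 0 := by exact_mod_cast h0.2
            field_simp
          rw [e]
          gcongr
      _ = (∑ c ∈ smo (tj l0 j) (tj l0 (j + 1)) Y,
            (Λ / L * Real.log c + (if X < (c : ℝ) then Λ else 0)) * (LibZM.tau (r : ℝ) c / c)) *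
            ∑ m ∈ smo (tj l0 (j + 1)) (Real.exp V) (Real.exp L), LibZM.tau (r : ℝ) m / m := by
          rw [Finset.sum_mul_sum, hs]
          unfold t16_s
          rw [Finset.sum_product]
      _ = (Λ / L * (∑ c ∈ smo (tj l0 j) (tj l0 (j + 1)) Y,
              Real.log c * LibZM.tau (r : ℝ) c / c) +
            Λ * ∑ c ∈ (smo (tj l0 j) (tj l0 (j + 1)) Y).filter (fun n : ℕ => X < (n : ℝ)),
              LibZM.tau (r : ℝ) c / c) *
            ∑ m ∈ smo (tj l0 (j + 1)) (Real.exp V) (Real.exp L), LibZM.tau (r : ℝ) m / m := by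
          congr 1
          rw [Finset.mul_sum, Finset.sum_filter, Finset.mul_sum, ← Finset.sum_add_distrib]
          refine Finset.sum_congr rfl fun c _ => ?_
          split_ifs <;> ring
      _ ≤ _ := by
          have p1 : 0 ≤ ∑ m ∈ smo (tj l0 (j + 1)) (Real.exp V) (Real.exp L),
              LibZM.tau (r : ℝ) m / m :=
            Finset.sum_nonneg fun m _ => div_nonneg (htau0 m) (Nat.cast_nonneg m)
          gcongr
  have hsum0 : 0 ≤ ∑ q ∈ s, ‖t16_a w L X q‖ * LibZM.tau (r : ℝ) (q.1 * q.2) /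
      ((q.1 * q.2 : ℕ) : ℝ) :=
    Finset.sum_nonneg fun q _ => div_nonneg (mul_nonneg (norm_nonneg _) (htau0 _))
      (Nat.cast_nonneg _)
  have hΛ0 : 0 < Λ := by linarith
  refine pow_le_pow_left₀ (mul_nonneg (by positivity) hsum0) ?_ r
  have hrp : (V / a) ^ r * (a / L) = (V / L) * (V / a) ^ (r - 1 : ℝ) := by
    have h1 : (V / a) ^ r = (V / a) ^ (r - 1 : ℝ) * (V / a) := by
      have hpos : 0 < V / a := by positivity
      rw [← Real.rpow_natCast, ← Real.rpow_add_one hpos.ne']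
      congr 1
      ring
    rw [h1]
    field_simp
  have hfac : 0 ≤ (V / L) * (V / a) ^ (r - 1 : ℝ) :=
    mul_nonneg (by positivity) (Real.rpow_nonneg (by positivity) _)
  calc 2 * Λ * ∑ q ∈ s, ‖t16_a w L X q‖ * LibZM.tau (r : ℝ) (q.1 * q.2) / ((q.1 * q.2 : ℕ) : ℝ)
      ≤ 2 * Λ * ((Λ / L * (C3 * 2 ^ r * a) + Λ * (C2 * 2 ^ r * (a / L))) * (C1 * (V / a) ^ r)) := by
        gcongr
    _ = 2 * Λ * (C1 * (Λ * (C3 * 2 ^ r) + Λ * (C2 * 2 ^ r))) * ((V / a) ^ r * (a / L)) := by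
        ring
    _ = 2 * Λ * (C1 * (Λ * (C3 * 2 ^ r) + Λ * (C2 * 2 ^ r))) *
          ((V / L) * (V / a) ^ (r - 1 : ℝ)) := by rw [hrp]
    _ ≤ max 1 (2 * Λ * (C1 * (Λ * (C3 * 2 ^ r) + Λ * (C2 * 2 ^ r)))) *
          ((V / L) * (V / a) ^ (r - 1 : ℝ)) := by
        gcongr
        exact le_max_right _ _
    _ = _ := by ring

end Pool.Agent.LibMM99
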