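import Mathlib
import Pool.Agent.LibMM99.T15a
import Pool.Agent.LibMM99.T15c
import Pool.Agent.LibMM99.T16
import Pool.Agent.LibMM99.Good0

set_option autoImplicit false

namespace Pool.Agent.LibMM99

open MeasureTheory Filter Topology
open scoped ComplexConjugate

/-- geometric sums of the distance to the top scale -/
private theorem r17_geom {q : ℝ} (hq0 : 0 ≤ q) (hq1 : q < 1) (J : ℕ) :
    ∑ j ∈ Finset.range J, q ^ (J - j) ≤ (1 - q)⁻¹ := by
  have h1 : ∑ j ∈ Finset.range J, q ^ (J - j) = ∑ j ∈ Finset.range J, q ^ (j + 1) := by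
    rw [← Finset.sum_range_reflect (fun j => q ^ (j + 1)) J]
    apply Finset.sum_congr rfl
    intro j hj
    have := Finset.mem_range.1 hj
    congr 1
    omega
  rw [h1]
  calc ∑ j ∈ Finset.range J, q ^ (j + 1) ≤ ∑ j ∈ Finset.range J, q ^ j := by
        apply Finset.sum_le_sum
        intro j _
        exact pow_le_pow_of_le_one hq0 hq1.le (Nat.le_succ j)
    _ ≤ ∑' j : ℕ, q ^ j := by
        apply Summable.sum_le_tsum _ (fun i _ => pow_nonneg hq0 i)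
        exact summable_geometric_of_lt_one hq0 hq1
    _ = (1 - q)⁻¹ := tsum_geometric_of_lt_one hq0 hq1

/-- weighted power of a sum -/
private theorem r17_power {k s : ℝ} (hk : 0 < k) (hs : 0 < s) : ∃ C : ℝ, 1 ≤ C ∧ ∀ (J : ℕ) (x : ℕ → ℂ),
    ‖∑ j ∈ Finset.range J, x j‖ ^ k ≤ C * ∑ j ∈ Finset.range J, ((2 : ℝ) ^ s) ^ (J - j) * ‖x j‖ ^ k := by
  set q : ℝ := (2 : ℝ) ^ (s / k) with hq
  have hsk : 0 < s / k := div_pos hs hk
  have hq1 : 1 < q := Real.one_lt_rpow (by norm_num) hsk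
  have hq0 : 0 < q := by linarith
  have hqi : q⁻¹ < 1 := inv_lt_one_of_one_lt₀ hq1
  have hqi0 : 0 < q⁻¹ := inv_pos.2 hq0
  have hqk : q ^ k = (2 : ℝ) ^ s := by
    rw [hq, ← Real.rpow_mul (by norm_num)]
    congr 1
    field_simp
  set W : ℝ := (1 - q⁻¹)⁻¹ with hW
  have hW0 : 0 < 1 - q⁻¹ := by linarith
  have hW1 : 1 ≤ W := by
    rw [hW]
    apply (one_le_inv₀ hW0).2
    linarith
  have hWp : 0 < W := by linarith
  refine ⟨W ^ k, Real.one_le_rpow hW1 hk.le, ?_⟩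
  intro J x
  have hnn : 0 ≤ ∑ j ∈ Finset.range J, ((2 : ℝ) ^ s) ^ (J - j) * ‖x j‖ ^ k := by positivity
  set S : ℝ := ∑ j ∈ Finset.range J, ‖x j‖ with hS
  have hS0 : 0 ≤ S := by positivity
  have hle : ‖∑ j ∈ Finset.range J, x j‖ ^ k ≤ S ^ k :=
    Real.rpow_le_rpow (norm_nonneg _) (norm_sum_le _ _) hk.le
  refine hle.trans ?_
  rcases Nat.eq_zero_or_pos J with hJ | hJ
  · subst hJ
    simp only [hS, Finset.range_zero, Finset.sum_empty, mul_zero]
    rw [Real.zero_rpow hk.ne']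
  have hne : (Finset.range J).Nonempty := ⟨0, Finset.mem_range.2 hJ⟩
  obtain ⟨i, hi, hle2⟩ := Finset.exists_le_of_sum_le (f := fun j => (q⁻¹) ^ (J - j) / W * S)
    (g := fun j => ‖x j‖) hne (by
      rw [← Finset.sum_mul, ← Finset.sum_div, ← hS]
      have := r17_geom hqi0.le hqi J
      have h1 : (∑ j ∈ Finset.range J, (q⁻¹) ^ (J - j)) / W ≤ 1 := by
        rw [div_le_one hWp]
        exact this
      nlinarith)
  have hqn : 0 < q ^ (J - i) := pow_pos hq0 _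
  have hS2 : S ≤ W * q ^ (J - i) * ‖x i‖ := by
    have h3 : (q⁻¹) ^ (J - i) / W * S ≤ ‖x i‖ := hle2
    have h4 : (q⁻¹) ^ (J - i) / W * S * (W * q ^ (J - i)) = S := by
      rw [inv_pow]
      field_simp
    calc S = (q⁻¹) ^ (J - i) / W * S * (W * q ^ (J - i)) := h4.symm
      _ ≤ ‖x i‖ * (W * q ^ (J - i)) := by
          apply mul_le_mul_of_nonneg_right h3 (by positivity)
      _ = _ := by ring
  have h5 : S ^ k ≤ W ^ k * (((2 : ℝ) ^ s) ^ (J - i) * ‖x i‖ ^ k) := by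
    calc S ^ k ≤ (W * q ^ (J - i) * ‖x i‖) ^ k := Real.rpow_le_rpow hS0 hS2 hk.le
      _ = W ^ k * (((2 : ℝ) ^ s) ^ (J - i) * ‖x i‖ ^ k) := by
          rw [Real.mul_rpow (by positivity) (norm_nonneg _), Real.mul_rpow hWp.le hqn.le, ← hqk,
            ← Real.rpow_natCast, ← Real.rpow_natCast, ← Real.rpow_mul hq0.le, ← Real.rpow_mul hq0.le,
            mul_comm (((J - i : ℕ) : ℝ)) k, mul_assoc]
  refine h5.trans ?_
  apply mul_le_mul_of_nonneg_left _ (by positivity)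
  exact Finset.single_le_sum (f := fun j => ((2 : ℝ) ^ s) ^ (J - j) * ‖x j‖ ^ k)
    (fun j _ => by positivity) hi

private theorem r17_BB_cont {k C0 l0 K : ℝ} {J : ℕ} {b e : ℕ → Om → ℝ}
    (h : ∀ i < J, ScaleData k C0 (tj l0 i) (tj l0 (i + 1)) (kap K J i) (b i) (e i)) {j : ℕ} (hj : j ≤ J) :
    Continuous (BB b j) := by
  unfold BB
  apply continuous_finsetProd
  intro i hi
  exact (h i (lt_of_lt_of_le (Finset.mem_range.1 hi) hj)).b_poly.continuous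

private theorem r17_psi_cont (l0 K : ℝ) (J j : ℕ) : Continuous (psi l0 K J j) := by
  have := continuous_DS (smo (tj l0 j) (tj l0 (j + 1)) (Real.exp (kap K J j * (l0 * 2 ^ (j + 1))))) (fun _ => 1)
  exact this

private theorem r17_AA_cont (w : ℝ → ℂ) (l0 V L : ℝ) (j : ℕ) : Continuous (AA w l0 V L j) :=
  continuous_DS _ _

private theorem r17_Ej_cont (w : ℝ → ℂ) (l0 K V L : ℝ) (J j : ℕ) : Continuous (Ej w l0 K V L J j) :=
  ((r17_psi_cont l0 K J j).mul (r17_AA_cont w l0 V L (j + 1))).sub (r17_AA_cont w l0 V L j)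

private theorem r17_UU_cont {k C0 l0 K : ℝ} {r J : ℕ} {b e : ℕ → Om → ℝ}
    (h : ∀ i < J, ScaleData k C0 (tj l0 i) (tj l0 (i + 1)) (kap K J i) (b i) (e i)) :
    ∀ j : ℕ, j ≤ J → Continuous (UU r l0 K J b e j) := by
  intro j
  induction j with
  | zero => intro _; exact continuous_const
  | succ j ih =>
    intro hj
    have h1 := ih (by omega)
    have h2 := (h j (by omega)).e_poly.continuous
    have h3 := r17_BB_cont h (j := j) (by omega)
    have h4 := r17_psi_cont l0 K J j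
    show Continuous fun x => (1 + ‖psi l0 K J j x‖ ^ (2 * r)) * UU r l0 K J b e j x + e j x * BB b j x
    exact ((continuous_const.add (h4.norm.pow _)).mul h1).add (h2.mul h3)

private theorem r17_tj_mono {l0 : ℝ} (h0 : 0 ≤ l0) {i j : ℕ} (hij : i ≤ j) : tj l0 i ≤ tj l0 j := by
  unfold tj
  apply Real.exp_le_exp.2
  apply mul_le_mul_of_nonneg_left _ h0
  exact pow_le_pow_right₀ (by norm_num) hij

private theorem r17_psi_dep {l0 K : ℝ} {J j : ℕ} : DependsOn (psi l0 K J j) (coo (tj l0 j) (tj l0 (j + 1))) :=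
  dependsOn_DS_smo _ _ _ _

private theorem r17_dep_mono {α : Type*} {f : Om → α} {S T : Set ℕ} (h : DependsOn f S) (hST : S ⊆ T) :
    DependsOn f T := by
  intro x y hxy
  exact h fun i hi => hxy i (hST hi)

private theorem r17_coo_low {l0 : ℝ} (h0 : 0 ≤ l0) {i j : ℕ} (hij : i < j) :
    coo (tj l0 i) (tj l0 (i + 1)) ⊆ {p : ℕ | (p : ℝ) ≤ tj l0 j} := by
  intro p hp
  exact hp.2.trans (r17_tj_mono h0 hij)

private theorem r17_BB_dep {k C0 l0 K : ℝ} (h0 : 0 ≤ l0) {J : ℕ} {b e : ℕ → Om → ℝ}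
    (h : ∀ i < J, ScaleData k C0 (tj l0 i) (tj l0 (i + 1)) (kap K J i) (b i) (e i)) {j : ℕ} (hj : j ≤ J) :
    DependsOn (BB b j) {p : ℕ | (p : ℝ) ≤ tj l0 j} := by
  intro x y hxy
  unfold BB
  apply Finset.prod_congr rfl
  intro i hi
  have hi' := Finset.mem_range.1 hi
  exact (h i (by omega)).b_dep fun p hp => hxy p (r17_coo_low h0 hi' hp)

private theorem r17_UU_dep {k C0 l0 K : ℝ} (h0 : 0 ≤ l0) {r J : ℕ} {b e : ℕ → Om → ℝ}
    (h : ∀ i < J, ScaleData k C0 (tj l0 i) (tj l0 (i + 1)) (kap K J i) (b i) (e i)) :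
    ∀ j : ℕ, j ≤ J → DependsOn (UU r l0 K J b e j) {p : ℕ | (p : ℝ) ≤ tj l0 j} := by
  intro j
  induction j with
  | zero => intro _ x y _; rfl
  | succ j ih =>
    intro hj x y hxy
    have hmono : {p : ℕ | (p : ℝ) ≤ tj l0 j} ⊆ {p : ℕ | (p : ℝ) ≤ tj l0 (j + 1)} := fun p hp =>
      le_trans hp (r17_tj_mono h0 (Nat.le_succ j))
    have hlow := r17_coo_low h0 (Nat.lt_succ_self j)
    have h1 := r17_dep_mono (ih (by omega)) hmono hxy
    have h2 := r17_dep_mono (h j (by omega)).e_dep hlow hxy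
    have h3 := r17_dep_mono (r17_BB_dep h0 h (j := j) (by omega)) hmono hxy
    have h4 := r17_dep_mono (r17_psi_dep (l0 := l0) (K := K) (J := J) (j := j)) hlow hxy
    show (1 + ‖psi l0 K J j x‖ ^ (2 * r)) * UU r l0 K J b e j x + e j x * BB b j x =
      (1 + ‖psi l0 K J j y‖ ^ (2 * r)) * UU r l0 K J b e j y + e j y * BB b j y
    rw [h1, h2, h3, h4]

private theorem r17_Ej_dep {w : ℝ → ℂ} {l0 K V L : ℝ} (h0 : 0 ≤ l0) {J j : ℕ} :
    DependsOn (Ej w l0 K V L J j) {p : ℕ | tj l0 j < (p : ℝ)} := by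
  intro x y hxy
  have h1 : psi l0 K J j x = psi l0 K J j y :=
    r17_psi_dep fun p hp => hxy p hp.1
  have h2 : AA w l0 V L (j + 1) x = AA w l0 V L (j + 1) y :=
    dependsOn_DS_smo _ _ _ _ fun p hp => hxy p (lt_of_le_of_lt (r17_tj_mono h0 (Nat.le_succ j)) hp.1)
  have h3 : AA w l0 V L j x = AA w l0 V L j y :=
    dependsOn_DS_smo _ _ _ _ fun p hp => hxy p hp.1
  unfold Ej
  rw [h1, h2, h3]

private theorem r17_BB_nonneg {k C0 l0 K : ℝ} {J : ℕ} {b e : ℕ → Om → ℝ}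
    (h : ∀ i < J, ScaleData k C0 (tj l0 i) (tj l0 (i + 1)) (kap K J i) (b i) (e i)) {j : ℕ} (hj : j ≤ J) (x : Om) :
    0 ≤ BB b j x := by
  unfold BB
  apply Finset.prod_nonneg
  intro i hi
  exact (h i (lt_of_lt_of_le (Finset.mem_range.1 hi) hj)).b_nonneg x

private theorem r17_UU_nonneg {k C0 l0 K : ℝ} {r J : ℕ} {b e : ℕ → Om → ℝ}
    (h : ∀ i < J, ScaleData k C0 (tj l0 i) (tj l0 (i + 1)) (kap K J i) (b i) (e i)) :
    ∀ j : ℕ, j ≤ J → ∀ x, 0 ≤ UU r l0 K J b e j x := by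
  intro j
  induction j with
  | zero => intro _ x; exact le_refl _
  | succ j ih =>
    intro hj x
    have h1 := ih (by omega) x
    have h2 := (h j (by omega)).e_nonneg x
    have h3 := r17_BB_nonneg h (j := j) (by omega) x
    show 0 ≤ (1 + ‖psi l0 K J j x‖ ^ (2 * r)) * UU r l0 K J b e j x + e j x * BB b j x
    positivity

/-- even majorant of a power -/
private theorem r17_even {k : ℝ} (hk : 0 < k) {r : ℕ} (hr : k ≤ 2 * r) {M y : ℝ} (hM : 0 < M) (hy : 0 ≤ y) :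
    y ^ k ≤ M ^ (k / 2) * (1 + y ^ (2 * r) * (M ^ r)⁻¹) := by
  set m : ℝ := Real.sqrt M with hm
  have hm0 : 0 < m := Real.sqrt_pos.2 hM
  have hmM : M = m ^ 2 := (Real.sq_sqrt hM.le).symm
  have h1 : M ^ (k / 2) = m ^ k := by
    rw [hmM, ← Real.rpow_natCast m 2, ← Real.rpow_mul hm0.le]
    congr 1
    push_cast
    ring
  have h2 : M ^ r = m ^ (2 * r) := by
    rw [hmM, ← pow_mul]
  rw [h1, h2, ← div_eq_mul_inv, ← div_pow]
  have hz : 0 ≤ y / m := by positivity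
  have h3 : (y / m) ^ k ≤ 1 + (y / m) ^ (2 * r) := by
    rcases le_total (y / m) 1 with h | h
    · have := Real.rpow_le_one hz h hk.le
      have := pow_nonneg hz (2 * r)
      linarith
    · have : (y / m) ^ k ≤ (y / m) ^ ((2 * r : ℕ) : ℝ) :=
        Real.rpow_le_rpow_of_exponent_le h (by push_cast; exact hr)
      rw [Real.rpow_natCast] at this
      linarith
  calc y ^ k = m ^ k * (y / m) ^ k := by
        rw [← Real.mul_rpow hm0.le hz]
        congr 1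
        field_simp
    _ ≤ m ^ k * (1 + (y / m) ^ (2 * r)) := mul_le_mul_of_nonneg_left h3 (by positivity)

/-- the exponent computation at one scale -/
private theorem r17_scale {k : ℝ} (hk : 0 < k) {r : ℕ} (hr1 : 1 ≤ r) {l0 V L C3 : ℝ} {J j : ℕ} (hj : j < J)
    (hl0 : 0 < l0) (hV : 0 < V) (hL : 0 < L) (hC3 : 1 ≤ C3) :
    ((2 : ℝ) ^ (k / 8 * (k + 2 - 2 * r))) ^ (J - j) * ((l0 * 2 ^ j) ^ (k ^ 2 / 4) *
      (C3 * (V / L) * (V / (l0 * 2 ^ (j + 1))) ^ (r - 1 : ℝ)) ^ (k / 2)) ≤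
    C3 ^ (k / 2) * ((l0 * 2 ^ J) ^ (k ^ 2 / 4) * (V / L) ^ (k / 2) * (V / (l0 * 2 ^ J)) ^ (k * (r - 1) / 2)) *
      (((2 : ℝ) ^ (k / 8 * (k + 2 - 2 * r)))⁻¹) ^ (J - j) := by
  set s : ℝ := k / 8 * (k + 2 - 2 * r) with hs
  set n : ℕ := J - j with hn
  have hJ : J = j + n := by omega
  set N : ℝ := (2 : ℝ) ^ n with hN
  have hN0 : 0 < N := by positivity
  have hr1' : (0 : ℝ) ≤ (r : ℝ) - 1 := by
    have : (1 : ℝ) ≤ r := by exact_mod_cast hr1
    linarith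
  set lam : ℝ := l0 * 2 ^ J with hlam
  have hlam0 : 0 < lam := by positivity
  have hlj : l0 * 2 ^ j = lam / N := by
    rw [hlam, hJ, pow_add, hN]
    field_simp
  have hbn : ((2 : ℝ) ^ s) ^ n = N ^ s := by
    rw [hN, ← Real.rpow_natCast, ← Real.rpow_natCast, ← Real.rpow_mul (by norm_num),
      ← Real.rpow_mul (by norm_num), mul_comm]
  have hratio : V / (l0 * 2 ^ (j + 1)) ≤ V / lam * N := by
    have : V / lam * N = V / (l0 * 2 ^ j) := by
      rw [hlj]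
      field_simp
    rw [this]
    apply div_le_div_of_nonneg_left hV.le (by positivity)
    apply mul_le_mul_of_nonneg_left _ hl0.le
    exact pow_le_pow_right₀ (by norm_num) (Nat.le_succ j)
  set ee : ℝ := k * (r - 1) / 2 with hee
  have hee0 : 0 ≤ ee := by positivity
  have hM : (C3 * (V / L) * (V / (l0 * 2 ^ (j + 1))) ^ (r - 1 : ℝ)) ^ (k / 2) ≤
      C3 ^ (k / 2) * (V / L) ^ (k / 2) * ((V / lam) ^ ee * N ^ ee) := by
    rw [Real.mul_rpow (by positivity) (by positivity), Real.mul_rpow (by positivity) (by positivity),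
      ← Real.rpow_mul (by positivity)]
    apply mul_le_mul_of_nonneg_left _ (by positivity)
    rw [← Real.mul_rpow (by positivity) (by positivity)]
    have h1 : ((r : ℝ) - 1) * (k / 2) = ee := by rw [hee]; ring
    rw [h1]
    exact Real.rpow_le_rpow (by positivity) hratio hee0
  have hexp : N ^ s * (N ^ (k ^ 2 / 4))⁻¹ * N ^ ee = (N ^ s)⁻¹ := by
    rw [← Real.rpow_neg hN0.le, ← Real.rpow_neg hN0.le, ← Real.rpow_add hN0, ← Real.rpow_add hN0]
    congr 1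
    rw [hs, hee]
    ring
  rw [inv_pow, hbn, hlj, Real.div_rpow hlam0.le hN0.le]
  calc N ^ s * (lam ^ (k ^ 2 / 4) / N ^ (k ^ 2 / 4) *
        (C3 * (V / L) * (V / (l0 * 2 ^ (j + 1))) ^ (r - 1 : ℝ)) ^ (k / 2))
      ≤ N ^ s * (lam ^ (k ^ 2 / 4) / N ^ (k ^ 2 / 4) *
        (C3 ^ (k / 2) * (V / L) ^ (k / 2) * ((V / lam) ^ ee * N ^ ee))) := by
        apply mul_le_mul_of_nonneg_left _ (by positivity)
        apply mul_le_mul_of_nonneg_left hM (by positivity)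
    _ = C3 ^ (k / 2) * (lam ^ (k ^ 2 / 4) * (V / L) ^ (k / 2) * (V / lam) ^ ee) *
        (N ^ s * (N ^ (k ^ 2 / 4))⁻¹ * N ^ ee) := by
        rw [div_eq_mul_inv]
        ring
    _ = _ := by rw [hexp]

/-- the integral of one term -/
private theorem r17_int {k : ℝ} {r : ℕ} {E : Om → ℂ} {B U : Om → ℝ} (cE : Continuous E) (cB : Continuous B)
    (cU : Continuous U) {S T : Set ℕ} (dB : DependsOn B S) (dU : DependsOn U S) (dE : DependsOn E T)
    (disj : Disjoint S T) {M b : ℝ} (hM : 0 < M) (hb : 0 ≤ b) (iB : ∫ x, B x ∂mu ≤ b) (iU : ∫ x, U x ∂mu ≤ b)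
    (iE : ∫ x, ‖E x‖ ^ (2 * r) ∂mu ≤ M ^ r) :
    ∫ x, (B x + U x) * (M ^ (k / 2) * (1 + ‖E x‖ ^ (2 * r) * (M ^ r)⁻¹)) ∂mu ≤ (2 * b) * (2 * M ^ (k / 2)) := by
  have hMr : 0 < M ^ r := pow_pos hM r
  have hMk : 0 ≤ M ^ (k / 2) := Real.rpow_nonneg hM.le _
  have cG : Continuous fun x => M ^ (k / 2) * (1 + ‖E x‖ ^ (2 * r) * (M ^ r)⁻¹) :=
    continuous_const.mul (continuous_const.add ((cE.norm.pow _).mul continuous_const))
  have dF : DependsOn (fun x => B x + U x) S := by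
    intro x y hxy
    show B x + U x = B y + U y
    rw [dB hxy, dU hxy]
  have dG : DependsOn (fun x => M ^ (k / 2) * (1 + ‖E x‖ ^ (2 * r) * (M ^ r)⁻¹)) T := by
    intro x y hxy
    show M ^ (k / 2) * (1 + ‖E x‖ ^ (2 * r) * (M ^ r)⁻¹) = M ^ (k / 2) * (1 + ‖E y‖ ^ (2 * r) * (M ^ r)⁻¹)
    rw [dE hxy]
  have cF : Continuous fun x => B x + U x := cB.add cU
  rw [integral_mul_indep cF cG dF dG disj]
  have hF : ∫ x, (B x + U x) ∂mu ≤ 2 * b := by
    rw [integral_add (integrable_of_continuous cB) (integrable_of_continuous cU)]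
    linarith
  have hiE : Integrable (fun x => ‖E x‖ ^ (2 * r) * (M ^ r)⁻¹) mu :=
    integrable_of_continuous ((cE.norm.pow _).mul continuous_const)
  have hG : ∫ x, M ^ (k / 2) * (1 + ‖E x‖ ^ (2 * r) * (M ^ r)⁻¹) ∂mu ≤ 2 * M ^ (k / 2) := by
    have hone1 : ∫ _x : Om, (1 : ℝ) ∂mu = 1 := by simp
    rw [integral_const_mul, integral_add (integrable_const _) hiE, integral_mul_const, hone1]
    have h1 : (∫ x, ‖E x‖ ^ (2 * r) ∂mu) * (M ^ r)⁻¹ ≤ 1 := by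
      rw [← div_eq_mul_inv, div_le_one hMr]
      exact iE
    have h2 := mul_le_mul_of_nonneg_left (show 1 + (∫ x, ‖E x‖ ^ (2 * r) ∂mu) * (M ^ r)⁻¹ ≤ 2 by linarith) hMk
    linarith
  apply mul_le_mul hF hG
  · apply integral_nonneg
    intro x
    have h1 : 0 ≤ ‖E x‖ ^ (2 * r) * (M ^ r)⁻¹ := mul_nonneg (pow_nonneg (norm_nonneg _) _) (inv_nonneg.2 hMr.le)
    exact mul_nonneg hMk (by linarith)
  · linarith

/-- bounds for the size of a term -/
private theorem r17_M {C3 V L y : ℝ} {r : ℕ} (hr1 : 1 ≤ r) (hC3 : 1 ≤ C3) (hV : 0.34 < V) (hVL : V ≤ L)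
    (hy : 0.34 ≤ y) (hyV : y ≤ V) :
    Real.exp (-(3 * L)) ≤ C3 * (V / L) * (V / y) ^ (r - 1 : ℝ) ∧
      C3 * (V / L) * (V / y) ^ (r - 1 : ℝ) ≤ C3 * Real.exp (3 * L * r) := by
  have hV0 : 0 < V := by linarith
  have hL0 : 0 < L := by linarith
  have hy0 : 0 < y := by linarith
  have hr1' : (0 : ℝ) ≤ (r : ℝ) - 1 := by
    have : (1 : ℝ) ≤ r := by exact_mod_cast hr1
    linarith
  have hratio1 : 1 ≤ V / y := by
    rw [one_le_div hy0]
    exact hyV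
  have h4 := Real.add_one_le_exp (3 * L)
  have hratio2 : V / y ≤ Real.exp (3 * L) := by
    have h1 : V / y ≤ 3 * L := by
      rw [div_le_iff₀ hy0]
      have : 3 * L * 0.34 ≤ 3 * L * y := mul_le_mul_of_nonneg_left hy (by linarith)
      linarith
    linarith
  have h2 : V / L ≤ 1 := by rw [div_le_one hL0]; exact hVL
  have h3 : 0 < V / L := by positivity
  constructor
  · have h1 : (1 : ℝ) ≤ (V / y) ^ (r - 1 : ℝ) := Real.one_le_rpow hratio1 hr1'
    have h5 : Real.exp (-(3 * L)) ≤ V / L := by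
      rw [Real.exp_neg, inv_le_comm₀ (Real.exp_pos _) h3, inv_div]
      have h6 : L / V ≤ 3 * L := by
        rw [div_le_iff₀ hV0]
        have : 3 * L * 0.34 ≤ 3 * L * V := mul_le_mul_of_nonneg_left hV.le (by linarith)
        linarith
      linarith
    have h7 : V / L ≤ C3 * (V / L) := le_mul_of_one_le_left h3.le hC3
    exact h5.trans (h7.trans (le_mul_of_one_le_right (h3.le.trans h7) h1))
  · have h1 : (V / y) ^ (r - 1 : ℝ) ≤ Real.exp (3 * L * r) := by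
      calc (V / y) ^ (r - 1 : ℝ) ≤ (Real.exp (3 * L)) ^ (r - 1 : ℝ) :=
            Real.rpow_le_rpow (by positivity) hratio2 hr1'
        _ = Real.exp (3 * L * (r - 1)) := by rw [← Real.exp_mul]
        _ ≤ Real.exp (3 * L * r) := by
            apply Real.exp_le_exp.2
            exact mul_le_mul_of_nonneg_left (by linarith) (by linarith)
    have h5 : C3 * (V / L) ≤ C3 := mul_le_of_le_one_right (by linarith) h2
    exact mul_le_mul h5 h1 (Real.rpow_nonneg (by positivity) _) (by linarith)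

private theorem r17_constM {C3 k L M : ℝ} {r : ℕ} (hk : 0 < k) (hC3 : 1 ≤ C3) (h3L : 1 ≤ 3 * L) (hM0 : 0 < M)
    (hMge : Real.exp (-(3 * L)) ≤ M) (hMle : M ≤ C3 * Real.exp (3 * L * r)) :
    IsPolyR (3 * L * (k / 2 * (Real.log C3 + r))) (fun _ => M ^ (k / 2)) ∧
      IsPolyR (3 * L * r) (fun _ => (M ^ r)⁻¹) := by
  have hlogC3 : 0 ≤ Real.log C3 := Real.log_nonneg hC3
  have hL0 : 0 < L := by linarith
  constructor
  · apply IsPolyR.const _ (by positivity)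
    rw [abs_of_nonneg (Real.rpow_nonneg hM0.le _)]
    calc M ^ (k / 2) ≤ (C3 * Real.exp (3 * L * r)) ^ (k / 2) :=
          Real.rpow_le_rpow hM0.le hMle (by positivity)
      _ = Real.exp ((Real.log C3 + 3 * L * r) * (k / 2)) := by
          have : C3 * Real.exp (3 * L * r) = Real.exp (Real.log C3 + 3 * L * r) := by
            rw [Real.exp_add, Real.exp_log (by linarith)]
          rw [this, ← Real.exp_mul]
      _ ≤ Real.exp (3 * L * (k / 2 * (Real.log C3 + r))) := by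
          apply Real.exp_le_exp.2
          have h1 : Real.log C3 ≤ 3 * L * Real.log C3 := le_mul_of_one_le_left hlogC3 h3L
          have h2 : 3 * L * (k / 2 * (Real.log C3 + r)) = (3 * L * Real.log C3 + 3 * L * r) * (k / 2) := by ring
          rw [h2]
          apply mul_le_mul_of_nonneg_right _ (by positivity)
          linarith
  · apply IsPolyR.const _ (by positivity)
    have hMr : 0 < M ^ r := pow_pos hM0 r
    rw [abs_of_nonneg (inv_nonneg.2 hMr.le), inv_le_comm₀ hMr (Real.exp_pos _), ← Real.exp_neg]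
    calc Real.exp (-(3 * L * r)) = (Real.exp (-(3 * L))) ^ r := by
          rw [← Real.exp_nat_mul]
          congr 1
          ring
      _ ≤ M ^ r := pow_le_pow_left₀ (Real.exp_pos _).le hMge r

private theorem r17_beta {β L : ℝ} {J : ℕ} (j : ℕ) (hβ1 : 1 < β) (hJ3L : (J : ℝ) ≤ 3 * L) :
    IsPolyR (3 * L * Real.log β) (fun _ => β ^ (J - j)) := by
  have hβ0 : 0 < β := by linarith
  have hlogβ : 0 ≤ Real.log β := Real.log_nonneg hβ1.le
  have h0 : 0 ≤ 3 * L := le_trans (Nat.cast_nonneg J) hJ3L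
  apply IsPolyR.const _ (mul_nonneg h0 hlogβ)
  rw [abs_of_nonneg (by positivity)]
  calc β ^ (J - j) ≤ β ^ J := pow_le_pow_right₀ hβ1.le (Nat.sub_le _ _)
    _ = Real.exp (J * Real.log β) := by
        rw [mul_comm, Real.exp_mul, Real.exp_log hβ0, Real.rpow_natCast]
    _ ≤ Real.exp (3 * L * Real.log β) := Real.exp_le_exp.2 (mul_le_mul_of_nonneg_right hJ3L hlogβ)

private theorem r17_Ep {w : ℝ → ℂ} {Λ C3 : ℝ} {r : ℕ} (hw : GoodWeight w Λ r C3) {l0 K V L : ℝ} {J j : ℕ}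
    (hl00 : 0 < l0) (hK0 : 0 < K) (hL0 : 0 < L) (h3L : 1 ≤ 3 * L) (hj : j < J) (hlamL : l0 * 2 ^ J ≤ L) :
    IsPoly (K * L + (3 * max Λ 1 + 1) * L + 1) (Ej w l0 K V L J j) := by
  have hΛ'1 : 1 ≤ max Λ 1 := le_max_right _ _
  have hKL : 0 < K * L := mul_pos hK0 hL0
  have hpsi : IsPoly (K * L) (psi l0 K J j) := by
    refine (psi_poly hl00.le hK0.le J j).mono ?_
    unfold kap
    have h1 : (3 / 2 : ℝ) ^ (J - 1 - j) ≤ 2 ^ (J - 1 - j) :=
      pow_le_pow_left₀ (by norm_num) (by norm_num) _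
    have h2 : (2 : ℝ) ^ J = 2 ^ (J - 1 - j) * 2 ^ (j + 1) := by
      rw [← pow_add]
      congr 1
      omega
    calc K * (3 / 2 : ℝ) ^ (J - 1 - j) * (l0 * 2 ^ (j + 1))
        ≤ K * 2 ^ (J - 1 - j) * (l0 * 2 ^ (j + 1)) :=
          mul_le_mul_of_nonneg_right (mul_le_mul_of_nonneg_left h1 hK0.le) (by positivity)
      _ = K * (l0 * 2 ^ J) := by rw [h2]; ring
      _ ≤ K * L := mul_le_mul_of_nonneg_left hlamL hK0.le
  have hAA : ∀ i, IsPoly ((3 * max Λ 1 + 1) * L) (AA w l0 V L i) := by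
    intro i
    have h1 := IsPoly.ds (u := tj l0 i) (v := Real.exp V) (X := Real.exp L) (A := 3 * max Λ 1)
      (Real.one_le_exp hL0.le) (by positivity) (fun n => w (Real.log n / L)) (by
        intro n hn hnX
        have hlogn : 0 ≤ Real.log n := Real.log_nonneg (by exact_mod_cast hn)
        have hu : 0 ≤ Real.log n / L := by positivity
        rw [Real.log_exp]
        have h2 : ‖w (Real.log n / L)‖ ≤ Λ := hw.bdd _ hu
        have h6 : Λ ≤ max Λ 1 := le_max_left _ _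
        have h7 := Real.add_one_le_exp (3 * max Λ 1 * L)
        have h8 : max Λ 1 ≤ max Λ 1 * (3 * L) := le_mul_of_one_le_right (by linarith) h3L
        linarith)
    rw [Real.log_exp] at h1
    exact h1
  have h1 := (hpsi.mul (hAA (j + 1)))
  have h2 : IsPoly (K * L + (3 * max Λ 1 + 1) * L) (AA w l0 V L j) := (hAA j).mono (by linarith)
  exact h1.sub h2

private theorem r17_termp {β L k C3 M a c e : ℝ} {r : ℕ} {E : Om → ℂ} {B U : Om → ℝ} {J : ℕ} (j : ℕ) (he : 0 ≤ e)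
    (hL0 : 0 < L) (hc1 : IsPolyR a (fun _ => β ^ (J - j))) (hB : IsPolyR c B) (hU : IsPolyR c U)
    (hc2 : IsPolyR (3 * L * (k / 2 * (Real.log C3 + r))) (fun _ => M ^ (k / 2)))
    (hc3 : IsPolyR (3 * L * r) (fun _ => (M ^ r)⁻¹)) (hE : IsPoly e E) :
    IsPolyR (a + ((c + 1) + (3 * L * (k / 2 * (Real.log C3 + r)) + ((2 * r * e + 3 * L * r) + 1))))
      (fun x => β ^ (J - j) * ((B x + U x) * (M ^ (k / 2) * (1 + ‖E x‖ ^ (2 * r) * (M ^ r)⁻¹)))) := by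
  have hEr := hE.normPow r
  have hE3 := (hEr.mul hc3)
  have hone : IsPolyR (2 * r * e + 3 * L * r) (fun _ => (1 : ℝ)) := by
    apply IsPolyR.const _ (by positivity)
    rw [abs_one]
    exact Real.one_le_exp (by positivity)
  have hG1 := hc2.mul (hone.add hE3)
  have hBU := hB.add hU
  exact hc1.mul (hBU.mul hG1)

private theorem r17_final {β L K Λ' k C2 C3 C4 Ci l r J : ℝ} (hk : 0 < k) (hr : 0 ≤ r) (hβ : 0 ≤ Real.log β)
    (hC3 : 0 ≤ Real.log C3) (hC4 : 0 ≤ Real.log C4) (hC2 : 1 ≤ C2) (hCi : 0 ≤ Ci) (hΛ' : 1 ≤ Λ') (hK : 1 ≤ K)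
    (h3L : 1 ≤ 3 * L) (hl : l ≤ L) (hJ : J ≤ 3 * L) :
    3 * L * Real.log C4 + (3 * L * Real.log β + ((C2 * K * l + 1) + (3 * L * (k / 2 * (Real.log C3 + r)) +
          ((2 * r * (K * L + (3 * Λ' + 1) * L + 1) + 3 * L * r) + 1))) + J) ≤
      (1 + Ci + (3 * Real.log β + (C2 + 3) + 3 * (k / 2) * (Real.log C3 + r) +
      (2 * r * (1 + (3 * Λ' + 1) + 3) + 3 * r + 3) + 3 + 3 * Real.log C4 + 3)) * K * L := by
  have hL0 : 0 < L := by linarith
  have hK0 : 0 < K := by linarith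
  have hKL : 0 < K * L := by positivity
  have hLKL : L ≤ K * L := le_mul_of_one_le_left hL0.le hK
  have h1KL : 1 ≤ 3 * (K * L) := by linarith
  have hlamKL : C2 * K * l ≤ C2 * (K * L) := by
    have : C2 * K * l ≤ C2 * K * L := mul_le_mul_of_nonneg_left hl (by positivity)
    linarith
  have e1 : 3 * L * Real.log β ≤ 3 * Real.log β * (K * L) := by
    have := mul_le_mul_of_nonneg_left hLKL hβ
    linarith
  have e2 : 3 * L * (k / 2 * (Real.log C3 + r)) ≤ 3 * (k / 2) * (Real.log C3 + r) * (K * L) := by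
    have h0 : 0 ≤ 3 * (k / 2) * (Real.log C3 + r) := by positivity
    calc 3 * L * (k / 2 * (Real.log C3 + r)) = 3 * (k / 2) * (Real.log C3 + r) * L := by ring
      _ ≤ _ := mul_le_mul_of_nonneg_left hLKL h0
  have e3 : 2 * r * (K * L + (3 * Λ' + 1) * L + 1) ≤ 2 * r * (1 + (3 * Λ' + 1) + 3) * (K * L) := by
    have h0 : 0 ≤ 2 * (r : ℝ) := by positivity
    have h1 : K * L + (3 * Λ' + 1) * L + 1 ≤ (1 + (3 * Λ' + 1) + 3) * (K * L) := by
      have : (3 * Λ' + 1) * L ≤ (3 * Λ' + 1) * (K * L) := mul_le_mul_of_nonneg_left hLKL (by positivity)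
      linarith
    calc 2 * r * (K * L + (3 * Λ' + 1) * L + 1) ≤ 2 * r * ((1 + (3 * Λ' + 1) + 3) * (K * L)) :=
          mul_le_mul_of_nonneg_left h1 h0
      _ = _ := by ring
  have e4 : 3 * L * r ≤ 3 * r * (K * L) := by
    have := mul_le_mul_of_nonneg_left hLKL hr
    linarith
  have e5 : 3 * L * Real.log C4 ≤ 3 * Real.log C4 * (K * L) := by
    have := mul_le_mul_of_nonneg_left hLKL hC4
    linarith
  have e6 : (J : ℝ) ≤ 3 * (K * L) := by linarith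
  have e8 : 0 ≤ Ci * (K * L) := by positivity
  have e7 : (1 + Ci + (3 * Real.log β + (C2 + 3) + 3 * (k / 2) * (Real.log C3 + r) +
      (2 * r * (1 + (3 * Λ' + 1) + 3) + 3 * r + 3) + 3 + 3 * Real.log C4 + 3)) * K * L =
      (K * L) + Ci * (K * L) + (3 * Real.log β * (K * L) + (C2 * (K * L) + 3 * (K * L)) +
        3 * (k / 2) * (Real.log C3 + r) * (K * L) +
        (2 * r * (1 + (3 * Λ' + 1) + 3) * (K * L) + 3 * r * (K * L) + 3 * (K * L)) + 3 * (K * L) +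
        3 * Real.log C4 * (K * L) + 3 * (K * L)) := by ring
  rw [e7]
  linarith only [e1, e2, e3, e4, e5, e6, e8, hlamKL, h1KL, hKL]

/-- the sum of the integrals -/
private theorem r17_sum {C4 C1 c3 Y β Ci Cp : ℝ} {J : ℕ} {I : ℕ → ℝ} (hC4 : 0 ≤ C4) (hC1 : 0 ≤ C1) (hc3 : 0 ≤ c3)
    (hY : 0 ≤ Y) (hβ0 : 0 ≤ β⁻¹) (hβ : β⁻¹ < 1) (hCp : 0 ≤ Cp) (hCi : Ci = C4 * (4 * C1 * c3) * (1 - β⁻¹)⁻¹)
    (h : ∀ j ∈ Finset.range J, I j ≤ 4 * C1 * (c3 * Y * (β⁻¹) ^ (J - j))) :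
    C4 * ∑ j ∈ Finset.range J, I j ≤ (1 + Ci + Cp) * Y := by
  have hsum := Finset.sum_le_sum h
  rw [← Finset.mul_sum, ← Finset.mul_sum] at hsum
  have hgeo := r17_geom hβ0 hβ J
  have h1 : c3 * Y * ∑ j ∈ Finset.range J, (β⁻¹) ^ (J - j) ≤ c3 * Y * (1 - β⁻¹)⁻¹ :=
    mul_le_mul_of_nonneg_left hgeo (mul_nonneg hc3 hY)
  have h2 : C4 * (4 * C1 * (c3 * Y * ∑ j ∈ Finset.range J, (β⁻¹) ^ (J - j))) ≤ C4 * (4 * C1 * (c3 * Y * (1 - β⁻¹)⁻¹)) :=
    mul_le_mul_of_nonneg_left (mul_le_mul_of_nonneg_left h1 (by positivity)) hC4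
  have h3 : C4 * (4 * C1 * (c3 * Y * (1 - β⁻¹)⁻¹)) = Ci * Y := by rw [hCi]; ring
  have h4 : Ci * Y ≤ (1 + Ci + Cp) * Y := mul_le_mul_of_nonneg_right (by linarith) hY
  exact (mul_le_mul_of_nonneg_left hsum hC4).trans (h2.trans (h3.le.trans h4))

theorem R_majorant_g {k : ℝ} (hk : 0 < k) {r : ℕ} (hr : k ≤ 2 * r) (hr' : 2 * r < k + 2) {C0 : ℝ} (hC0 : 1 ≤ C0)
    (Λ : ℝ) {C3 : ℝ} (hC3 : 1 ≤ C3) : ∃ C K1 : ℝ, 1 ≤ C ∧ 1 ≤ K1 ∧
    ∀ (w : ℝ → ℂ), GoodWeight w Λ r C3 → ∀ (l0 K V L : ℝ) (J : ℕ),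
    Real.log 2 / 2 ≤ l0 → l0 ≤ Real.log 2 → K1 ≤ K → l0 * 2 ^ J ≤ V → V ≤ L →
    (∀ j < J, Real.exp (-(kap K J j) / 5) ≤ l0 * 2 ^ (j + 1) / L) → ∀ b e : ℕ → Om → ℝ,
    (∀ i < J, ScaleData k C0 (tj l0 i) (tj l0 (i + 1)) (kap K J i) (b i) (e i)) →
    ∃ Ξ : Om → ℝ, (∀ x, ‖RR w l0 K V L J x‖ ^ k ≤ Ξ x) ∧
      ∫ x, Ξ x ∂mu ≤ C * (l0 * 2 ^ J) ^ (k ^ 2 / 4) * (V / L) ^ (k / 2) *
        (V / (l0 * 2 ^ J)) ^ (k * (r - 1) / 2) ∧
      IsPolyR (C * K * L) Ξ := by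
  have hr1 : 1 ≤ r := by
    by_contra hcon
    have : r = 0 := by omega
    subst this
    simp at hr
    linarith
  have hs0 : 0 < k / 8 * (k + 2 - 2 * r) := by
    have : 0 < k + 2 - 2 * r := by linarith
    positivity
  obtain ⟨C1, K1, hC1, hK1, hprod⟩ := scale_product hk hr hC0
  obtain ⟨C2, hC2, hpoly⟩ := scale_product_poly k r hC0
  obtain ⟨C4, hC4, hpow⟩ := r17_power hk hs0
  obtain ⟨β, hβ⟩ : ∃ β : ℝ, β = (2 : ℝ) ^ (k / 8 * (k + 2 - 2 * r)) := ⟨_, rfl⟩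
  have hβ1 : 1 < β := by rw [hβ]; exact Real.one_lt_rpow (by norm_num) hs0
  have hβ0 : 0 < β := by linarith only [hβ1]
  have hβi : β⁻¹ < 1 := inv_lt_one_of_one_lt₀ hβ1
  have hβi0 : 0 < β⁻¹ := inv_pos.2 hβ0
  have hlogβ : 0 ≤ Real.log β := Real.log_nonneg hβ1.le
  have hlogC3 : 0 ≤ Real.log C3 := Real.log_nonneg hC3
  have hlogC4 : 0 ≤ Real.log C4 := Real.log_nonneg hC4
  obtain ⟨Ci, hCi⟩ : ∃ Ci : ℝ, Ci = C4 * (4 * C1 * C3 ^ (k / 2)) * (1 - β⁻¹)⁻¹ := ⟨_, rfl⟩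
  have hΛ'1 : 1 ≤ max Λ 1 := le_max_right _ _
  have hCi0 : 0 ≤ Ci := by
    rw [hCi]
    have : 0 < 1 - β⁻¹ := by linarith only [hβi]
    positivity
  obtain ⟨Cp, hCp⟩ : ∃ Cp : ℝ, Cp = 3 * Real.log β + (C2 + 3) + 3 * (k / 2) * (Real.log C3 + r) +
      (2 * r * (1 + (3 * max Λ 1 + 1) + 3) + 3 * r + 3) + 3 + 3 * Real.log C4 + 3 := ⟨_, rfl⟩
  have hCp0 : 0 ≤ Cp := by
    rw [hCp]
    positivity
  refine ⟨1 + Ci + Cp, K1, by linarith only [hCi0, hCp0], hK1, ?_⟩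
  intro w hw l0 K V L J hl0 hl0' hK hJV hVL hexp b e hb
  rw [← hβ] at hpow
  have hlog2 : 0.69 < Real.log 2 := by
    have := Real.log_two_gt_d9
    linarith only [this]
  have hl0p : 0.34 < l0 := by linarith only [hl0, hlog2]
  have hl00 : 0 < l0 := by linarith only [hl0p]
  have hK1' : 1 ≤ K := hK1.trans hK
  have hK0 : 0 < K := by linarith only [hK1']
  have h2J : (1 : ℝ) ≤ 2 ^ J := one_le_pow₀ (by norm_num)
  have hlamp : l0 ≤ l0 * 2 ^ J := le_mul_of_one_le_right hl00.le h2J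
  have hVp : 0.34 < V := by linarith only [hl0p, hlamp, hJV]
  have hV0 : 0 < V := by linarith only [hVp]
  have hL0 : 0 < L := by linarith only [hV0, hVL]
  have h3L : 1 ≤ 3 * L := by linarith only [hVp, hVL]
  have hlamL : l0 * 2 ^ J ≤ L := hJV.trans hVL
  have hJ3L : (J : ℝ) ≤ 3 * L := by
    have h1 : (J : ℝ) ≤ 2 ^ J := by
      have : J < 2 ^ J := Nat.lt_two_pow_self
      exact_mod_cast this.le
    have h2 : 0.34 * (2 : ℝ) ^ J ≤ L := by
      refine le_trans ?_ hlamL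
      apply mul_le_mul_of_nonneg_right hl0p.le (by positivity)
    linarith only [h1, h2]
  have hM0 : ∀ j : ℕ, 0 < C3 * (V / L) * (V / (l0 * 2 ^ (j + 1))) ^ (r - 1 : ℝ) := by
    intro j
    positivity
  have hjV : ∀ j < J, l0 * 2 ^ (j + 1) ≤ V := by
    intro j hj
    refine le_trans ?_ hJV
    apply mul_le_mul_of_nonneg_left _ hl00.le
    exact pow_le_pow_right₀ (by norm_num) hj
  have hEc : ∀ j, Continuous (Ej w l0 K V L J j) := fun j => r17_Ej_cont w l0 K V L J j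
  have hBc : ∀ j < J, Continuous (BB b j) := fun j hj => r17_BB_cont hb hj.le
  have hUc : ∀ j < J, Continuous (UU r l0 K J b e j) := fun j hj => r17_UU_cont hb j hj.le
  refine ⟨fun x => C4 * ∑ j ∈ Finset.range J, β ^ (J - j) * ((BB b j x + UU r l0 K J b e j x) *
      ((C3 * (V / L) * (V / (l0 * 2 ^ (j + 1))) ^ (r - 1 : ℝ)) ^ (k / 2) * (1 + ‖Ej w l0 K V L J j x‖ ^ (2 * r) *
        ((C3 * (V / L) * (V / (l0 * 2 ^ (j + 1))) ^ (r - 1 : ℝ)) ^ r)⁻¹))), ?_, ?_, ?_⟩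
  · intro x
    have h2 : ‖RR w l0 K V L J x‖ ^ k ≤ C4 * ∑ j ∈ Finset.range J, β ^ (J - j) *
        ‖Fj l0 K J j x * Ej w l0 K V L J j x‖ ^ k := hpow J (fun j => Fj l0 K J j x * Ej w l0 K V L J j x)
    refine h2.trans ?_
    apply mul_le_mul_of_nonneg_left _ (by linarith only [hC4])
    apply Finset.sum_le_sum
    intro j hj
    have hj' := Finset.mem_range.1 hj
    apply mul_le_mul_of_nonneg_left _ (pow_nonneg hβ0.le _)
    rw [norm_mul, Real.mul_rpow (norm_nonneg _) (norm_nonneg _)]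
    have h3 := (hprod l0 K J hl0 hl0' hK b e hb j hj'.le).1 x
    have h4 : ‖Fj l0 K J j x‖ ^ k ≤ BB b j x + UU r l0 K J b e j x := by
      have := (abs_le.1 h3).2
      linarith only [this]
    exact mul_le_mul h4 (r17_even hk hr (hM0 j) (norm_nonneg _)) (Real.rpow_nonneg (norm_nonneg _) _)
      (add_nonneg (r17_BB_nonneg hb hj'.le x) (r17_UU_nonneg (r := r) hb j hj'.le x))
  · rw [integral_const_mul, integral_finsetSum _ (by
      intro j hj
      have hj' := Finset.mem_range.1 hj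
      exact integrable_of_continuous (continuous_const.mul (((hBc j hj').add (hUc j hj')).mul
        (continuous_const.mul (continuous_const.add (((hEc j).norm.pow _).mul continuous_const))))))]
    have hY0 : 0 ≤ (l0 * 2 ^ J) ^ (k ^ 2 / 4) * (V / L) ^ (k / 2) * (V / (l0 * 2 ^ J)) ^ (k * (r - 1) / 2) := by
      positivity
    refine (r17_sum (Cp := Cp) (by linarith only [hC4]) (by linarith only [hC1]) (Real.rpow_nonneg (by linarith only [hC3]) (k / 2))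
      hY0 hβi0.le hβi hCp0 hCi ?_).trans (le_of_eq (by ring))
    intro j hj
    have hj' := Finset.mem_range.1 hj
    rw [integral_const_mul]
    have hdis : Disjoint {p : ℕ | (p : ℝ) ≤ tj l0 j} {p : ℕ | tj l0 j < (p : ℝ)} := by
      rw [Set.disjoint_left]
      intro p hp hp'
      exact (not_le.2 (show tj l0 j < (p : ℝ) from hp')) (show (p : ℝ) ≤ tj l0 j from hp)
    have hp := hprod l0 K J hl0 hl0' hK b e hb j hj'.le
    have h4 : 0 ≤ (l0 * 2 ^ j) ^ (k ^ 2 / 4) := by positivity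
    have hC10 : 0 ≤ C1 := by linarith only [hC1]
    have iU : ∫ x, UU r l0 K J b e j x ∂mu ≤ C1 * (l0 * 2 ^ j) ^ (k ^ 2 / 4) := by
      have h3 : Real.exp (-K / 10) ≤ 1 := Real.exp_le_one_iff.2 (by linarith only [hK0])
      exact hp.2.2.trans (mul_le_mul_of_nonneg_right (mul_le_of_le_one_right hC10 h3) h4)
    have hFG := r17_int (k := k) (hEc j) (hBc j hj') (hUc j hj') (r17_BB_dep hl00.le hb hj'.le)
      (r17_UU_dep hl00.le hb j hj'.le) (r17_Ej_dep hl00.le) hdis (hM0 j) (mul_nonneg hC10 h4) hp.2.1 iU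
      (hw.emom l0 K V L J j hl0 hK1' hj' (hjV j hj') hVL (hexp j hj'))
    have h5 := mul_le_mul_of_nonneg_left hFG (pow_nonneg hβ0.le (J - j))
    have h6 := mul_le_mul_of_nonneg_left (r17_scale hk hr1 hj' hl00 hV0 hL0 hC3) (show 0 ≤ 4 * C1 by linarith only [hC10])
    rw [← hβ] at h6
    refine h5.trans (le_trans (le_of_eq ?_) h6)
    ring
  · have hterm : ∀ j ∈ Finset.range J, IsPolyR
        (3 * L * Real.log β + ((C2 * K * (l0 * 2 ^ J) + 1) + (3 * L * (k / 2 * (Real.log C3 + r)) +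
          ((2 * r * (K * L + (3 * max Λ 1 + 1) * L + 1) + 3 * L * r) + 1))))
        (fun x => β ^ (J - j) * ((BB b j x + UU r l0 K J b e j x) *
          ((C3 * (V / L) * (V / (l0 * 2 ^ (j + 1))) ^ (r - 1 : ℝ)) ^ (k / 2) * (1 + ‖Ej w l0 K V L J j x‖ ^ (2 * r) *
            ((C3 * (V / L) * (V / (l0 * 2 ^ (j + 1))) ^ (r - 1 : ℝ)) ^ r)⁻¹)))) := by
      intro j hj
      have hj' := Finset.mem_range.1 hj
      have hpp := hpoly l0 K J hl0 hl0' hK1' b e hb j hj'.le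
      have h2j : (1 : ℝ) ≤ 2 ^ (j + 1) := one_le_pow₀ (by norm_num)
      have hy : 0.34 ≤ l0 * 2 ^ (j + 1) := hl0p.le.trans (le_mul_of_one_le_right hl00.le h2j)
      obtain ⟨m1, m2⟩ := r17_M (C3 := C3) hr1 hC3 hVp hVL hy (hjV j hj')
      obtain ⟨m3, m4⟩ := r17_constM hk hC3 h3L (hM0 j) m1 m2
      exact r17_termp j (by positivity) hL0 (r17_beta j hβ1 hJ3L) hpp.1 hpp.2 m3 m4
        (r17_Ep hw hl00 hK0 hL0 h3L hj' hlamL)
    have hsumP := IsPolyR.sum (Finset.range J) _ hterm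
    have hc4 : IsPolyR (3 * L * Real.log C4) (fun _ => C4) := by
      apply IsPolyR.const _ (by positivity)
      rw [abs_of_nonneg (by linarith only [hC4])]
      calc C4 = Real.exp (Real.log C4) := (Real.exp_log (by linarith only [hC4])).symm
        _ ≤ Real.exp (3 * L * Real.log C4) := Real.exp_le_exp.2 (le_mul_of_one_le_left hlogC4 h3L)
    refine (hc4.mul hsumP).mono ?_
    rw [Finset.card_range, hCp]
    exact r17_final hk (Nat.cast_nonneg r) hlogβ hlogC3 hlogC4 hC2 hCi0 hΛ'1 hK1' h3L hlamL hJ3L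

theorem IsWeight.bdd {w : ℝ → ℂ} {Λ : ℝ} (hw : IsWeight w Λ) {u : ℝ} (hu : 0 ≤ u) : ‖w u‖ ≤ Λ :=
  t16_norm_w hw hu

theorem exists_goodWeight (r : ℕ) (Λ : ℝ) : ∃ CE : ℝ, 1 ≤ CE ∧ ∀ w : ℝ → ℂ, IsWeight w Λ → GoodWeight w Λ r CE := by
  obtain ⟨C, hC, h⟩ := E_moment r Λ
  exact ⟨C, hC, fun w hw => ⟨hw.one_le, hw.zero, fun u hu => hw.bdd hu, h w hw⟩⟩

theorem R_majorant {k : ℝ} (hk : 0 < k) {r : ℕ} (hr : k ≤ 2 * r) (hr' : 2 * r < k + 2) {C0 : ℝ} (hC0 : 1 ≤ C0)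
    (Λ : ℝ) : ∃ C K1 : ℝ, 1 ≤ C ∧ 1 ≤ K1 ∧
    ∀ (w : ℝ → ℂ), IsWeight w Λ → ∀ (l0 K V L : ℝ) (J : ℕ),
    Real.log 2 / 2 ≤ l0 → l0 ≤ Real.log 2 → K1 ≤ K → l0 * 2 ^ J ≤ V → V ≤ L →
    (∀ j < J, Real.exp (-(kap K J j) / 5) ≤ l0 * 2 ^ (j + 1) / L) → ∀ b e : ℕ → Om → ℝ,
    (∀ i < J, ScaleData k C0 (tj l0 i) (tj l0 (i + 1)) (kap K J i) (b i) (e i)) →
    ∃ Ξ : Om → ℝ, (∀ x, ‖RR w l0 K V L J x‖ ^ k ≤ Ξ x) ∧
      ∫ x, Ξ x ∂mu ≤ C * (l0 * 2 ^ J) ^ (k ^ 2 / 4) * (V / L) ^ (k / 2) *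
        (V / (l0 * 2 ^ J)) ^ (k * (r - 1) / 2) ∧
      IsPolyR (C * K * L) Ξ := by
  obtain ⟨CE, hCE, hg⟩ := exists_goodWeight r Λ
  obtain ⟨C, K1, hC, hK1, h⟩ := R_majorant_g hk hr hr' hC0 Λ hCE
  exact ⟨C, K1, hC, hK1, fun w hw => h w (hg w hw)⟩

end Pool.Agent.LibMM99
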