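import Mathlib
import Pool.Agent.LibMM99.T01

set_option autoImplicit false

namespace Pool.Agent.LibMM99

open MeasureTheory Filter Topology
open scoped ComplexConjugate

theorem telescoping (w : ℝ → ℂ) (l0 K V L : ℝ) (J : ℕ) (x : Om) :
    AA w l0 V L 0 x = Fj l0 K J J x * AA w l0 V L J x - RR w l0 K V L J x := by
  have h : ∀ j, Fj l0 K J j x * Ej w l0 K V L J j x =
      Fj l0 K J (j + 1) x * AA w l0 V L (j + 1) x - Fj l0 K J j x * AA w l0 V L j x := by
    intro j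
    unfold Ej Fj
    rw [Finset.prod_range_succ]
    ring
  unfold RR
  rw [Finset.sum_congr rfl (fun j _ => h j),
    Finset.sum_range_sub (fun j => Fj l0 K J j x * AA w l0 V L j x)]
  have h0 : Fj l0 K J 0 x = 1 := by simp [Fj]
  rw [h0]
  ring

theorem AA_zero {w : ℝ → ℂ} {l0 L : ℝ} (h0 : 0 < l0) (h2 : l0 < Real.log 2) (hL : 0 ≤ L) :
    AA w l0 L L 0 = SS w L := by
  have hs : smo (tj l0 0) (Real.exp L) (Real.exp L) = Finset.Icc 1 ⌊Real.exp L⌋₊ := by
    unfold smo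
    rw [Finset.filter_eq_self]
    intro n hn p hp
    rw [Finset.mem_Icc] at hn
    have hpp := Nat.prime_of_mem_primeFactors hp
    have hle : p ≤ n := Nat.le_of_mem_primeFactors hp
    refine ⟨?_, ?_⟩
    · have h1 : tj l0 0 < 2 := by
        unfold tj
        rw [pow_zero, mul_one]
        calc Real.exp l0 < Real.exp (Real.log 2) := Real.exp_lt_exp.2 h2
          _ = 2 := Real.exp_log two_pos
      have h3 : (2 : ℝ) ≤ p := by exact_mod_cast hpp.two_le
      linarith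
    · have h1 : (n : ℝ) ≤ Real.exp L := (Nat.le_floor_iff (Real.exp_pos L).le).1 hn.2
      have h3 : (p : ℝ) ≤ n := by exact_mod_cast hle
      linarith
  funext x
  unfold AA SS
  rw [hs]

theorem AA_top' {w : ℝ → ℂ} (hw0 : w 0 = 1) {l0 L : ℝ} {J : ℕ} (hL : 0 < L) (x : Om) :
    AA w l0 (l0 * 2 ^ J) L J x = 1 := by
  have hs : smo (tj l0 J) (Real.exp (l0 * 2 ^ J)) (Real.exp L) = {1} := by
    ext n
    unfold smo
    rw [Finset.mem_filter, Finset.mem_Icc, Finset.mem_singleton]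
    constructor
    · rintro ⟨⟨h1, _⟩, h3⟩
      by_contra hne
      obtain ⟨p, hp, hpn⟩ := Nat.exists_prime_and_dvd hne
      obtain ⟨h4, h5⟩ := h3 p (Nat.mem_primeFactors.2 ⟨hp, hpn, by omega⟩)
      unfold tj at h4
      linarith
    · rintro rfl
      refine ⟨⟨le_refl _, ?_⟩, ?_⟩
      · rw [Nat.le_floor_iff (Real.exp_pos L).le]
        push_cast
        exact Real.one_le_exp hL.le
      · intro p hp
        simp at hp
  unfold AA DS
  rw [hs, Finset.sum_singleton, ch_one]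
  simp [hw0]

theorem AA_top {w : ℝ → ℂ} {Λ : ℝ} (hw : IsWeight w Λ) {l0 L : ℝ} {J : ℕ} (hL : 0 < L) (x : Om) :
    AA w l0 (l0 * 2 ^ J) L J x = 1 :=
  AA_top' hw.zero hL x

theorem exists_scales {lam : ℝ} (h : Real.log 2 / 2 ≤ lam) : ∃ (l0 : ℝ) (J : ℕ),
    Real.log 2 / 2 ≤ l0 ∧ l0 < Real.log 2 ∧ l0 * 2 ^ J = lam := by
  have hlog : 0 < Real.log 2 := Real.log_pos one_lt_two
  have hex : ∃ n : ℕ, lam / 2 ^ n < Real.log 2 := by
    obtain ⟨n, hn⟩ := pow_unbounded_of_one_lt (lam / Real.log 2) (one_lt_two (α := ℝ))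
    refine ⟨n, ?_⟩
    rw [div_lt_iff₀ (by positivity)]
    rw [div_lt_iff₀ hlog] at hn
    linarith
  classical
  refine ⟨lam / 2 ^ (Nat.find hex), Nat.find hex, ?_, Nat.find_spec hex,
    div_mul_cancel₀ _ (by positivity)⟩
  rcases Nat.eq_zero_or_pos (Nat.find hex) with h0 | h0
  · rw [h0, pow_zero, div_one]
    exact h
  · have h1 := Nat.find_min hex (show Nat.find hex - 1 < Nat.find hex by omega)
    rw [not_lt, le_div_iff₀ (by positivity)] at h1
    have h2 : (2 : ℝ) ^ (Nat.find hex) = 2 ^ (Nat.find hex - 1) * 2 := by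
      rw [← pow_succ]
      congr 1
      omega
    rw [h2, le_div_iff₀ (by positivity)]
    linarith

theorem kap_cond {K δ : ℝ} (hδ : 0 < δ) (hδ1 : δ ≤ 1) (hK : 10 + 5 * Real.log (1 / δ) ≤ K) {l0 L : ℝ} {J : ℕ}
    (hL : 0 < L) (h : l0 * 2 ^ J = δ * L) :
    ∀ j < J, Real.exp (-(kap K J j) / 5) ≤ l0 * 2 ^ (j + 1) / L := by
  intro j hj
  obtain ⟨m, hm⟩ : ∃ m, J = j + 1 + m := ⟨J - (j + 1), by omega⟩
  have hm' : J - 1 - j = m := by omega
  have hl : l0 * 2 ^ (j + 1) / L = δ / 2 ^ m := by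
    rw [hm, pow_add, ← mul_assoc] at h
    rw [div_eq_div_iff hL.ne' (by positivity)]
    exact h
  rw [hl]
  unfold kap
  rw [hm']
  have hlogd : 0 ≤ Real.log (1 / δ) := Real.log_nonneg (by rw [le_div_iff₀ hδ]; linarith)
  have h32 : 1 + (m : ℝ) * (1 / 2) ≤ (3 / 2 : ℝ) ^ m := by
    have := one_add_mul_le_pow (show (-2 : ℝ) ≤ 1 / 2 by norm_num) m
    norm_num at this ⊢
    exact this
  have hpow1 : (1 : ℝ) ≤ (3 / 2 : ℝ) ^ m := one_le_pow₀ (by norm_num)
  have hlog2 : Real.log 2 ≤ 1 := by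
    have := Real.log_two_lt_d9
    linarith
  have h5 : m * Real.log 2 + Real.log (1 / δ) ≤ K * (3 / 2 : ℝ) ^ m / 5 := by
    have h6 : (10 + 5 * Real.log (1 / δ)) * (3 / 2 : ℝ) ^ m ≤ K * (3 / 2 : ℝ) ^ m :=
      mul_le_mul_of_nonneg_right hK (by positivity)
    have h7 : Real.log (1 / δ) * 1 ≤ Real.log (1 / δ) * (3 / 2 : ℝ) ^ m :=
      mul_le_mul_of_nonneg_left hpow1 hlogd
    have h8 : (m : ℝ) * Real.log 2 ≤ m := by
      have := mul_le_mul_of_nonneg_left hlog2 (Nat.cast_nonneg (α := ℝ) m)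
      linarith
    linarith
  have h9 : δ / 2 ^ m = Real.exp (-(m * Real.log 2 + Real.log (1 / δ))) := by
    rw [neg_add, Real.exp_add, Real.exp_neg, mul_comm (m : ℝ), Real.exp_mul, Real.exp_log two_pos,
      Real.rpow_natCast, one_div, Real.log_inv, neg_neg, Real.exp_log hδ]
    field_simp
  rw [h9]
  apply Real.exp_le_exp.2
  have : -(K * (3 / 2 : ℝ) ^ m) / 5 = -(K * (3 / 2 : ℝ) ^ m / 5) := by ring
  rw [this]
  linarith

end Pool.Agent.LibMM99
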