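import Mathlib
import Pool.Agent.LibMM99.T15a
import Pool.Agent.LibMM99.T17
import Pool.Agent.LibMM99.T18
import Pool.Agent.LibMM99.T29

set_option autoImplicit false

namespace Pool.Agent.LibMM99

open MeasureTheory Filter Topology
open scoped ComplexConjugate

theorem apriori_g {k : ℝ} (hk : 0 < k) {C0 : ℝ} (hC0 : 1 ≤ C0) (hS : HasScale k C0) (Λ : ℝ) {CE : ℝ} (hCE : 1 ≤ CE) :
    ∃ C : ℝ, 1 ≤ C ∧ ∀ (w : ℝ → ℂ), GoodWeight w Λ ⌈k / 2⌉₊ CE → ∀ L : ℝ, 1 ≤ L →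
    ∫ x, ‖SS w L x‖ ^ k ∂mu ≤ C * L ^ (k ^ 2 / 4) := by
  set r : ℕ := ⌈k / 2⌉₊ with hr
  have hr1 : k ≤ 2 * r := by
    have := Nat.le_ceil (k / 2)
    linarith
  have hr2 : 2 * (r:ℝ) < k + 2 := by
    have := Nat.ceil_lt_add_one (by positivity : 0 ≤ k / 2)
    linarith
  obtain ⟨C1, K1, hC1, hK1, H1⟩ := scale_product hk hr1 hC0
  obtain ⟨C2, K2, hC2, hK2, H2⟩ := R_majorant_g hk hr1 hr2 hC0 Λ hCE
  set K := max (max K1 K2) 10 with hK
  have hKK1 : K1 ≤ K := (le_max_left _ _).trans (le_max_left _ _)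
  have hKK2 : K2 ≤ K := (le_max_right _ _).trans (le_max_left _ _)
  have hK10 : 10 ≤ K := le_max_right _ _
  have h2k : (1:ℝ) ≤ 2 ^ k := Real.one_le_rpow (by norm_num) hk.le
  refine ⟨2 ^ k * (C1 + C1 + C2), by nlinarith, fun w hw L hL => ?_⟩
  have hlog2 : Real.log 2 ≤ 1 := by
    have := Real.log_two_lt_d9
    linarith
  have hlog2' : 0 < Real.log 2 := Real.log_pos (by norm_num)
  obtain ⟨l0, J, hl1, hl2, hl3⟩ := exists_scales (lam := L) (by linarith)
  have hl0 : 0 < l0 := by linarith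
  have hL0 : 0 < L := by linarith
  have hdata : ∀ i < J, ∃ b e : Om → ℝ, ScaleData k C0 (tj l0 i) (tj l0 (i + 1)) (kap K J i) b e := by
    intro i _
    refine hS _ _ _ (sqrt_two_le_tj hl1 i) (tj_mono hl0.le (Nat.le_succ i)) ?_ ?_
    · rw [log_tj, log_tj]
      rw [pow_succ]; linarith
    · unfold kap
      have h1 : (1:ℝ) ≤ (3 / 2 : ℝ) ^ (J - 1 - i) := one_le_pow₀ (by norm_num)
      nlinarith
  choose! b e hbe using hdata
  obtain ⟨F1, F2, F3⟩ := H1 l0 K J hl1 hl2.le hKK1 b e hbe J le_rfl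
  have hcond := kap_cond (K := K) (δ := 1) one_pos le_rfl (by simpa using hK10) (l0 := l0) (L := L) (J := J) hL0 (by rw [one_mul]; exact hl3)
  obtain ⟨Ξ, G1, G2, G3⟩ := H2 w hw l0 K L L J hl1 hl2.le hKK2 hl3.le le_rfl hcond b e hbe
  have hSS : ∀ x, SS w L x = Fj l0 K J J x + - RR w l0 K L L J x := by
    intro x
    have h1 := telescoping w l0 K L L J x
    rw [AA_zero hl0 hl2 hL0.le] at h1
    have h2 := AA_top' hw.zero (l0 := l0) (J := J) hL0 x
    rw [hl3] at h2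
    rw [h1, h2]; ring
  have hpt : ∀ x, ‖SS w L x‖ ^ k ≤ 2 ^ k * (BB b J x + UU r l0 K J b e J x + Ξ x) := by
    intro x
    rw [hSS x]
    refine (norm_add_rpow_le hk _ _).trans ?_
    refine mul_le_mul_of_nonneg_left ?_ (by positivity)
    rw [norm_neg]
    have h1 := (abs_le.1 (F1 x)).2
    have h2 := G1 x
    linarith
  have cb : ∀ i < J, Continuous (b i) := fun i hi => (hbe i hi).b_poly.continuous
  have ce : ∀ i < J, Continuous (e i) := fun i hi => (hbe i hi).e_poly.continuous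
  have iB : Integrable (fun x => BB b J x) mu := integrable_of_continuous (continuous_BB cb)
  have iU : Integrable (fun x => UU r l0 K J b e J x) mu := integrable_of_continuous (continuous_UU cb ce)
  have iX : Integrable (fun x => Ξ x) mu := integrable_of_continuous G3.continuous
  have cS : Continuous (SS w L) := continuous_DS _ _
  have iS : Integrable (fun x => ‖SS w L x‖ ^ k) mu :=
    integrable_of_continuous (cS.norm.rpow_const fun x => Or.inr hk.le)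
  calc ∫ x, ‖SS w L x‖ ^ k ∂mu ≤ ∫ x, 2 ^ k * (BB b J x + UU r l0 K J b e J x + Ξ x) ∂mu :=
        integral_mono iS (((iB.add iU).add iX).const_mul _) hpt
    _ = 2 ^ k * (∫ x, BB b J x ∂mu + ∫ x, UU r l0 K J b e J x ∂mu + ∫ x, Ξ x ∂mu) := by
        have iBU : Integrable (fun x => BB b J x + UU r l0 K J b e J x) mu := iB.add iU
        rw [integral_const_mul, integral_add iBU iX, integral_add iB iU]
    _ ≤ 2 ^ k * (C1 * L ^ (k ^ 2 / 4) + C1 * L ^ (k ^ 2 / 4) + C2 * L ^ (k ^ 2 / 4)) := by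
        refine mul_le_mul_of_nonneg_left ?_ (by positivity)
        rw [hl3] at F2 F3 G2
        rw [div_self hL0.ne', Real.one_rpow, Real.one_rpow, mul_one, mul_one] at G2
        have hLp : 0 < L ^ (k ^ 2 / 4) := by positivity
        have h3 : C1 * Real.exp (-K / 10) * L ^ (k ^ 2 / 4) ≤ C1 * L ^ (k ^ 2 / 4) := by
          refine mul_le_mul_of_nonneg_right ?_ hLp.le
          have : Real.exp (-K / 10) ≤ 1 := Real.exp_le_one_iff.2 (by linarith)
          nlinarith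
        linarith
    _ = _ := by ring

theorem apriori {k : ℝ} (hk : 0 < k) {C0 : ℝ} (hC0 : 1 ≤ C0) (hS : HasScale k C0) (Λ : ℝ) :
    ∃ C : ℝ, 1 ≤ C ∧ ∀ (w : ℝ → ℂ), IsWeight w Λ → ∀ L : ℝ, 1 ≤ L →
    ∫ x, ‖SS w L x‖ ^ k ∂mu ≤ C * L ^ (k ^ 2 / 4) := by
  obtain ⟨CE, hCE, hg⟩ := exists_goodWeight ⌈k / 2⌉₊ Λ
  obtain ⟨C, hC, h⟩ := apriori_g hk hC0 hS Λ hCE
  exact ⟨C, hC, fun w hw => h w (hg w hw)⟩

end Pool.Agent.LibMM99
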