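import Mathlib
import Pool.Agent.LibMM99.T03
import Pool.Agent.LibMM99.T12
import Pool.Agent.LibMM99.T15b
import Pool.Agent.LibMM99.T15c
import Pool.Agent.LibMM99.T19
import Pool.Agent.LibMM99.T24
import Pool.Agent.LibMM99.T29
import Pool.Agent.LibMM99.T30

set_option autoImplicit false

namespace Pool.Agent.LibMM99

open MeasureTheory Filter Topology
open scoped ComplexConjugate

theorem one_le_kap {K : ℝ} (hK : 1 ≤ K) (J j : ℕ) : 1 ≤ kap K J j := by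
  unfold kap
  have : (1 : ℝ) ≤ (3 / 2 : ℝ) ^ (J - 1 - j) := one_le_pow₀ (by norm_num)
  nlinarith

theorem exists_scaleData {k C0 : ℝ} (hS : HasScale k C0) {l0 K : ℝ} (J : ℕ) (h : Real.log 2 / 2 ≤ l0) (hK : 1 ≤ K) :
    ∃ b e : ℕ → Om → ℝ, ∀ i, ScaleData k C0 (tj l0 i) (tj l0 (i + 1)) (kap K J i) (b i) (e i) := by
  have hlog2 : 0 < Real.log 2 := Real.log_pos (by norm_num)
  have h0 : 0 ≤ l0 := by linarith
  have h1 : ∀ i, ∃ b e : Om → ℝ, ScaleData k C0 (tj l0 i) (tj l0 (i + 1)) (kap K J i) b e := by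
    intro i
    apply hS _ _ _ (sqrt_two_le_tj h i) (tj_mono h0 (Nat.le_succ i)) _ (one_le_kap hK J i)
    rw [log_tj, log_tj, pow_succ]
    linarith
  choose b e hbe using h1
  exact ⟨b, e, hbe⟩

/-- the exponent `r` with `k ≤ 2r < k+2` -/
theorem exists_r {k : ℝ} (hk : 0 < k) : ∃ r : ℕ, k ≤ 2 * r ∧ 2 * r < k + 2 := by
  refine ⟨⌈k / 2⌉₊, ?_, ?_⟩
  · have := Nat.le_ceil (k / 2); linarith
  · have := Nat.ceil_lt_add_one (a := k / 2) (by positivity); linarith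

theorem rpow_le_one_add_pow {a k : ℝ} (ha : 0 ≤ a) (hk : 0 < k) {r : ℕ} (hr : k ≤ 2 * r) : a ^ k ≤ 1 + a ^ (2 * r) := by
  rcases le_total a 1 with h | h
  · have h1 : a ^ k ≤ 1 := Real.rpow_le_one ha h hk.le
    have h2 : 0 ≤ a ^ (2 * r) := by positivity
    linarith
  · have h1 : a ^ k ≤ a ^ ((2 * r : ℕ) : ℝ) := Real.rpow_le_rpow_of_exponent_le h (by push_cast; exact hr)
    rw [Real.rpow_natCast] at h1
    linarith

theorem weighted_isPoly {w : ℝ → ℂ} {Λ : ℝ} (hw : IsWeight w Λ) {L : ℝ} (hL : 1 ≤ L) (u v : ℝ) :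
    IsPoly ((Λ + 1) * L) (DS (smo u v (Real.exp L)) (fun n => w (Real.log n / L))) := by
  have hΛ0 : 0 ≤ Λ := by linarith [hw.one_le]
  have := IsPoly.ds (u := u) (v := v) (X := Real.exp L) (A := Λ) (Real.one_le_exp (by linarith)) hΛ0
    (fun n => w (Real.log n / L)) (by
      intro n hn _
      rw [Real.log_exp]
      calc ‖w (Real.log n / L)‖ ≤ 1 + Λ := hw.norm_le (div_nonneg (Real.log_natCast_nonneg n) (by linarith))
        _ ≤ Real.exp Λ := by linarith [Real.add_one_le_exp Λ]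
        _ ≤ Real.exp (Λ * L) := by apply Real.exp_le_exp.2; nlinarith)
  rw [Real.log_exp] at this
  exact this

theorem isPolyR_const_of_pos {c m : ℝ} (hc : 0 < c) (hm : |Real.log c| ≤ m) : IsPolyR m (fun _ => c) := by
  apply IsPolyR.const c (le_trans (abs_nonneg _) hm)
  rw [abs_of_pos hc]
  calc c = Real.exp (Real.log c) := (Real.exp_log hc).symm
    _ ≤ _ := Real.exp_le_exp.2 (le_trans (le_abs_self _) hm)

private theorem T25_pt {k : ℝ} (hk : 0 < k) {r : ℕ} (hr : k ≤ 2 * r) {η Cη : ℝ} (hη : 0 ≤ η) (hCη : 0 ≤ Cη)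
    (hpd : ∀ a b : ℂ, |‖a + b‖ ^ k - ‖a‖ ^ k| ≤ η * ‖a‖ ^ k + Cη * ‖b‖ ^ k)
    {F A R S : ℂ} {B U Y X Z : ℝ} (tele : S = F * A - R) (nB : 0 ≤ B) (nU : 0 ≤ U) (s1 : |‖F‖ ^ k - B| ≤ U)
    (apA : |‖A‖ ^ k - Y| ≤ X) (apR : ‖R‖ ^ k ≤ Z) :
    |‖F * A‖ ^ k - B * Y| ≤ U * (1 + ‖A‖ ^ (2 * r)) + B * X ∧
    |‖S‖ ^ k - B * Y| ≤ η * (B * Y + (U * (1 + ‖A‖ ^ (2 * r)) + B * X)) + Cη * Z +
      (U * (1 + ‖A‖ ^ (2 * r)) + B * X) := by
  have pt1 : |‖F * A‖ ^ k - B * Y| ≤ U * (1 + ‖A‖ ^ (2 * r)) + B * X := by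
    have e1 : ‖F * A‖ ^ k = ‖F‖ ^ k * ‖A‖ ^ k := by
      rw [norm_mul, Real.mul_rpow (norm_nonneg _) (norm_nonneg _)]
    have e2 : ‖F‖ ^ k * ‖A‖ ^ k - B * Y = (‖F‖ ^ k - B) * ‖A‖ ^ k + B * (‖A‖ ^ k - Y) := by ring
    rw [e1, e2]
    refine le_trans (abs_add_le _ _) ?_
    rw [abs_mul, abs_mul, abs_of_nonneg nB, abs_of_nonneg (show 0 ≤ ‖A‖ ^ k by positivity)]
    have e3 := rpow_le_one_add_pow (norm_nonneg A) hk hr
    have e6 : 0 ≤ ‖A‖ ^ k := by positivity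
    apply add_le_add
    · exact mul_le_mul s1 e3 e6 nU
    · exact mul_le_mul_of_nonneg_left apA nB
  refine ⟨pt1, ?_⟩
  generalize hG : U * (1 + ‖A‖ ^ (2 * r)) + B * X = G at pt1 ⊢
  have e1 : S = F * A + (-R) := by rw [tele]; ring
  have e2 := hpd (F * A) (-R)
  rw [← e1, norm_neg] at e2
  have e3 := (abs_le.1 pt1).2
  have e5 : |‖S‖ ^ k - B * Y| ≤ |‖S‖ ^ k - ‖F * A‖ ^ k| + |‖F * A‖ ^ k - B * Y| := abs_sub_le _ _ _
  have e6 : η * ‖F * A‖ ^ k ≤ η * (B * Y + G) := mul_le_mul_of_nonneg_left (by linarith) hη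
  have e7 : Cη * ‖R‖ ^ k ≤ Cη * Z := mul_le_mul_of_nonneg_left apR hCη
  linarith

private theorem T25_int1 {r : ℕ} {A : Om → ℂ} {B U X : Om → ℝ} (cA : Continuous A) (cB : Continuous B)
    (cU : Continuous U) (cX : Continuous X) {C D : Set ℕ} (dB : DependsOn B C) (dU : DependsOn U C)
    (dA : DependsOn A D) (dX : DependsOn X D) (disj : Disjoint C D) (nU : ∀ x, 0 ≤ U x)
    (nX : ∀ x, 0 ≤ X x) {b u a ξ : ℝ} (hb : 0 ≤ b) (hu : 0 ≤ u) (iB : ∫ x, B x ∂mu ≤ b) (iU : ∫ x, U x ∂mu ≤ u)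
    (iA : ∫ x, ‖A x‖ ^ (2 * r) ∂mu ≤ a) (iX : ∫ x, X x ∂mu ≤ ξ) :
    ∫ x, (U x * (1 + ‖A x‖ ^ (2 * r)) + B x * X x) ∂mu ≤ u * (1 + a) + b * ξ := by
  have cA2 : Continuous fun x => 1 + ‖A x‖ ^ (2 * r) := continuous_const.add (cA.norm.pow _)
  have jUA : Integrable (fun x => U x * (1 + ‖A x‖ ^ (2 * r))) mu := integrable_of_continuous (cU.mul cA2)
  have jBX : Integrable (fun x => B x * X x) mu := integrable_of_continuous (cB.mul cX)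
  have iUA : ∫ x, U x * (1 + ‖A x‖ ^ (2 * r)) ∂mu = (∫ x, U x ∂mu) * (1 + ∫ x, ‖A x‖ ^ (2 * r) ∂mu) := by
    rw [integral_mul_indep (f := U) (g := fun x => 1 + ‖A x‖ ^ (2 * r)) cU cA2 dU (by
      intro x y hxy
      simp only
      rw [dA hxy]) disj, integral_add (integrable_const 1) (integrable_of_continuous (by fun_prop))]
    simp
  have iBX : ∫ x, B x * X x ∂mu = (∫ x, B x ∂mu) * ∫ x, X x ∂mu := integral_mul_indep cB cX dB dX disj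
  have nA : 0 ≤ ∫ x, ‖A x‖ ^ (2 * r) ∂mu := integral_nonneg fun x => by positivity
  have nX' : 0 ≤ ∫ x, X x ∂mu := integral_nonneg nX
  have nU' : 0 ≤ ∫ x, U x ∂mu := integral_nonneg nU
  rw [integral_add jUA jBX, iUA, iBX]
  exact add_le_add (mul_le_mul iU (by linarith) (by linarith) hu) (mul_le_mul iB iX nX' hb)

private theorem T25_int2 {k : ℝ} (hk : 0 < k) {A F R S : Om → ℂ} {Φ Ξ Z : Om → ℝ} (cA : Continuous A)
    (cF : Continuous F) (cR : Continuous R) (cS : Continuous S) (cΦ : Continuous Φ) (cΞ : Continuous Ξ)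
    (cZ : Continuous Z) (tele : ∀ x, S x = F x * A x - R x) (pt1 : ∀ x, |‖F x * A x‖ ^ k - Φ x| ≤ Ξ x)
    (apR : ∀ x, ‖R x‖ ^ k ≤ Z x) {s ρ ξ : ℝ} (iS : ∫ x, ‖S x‖ ^ k ∂mu ≤ s) (iZ : ∫ x, Z x ∂mu ≤ ρ)
    (iΞ : ∫ x, Ξ x ∂mu ≤ ξ) : ∫ x, Φ x ∂mu ≤ 2 ^ k * (s + ρ) + ξ := by
  have jΦ : Integrable Φ mu := integrable_of_continuous cΦ
  have jΞ : Integrable Ξ mu := integrable_of_continuous cΞ
  have jZ : Integrable Z mu := integrable_of_continuous cZ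
  have jS : Integrable (fun x => ‖S x‖ ^ k) mu := integrable_of_continuous (by
    exact (continuous_norm.comp cS).rpow_const fun _ => Or.inr hk.le)
  have jR : Integrable (fun x => ‖R x‖ ^ k) mu := integrable_of_continuous (by
    exact (continuous_norm.comp cR).rpow_const fun _ => Or.inr hk.le)
  have jFA : Integrable (fun x => ‖F x * A x‖ ^ k) mu := integrable_of_continuous (by
    exact (continuous_norm.comp (cF.mul cA)).rpow_const fun _ => Or.inr hk.le)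
  have iR2 : ∫ x, ‖R x‖ ^ k ∂mu ≤ ρ := (integral_mono jR jZ apR).trans iZ
  have h2 : (0 : ℝ) ≤ 2 ^ k := by positivity
  have iFA : ∫ x, ‖F x * A x‖ ^ k ∂mu ≤ 2 ^ k * (s + ρ) := by
    have e1 : ∀ x, ‖F x * A x‖ ^ k ≤ 2 ^ k * (‖S x‖ ^ k + ‖R x‖ ^ k) := by
      intro x
      have e2 : F x * A x = S x + R x := by rw [tele x]; ring
      rw [e2]
      exact norm_add_rpow_le hk _ _
    calc ∫ x, ‖F x * A x‖ ^ k ∂mu ≤ ∫ x, 2 ^ k * (‖S x‖ ^ k + ‖R x‖ ^ k) ∂mu :=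
          integral_mono jFA ((jS.add jR).const_mul _) e1
      _ = 2 ^ k * ((∫ x, ‖S x‖ ^ k ∂mu) + ∫ x, ‖R x‖ ^ k ∂mu) := by
          rw [integral_const_mul, integral_add jS jR]
      _ ≤ 2 ^ k * (s + ρ) := mul_le_mul_of_nonneg_left (by linarith) h2
  have e1 : ∀ x, Φ x ≤ ‖F x * A x‖ ^ k + Ξ x := by
    intro x
    have := (abs_le.1 (pt1 x)).1
    linarith
  calc ∫ x, Φ x ∂mu ≤ ∫ x, (‖F x * A x‖ ^ k + Ξ x) ∂mu := integral_mono jΦ (jFA.add jΞ) e1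
    _ = (∫ x, ‖F x * A x‖ ^ k ∂mu) + ∫ x, Ξ x ∂mu := integral_add jFA jΞ
    _ ≤ _ := by linarith

private theorem T25_int3 {Φ Ξ Z : Om → ℝ} (cΦ : Continuous Φ) (cΞ : Continuous Ξ) (cZ : Continuous Z)
    {η Cη ε P N CR g : ℝ} (hη : 0 ≤ η) (hη1 : η ≤ 1) (hCη : 0 ≤ Cη) (hε : 0 ≤ ε) (hN : 0 ≤ N) (hη2 : η * P ≤ ε / 4)
    (hg : Cη * CR * g ≤ ε / 4) (iΦ : ∫ x, Φ x ∂mu ≤ P * N + ε / 12 * N) (iΞ : ∫ x, Ξ x ∂mu ≤ ε / 12 * N)
    (iZ : ∫ x, Z x ∂mu ≤ CR * g * N) :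
    ∫ x, (η * (Φ x + Ξ x) + Cη * Z x + Ξ x) ∂mu ≤ ε * N := by
  have jΦ : Integrable Φ mu := integrable_of_continuous cΦ
  have jΞ : Integrable Ξ mu := integrable_of_continuous cΞ
  have jZ : Integrable Z mu := integrable_of_continuous cZ
  have j1 : Integrable (fun x => η * (Φ x + Ξ x)) mu := (jΦ.add jΞ).const_mul _
  have j2 : Integrable (fun x => Cη * Z x) mu := jZ.const_mul _
  have j3 : Integrable (fun x => η * (Φ x + Ξ x) + Cη * Z x) mu := j1.add j2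
  rw [integral_add j3 jΞ, integral_add j1 j2, integral_const_mul, integral_const_mul, integral_add jΦ jΞ]
  have hεN : 0 ≤ ε * N := mul_nonneg hε hN
  have e1 : η * ((∫ x, Φ x ∂mu) + ∫ x, Ξ x ∂mu) ≤ η * (P * N + ε / 6 * N) :=
    mul_le_mul_of_nonneg_left (by linarith) hη
  have e3 : η * (P * N) ≤ ε / 4 * N := by
    calc η * (P * N) = (η * P) * N := by ring
      _ ≤ _ := mul_le_mul_of_nonneg_right hη2 hN
  have e4 : η * (ε / 6 * N) ≤ 1 * (ε / 6 * N) := mul_le_mul_of_nonneg_right hη1 (by linarith)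
  have e5 : Cη * ∫ x, Z x ∂mu ≤ ε / 4 * N := by
    calc Cη * ∫ x, Z x ∂mu ≤ Cη * (CR * g * N) := mul_le_mul_of_nonneg_left iZ hCη
      _ = (Cη * CR * g) * N := by ring
      _ ≤ _ := mul_le_mul_of_nonneg_right hg hN
  have e2 : η * (P * N + ε / 6 * N) = η * (P * N) + η * (ε / 6 * N) := by ring
  linarith

private theorem T25_mean {X Y Q c D N lA ε Ca Cb E εA : ℝ} (hε : 0 < ε) (hN : 0 < N) (hc : 0 ≤ c) (hCa : 0 < Ca)
    (hCb : 0 ≤ Cb) (hE : 0 ≤ E) (hD : 0 < D) (hDN : D ≤ N) (hX0 : 0 ≤ X) (hX : X ≤ Ca * N) (hεA : εA = ε / (24 * Ca))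
    (hY : |Y - lA| ≤ εA) (e2 : |Q / D - c| < 1) (e3 : |Q / D - c| < ε / (4 * (|lA| + 1)))
    (m1 : (1 - Cb * E) * Q ≤ X) (m2 : X ≤ (1 + Cb * E) * Q) (hK : Cb * E * (c + 1) * (|lA| + 1) ≤ ε / 4) :
    |X * Y - c * D * lA| ≤ ε * N := by
  have hlA : 0 < |lA| + 1 := by positivity
  have e4 : |Q - c * D| ≤ ε / (4 * (|lA| + 1)) * N := by
    have : Q - c * D = (Q / D - c) * D := by field_simp
    rw [this, abs_mul, abs_of_pos hD]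
    exact mul_le_mul e3.le hDN hD.le (by positivity)
  have e5 : Q ≤ (c + 1) * N := by
    have h1 : Q / D ≤ c + 1 := by
      have := (abs_lt.1 e2).2
      linarith
    rw [div_le_iff₀ hD] at h1
    exact le_trans h1 (mul_le_mul_of_nonneg_left hDN (by linarith))
  have e6 : |X - Q| ≤ Cb * E * Q := by
    rw [abs_le]
    constructor <;> linarith
  have hCE : 0 ≤ Cb * E := mul_nonneg hCb hE
  have e7 : |X - c * D| ≤ Cb * E * ((c + 1) * N) + ε / (4 * (|lA| + 1)) * N := by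
    have h1 : |X - c * D| ≤ |X - Q| + |Q - c * D| := abs_sub_le _ _ _
    have h2 : Cb * E * Q ≤ Cb * E * ((c + 1) * N) := mul_le_mul_of_nonneg_left e5 hCE
    linarith
  have e8 : X * Y - c * D * lA = X * (Y - lA) + (X - c * D) * lA := by ring
  rw [e8]
  refine le_trans (abs_add_le _ _) ?_
  rw [abs_mul, abs_mul, abs_of_nonneg hX0]
  have hεA0 : 0 < εA := by rw [hεA]; positivity
  have e9 : X * |Y - lA| ≤ (Ca * N) * εA := mul_le_mul hX hY (abs_nonneg _) (by positivity)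
  have e10 : (Ca * N) * εA = ε / 24 * N := by rw [hεA]; field_simp
  have e11 : |X - c * D| * |lA| ≤ (Cb * E * ((c + 1) * N) + ε / (4 * (|lA| + 1)) * N) * (|lA| + 1) :=
    mul_le_mul e7 (by linarith) (abs_nonneg _) (by positivity)
  have e12 : (Cb * E * ((c + 1) * N) + ε / (4 * (|lA| + 1)) * N) * (|lA| + 1) =
      (Cb * E * (c + 1) * (|lA| + 1)) * N + ε / 4 * N := by
    field_simp
  have e13 : (Cb * E * (c + 1) * (|lA| + 1)) * N ≤ ε / 4 * N := mul_le_mul_of_nonneg_right hK hN.le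
  have e14 : 0 < ε * N := by positivity
  linarith

private theorem T25_poly {Θ L η Cη : ℝ} {A : Om → ℂ} {r : ℕ} {B U Y X Z : Om → ℝ} (hL : 1 ≤ L) (hΘ : 0 ≤ Θ)
    (g1 : IsPolyR (Θ * L) B) (g1' : IsPolyR (Θ * L) U) (g2 : IsPolyR (Θ * L) Y) (g2' : IsPolyR (Θ * L) X)
    (g3 : IsPolyR (Θ * L) Z) (g4 : IsPolyR (Θ * L) (fun _ => η)) (g5 : IsPolyR (Θ * L) (fun _ => Cη))
    (g6 : IsPolyR (Θ * L) (fun x => 1 + ‖A x‖ ^ (2 * r))) :
    IsPolyR ((3 * Θ + 4) * L) (fun x => B x * Y x) ∧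
    IsPolyR ((3 * Θ + 4) * L) (fun x => η * (B x * Y x + (U x * (1 + ‖A x‖ ^ (2 * r)) + B x * X x)) + Cη * Z x +
      (U x * (1 + ‖A x‖ ^ (2 * r)) + B x * X x)) := by
  have hΘL : 0 ≤ Θ * L := by positivity
  have g7 : IsPolyR (Θ * L + Θ * L) (fun x => B x * Y x) := g1.mul g2
  have g8 : IsPolyR (Θ * L + Θ * L + 1) (fun x => U x * (1 + ‖A x‖ ^ (2 * r)) + B x * X x) :=
    (g1'.mul g6).add (g1.mul g2')
  have g9 : IsPolyR (Θ * L + Θ * L + 1 + 1) (fun x => B x * Y x + (U x * (1 + ‖A x‖ ^ (2 * r)) + B x * X x)) :=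
    (g7.mono (by linarith)).add g8
  have g10 := g4.mul g9
  have g11 := (g5.mul g3).mono (show Θ * L + Θ * L ≤ Θ * L + (Θ * L + Θ * L + 1 + 1) by linarith)
  have g12 := g10.add g11
  have g8' := g8.mono (show Θ * L + Θ * L + 1 ≤ Θ * L + (Θ * L + Θ * L + 1 + 1) + 1 by linarith)
  refine ⟨g7.mono (by nlinarith), (g12.add g8').mono ?_⟩
  nlinarith

/-- choice of the parameters `η`, `δ` -/
private theorem T25_par {k : ℝ} (hk : 0 < k) {r : ℕ} (hr' : 2 * r < k + 2) {Cap CR ε : ℝ} (hCap : 0 < Cap)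
    (hCR : 0 < CR) (hε : 0 < ε) : ∃ η Cη δ : ℝ, 0 < η ∧ η ≤ 1 ∧ η * (2 ^ k * (Cap + CR)) ≤ ε / 4 ∧ 0 < Cη ∧
      (∀ a b : ℂ, |‖a + b‖ ^ k - ‖a‖ ^ k| ≤ η * ‖a‖ ^ k + Cη * ‖b‖ ^ k) ∧ 0 < δ ∧ δ < 1 ∧
      Cη * CR * δ ^ (k / 4 * (k + 2 - 2 * r)) ≤ ε / 4 := by
  set P : ℝ := 2 ^ k * (Cap + CR) with hP
  have hP0 : 0 < P := by positivity
  set η : ℝ := min 1 (ε / (4 * P)) with hη
  have hη0 : 0 < η := lt_min one_pos (by positivity)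
  have hη2 : η * P ≤ ε / 4 := by
    calc η * P ≤ ε / (4 * P) * P := mul_le_mul_of_nonneg_right (min_le_right _ _) hP0.le
      _ = ε / 4 := by field_simp
  obtain ⟨Cη, hCη, hpd⟩ := pow_diff hk hη0
  set γ : ℝ := k / 4 * (k + 2 - 2 * r) with hγ
  have hγ0 : 0 < γ := by rw [hγ]; apply mul_pos (by positivity); linarith
  have h1 : Tendsto (fun δ : ℝ => Cη * CR * δ ^ γ) (𝓝[>] 0) (𝓝 (Cη * CR * 0)) := by
    apply Tendsto.const_mul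
    have h2 : Tendsto (fun x : ℝ => x ^ γ) (𝓝 0) (𝓝 ((0 : ℝ) ^ γ)) :=
      (Real.continuousAt_rpow_const 0 γ (Or.inr hγ0.le)).tendsto
    rw [Real.zero_rpow hγ0.ne'] at h2
    exact h2.mono_left nhdsWithin_le_nhds
  rw [mul_zero] at h1
  have h3 : ∀ᶠ δ : ℝ in 𝓝[>] 0, Cη * CR * δ ^ γ < ε / 4 := h1.eventually (gt_mem_nhds (by positivity))
  have h4 : ∀ᶠ δ : ℝ in 𝓝[>] 0, δ ∈ Set.Ioo (0 : ℝ) 1 := Ioo_mem_nhdsGT one_pos
  obtain ⟨δ, h5, h6⟩ := (h3.and h4).exists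
  exact ⟨η, Cη, δ, hη0, min_le_left _ _, hη2, hCη, hpd, h6.1, h6.2, h5.le⟩

/-- choice of `K` -/
private theorem T25_K (Ka Kb KR d : ℝ) {Ca CA Cb c l ε : ℝ} (hε : 0 < ε) :
    ∃ K : ℝ, Ka ≤ K ∧ Kb ≤ K ∧ KR ≤ K ∧ d ≤ K ∧
      Ca * Real.exp (-K / 10) * (1 + CA) ≤ ε / 24 ∧ Cb * Real.exp (-K / 10) * (c + 1) * (|l| + 1) ≤ ε / 4 := by
  have h1 : Tendsto (fun K : ℝ => Real.exp (-K / 10)) atTop (𝓝 0) := by
    have : (fun K : ℝ => Real.exp (-K / 10)) = fun K => Real.exp (-(K / 10)) := by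
      funext K; rw [neg_div]
    rw [this]
    exact Real.tendsto_exp_neg_atTop_nhds_zero.comp (tendsto_id.atTop_div_const (by norm_num))
  have h2 : Tendsto (fun K : ℝ => Ca * Real.exp (-K / 10) * (1 + CA)) atTop (𝓝 (Ca * 0 * (1 + CA))) :=
    (h1.const_mul _).mul_const _
  have h3 : Tendsto (fun K : ℝ => Cb * Real.exp (-K / 10) * (c + 1) * (|l| + 1)) atTop (𝓝 (Cb * 0 * (c + 1) * (|l| + 1))) :=
    ((h1.const_mul _).mul_const _).mul_const _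
  rw [mul_zero, zero_mul] at h2
  rw [mul_zero, zero_mul, zero_mul] at h3
  have h4 := h2.eventually (gt_mem_nhds (show (0 : ℝ) < ε / 24 by positivity))
  have h5 := h3.eventually (gt_mem_nhds (show (0 : ℝ) < ε / 4 by positivity))
  obtain ⟨K, h6, h7, h8, h9, h10, h11⟩ := (h4.and (h5.and ((eventually_ge_atTop Ka).and ((eventually_ge_atTop Kb).and
    ((eventually_ge_atTop KR).and (eventually_ge_atTop d)))))).exists
  exact ⟨K, h8, h9, h10, h11, h6.le, h7.le⟩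

private theorem T25_exp {k : ℝ} {r : ℕ} {δ L : ℝ} (hδ : 0 < δ) (hL : 0 < L) :
    (δ * L) ^ (k ^ 2 / 4) * (L / L) ^ (k / 2) * (L / (δ * L)) ^ (k * (r - 1) / 2) =
      δ ^ (k / 4 * (k + 2 - 2 * r)) * L ^ (k ^ 2 / 4) := by
  rw [div_self hL.ne', Real.one_rpow, mul_one]
  have h1 : L / (δ * L) = δ⁻¹ := by field_simp
  rw [h1, Real.mul_rpow hδ.le hL.le, Real.inv_rpow hδ.le, ← Real.rpow_neg hδ.le]
  have h2 : δ ^ (k ^ 2 / 4) * L ^ (k ^ 2 / 4) * δ ^ (-(k * (r - 1) / 2)) =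
      (δ ^ (k ^ 2 / 4) * δ ^ (-(k * (r - 1) / 2))) * L ^ (k ^ 2 / 4) := by ring
  rw [h2, ← Real.rpow_add hδ]
  congr 2
  ring

private theorem T25_polyA {w : ℝ → ℂ} {Λ : ℝ} (hw : IsWeight w Λ) {L : ℝ} (hL : 1 ≤ L) (u v : ℝ) (r : ℕ) {Θ : ℝ}
    (hΘ : 2 * r * (Λ + 1) + 1 ≤ Θ) :
    IsPolyR (Θ * L) (fun x => 1 + ‖DS (smo u v (Real.exp L)) (fun n => w (Real.log n / L)) x‖ ^ (2 * r)) := by
  have hΛ0 : 0 ≤ Λ := by linarith [hw.one_le]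
  have h1 := (weighted_isPoly hw hL u v).normPow r
  have h2 : IsPolyR (2 * r * ((Λ + 1) * L)) (fun _ : Om => (1 : ℝ)) := by
    apply IsPolyR.const 1 (by positivity)
    rw [abs_one]
    exact Real.one_le_exp (by positivity)
  apply (h2.add h1).mono
  calc 2 * (r : ℝ) * ((Λ + 1) * L) + 1 ≤ (2 * (r : ℝ) * (Λ + 1) + 1) * L := by nlinarith
    _ ≤ _ := mul_le_mul_of_nonneg_right hΘ (by linarith)

/-- the analytic part for one `L`, with all the data given -/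
private theorem T25_main {k : ℝ} (hk : 0 < k) {r : ℕ} (hr : k ≤ 2 * r) {η Cη ε Cap CR Ca CA εA g N E : ℝ}
    (hη : 0 < η) (hη1 : η ≤ 1) (hη2 : η * (2 ^ k * (Cap + CR)) ≤ ε / 4) (hCη : 0 < Cη)
    (hpd : ∀ a b : ℂ, |‖a + b‖ ^ k - ‖a‖ ^ k| ≤ η * ‖a‖ ^ k + Cη * ‖b‖ ^ k) (hε : 0 < ε) (hCR : 0 < CR) (hCa : 0 < Ca)
    (hg1 : g ≤ 1) (hg : Cη * CR * g ≤ ε / 4) (hN : 0 < N) (hE : 0 ≤ E) (hεA : εA = ε / (24 * Ca))
    (hK : Ca * E * (1 + CA) ≤ ε / 24)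
    {F A R S : Om → ℂ} {B U Y X Z : Om → ℝ} (cA : Continuous A) (cF : Continuous F) (cR : Continuous R)
    (cS : Continuous S) (cB : Continuous B) (cU : Continuous U) (cY : Continuous Y) (cX : Continuous X)
    (cZ : Continuous Z) {C D : Set ℕ} (dB : DependsOn B C) (dU : DependsOn U C)
    (dA : DependsOn A D) (dX : DependsOn X D) (disj : Disjoint C D) (nB : ∀ x, 0 ≤ B x) (nU : ∀ x, 0 ≤ U x)
    (tele : ∀ x, S x = F x * A x - R x) (s1 : ∀ x, |‖F x‖ ^ k - B x| ≤ U x) (apA : ∀ x, |‖A x‖ ^ k - Y x| ≤ X x)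
    (apR : ∀ x, ‖R x‖ ^ k ≤ Z x) (iB : ∫ x, B x ∂mu ≤ Ca * N) (iU : ∫ x, U x ∂mu ≤ Ca * E * N)
    (iA : ∫ x, ‖A x‖ ^ (2 * r) ∂mu ≤ CA) (iX : ∫ x, X x ∂mu ≤ εA) (iZ : ∫ x, Z x ∂mu ≤ CR * g * N)
    (iS : ∫ x, ‖S x‖ ^ k ∂mu ≤ Cap * N) :
    (∀ x, |‖S x‖ ^ k - B x * Y x| ≤ η * (B x * Y x + (U x * (1 + ‖A x‖ ^ (2 * r)) + B x * X x)) + Cη * Z x +
      (U x * (1 + ‖A x‖ ^ (2 * r)) + B x * X x)) ∧
    ∫ x, (η * (B x * Y x + (U x * (1 + ‖A x‖ ^ (2 * r)) + B x * X x)) + Cη * Z x +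
      (U x * (1 + ‖A x‖ ^ (2 * r)) + B x * X x)) ∂mu ≤ ε * N := by
  have pt := fun x => T25_pt (U := U x) (Y := Y x) (X := X x) (Z := Z x) hk hr hη.le hCη.le hpd (tele x) (nB x) (nU x)
    (s1 x) (apA x) (apR x)
  have nX : ∀ x, 0 ≤ X x := fun x => (abs_nonneg _).trans (apA x)
  have cΦ : Continuous fun x => B x * Y x := cB.mul cY
  have cΞ : Continuous fun x => U x * (1 + ‖A x‖ ^ (2 * r)) + B x * X x :=
    (cU.mul (continuous_const.add (cA.norm.pow _))).add (cB.mul cX)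
  have i1 : ∫ x, (U x * (1 + ‖A x‖ ^ (2 * r)) + B x * X x) ∂mu ≤ ε / 12 * N := by
    refine (T25_int1 cA cB cU cX dB dU dA dX disj nU nX (by positivity) (by positivity) iB iU iA iX).trans ?_
    have e4 : (Ca * E * N) * (1 + CA) = (Ca * E * (1 + CA)) * N := by ring
    have e5 : (Ca * N) * εA = ε / 24 * N := by rw [hεA]; field_simp
    have e6 : (Ca * E * (1 + CA)) * N ≤ ε / 24 * N := mul_le_mul_of_nonneg_right hK hN.le
    linarith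
  have hZ : CR * g * N ≤ CR * N := by
    have : CR * g ≤ CR := mul_le_of_le_one_right hCR.le hg1
    exact mul_le_mul_of_nonneg_right this hN.le
  have i2 : ∫ x, B x * Y x ∂mu ≤ (2 ^ k * (Cap + CR)) * N + ε / 12 * N := by
    refine (T25_int2 hk cA cF cR cS cΦ cΞ cZ tele (fun x => (pt x).1) apR iS (iZ.trans hZ) i1).trans (le_of_eq ?_)
    ring
  exact ⟨fun x => (pt x).2, T25_int3 cΦ cΞ cZ hη.le hη1 hCη.le hε.le hN.le hη2 hg i2 i1 iZ⟩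

theorem approx_core {k : ℝ} (hk : 0 < k) {C0 : ℝ} (hC0 : 1 ≤ C0) (hS : HasScale k C0) {w : ℝ → ℂ} {Λ : ℝ}
    (hw : IsWeight w Λ) {ε : ℝ} (hε : 0 < ε) :
    ∃ (v Θ L0 : ℝ), ∀ L : ℝ, L0 ≤ L → ∃ Φ Ξ : Om → ℝ,
      (∀ x, |‖SS w L x‖ ^ k - Φ x| ≤ Ξ x) ∧ ∫ x, Ξ x ∂mu ≤ ε * L ^ (k ^ 2 / 4) ∧
      |∫ x, Φ x ∂mu - v * L ^ (k ^ 2 / 4)| ≤ ε * L ^ (k ^ 2 / 4) ∧
      IsPolyR (Θ * L) Φ ∧ IsPolyR (Θ * L) Ξ := by
  obtain ⟨r, hr, hr'⟩ := exists_r hk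
  obtain ⟨Ca, Ka, hCa, hKa, ha⟩ := scale_product hk hr hC0
  obtain ⟨Cb, Kb, hCb, hKb, hb⟩ := scale_product_mean hk hC0
  obtain ⟨Cc, hCc, hc⟩ := scale_product_poly k r hC0
  obtain ⟨CR, KR, hCR, hKR, hR⟩ := R_majorant hk hr hr' hC0 Λ
  obtain ⟨Cap, hCap, hap⟩ := apriori hk hC0 hS Λ
  obtain ⟨c, hc0, hPS⟩ := PS_asymp hk
  obtain ⟨η, Cη, δ, hη0, hη1, hη2, hCη, hpd, hδ, hδ1, hδ2⟩ :=
    T25_par hk hr' (show 0 < Cap by linarith) (show 0 < CR by linarith) hε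
  obtain ⟨lA, ΘA, LA, hA⟩ := top_approx hk hδ hδ1 hw (ε := ε / (24 * Ca)) (by positivity)
  obtain ⟨CA, LA', hCA, hA'⟩ := top_moment hδ hδ1.le Λ r
  obtain ⟨K, hK1, hK2, hK3, hK4, hK5, hK6⟩ := T25_K Ka Kb KR (10 + 5 * Real.log (1 / δ)) (Ca := Ca) (CA := CA)
    (Cb := Cb) (c := c) (l := lA) hε
  have hK0 : 1 ≤ K := le_trans hKa hK1
  have hPS2 : Tendsto (fun L : ℝ => PS k 1 (Real.exp (δ * L)) / (Real.log (Real.exp (δ * L))) ^ (k ^ 2 / 4)) atTop (𝓝 c) :=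
    hPS.comp (Real.tendsto_exp_atTop.comp (tendsto_id.const_mul_atTop hδ))
  have hκ0 : 0 ≤ k ^ 2 / 4 := by positivity
  obtain ⟨L1, hL1⟩ := (Metric.tendsto_atTop.1 hPS2) (min 1 (ε / (4 * (|lA| + 1)))) (lt_min one_pos (by positivity))
  obtain ⟨Θ1, hΘ1', t1, t2, t3, t4, t5, t6⟩ : ∃ Θ1 : ℝ, 0 ≤ Θ1 ∧ Cc * K ≤ Θ1 ∧ ΘA ≤ Θ1 ∧ CR * K ≤ Θ1 ∧
      2 * (r : ℝ) * (Λ + 1) + 1 ≤ Θ1 ∧ |Real.log η| ≤ Θ1 ∧ |Real.log Cη| ≤ Θ1 := by
    have hΛ0 : 0 ≤ Λ := by linarith [hw.one_le]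
    have n1 := abs_nonneg ΘA
    have n2 := abs_nonneg (Real.log η)
    have n3 := abs_nonneg (Real.log Cη)
    have n4 : 0 ≤ CR * K := by positivity
    have n5 : 0 ≤ Cc * K := by positivity
    have n6 : 0 ≤ 2 * (r : ℝ) * (Λ + 1) := by positivity
    have n7 := le_abs_self ΘA
    clear ha hb hc hR hap hA hA' hPS hPS2 hL1 hpd
    refine ⟨Cc * K + |ΘA| + CR * K + 2 * r * (Λ + 1) + 1 + |Real.log η| + |Real.log Cη|, ?_, ?_, ?_, ?_, ?_, ?_, ?_⟩ <;>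
      linarith
  refine ⟨c * δ ^ (k ^ 2 / 4) * lA, 3 * Θ1 + 4, max (max LA LA') (max L1 (max 1 (Real.log 2 / 2 / δ))), ?_⟩
  intro L hL
  have hLA : LA ≤ L := le_trans (le_max_left _ _) (le_trans (le_max_left _ _) hL)
  have hLA' : LA' ≤ L := le_trans (le_max_right _ _) (le_trans (le_max_left _ _) hL)
  have hLL1 : L1 ≤ L := le_trans (le_max_left _ _) (le_trans (le_max_right _ _) hL)
  have hL2 : 1 ≤ L := le_trans (le_max_left _ _) (le_trans (le_max_right _ _) (le_trans (le_max_right _ _) hL))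
  have hL3 : Real.log 2 / 2 / δ ≤ L := le_trans (le_max_right _ _) (le_trans (le_max_right _ _) (le_trans (le_max_right _ _) hL))
  clear hL
  have hL0 : 0 < L := by linarith only [hL2]
  obtain ⟨l0, J, h0, h0', hJ⟩ := exists_scales (lam := δ * L) (by rw [div_le_iff₀ hδ] at hL3; linarith only [hL3])
  have hlog2 : 0 < Real.log 2 := Real.log_pos (by norm_num)
  have hl0 : 0 < l0 := by linarith only [h0, hlog2]
  obtain ⟨b, e, hbe⟩ := exists_scaleData hS J h0 hK0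
  have hbe' : ∀ i < J, ScaleData k C0 (tj l0 i) (tj l0 (i + 1)) (kap K J i) (b i) (e i) := fun i _ => hbe i
  obtain ⟨ΦA, ΞA, dΦA, dΞA, apA, iΞA, iΦA, pΦA, pΞA⟩ := hA L hLA
  have tJ : tj l0 J = Real.exp (δ * L) := by unfold tj; rw [hJ]
  have hδL : δ * L ≤ L := mul_le_of_le_one_left hL0.le hδ1.le
  obtain ⟨ΞR, apR, iR, pR⟩ := hR w hw l0 K L L J h0 h0'.le hK3 (by rw [hJ]; exact hδL) le_rfl
    (kap_cond hδ hδ1.le hK4 hL0 hJ) b e hbe'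
  obtain ⟨s1, s2, s3⟩ := ha l0 K J h0 h0'.le hK1 b e hbe' J le_rfl
  obtain ⟨m1, m2⟩ := hb l0 K J h0 h0' hK2 b e hbe'
  obtain ⟨q1, q2⟩ := hc l0 K J h0 h0'.le hK0 b e hbe' J le_rfl
  have tele := fun x => telescoping w l0 K L L J x
  rw [AA_zero hl0 h0' hL0.le] at tele
  have hAA : AA w l0 L L J = DS (smo (Real.exp (δ * L)) (Real.exp L) (Real.exp L)) (fun n => w (Real.log n / L)) := by
    unfold AA
    rw [tJ]
  rw [hAA] at tele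
  have iA := hA' w hw L hLA'
  have iS := hap w hw L hL2
  have e1 := hL1 L hLL1
  clear ha hb hc hR hap hA hA' hPS hPS2 hL1 hAA
  have bc : ∀ i < J, Continuous (b i) := fun i _ => (hbe i).b_poly.continuous
  have ec : ∀ i < J, Continuous (e i) := fun i _ => (hbe i).e_poly.continuous
  have nB : ∀ x, 0 ≤ BB b J x := BB_nonneg fun i _ => (hbe i).b_nonneg
  have nU : ∀ x, 0 ≤ UU r l0 K J b e J x := UU_nonneg (fun i _ => (hbe i).b_nonneg) (fun i _ => (hbe i).e_nonneg)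
  have dB : DependsOn (BB b J) (coo 1 (tj l0 J)) := dependsOn_BB hl0.le fun i _ => (hbe i).b_dep
  have dU : DependsOn (UU r l0 K J b e J) (coo 1 (tj l0 J)) :=
    dependsOn_UU hl0.le (fun i _ => (hbe i).b_dep) (fun i _ => (hbe i).e_dep)
  rw [tJ] at dB dU
  have disj : Disjoint (coo 1 (Real.exp (δ * L))) (coo (Real.exp (δ * L)) (Real.exp L)) := coo_disjoint le_rfl
  have hN0 : 0 < L ^ (k ^ 2 / 4) := Real.rpow_pos_of_pos hL0 _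
  have hδκ1 : δ ^ (k ^ 2 / 4) ≤ 1 := Real.rpow_le_one hδ.le hδ1.le hκ0
  have hδN : (δ * L) ^ (k ^ 2 / 4) = δ ^ (k ^ 2 / 4) * L ^ (k ^ 2 / 4) := Real.mul_rpow hδ.le hL0.le
  have hδN1 : (δ * L) ^ (k ^ 2 / 4) ≤ L ^ (k ^ 2 / 4) := by rw [hδN]; exact mul_le_of_le_one_left hN0.le hδκ1
  have hδN0 : 0 < (δ * L) ^ (k ^ 2 / 4) := Real.rpow_pos_of_pos (mul_pos hδ hL0) _
  rw [hJ] at s2 s3 iR
  have hE0 : 0 < Real.exp (-K / 10) := Real.exp_pos _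
  have iB : ∫ x, BB b J x ∂mu ≤ Ca * L ^ (k ^ 2 / 4) :=
    le_trans s2 (mul_le_mul_of_nonneg_left hδN1 (by linarith only [hCa]))
  have iU : ∫ x, UU r l0 K J b e J x ∂mu ≤ Ca * Real.exp (-K / 10) * L ^ (k ^ 2 / 4) :=
    le_trans s3 (mul_le_mul_of_nonneg_left hδN1 (mul_nonneg (by linarith only [hCa]) hE0.le))
  have hγ0 : 0 < k / 4 * (k + 2 - 2 * r) := mul_pos (by positivity) (by linarith only [hr'])
  have iZ : ∫ x, ΞR x ∂mu ≤ CR * δ ^ (k / 4 * (k + 2 - 2 * r)) * L ^ (k ^ 2 / 4) := by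
    calc ∫ x, ΞR x ∂mu ≤ _ := iR
      _ = CR * ((δ * L) ^ (k ^ 2 / 4) * (L / L) ^ (k / 2) * (L / (δ * L)) ^ (k * (r - 1) / 2)) := by ring
      _ = _ := by rw [T25_exp hδ hL0]; ring
  obtain ⟨r1, r2⟩ := T25_main (C := coo 1 (Real.exp (δ * L))) (D := coo (Real.exp (δ * L)) (Real.exp L)) hk hr hη0 hη1
    hη2 hCη hpd hε (by linarith only [hCR]) (by linarith only [hCa])
    (Real.rpow_le_one hδ.le hδ1.le hγ0.le) hδ2 hN0 hE0.le rfl hK5 (continuous_DS _ _)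
    continuous_Fj continuous_RR (continuous_DS _ _) (continuous_BB bc) (continuous_UU bc ec) pΦA.continuous
    pΞA.continuous pR.continuous dB dU (dependsOn_DS_smo _ _ _ _) dΞA disj nB nU tele s1 apA apR iB iU iA iΞA iZ iS
  have hΛ0 : 0 ≤ Λ := by linarith only [hw.one_le]
  have hΘ1L : Θ1 ≤ Θ1 * L := le_mul_of_one_le_right hΘ1' hL2
  have hKδ : Cc * K * (l0 * 2 ^ J) ≤ Θ1 * L := by
    rw [hJ]
    calc Cc * K * (δ * L) ≤ Cc * K * L := mul_le_mul_of_nonneg_left hδL (mul_nonneg (by linarith only [hCc]) (by linarith only [hK0]))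
      _ ≤ _ := mul_le_mul_of_nonneg_right t1 hL0.le
  obtain ⟨p1, p2⟩ := T25_poly hL2 hΘ1' (q1.mono hKδ) (q2.mono hKδ) (pΦA.mono (mul_le_mul_of_nonneg_right t2 hL0.le))
    (pΞA.mono (mul_le_mul_of_nonneg_right t2 hL0.le)) (pR.mono (mul_le_mul_of_nonneg_right t3 hL0.le))
    (isPolyR_const_of_pos hη0 (le_trans t5 hΘ1L)) (isPolyR_const_of_pos hCη (le_trans t6 hΘ1L))
    (T25_polyA hw hL2 (Real.exp (δ * L)) (Real.exp L) r t4)
  refine ⟨_, _, r1, r2, ?_, p1, p2⟩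
  have iΦ : ∫ x, BB b J x * ΦA x ∂mu = (∫ x, BB b J x ∂mu) * ∫ x, ΦA x ∂mu :=
    integral_mul_indep (continuous_BB bc) pΦA.continuous dB dΦA disj
  rw [iΦ]
  rw [Real.log_exp, dist_eq_norm, Real.norm_eq_abs, lt_min_iff] at e1
  rw [tJ] at m1 m2
  have h9 := T25_mean hε hN0 hc0.le (by linarith only [hCa]) (by linarith only [hCb]) hE0.le hδN0 hδN1
    (integral_nonneg nB) iB rfl iΦA e1.1 e1.2 m1 m2 hK6
  rw [hδN] at h9
  have e8 : c * (δ ^ (k ^ 2 / 4) * L ^ (k ^ 2 / 4)) * lA = c * δ ^ (k ^ 2 / 4) * lA * L ^ (k ^ 2 / 4) := by ring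
  rw [e8] at h9
  exact h9

theorem approx {k : ℝ} (hk : 0 < k) {C0 : ℝ} (hC0 : 1 ≤ C0) (hS : HasScale k C0) {w : ℝ → ℂ} {Λ : ℝ}
    (hw : IsWeight w Λ) {ε : ℝ} (hε : 0 < ε) :
    ∃ (v Θ L0 : ℝ), ∀ L : ℝ, L0 ≤ L → ∃ Φ Ξ : Om → ℝ,
      (∀ x, |‖SS w L x‖ ^ k - Φ x| ≤ Ξ x) ∧ ∫ x, Ξ x ∂mu ≤ ε * L ^ (k ^ 2 / 4) ∧
      |∫ x, Φ x ∂mu - v * L ^ (k ^ 2 / 4)| ≤ ε * L ^ (k ^ 2 / 4) ∧
      IsPolyR (Θ * L) Φ ∧ IsPolyR (Θ * L) Ξ := approx_core hk hC0 hS hw hε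

end Pool.Agent.LibMM99
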