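import Mathlib
import Pool.Agent.LibMM99.T02
import Pool.Agent.LibMM99.T03
import Pool.Agent.LibMM99.T18

set_option autoImplicit false

namespace Pool.Agent.LibMM99

open MeasureTheory Filter Topology
open scoped ComplexConjugate

namespace T20a

open Polynomial Real Set in
/-- subharmonicity of `|p|^k` for every `k > 0` -/
theorem coeff_zero_rpow_le (p : Polynomial ℂ) {k : ℝ} (hk : 0 < k) :
    ‖p.coeff 0‖ ^ k ≤ (2 * π)⁻¹ * ∫ θ in (0 : ℝ)..(2 * π), ‖p.eval (circleMap 0 1 θ)‖ ^ k := by
  have : IsFiniteMeasure (volume.restrict (uIoc 0 (2 * π))) := by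
    rw [uIoc_of_le (by positivity)]; infer_instance
  have : NeZero (volume (uIoc 0 (2 * π))) := ⟨by simp⟩
  by_cases hp : p = 0
  · rw [hp]
    simp [Real.zero_rpow hk.ne']
  have : ∀ᵐ (θ : ℝ) ∂volume.restrict (uIoc 0 (2 * π)), 0 < ‖p.eval (circleMap 0 1 θ)‖ := by
    rw [ae_restrict_iff' measurableSet_uIoc]
    refine Set.Finite.measure_zero ?_ _
    simp only [norm_pos_iff, ne_eq, compl_ofPred, Classical.not_imp, Decidable.not_not]
    refine Finite.of_finite_image (f := circleMap 0 1) (p.roots.finite_toSet.subset ?_) ?_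
    · rintro z ⟨θ, ⟨_, heval⟩, rfl⟩
      exact (mem_roots hp).mpr heval
    · grw [ofPred_and, inter_subset_left]
      exact injOn_circleMap_of_abs_sub_le one_ne_zero (by simp [abs_of_pos pi_pos])
  have hlogAe : ∀ᵐ (θ : ℝ) ∂volume.restrict (uIoc 0 (2 * π)),
      exp (k * log ‖p.eval (circleMap 0 1 θ)‖) = ‖p.eval (circleMap 0 1 θ)‖ ^ k := by
    filter_upwards [this] with θ hθ
    rw [Real.rpow_def_of_pos hθ, mul_comm]
  have hcont : Continuous (fun x : ℝ ↦ ‖eval (circleMap 0 1 x) p‖ ^ k) := by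
    have h1 : Continuous (fun x : ℝ ↦ ‖eval (circleMap 0 1 x) p‖) := by fun_prop
    exact h1.rpow_const (fun x => Or.inr hk.le)
  have h0 : ‖p.coeff 0‖ ≤ p.mahlerMeasure := by
    have := norm_coeff_le_choose_mul_mahlerMeasure 0 p
    simpa using this
  have h1 : ‖p.coeff 0‖ ^ k ≤ p.mahlerMeasure ^ k := Real.rpow_le_rpow (norm_nonneg _) h0 hk.le
  refine h1.trans ?_
  have h2 : p.mahlerMeasure ^ k = exp (⨍ (θ : ℝ) in 0..(2 * π), k * log ‖p.eval (circleMap 0 1 θ)‖) := by
    simp only [mahlerMeasure, logMahlerMeasure, ne_eq, hp, not_false_eq_true, ↓reduceIte]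
    rw [circleAverage_eq_intervalAverage, ← Real.exp_mul]
    congr 1
    rw [interval_average_eq, interval_average_eq, intervalIntegral.integral_const_mul]
    simp only [smul_eq_mul]
    ring
  rw [h2]
  have h3 : exp (⨍ (θ : ℝ) in 0..(2 * π), k * log ‖p.eval (circleMap 0 1 θ)‖)
    ≤ ⨍ (θ : ℝ) in 0..(2 * π), exp (k * log ‖p.eval (circleMap 0 1 θ)‖) := by
        refine convexOn_exp.map_average_le continuousOn_exp isClosed_univ (by simp) ?_ ?_
        · rw [Set.uIoc_of_le (by positivity : 0 ≤ 2 * Real.pi)]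
          exact (((analyticOnNhd_id.aeval_polynomial p).meromorphicOn.circleIntegrable_log_norm).1).const_mul k
        · exact (integrable_congr hlogAe).mpr hcont.integrableOn_uIoc
  refine h3.trans (le_of_eq ?_)
  rw [average_congr hlogAe, interval_average_eq]
  simp

/-- shift of the coordinates of the primes above `e^V` -/
noncomputable def shf (V : ℝ) (θ : ℝ) (p : ℕ) : UnitAddCircle := by
  classical exact if Real.exp V < (p : ℝ) then ((θ / (2 * Real.pi) : ℝ) : UnitAddCircle) else 0

/-- rotation of the coordinates of the primes above `e^V` -/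
noncomputable def rot (V : ℝ) (θ : ℝ) (x : Om) : Om := fun p => x p + shf V θ p

theorem map_rot (V θ : ℝ) : mu.map (rot V θ) = mu := by
  unfold mu rot
  rw [Measure.infinitePi_map_pi (μ := fun _ : ℕ => (AddCircle.haarAddCircle : Measure UnitAddCircle))
    (f := fun p y => y + shf V θ p) (fun p => measurable_add_const _)]
  congr 1
  funext p
  exact map_add_right_eq_self _ _

theorem continuous_rot (V : ℝ) : Continuous (fun z : Om × ℝ => rot V z.2 z.1) := by
  refine continuous_pi fun p => ?_
  unfold rot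
  have h1 : Continuous (fun z : Om × ℝ => z.1 p) := (continuous_apply p).comp continuous_fst
  have h2 : Continuous (fun z : Om × ℝ => shf V z.2 p) := by
    unfold shf
    split_ifs
    · exact (AddCircle.continuous_mk' 1).comp (by fun_prop)
    · exact continuous_const
  exact h1.add h2

theorem continuous_rot' (V θ : ℝ) : Continuous (rot V θ) := by
  have : rot V θ = (fun z : Om × ℝ => rot V z.2 z.1) ∘ (fun x => (x, θ)) := rfl
  rw [this]
  exact (continuous_rot V).comp (by fun_prop)

theorem integral_rot (V θ : ℝ) {f : Om → ℝ} (hf : Continuous f) : ∫ x, f (rot V θ x) ∂mu = ∫ x, f x ∂mu := by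
  have h := integral_map (μ := mu) (φ := rot V θ) (continuous_rot' V θ).measurable.aemeasurable (f := f)
    (hf.aestronglyMeasurable)
  rw [map_rot] at h
  exact h.symm

/-- number of prime factors above `e^V` with multiplicity -/
noncomputable def omv (V : ℝ) (n : ℕ) : ℕ := by
  classical exact ∑ p ∈ n.primeFactors, if Real.exp V < (p : ℝ) then n.factorization p else 0

theorem toCircle_shift (θ : ℝ) : ((AddCircle.toCircle (((θ / (2 * Real.pi) : ℝ) : UnitAddCircle)) : Circle) : ℂ) =
    circleMap 0 1 θ := by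
  rw [AddCircle.toCircle_apply_mk, Circle.coe_exp, circleMap_zero]
  simp only [Complex.ofReal_one, one_mul]
  congr 2
  have : (2 * Real.pi / 1 * (θ / (2 * Real.pi)) : ℝ) = θ := by
    have := Real.pi_ne_zero
    field_simp
  rw [this]

theorem ch_rot (V θ : ℝ) (x : Om) (n : ℕ) : ch (rot V θ x) n = ch x n * (circleMap 0 1 θ) ^ (omv V n) := by
  classical
  unfold ch omv rot
  rw [← Finset.prod_pow_eq_pow_sum, ← Finset.prod_mul_distrib]
  refine Finset.prod_congr rfl fun p hp => ?_
  rw [fourier_apply, fourier_apply, smul_add, AddCircle.toCircle_add]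
  push_cast
  congr 1
  unfold shf
  split_ifs with h
  · rw [AddCircle.toCircle_zsmul]
    push_cast
    rw [toCircle_shift, zpow_natCast]
  · simp

/-- the one variable polynomial -/
noncomputable def Px (w : ℝ → ℂ) (V L : ℝ) (x : Om) : Polynomial ℂ :=
  ∑ n ∈ Finset.Icc 1 ⌊Real.exp L⌋₊,
    Polynomial.monomial (omv V n) (w (Real.log n / L) * (((Real.sqrt n)⁻¹ : ℝ) : ℂ) * ch x n)

theorem eval_Px (w : ℝ → ℂ) (V L θ : ℝ) (x : Om) : (Px w V L x).eval (circleMap 0 1 θ) = SS w L (rot V θ x) := by
  unfold Px SS DS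
  rw [Polynomial.eval_finsetSum]
  refine Finset.sum_congr rfl fun n _ => ?_
  rw [Polynomial.eval_monomial, ch_rot]
  ring

theorem coeff_Px (w : ℝ → ℂ) {l0 : ℝ} (h2 : l0 < Real.log 2) (V L : ℝ) (x : Om) :
    (Px w V L x).coeff 0 = AA w l0 V L 0 x := by
  classical
  unfold Px AA DS
  rw [Polynomial.finsetSum_coeff]
  have hs : smo (tj l0 0) (Real.exp V) (Real.exp L) =
      (Finset.Icc 1 ⌊Real.exp L⌋₊).filter (fun n => omv V n = 0) := by
    unfold smo
    refine Finset.filter_congr fun n hn => ?_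
    have hn1 : n ≠ 0 := by have := (Finset.mem_Icc.mp hn).1; omega
    constructor
    · intro h
      unfold omv
      refine Finset.sum_eq_zero fun p hp => ?_
      rw [if_neg (not_lt.mpr (h p hp).2)]
    · intro h p hp
      have hpp : p.Prime := Nat.prime_of_mem_primeFactors hp
      constructor
      · unfold tj
        rw [pow_zero, mul_one]
        have h3 : Real.exp l0 < 2 := by
          calc Real.exp l0 < Real.exp (Real.log 2) := Real.exp_lt_exp.mpr h2
            _ = 2 := Real.exp_log (by norm_num)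
        have h4 : (2 : ℝ) ≤ p := by exact_mod_cast hpp.two_le
        linarith
      · by_contra H
        push Not at H
        unfold omv at h
        rw [Finset.sum_eq_zero_iff] at h
        have h5 := h p hp
        rw [if_pos H] at h5
        have h6 : p ∣ n := Nat.dvd_of_mem_primeFactors hp
        exact absurd h5 (hpp.factorization_pos_of_dvd hn1 h6).ne'
  rw [hs, Finset.sum_filter]
  refine Finset.sum_congr rfl fun n _ => ?_
  rw [Polynomial.coeff_monomial]

end T20a

open T20a in
/-- restriction to smooth numbers does not increase the `k`-th moment -/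
theorem smooth_le {k : ℝ} (hk : 0 < k) (w : ℝ → ℂ) {l0 V L : ℝ} (h0 : 0 < l0) (h2 : l0 < Real.log 2)
    (hV : V ≤ L) (hL : 0 ≤ L) :
    ∫ x, ‖AA w l0 V L 0 x‖ ^ k ∂mu ≤ ∫ x, ‖SS w L x‖ ^ k ∂mu := by
  have hSc : Continuous (fun x : Om => ‖SS w L x‖ ^ k) := by
    have h1 : Continuous (SS w L) := continuous_DS _ _
    exact h1.norm.rpow_const (fun x => Or.inr hk.le)
  have hAc : Continuous (fun x : Om => ‖AA w l0 V L 0 x‖ ^ k) := by
    have h1 : Continuous (AA w l0 V L 0) := continuous_DS _ _
    exact h1.norm.rpow_const (fun x => Or.inr hk.le)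
  have hSc2 : Continuous (fun z : Om × ℝ => ‖SS w L (rot V z.2 z.1)‖ ^ k) := hSc.comp (continuous_rot V)
  have hpt : ∀ x, ‖AA w l0 V L 0 x‖ ^ k ≤
      (2 * Real.pi)⁻¹ * ∫ θ in (0 : ℝ)..(2 * Real.pi), ‖SS w L (rot V θ x)‖ ^ k := by
    intro x
    have := coeff_zero_rpow_le (Px w V L x) hk
    rw [coeff_Px w h2] at this
    simp_rw [eval_Px] at this
    exact this
  -- boundedness of the polynomial
  have hbd : ∃ C : ℝ, ∀ x, ‖SS w L x‖ ^ k ≤ C := by
    obtain ⟨C, hC⟩ := (isCompact_univ (X := Om)).exists_bound_of_continuousOn hSc.continuousOn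
    refine ⟨C, fun x => ?_⟩
    have := hC x (Set.mem_univ x)
    rwa [Real.norm_eq_abs, abs_of_nonneg (Real.rpow_nonneg (norm_nonneg _) _)] at this
  obtain ⟨C, hC⟩ := hbd
  have hpi : (0 : ℝ) ≤ 2 * Real.pi := by positivity
  have hintp : Integrable (Function.uncurry fun (x : Om) (θ : ℝ) => ‖SS w L (rot V θ x)‖ ^ k)
      (mu.prod (volume.restrict (Set.Ioc 0 (2 * Real.pi)))) := by
    refine Integrable.of_bound (C := C) ?_ ?_
    · exact hSc2.aestronglyMeasurable
    · refine Eventually.of_forall fun z => ?_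
      simp only [Function.uncurry]
      rw [Real.norm_eq_abs, abs_of_nonneg (Real.rpow_nonneg (norm_nonneg _) _)]
      exact hC _
  have hswap : ∫ x, (2 * Real.pi)⁻¹ * (∫ θ in (0 : ℝ)..(2 * Real.pi), ‖SS w L (rot V θ x)‖ ^ k) ∂mu =
      ∫ x, ‖SS w L x‖ ^ k ∂mu := by
    rw [integral_const_mul]
    simp_rw [intervalIntegral.integral_of_le hpi]
    rw [integral_integral_swap hintp]
    have h3 : ∀ θ : ℝ, ∫ x, ‖SS w L (rot V θ x)‖ ^ k ∂mu = ∫ x, ‖SS w L x‖ ^ k ∂mu := fun θ =>
      integral_rot V θ hSc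
    simp_rw [h3]
    rw [setIntegral_const]
    simp only [smul_eq_mul]
    rw [Measure.real, Real.volume_Ioc, sub_zero, ENNReal.toReal_ofReal hpi, ← mul_assoc,
      inv_mul_cancel₀ (by positivity), one_mul]
  rw [← hswap]
  refine integral_mono (integrable_of_continuous hAc) ?_ hpt
  refine Integrable.const_mul ?_ _
  simp_rw [intervalIntegral.integral_of_le hpi]
  exact hintp.integral_prod_left

end Pool.Agent.LibMM99
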