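import Mathlib
import Pool.Agent.LibMM99.T12
import Pool.Agent.LibMM99.T15a
import Pool.Agent.LibMM99.T15b
import Pool.Agent.LibMM99.T17
import Pool.Agent.LibMM99.T20a
import Pool.Agent.LibMM99.T29

set_option autoImplicit false

namespace Pool.Agent.LibMM99

open MeasureTheory Filter Topology
open scoped ComplexConjugate

private theorem t20b_cont_isPolyR {a : ℝ} {Φ : Om → ℝ} (h : IsPolyR a Φ) : Continuous Φ := by
  obtain ⟨s, c, -, -, hx⟩ := h
  have h1 : Continuous fun x => ((Φ x : ℝ) : ℂ) := by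
    have h2 : (fun x => ((Φ x : ℝ) : ℂ)) = fun x => ∑ q ∈ s, c q * ch x q.1 * conj (ch x q.2) := by
      funext x
      exact hx x
    rw [h2]
    refine continuous_finsetSum _ fun q _ => ?_
    exact ((continuous_const.mul (continuous_ch q.1)).mul
      (Complex.continuous_conj.comp (continuous_ch q.2)))
  have h3 : Continuous fun x => (((Φ x : ℝ) : ℂ)).re := Complex.continuous_re.comp h1
  simpa using h3

private theorem t20b_scales {k C0 : ℝ} (hS : HasScale k C0) {l0 K : ℝ} {J : ℕ}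
    (h0 : Real.log 2 / 2 ≤ l0) (hK : 1 ≤ K) :
    ∃ b e : ℕ → Om → ℝ, ∀ i,
      ScaleData k C0 (tj l0 i) (tj l0 (i + 1)) (kap K J i) (b i) (e i) := by
  have h : ∀ i : ℕ, ∃ b e : Om → ℝ, ScaleData k C0 (tj l0 i) (tj l0 (i + 1)) (kap K J i) b e := by
    intro i
    have hl0 : 0 ≤ l0 := by
      have := Real.log_pos (by norm_num : (1 : ℝ) < 2)
      linarith
    refine hS _ _ _ (sqrt_two_le_tj h0 i) (tj_mono hl0 (Nat.le_succ i)) ?_ ?_
    · rw [log_tj, log_tj, pow_succ]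
      linarith
    · unfold kap
      have h1 : (1 : ℝ) ≤ (3 / 2 : ℝ) ^ (J - 1 - i) := one_le_pow₀ (by norm_num)
      nlinarith
  choose b e hbe using h
  exact ⟨b, e, hbe⟩

theorem lower_bound_g {k : ℝ} (hk : 0 < k) {C0 : ℝ} (hC0 : 1 ≤ C0) (hS : HasScale k C0) (Λ : ℝ) {CE : ℝ} (hCE : 1 ≤ CE) :
    ∃ c L1 : ℝ, 0 < c ∧ 1 ≤ L1 ∧ ∀ (w : ℝ → ℂ), GoodWeight w Λ ⌈k / 2⌉₊ CE → ∀ L : ℝ, L1 ≤ L →
    c * L ^ (k ^ 2 / 4) ≤ ∫ x, ‖SS w L x‖ ^ k ∂mu := by
  have hk0 : 0 < k := by linarith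
  set r : ℕ := ⌈k / 2⌉₊ with hr_def
  have hr : k ≤ 2 * r := by
    have := Nat.le_ceil (k / 2)
    linarith
  have hr' : 2 * (r : ℝ) < k + 2 := by
    have := Nat.ceil_lt_add_one (by positivity : 0 ≤ k / 2)
    linarith
  obtain ⟨Cp, Kp, hCp, hKp, Hp⟩ := scale_product hk0 hr hC0
  obtain ⟨Cm, Km, hCm, hKm, Hm⟩ := scale_product_mean hk0 hC0
  obtain ⟨CR, KR, hCR, hKR, HR⟩ := R_majorant_g hk0 hr hr' hC0 Λ hCE
  obtain ⟨cP, hcP, HP⟩ := PS_asymp hk0
  -- the small parameter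
  set A : ℝ := cP / (16 * 2 ^ k) / CR with hA
  have h2k : (0 : ℝ) < 2 ^ k := Real.rpow_pos_of_pos (by norm_num) k
  have hApos : 0 < A := by positivity
  set δ : ℝ := min 1 (A ^ (2 / k)) with hδ_def
  have hδ0 : 0 < δ := lt_min one_pos (Real.rpow_pos_of_pos hApos _)
  have hδ1 : δ ≤ 1 := min_le_left _ _
  have hδA : CR * δ ^ (k / 2) ≤ cP / (16 * 2 ^ k) := by
    have h1 : δ ^ (k / 2) ≤ (A ^ (2 / k)) ^ (k / 2) :=
      Real.rpow_le_rpow hδ0.le (min_le_right _ _) (by positivity)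
    rw [← Real.rpow_mul hApos.le] at h1
    have h2 : 2 / k * (k / 2) = 1 := by field_simp
    rw [h2, Real.rpow_one] at h1
    calc CR * δ ^ (k / 2) ≤ CR * A := mul_le_mul_of_nonneg_left h1 (by linarith)
      _ = cP / (16 * 2 ^ k) := by
        rw [hA]; field_simp
  -- the large parameter
  have hexp : ∀ ε : ℝ, 0 < ε → ∀ᶠ K : ℝ in atTop, Real.exp (-K / 10) ≤ ε := by
    intro ε hε
    have h1 : Tendsto (fun K : ℝ => Real.exp (-K / 10)) atTop (𝓝 0) := by
      have h2 : Tendsto (fun K : ℝ => -K / 10) atTop atBot := by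
        have h3 : (fun K : ℝ => -K / 10) = fun K : ℝ => -(K / 10) := by funext K; ring
        rw [h3]
        exact tendsto_neg_atTop_atBot.comp (tendsto_id.atTop_div_const (by norm_num))
      exact Real.tendsto_exp_atBot.comp h2
    exact (h1.eventually (ge_mem_nhds hε))
  obtain ⟨K, hK1, hK2, hK3, hK4, hK5, hK6, hK7⟩ : ∃ K : ℝ, Kp ≤ K ∧ Km ≤ K ∧ KR ≤ K ∧
      10 + 5 * Real.log (1 / δ) ≤ K ∧ 1 ≤ K ∧ Real.exp (-K / 10) ≤ 1 / (2 * Cm) ∧
      Real.exp (-K / 10) ≤ cP / (8 * Cp) := by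
    have h := ((eventually_ge_atTop Kp).and ((eventually_ge_atTop Km).and
      ((eventually_ge_atTop KR).and ((eventually_ge_atTop (10 + 5 * Real.log (1 / δ))).and
      ((eventually_ge_atTop (1 : ℝ)).and ((hexp (1 / (2 * Cm)) (by positivity)).and
      (hexp (cP / (8 * Cp)) (by positivity))))))))
    obtain ⟨K, hK⟩ := h.exists
    exact ⟨K, hK⟩
  -- the lower bound for the Euler product
  obtain ⟨t0, ht0⟩ : ∃ t0 : ℝ, ∀ t, t0 ≤ t → cP / 2 * (Real.log t) ^ (k ^ 2 / 4) ≤ PS k 1 t := by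
    have h1 : ∀ᶠ t : ℝ in atTop, cP / 2 < PS k 1 t / (Real.log t) ^ (k ^ 2 / 4) :=
      HP.eventually (lt_mem_nhds (by linarith))
    have h2 : ∀ᶠ t : ℝ in atTop, 1 < t := eventually_gt_atTop 1
    obtain ⟨t0, h3⟩ := eventually_atTop.1 (h1.and h2)
    refine ⟨t0, fun t ht => ?_⟩
    obtain ⟨h4, h5⟩ := h3 t ht
    have h6 : 0 < (Real.log t) ^ (k ^ 2 / 4) := Real.rpow_pos_of_pos (Real.log_pos h5) _
    rw [lt_div_iff₀ h6] at h4
    exact h4.le
  set c : ℝ := cP / (16 * 2 ^ k) * δ ^ (k ^ 2 / 4) with hc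
  have hcpos : 0 < c := by
    have := Real.rpow_pos_of_pos hδ0 (k ^ 2 / 4)
    positivity
  set L1 : ℝ := max 1 (max (Real.log (max t0 1) / δ) (Real.log 2 / 2 / δ)) with hL1
  refine ⟨c, L1, hcpos, le_max_left _ _, ?_⟩
  intro w hw L hL
  have hL_1 : 1 ≤ L := le_trans (le_max_left _ _) hL
  have hL0 : 0 < L := by linarith
  have hL_2 : Real.log (max t0 1) ≤ δ * L := by
    have : Real.log (max t0 1) / δ ≤ L := le_trans (le_trans (le_max_left _ _) (le_max_right _ _)) hL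
    rwa [div_le_iff₀ hδ0, mul_comm] at this
  have hL_3 : Real.log 2 / 2 ≤ δ * L := by
    have : Real.log 2 / 2 / δ ≤ L := le_trans (le_trans (le_max_right _ _) (le_max_right _ _)) hL
    rwa [div_le_iff₀ hδ0, mul_comm] at this
  obtain ⟨l0, J, hl1, hl2, hlJ⟩ := exists_scales hL_3
  have hlog2 := Real.log_pos (by norm_num : (1 : ℝ) < 2)
  have hl0pos : 0 < l0 := by linarith
  obtain ⟨b, e, hbe⟩ := t20b_scales (J := J) hS hl1 hK5
  have hδL : 0 < δ * L := by positivity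
  have hδLL : δ * L ≤ L := by nlinarith
  -- continuity
  have hcb : ∀ i, Continuous (b i) := fun i => t20b_cont_isPolyR (hbe i).b_poly
  have hce : ∀ i, Continuous (e i) := fun i => t20b_cont_isPolyR (hbe i).e_poly
  have hcB : Continuous (BB b J) := continuous_BB fun i _ => hcb i
  have hcU : Continuous (UU r l0 K J b e J) := continuous_UU (fun i _ => hcb i) (fun i _ => hce i)
  obtain ⟨hp1, -, hp3⟩ := Hp l0 K J hl1 hl2.le hK1 b e (fun i _ => hbe i) J le_rfl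
  obtain ⟨hm1, -⟩ := Hm l0 K J hl1 hl2 hK2 b e (fun i _ => hbe i)
  obtain ⟨Ξ, hΞ1, hΞ2, hΞ3⟩ := HR w hw l0 K (δ * L) L J hl1 hl2.le hK3 hlJ.le hδLL
    (kap_cond hδ0 hδ1 hK4 hL0 hlJ) b e (fun i _ => hbe i)
  have hcΞ : Continuous Ξ := t20b_cont_isPolyR hΞ3
  -- the size of the Euler product
  have hPS : cP / 2 * (δ * L) ^ (k ^ 2 / 4) ≤ PS k 1 (tj l0 J) := by
    have h1 := ht0 (tj l0 J) ?_
    · rwa [log_tj, hlJ] at h1
    · have h2 : max t0 1 ≤ tj l0 J := by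
        unfold tj
        rw [hlJ]
        have h3 : (0 : ℝ) < max t0 1 := lt_of_lt_of_le one_pos (le_max_right _ _)
        calc max t0 1 = Real.exp (Real.log (max t0 1)) := (Real.exp_log h3).symm
          _ ≤ Real.exp (δ * L) := Real.exp_le_exp.2 hL_2
      exact le_trans (le_max_left _ _) h2
  set P : ℝ := (δ * L) ^ (k ^ 2 / 4) with hP
  have hPpos : 0 < P := Real.rpow_pos_of_pos hδL _
  have hexp0 := Real.exp_pos (-K / 10)
  -- lower bound for the moment of F_J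
  have hF : cP / 8 * P ≤ ∫ x, ‖Fj l0 K J J x‖ ^ k ∂mu := by
    have h1 : ∫ x, (BB b J x - UU r l0 K J b e J x) ∂mu ≤ ∫ x, ‖Fj l0 K J J x‖ ^ k ∂mu := by
      refine integral_mono (integrable_of_continuous (hcB.sub hcU)) ?_ ?_
      · refine integrable_of_continuous ?_
        exact (continuous_Fj.norm).rpow_const fun x => Or.inr hk0.le
      · intro x
        have := (abs_le.1 (hp1 x)).1
        simp only
        linarith
    rw [integral_sub (integrable_of_continuous hcB) (integrable_of_continuous hcU)] at h1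
    rw [hlJ] at hp3
    have h2 : Cm * Real.exp (-K / 10) ≤ 1 / 2 := by
      have := mul_le_mul_of_nonneg_left hK6 (by linarith : (0 : ℝ) ≤ Cm)
      have h3 : Cm * (1 / (2 * Cm)) = 1 / 2 := by field_simp
      linarith
    have h4 : Cp * Real.exp (-K / 10) ≤ cP / 8 := by
      have := mul_le_mul_of_nonneg_left hK7 (by linarith : (0 : ℝ) ≤ Cp)
      have h3 : Cp * (cP / (8 * Cp)) = cP / 8 := by field_simp
      linarith
    have h5 : Cp * Real.exp (-K / 10) * P ≤ cP / 8 * P := mul_le_mul_of_nonneg_right h4 hPpos.le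
    have h6 : 1 / 2 * (cP / 2 * P) ≤ (1 - Cm * Real.exp (-K / 10)) * PS k 1 (tj l0 J) := by
      have h7 : 0 < cP / 2 * P := by positivity
      apply mul_le_mul (by linarith) hPS h7.le (by linarith)
    linarith
  -- upper bound for the error
  have hRle : ∫ x, Ξ x ∂mu ≤ cP / (16 * 2 ^ k) * P := by
    have h1 : δ * L / L = δ := by field_simp
    have h2 : δ * L / (l0 * 2 ^ J) = 1 := by rw [hlJ]; exact div_self hδL.ne'
    rw [h1, h2, Real.one_rpow, mul_one, hlJ] at hΞ2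
    calc ∫ x, Ξ x ∂mu ≤ CR * P * δ ^ (k / 2) := hΞ2
      _ = (CR * δ ^ (k / 2)) * P := by ring
      _ ≤ cP / (16 * 2 ^ k) * P := mul_le_mul_of_nonneg_right hδA hPpos.le
  -- assembly
  have hfin : 1 / 2 ^ k * (∫ x, ‖Fj l0 K J J x‖ ^ k ∂mu) ≤
      ∫ x, ‖AA w l0 (δ * L) L 0 x‖ ^ k ∂mu + ∫ x, Ξ x ∂mu := by
    rw [← integral_const_mul, ← integral_add]
    · refine integral_mono ?_ ?_ ?_
      · refine (integrable_of_continuous ?_).const_mul _
        exact (continuous_Fj.norm).rpow_const fun x => Or.inr hk0.le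
      · refine integrable_of_continuous (Continuous.add ?_ hcΞ)
        exact (continuous_AA.norm).rpow_const fun x => Or.inr hk0.le
      · intro x
        have h1 := telescoping w l0 K (δ * L) L J x
        have h2 : AA w l0 (δ * L) L J x = 1 := by
          rw [← hlJ]
          exact AA_top' hw.zero hL0 x
        rw [h2, mul_one] at h1
        have h3 : Fj l0 K J J x = AA w l0 (δ * L) L 0 x + RR w l0 K (δ * L) L J x := by
          rw [h1]; ring
        simp only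
        rw [h3]
        have h4 := norm_add_rpow_le hk0 (AA w l0 (δ * L) L 0 x) (RR w l0 K (δ * L) L J x)
        have h5 := hΞ1 x
        rw [one_div, inv_mul_le_iff₀ h2k]
        refine le_trans h4 (mul_le_mul_of_nonneg_left ?_ h2k.le)
        linarith
    · refine integrable_of_continuous ?_
      exact (continuous_AA.norm).rpow_const fun x => Or.inr hk0.le
    · exact integrable_of_continuous hcΞ
  have hsm := smooth_le hk w hl0pos hl2 hδLL hL0.le
  have h8 : 1 / 2 ^ k * (cP / 8 * P) ≤ 1 / 2 ^ k * ∫ x, ‖Fj l0 K J J x‖ ^ k ∂mu :=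
    mul_le_mul_of_nonneg_left hF (by positivity)
  have h9 : c * L ^ (k ^ 2 / 4) = cP / (16 * 2 ^ k) * P := by
    rw [hc, hP, Real.mul_rpow hδ0.le hL0.le]
    ring
  rw [h9]
  have h10 : 1 / 2 ^ k * (cP / 8 * P) = 2 * (cP / (16 * 2 ^ k) * P) := by
    field_simp
    ring
  linarith

theorem lower_bound {k : ℝ} (hk : 0 < k) {C0 : ℝ} (hC0 : 1 ≤ C0) (hS : HasScale k C0) (Λ : ℝ) :
    ∃ c L1 : ℝ, 0 < c ∧ 1 ≤ L1 ∧ ∀ (w : ℝ → ℂ), IsWeight w Λ → ∀ L : ℝ, L1 ≤ L →
    c * L ^ (k ^ 2 / 4) ≤ ∫ x, ‖SS w L x‖ ^ k ∂mu := by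
  obtain ⟨CE, hCE, hg⟩ := exists_goodWeight ⌈k / 2⌉₊ Λ
  obtain ⟨c, L1, hc, hL1, h⟩ := lower_bound_g hk hC0 hS Λ hCE
  exact ⟨c, L1, hc, hL1, fun w hw => h w (hg w hw)⟩

end Pool.Agent.LibMM99
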