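import Mathlib
import Pool.Agent.LibMM99.T01
import Pool.Agent.LibMM99.T02
import Pool.Agent.LibMM99.T07

set_option autoImplicit false

namespace Pool.Agent.LibMM99

open MeasureTheory Filter Topology
open scoped ComplexConjugate

/-- oscillating integral of a single frequency -/
private theorem T08_osc (l : ℝ) (hl : l ≠ 0) (T : ℝ) :
    ‖∫ t in (0 : ℝ)..T, Complex.exp (-((t * l : ℝ) : ℂ) * Complex.I)‖ ≤ 2 / |l| := by
  have hc : (-(l : ℂ) * Complex.I) ≠ 0 := by
    simp [hl]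
  have h1 : (fun t : ℝ => Complex.exp (-((t * l : ℝ) : ℂ) * Complex.I)) =
      fun t : ℝ => Complex.exp ((-(l : ℂ) * Complex.I) * t) := by
    funext t
    congr 1
    push_cast
    ring
  rw [h1, integral_exp_mul_complex hc, norm_div]
  have h2 : ‖(-(l : ℂ) * Complex.I)‖ = |l| := by simp
  rw [h2]
  apply div_le_div_of_nonneg_right _ (abs_nonneg _)
  refine (norm_sub_le _ _).trans ?_
  have h3 : ‖Complex.exp ((-(l : ℂ) * Complex.I) * (T : ℝ))‖ = 1 := by
    rw [Complex.norm_exp]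
    simp
  have h4 : ‖Complex.exp ((-(l : ℂ) * Complex.I) * ((0 : ℝ) : ℂ))‖ = 1 := by
    simp
  rw [h3, h4]
  norm_num

/-- lower bound for the difference of logarithms of distinct integers -/
private theorem T08_log {m n : ℕ} (hm : 1 ≤ m) (hn : 1 ≤ n) (hmn : m ≠ n) {E : ℝ}
    (hmE : (m : ℝ) ≤ E) (hnE : (n : ℝ) ≤ E) : 1 / E ≤ |Real.log m - Real.log n| := by
  have key : ∀ m n : ℕ, 1 ≤ n → n < m → (m : ℝ) ≤ E → 1 / E ≤ |Real.log m - Real.log n| := by
    intro m n hn hlt hmE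
    have hn0 : (0 : ℝ) < n := by exact_mod_cast hn
    have hm0 : (0 : ℝ) < m := by exact_mod_cast (by omega : 0 < m)
    have hE : 0 < E := hm0.trans_le hmE
    have h1 : Real.log m - Real.log n = -Real.log (n / m) := by
      rw [Real.log_div hn0.ne' hm0.ne']
      ring
    have h2 : Real.log (n / m) ≤ n / m - 1 := Real.log_le_sub_one_of_pos (by positivity)
    have h3 : (n : ℝ) + 1 ≤ m := by exact_mod_cast hlt
    have h4 : 1 / (m : ℝ) ≤ 1 - n / m := by
      rw [div_le_iff₀ hm0]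
      field_simp
      linarith
    have h5 : 1 / E ≤ 1 / (m : ℝ) := one_div_le_one_div_of_le hm0 hmE
    refine le_trans ?_ (le_abs_self _)
    rw [h1]
    linarith
  rcases lt_or_gt_of_ne hmn with h | h
  · rw [abs_sub_comm]
    exact key n m hm h hnE
  · exact key m n hn h hmE

private theorem T08_single {m n : ℕ} (hm : 1 ≤ m) (hn : 1 ≤ n) {E : ℝ}
    (hmE : (m : ℝ) ≤ E) (hnE : (n : ℝ) ≤ E) {T : ℝ} (hT : 0 < T) :
    ‖((1 / T : ℝ) : ℂ) * (∫ t in (0 : ℝ)..T, ch (xt t) m * (starRingEnd ℂ) (ch (xt t) n)) -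
      ∫ x, ch x m * (starRingEnd ℂ) (ch x n) ∂mu‖ ≤ 2 * E / T := by
  have hE : 0 < E := lt_of_lt_of_le (by exact_mod_cast hm) hmE
  have hm0 := Nat.one_le_iff_ne_zero.1 hm
  have hn0 := Nat.one_le_iff_ne_zero.1 hn
  rw [integral_ch hm0 hn0]
  by_cases hmn : m = n
  · subst hmn
    rw [if_pos rfl]
    have h1 : ∀ t : ℝ, ch (xt t) m * (starRingEnd ℂ) (ch (xt t) m) = 1 := by
      intro t
      rw [Complex.mul_conj, Complex.normSq_eq_norm_sq, norm_ch]
      simp
    simp_rw [h1]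
    rw [intervalIntegral.integral_const]
    have h2 : ((1 / T : ℝ) : ℂ) * ((T - 0) • (1 : ℂ)) - 1 = 0 := by
      rw [sub_zero, Complex.real_smul, mul_one, ← Complex.ofReal_mul, one_div,
        inv_mul_cancel₀ hT.ne']
      simp
    rw [h2, norm_zero]
    positivity
  · rw [if_neg hmn, sub_zero, norm_mul]
    have h1 : ∀ t : ℝ, ch (xt t) m * (starRingEnd ℂ) (ch (xt t) n) =
        Complex.exp (-((t * (Real.log m - Real.log n) : ℝ) : ℂ) * Complex.I) := by
      intro t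
      rw [ch_xt t hm0, ch_xt t hn0, ← Complex.exp_conj, ← Complex.exp_add]
      congr 1
      rw [map_mul, map_neg, Complex.conj_ofReal, Complex.conj_I]
      push_cast
      ring
    simp_rw [h1]
    have h2 := T08_log hm hn hmn hmE hnE
    have h3 : Real.log m - Real.log n ≠ 0 := by
      intro h
      rw [h, abs_zero] at h2
      have : 0 < 1 / E := by positivity
      linarith
    have h4 := T08_osc _ h3 T
    have h5 : 2 / |Real.log m - Real.log n| ≤ 2 * E := by
      rw [div_le_iff₀ (abs_pos.2 h3)]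
      have : 1 ≤ E * |Real.log m - Real.log n| := by
        have := mul_le_mul_of_nonneg_left h2 hE.le
        rwa [mul_one_div, div_self hE.ne'] at this
      nlinarith
    rw [Complex.norm_real, Real.norm_of_nonneg (by positivity)]
    calc 1 / T * ‖∫ t in (0 : ℝ)..T, Complex.exp (-((t * (Real.log m - Real.log n) : ℝ) : ℂ) * Complex.I)‖
        ≤ 1 / T * (2 * E) := mul_le_mul_of_nonneg_left (h4.trans h5) (by positivity)
      _ = 2 * E / T := by ring

theorem IsPoly.compare {a : ℝ} {Φ : Om → ℂ} (h : IsPoly a Φ) {T : ℝ} (hT : 0 < T) :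
    ‖((1 / T : ℝ) : ℂ) * (∫ t in (0 : ℝ)..T, Φ (xt t)) - ∫ x, Φ x ∂mu‖ ≤ 2 * Real.exp (2 * a) / T := by
  obtain ⟨s, c, h1, h2, h3⟩ := h
  simp_rw [h3]
  have hcont : ∀ q : ℕ × ℕ, Continuous fun x : Om => ch x q.1 * (starRingEnd ℂ) (ch x q.2) :=
    fun q => (continuous_ch _).mul (Complex.continuous_conj.comp (continuous_ch _))
  have e1 : (∫ t in (0 : ℝ)..T, ∑ q ∈ s, c q * ch (xt t) q.1 * (starRingEnd ℂ) (ch (xt t) q.2)) =
      ∑ q ∈ s, c q * ∫ t in (0 : ℝ)..T, ch (xt t) q.1 * (starRingEnd ℂ) (ch (xt t) q.2) := by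
    simp_rw [mul_assoc]
    rw [intervalIntegral.integral_finsetSum]
    · apply Finset.sum_congr rfl
      intro q _
      rw [intervalIntegral.integral_const_mul]
    · intro q _
      exact (continuous_const.mul ((hcont q).comp continuous_xt)).intervalIntegrable _ _
  have e2 : (∫ x, ∑ q ∈ s, c q * ch x q.1 * (starRingEnd ℂ) (ch x q.2) ∂mu) =
      ∑ q ∈ s, c q * ∫ x, ch x q.1 * (starRingEnd ℂ) (ch x q.2) ∂mu := by
    simp_rw [mul_assoc]
    rw [integral_finsetSum]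
    · apply Finset.sum_congr rfl
      intro q _
      rw [integral_const_mul]
    · intro q _
      exact integrable_of_continuous (continuous_const.mul (hcont q))
  rw [e1, e2, Finset.mul_sum, ← Finset.sum_sub_distrib]
  have e3 : ∀ q ∈ s, ‖((1 / T : ℝ) : ℂ) * (c q * ∫ t in (0 : ℝ)..T, ch (xt t) q.1 * (starRingEnd ℂ) (ch (xt t) q.2)) -
      c q * ∫ x, ch x q.1 * (starRingEnd ℂ) (ch x q.2) ∂mu‖ ≤ ‖c q‖ * (2 * Real.exp a / T) := by
    intro q hq
    have A := h1 q hq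
    have B := T08_single A.1 A.2.1 A.2.2.1 A.2.2.2 hT
    have e4 : ((1 / T : ℝ) : ℂ) * (c q * ∫ t in (0 : ℝ)..T, ch (xt t) q.1 * (starRingEnd ℂ) (ch (xt t) q.2)) -
      c q * ∫ x, ch x q.1 * (starRingEnd ℂ) (ch x q.2) ∂mu =
      c q * (((1 / T : ℝ) : ℂ) * (∫ t in (0 : ℝ)..T, ch (xt t) q.1 * (starRingEnd ℂ) (ch (xt t) q.2)) -
        ∫ x, ch x q.1 * (starRingEnd ℂ) (ch x q.2) ∂mu) := by ring
    rw [e4, norm_mul]
    exact mul_le_mul_of_nonneg_left B (norm_nonneg _)
  refine (norm_sum_le _ _).trans ((Finset.sum_le_sum e3).trans ?_)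
  rw [← Finset.sum_mul]
  have e5 : Real.exp (2 * a) = Real.exp a * Real.exp a := by
    rw [← Real.exp_add]
    congr 1
    ring
  calc (∑ q ∈ s, ‖c q‖) * (2 * Real.exp a / T) ≤ Real.exp a * (2 * Real.exp a / T) :=
        mul_le_mul_of_nonneg_right h2 (by positivity)
    _ = 2 * Real.exp (2 * a) / T := by rw [e5]; ring

theorem IsPolyR.compare {a : ℝ} {Φ : Om → ℝ} (h : IsPolyR a Φ) {T : ℝ} (hT : 0 < T) :
    |(1 / T) * (∫ t in (0 : ℝ)..T, Φ (xt t)) - ∫ x, Φ x ∂mu| ≤ 2 * Real.exp (2 * a) / T := by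
  have h1 := IsPoly.compare h hT
  rw [intervalIntegral.integral_ofReal, integral_complex_ofReal, ← Complex.ofReal_mul,
    ← Complex.ofReal_sub, Complex.norm_real, Real.norm_eq_abs] at h1
  exact h1

end Pool.Agent.LibMM99
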