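import Mathlib
import Pool.Agent.LibMM99.T01
import Pool.Agent.LibMM99.T08
import Pool.Agent.LibMM99.T19
import Pool.Agent.LibMM99.T25

set_option autoImplicit false

namespace Pool.Agent.LibMM99

open MeasureTheory Filter Topology
open scoped ComplexConjugate

theorem SS_xt (w : ℝ → ℂ) (L t : ℝ) : SS w L (xt t) = ∑ n ∈ Finset.Icc 1 ⌊Real.exp L⌋₊,
    w (Real.log n / L) * (n : ℂ) ^ (-(1 / 2 + t * Complex.I) : ℂ) := by
  unfold SS DS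
  apply Finset.sum_congr rfl
  intro n hn
  have hn1 : 1 ≤ n := (Finset.mem_Icc.1 hn).1
  have hn0 : n ≠ 0 := by omega
  have hnC : (n : ℂ) ≠ 0 := by exact_mod_cast hn0
  have hnR : (0 : ℝ) < n := by exact_mod_cast hn1
  rw [ch_xt t hn0, mul_assoc]
  congr 1
  have h1 : (((Real.sqrt n)⁻¹ : ℝ) : ℂ) = Complex.exp (((-(1 / 2) * Real.log n : ℝ) : ℂ)) := by
    rw [← Complex.ofReal_exp]
    congr 1
    rw [Real.sqrt_eq_rpow, ← Real.rpow_neg hnR.le, Real.rpow_def_of_pos hnR]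
    ring_nf
  rw [h1, ← Complex.exp_add, Complex.cpow_def_of_ne_zero hnC, ← Complex.natCast_log]
  congr 1
  push_cast
  ring

theorem exists_limit {m : ℝ → ℝ} (h : ∀ ε : ℝ, 0 < ε → ∃ v L0 : ℝ, ∀ L : ℝ, L0 ≤ L → |m L - v| ≤ ε) :
    ∃ C, Tendsto m atTop (𝓝 C) := by
  apply cauchySeq_tendsto_of_complete
  rw [Metric.cauchySeq_iff']
  intro ε hε
  obtain ⟨v, L0, h1⟩ := h (ε / 3) (by positivity)
  refine ⟨L0, fun n hn => ?_⟩
  rw [dist_eq_norm, Real.norm_eq_abs]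
  have h2 := h1 n hn
  have h3 := h1 L0 le_rfl
  rw [abs_le] at h2 h3
  rw [abs_lt]
  constructor <;> linarith [h2.1, h2.2, h3.1, h3.2]

theorem weighted_core {k : ℝ} (hk : 0 < k) {C0 : ℝ} (hC0 : 1 ≤ C0) (hS : HasScale k C0) {w : ℝ → ℂ} {Λ : ℝ} (hw : IsWeight w Λ) :
    ∃ C : ℝ, Tendsto (fun L : ℝ => (∫ x, ‖SS w L x‖ ^ k ∂mu) / L ^ (k ^ 2 / 4)) atTop (𝓝 C) ∧
      ∀ ε : ℝ, 0 < ε → ∃ θ L0 : ℝ, 0 < θ ∧ 1 ≤ L0 ∧ ∀ L T : ℝ, L0 ≤ L → 1 ≤ T → L ≤ θ * Real.log T →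
      |(1 / T) * (∫ t in (0 : ℝ)..T, ‖SS w L (xt t)‖ ^ k) - C * L ^ (k ^ 2 / 4)| ≤
        ε * L ^ (k ^ 2 / 4) := by
  have happ := fun (ε : ℝ) (hε : 0 < ε) => approx hk hC0 hS hw hε
  have hcS : ∀ L, Continuous fun x => ‖SS w L x‖ ^ k := fun L =>
    ((continuous_norm.comp (continuous_DS _ _)).rpow_const fun _ => Or.inr hk.le)
  set κ4 : ℝ := k ^ 2 / 4 with hκ4
  have hκ0 : 0 ≤ κ4 := by positivity
  -- means
  have hmean : ∀ (L v Θ ε : ℝ) (Φ Ξ : Om → ℝ), 1 ≤ L → (∀ x, |‖SS w L x‖ ^ k - Φ x| ≤ Ξ x) →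
      ∫ x, Ξ x ∂mu ≤ ε * L ^ κ4 → |∫ x, Φ x ∂mu - v * L ^ κ4| ≤ ε * L ^ κ4 → IsPolyR (Θ * L) Φ → IsPolyR (Θ * L) Ξ →
      |(∫ x, ‖SS w L x‖ ^ k ∂mu) / L ^ κ4 - v| ≤ 2 * ε := by
    intro L v Θ ε Φ Ξ hL h1 h2 h3 h4 h5
    have hN : 0 < L ^ κ4 := Real.rpow_pos_of_pos (by linarith) _
    have j1 : Integrable (fun x => ‖SS w L x‖ ^ k) mu := integrable_of_continuous (hcS L)
    have j2 : Integrable Φ mu := integrable_of_continuous h4.continuous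
    have j3 : Integrable Ξ mu := integrable_of_continuous h5.continuous
    have h6 : |(∫ x, ‖SS w L x‖ ^ k ∂mu) - ∫ x, Φ x ∂mu| ≤ ∫ x, Ξ x ∂mu := by
      rw [← integral_sub j1 j2]
      refine le_trans (abs_integral_le_integral_abs) ?_
      exact integral_mono (j1.sub j2).abs j3 h1
    have h7 : (∫ x, ‖SS w L x‖ ^ k ∂mu) / L ^ κ4 - v = ((∫ x, ‖SS w L x‖ ^ k ∂mu) - v * L ^ κ4) / L ^ κ4 := by
      field_simp
    rw [h7, abs_div, abs_of_pos hN, div_le_iff₀ hN]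
    have h8 := abs_sub_le (∫ x, ‖SS w L x‖ ^ k ∂mu) (∫ x, Φ x ∂mu) (v * L ^ κ4)
    linarith
  obtain ⟨C, hC⟩ : ∃ C, Tendsto (fun L : ℝ => (∫ x, ‖SS w L x‖ ^ k ∂mu) / L ^ κ4) atTop (𝓝 C) := by
    apply exists_limit
    intro ε hε
    obtain ⟨v, Θ, L0, h⟩ := happ (ε / 2) (by positivity)
    refine ⟨v, max L0 1, fun L hL => ?_⟩
    obtain ⟨Φ, Ξ, h1, h2, h3, h4, h5⟩ := h L (le_trans (le_max_left _ _) hL)
    have := hmean L v Θ (ε / 2) Φ Ξ (le_trans (le_max_right _ _) hL) h1 h2 h3 h4 h5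
    linarith
  refine ⟨C, hC, ?_⟩
  intro ε hε
  obtain ⟨v, Θ, L0, h⟩ := happ (ε / 8) (by positivity)
  have hv : |C - v| ≤ 2 * (ε / 8) := by
    have h1 : Tendsto (fun L : ℝ => |(∫ x, ‖SS w L x‖ ^ k ∂mu) / L ^ κ4 - v|) atTop (𝓝 |C - v|) :=
      (hC.sub_const v).abs
    apply le_of_tendsto h1
    filter_upwards [eventually_ge_atTop (max L0 1)] with L hL
    obtain ⟨Φ, Ξ, h1, h2, h3, h4, h5⟩ := h L (le_trans (le_max_left _ _) hL)
    exact hmean L v Θ (ε / 8) Φ Ξ (le_trans (le_max_right _ _) hL) h1 h2 h3 h4 h5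
  obtain ⟨L1, hL1⟩ : ∃ L1 : ℝ, ∀ L, L1 ≤ L → 2 * Real.exp (-L) ≤ ε / 8 := by
    have h1 : Tendsto (fun L : ℝ => 2 * Real.exp (-L)) atTop (𝓝 (2 * 0)) :=
      Real.tendsto_exp_neg_atTop_nhds_zero.const_mul 2
    rw [mul_zero] at h1
    have h2 := h1.eventually (gt_mem_nhds (show (0 : ℝ) < ε / 8 by positivity))
    obtain ⟨L1, h3⟩ := eventually_atTop.1 h2
    exact ⟨L1, fun L hL => (h3 L hL).le⟩
  refine ⟨1 / (4 * (|Θ| + 1)), max (max L0 1) L1, by positivity, le_trans (le_max_right _ _) (le_max_left _ _), ?_⟩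
  intro L T hL hT hLT
  have hLL0 : L0 ≤ L := le_trans (le_max_left _ _) (le_trans (le_max_left _ _) hL)
  have hL1' : 1 ≤ L := le_trans (le_max_right _ _) (le_trans (le_max_left _ _) hL)
  have hLL1 : L1 ≤ L := le_trans (le_max_right _ _) hL
  obtain ⟨Φ, Ξ, h1, h2, h3, h4, h5⟩ := h L hLL0
  have hT0 : 0 < T := by linarith
  have hN1 : 1 ≤ L ^ κ4 := Real.one_le_rpow hL1' hκ0
  -- the comparison error
  have herr : 2 * Real.exp (2 * (Θ * L)) / T ≤ ε / 8 * L ^ κ4 := by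
    have e1 : 4 * (|Θ| + 1) * L ≤ Real.log T := by
      rw [one_div, inv_mul_eq_div, le_div_iff₀ (by positivity)] at hLT
      linarith
    have e2 : Real.exp (4 * (|Θ| + 1) * L) ≤ T := by
      rw [← Real.exp_log hT0]; exact Real.exp_le_exp.2 e1
    have e3 : 2 * Real.exp (2 * (Θ * L)) ≤ 2 * Real.exp (-L) * T := by
      calc 2 * Real.exp (2 * (Θ * L)) ≤ 2 * Real.exp (-L + 4 * (|Θ| + 1) * L) := by
            apply mul_le_mul_of_nonneg_left _ (by norm_num)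
            apply Real.exp_le_exp.2
            have e4 := le_abs_self Θ
            have e5 := abs_nonneg Θ
            nlinarith
        _ = 2 * Real.exp (-L) * Real.exp (4 * (|Θ| + 1) * L) := by rw [Real.exp_add]; ring
        _ ≤ _ := by gcongr
    rw [div_le_iff₀ hT0]
    have e6 := hL1 L hLL1
    calc 2 * Real.exp (2 * (Θ * L)) ≤ 2 * Real.exp (-L) * T := e3
      _ ≤ ε / 8 * T := by gcongr
      _ ≤ ε / 8 * L ^ κ4 * T := by
        have : ε / 8 * 1 ≤ ε / 8 * L ^ κ4 := by gcongr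
        nlinarith
  have c1 := h4.compare hT0
  have c2 := h5.compare hT0
  have hT1 : 0 < 1 / T := by positivity
  -- integrals over t
  have ct1 : Continuous fun t => ‖SS w L (xt t)‖ ^ k := (hcS L).comp continuous_xt
  have ct2 : Continuous fun t => Φ (xt t) := h4.continuous.comp continuous_xt
  have ct3 : Continuous fun t => Ξ (xt t) := h5.continuous.comp continuous_xt
  have i1 : |(∫ t in (0 : ℝ)..T, ‖SS w L (xt t)‖ ^ k) - ∫ t in (0 : ℝ)..T, Φ (xt t)| ≤ ∫ t in (0 : ℝ)..T, Ξ (xt t) := by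
    rw [← intervalIntegral.integral_sub (ct1.intervalIntegrable _ _) (ct2.intervalIntegrable _ _)]
    refine le_trans (intervalIntegral.abs_integral_le_integral_abs hT0.le) ?_
    apply intervalIntegral.integral_mono_on hT0.le
    · exact ((ct1.sub ct2).abs).intervalIntegrable _ _
    · exact ct3.intervalIntegrable _ _
    · intro t _
      exact h1 (xt t)
  have i2 : |(1 / T) * (∫ t in (0 : ℝ)..T, ‖SS w L (xt t)‖ ^ k) - (1 / T) * ∫ t in (0 : ℝ)..T, Φ (xt t)| ≤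
      (1 / T) * ∫ t in (0 : ℝ)..T, Ξ (xt t) := by
    rw [← mul_sub, abs_mul, abs_of_pos hT1]
    gcongr
  have i3 : (1 / T) * ∫ t in (0 : ℝ)..T, Ξ (xt t) ≤ 2 * (ε / 8) * L ^ κ4 := by
    have := (abs_le.1 c2).2
    linarith
  have i4 : |C * L ^ κ4 - v * L ^ κ4| ≤ 2 * (ε / 8) * L ^ κ4 := by
    rw [← sub_mul, abs_mul, abs_of_pos (by linarith : 0 < L ^ κ4)]
    gcongr
  have i5 : 0 ≤ ε * L ^ κ4 := by positivity
  rw [abs_le] at i2 c1 h3 i4 ⊢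
  constructor <;> linarith [i2.1, i2.2, c1.1, c1.2, h3.1, h3.2, i4.1, i4.2]

/-- the constant may be zero here; positivity comes from a lower bound -/
theorem weighted {k : ℝ} (hk : 0 < k) {C0 : ℝ} (hC0 : 1 ≤ C0) (hS : HasScale k C0) {w : ℝ → ℂ} {Λ : ℝ} (hw : IsWeight w Λ) :
    ∃ C : ℝ, Tendsto (fun L : ℝ => (∫ x, ‖SS w L x‖ ^ k ∂mu) / L ^ (k ^ 2 / 4)) atTop (𝓝 C) ∧
      ∀ ε : ℝ, 0 < ε → ∃ θ L0 : ℝ, 0 < θ ∧ 1 ≤ L0 ∧ ∀ L T : ℝ, L0 ≤ L → 1 ≤ T → L ≤ θ * Real.log T →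
      |(1 / T) * (∫ t in (0 : ℝ)..T, ‖∑ n ∈ Finset.Icc 1 ⌊Real.exp L⌋₊,
          w (Real.log n / L) * (n : ℂ) ^ (-(1 / 2 + t * Complex.I) : ℂ)‖ ^ k) - C * L ^ (k ^ 2 / 4)| ≤
        ε * L ^ (k ^ 2 / 4) := by
  obtain ⟨C, hC, h⟩ := weighted_core hk hC0 hS hw
  refine ⟨C, hC, fun ε hε => ?_⟩
  obtain ⟨θ, L0, h1, h2, h3⟩ := h ε hε
  refine ⟨θ, L0, h1, h2, fun L T hL hT hLT => ?_⟩
  have := h3 L T hL hT hLT
  simp only [SS_xt] at this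
  exact this

end Pool.Agent.LibMM99
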