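import Mathlib
import Pool.Agent.LibZM.ZetaApprox

set_option autoImplicit false

namespace Pool.Agent.LibMM99

open MeasureTheory Filter Topology
open scoped ComplexConjugate

namespace T27

open Complex in
/-- the point `1/2 + i (t + h u)` -/
noncomputable def sp (t h u : ℝ) : ℂ := 1 / 2 + ((t + h * u : ℝ) : ℂ) * Complex.I

lemma sp_re (t h u : ℝ) : (sp t h u).re = 1 / 2 := by simp [sp]

lemma sp_ne_one (t h u : ℝ) : sp t h u ≠ 1 := by
  intro H
  have := congrArg Complex.re H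
  rw [sp_re] at this
  norm_num at this

lemma norm_sp_le (t h u : ℝ) : ‖sp t h u‖ ≤ (1 / 2 + |t|) + |h| * |u| := by
  unfold sp
  refine (norm_add_le _ _).trans ?_
  have h1 : ‖(1 / 2 : ℂ)‖ = 1 / 2 := by norm_num
  have h2 : ‖((t + h * u : ℝ) : ℂ) * Complex.I‖ = |t + h * u| := by
    rw [norm_mul, Complex.norm_I, mul_one, Complex.norm_real, Real.norm_eq_abs]
  rw [h1, h2]
  have := abs_add_le t (h * u)
  rw [abs_mul] at this
  linarith

lemma cont_sp (t h : ℝ) : Continuous (fun u => sp t h u) := by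
  unfold sp
  fun_prop

lemma cont_zeta (t h : ℝ) : Continuous (fun u => riemannZeta (sp t h u)) := by
  rw [continuous_iff_continuousAt]
  intro u
  exact ContinuousAt.comp (f := fun u => sp t h u) (g := riemannZeta)
    (differentiableAt_riemannZeta (sp_ne_one t h u)).continuousAt (cont_sp t h).continuousAt

/-- integrability of the majorant -/
lemma integrable_bound {φ : ℝ → ℂ} (hφ : Integrable φ) (hφ1 : Integrable fun u : ℝ => (u : ℂ) * φ u) (a b : ℝ) :
    Integrable (fun u : ℝ => (a + b * |u|) * ‖φ u‖) := by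
  have h1 := hφ.norm.const_mul a
  have h2 := hφ1.norm.const_mul b
  refine (h1.add h2).congr (Eventually.of_forall fun u => ?_)
  simp only [Pi.add_apply, norm_mul, Complex.norm_real, Real.norm_eq_abs]
  ring

/-- integrability of a product with a continuous function of linear growth -/
lemma integrable_mul_of_growth {φ : ℝ → ℂ} (hφ : Integrable φ) (hφ1 : Integrable fun u : ℝ => (u : ℂ) * φ u)
    {f : ℝ → ℂ} (hf : Continuous f) {a b : ℝ} (hb : ∀ u, ‖f u‖ ≤ a + b * |u|) :
    Integrable (fun u : ℝ => f u * φ u) := by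
  refine (integrable_bound hφ hφ1 a b).mono' (hf.aestronglyMeasurable.mul hφ.1) (Eventually.of_forall fun u => ?_)
  rw [norm_mul]
  exact mul_le_mul_of_nonneg_right (hb u) (norm_nonneg _)

lemma cont_npow {n : ℕ} (hn : n ≠ 0) (t h : ℝ) : Continuous (fun u => (n : ℂ) ^ (-(sp t h u))) := by
  have : (n : ℂ) ≠ 0 := by exact_mod_cast hn
  exact Continuous.const_cpow (cont_sp t h).neg (Or.inl this)

lemma norm_npow_le {n : ℕ} (hn : n ≠ 0) (t h u : ℝ) : ‖(n : ℂ) ^ (-(sp t h u))‖ ≤ 1 := by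
  have hn0 : (0 : ℝ) < n := by exact_mod_cast Nat.pos_of_ne_zero hn
  rw [show ((n : ℂ)) = ((n : ℝ) : ℂ) by simp, Complex.norm_cpow_eq_rpow_re_of_pos hn0, Complex.neg_re, sp_re]
  refine Real.rpow_le_one_of_one_le_of_nonpos ?_ (by norm_num)
  exact_mod_cast Nat.one_le_iff_ne_zero.mpr hn

lemma npow_eq {n : ℕ} (hn : n ≠ 0) (t h u : ℝ) : (n : ℂ) ^ (-(sp t h u)) =
    (n : ℂ) ^ (-(1 / 2 + t * Complex.I) : ℂ) * Complex.exp (-((h * Real.log n * u : ℝ) : ℂ) * Complex.I) := by
  have hn1 : (n : ℂ) ≠ 0 := by exact_mod_cast hn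
  rw [Complex.cpow_def_of_ne_zero hn1, Complex.cpow_def_of_ne_zero hn1, ← Complex.exp_add]
  congr 1
  rw [← Complex.natCast_log]
  unfold sp
  push_cast
  ring

/-- the pole term as an exponential integral -/
lemma pole_eq {N : ℕ} (hN : 1 ≤ N) (t h u : ℝ) :
    (N : ℂ) ^ (1 - sp t h u) / (1 - sp t h u) =
      ∫ v in Set.Iic (Real.log N), Complex.exp ((1 - sp t h u) * v) := by
  have hre : 0 < (1 - sp t h u).re := by
    rw [Complex.sub_re, sp_re]; norm_num
  rw [integral_exp_mul_complex_Iic hre]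
  have hN1 : (N : ℂ) ≠ 0 := by exact_mod_cast (Nat.one_le_iff_ne_zero.mp hN)
  rw [Complex.cpow_def_of_ne_zero hN1, ← Complex.natCast_log, mul_comm]

lemma exp_split (t h u v : ℝ) : Complex.exp ((1 - sp t h u) * v) =
    Complex.exp ((1 / 2 - t * Complex.I) * v) * Complex.exp (-((h * v * u : ℝ) : ℂ) * Complex.I) := by
  rw [← Complex.exp_add]
  congr 1
  unfold sp
  push_cast
  ring

lemma norm_exp_I (a : ℝ) : ‖Complex.exp (-((a : ℝ) : ℂ) * Complex.I)‖ = 1 := by
  rw [show -((a : ℝ) : ℂ) * Complex.I = ((-a : ℝ) : ℂ) * Complex.I by push_cast; ring]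
  exact Complex.norm_exp_ofReal_mul_I _

lemma norm_exp_I' (a : ℝ) : ‖Complex.exp (((a : ℝ) : ℂ) * Complex.I)‖ = 1 :=
  Complex.norm_exp_ofReal_mul_I _

/-- swapping the integrals in the pole term -/
lemma pole_swap {φ : ℝ → ℂ} (hφ : Integrable φ) {N : ℕ} (hN : 1 ≤ N) (t h : ℝ) :
    ∫ u : ℝ, (N : ℂ) ^ (1 - sp t h u) / (1 - sp t h u) * φ u =
      ∫ v in Set.Iic (Real.log N), Complex.exp ((1 / 2 - t * Complex.I) * v) *
        ∫ u : ℝ, φ u * Complex.exp (-((h * v * u : ℝ) : ℂ) * Complex.I) := by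
  have hint : Integrable (Function.uncurry fun (u v : ℝ) =>
      Complex.exp ((1 / 2 - t * Complex.I) * v) * (φ u * Complex.exp (-((h * v * u : ℝ) : ℂ) * Complex.I)))
      (volume.prod (volume.restrict (Set.Iic (Real.log N)))) := by
    have h1 : Integrable (fun z : ℝ × ℝ => φ z.1 * Complex.exp ((1 / 2 - t * Complex.I) * z.2))
        (volume.prod (volume.restrict (Set.Iic (Real.log N)))) := by
      refine Integrable.mul_prod (f := φ) (g := fun v : ℝ => Complex.exp ((1 / 2 - t * Complex.I) * v)) hφ ?_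
      exact integrableOn_exp_mul_complex_Iic (a := 1 / 2 - t * Complex.I) (by simp) _
    refine (h1.norm).mono' ?_ (Eventually.of_forall fun z => ?_)
    · have e : (Function.uncurry fun (u v : ℝ) =>
          Complex.exp ((1 / 2 - t * Complex.I) * v) * (φ u * Complex.exp (-((h * v * u : ℝ) : ℂ) * Complex.I))) =
          fun z : ℝ × ℝ => (φ z.1 * Complex.exp ((1 / 2 - t * Complex.I) * z.2)) *
            Complex.exp (-((h * z.2 * z.1 : ℝ) : ℂ) * Complex.I) := by
        funext z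
        simp only [Function.uncurry]
        ring
      rw [e]
      refine h1.1.mul ?_
      exact Continuous.aestronglyMeasurable (by fun_prop)
    · simp only [Function.uncurry, norm_mul]
      rw [norm_exp_I, mul_one, mul_comm]
  have hswap := integral_integral_swap hint
  rw [show (fun u : ℝ => (N : ℂ) ^ (1 - sp t h u) / (1 - sp t h u) * φ u) =
      fun u : ℝ => ∫ v in Set.Iic (Real.log N), Complex.exp ((1 / 2 - t * Complex.I) * v) *
        (φ u * Complex.exp (-((h * v * u : ℝ) : ℂ) * Complex.I)) from ?_]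
  · rw [hswap]
    refine integral_congr_ae (Eventually.of_forall fun v => ?_)
    simp only
    rw [integral_const_mul]
  · funext u
    rw [pole_eq hN, ← integral_mul_const]
    refine integral_congr_ae (Eventually.of_forall fun v => ?_)
    simp only
    rw [exp_split]
    ring

/-- norm of the pole term is bounded -/
lemma norm_pole_le {N : ℕ} (hN : 1 ≤ N) (t h u : ℝ) :
    ‖(N : ℂ) ^ (1 - sp t h u) / (1 - sp t h u)‖ ≤ 2 * (N : ℝ) := by
  have hre : (1 - sp t h u).re = 1 / 2 := by rw [Complex.sub_re, sp_re]; norm_num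
  have hN0 : (0 : ℝ) < N := by exact_mod_cast hN
  have hN1 : (1 : ℝ) ≤ N := by exact_mod_cast hN
  have h1 : 1 / 2 ≤ ‖1 - sp t h u‖ := by
    have := Complex.abs_re_le_norm (1 - sp t h u)
    rw [hre] at this
    rwa [abs_of_pos (by norm_num : (0 : ℝ) < 1 / 2)] at this
  rw [norm_div, show ((N : ℂ)) = ((N : ℝ) : ℂ) by simp, Complex.norm_cpow_eq_rpow_re_of_pos hN0, hre]
  have h2 : (N : ℝ) ^ (1 / 2 : ℝ) ≤ N := by
    calc (N : ℝ) ^ (1 / 2 : ℝ) ≤ (N : ℝ) ^ (1 : ℝ) := Real.rpow_le_rpow_of_exponent_le hN1 (by norm_num)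
      _ = N := Real.rpow_one _
  rw [div_le_iff₀ (by linarith)]
  nlinarith

lemma cont_pole {N : ℕ} (hN : 1 ≤ N) (t h : ℝ) :
    Continuous (fun u => (N : ℂ) ^ (1 - sp t h u) / (1 - sp t h u)) := by
  have hN1 : (N : ℂ) ≠ 0 := by exact_mod_cast (Nat.one_le_iff_ne_zero.mp hN)
  refine Continuous.div ?_ ?_ ?_
  · exact Continuous.const_cpow (by have := cont_sp t h; fun_prop) (Or.inl hN1)
  · have := cont_sp t h
    fun_prop
  · intro u
    exact sub_ne_zero.mpr (sp_ne_one t h u).symm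

/-- the Dirichlet polynomial part -/
lemma sum_part {φ : ℝ → ℂ} (hφ : Integrable φ) (hφ1 : Integrable fun u : ℝ => (u : ℂ) * φ u) (N : ℕ) (t h : ℝ) :
    ∫ u : ℝ, (∑ n ∈ Finset.Icc 1 N, (n : ℂ) ^ (-(sp t h u))) * φ u =
      ∑ n ∈ Finset.Icc 1 N,
        (∫ u : ℝ, φ u * Complex.exp (-((h * Real.log n * u : ℝ) : ℂ) * Complex.I)) *
          (n : ℂ) ^ (-(1 / 2 + t * Complex.I) : ℂ) := by
  simp_rw [Finset.sum_mul]
  rw [integral_finsetSum]
  · refine Finset.sum_congr rfl fun n hn => ?_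
    have hn0 : n ≠ 0 := by have := (Finset.mem_Icc.mp hn).1; omega
    rw [← integral_mul_const]
    refine integral_congr_ae (Eventually.of_forall fun u => ?_)
    simp only
    rw [npow_eq hn0]
    ring
  · intro n hn
    have hn0 : n ≠ 0 := by have := (Finset.mem_Icc.mp hn).1; omega
    refine integrable_mul_of_growth hφ hφ1 (cont_npow hn0 t h) (a := 1) (b := 0) fun u => ?_
    have := norm_npow_le hn0 t h u
    linarith

/-- for `N` large the sum part does not depend on `N` -/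
lemma sum_part_const {φ : ℝ → ℂ} {B : ℝ}
    (hsupp : ∀ y : ℝ, B ≤ |y| → ∫ u : ℝ, φ u * Complex.exp (-((y * u : ℝ) : ℂ) * Complex.I) = 0)
    {h : ℝ} (hh : 0 < h) (t : ℝ) {N : ℕ} (hN : Real.exp (B / h) ≤ N) :
    ∑ n ∈ Finset.Icc 1 N,
        (∫ u : ℝ, φ u * Complex.exp (-((h * Real.log n * u : ℝ) : ℂ) * Complex.I)) *
          (n : ℂ) ^ (-(1 / 2 + t * Complex.I) : ℂ) =
    ∑ n ∈ Finset.Icc 1 ⌊Real.exp (B / h)⌋₊,
        (∫ u : ℝ, φ u * Complex.exp (-((h * Real.log n * u : ℝ) : ℂ) * Complex.I)) *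
          (n : ℂ) ^ (-(1 / 2 + t * Complex.I) : ℂ) := by
  symm
  refine Finset.sum_subset ?_ ?_
  · intro n hn
    rw [Finset.mem_Icc] at hn ⊢
    refine ⟨hn.1, hn.2.trans ?_⟩
    have := Nat.floor_le_floor hN
    rwa [Nat.floor_natCast] at this
  · intro n hn hn'
    rw [Finset.mem_Icc] at hn hn'
    have h1 : ⌊Real.exp (B / h)⌋₊ < n := by
      by_contra H
      exact hn' ⟨hn.1, not_lt.mp H⟩
    have h2 : Real.exp (B / h) < n := (Nat.floor_lt (Real.exp_pos _).le).mp h1
    have hn0 : (0 : ℝ) < n := by exact_mod_cast hn.1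
    have h3 : B / h < Real.log n := (Real.lt_log_iff_exp_lt hn0).mpr h2
    have h4 : B ≤ |h * Real.log n| := by
      refine le_trans ?_ (le_abs_self _)
      rw [div_lt_iff₀ hh] at h3
      nlinarith
    rw [hsupp _ h4, zero_mul]

/-- for `N` large the pole part does not depend on `N` -/
lemma pole_part_const {φ : ℝ → ℂ} {B : ℝ} (hB : 0 < B)
    (hsupp : ∀ y : ℝ, B ≤ |y| → ∫ u : ℝ, φ u * Complex.exp (-((y * u : ℝ) : ℂ) * Complex.I) = 0)
    {h : ℝ} (hh : 0 < h) (t : ℝ) {N : ℕ} (hN : Real.exp (B / h) ≤ N) :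
    ∫ v in Set.Iic (Real.log N), Complex.exp ((1 / 2 - t * Complex.I) * v) *
        ∫ u : ℝ, φ u * Complex.exp (-((h * v * u : ℝ) : ℂ) * Complex.I) =
    ∫ v in (-(B / h))..(B / h), Complex.exp ((-1 / 2 + t * Complex.I) * v) *
        ∫ u : ℝ, φ u * Complex.exp (((h * v * u : ℝ) : ℂ) * Complex.I) := by
  have hBh : 0 < B / h := div_pos hB hh
  have hN0 : (0 : ℝ) < N := lt_of_lt_of_le (Real.exp_pos _) hN
  have hlog : B / h ≤ Real.log N := (Real.le_log_iff_exp_le hN0).mpr hN
  have h1 : ∫ v in Set.Iic (Real.log N), Complex.exp ((1 / 2 - t * Complex.I) * v) *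
        ∫ u : ℝ, φ u * Complex.exp (-((h * v * u : ℝ) : ℂ) * Complex.I) =
      ∫ v in Set.Ioc (-(B / h)) (B / h), Complex.exp ((1 / 2 - t * Complex.I) * v) *
        ∫ u : ℝ, φ u * Complex.exp (-((h * v * u : ℝ) : ℂ) * Complex.I) := by
    refine setIntegral_eq_of_subset_of_forall_sdiff_eq_zero measurableSet_Iic ?_ ?_
    · intro v hv
      exact le_trans hv.2 hlog
    · intro v hv
      have h4 : B ≤ |h * v| := by
        rw [abs_mul, abs_of_pos hh, ← div_le_iff₀' hh]
        by_contra H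
        push Not at H
        rw [abs_lt] at H
        exact hv.2 ⟨H.1, H.2.le⟩
      rw [hsupp _ h4, mul_zero]
  rw [h1, ← intervalIntegral.integral_of_le (by linarith)]
  have h2 := intervalIntegral.integral_comp_neg (a := -(B / h)) (b := B / h)
    (fun v : ℝ => Complex.exp ((1 / 2 - t * Complex.I) * v) *
        ∫ u : ℝ, φ u * Complex.exp (-((h * v * u : ℝ) : ℂ) * Complex.I))
  rw [neg_neg] at h2
  rw [← h2]
  refine intervalIntegral.integral_congr fun v _ => ?_
  congr 1
  · congr 1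
    push_cast
    ring
  · refine integral_congr_ae (Eventually.of_forall fun u => ?_)
    simp only
    congr 2
    push_cast
    ring

end T27

open T27 in
/-- zeta averaged over a window is a Dirichlet polynomial minus a pole term -/
theorem zeta_avg_eq {φ : ℝ → ℂ} (hφ : Integrable φ) (hφ1 : Integrable fun u : ℝ => (u : ℂ) * φ u) {B : ℝ} (hB : 0 < B)
    (hsupp : ∀ y : ℝ, B ≤ |y| → ∫ u : ℝ, φ u * Complex.exp (-((y * u : ℝ) : ℂ) * Complex.I) = 0)
    {h : ℝ} (hh : 0 < h) (t : ℝ) :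
    ∫ u : ℝ, riemannZeta (1 / 2 + ((t + h * u : ℝ) : ℂ) * Complex.I) * φ u =
      (∑ n ∈ Finset.Icc 1 ⌊Real.exp (B / h)⌋₊,
        (∫ u : ℝ, φ u * Complex.exp (-((h * Real.log n * u : ℝ) : ℂ) * Complex.I)) *
          (n : ℂ) ^ (-(1 / 2 + t * Complex.I) : ℂ)) -
      ∫ v in (-(B / h))..(B / h), Complex.exp ((-1 / 2 + t * Complex.I) * v) *
        ∫ u : ℝ, φ u * Complex.exp (((h * v * u : ℝ) : ℂ) * Complex.I) := by
  change ∫ u : ℝ, riemannZeta (sp t h u) * φ u = _
  set Rhs := (∑ n ∈ Finset.Icc 1 ⌊Real.exp (B / h)⌋₊,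
        (∫ u : ℝ, φ u * Complex.exp (-((h * Real.log n * u : ℝ) : ℂ) * Complex.I)) *
          (n : ℂ) ^ (-(1 / 2 + t * Complex.I) : ℂ)) -
      ∫ v in (-(B / h))..(B / h), Complex.exp ((-1 / 2 + t * Complex.I) * v) *
        ∫ u : ℝ, φ u * Complex.exp (((h * v * u : ℝ) : ℂ) * Complex.I) with hRhs
  -- the basic estimate
  have key : ∀ N : ℕ, 1 ≤ N → ∀ u : ℝ,
      ‖riemannZeta (sp t h u) - (∑ n ∈ Finset.Icc 1 N, (n : ℂ) ^ (-(sp t h u)) -
        (N : ℂ) ^ (1 - sp t h u) / (1 - sp t h u))‖ ≤ (N : ℝ) ^ (-(1 / 2) : ℝ) * ((1 + 2 * |t|) + 2 * |h| * |u|) := by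
    intro N hN u
    have h1 := LibZM.zeta_approx (s := sp t h u) (by rw [sp_re]; norm_num) (sp_ne_one t h u) hN
    refine h1.trans ?_
    rw [sp_re]
    have h2 := norm_sp_le t h u
    have h3 : (0 : ℝ) ≤ (N : ℝ) ^ (-(1 / 2) : ℝ) := Real.rpow_nonneg (Nat.cast_nonneg _) _
    rw [mul_comm]
    refine mul_le_mul_of_nonneg_left ?_ h3
    rw [div_le_iff₀ (by norm_num)]
    linarith
  -- growth of zeta
  have hz : Integrable (fun u : ℝ => riemannZeta (sp t h u) * φ u) := by
    refine integrable_mul_of_growth hφ hφ1 (cont_zeta t h) (a := (1 + 2 * |t|) + 3) (b := 2 * |h|) fun u => ?_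
    have h1 := key 1 le_rfl u
    have h2 := norm_pole_le (N := 1) le_rfl t h u
    have h3 := norm_npow_le (n := 1) one_ne_zero t h u
    simp only [Nat.cast_one, Real.one_rpow, one_mul, Finset.Icc_self, Finset.sum_singleton] at h1 h2 h3
    have h4 : ‖riemannZeta (sp t h u)‖ ≤ ‖riemannZeta (sp t h u) - ((1 : ℂ) ^ (-(sp t h u)) -
        (1 : ℂ) ^ (1 - sp t h u) / (1 - sp t h u))‖ + (‖(1 : ℂ) ^ (-(sp t h u))‖ +
        ‖(1 : ℂ) ^ (1 - sp t h u) / (1 - sp t h u)‖) := by
      have e : riemannZeta (sp t h u) = (riemannZeta (sp t h u) - ((1 : ℂ) ^ (-(sp t h u)) -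
        (1 : ℂ) ^ (1 - sp t h u) / (1 - sp t h u))) + ((1 : ℂ) ^ (-(sp t h u)) -
        (1 : ℂ) ^ (1 - sp t h u) / (1 - sp t h u)) := by ring
      calc ‖riemannZeta (sp t h u)‖ = ‖(riemannZeta (sp t h u) - ((1 : ℂ) ^ (-(sp t h u)) -
        (1 : ℂ) ^ (1 - sp t h u) / (1 - sp t h u))) + ((1 : ℂ) ^ (-(sp t h u)) -
        (1 : ℂ) ^ (1 - sp t h u) / (1 - sp t h u))‖ := by rw [← e]
        _ ≤ _ := (norm_add_le _ _).trans (add_le_add le_rfl (norm_sub_le _ _))
    linarith
  -- integrability of the parts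
  have hs : ∀ N : ℕ, Integrable (fun u : ℝ => (∑ n ∈ Finset.Icc 1 N, (n : ℂ) ^ (-(sp t h u))) * φ u) := by
    intro N
    refine integrable_mul_of_growth hφ hφ1 ?_ (a := N) (b := 0) fun u => ?_
    · refine continuous_finsetSum _ fun n hn => cont_npow ?_ t h
      have := (Finset.mem_Icc.mp hn).1
      omega
    · refine (norm_sum_le _ _).trans ?_
      refine (Finset.sum_le_sum (g := fun _ => (1 : ℝ)) fun n hn => norm_npow_le ?_ t h u).trans ?_
      · have := (Finset.mem_Icc.mp hn).1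
        omega
      · simp
  have hp : ∀ N : ℕ, 1 ≤ N → Integrable (fun u : ℝ => (N : ℂ) ^ (1 - sp t h u) / (1 - sp t h u) * φ u) := by
    intro N hN
    refine integrable_mul_of_growth hφ hφ1 (cont_pole hN t h) (a := 2 * N) (b := 0) fun u => ?_
    have := norm_pole_le hN t h u
    linarith
  -- the difference is small
  have hdiff : ∀ N : ℕ, 1 ≤ N → Real.exp (B / h) ≤ N →
      ‖(∫ u : ℝ, riemannZeta (sp t h u) * φ u) - Rhs‖ ≤
        (N : ℝ) ^ (-(1 / 2) : ℝ) * ∫ u : ℝ, ((1 + 2 * |t|) + 2 * |h| * |u|) * ‖φ u‖ := by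
    intro N hN hN'
    have e1 : Rhs = ∫ u : ℝ, (∑ n ∈ Finset.Icc 1 N, (n : ℂ) ^ (-(sp t h u)) -
        (N : ℂ) ^ (1 - sp t h u) / (1 - sp t h u)) * φ u := by
      have e2 : (fun u : ℝ => (∑ n ∈ Finset.Icc 1 N, (n : ℂ) ^ (-(sp t h u)) -
        (N : ℂ) ^ (1 - sp t h u) / (1 - sp t h u)) * φ u) =
        fun u : ℝ => (∑ n ∈ Finset.Icc 1 N, (n : ℂ) ^ (-(sp t h u))) * φ u -
          (N : ℂ) ^ (1 - sp t h u) / (1 - sp t h u) * φ u := by
        funext u
        ring
      rw [e2, integral_sub (hs N) (hp N hN), sum_part hφ hφ1, pole_swap hφ hN,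
        sum_part_const hsupp hh t hN', pole_part_const hB hsupp hh t hN']
    rw [e1, ← integral_sub hz]
    · have e3 : (N : ℝ) ^ (-(1 / 2) : ℝ) * ∫ u : ℝ, ((1 + 2 * |t|) + 2 * |h| * |u|) * ‖φ u‖ =
          ∫ u : ℝ, (N : ℝ) ^ (-(1 / 2) : ℝ) * (((1 + 2 * |t|) + 2 * |h| * |u|) * ‖φ u‖) := by
        rw [integral_const_mul]
      rw [e3]
      refine norm_integral_le_of_norm_le ((integrable_bound hφ hφ1 _ _).const_mul _) (Eventually.of_forall fun u => ?_)
      rw [← sub_mul, norm_mul, ← mul_assoc]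
      exact mul_le_mul_of_nonneg_right (key N hN u) (norm_nonneg _)
    · have e2 : (fun u : ℝ => (∑ n ∈ Finset.Icc 1 N, (n : ℂ) ^ (-(sp t h u)) -
        (N : ℂ) ^ (1 - sp t h u) / (1 - sp t h u)) * φ u) =
        fun u : ℝ => (∑ n ∈ Finset.Icc 1 N, (n : ℂ) ^ (-(sp t h u))) * φ u -
          (N : ℂ) ^ (1 - sp t h u) / (1 - sp t h u) * φ u := by
        funext u
        ring
      rw [e2]
      exact (hs N).sub (hp N hN)
  -- let N tend to infinity
  have hlim : Tendsto (fun N : ℕ => (N : ℝ) ^ (-(1 / 2) : ℝ) * ∫ u : ℝ, ((1 + 2 * |t|) + 2 * |h| * |u|) * ‖φ u‖)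
      atTop (𝓝 0) := by
    have h1 : Tendsto (fun N : ℕ => (N : ℝ) ^ (-(1 / 2) : ℝ)) atTop (𝓝 0) :=
      (tendsto_rpow_neg_atTop (by norm_num : (0 : ℝ) < 1 / 2)).comp tendsto_natCast_atTop_atTop
    have := h1.mul_const (∫ u : ℝ, ((1 + 2 * |t|) + 2 * |h| * |u|) * ‖φ u‖)
    simpa using this
  have hle : ‖(∫ u : ℝ, riemannZeta (sp t h u) * φ u) - Rhs‖ ≤ 0 := by
    refine ge_of_tendsto hlim ?_
    filter_upwards [eventually_ge_atTop 1, eventually_ge_atTop ⌈Real.exp (B / h)⌉₊] with N h1 h2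
    exact hdiff N h1 (Nat.ceil_le.mp h2)
  have := norm_le_zero_iff.mp hle
  exact sub_eq_zero.mp this

open T27 in
/-- bound for the pole term -/
theorem pole_term_le {φ : ℝ → ℂ} (hφ : Integrable φ) (hφ1 : Integrable fun u : ℝ => (u : ℂ) * φ u) {B : ℝ} (hB : 0 < B)
    (hsupp : ∀ y : ℝ, B ≤ |y| → ∫ u : ℝ, φ u * Complex.exp (-((y * u : ℝ) : ℂ) * Complex.I) = 0)
    {h : ℝ} (hh : 0 < h) (t : ℝ) :
    ‖∫ v in (-(B / h))..(B / h), Complex.exp ((-1 / 2 + t * Complex.I) * v) *
        ∫ u : ℝ, φ u * Complex.exp (((h * v * u : ℝ) : ℂ) * Complex.I)‖ ≤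
      2 * B * (∫ u : ℝ, ‖(u : ℂ) * φ u‖) * Real.exp (B / (2 * h)) / ‖(-1 / 2 + t * Complex.I : ℂ)‖ := by
  set c : ℂ := -1 / 2 + t * Complex.I with hc
  have hcre : c.re = -1 / 2 := by simp [hc]
  have hc0 : c ≠ 0 := by
    intro H
    rw [H] at hcre
    norm_num at hcre
  have hBh : 0 < B / h := div_pos hB hh
  -- the Fourier transform and its derivative
  set W : ℝ → ℂ := fun v => ∫ u : ℝ, φ u * Complex.exp (((h * v * u : ℝ) : ℂ) * Complex.I) with hW
  set W' : ℝ → ℂ := fun v => ∫ u : ℝ, φ u * (Complex.exp (((h * v * u : ℝ) : ℂ) * Complex.I) *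
    ((h * u : ℝ) * Complex.I)) with hW'
  have hnorm : ∀ v u : ℝ, ‖φ u * (Complex.exp (((h * v * u : ℝ) : ℂ) * Complex.I) * ((h * u : ℝ) * Complex.I))‖ =
      h * ‖(u : ℂ) * φ u‖ := by
    intro v u
    rw [norm_mul, norm_mul, norm_exp_I', norm_mul, Complex.norm_I, Complex.norm_real, Real.norm_eq_abs, abs_mul,
      abs_of_pos hh, norm_mul, Complex.norm_real, Real.norm_eq_abs]
    ring
  have hderiv : ∀ v, HasDerivAt W (W' v) v := by
    intro v
    refine (hasDerivAt_integral_of_dominated_loc_of_deriv_le (μ := volume)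
      (F := fun (v u : ℝ) => φ u * Complex.exp (((h * v * u : ℝ) : ℂ) * Complex.I))
      (F' := fun (v u : ℝ) => φ u * (Complex.exp (((h * v * u : ℝ) : ℂ) * Complex.I) * ((h * u : ℝ) * Complex.I)))
      (x₀ := v) (s := Set.univ) (bound := fun u : ℝ => h * ‖(u : ℂ) * φ u‖) Filter.univ_mem ?_ ?_ ?_ ?_ ?_ ?_).2
    · refine Eventually.of_forall fun x => hφ.1.mul (Continuous.aestronglyMeasurable (by fun_prop))
    · refine hφ.norm.mono' (hφ.1.mul (Continuous.aestronglyMeasurable (by fun_prop))) (Eventually.of_forall fun u => ?_)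
      rw [norm_mul, norm_exp_I', mul_one]
    · exact hφ.1.mul (Continuous.aestronglyMeasurable (by fun_prop))
    · refine Eventually.of_forall fun u x _ => ?_
      rw [hnorm]
    · exact hφ1.norm.const_mul h
    · refine Eventually.of_forall fun u x _ => ?_
      have h1 : HasDerivAt (fun y : ℝ => ((h * y * u : ℝ) : ℂ) * Complex.I) ((h * u : ℝ) * Complex.I) x := by
        have h2 : HasDerivAt (fun y : ℝ => h * y * u) (h * u) x := by
          have := ((hasDerivAt_id x).const_mul h).mul_const u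
          simpa using this
        exact (h2.ofReal_comp).mul_const Complex.I
      exact (h1.cexp).const_mul (φ u)
  have hW'norm : ∀ v, ‖W' v‖ ≤ h * ∫ u : ℝ, ‖(u : ℂ) * φ u‖ := by
    intro v
    refine (norm_integral_le_integral_norm _).trans ?_
    rw [← integral_const_mul]
    refine le_of_eq (integral_congr_ae (Eventually.of_forall fun u => ?_))
    exact hnorm v u
  have hW'meas : AEStronglyMeasurable W' volume := by
    have : W' = deriv W := by
      funext v
      exact ((hderiv v).deriv).symm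
    rw [this]
    exact (measurable_deriv W).aestronglyMeasurable
  have hW'int : IntervalIntegrable W' volume (-(B / h)) (B / h) := by
    refine (intervalIntegrable_const (c := h * ∫ u : ℝ, ‖(u : ℂ) * φ u‖)).mono_fun
      hW'meas.restrict (Eventually.of_forall fun v => ?_)
    rw [Real.norm_eq_abs, abs_of_nonneg]
    · exact hW'norm v
    · exact mul_nonneg hh.le (integral_nonneg fun u => norm_nonneg _)
  -- integration by parts
  have hE : ∀ v : ℝ, HasDerivAt (fun v : ℝ => Complex.exp (c * v) / c) (Complex.exp (c * v)) v := by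
    intro v
    have h1 : HasDerivAt (fun y : ℝ => c * (y : ℂ)) c v := by
      have := (Complex.ofRealCLM.hasDerivAt (x := v)).const_mul c
      simpa using this
    have h2 := (h1.cexp).div_const c
    rwa [mul_div_assoc, div_self hc0, mul_one] at h2
  have hparts := intervalIntegral.integral_deriv_mul_eq_sub_of_hasDeriv_right (a := -(B / h)) (b := B / h)
    (u := fun v : ℝ => Complex.exp (c * v) / c) (v := W) (u' := fun v : ℝ => Complex.exp (c * v)) (v' := W')
    (fun v _ => (hE v).continuousAt.continuousWithinAt) (fun v _ => (hderiv v).continuousAt.continuousWithinAt)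
    (fun v _ => (hE v).hasDerivWithinAt) (fun v _ => (hderiv v).hasDerivWithinAt)
    (Continuous.intervalIntegrable (by fun_prop) _ _) hW'int
  have hWB : W (B / h) = 0 := by
    have h1 := hsupp (-B) (by rw [abs_neg, abs_of_pos hB])
    rw [← h1, hW]
    refine integral_congr_ae (Eventually.of_forall fun u => ?_)
    simp only
    congr 2
    have : h * (B / h) * u = B * u := by field_simp
    rw [this]
    push_cast
    ring
  have hWB' : W (-(B / h)) = 0 := by
    have h1 := hsupp B (by rw [abs_of_pos hB])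
    rw [← h1, hW]
    refine integral_congr_ae (Eventually.of_forall fun u => ?_)
    simp only
    congr 2
    have : h * (-(B / h)) * u = -(B * u) := by field_simp
    rw [this]
    push_cast
    ring
  rw [hWB, hWB', mul_zero, mul_zero, sub_zero] at hparts
  have hEW : IntervalIntegrable (fun v : ℝ => Complex.exp (c * v) * W v) volume (-(B / h)) (B / h) := by
    refine Continuous.intervalIntegrable ?_ _ _
    have h1 : Continuous W := continuous_iff_continuousAt.mpr fun v => (hderiv v).continuousAt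
    fun_prop
  have hEW' : IntervalIntegrable (fun v : ℝ => Complex.exp (c * v) / c * W' v) volume (-(B / h)) (B / h) := by
    refine hW'int.continuousOn_mul (Continuous.continuousOn ?_)
    fun_prop
  rw [intervalIntegral.integral_add hEW hEW'] at hparts
  have heq : ∫ v in (-(B / h))..(B / h), Complex.exp (c * v) * W v =
      - ∫ v in (-(B / h))..(B / h), Complex.exp (c * v) / c * W' v := eq_neg_of_add_eq_zero_left hparts
  rw [heq, norm_neg]
  have hbound : ∀ v ∈ Set.uIoc (-(B / h)) (B / h), ‖Complex.exp (c * v) / c * W' v‖ ≤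
      Real.exp (B / (2 * h)) / ‖c‖ * (h * ∫ u : ℝ, ‖(u : ℂ) * φ u‖) := by
    intro v hv
    rw [Set.uIoc_of_le (by linarith)] at hv
    rw [norm_mul, norm_div, Complex.norm_exp]
    refine mul_le_mul ?_ (hW'norm v) (norm_nonneg _) (by positivity)
    refine div_le_div_of_nonneg_right (Real.exp_le_exp.mpr ?_) (norm_nonneg _)
    have : (c * (v : ℂ)).re = -1 / 2 * v := by
      rw [Complex.mul_re, Complex.ofReal_re, Complex.ofReal_im, hcre]
      ring
    rw [this]
    have h1 := hv.1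
    have h2 : B / (2 * h) = (B / h) / 2 := by field_simp
    rw [h2]
    linarith
  refine (intervalIntegral.norm_integral_le_of_norm_le_const hbound).trans ?_
  have h3 : |B / h - -(B / h)| = 2 * (B / h) := by
    rw [sub_neg_eq_add, abs_of_pos (by linarith)]
    ring
  rw [h3]
  refine le_of_eq ?_
  have hcn : ‖c‖ ≠ 0 := norm_ne_zero_iff.mpr hc0
  field_simp

end Pool.Agent.LibMM99
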