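import Mathlib
import Pool.Agent.LibMM99.T20b
import Pool.Agent.LibMM99.T26
import Pool.Agent.LibMM99.T27
import Pool.Agent.LibMM99.T29

set_option autoImplicit false

namespace Pool.Agent.LibMM99

open MeasureTheory Filter Topology
open scoped ComplexConjugate

namespace T28

/-- the weight attached to the averaging function -/
noncomputable def wt (φ : ℝ → ℂ) (B : ℝ) (y : ℝ) : ℂ :=
  ∫ u : ℝ, φ u * Complex.exp (-((B * y * u : ℝ) : ℂ) * Complex.I)

lemma norm_exp_sub_le (a b : ℝ) : ‖Complex.exp (-((a : ℝ) : ℂ) * Complex.I) - Complex.exp (-((b : ℝ) : ℂ) * Complex.I)‖ ≤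
    |a - b| := by
  have h1 : Complex.exp (-((a : ℝ) : ℂ) * Complex.I) - Complex.exp (-((b : ℝ) : ℂ) * Complex.I) =
      Complex.exp (-((b : ℝ) : ℂ) * Complex.I) * (Complex.exp (Complex.I * ((b - a : ℝ) : ℂ)) - 1) := by
    rw [mul_sub, mul_one, ← Complex.exp_add]
    congr 2
    push_cast
    ring
  rw [h1, norm_mul, T27.norm_exp_I, one_mul]
  have := Real.norm_exp_I_mul_ofReal_sub_one_le (x := b - a)
  rw [Real.norm_eq_abs, abs_sub_comm] at this
  exact this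

lemma integrable_exp {φ : ℝ → ℂ} (hφ : Integrable φ) (a : ℝ) :
    Integrable (fun u : ℝ => φ u * Complex.exp (-((a * u : ℝ) : ℂ) * Complex.I)) := by
  refine hφ.norm.mono' (hφ.1.mul (Continuous.aestronglyMeasurable (by fun_prop))) (Eventually.of_forall fun u => ?_)
  rw [norm_mul, T27.norm_exp_I, mul_one]

lemma isWeight_wt {φ : ℝ → ℂ} (hφ : Integrable φ) (hφ1 : Integrable fun u : ℝ => (u : ℂ) * φ u)
    (hone : ∫ u : ℝ, φ u = 1) {B : ℝ} (hB : 0 < B)
    (hsupp : ∀ y : ℝ, B ≤ |y| → ∫ u : ℝ, φ u * Complex.exp (-((y * u : ℝ) : ℂ) * Complex.I) = 0) :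
    IsWeight (wt φ B) (max 1 (B * ∫ u : ℝ, ‖(u : ℂ) * φ u‖)) where
  one_le := le_max_left _ _
  zero := by
    unfold wt
    rw [← hone]
    refine integral_congr_ae (Eventually.of_forall fun u => ?_)
    simp
  supp := by
    intro y hy
    unfold wt
    refine hsupp (B * y) ?_
    rw [abs_of_nonneg (mul_nonneg hB.le (by linarith))]
    nlinarith
  lip := by
    intro y z _ _
    unfold wt
    rw [← integral_sub (integrable_exp hφ _) (integrable_exp hφ _)]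
    have h1 : ‖∫ u : ℝ, (φ u * Complex.exp (-((B * y * u : ℝ) : ℂ) * Complex.I) -
        φ u * Complex.exp (-((B * z * u : ℝ) : ℂ) * Complex.I))‖ ≤
        ∫ u : ℝ, (B * |y - z|) * ‖(u : ℂ) * φ u‖ := by
      refine norm_integral_le_of_norm_le (hφ1.norm.const_mul _) (Eventually.of_forall fun u => ?_)
      rw [← mul_sub, norm_mul]
      have h2 := norm_exp_sub_le (B * y * u) (B * z * u)
      have h3 : |B * y * u - B * z * u| = B * |y - z| * |u| := by
        rw [show B * y * u - B * z * u = B * (y - z) * u by ring, abs_mul, abs_mul, abs_of_pos hB]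
      rw [h3] at h2
      calc ‖φ u‖ * _ ≤ ‖φ u‖ * (B * |y - z| * |u|) := mul_le_mul_of_nonneg_left h2 (norm_nonneg _)
        _ = B * |y - z| * ‖(u : ℂ) * φ u‖ := by
          rw [norm_mul, Complex.norm_real, Real.norm_eq_abs]; ring
    refine h1.trans ?_
    rw [integral_const_mul]
    calc B * |y - z| * ∫ u : ℝ, ‖(u : ℂ) * φ u‖ = (B * ∫ u : ℝ, ‖(u : ℂ) * φ u‖) * |y - z| := by ring
      _ ≤ _ := mul_le_mul_of_nonneg_right (le_max_right _ _) (abs_nonneg _)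

/-- the Dirichlet polynomial -/
noncomputable def DD (φ : ℝ → ℂ) (B L t : ℝ) : ℂ := ∑ n ∈ Finset.Icc 1 ⌊Real.exp L⌋₊,
  wt φ B (Real.log n / L) * (n : ℂ) ^ (-(1 / 2 + t * Complex.I) : ℂ)

/-- the pole term -/
noncomputable def PP (φ : ℝ → ℂ) (B h t : ℝ) : ℂ := ∫ v in (-(B / h))..(B / h),
  Complex.exp ((-1 / 2 + t * Complex.I) * v) * ∫ u : ℝ, φ u * Complex.exp (((h * v * u : ℝ) : ℂ) * Complex.I)

lemma continuous_DD (φ : ℝ → ℂ) (B L : ℝ) : Continuous (DD φ B L) := by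
  unfold DD
  refine continuous_finsetSum _ fun n hn => ?_
  have hn0 : (n : ℂ) ≠ 0 := by
    have := (Finset.mem_Icc.mp hn).1
    exact_mod_cast (by omega : n ≠ 0)
  refine continuous_const.mul (Continuous.const_cpow ?_ (Or.inl hn0))
  fun_prop

lemma continuous_PP {φ : ℝ → ℂ} (hφ : Integrable φ) (B h : ℝ) : Continuous (PP φ B h) := by
  unfold PP
  have hW : Continuous (fun v : ℝ => ∫ u : ℝ, φ u * Complex.exp (((h * v * u : ℝ) : ℂ) * Complex.I)) := by
    refine continuous_of_dominated (bound := fun u => ‖φ u‖) ?_ ?_ hφ.norm ?_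
    · exact fun v => hφ.1.mul (Continuous.aestronglyMeasurable (by fun_prop))
    · refine fun v => Eventually.of_forall fun u => ?_
      rw [norm_mul, T27.norm_exp_I', mul_one]
    · refine Eventually.of_forall fun u => ?_
      fun_prop
  refine intervalIntegral.continuous_parametric_intervalIntegral_of_continuous' ?_ _ _
  unfold Function.uncurry
  have h1 : Continuous (fun z : ℝ × ℝ => ∫ u : ℝ, φ u * Complex.exp (((h * z.2 * u : ℝ) : ℂ) * Complex.I)) :=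
    hW.comp continuous_snd
  refine Continuous.mul ?_ h1
  fun_prop

lemma zeta_avg {φ : ℝ → ℂ} (hφ : Integrable φ) (hφ1 : Integrable fun u : ℝ => (u : ℂ) * φ u) {B : ℝ} (hB : 0 < B)
    (hsupp : ∀ y : ℝ, B ≤ |y| → ∫ u : ℝ, φ u * Complex.exp (-((y * u : ℝ) : ℂ) * Complex.I) = 0)
    {h : ℝ} (hh : 0 < h) (t : ℝ) :
    ∫ u : ℝ, riemannZeta (1 / 2 + ((t + h * u : ℝ) : ℂ) * Complex.I) * φ u =
      DD φ B (B / h) t + -(PP φ B h t) := by
  rw [zeta_avg_eq hφ hφ1 hB hsupp hh t]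
  unfold DD PP wt
  rw [sub_eq_add_neg]
  congr 1
  refine Finset.sum_congr rfl fun n _ => ?_
  congr 1
  refine integral_congr_ae (Eventually.of_forall fun u => ?_)
  simp only
  have : B * (Real.log n / (B / h)) * u = h * Real.log n * u := by
    field_simp
  rw [this]

/-- mean value of the pole term -/
lemma pole_mean {k : ℝ} (hk : 0 < k) {φ : ℝ → ℂ} (hφ : Integrable φ) (hφ1 : Integrable fun u : ℝ => (u : ℂ) * φ u)
    {B : ℝ} (hB : 0 < B)
    (hsupp : ∀ y : ℝ, B ≤ |y| → ∫ u : ℝ, φ u * Complex.exp (-((y * u : ℝ) : ℂ) * Complex.I) = 0)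
    {h : ℝ} (hh : 0 < h) {T : ℝ} (hT : 1 ≤ T) (hL : k * (B / h) ≤ k / (2 * k + 2) * Real.log T) :
    (1 / T) * (∫ t in (0 : ℝ)..T, ‖PP φ B h t‖ ^ k) ≤
      ((2 * B * ∫ u : ℝ, ‖(u : ℂ) * φ u‖) ^ k * 2 ^ k * 2) * T ^ (-(k / (2 * k + 2) / 2)) := by
  set s : ℝ := k / (2 * k + 2) with hs
  have hs0 : 0 < s := by positivity
  have hs1 : s ≤ 1 / 2 := by
    rw [hs, div_le_div_iff₀ (by positivity) (by norm_num)]
    linarith
  have hsk : s ≤ k := by
    rw [hs, div_le_iff₀ (by positivity)]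
    nlinarith
  set M1 : ℝ := ∫ u : ℝ, ‖(u : ℂ) * φ u‖ with hM1
  have hM10 : 0 ≤ M1 := integral_nonneg fun u => norm_nonneg _
  have hT0 : 0 < T := by linarith
  have hE : Real.exp (B / (2 * h)) ^ k ≤ T ^ (s / 2) := by
    rw [← Real.exp_mul, Real.rpow_def_of_pos hT0]
    refine Real.exp_le_exp.mpr ?_
    have : B / (2 * h) * k = k * (B / h) / 2 := by field_simp
    rw [this]
    linarith
  have hpt : ∀ t ∈ Set.Ioc (0 : ℝ) T, ‖PP φ B h t‖ ^ k ≤
      ((2 * B * M1) ^ k * 2 ^ k * T ^ (s / 2)) * t ^ (-s) := by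
    intro t ht
    have ht0 : 0 < t := ht.1
    have h1 := pole_term_le hφ hφ1 hB hsupp hh t
    set z : ℂ := (-1 / 2 + t * Complex.I) with hz
    have hzre : z.re = -1 / 2 := by simp [hz]
    have hzim : z.im = t := by simp [hz]
    have h2 : 1 / 2 ≤ ‖z‖ := by
      have := Complex.abs_re_le_norm z
      rw [hzre, abs_of_neg (by norm_num)] at this
      linarith
    have h3 : t ≤ ‖z‖ := by
      have := Complex.abs_im_le_norm z
      rwa [hzim, abs_of_pos ht0] at this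
    have hz0 : 0 < ‖z‖ := by linarith
    have h4 : ‖PP φ B h t‖ ^ k ≤ (2 * B * M1 * Real.exp (B / (2 * h)) / ‖z‖) ^ k :=
      Real.rpow_le_rpow (norm_nonneg _) h1 hk.le
    refine h4.trans ?_
    rw [Real.div_rpow (by positivity) hz0.le, Real.mul_rpow (by positivity) (Real.exp_pos _).le]
    have h5 : (1 / 2 : ℝ) ^ k * t ^ s ≤ ‖z‖ ^ k := by
      have h6 : ‖z‖ ^ k = ‖z‖ ^ (k - s) * ‖z‖ ^ s := by
        rw [← Real.rpow_add hz0]
        congr 1
        ring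
      rw [h6]
      refine mul_le_mul ?_ (Real.rpow_le_rpow ht0.le h3 hs0.le) (Real.rpow_nonneg ht0.le _) (Real.rpow_nonneg hz0.le _)
      calc (1 / 2 : ℝ) ^ k ≤ (1 / 2 : ℝ) ^ (k - s) :=
            Real.rpow_le_rpow_of_exponent_ge (by norm_num) (by norm_num) (by linarith)
        _ ≤ ‖z‖ ^ (k - s) := Real.rpow_le_rpow (by norm_num) h2 (by linarith)
    have h7 : 0 < (1 / 2 : ℝ) ^ k * t ^ s := by positivity
    have h8 : ((1 / 2 : ℝ) ^ k)⁻¹ = 2 ^ k := by
      rw [← Real.inv_rpow (by norm_num)]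
      norm_num
    calc (2 * B * M1) ^ k * Real.exp (B / (2 * h)) ^ k / ‖z‖ ^ k
        ≤ (2 * B * M1) ^ k * Real.exp (B / (2 * h)) ^ k / ((1 / 2 : ℝ) ^ k * t ^ s) :=
          div_le_div_of_nonneg_left (by positivity) h7 h5
      _ = (2 * B * M1) ^ k * 2 ^ k * Real.exp (B / (2 * h)) ^ k * t ^ (-s) := by
          rw [div_eq_mul_inv, mul_inv, h8, Real.rpow_neg ht0.le]
          ring
      _ ≤ ((2 * B * M1) ^ k * 2 ^ k * T ^ (s / 2)) * t ^ (-s) := by
          refine mul_le_mul_of_nonneg_right ?_ (Real.rpow_nonneg ht0.le _)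
          exact mul_le_mul_of_nonneg_left hE (by positivity)
  have hint : IntervalIntegrable (fun t : ℝ => ((2 * B * M1) ^ k * 2 ^ k * T ^ (s / 2)) * t ^ (-s)) volume 0 T :=
    (intervalIntegral.intervalIntegrable_rpow' (by linarith)).const_mul _
  have hintP : IntervalIntegrable (fun t : ℝ => ‖PP φ B h t‖ ^ k) volume 0 T := by
    refine Continuous.intervalIntegrable ?_ _ _
    exact (continuous_PP hφ B h).norm.rpow_const fun t => Or.inr hk.le
  have h1 : ∫ t in (0 : ℝ)..T, ‖PP φ B h t‖ ^ k ≤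
      ∫ t in (0 : ℝ)..T, ((2 * B * M1) ^ k * 2 ^ k * T ^ (s / 2)) * t ^ (-s) :=
    intervalIntegral.integral_mono_on_of_le_Ioo hT0.le hintP hint fun t ht => hpt t ⟨ht.1, ht.2.le⟩
  rw [intervalIntegral.integral_const_mul, integral_rpow (Or.inl (by linarith)),
    Real.zero_rpow (by linarith), sub_zero] at h1
  have h2 : T ^ (-s + 1) / (-s + 1) ≤ 2 * (T * T ^ (-s)) := by
    rw [Real.rpow_add_one hT0.ne', div_le_iff₀ (by linarith)]
    have h3 : 0 ≤ T ^ (-s) * T := by positivity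
    nlinarith
  have h3 : T ^ (s / 2) * T ^ (-s) = T ^ (-(s / 2)) := by
    rw [← Real.rpow_add hT0]
    congr 1
    ring
  calc (1 / T) * (∫ t in (0 : ℝ)..T, ‖PP φ B h t‖ ^ k)
      ≤ (1 / T) * (((2 * B * M1) ^ k * 2 ^ k * T ^ (s / 2)) * (2 * (T * T ^ (-s)))) := by
        refine mul_le_mul_of_nonneg_left (h1.trans ?_) (by positivity)
        exact mul_le_mul_of_nonneg_left h2 (by positivity)
    _ = ((2 * B * M1) ^ k * 2 ^ k * 2) * (T ^ (s / 2) * T ^ (-s)) := by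
        field_simp
    _ = _ := by rw [h3]

/-- all moments of zeta averaged over windows, given a lower bound for the model -/
theorem mesoscopic_aux {k : ℝ} (hk : 0 < k) {C0 : ℝ} (hC0 : 1 ≤ C0) (hS : HasScale k C0)
    (hlow : ∀ Λ : ℝ, ∃ c L1 : ℝ, 0 < c ∧ 1 ≤ L1 ∧ ∀ (w : ℝ → ℂ), IsWeight w Λ → ∀ L : ℝ, L1 ≤ L →
      c * L ^ (k ^ 2 / 4) ≤ ∫ x, ‖SS w L x‖ ^ k ∂mu) {φ : ℝ → ℂ} (hφ : Integrable φ)
    (hφ1 : Integrable fun u : ℝ => (u : ℂ) * φ u) (hone : ∫ u : ℝ, φ u = 1)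
    (hsupp : ∃ B : ℝ, ∀ y : ℝ, B ≤ |y| → ∫ u : ℝ, φ u * Complex.exp (-((y * u : ℝ) : ℂ) * Complex.I) = 0) :
    ∃ C : ℝ, 0 < C ∧ ∀ h : ℝ → ℝ, (∀ᶠ T in atTop, 0 < h T) → Tendsto h atTop (𝓝 0) →
      Tendsto (fun T => h T * Real.log T) atTop atTop →
      Tendsto (fun T : ℝ => (h T) ^ (k ^ 2 / 4) * ((1 / T) * ∫ t in (0 : ℝ)..T,
        ‖∫ u : ℝ, riemannZeta (1 / 2 + ((t + h T * u : ℝ) : ℂ) * Complex.I) * φ u‖ ^ k)) atTop (𝓝 C) := by
  obtain ⟨B0, hB0⟩ := hsupp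
  set B : ℝ := max B0 1 with hBdef
  have hB : 0 < B := lt_of_lt_of_le one_pos (le_max_right _ _)
  have hsupp' : ∀ y : ℝ, B ≤ |y| → ∫ u : ℝ, φ u * Complex.exp (-((y * u : ℝ) : ℂ) * Complex.I) = 0 :=
    fun y hy => hB0 y ((le_max_left _ _).trans hy)
  have hw := isWeight_wt hφ hφ1 hone hB hsupp'
  set Λ := max 1 (B * ∫ u : ℝ, ‖(u : ℂ) * φ u‖) with hΛ
  obtain ⟨C, hClim, hCT⟩ := weighted hk hC0 hS hw
  obtain ⟨c, L1, hc, hL1, hlow⟩ := hlow Λ
  set κ : ℝ := k ^ 2 / 4 with hκ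
  have hκ0 : 0 < κ := by positivity
  have hCpos : 0 < C := by
    refine lt_of_lt_of_le hc (ge_of_tendsto hClim ?_)
    filter_upwards [eventually_ge_atTop L1] with L hL
    have hL0 : 0 < L := by linarith
    rw [le_div_iff₀ (Real.rpow_pos_of_pos hL0 _)]
    exact hlow _ hw L hL
  refine ⟨C * B ^ κ, by positivity, fun h hpos h0 hlog => ?_⟩
  set Z : ℝ → ℝ := fun T => (1 / T) * ∫ t in (0 : ℝ)..T,
        ‖∫ u : ℝ, riemannZeta (1 / 2 + ((t + h T * u : ℝ) : ℂ) * Complex.I) * φ u‖ ^ k with hZ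
  set LL : ℝ → ℝ := fun T => B / h T with hLL
  have hLLtop : Tendsto LL atTop atTop := by
    have h1 : Tendsto h atTop (𝓝[>] 0) := by
      rw [tendsto_nhdsWithin_iff]
      exact ⟨h0, hpos⟩
    have h2 := (tendsto_inv_nhdsGT_zero (𝕜 := ℝ)).comp h1
    have h3 := h2.const_mul_atTop hB
    refine h3.congr fun T => ?_
    simp [hLL, div_eq_mul_inv]
  -- the key statement
  suffices hkey : Tendsto (fun T => Z T / (LL T) ^ κ) atTop (𝓝 C) by
    have h1 := hkey.mul_const (B ^ κ)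
    refine h1.congr' ?_
    filter_upwards [hpos] with T hT
    have h2 : (LL T) ^ κ = B ^ κ / (h T) ^ κ := by
      rw [hLL]
      exact Real.div_rpow hB.le hT.le _
    have h3 : 0 < B ^ κ := Real.rpow_pos_of_pos hB _
    have h4 : 0 < (h T) ^ κ := Real.rpow_pos_of_pos hT _
    change Z T / (LL T) ^ κ * B ^ κ = (h T) ^ κ * Z T
    rw [h2]
    generalize Z T = z
    generalize (h T) ^ κ = a at h4 ⊢
    generalize B ^ κ = b at h3 ⊢
    field_simp
  rw [Metric.tendsto_nhds]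
  intro ε hε
  set ε1 : ℝ := min 1 (ε / 4) with hε1
  have hε10 : 0 < ε1 := lt_min one_pos (by linarith)
  have hε11 : ε1 ≤ 1 := min_le_left _ _
  have hε14 : ε1 ≤ ε / 4 := min_le_right _ _
  set η : ℝ := ε / (4 * (C + 1)) with hη
  have hη0 : 0 < η := by positivity
  obtain ⟨Cη, hCη, hdiff⟩ := pow_diff hk hη0
  obtain ⟨θ, L0, hθ, hL0, hmain⟩ := hCT ε1 hε10
  set s : ℝ := k / (2 * k + 2) with hs
  have hs0 : 0 < s := by positivity
  set G : ℝ := (2 * B * ∫ u : ℝ, ‖(u : ℂ) * φ u‖) ^ k * 2 ^ k * 2 with hG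
  have hsmall : Tendsto (fun T : ℝ => Cη * (G * T ^ (-(s / 2)))) atTop (𝓝 0) := by
    have h1 : Tendsto (fun T : ℝ => T ^ (-(s / 2))) atTop (𝓝 0) := tendsto_rpow_neg_atTop (by positivity)
    have h2 := (h1.const_mul G).const_mul Cη
    simpa using h2
  have hsm : ∀ᶠ T in atTop, Cη * (G * T ^ (-(s / 2))) < ε1 := hsmall.eventually (gt_mem_nhds hε10)
  filter_upwards [hpos, hLLtop.eventually_ge_atTop L0, hlog.eventually_ge_atTop (B / θ),
    hlog.eventually_ge_atTop (k * B / s), eventually_ge_atTop 1, hsm] with T hT hTL hTθ hTs hT1 hTsm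
  have hT0 : 0 < T := by linarith
  have hL1' : 1 ≤ LL T := hL0.trans hTL
  have hLpos : 0 < LL T := by linarith
  have hLκ : 1 ≤ (LL T) ^ κ := Real.one_le_rpow hL1' hκ0.le
  have hLθ : LL T ≤ θ * Real.log T := by
    rw [hLL]
    simp only
    rw [div_le_iff₀ hT]
    rw [div_le_iff₀ hθ] at hTθ
    nlinarith
  have hLs : k * (B / h T) ≤ s * Real.log T := by
    rw [div_le_iff₀ hs0] at hTs
    rw [← mul_div_assoc, div_le_iff₀ hT]
    nlinarith
  have hA := hmain (LL T) T hTL hT1 hLθ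
  have hP := pole_mean hk hφ hφ1 hB hsupp' hT hT1 hLs
  set A : ℝ := (1 / T) * ∫ t in (0 : ℝ)..T, ‖DD φ B (LL T) t‖ ^ k with hAdef
  have hA' : |A - C * (LL T) ^ κ| ≤ ε1 * (LL T) ^ κ := hA
  set P : ℝ := (1 / T) * ∫ t in (0 : ℝ)..T, ‖PP φ B (h T) t‖ ^ k with hPdef
  have hZA : |Z T - A| ≤ η * A + Cη * P := by
    have e1 : Z T = (1 / T) * ∫ t in (0 : ℝ)..T, ‖DD φ B (LL T) t + -(PP φ B (h T) t)‖ ^ k := by
      rw [hZ]
      simp only
      congr 1
      refine intervalIntegral.integral_congr fun t _ => ?_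
      rw [zeta_avg hφ hφ1 hB hsupp' hT t]
    have c1 : Continuous (fun t => ‖DD φ B (LL T) t + -(PP φ B (h T) t)‖ ^ k) :=
      ((continuous_DD φ B (LL T)).add (continuous_PP hφ B (h T)).neg).norm.rpow_const fun t => Or.inr hk.le
    have c2 : Continuous (fun t => ‖DD φ B (LL T) t‖ ^ k) :=
      (continuous_DD φ B (LL T)).norm.rpow_const fun t => Or.inr hk.le
    have c3 : Continuous (fun t => ‖PP φ B (h T) t‖ ^ k) :=
      (continuous_PP hφ B (h T)).norm.rpow_const fun t => Or.inr hk.le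
    rw [e1, hAdef, ← mul_sub, ← intervalIntegral.integral_sub (c1.intervalIntegrable _ _) (c2.intervalIntegrable _ _),
      abs_mul, abs_of_pos (by positivity : 0 < 1 / T)]
    have h1 : |∫ t in (0 : ℝ)..T, (‖DD φ B (LL T) t + -(PP φ B (h T) t)‖ ^ k - ‖DD φ B (LL T) t‖ ^ k)| ≤
        ∫ t in (0 : ℝ)..T, (η * ‖DD φ B (LL T) t‖ ^ k + Cη * ‖PP φ B (h T) t‖ ^ k) := by
      rw [← Real.norm_eq_abs]
      refine intervalIntegral.norm_integral_le_of_norm_le hT0.le (Eventually.of_forall fun t _ => ?_)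
        (((c2.const_mul η).add (c3.const_mul Cη)).intervalIntegrable _ _)
      rw [Real.norm_eq_abs]
      have := hdiff (DD φ B (LL T) t) (-(PP φ B (h T) t))
      rwa [norm_neg] at this
    rw [intervalIntegral.integral_add ((c2.const_mul η).intervalIntegrable _ _)
      ((c3.const_mul Cη).intervalIntegrable _ _), intervalIntegral.integral_const_mul,
      intervalIntegral.integral_const_mul] at h1
    calc (1 / T) * _ ≤ (1 / T) * _ := mul_le_mul_of_nonneg_left h1 (by positivity)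
      _ = η * A + Cη * P := by rw [hAdef, hPdef]; ring
  have hAle : A ≤ (C + 1) * (LL T) ^ κ := by
    have := (abs_le.mp hA').2
    have h2 : ε1 * (LL T) ^ κ ≤ 1 * (LL T) ^ κ := mul_le_mul_of_nonneg_right hε11 (by linarith)
    nlinarith
  have hηA : η * A ≤ ε / 4 * (LL T) ^ κ := by
    calc η * A ≤ η * ((C + 1) * (LL T) ^ κ) := mul_le_mul_of_nonneg_left hAle hη0.le
      _ = ε / 4 * (LL T) ^ κ := by
        rw [hη]
        have : C + 1 ≠ 0 := by linarith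
        field_simp
  have hCP : Cη * P ≤ ε / 4 * (LL T) ^ κ := by
    calc Cη * P ≤ Cη * (G * T ^ (-(s / 2))) := mul_le_mul_of_nonneg_left hP hCη.le
      _ ≤ ε1 := hTsm.le
      _ ≤ ε / 4 := hε14
      _ ≤ ε / 4 * (LL T) ^ κ := le_mul_of_one_le_right (by linarith) hLκ
  have hA'' : |A - C * (LL T) ^ κ| ≤ ε / 4 * (LL T) ^ κ :=
    hA'.trans (mul_le_mul_of_nonneg_right hε14 (by linarith))
  have hfin : |Z T - C * (LL T) ^ κ| ≤ 3 * (ε / 4) * (LL T) ^ κ := by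
    have h1 : Z T - C * (LL T) ^ κ = (Z T - A) + (A - C * (LL T) ^ κ) := by ring
    rw [h1]
    refine (abs_add_le _ _).trans ?_
    have h2 : 3 * (ε / 4) * (LL T) ^ κ = ε / 4 * (LL T) ^ κ + ε / 4 * (LL T) ^ κ + ε / 4 * (LL T) ^ κ := by ring
    rw [h2]
    linarith
  have hLκ0 : 0 < (LL T) ^ κ := by linarith
  rw [Real.dist_eq]
  have h1 : Z T / (LL T) ^ κ - C = (Z T - C * (LL T) ^ κ) / (LL T) ^ κ := by
    field_simp
  rw [h1, abs_div, abs_of_pos hLκ0, div_lt_iff₀ hLκ0]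
  refine hfin.trans_lt ?_
  refine mul_lt_mul_of_pos_right ?_ hLκ0
  linarith

end T28

/-- all moments of zeta averaged over windows longer than the mean spacing of zeros -/
theorem mesoscopic {k : ℝ} (hk : 0 < k) {C0 : ℝ} (hC0 : 1 ≤ C0) (hS : HasScale k C0) {φ : ℝ → ℂ} (hφ : Integrable φ)
    (hφ1 : Integrable fun u : ℝ => (u : ℂ) * φ u) (hone : ∫ u : ℝ, φ u = 1)
    (hsupp : ∃ B : ℝ, ∀ y : ℝ, B ≤ |y| → ∫ u : ℝ, φ u * Complex.exp (-((y * u : ℝ) : ℂ) * Complex.I) = 0) :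
    ∃ C : ℝ, 0 < C ∧ ∀ h : ℝ → ℝ, (∀ᶠ T in atTop, 0 < h T) → Tendsto h atTop (𝓝 0) →
      Tendsto (fun T => h T * Real.log T) atTop atTop →
      Tendsto (fun T : ℝ => (h T) ^ (k ^ 2 / 4) * ((1 / T) * ∫ t in (0 : ℝ)..T,
        ‖∫ u : ℝ, riemannZeta (1 / 2 + ((t + h T * u : ℝ) : ℂ) * Complex.I) * φ u‖ ^ k)) atTop (𝓝 C) :=
  T28.mesoscopic_aux hk hC0 hS (fun Λ => lower_bound hk hC0 hS Λ) hφ hφ1 hone hsupp

end Pool.Agent.LibMM99
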