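import Mathlib
import Pool.Agent.LibMM99.T28

set_option autoImplicit false

namespace Pool.Agent.LibMM99

open MeasureTheory Filter Topology
open scoped ComplexConjugate

namespace T28

/-- all moments of zeta averaged over windows, uniform version with the constant of the model -/
theorem mesoscopic_unif_B {k : ℝ} (hk : 0 < k) {C0 : ℝ} (hC0 : 1 ≤ C0) (hS : HasScale k C0) {φ : ℝ → ℂ} (hφ : Integrable φ)
    (hφ1 : Integrable fun u : ℝ => (u : ℂ) * φ u) (hone : ∫ u : ℝ, φ u = 1) {B : ℝ} (hB : 0 < B)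
    (hsupp' : ∀ y : ℝ, B ≤ |y| → ∫ u : ℝ, φ u * Complex.exp (-((y * u : ℝ) : ℂ) * Complex.I) = 0) :
    ∃ C : ℝ, 0 < C ∧
      Tendsto (fun L : ℝ => (∫ x, ‖SS (wt φ B) L x‖ ^ k ∂mu) / L ^ (k ^ 2 / 4)) atTop (𝓝 C) ∧
      ∀ ε : ℝ, 0 < ε → ∃ A : ℝ, 0 < A ∧ ∀ T h : ℝ, 0 < h → h ≤ 1 / A → A ≤ h * Real.log T → 0 < T →
      |h ^ (k ^ 2 / 4) * ((1 / T) * ∫ t in (0 : ℝ)..T,
        ‖∫ u : ℝ, riemannZeta (1 / 2 + ((t + h * u : ℝ) : ℂ) * Complex.I) * φ u‖ ^ k) - C * B ^ (k ^ 2 / 4)| < ε := by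
  have hw := isWeight_wt hφ hφ1 hone hB hsupp'
  set Λ := max 1 (B * ∫ u : ℝ, ‖(u : ℂ) * φ u‖) with hΛ
  obtain ⟨C, hClim, hCT⟩ := weighted hk hC0 hS hw
  obtain ⟨c, L1, hc, hL1, hlow⟩ := lower_bound hk hC0 hS Λ
  set κ : ℝ := k ^ 2 / 4 with hκ
  have hκ0 : 0 < κ := by positivity
  have hCpos : 0 < C := by
    refine lt_of_lt_of_le hc (ge_of_tendsto hClim ?_)
    filter_upwards [eventually_ge_atTop L1] with L hL
    have hL0 : 0 < L := by linarith
    rw [le_div_iff₀ (Real.rpow_pos_of_pos hL0 _)]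
    exact hlow _ hw L hL
  refine ⟨C, hCpos, hClim, fun ε' hε' => ?_⟩
  have hBκ : 0 < B ^ κ := Real.rpow_pos_of_pos hB _
  set ε : ℝ := ε' / B ^ κ with hεdef
  have hε : 0 < ε := by positivity
  set ε1 : ℝ := min 1 (ε / 4) with hε1
  have hε10 : 0 < ε1 := lt_min one_pos (by linarith)
  have hε11 : ε1 ≤ 1 := min_le_left _ _
  have hε14 : ε1 ≤ ε / 4 := min_le_right _ _
  set η : ℝ := ε / (4 * (C + 1)) with hη
  have hη0 : 0 < η := by positivity
  obtain ⟨Cη, hCη, hdiff⟩ := pow_diff hk hη0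
  obtain ⟨θ, L0, hθ, hL0, hmain⟩ := hCT ε1 hε10
  set s : ℝ := k / (2 * k + 2) with hs
  have hs0 : 0 < s := by positivity
  set G : ℝ := (2 * B * ∫ u : ℝ, ‖(u : ℂ) * φ u‖) ^ k * 2 ^ k * 2 with hG
  have hsmall : Tendsto (fun T : ℝ => Cη * (G * T ^ (-(s / 2)))) atTop (𝓝 0) := by
    have h1 : Tendsto (fun T : ℝ => T ^ (-(s / 2))) atTop (𝓝 0) := tendsto_rpow_neg_atTop (by positivity)
    have h2 := (h1.const_mul G).const_mul Cη
    simpa using h2
  have hsm : ∀ᶠ T in atTop, Cη * (G * T ^ (-(s / 2))) < ε1 := hsmall.eventually (gt_mem_nhds hε10)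
  obtain ⟨T1, hT1ev⟩ := eventually_atTop.1 (hsm.and (eventually_ge_atTop (1 : ℝ)))
  set A1 : ℝ := max (max (L0 / B) 1) (max (max (B / θ) (k * B / s)) (max T1 1)) with hA1
  have hA11 : 1 ≤ A1 := (le_max_right _ _).trans (le_max_left _ _)
  refine ⟨A1, by linarith, fun T hh hT hhA hTA hT0 => ?_⟩
  set h : ℝ → ℝ := fun _ => hh with hhdef
  set Z : ℝ → ℝ := fun T => (1 / T) * ∫ t in (0 : ℝ)..T,
        ‖∫ u : ℝ, riemannZeta (1 / 2 + ((t + h T * u : ℝ) : ℂ) * Complex.I) * φ u‖ ^ k with hZ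
  set LL : ℝ → ℝ := fun T => B / h T with hLL
  have hh1 : hh ≤ 1 := hhA.trans (by rw [div_le_one (by linarith)]; exact hA11)
  have hinv : A1 ≤ 1 / hh := by
    rw [le_div_iff₀ hT]
    rw [le_div_iff₀ (by linarith)] at hhA
    linarith
  have hTL : L0 ≤ LL T := by
    have h1 : L0 / B ≤ 1 / hh := ((le_max_left _ _).trans (le_max_left _ _)).trans hinv
    rw [div_le_iff₀ hB] at h1
    calc L0 ≤ 1 / hh * B := h1
      _ = B / hh := by ring
  have hTθ : B / θ ≤ h T * Real.log T :=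
    (((le_max_left _ _).trans (le_max_left _ _)).trans (le_max_right _ _)).trans hTA
  have hTs : k * B / s ≤ h T * Real.log T :=
    (((le_max_right _ _).trans (le_max_left _ _)).trans (le_max_right _ _)).trans hTA
  have hlogT : max T1 1 ≤ Real.log T := by
    have h1 : max T1 1 ≤ hh * Real.log T := ((le_max_right _ _).trans (le_max_right _ _)).trans hTA
    have h2 : 0 ≤ Real.log T := by
      by_contra hneg
      push Not at hneg
      have : hh * Real.log T < 0 := mul_neg_of_pos_of_neg hT hneg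
      have : (1 : ℝ) ≤ max T1 1 := le_max_right _ _
      linarith
    calc max T1 1 ≤ hh * Real.log T := h1
      _ ≤ 1 * Real.log T := by gcongr
      _ = Real.log T := one_mul _
  have hTT1 : T1 ≤ T := by
    have h1 := Real.log_le_sub_one_of_pos hT0
    have h2 := le_max_left T1 1
    linarith
  obtain ⟨hTsm, hT1⟩ := hT1ev T hTT1
  have hL1' : 1 ≤ LL T := hL0.trans hTL
  have hLpos : 0 < LL T := by linarith
  have hLκ : 1 ≤ (LL T) ^ κ := Real.one_le_rpow hL1' hκ0.le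
  have hLθ : LL T ≤ θ * Real.log T := by
    rw [hLL]
    simp only
    rw [div_le_iff₀ hT]
    rw [div_le_iff₀ hθ] at hTθ
    nlinarith
  have hLs : k * (B / h T) ≤ s * Real.log T := by
    rw [div_le_iff₀ hs0] at hTs
    rw [← mul_div_assoc, div_le_iff₀ hT]
    nlinarith
  have hA := hmain (LL T) T hTL hT1 hLθ
  have hP := pole_mean hk hφ hφ1 hB hsupp' hT hT1 hLs
  set A : ℝ := (1 / T) * ∫ t in (0 : ℝ)..T, ‖DD φ B (LL T) t‖ ^ k with hAdef
  have hA' : |A - C * (LL T) ^ κ| ≤ ε1 * (LL T) ^ κ := hA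
  set P : ℝ := (1 / T) * ∫ t in (0 : ℝ)..T, ‖PP φ B (h T) t‖ ^ k with hPdef
  have hZA : |Z T - A| ≤ η * A + Cη * P := by
    have e1 : Z T = (1 / T) * ∫ t in (0 : ℝ)..T, ‖DD φ B (LL T) t + -(PP φ B (h T) t)‖ ^ k := by
      rw [hZ]
      simp only
      congr 1
      refine intervalIntegral.integral_congr fun t _ => ?_
      rw [zeta_avg hφ hφ1 hB hsupp' hT t]
    have c1 : Continuous (fun t => ‖DD φ B (LL T) t + -(PP φ B (h T) t)‖ ^ k) :=
      ((continuous_DD φ B (LL T)).add (continuous_PP hφ B (h T)).neg).norm.rpow_const fun t => Or.inr hk.le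
    have c2 : Continuous (fun t => ‖DD φ B (LL T) t‖ ^ k) :=
      (continuous_DD φ B (LL T)).norm.rpow_const fun t => Or.inr hk.le
    have c3 : Continuous (fun t => ‖PP φ B (h T) t‖ ^ k) :=
      (continuous_PP hφ B (h T)).norm.rpow_const fun t => Or.inr hk.le
    rw [e1, hAdef, ← mul_sub, ← intervalIntegral.integral_sub (c1.intervalIntegrable _ _) (c2.intervalIntegrable _ _),
      abs_mul, abs_of_pos (by positivity : 0 < 1 / T)]
    have h1 : |∫ t in (0 : ℝ)..T, (‖DD φ B (LL T) t + -(PP φ B (h T) t)‖ ^ k - ‖DD φ B (LL T) t‖ ^ k)| ≤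
        ∫ t in (0 : ℝ)..T, (η * ‖DD φ B (LL T) t‖ ^ k + Cη * ‖PP φ B (h T) t‖ ^ k) := by
      rw [← Real.norm_eq_abs]
      refine intervalIntegral.norm_integral_le_of_norm_le hT0.le (Eventually.of_forall fun t _ => ?_)
        (((c2.const_mul η).add (c3.const_mul Cη)).intervalIntegrable _ _)
      rw [Real.norm_eq_abs]
      have := hdiff (DD φ B (LL T) t) (-(PP φ B (h T) t))
      rwa [norm_neg] at this
    rw [intervalIntegral.integral_add ((c2.const_mul η).intervalIntegrable _ _)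
      ((c3.const_mul Cη).intervalIntegrable _ _), intervalIntegral.integral_const_mul,
      intervalIntegral.integral_const_mul] at h1
    calc (1 / T) * _ ≤ (1 / T) * _ := mul_le_mul_of_nonneg_left h1 (by positivity)
      _ = η * A + Cη * P := by rw [hAdef, hPdef]; ring
  have hAle : A ≤ (C + 1) * (LL T) ^ κ := by
    have := (abs_le.mp hA').2
    have h2 : ε1 * (LL T) ^ κ ≤ 1 * (LL T) ^ κ := mul_le_mul_of_nonneg_right hε11 (by linarith)
    nlinarith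
  have hηA : η * A ≤ ε / 4 * (LL T) ^ κ := by
    calc η * A ≤ η * ((C + 1) * (LL T) ^ κ) := mul_le_mul_of_nonneg_left hAle hη0.le
      _ = ε / 4 * (LL T) ^ κ := by
        rw [hη]
        have : C + 1 ≠ 0 := by linarith
        field_simp
  have hCP : Cη * P ≤ ε / 4 * (LL T) ^ κ := by
    calc Cη * P ≤ Cη * (G * T ^ (-(s / 2))) := mul_le_mul_of_nonneg_left hP hCη.le
      _ ≤ ε1 := hTsm.le
      _ ≤ ε / 4 := hε14
      _ ≤ ε / 4 * (LL T) ^ κ := le_mul_of_one_le_right (by linarith) hLκ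
  have hA'' : |A - C * (LL T) ^ κ| ≤ ε / 4 * (LL T) ^ κ :=
    hA'.trans (mul_le_mul_of_nonneg_right hε14 (by linarith))
  have hfin : |Z T - C * (LL T) ^ κ| ≤ 3 * (ε / 4) * (LL T) ^ κ := by
    have h1 : Z T - C * (LL T) ^ κ = (Z T - A) + (A - C * (LL T) ^ κ) := by ring
    rw [h1]
    refine (abs_add_le _ _).trans ?_
    have h2 : 3 * (ε / 4) * (LL T) ^ κ = ε / 4 * (LL T) ^ κ + ε / 4 * (LL T) ^ κ + ε / 4 * (LL T) ^ κ := by ring
    rw [h2]
    linarith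
  have hLκ0 : 0 < (LL T) ^ κ := by linarith
  have h1 : Z T / (LL T) ^ κ - C = (Z T - C * (LL T) ^ κ) / (LL T) ^ κ := by
    field_simp
  have hkey : |Z T / (LL T) ^ κ - C| < ε := by
    rw [h1, abs_div, abs_of_pos hLκ0, div_lt_iff₀ hLκ0]
    refine hfin.trans_lt ?_
    refine mul_lt_mul_of_pos_right ?_ hLκ0
    linarith
  have h2 : (LL T) ^ κ = B ^ κ / hh ^ κ := by
    rw [hLL]
    exact Real.div_rpow hB.le hT.le _
  have h4 : 0 < hh ^ κ := Real.rpow_pos_of_pos hT _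
  have h5 : hh ^ κ * Z T - C * B ^ κ = B ^ κ * (Z T / (LL T) ^ κ - C) := by
    rw [h2]
    field_simp
  change |hh ^ κ * Z T - C * B ^ κ| < ε'
  rw [h5, abs_mul, abs_of_pos hBκ]
  calc B ^ κ * |Z T / (LL T) ^ κ - C| < B ^ κ * ε := by gcongr
    _ = ε' := by rw [hεdef]; field_simp

/-- all moments of zeta averaged over windows, uniform version -/
theorem mesoscopic_unif {k : ℝ} (hk : 0 < k) {C0 : ℝ} (hC0 : 1 ≤ C0) (hS : HasScale k C0) {φ : ℝ → ℂ} (hφ : Integrable φ)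
    (hφ1 : Integrable fun u : ℝ => (u : ℂ) * φ u) (hone : ∫ u : ℝ, φ u = 1)
    (hsupp : ∃ B : ℝ, ∀ y : ℝ, B ≤ |y| → ∫ u : ℝ, φ u * Complex.exp (-((y * u : ℝ) : ℂ) * Complex.I) = 0) :
    ∃ C : ℝ, 0 < C ∧ ∀ ε : ℝ, 0 < ε → ∃ A : ℝ, 0 < A ∧ ∀ T h : ℝ, 0 < h → h ≤ 1 / A → A ≤ h * Real.log T → 0 < T →
      |h ^ (k ^ 2 / 4) * ((1 / T) * ∫ t in (0 : ℝ)..T,
        ‖∫ u : ℝ, riemannZeta (1 / 2 + ((t + h * u : ℝ) : ℂ) * Complex.I) * φ u‖ ^ k) - C| < ε := by
  obtain ⟨B0, hB0⟩ := hsupp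
  set B : ℝ := max B0 1 with hBdef
  have hB : 0 < B := lt_of_lt_of_le one_pos (le_max_right _ _)
  have hsupp' : ∀ y : ℝ, B ≤ |y| → ∫ u : ℝ, φ u * Complex.exp (-((y * u : ℝ) : ℂ) * Complex.I) = 0 :=
    fun y hy => hB0 y ((le_max_left _ _).trans hy)
  obtain ⟨C, hC, -, h⟩ := mesoscopic_unif_B hk hC0 hS hφ hφ1 hone hB hsupp'
  exact ⟨C * B ^ (k ^ 2 / 4), mul_pos hC (Real.rpow_pos_of_pos hB _), h⟩

end T28

end Pool.Agent.LibMM99
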