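import Mathlib
import Pool.Agent.LibMM99.K6
import Pool.Agent.LibMM99.K7
import Pool.Agent.LibMM99.K8
import Pool.Agent.LibMM99.T28u

set_option autoImplicit false

namespace Pool.Agent.LibMM99

open MeasureTheory Filter Topology
open scoped ComplexConjugate

theorem gaussMom_eq (k : ℝ) (w : ℝ → ℂ) (δ : ℝ) (M : ℕ) : gaussMom k w δ M = (Real.pi ^ M)⁻¹ *
    ∫ z : Fin M → ℂ, ‖∑ A : Finset (Fin M), w (∑ j ∈ A, (δ + (1 - δ) * (j + 1) / M)) *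
      ∏ j ∈ A, ((Real.sqrt (Real.log ((δ + (1 - δ) * (j + 1) / M) / (δ + (1 - δ) * j / M))) : ℝ) : ℂ) * z j‖ ^ k *
      Real.exp (-∑ j, ‖z j‖ ^ 2) := by
  unfold gaussMom
  rw [integral_gCM_eq]
  congr 1
  congr 1
  funext z
  congr 3
  unfold Qw
  rw [map_sum]
  refine Finset.sum_congr rfl fun A _ => ?_
  rw [map_mul, MvPolynomial.eval_C, map_prod]
  congr 1
  refine Finset.prod_congr rfl fun j _ => ?_
  rw [MvPolynomial.eval_X]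
  rfl

/-- the theorem with the explicit constant, in terms of the Fourier transform -/
theorem mesoscopic_full {k : ℝ} (hk : 0 < k) {C0 : ℝ} (hC0 : 1 ≤ C0) (hS : HasScale k C0) {φ : ℝ → ℂ} (hφ : Integrable φ)
    (hφ1 : Integrable fun u : ℝ => (u : ℂ) * φ u) (hone : ∫ u : ℝ, φ u = 1) {B : ℝ} (hB : 0 < B)
    (hsupp' : ∀ y : ℝ, B ≤ |y| → ∫ u : ℝ, φ u * Complex.exp (-((y * u : ℝ) : ℂ) * Complex.I) = 0) :
    ∃ (G : ℝ) (g : ℝ → ℝ), 0 < G ∧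
      (∀ δ : ℝ, 0 < δ → δ < 1 → Tendsto (fun M : ℕ => gaussMom k (T28.wt φ B) δ M) atTop (𝓝 (g δ))) ∧
      Tendsto (fun δ : ℝ => Real.exp (Real.eulerMascheroniConstant * (k ^ 2 / 4)) * (B * δ) ^ (k ^ 2 / 4) * g δ)
        (𝓝[>] 0) (𝓝 G) ∧
      ∀ ε : ℝ, 0 < ε → ∃ A : ℝ, 0 < A ∧ ∀ T h : ℝ, 0 < h → h ≤ 1 / A → A ≤ h * Real.log T → 0 < T →
      |h ^ (k ^ 2 / 4) * ((1 / T) * ∫ t in (0 : ℝ)..T,
        ‖∫ u : ℝ, riemannZeta (1 / 2 + ((t + h * u : ℝ) : ℂ) * Complex.I) * φ u‖ ^ k) - LibZM.Aconst (k / 2) * G| < ε := by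
  obtain ⟨C, hC, hlim, hmain⟩ := T28.mesoscopic_unif_B hk hC0 hS hφ hφ1 hone hB hsupp'
  have hw := T28.isWeight_wt hφ hφ1 hone hB hsupp'
  obtain ⟨CE, hCE, hg⟩ := exists_goodWeight ⌈k / 2⌉₊ (max 1 (B * ∫ u : ℝ, ‖(u : ℂ) * φ u‖))
  have htop : ∀ δ : ℝ, ∃ l : ℝ, 0 < δ → δ < 1 →
      Tendsto (fun L : ℝ => ∫ x, ‖DS (smo (Real.exp (δ * L)) (Real.exp L) (Real.exp L))
        (fun n => T28.wt φ B (Real.log n / L)) x‖ ^ k ∂mu) atTop (𝓝 l) ∧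
      Tendsto (fun M : ℕ => gaussMom k (T28.wt φ B) δ M) atTop (𝓝 l) := by
    intro δ
    by_cases h : 0 < δ ∧ δ < 1
    · obtain ⟨l, h1, h2⟩ := top_limit hk h.1 h.2 hw
      exact ⟨l, fun _ _ => ⟨h1, h2⟩⟩
    · exact ⟨0, fun h1 h2 => absurd ⟨h1, h2⟩ h⟩
  choose g hgl using htop
  have ha : 0 < LibZM.Aconst (k / 2) := LibZM.Aconst_pos (by positivity)
  have hf := limit_formula hk hC0 hS hCE (hg _ hw) (PS_limit hk) hlim (l := g) (fun δ h1 h2 => (hgl δ h1 h2).1)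
  have hBκ : 0 < B ^ (k ^ 2 / 4) := Real.rpow_pos_of_pos hB _
  refine ⟨C * B ^ (k ^ 2 / 4) / LibZM.Aconst (k / 2), g, by positivity, fun δ h1 h2 => (hgl δ h1 h2).2, ?_, ?_⟩
  · have h1 := (hf.mul_const (B ^ (k ^ 2 / 4))).div_const (LibZM.Aconst (k / 2))
    refine h1.congr' ?_
    filter_upwards [self_mem_nhdsWithin] with δ hδ
    have hδ0 : (0 : ℝ) < δ := hδ
    rw [Real.mul_rpow hB.le hδ0.le]
    field_simp
  · intro ε hε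
    obtain ⟨A, hA, h⟩ := hmain ε hε
    refine ⟨A, hA, fun T h' h1 h2 h3 h4 => ?_⟩
    have h5 := h T h' h1 h2 h3 h4
    have h6 : LibZM.Aconst (k / 2) * (C * B ^ (k ^ 2 / 4) / LibZM.Aconst (k / 2)) = C * B ^ (k ^ 2 / 4) := by
      field_simp
    rw [h6]
    exact h5

end Pool.Agent.LibMM99
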