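import Mathlib
import Pool.Agent.LibMM99.T10

/-! # A slightly better Rankin bound (exponent 1/4 instead of 1/5) -/

set_option autoImplicit false

namespace Pool.Agent.LibMM99

open MeasureTheory Filter Topology
open scoped ComplexConjugate

private lemma R1_mem_prm {u v : ℝ} {p : ℕ} : p ∈ prm u v ↔ p.Prime ∧ u < (p : ℝ) ∧ (p : ℝ) ≤ v := by
  unfold prm
  rw [Finset.mem_filter, Finset.mem_Icc]
  constructor
  · rintro ⟨⟨h1, h2⟩, h3, h4⟩
    refine ⟨h3, h4, ?_⟩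
    exact (Nat.le_floor_iff' (by omega)).1 h2
  · rintro ⟨h1, h2, h3⟩
    exact ⟨⟨h1.one_le, (Nat.le_floor_iff' h1.ne_zero).2 h3⟩, h1, h2⟩

private lemma R1_exp_le {y : ℝ} (h0 : 0 ≤ y) (h1 : y ≤ 1 / 4) : Real.exp y ≤ 1 + 4 / 3 * y := by
  have h2 : 1 - y ≤ Real.exp (-y) := by
    have := Real.add_one_le_exp (-y)
    linarith
  have h3 : Real.exp y * Real.exp (-y) = 1 := by rw [← Real.exp_add]; simp
  have h4 : 0 < Real.exp y := Real.exp_pos y
  have h5 : Real.exp y * (1 - y) ≤ Real.exp y * Real.exp (-y) :=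
    mul_le_mul_of_nonneg_left h2 h4.le
  rw [h3] at h5
  have h6 : 1 ≤ (1 + 4 / 3 * y) * (1 - y) := by nlinarith
  have h7 : 0 < 1 - y := by linarith
  by_contra hc
  push Not at hc
  have : (1 + 4 / 3 * y) * (1 - y) < Real.exp y * (1 - y) := mul_lt_mul_of_pos_right hc h7
  linarith

private lemma R1_inv_le {w : ℝ} (_h0 : 0 ≤ w) (h1 : w ≤ 2 / 3) :
    (1 - w)⁻¹ ≤ Real.exp (w + 3 * w ^ 2) := by
  have h2 : 0 < 1 - w := by linarith
  have h3 : 1 - (1 - w)⁻¹ ≤ Real.log (1 - w) := Real.one_sub_inv_le_log_of_pos h2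
  have h4 : (1 - w)⁻¹ = Real.exp (-Real.log (1 - w)) := by
    rw [Real.exp_neg, Real.exp_log h2]
  rw [h4]
  apply Real.exp_le_exp.2
  have h5 : (1 - w)⁻¹ - 1 ≤ w + 3 * w ^ 2 := by
    rw [inv_eq_one_div, div_sub_one h2.ne', div_le_iff₀ h2]
    nlinarith [mul_nonneg (sq_nonneg w) (by linarith : (0 : ℝ) ≤ 2 / 3 - w)]
  linarith

theorem sum_smo_tau_le4 (r : ℕ) : ∃ C : ℝ, 0 < C ∧ ∀ u v X σ : ℝ, Real.sqrt 2 ≤ u → u ≤ v → 0 ≤ σ →
    σ * Real.log v ≤ 1 / 4 →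
    ∑ n ∈ smo u v X, LibZM.tau (r : ℝ) n * (n : ℝ) ^ (σ - 1) ≤ C * (Real.log v / Real.log u) ^ r := by
  obtain ⟨C1, hC1, h1⟩ := sum_inv_prime_le
  obtain ⟨C2, hC2, h2⟩ := sum_log_prime_le
  have hZs : Summable fun n : ℕ => 1 / (n : ℝ) ^ 2 := Real.summable_one_div_nat_pow.2 (by norm_num)
  set Z : ℝ := ∑' n : ℕ, 1 / (n : ℝ) ^ 2 with hZ
  have hZ0 : 0 ≤ Z := tsum_nonneg fun n => by positivity
  set C3 : ℝ := C1 + 1 / 3 + 4 / 3 * C2 + 3 * (16 / 9 * Z) with hC3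
  refine ⟨Real.exp (r * C3), Real.exp_pos _, ?_⟩
  intro u v X σ hu huv hσ hσv
  have hs2 : (1 : ℝ) < Real.sqrt 2 := by
    rw [show (1 : ℝ) = Real.sqrt 1 by simp]
    exact Real.sqrt_lt_sqrt (by norm_num) (by norm_num)
  have hu1 : 1 < u := lt_of_lt_of_le hs2 hu
  have hv1 : 1 < v := lt_of_lt_of_le hu1 huv
  have hlu : 0 < Real.log u := Real.log_pos hu1
  have hlv : 0 < Real.log v := Real.log_pos hv1
  have hlv3 : (0.34 : ℝ) ≤ Real.log v := by
    have h3 : Real.log (Real.sqrt 2) ≤ Real.log v := Real.log_le_log (by positivity) (hu.trans huv)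
    rw [Real.log_sqrt (by norm_num)] at h3
    have := Real.log_two_gt_d9
    linarith
  have hσ1 : σ ≤ 3 / 4 := by
    by_contra hc
    push Not at hc
    nlinarith
  refine (T10_sum_smo_le_prod r (by linarith)).trans ?_
  have hloc : ∀ p ∈ prm u v, (p : ℝ) ^ (σ - 1) ≤ (p : ℝ)⁻¹ + 4 / 3 * σ * (Real.log p / p) ∧
      0 ≤ (p : ℝ) ^ (σ - 1) ∧ (p : ℝ) ^ (σ - 1) ≤ 4 / 3 * (p : ℝ)⁻¹ ∧ (p : ℝ) ^ (σ - 1) ≤ 2 / 3 := by
    intro p hp
    obtain ⟨hpp, hp1, hp2⟩ := R1_mem_prm.1 hp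
    have hp0 : (0 : ℝ) < p := by exact_mod_cast hpp.pos
    have hp2' : (2 : ℝ) ≤ p := by exact_mod_cast hpp.two_le
    have hlp : 0 ≤ Real.log p := Real.log_nonneg (by linarith)
    have hy1 : σ * Real.log p ≤ 1 / 4 :=
      le_trans (mul_le_mul_of_nonneg_left (Real.log_le_log hp0 hp2) hσ) hσv
    have hy0 : 0 ≤ σ * Real.log p := mul_nonneg hσ hlp
    have he := R1_exp_le hy0 hy1
    have heq : (p : ℝ) ^ (σ - 1) = Real.exp (σ * Real.log p) * (p : ℝ)⁻¹ := by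
      rw [Real.rpow_sub hp0, Real.rpow_one, Real.rpow_def_of_pos hp0, mul_comm (Real.log _), div_eq_mul_inv]
    have hpi : 0 < (p : ℝ)⁻¹ := inv_pos.2 hp0
    have h3 : (p : ℝ) ^ (σ - 1) ≤ 4 / 3 * (p : ℝ)⁻¹ := by
      rw [heq]
      exact mul_le_mul_of_nonneg_right (by linarith) hpi.le
    refine ⟨?_, by positivity, h3, ?_⟩
    · rw [heq]
      calc Real.exp (σ * Real.log p) * (p : ℝ)⁻¹ ≤ (1 + 4 / 3 * (σ * Real.log p)) * (p : ℝ)⁻¹ :=
            mul_le_mul_of_nonneg_right he hpi.le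
        _ = (p : ℝ)⁻¹ + 4 / 3 * σ * (Real.log p / p) := by ring
    · refine h3.trans ?_
      have : (p : ℝ)⁻¹ ≤ 2⁻¹ := inv_anti₀ (by norm_num) hp2'
      linarith
  have hprod : ∏ p ∈ prm u v, ((1 - (p : ℝ) ^ (σ - 1)) ^ (r : ℝ))⁻¹ ≤
      ∏ p ∈ prm u v, Real.exp (r * ((p : ℝ) ^ (σ - 1) + 3 * ((p : ℝ) ^ (σ - 1)) ^ 2)) := by
    refine Finset.prod_le_prod (fun p hp => ?_) fun p hp => ?_
    · have := (hloc p hp).2.2.2
      have h3 : 0 ≤ 1 - (p : ℝ) ^ (σ - 1) := by linarith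
      positivity
    · obtain ⟨-, ha, -, hb⟩ := hloc p hp
      have h3 : 0 < 1 - (p : ℝ) ^ (σ - 1) := by linarith
      rw [Real.rpow_natCast, ← inv_pow, Real.exp_nat_mul]
      exact pow_le_pow_left₀ (by positivity) (R1_inv_le ha hb) r
  refine hprod.trans ?_
  rw [← Real.exp_sum, ← Finset.mul_sum]
  have hsum : ∑ p ∈ prm u v, ((p : ℝ) ^ (σ - 1) + 3 * ((p : ℝ) ^ (σ - 1)) ^ 2) ≤
      Real.log (Real.log v / Real.log u) + C3 := by
    have ha : ∑ p ∈ prm u v, ((p : ℝ) ^ (σ - 1) + 3 * ((p : ℝ) ^ (σ - 1)) ^ 2) ≤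
        ∑ p ∈ prm u v, (((p : ℝ)⁻¹ + 4 / 3 * σ * (Real.log p / p)) +
          3 * (16 / 9 * (1 / (p : ℝ) ^ 2))) := by
      refine Finset.sum_le_sum fun p hp => ?_
      obtain ⟨h3, h4, h5, -⟩ := hloc p hp
      refine add_le_add h3 (mul_le_mul_of_nonneg_left ?_ (by norm_num))
      calc ((p : ℝ) ^ (σ - 1)) ^ 2 ≤ (4 / 3 * (p : ℝ)⁻¹) ^ 2 := pow_le_pow_left₀ h4 h5 2
        _ = 16 / 9 * (1 / (p : ℝ) ^ 2) := by rw [mul_pow, inv_pow, one_div]; norm_num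
    refine ha.trans ?_
    rw [Finset.sum_add_distrib, Finset.sum_add_distrib, ← Finset.mul_sum, ← Finset.mul_sum,
      ← Finset.mul_sum]
    have hb := h1 u v hu huv
    have hc : ∑ p ∈ prm u v, Real.log p / p ≤ Real.log v + C2 := by
      refine le_trans ?_ (h2 v hv1.le)
      refine Finset.sum_le_sum_of_subset_of_nonneg ?_ ?_
      · intro p hp
        obtain ⟨h3, h4, h5⟩ := R1_mem_prm.1 hp
        exact R1_mem_prm.2 ⟨h3, by linarith, h5⟩
      · intro p hp _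
        obtain ⟨h3, h4, h5⟩ := R1_mem_prm.1 hp
        exact div_nonneg (Real.log_nonneg h4.le) (by positivity)
    have hd : ∑ p ∈ prm u v, 1 / (p : ℝ) ^ 2 ≤ Z :=
      hZs.sum_le_tsum _ (fun n _ => by positivity)
    have he : 4 / 3 * σ * ∑ p ∈ prm u v, Real.log p / p ≤ 1 / 3 + 4 / 3 * C2 := by
      calc 4 / 3 * σ * ∑ p ∈ prm u v, Real.log p / p ≤ 4 / 3 * σ * (Real.log v + C2) :=
            mul_le_mul_of_nonneg_left hc (by positivity)
        _ = 4 / 3 * (σ * Real.log v) + 4 / 3 * C2 * σ := by ring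
        _ ≤ 4 / 3 * (1 / 4) + 4 / 3 * C2 * 1 := by
            refine add_le_add (mul_le_mul_of_nonneg_left hσv (by norm_num))
              (mul_le_mul_of_nonneg_left (by linarith) (by positivity))
        _ = 1 / 3 + 4 / 3 * C2 := by ring
    rw [hC3]
    linarith
  have hq : 0 < Real.log v / Real.log u := div_pos hlv hlu
  calc Real.exp (r * ∑ p ∈ prm u v, ((p : ℝ) ^ (σ - 1) + 3 * ((p : ℝ) ^ (σ - 1)) ^ 2))
      ≤ Real.exp (r * (Real.log (Real.log v / Real.log u) + C3)) :=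
        Real.exp_le_exp.2 (mul_le_mul_of_nonneg_left hsum (Nat.cast_nonneg r))
    _ = Real.exp (r * C3) * (Real.log v / Real.log u) ^ r := by
        rw [mul_add, Real.exp_add, mul_comm, Real.exp_nat_mul (Real.log _), Real.exp_log hq]

theorem sum_smo_tau_tail_le4 (r : ℕ) : ∃ C : ℝ, 0 < C ∧ ∀ u v X Y : ℝ, Real.sqrt 2 ≤ u → u ≤ v → 1 ≤ X →
    ∑ n ∈ (smo u v Y).filter (fun n : ℕ => X < (n : ℝ)), LibZM.tau (r : ℝ) n / n ≤
      C * (Real.log v / Real.log u) ^ r * Real.exp (-(Real.log X) / (4 * Real.log v)) := by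
  obtain ⟨C, hC, h⟩ := sum_smo_tau_le4 r
  refine ⟨C, hC, ?_⟩
  intro u v X Y hu huv hX
  have hs2 : (1 : ℝ) < Real.sqrt 2 := by
    rw [show (1 : ℝ) = Real.sqrt 1 by simp]
    exact Real.sqrt_lt_sqrt (by norm_num) (by norm_num)
  have hlu : 0 < Real.log u := Real.log_pos (lt_of_lt_of_le hs2 hu)
  have hlv : 0 < Real.log v := Real.log_pos (lt_of_lt_of_le hs2 (hu.trans huv))
  have hr : (0 : ℝ) ≤ (r : ℝ) := Nat.cast_nonneg r
  set σ : ℝ := 1 / (4 * Real.log v) with hσ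
  have hσ0 : 0 < σ := by positivity
  have hσv : σ * Real.log v ≤ 1 / 4 := by
    rw [hσ]
    field_simp
    exact le_rfl
  have hX0 : 0 < X := by linarith
  have hexp : Real.exp (-(Real.log X) / (4 * Real.log v)) = X ^ (-σ) := by
    rw [Real.rpow_def_of_pos hX0, hσ]
    congr 1
    ring
  rw [hexp]
  have hpos : ∀ n ∈ smo u v Y, 1 ≤ n := by
    intro n hn
    unfold smo at hn
    rw [Finset.mem_filter, Finset.mem_Icc] at hn
    exact hn.1.1
  calc ∑ n ∈ (smo u v Y).filter (fun n : ℕ => X < (n : ℝ)), LibZM.tau (r : ℝ) n / n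
      ≤ ∑ n ∈ (smo u v Y).filter (fun n : ℕ => X < (n : ℝ)),
          LibZM.tau (r : ℝ) n * (n : ℝ) ^ (σ - 1) * X ^ (-σ) := by
        refine Finset.sum_le_sum fun n hn => ?_
        rw [Finset.mem_filter] at hn
        have hn1 := hpos n hn.1
        have hn0 : (0 : ℝ) < n := by exact_mod_cast hn1
        have h1 : (1 : ℝ) ≤ (n : ℝ) ^ σ * X ^ (-σ) := by
          rw [Real.rpow_neg hX0.le, ← div_eq_mul_inv, ← Real.div_rpow hn0.le hX0.le]
          apply Real.one_le_rpow _ hσ0.le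
          rw [le_div_iff₀ hX0, one_mul]
          exact hn.2.le
        have h2 : LibZM.tau (r : ℝ) n * (n : ℝ) ^ (σ - 1) * X ^ (-σ) =
            LibZM.tau (r : ℝ) n / n * ((n : ℝ) ^ σ * X ^ (-σ)) := by
          rw [Real.rpow_sub hn0, Real.rpow_one]
          ring
        rw [h2]
        have h3 : 0 ≤ LibZM.tau (r : ℝ) n / n := div_nonneg (LibZM.tau_nonneg hr n) hn0.le
        exact le_mul_of_one_le_right h3 h1
    _ ≤ ∑ n ∈ smo u v Y, LibZM.tau (r : ℝ) n * (n : ℝ) ^ (σ - 1) * X ^ (-σ) := by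
        refine Finset.sum_le_sum_of_subset_of_nonneg (Finset.filter_subset _ _) fun n _ _ => ?_
        exact mul_nonneg (mul_nonneg (LibZM.tau_nonneg hr n) (by positivity)) (by positivity)
    _ = (∑ n ∈ smo u v Y, LibZM.tau (r : ℝ) n * (n : ℝ) ^ (σ - 1)) * X ^ (-σ) := by
        rw [Finset.sum_mul]
    _ ≤ C * (Real.log v / Real.log u) ^ r * X ^ (-σ) :=
        mul_le_mul_of_nonneg_right (h u v Y σ hu huv hσ0.le hσv) (by positivity)

end Pool.Agent.LibMM99
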