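import Mathlib
import Pool.Agent.LibMM99.T01
import Pool.Agent.LibMM99.T02

/-! # Cauchy estimate for the tail of a power series, by averaging over a coordinate of the torus -/

set_option autoImplicit false

namespace Pool.Agent.LibMM99

open MeasureTheory Filter Topology
open scoped ComplexConjugate

private theorem R2_ch_pow (x : Om) (m : ℕ) : ch x (2 ^ m) = ch x 2 ^ m := by
  induction m with
  | zero => simp [ch_one]
  | succ m ih => rw [pow_succ, ch_mul x (by positivity) (by norm_num), ih, pow_succ]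

private theorem R2_inv (x : Om) : (ch x 2)⁻¹ = conj (ch x 2) := by
  have h : ‖ch x 2‖ = 1 := norm_ch x 2
  rw [Complex.inv_def, Complex.normSq_eq_norm_sq, h]
  simp

theorem R2_tail {f : ℕ → ℂ} {e : ℕ → ℕ} {R : ℝ} (hR : 1 < R) (hs : Summable fun n => ‖f n‖ * R ^ e n) {M : ℝ}
    (hM : ∀ z : ℂ, ‖z‖ = R → ‖∑' n, f n * z ^ e n‖ ≤ M) (D : ℕ) :
    ‖∑' n, (if D < e n then f n else 0)‖ ≤ M * ((R⁻¹) ^ D / (R - 1)) := by
  have hR0 : 0 < R := by linarith
  have hRi : R⁻¹ < 1 := inv_lt_one_of_one_lt₀ hR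
  have hRi0 : 0 < R⁻¹ := inv_pos.2 hR0
  set ζ : Om → ℂ := fun x => (R : ℂ) * ch x 2 with hζ
  have hζn : ∀ x, ‖ζ x‖ = R := by
    intro x
    simp only [hζ]
    rw [norm_mul, norm_ch, mul_one, Complex.norm_real, Real.norm_of_nonneg hR0.le]
  have hζ0 : ∀ x, ζ x ≠ 0 := by
    intro x h
    have := hζn x
    rw [h, norm_zero] at this
    linarith
  have hζc : Continuous ζ := continuous_const.mul (continuous_ch 2)
  set F : ℕ × ℕ → Om → ℂ := fun q x => (f q.1 * ζ x ^ e q.1) * (ζ x)⁻¹ ^ (D + 1 + q.2) with hF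
  have hFn : ∀ q x, ‖F q x‖ = (‖f q.1‖ * R ^ e q.1) * (R⁻¹) ^ (D + 1 + q.2) := by
    intro q x
    simp only [hF]
    rw [norm_mul, norm_mul, norm_pow, norm_pow, norm_inv, hζn]
  have hgeo : Summable fun i : ℕ => (R⁻¹) ^ (D + 1 + i) := by
    have := (summable_geometric_of_lt_one hRi0.le hRi).mul_left ((R⁻¹) ^ (D + 1))
    simpa only [← pow_add] using this
  have hgeos : ∑' i : ℕ, (R⁻¹) ^ (D + 1 + i) = (R⁻¹) ^ D / (R - 1) := by
    have h1 : ∀ i : ℕ, (R⁻¹) ^ (D + 1 + i) = (R⁻¹) ^ (D + 1) * (R⁻¹) ^ i := fun i => pow_add _ _ _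
    simp only [h1]
    rw [tsum_mul_left, tsum_geometric_of_lt_one hRi0.le hRi, pow_succ]
    have h2 : (1 - R⁻¹) ≠ 0 := by linarith
    have h3 : R - 1 ≠ 0 := by linarith
    field_simp
  have hb : Summable fun q : ℕ × ℕ => (‖f q.1‖ * R ^ e q.1) * (R⁻¹) ^ (D + 1 + q.2) :=
    hs.mul_of_nonneg hgeo (fun n => by positivity) (fun i => by positivity)
  have hFc : ∀ q, Continuous (F q) := by
    intro q
    simp only [hF]
    exact (continuous_const.mul (hζc.pow _)).mul ((hζc.inv₀ hζ0).pow _)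
  have hFint : ∀ q, Integrable (F q) mu := fun q => integrable_of_continuous (hFc q)
  have hsumint : Summable fun q => ∫ x, ‖F q x‖ ∂mu := by
    refine hb.congr fun q => ?_
    simp only [hFn]
    simp
  have hHS := hasSum_integral_of_summable_integral_norm hFint hsumint
  -- the integrals
  have hval : ∀ q : ℕ × ℕ, ∫ x, F q x ∂mu = if e q.1 = D + 1 + q.2 then f q.1 else 0 := by
    intro q
    have h1 : ∀ x, F q x = (f q.1 * (R : ℂ) ^ e q.1 * ((R : ℂ)⁻¹) ^ (D + 1 + q.2)) *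
        (ch x (2 ^ e q.1) * conj (ch x (2 ^ (D + 1 + q.2)))) := by
      intro x
      simp only [hF, hζ]
      rw [R2_ch_pow, R2_ch_pow, mul_pow, mul_inv, mul_pow, R2_inv, map_pow]
      ring
    simp only [h1]
    rw [integral_const_mul, integral_ch (by positivity) (by positivity)]
    by_cases h : e q.1 = D + 1 + q.2
    · rw [if_pos h, h, if_pos rfl, mul_one, mul_assoc, ← mul_pow]
      have : (R : ℂ) * (R : ℂ)⁻¹ = 1 := by
        rw [mul_inv_cancel₀]
        exact_mod_cast hR0.ne'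
      rw [this, one_pow, mul_one]
    · rw [if_neg h, if_neg, mul_zero]
      intro h2
      exact h (Nat.pow_right_injective (le_refl 2) h2)
  have htot : ∑' q : ℕ × ℕ, (∫ x, F q x ∂mu) = ∑' n, (if D < e n then f n else 0) := by
    rw [hHS.summable.tsum_prod]
    apply tsum_congr
    intro n
    simp only [hval]
    by_cases h : D < e n
    · rw [if_pos h, tsum_eq_single (e n - D - 1)]
      · rw [if_pos (by omega)]
      · intro i hi
        rw [if_neg (by omega)]
    · rw [if_neg h]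
      have : ∀ i : ℕ, (if e n = D + 1 + i then f n else 0) = 0 := by
        intro i
        rw [if_neg (by omega)]
      simp only [this, tsum_zero]
  rw [← htot, hHS.tsum_eq]
  have hpt : ∀ x, ‖∑' q, F q x‖ ≤ M * ((R⁻¹) ^ D / (R - 1)) := by
    intro x
    have hA : Summable fun n => ‖f n * ζ x ^ e n‖ := by
      refine hs.congr fun n => ?_
      rw [norm_mul, norm_pow, hζn]
    have hB : Summable fun i : ℕ => ‖(ζ x)⁻¹ ^ (D + 1 + i)‖ := by
      refine hgeo.congr fun i => ?_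
      rw [norm_pow, norm_inv, hζn]
    have h2 := tsum_mul_tsum_of_summable_norm hA hB
    have h3 : ∑' q, F q x = (∑' n, f n * ζ x ^ e n) * ∑' i : ℕ, (ζ x)⁻¹ ^ (D + 1 + i) := h2.symm
    rw [h3, norm_mul]
    have h4 : ‖∑' i : ℕ, (ζ x)⁻¹ ^ (D + 1 + i)‖ ≤ (R⁻¹) ^ D / (R - 1) := by
      refine (norm_tsum_le_tsum_norm hB).trans (le_of_eq ?_)
      rw [← hgeos]
      apply tsum_congr
      intro i
      rw [norm_pow, norm_inv, hζn]
    have h5 := hM (ζ x) (hζn x)
    exact mul_le_mul h5 h4 (norm_nonneg _) ((norm_nonneg _).trans h5)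
  calc ‖∫ x, ∑' q, F q x ∂mu‖ ≤ (M * ((R⁻¹) ^ D / (R - 1))) * mu.real Set.univ :=
        norm_integral_le_of_norm_le_const (Eventually.of_forall hpt)
    _ = _ := by simp

end Pool.Agent.LibMM99
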