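import Mathlib
import Pool.Agent.LibZM.Asymp2

/-! # The complex binomial series with the coefficients `dcoef` -/

set_option autoImplicit false

namespace Pool.Agent.LibMM99

open Filter Topology
open scoped ComplexConjugate

private theorem R3_asc (α : ℝ) (n : ℕ) :
    (ascPochhammer ℂ n).eval (α : ℂ) = (n.factorial : ℂ) * ((LibZM.dcoef α n : ℝ) : ℂ) := by
  induction n with
  | zero => simp
  | succ n ih =>
    rw [ascPochhammer_succ_eval, ih, Nat.factorial_succ]
    have h := LibZM.dcoef_succ α n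
    have h2 : ((LibZM.dcoef α (n + 1) : ℝ) : ℂ) * ((n : ℂ) + 1) = ((α : ℂ) + n) * ((LibZM.dcoef α n : ℝ) : ℂ) := by
      exact_mod_cast congrArg (fun t : ℝ => (t : ℂ)) h
    push_cast
    calc (n.factorial : ℂ) * ((LibZM.dcoef α n : ℝ) : ℂ) * ((α : ℂ) + n)
        = (n.factorial : ℂ) * (((α : ℂ) + n) * ((LibZM.dcoef α n : ℝ) : ℂ)) := by ring
      _ = (n.factorial : ℂ) * (((LibZM.dcoef α (n + 1) : ℝ) : ℂ) * ((n : ℂ) + 1)) := by rw [h2]
      _ = _ := by ring

theorem R3_choose (α : ℝ) (n : ℕ) : Ring.choose ((α : ℂ) + n - 1) n = ((LibZM.dcoef α n : ℝ) : ℂ) := by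
  rw [← Ring.multichoose_eq]
  have h1 := Ring.factorial_nsmul_multichoose_eq_ascPochhammer (α : ℂ) n
  rw [Polynomial.ascPochhammer_smeval_eq_eval, R3_asc, nsmul_eq_mul] at h1
  have h2 : (n.factorial : ℂ) ≠ 0 := by exact_mod_cast n.factorial_ne_zero
  exact mul_left_cancel₀ h2 h1

/-- `∑ d_α(p^a) w^a = (1 - w)^{-α}` -/
theorem R3_binom (α : ℝ) {w : ℂ} (hw : ‖w‖ < 1) :
    HasSum (fun a : ℕ => ((LibZM.dcoef α a : ℝ) : ℂ) * w ^ a) (Complex.exp (-(α : ℂ) * Complex.log (1 - w))) := by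
  have h := Complex.one_div_one_sub_cpow_hasFPowerSeriesOnBall_zero (α : ℂ)
  have hmem : w ∈ Metric.eball (0 : ℂ) 1 := by
    rw [← ENNReal.ofReal_one, Metric.eball_ofReal]
    simpa using hw
  have h1 := h.hasSum hmem
  have hne : (1 : ℂ) - w ≠ 0 := by
    intro h0
    have : w = 1 := by linear_combination -h0
    rw [this, norm_one] at hw
    exact lt_irrefl _ hw
  have h2 : (1 : ℂ) / (1 - (0 + w)) ^ (α : ℂ) = Complex.exp (-(α : ℂ) * Complex.log (1 - w)) := by
    rw [zero_add, Complex.cpow_def_of_ne_zero hne, one_div, ← Complex.exp_neg]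
    congr 1
    ring
  rw [h2] at h1
  have h3 : (fun a : ℕ => ((LibZM.dcoef α a : ℝ) : ℂ) * w ^ a) =
      fun n => (FormalMultilinearSeries.ofScalars ℂ fun n : ℕ => Ring.choose ((α : ℂ) + n - 1) n) n
        (fun _ => w) := by
    funext n
    rw [FormalMultilinearSeries.ofScalars_apply_eq, R3_choose, smul_eq_mul]
  rw [h3]
  exact h1

end Pool.Agent.LibMM99
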