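import Mathlib
import Pool.Agent.LibMM99.T09
import Pool.Agent.LibMM99.R2
import Pool.Agent.LibMM99.R3

/-! # Pointwise comparison of truncated Euler products with the exponential of the prime sum -/

set_option autoImplicit false

namespace Pool.Agent.LibMM99

open MeasureTheory Filter Topology
open scoped ComplexConjugate

lemma R4_mem_prm {u v : ℝ} {p : ℕ} : p ∈ prm u v ↔ p.Prime ∧ u < (p : ℝ) ∧ (p : ℝ) ≤ v := by
  unfold prm
  rw [Finset.mem_filter, Finset.mem_Icc]
  constructor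
  · rintro ⟨⟨h1, h2⟩, h3, h4⟩
    refine ⟨h3, h4, ?_⟩
    exact (Nat.le_floor_iff' (by omega)).1 h2
  · rintro ⟨h1, h2, h3⟩
    exact ⟨⟨h1.one_le, (Nat.le_floor_iff' h1.ne_zero).2 h3⟩, h1, h2⟩

lemma R4_mem_smo {u v X : ℝ} (hX : 0 ≤ X) {n : ℕ} :
    n ∈ smo u v X ↔ (1 ≤ n ∧ (n : ℝ) ≤ X) ∧ ∀ p ∈ n.primeFactors, u < (p : ℝ) ∧ (p : ℝ) ≤ v := by
  unfold smo
  rw [Finset.mem_filter, Finset.mem_Icc, Nat.le_floor_iff hX]

/-- number of prime factors with multiplicity -/
abbrev Om' (n : ℕ) : ℕ := ArithmeticFunction.cardFactors n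

private lemma R4_list_upper {v : ℝ} (hv : 0 ≤ v) (l : List ℕ) (h : ∀ p ∈ l, (p : ℝ) ≤ v) :
    ((l.prod : ℕ) : ℝ) ≤ v ^ l.length := by
  induction l with
  | nil => simp
  | cons a l ih =>
    rw [List.prod_cons, List.length_cons, pow_succ, mul_comm (v ^ l.length), Nat.cast_mul]
    exact mul_le_mul (h a (by simp)) (ih fun p hp => h p (by simp [hp])) (Nat.cast_nonneg _) hv

private lemma R4_list_lower {u : ℝ} (hu : 0 ≤ u) (l : List ℕ) (h : ∀ p ∈ l, u ≤ (p : ℝ)) :
    u ^ l.length ≤ ((l.prod : ℕ) : ℝ) := by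
  induction l with
  | nil => simp
  | cons a l ih =>
    rw [List.prod_cons, List.length_cons, pow_succ, mul_comm (u ^ l.length), Nat.cast_mul]
    exact mul_le_mul (h a (by simp)) (ih fun p hp => h p (by simp [hp])) (by positivity) (Nat.cast_nonneg _)

lemma R4_le_pow {v : ℝ} (hv : 0 ≤ v) {n : ℕ} (hn : n ≠ 0) (h : ∀ p ∈ n.primeFactors, (p : ℝ) ≤ v) :
    (n : ℝ) ≤ v ^ Om' n := by
  have h1 := R4_list_upper hv n.primeFactorsList (fun p hp => h p (List.mem_toFinset.2 hp))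
  rw [Nat.prod_primeFactorsList hn] at h1
  unfold Om'
  rw [ArithmeticFunction.cardFactors_apply]
  exact h1

lemma R4_pow_le {u : ℝ} (hu : 0 ≤ u) {n : ℕ} (hn : n ≠ 0) (h : ∀ p ∈ n.primeFactors, u ≤ (p : ℝ)) :
    u ^ Om' n ≤ (n : ℝ) := by
  have h1 := R4_list_lower hu n.primeFactorsList (fun p hp => h p (List.mem_toFinset.2 hp))
  rw [Nat.prod_primeFactorsList hn] at h1
  unfold Om'
  rw [ArithmeticFunction.cardFactors_apply]
  exact h1

/-- general term of the Dirichlet series of the `α`-th power, with a variable `z` counting prime factors -/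
noncomputable def R4F (α : ℝ) (x : Om) (z : ℂ) (n : ℕ) : ℂ :=
  ((LibZM.tau α n : ℝ) : ℂ) * (((Real.sqrt n)⁻¹ : ℝ) : ℂ) * ch x n * z ^ Om' n

/-- value at a prime -/
noncomputable def R4w (x : Om) (p : ℕ) : ℂ := (((Real.sqrt p)⁻¹ : ℝ) : ℂ) * ch x p

private lemma R4F_one (α : ℝ) (x : Om) (z : ℂ) : R4F α x z 1 = 1 := by
  unfold R4F Om'
  have : LibZM.tau α 1 = 1 := (LibZM.tau_isMultiplicative α).map_one
  simp [this, ch_one]

private lemma R4F_zero (α : ℝ) (x : Om) (z : ℂ) : R4F α x z 0 = 0 := by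
  unfold R4F
  simp

private lemma R4F_mul (α : ℝ) (x : Om) (z : ℂ) {m n : ℕ} (hmn : Nat.Coprime m n) :
    R4F α x z (m * n) = R4F α x z m * R4F α x z n := by
  rcases Nat.eq_zero_or_pos m with hm | hm
  · subst hm
    rw [zero_mul, R4F_zero, zero_mul]
  rcases Nat.eq_zero_or_pos n with hn | hn
  · subst hn
    rw [mul_zero, R4F_zero, mul_zero]
  unfold R4F Om'
  rw [(LibZM.tau_isMultiplicative α).map_mul_of_coprime hmn, ch_mul x hm.ne' hn.ne',
    ArithmeticFunction.cardFactors_mul hm.ne' hn.ne', pow_add, Nat.cast_mul, Real.sqrt_mul (Nat.cast_nonneg _),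
    mul_inv]
  push_cast
  ring

private lemma R4_ch_pow (x : Om) {p : ℕ} (hp : p ≠ 0) (a : ℕ) : ch x (p ^ a) = ch x p ^ a := by
  induction a with
  | zero => simp [ch_one]
  | succ a ih => rw [pow_succ, ch_mul x (pow_ne_zero _ hp) hp, ih, pow_succ]

private lemma R4F_prime_pow (α : ℝ) (x : Om) (z : ℂ) {p : ℕ} (hp : p.Prime) (a : ℕ) :
    R4F α x z (p ^ a) = ((LibZM.dcoef α a : ℝ) : ℂ) * (z * R4w x p) ^ a := by
  unfold R4F Om' R4w
  have h1 : Real.sqrt ((p ^ a : ℕ) : ℝ) = (Real.sqrt p) ^ a := by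
    push_cast
    rw [Real.sqrt_eq_rpow, Real.sqrt_eq_rpow, ← Real.rpow_natCast, ← Real.rpow_mul (by positivity),
      ← Real.rpow_natCast, ← Real.rpow_mul (by positivity), mul_comm]
  rw [LibZM.tau_prime_pow α hp, R4_ch_pow x hp.ne_zero, ArithmeticFunction.cardFactors_apply_prime_pow hp, h1,
    ← inv_pow, mul_pow, mul_pow]
  push_cast
  ring

lemma R4w_norm (x : Om) (p : ℕ) : ‖R4w x p‖ = (Real.sqrt p)⁻¹ := by
  unfold R4w
  rw [norm_mul, norm_ch, mul_one, Complex.norm_real, Real.norm_of_nonneg (by positivity)]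

private lemma R4_zw {x : Om} {z : ℂ} (hz : ‖z‖ ≤ 6 / 5) {p : ℕ} (hp : p.Prime) :
    ‖z * R4w x p‖ ≤ 6 / 7 ∧ ‖z * R4w x p‖ ^ 2 ≤ 36 / 25 * (p : ℝ)⁻¹ := by
  have hp2 : (2 : ℝ) ≤ p := by exact_mod_cast hp.two_le
  have hsp : Real.sqrt 2 ≤ Real.sqrt p := Real.sqrt_le_sqrt hp2
  have h2 : (7 / 5 : ℝ) ≤ Real.sqrt 2 := by
    apply Real.le_sqrt_of_sq_le
    norm_num
  have h3 : (0 : ℝ) < Real.sqrt p := by linarith
  rw [norm_mul, R4w_norm]
  constructor
  · calc ‖z‖ * (Real.sqrt p)⁻¹ ≤ 6 / 5 * (7 / 5)⁻¹ := by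
          apply mul_le_mul hz _ (by positivity) (by norm_num)
          exact inv_anti₀ (by norm_num) (by linarith)
      _ = 6 / 7 := by norm_num
  · rw [mul_pow, inv_pow, Real.sq_sqrt (by positivity)]
    apply mul_le_mul_of_nonneg_right _ (by positivity)
    calc ‖z‖ ^ 2 ≤ (6 / 5) ^ 2 := pow_le_pow_left₀ (norm_nonneg _) hz 2
      _ = 36 / 25 := by norm_num

/-- the logarithm of the Euler product -/
noncomputable def R4P (u v : ℝ) (x : Om) (z : ℂ) : ℂ := -∑ p ∈ prm u v, Complex.log (1 - z * R4w x p)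

private lemma R4_hasSum {α : ℝ} (hα : 0 ≤ α) (u v : ℝ) (x : Om) {z : ℂ} (hz : ‖z‖ ≤ 6 / 5) :
    Summable (fun n => ‖(Nat.factoredNumbers (prm u v)).indicator (R4F α x z) n‖) ∧
    HasSum ((Nat.factoredNumbers (prm u v)).indicator (R4F α x z)) (Complex.exp (α * R4P u v x z)) := by
  classical
  have hsum : ∀ {p : ℕ}, p.Prime → Summable (fun a : ℕ => ‖R4F α x z (p ^ a)‖) := by
    intro p hp
    have h1 := (R4_zw (x := x) hz hp).1
    have h0 : 0 ≤ ‖z * R4w x p‖ := norm_nonneg _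
    have hlt : ‖z * R4w x p‖ < 1 := by linarith
    have h2 : ∀ a : ℕ, ‖R4F α x z (p ^ a)‖ = LibZM.dcoef α a * ‖z * R4w x p‖ ^ a := by
      intro a
      rw [R4F_prime_pow α x z hp, norm_mul, norm_pow, Complex.norm_real,
        Real.norm_of_nonneg (LibZM.dcoef_nonneg hα a)]
    apply summable_of_sum_range_le (c := ((1 - ‖z * R4w x p‖) ^ α)⁻¹) (fun a => norm_nonneg _)
    intro N
    simp only [h2]
    exact LibZM.partial_binomial_le' hα N h0 hlt
  have hE := EulerProduct.summable_and_hasSum_factoredNumbers_prod_filter_prime_tsum (R4F_one α x z)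
    (fun {m n} h => R4F_mul α x z h) hsum (prm u v)
  have hfil : (prm u v).filter Nat.Prime = prm u v := by
    apply Finset.filter_true_of_mem
    intro p hp
    exact (R4_mem_prm.1 hp).1
  rw [hfil] at hE
  obtain ⟨hE1, hE2⟩ := hE
  constructor
  · have h1 := (summable_subtype_iff_indicator (f := fun n => ‖R4F α x z n‖)
      (s := Nat.factoredNumbers (prm u v))).1 hE1
    refine h1.congr fun n => ?_
    rw [← norm_indicator_eq_indicator_norm]
  · have h1 := (hasSum_subtype_iff_indicator (f := R4F α x z) (s := Nat.factoredNumbers (prm u v))).1 hE2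
    have h2 : ∏ p ∈ prm u v, ∑' a : ℕ, R4F α x z (p ^ a) = Complex.exp (α * R4P u v x z) := by
      unfold R4P
      rw [mul_neg, Finset.mul_sum, ← Finset.sum_neg_distrib, Complex.exp_sum]
      apply Finset.prod_congr rfl
      intro p hp
      have hp' := (R4_mem_prm.1 hp).1
      have h3 := (R4_zw (x := x) hz hp').1
      have h4 := R3_binom α (w := z * R4w x p) (by linarith)
      rw [← neg_mul, ← h4.tsum_eq]
      apply tsum_congr
      intro a
      exact R4F_prime_pow α x z hp' a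
    rw [h2] at h1
    exact h1

/-- the prime sum -/
noncomputable def R4S (u v : ℝ) (x : Om) : ℂ := ∑ p ∈ prm u v, R4w x p

private lemma R4_P_le (u v : ℝ) (x : Om) {z : ℂ} (hz : ‖z‖ ≤ 6 / 5) :
    ‖R4P u v x z - z * R4S u v x‖ ≤ 6 * ∑ p ∈ prm u v, (p : ℝ)⁻¹ := by
  unfold R4P R4S
  rw [Finset.mul_sum, ← Finset.sum_neg_distrib, ← Finset.sum_sub_distrib, Finset.mul_sum]
  apply norm_sum_le_of_le
  intro p hp
  have hp' := (R4_mem_prm.1 hp).1
  obtain ⟨h1, h2⟩ := R4_zw (x := x) hz hp'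
  have h3 := Complex.norm_log_one_add_sub_self_le (z := -(z * R4w x p)) (by rw [norm_neg]; linarith)
  rw [norm_neg] at h3
  have h4 : -Complex.log (1 - z * R4w x p) - z * R4w x p =
      -(Complex.log (1 + -(z * R4w x p)) - -(z * R4w x p)) := by
    rw [← sub_eq_add_neg]
    ring
  rw [h4, norm_neg]
  refine h3.trans ?_
  have h5 : (1 - ‖z * R4w x p‖)⁻¹ ≤ 7 := by
    rw [inv_le_comm₀ (by linarith) (by norm_num)]
    linarith
  have h6 : 0 ≤ ‖z * R4w x p‖ ^ 2 := by positivity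
  have h7 : 0 < (1 - ‖z * R4w x p‖)⁻¹ := inv_pos.2 (by linarith)
  have h8 : 0 < (p : ℝ)⁻¹ := inv_pos.2 (by exact_mod_cast hp'.pos)
  calc ‖z * R4w x p‖ ^ 2 * (1 - ‖z * R4w x p‖)⁻¹ / 2 ≤ (36 / 25 * (p : ℝ)⁻¹) * 7 / 2 := by
        gcongr
    _ ≤ 6 * (p : ℝ)⁻¹ := by linarith

/-- the index set of the Taylor polynomial of degree `D` -/
noncomputable def R4D (u v : ℝ) (D : ℕ) : Finset ℕ :=
  (smo u v (Real.exp (D * Real.log v))).filter fun n => Om' n ≤ D

lemma R4_mem_D {u v : ℝ} (hv : 1 ≤ v) {D n : ℕ} :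
    n ∈ R4D u v D ↔ n ≠ 0 ∧ (∀ p ∈ n.primeFactors, u < (p : ℝ) ∧ (p : ℝ) ≤ v) ∧ Om' n ≤ D := by
  unfold R4D
  rw [Finset.mem_filter, R4_mem_smo (Real.exp_pos _).le]
  constructor
  · rintro ⟨⟨⟨h1, h2⟩, h3⟩, h4⟩
    exact ⟨by omega, h3, h4⟩
  · rintro ⟨h1, h2, h3⟩
    refine ⟨⟨⟨by omega, ?_⟩, h2⟩, h3⟩
    have h4 := R4_le_pow (by linarith) h1 (fun p hp => (h2 p hp).2)
    have hv0 : 0 < v := by linarith
    have h5 : Real.exp (D * Real.log v) = v ^ D := by
      rw [mul_comm, ← Real.rpow_def_of_pos hv0, Real.rpow_natCast]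
    rw [h5]
    exact h4.trans (pow_le_pow_right₀ hv h3)

theorem R4_main {u v : ℝ} (hv : 1 ≤ v) {α : ℝ} (hα : 0 ≤ α) (D : ℕ) (x : Om) {A : ℝ} (hA : ‖R4S u v x‖ ≤ A) :
    ‖DS (R4D u v D) (fun n => ((LibZM.tau α n : ℝ) : ℂ)) x - Complex.exp (α * R4P u v x 1)‖ ≤
      Real.exp (α * (6 / 5 * A + 6 * ∑ p ∈ prm u v, (p : ℝ)⁻¹)) * (5 * (5 / 6) ^ D) := by
  classical
  have hR : (1 : ℝ) < 6 / 5 := by norm_num
  have hA0 : 0 ≤ A := (norm_nonneg _).trans hA
  set V : ℝ := ∑ p ∈ prm u v, (p : ℝ)⁻¹ with hV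
  set f : ℕ → ℂ := (Nat.factoredNumbers (prm u v)).indicator (R4F α x 1) with hf
  have hfz : ∀ z : ℂ, ∀ n, (Nat.factoredNumbers (prm u v)).indicator (R4F α x z) n = f n * z ^ Om' n := by
    intro z n
    simp only [hf]
    by_cases hn : n ∈ Nat.factoredNumbers (prm u v)
    · rw [Set.indicator_of_mem hn, Set.indicator_of_mem hn]
      unfold R4F
      rw [one_pow, mul_one]
    · rw [Set.indicator_of_notMem hn, Set.indicator_of_notMem hn, zero_mul]
  have hs : Summable fun n => ‖f n‖ * (6 / 5 : ℝ) ^ Om' n := by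
    have h1 := (R4_hasSum hα u v x (z := ((6 / 5 : ℝ) : ℂ)) (by
      rw [Complex.norm_real, Real.norm_of_nonneg (by norm_num)])).1
    refine h1.congr fun n => ?_
    rw [hfz, norm_mul, norm_pow, Complex.norm_real, Real.norm_of_nonneg (by norm_num)]
  have hM : ∀ z : ℂ, ‖z‖ = 6 / 5 → ‖∑' n, f n * z ^ Om' n‖ ≤ Real.exp (α * (6 / 5 * A + 6 * V)) := by
    intro z hz
    have h1 := (R4_hasSum hα u v x (z := z) hz.le).2
    have h2 : ∑' n, f n * z ^ Om' n = Complex.exp (α * R4P u v x z) := by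
      rw [← h1.tsum_eq]
      exact tsum_congr fun n => (hfz z n).symm
    rw [h2, Complex.norm_exp]
    apply Real.exp_le_exp.2
    rw [Complex.re_ofReal_mul]
    apply mul_le_mul_of_nonneg_left _ hα
    refine (Complex.re_le_norm _).trans ?_
    have h3 := R4_P_le u v x hz.le
    have h4 : ‖R4P u v x z‖ ≤ ‖R4P u v x z - z * R4S u v x‖ + ‖z * R4S u v x‖ := by
      have := norm_add_le (R4P u v x z - z * R4S u v x) (z * R4S u v x)
      rwa [sub_add_cancel] at this
    have h5 : ‖z * R4S u v x‖ ≤ 6 / 5 * A := by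
      rw [norm_mul, hz]
      exact mul_le_mul_of_nonneg_left hA (by norm_num)
    linarith
  have htail := R2_tail hR hs hM D
  have hone := (R4_hasSum hα u v x (z := 1) (by norm_num))
  have hfs : Summable fun n => ‖f n‖ := hone.1
  have hfs' : Summable f := hfs.of_norm
  have hg1 : Summable fun n => (if D < Om' n then f n else 0) := by
    apply Summable.of_norm_bounded hfs
    intro n
    split_ifs
    · exact le_refl _
    · simp
  have hsplit : ∑' n, f n = (∑' n, (if D < Om' n then f n else 0)) + ∑ n ∈ R4D u v D, f n := by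
    have h1 : ∑' n, (if D < Om' n then 0 else f n) = ∑ n ∈ R4D u v D, f n := by
      rw [tsum_eq_sum (s := R4D u v D)]
      · apply Finset.sum_congr rfl
        intro n hn
        rw [R4_mem_D hv] at hn
        rw [if_neg (by omega)]
      · intro n hn
        rw [R4_mem_D hv] at hn
        by_cases h : D < Om' n
        · rw [if_pos h]
        · rw [if_neg h]
          simp only [hf]
          rw [Set.indicator_of_notMem]
          intro hmem
          apply hn
          refine ⟨hmem.1, fun p hp => ?_, by omega⟩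
          have h2 := hmem.2 p (List.mem_toFinset.1 hp)
          exact (R4_mem_prm.1 h2).2
    have hg2 : Summable fun n => (if D < Om' n then 0 else f n) := by
      apply Summable.of_norm_bounded hfs
      intro n
      split_ifs
      · simp
      · exact le_refl _
    rw [← h1, ← hg1.tsum_add hg2]
    apply tsum_congr
    intro n
    split_ifs <;> simp
  have hsumeq : ∑ n ∈ R4D u v D, f n = DS (R4D u v D) (fun n => ((LibZM.tau α n : ℝ) : ℂ)) x := by
    unfold DS
    apply Finset.sum_congr rfl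
    intro n hn
    rw [R4_mem_D hv] at hn
    simp only [hf]
    rw [Set.indicator_of_mem]
    · unfold R4F
      rw [one_pow, mul_one]
    · refine ⟨hn.1, fun p hp => ?_⟩
      have h2 := hn.2.1 p (List.mem_toFinset.2 hp)
      exact R4_mem_prm.2 ⟨Nat.prime_of_mem_primeFactorsList hp, h2⟩
  have hexp : Complex.exp (α * R4P u v x 1) = ∑' n, f n := hone.2.tsum_eq.symm
  rw [← hsumeq, hexp, hsplit]
  have h9 : ∑ n ∈ R4D u v D, f n - ((∑' n, (if D < Om' n then f n else 0)) + ∑ n ∈ R4D u v D, f n) =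
      -∑' n, (if D < Om' n then f n else 0) := by ring
  rw [h9, norm_neg]
  refine htail.trans (le_of_eq ?_)
  congr 1
  rw [inv_div]
  ring

/-- size of the Euler product on the good event -/
theorem R4_re_le (u v : ℝ) (x : Om) {A : ℝ} (hA : ‖R4S u v x‖ ≤ A) :
    |(R4P u v x 1).re| ≤ A + 6 * ∑ p ∈ prm u v, (p : ℝ)⁻¹ := by
  refine (Complex.abs_re_le_norm _).trans ?_
  have h3 := R4_P_le u v x (z := 1) (by norm_num)
  rw [one_mul] at h3
  have h4 : ‖R4P u v x 1‖ ≤ ‖R4P u v x 1 - R4S u v x‖ + ‖R4S u v x‖ := by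
    have := norm_add_le (R4P u v x 1 - R4S u v x) (R4S u v x)
    rwa [sub_add_cancel] at this
  linarith

end Pool.Agent.LibMM99
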