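import Mathlib
import Pool.Agent.LibMM99.T05
import Pool.Agent.LibMM99.T06
import Pool.Agent.LibMM99.T07
import Pool.Agent.LibMM99.T14
import Pool.Agent.LibMM99.T23a
import Pool.Agent.LibMM99.R1
import Pool.Agent.LibMM99.R4

/-! # Moments of the pieces of the polynomial approximation for real exponents -/

set_option autoImplicit false

namespace Pool.Agent.LibMM99

open MeasureTheory Filter Topology
open scoped ComplexConjugate

lemma R5_logs {u v : ℝ} (hu : Real.sqrt 2 ≤ u) (huv : u ≤ v) :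
    0 < Real.log u ∧ 0 < Real.log v ∧ 0.34 ≤ Real.log v ∧ 1 < u ∧ 1 < v := by
  have hs2 : (1 : ℝ) < Real.sqrt 2 := by
    rw [show (1 : ℝ) = Real.sqrt 1 by simp]
    exact Real.sqrt_lt_sqrt (by norm_num) (by norm_num)
  have hu1 : 1 < u := lt_of_lt_of_le hs2 hu
  have hv1 : 1 < v := lt_of_lt_of_le hu1 huv
  refine ⟨Real.log_pos hu1, Real.log_pos hv1, ?_, hu1, hv1⟩
  have h3 : Real.log (Real.sqrt 2) ≤ Real.log v := Real.log_le_log (by positivity) (hu.trans huv)
  rw [Real.log_sqrt (by norm_num)] at h3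
  have := Real.log_two_gt_d9
  linarith

lemma R5_ratio {u v : ℝ} (hu : Real.sqrt 2 ≤ u) (huv : u ≤ v) (hlog : Real.log v ≤ 2 * Real.log u) :
    0 ≤ Real.log v / Real.log u ∧ Real.log v / Real.log u ≤ 2 := by
  obtain ⟨h1, h2, -⟩ := R5_logs hu huv
  refine ⟨by positivity, ?_⟩
  rw [div_le_iff₀ h1]
  exact hlog

/-- all moments of the truncated series of any real power are bounded -/
theorem R5_g_moment {α : ℝ} (hα : 0 ≤ α) (j : ℕ) : ∃ C : ℝ, 0 < C ∧ ∀ u v X : ℝ, Real.sqrt 2 ≤ u → u ≤ v →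
    Real.log v ≤ 2 * Real.log u →
    ∫ x, ‖DS (smo u v X) (fun n => ((LibZM.tau α n : ℝ) : ℂ)) x‖ ^ (2 * j) ∂mu ≤ C := by
  obtain ⟨r, hr⟩ := exists_nat_ge ((j * α) ^ 2)
  obtain ⟨C, hC, h⟩ := sum_smo_tau_le r
  refine ⟨C * 2 ^ r, by positivity, fun u v X hu huv hlog => ?_⟩
  obtain ⟨hq0, hq2⟩ := R5_ratio hu huv hlog
  have hP := (T14P.tr u v X hα).pow hα j
  have hpt : ∀ x : Om, ‖DS (smo u v X) (fun n => ((LibZM.tau α n : ℝ) : ℂ)) x‖ ^ (2 * j) =
      ‖DS (Finset.Icc 1 (⌊X⌋₊ ^ j)) (fun n => (((t14tr u v X α ^ j) n : ℝ) : ℂ)) x‖ ^ 2 := by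
    intro x
    rw [mul_comm 2 j, pow_mul, ← norm_pow, ← t14A_tr, t14A_pow (T14P.tr u v X hα) hα]
    congr 2
    unfold t14A DS
    refine Finset.sum_congr rfl fun n _ => ?_
    ring
  simp_rw [hpt]
  rw [integral_norm_sq _ (fun n hn => (Finset.mem_Icc.mp hn).1)]
  have h1 : ∑ n ∈ Finset.Icc 1 (⌊X⌋₊ ^ j), ‖(((t14tr u v X α ^ j) n : ℝ) : ℂ)‖ ^ 2 / n ≤
      ∑ n ∈ smo u v ((⌊X⌋₊ ^ j : ℕ) : ℝ), LibZM.tau (r : ℝ) n * (n : ℝ) ^ ((0 : ℝ) - 1) := by
    have hsub : smo u v ((⌊X⌋₊ ^ j : ℕ) : ℝ) ⊆ Finset.Icc 1 (⌊X⌋₊ ^ j) := by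
      intro n hn
      unfold smo at hn
      rw [Nat.floor_natCast] at hn
      exact (Finset.mem_filter.1 hn).1
    rw [← Finset.sum_subset hsub]
    · refine Finset.sum_le_sum fun n hn => ?_
      rw [zero_sub, Real.rpow_neg_one, div_eq_mul_inv]
      apply mul_le_mul_of_nonneg_right _ (by positivity)
      rw [Complex.norm_real, Real.norm_eq_abs, sq_abs]
      have h2 := hP.le n
      have h3 := hP.nonneg n
      calc ((t14tr u v X α ^ j) n) ^ 2 ≤ (LibZM.tau (j * α) n) ^ 2 := pow_le_pow_left₀ h3 h2 2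
        _ ≤ LibZM.tau ((j * α) ^ 2) n := LibZM.tau_sq_le (by positivity) n
        _ ≤ LibZM.tau (r : ℝ) n := LibZM.tau_mono (by positivity) hr n
    · intro n hn hn'
      have h0 : (t14tr u v X α ^ j) n = 0 := by
        by_contra hne
        apply hn'
        unfold smo
        rw [Nat.floor_natCast, Finset.mem_filter]
        exact ⟨hn, hP.supp n hne⟩
      rw [h0]
      simp
  refine h1.trans ((h u v _ 0 hu huv le_rfl (by norm_num)).trans ?_)
  gcongr

/-- the polynomial supported on `n > X` -/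
noncomputable def R5h (α u v X : ℝ) (D : ℕ) (x : Om) : ℂ :=
  DS (smo u v (Real.exp (D * Real.log v)))
    (fun n => if X < (n : ℝ) ∧ Om' n ≤ D then ((LibZM.tau α n : ℝ) : ℂ) else 0) x

theorem R5_split {α u v κ : ℝ} (hu : Real.sqrt 2 ≤ u) (huv : u ≤ v) (hlog : Real.log v ≤ 2 * Real.log u)
    (hκ : 0 ≤ κ) {D : ℕ} (hD : 2 * κ ≤ D) (x : Om) :
    DS (R4D u v D) (fun n => ((LibZM.tau α n : ℝ) : ℂ)) x =
      DS (smo u v (Real.exp (κ * Real.log v))) (fun n => ((LibZM.tau α n : ℝ) : ℂ)) x +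
      R5h α u v (Real.exp (κ * Real.log v)) D x := by
  obtain ⟨hlu, hlv, -, hu1, hv1⟩ := R5_logs hu huv
  have hXY : Real.exp (κ * Real.log v) ≤ Real.exp (D * Real.log v) := by
    apply Real.exp_le_exp.2
    apply mul_le_mul_of_nonneg_right _ hlv.le
    linarith
  have hOm : ∀ n ∈ smo u v (Real.exp (κ * Real.log v)), Om' n ≤ D := by
    intro n hn
    rw [R4_mem_smo (Real.exp_pos _).le] at hn
    obtain ⟨⟨h1, h2⟩, h3⟩ := hn
    have h4 := R4_pow_le (u := u) (by linarith) (by omega : n ≠ 0) (fun p hp => (h3 p hp).1.le)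
    have h5 : u ^ Om' n ≤ Real.exp (κ * Real.log v) := h4.trans h2
    have h6 : (Om' n : ℝ) * Real.log u ≤ κ * Real.log v := by
      have := Real.log_le_log (by positivity) h5
      rwa [Real.log_pow, Real.log_exp] at this
    have h7 : (Om' n : ℝ) * Real.log u ≤ D * Real.log u := by
      calc (Om' n : ℝ) * Real.log u ≤ κ * Real.log v := h6
        _ ≤ κ * (2 * Real.log u) := mul_le_mul_of_nonneg_left hlog hκ
        _ = (2 * κ) * Real.log u := by ring
        _ ≤ D * Real.log u := mul_le_mul_of_nonneg_right hD hlu.le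
    have h8 : (Om' n : ℝ) ≤ D := le_of_mul_le_mul_right h7 hlu
    exact_mod_cast h8
  have hfil : smo u v (Real.exp (κ * Real.log v)) =
      (smo u v (Real.exp (D * Real.log v))).filter (fun n : ℕ => (n : ℝ) ≤ Real.exp (κ * Real.log v)) := by
    ext n
    rw [Finset.mem_filter, R4_mem_smo (Real.exp_pos _).le, R4_mem_smo (Real.exp_pos _).le]
    constructor
    · rintro ⟨⟨h1, h2⟩, h3⟩
      exact ⟨⟨⟨h1, h2.trans hXY⟩, h3⟩, h2⟩
    · rintro ⟨⟨⟨h1, h2⟩, h3⟩, h4⟩
      exact ⟨⟨h1, h4⟩, h3⟩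
  have hdef : DS (R4D u v D) (fun n => ((LibZM.tau α n : ℝ) : ℂ)) x =
      ∑ n ∈ smo u v (Real.exp (D * Real.log v)),
        if Om' n ≤ D then ((LibZM.tau α n : ℝ) : ℂ) * (((Real.sqrt n)⁻¹ : ℝ) : ℂ) * ch x n else 0 := by
    unfold DS R4D
    rw [Finset.sum_filter]
  have hdef2 : DS (smo u v (Real.exp (κ * Real.log v))) (fun n => ((LibZM.tau α n : ℝ) : ℂ)) x =
      ∑ n ∈ smo u v (Real.exp (D * Real.log v)),
        if (n : ℝ) ≤ Real.exp (κ * Real.log v) then
          ((LibZM.tau α n : ℝ) : ℂ) * (((Real.sqrt n)⁻¹ : ℝ) : ℂ) * ch x n else 0 := by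
    unfold DS
    nth_rewrite 1 [hfil]
    rw [Finset.sum_filter]
  rw [hdef, hdef2]
  unfold R5h DS
  rw [← Finset.sum_add_distrib]
  apply Finset.sum_congr rfl
  intro n hn
  beta_reduce
  by_cases h1 : (n : ℝ) ≤ Real.exp (κ * Real.log v)
  · have hmem : n ∈ smo u v (Real.exp (κ * Real.log v)) := by
      rw [hfil, Finset.mem_filter]
      exact ⟨hn, h1⟩
    have h2 := hOm n hmem
    rw [if_pos h2, if_pos h1, if_neg (by intro h; linarith [h.1])]
    ring
  · rw [if_neg h1]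
    by_cases h2 : Om' n ≤ D
    · rw [if_pos h2, if_pos ⟨not_le.1 h1, h2⟩]
      ring
    · rw [if_neg h2, if_neg (by intro h; exact h2 h.2)]
      ring

/-- second moment of the polynomial supported on `n > X` -/
theorem R5_h_sq {α : ℝ} (hα : 0 ≤ α) : ∃ C : ℝ, 0 < C ∧ ∀ (u v κ : ℝ) (D : ℕ), Real.sqrt 2 ≤ u → u ≤ v →
    Real.log v ≤ 2 * Real.log u → 0 ≤ κ →
    ∫ x, ‖R5h α u v (Real.exp (κ * Real.log v)) D x‖ ^ 2 ∂mu ≤ C * Real.exp (-κ / 4) := by
  obtain ⟨r, hr⟩ := exists_nat_ge (α ^ 2)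
  obtain ⟨C, hC, h⟩ := sum_smo_tau_tail_le4 r
  refine ⟨C * 2 ^ r, by positivity, fun u v κ D hu huv hlog hκ => ?_⟩
  obtain ⟨hlu, hlv, -, hu1, hv1⟩ := R5_logs hu huv
  obtain ⟨hq0, hq2⟩ := R5_ratio hu huv hlog
  unfold R5h
  rw [integral_norm_sq _ (fun n hn => ((R4_mem_smo (Real.exp_pos _).le).1 hn).1.1)]
  have h1 := h u v (Real.exp (κ * Real.log v)) (Real.exp (D * Real.log v)) hu huv
    (Real.one_le_exp (by positivity))
  have h2 : -(Real.log (Real.exp (κ * Real.log v))) / (4 * Real.log v) = -κ / 4 := by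
    rw [Real.log_exp]
    field_simp
  rw [h2] at h1
  refine le_trans ?_ (h1.trans ?_)
  · rw [Finset.sum_filter]
    apply Finset.sum_le_sum
    intro n hn
    by_cases hX : Real.exp (κ * Real.log v) < (n : ℝ)
    · rw [if_pos hX]
      apply div_le_div_of_nonneg_right _ (Nat.cast_nonneg n)
      by_cases hO : Om' n ≤ D
      · rw [if_pos ⟨hX, hO⟩, Complex.norm_real, Real.norm_eq_abs, sq_abs]
        exact (LibZM.tau_sq_le hα n).trans (LibZM.tau_mono (by positivity) hr n)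
      · rw [if_neg (by intro h; exact hO h.2)]
        simp only [norm_zero]
        have := LibZM.tau_nonneg (Nat.cast_nonneg r (α := ℝ)) n
        norm_num
        exact this
    · rw [if_neg hX, if_neg (by intro h; exact hX h.1)]
      simp
  · gcongr

/-- even moments of the polynomial supported on `n > X`, first power -/
theorem R5_h_moment (N : ℕ) (hN : 1 ≤ N) : ∃ C : ℝ, 0 < C ∧ ∀ (u v κ : ℝ) (D : ℕ), Real.sqrt 2 ≤ u → u ≤ v →
    Real.log v ≤ 2 * Real.log u → 0 ≤ κ →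
    ∫ x, ‖R5h 1 u v (Real.exp (κ * Real.log v)) D x‖ ^ (2 * N) ∂mu ≤ C * Real.exp (-κ / 4) := by
  obtain ⟨C, hC, h⟩ := sum_smo_tau_tail_le4 N
  refine ⟨(C * 2 ^ N) ^ N, by positivity, fun u v κ D hu huv hlog hκ => ?_⟩
  obtain ⟨hlu, hlv, -, hu1, hv1⟩ := R5_logs hu huv
  obtain ⟨hq0, hq2⟩ := R5_ratio hu huv hlog
  have hm := moment_le N (smo u v (Real.exp (D * Real.log v))) (fun n => n)
    (fun n => if Real.exp (κ * Real.log v) < (n : ℝ) ∧ Om' n ≤ D then ((LibZM.tau 1 n : ℝ) : ℂ) else 0) 1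
    (fun n hn => ((R4_mem_smo (Real.exp_pos _).le).1 hn).1.1) (fun a _ b _ h => h) (by
      intro n hn
      have hn1 := ((R4_mem_smo (Real.exp_pos _).le).1 hn).1.1
      split_ifs
      · rw [LibZM.tau_one_apply (by omega)]
        simp
      · simp)
  unfold R5h DS
  refine hm.trans ?_
  rw [one_pow, one_mul]
  have h1 := h u v (Real.exp (κ * Real.log v)) (Real.exp (D * Real.log v)) hu huv
    (Real.one_le_exp (by positivity))
  have h2 : -(Real.log (Real.exp (κ * Real.log v))) / (4 * Real.log v) = -κ / 4 := by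
    rw [Real.log_exp]
    field_simp
  rw [h2] at h1
  have h3 : ∑ n ∈ smo u v (Real.exp (D * Real.log v)),
      ‖(if Real.exp (κ * Real.log v) < (n : ℝ) ∧ Om' n ≤ D then ((LibZM.tau 1 n : ℝ) : ℂ) else 0)‖ *
        LibZM.tau (N : ℝ) n / n ≤ C * 2 ^ N * Real.exp (-κ / 4) := by
    refine le_trans ?_ (h1.trans ?_)
    · rw [Finset.sum_filter]
      apply Finset.sum_le_sum
      intro n hn
      have hn1 := ((R4_mem_smo (Real.exp_pos _).le).1 hn).1.1
      have ht := LibZM.tau_nonneg (Nat.cast_nonneg N (α := ℝ)) n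
      by_cases hX : Real.exp (κ * Real.log v) < (n : ℝ)
      · rw [if_pos hX]
        apply div_le_div_of_nonneg_right _ (Nat.cast_nonneg n)
        by_cases hO : Om' n ≤ D
        · rw [if_pos ⟨hX, hO⟩, LibZM.tau_one_apply (by omega)]
          simp
        · rw [if_neg (by intro h; exact hO h.2)]
          simp only [norm_zero, zero_mul]
          exact ht
      · rw [if_neg hX, if_neg (by intro h; exact hX h.1)]
        simp
    · gcongr
  have h4 : 0 ≤ ∑ n ∈ smo u v (Real.exp (D * Real.log v)),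
      ‖(if Real.exp (κ * Real.log v) < (n : ℝ) ∧ Om' n ≤ D then ((LibZM.tau 1 n : ℝ) : ℂ) else 0)‖ *
        LibZM.tau (N : ℝ) n / n := by
    apply Finset.sum_nonneg
    intro n _
    have ht := LibZM.tau_nonneg (Nat.cast_nonneg N (α := ℝ)) n
    positivity
  calc _ ≤ (C * 2 ^ N * Real.exp (-κ / 4)) ^ N := pow_le_pow_left₀ h4 h3 N
    _ = (C * 2 ^ N) ^ N * Real.exp (-κ / 4) ^ N := mul_pow _ _ _
    _ ≤ (C * 2 ^ N) ^ N * Real.exp (-κ / 4) := by
        apply mul_le_mul_of_nonneg_left _ (by positivity)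
        have h5 : Real.exp (-κ / 4) ≤ 1 := Real.exp_le_one_iff.2 (by linarith)
        exact pow_le_of_le_one (Real.exp_pos _).le h5 (by omega)

theorem R5_S_eq (u v : ℝ) (x : Om) : R4S u v x = DS (prm u v) (fun _ => 1) x := by
  unfold R4S DS R4w
  apply Finset.sum_congr rfl
  intro p _
  ring

/-- moments of the prime sum -/
theorem R5_S_moment (m : ℕ) {u v V : ℝ} (hV : ∑ p ∈ prm u v, (p : ℝ)⁻¹ ≤ V) :
    ∫ x, ‖R4S u v x‖ ^ (2 * m) ∂mu ≤ m.factorial * V ^ m := by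
  simp only [R5_S_eq]
  refine (prime_sum_moment m (prm u v) (fun p hp => (R4_mem_prm.1 hp).1)).trans ?_
  apply mul_le_mul_of_nonneg_left _ (by positivity)
  apply pow_le_pow_left₀ _ hV
  apply Finset.sum_nonneg
  intro p _
  positivity

/-- the prime sum as a polynomial of the standard shape -/
theorem R5_S_eq' {u v : ℝ} (hv : 1 ≤ v) (x : Om) :
    R4S u v x = DS (smo u v v) (fun n => if n.Prime then 1 else 0) x := by
  rw [R5_S_eq]
  have h : prm u v = (smo u v v).filter Nat.Prime := by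
    ext p
    rw [Finset.mem_filter, R4_mem_prm, R4_mem_smo (by linarith)]
    constructor
    · rintro ⟨h1, h2, h3⟩
      refine ⟨⟨⟨h1.one_le, h3⟩, ?_⟩, h1⟩
      intro q hq
      rw [h1.primeFactors, Finset.mem_singleton] at hq
      rw [hq]
      exact ⟨h2, h3⟩
    · rintro ⟨⟨⟨h1, h2⟩, h3⟩, h4⟩
      exact ⟨h4, h3 p (by rw [h4.primeFactors]; simp)⟩
  unfold DS
  rw [h, Finset.sum_filter]
  apply Finset.sum_congr rfl
  intro n _
  beta_reduce
  split_ifs <;> ring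

theorem R5_S_poly {u v : ℝ} (hv : 1 ≤ v) : IsPoly (Real.log v) (R4S u v) := by
  have h := IsPoly.ds (u := u) (v := v) (X := v) (A := 0) hv le_rfl
    (fun n => if n.Prime then 1 else 0) (by
      intro n _ _
      rw [zero_mul, Real.exp_zero]
      split_ifs <;> simp)
  have h2 : R4S u v = DS (smo u v v) (fun n => if n.Prime then 1 else 0) := funext fun x => R5_S_eq' hv x
  rw [h2]
  simpa using h

theorem R5_S_dep {u v : ℝ} (hv : 1 ≤ v) : DependsOn (R4S u v) (coo u v) := by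
  have h2 : R4S u v = DS (smo u v v) (fun n => if n.Prime then 1 else 0) := funext fun x => R5_S_eq' hv x
  rw [h2]
  exact dependsOn_DS_smo _ _ _ _

theorem R5_h_dep {α u v X : ℝ} {D : ℕ} : DependsOn (R5h α u v X D) (coo u v) := by
  have h := dependsOn_DS_smo u v (Real.exp (D * Real.log v))
    (fun n => if X < (n : ℝ) ∧ Om' n ≤ D then ((LibZM.tau α n : ℝ) : ℂ) else 0)
  exact h

theorem R5_coef_le {α : ℝ} (hα : 0 ≤ α) {r : ℕ} (hr : α ≤ r) {Y : ℝ} (hY : 1 ≤ Y) {n : ℕ}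
    (hnY : (n : ℝ) ≤ Y) : LibZM.tau α n ≤ Real.exp (r * Real.log Y) := by
  have h1 := LibZM.tau_mono hα hr n
  have h2 := tau_le_pow r n
  have h3 : Real.exp ((r : ℝ) * Real.log Y) = Y ^ r := by
    rw [mul_comm, ← Real.rpow_def_of_pos (by linarith), Real.rpow_natCast]
  rw [h3]
  refine h1.trans (h2.trans ?_)
  gcongr

theorem R5_h_poly {α : ℝ} (hα : 0 ≤ α) {r : ℕ} (hr : α ≤ r) {u v X : ℝ} {D : ℕ} (hv : 1 ≤ v) :
    IsPoly ((r + 1) * (D * Real.log v)) (R5h α u v X D) := by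
  have hlv : 0 ≤ Real.log v := Real.log_nonneg hv
  have h := IsPoly.ds (u := u) (v := v) (X := Real.exp (D * Real.log v)) (A := r)
    (Real.one_le_exp (by positivity)) (Nat.cast_nonneg r)
    (fun n => if X < (n : ℝ) ∧ Om' n ≤ D then ((LibZM.tau α n : ℝ) : ℂ) else 0) (by
      intro n _ hnX
      split_ifs
      · rw [Complex.norm_real, Real.norm_of_nonneg (LibZM.tau_nonneg hα n)]
        exact R5_coef_le hα hr (Real.one_le_exp (by positivity)) hnX
      · rw [norm_zero]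
        positivity)
  rw [Real.log_exp] at h
  exact h

end Pool.Agent.LibMM99
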