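import Mathlib

/-! # Elementary inequalities for real powers -/

set_option autoImplicit false

namespace Pool.Agent.LibMM99

private lemma R6_exp_sub {y : ℝ} : |Real.exp y - 1| ≤ |y| * Real.exp |y| := by
  rcases le_total 0 y with h | h
  · rw [abs_of_nonneg h, abs_of_nonneg (by have := Real.one_le_exp h; linarith)]
    have h1 := Real.add_one_le_exp (-y)
    have h2 : Real.exp y * Real.exp (-y) = 1 := by rw [← Real.exp_add]; simp
    have h3 : Real.exp y * (-y + 1) ≤ Real.exp y * Real.exp (-y) :=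
      mul_le_mul_of_nonneg_left h1 (Real.exp_pos y).le
    rw [h2] at h3
    linarith
  · rw [abs_of_nonpos h, abs_of_nonpos (by have := Real.exp_le_one_iff.2 h; linarith)]
    have h1 := Real.add_one_le_exp y
    have h2 : 1 ≤ Real.exp (-y) := Real.one_le_exp (by linarith)
    have h3 : -y * 1 ≤ -y * Real.exp (-y) := mul_le_mul_of_nonneg_left h2 (by linarith)
    linarith

theorem R6_one {k : ℝ} (hk : 0 < k) {N : ℕ} (hkN : k ≤ 2 * N) : ∃ C : ℝ, 1 ≤ C ∧ ∀ ρ : ℝ, 0 ≤ ρ →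
    |ρ ^ k - 1| ≤ C * (|ρ - 1| + |ρ - 1| ^ (2 * N)) := by
  refine ⟨2 * k * Real.exp k + ((3 / 2) ^ k + 1) * 4 ^ N, ?_, ?_⟩
  · have h1 : (1 : ℝ) ≤ 4 ^ N := one_le_pow₀ (by norm_num)
    have h2 : 0 ≤ 2 * k * Real.exp k := by positivity
    have h3 : (0 : ℝ) ≤ (3 / 2) ^ k := by positivity
    nlinarith
  intro ρ hρ
  set t : ℝ := |ρ - 1| with ht
  have ht0 : 0 ≤ t := abs_nonneg _
  have hA0 : 0 ≤ 2 * k * Real.exp k := by positivity
  have hB0 : 0 ≤ ((3 / 2 : ℝ) ^ k + 1) * 4 ^ N := by positivity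
  rcases le_total t (1 / 2) with h | h
  · have hρ1 : 1 / 2 ≤ ρ := by
      have := neg_abs_le (ρ - 1)
      rw [← ht] at this
      linarith
    have hρ0 : 0 < ρ := by linarith
    have hlog : |Real.log ρ| ≤ 2 * t := by
      rw [abs_le]
      constructor
      · have h1 := Real.one_sub_inv_le_log_of_pos hρ0
        have h2 : -(2 * t) ≤ 1 - ρ⁻¹ := by
          have h3 : ρ⁻¹ ≤ 2 := by
            rw [inv_le_comm₀ hρ0 (by norm_num)]
            linarith
          have h4 : 1 - ρ⁻¹ = (ρ - 1) * ρ⁻¹ := by field_simp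
          rw [h4]
          have h5 : -t ≤ ρ - 1 := neg_abs_le _
          have h6 : 0 < ρ⁻¹ := inv_pos.2 hρ0
          calc -(2 * t) = -t * 2 := by ring
            _ ≤ -t * ρ⁻¹ := by nlinarith
            _ ≤ (ρ - 1) * ρ⁻¹ := mul_le_mul_of_nonneg_right h5 h6.le
        linarith
      · have h1 := Real.log_le_sub_one_of_pos hρ0
        have h2 : ρ - 1 ≤ t := le_abs_self _
        linarith
    have h1 : ρ ^ k = Real.exp (Real.log ρ * k) := Real.rpow_def_of_pos hρ0 k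
    rw [h1]
    have h2 : |Real.log ρ * k| ≤ 2 * t * k := by
      rw [abs_mul, abs_of_pos hk]
      exact mul_le_mul_of_nonneg_right hlog hk.le
    have h3 : |Real.log ρ * k| ≤ k := by
      refine h2.trans ?_
      nlinarith
    have h4 : |Real.exp (Real.log ρ * k) - 1| ≤ (2 * t * k) * Real.exp k := by
      refine R6_exp_sub.trans ?_
      apply mul_le_mul h2 (Real.exp_le_exp.2 h3) (Real.exp_pos _).le (by positivity)
    have h5 : 0 ≤ t ^ (2 * N) := by positivity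
    calc |Real.exp (Real.log ρ * k) - 1| ≤ (2 * t * k) * Real.exp k := h4
      _ = (2 * k * Real.exp k) * t := by ring
      _ ≤ (2 * k * Real.exp k + ((3 / 2) ^ k + 1) * 4 ^ N) * (t + t ^ (2 * N)) := by
          apply mul_le_mul (by linarith) (by linarith) ht0 (by linarith)
  · have h2t : 1 ≤ 2 * t := by linarith
    have h3 : ρ ≤ 3 / 2 * (2 * t) := by
      have : ρ - 1 ≤ t := le_abs_self _
      linarith
    have h4 : ρ ^ k ≤ (3 / 2) ^ k * (2 * t) ^ (2 * N) := by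
      calc ρ ^ k ≤ (3 / 2 * (2 * t)) ^ k := Real.rpow_le_rpow hρ h3 hk.le
        _ = (3 / 2) ^ k * (2 * t) ^ k := Real.mul_rpow (by norm_num) (by linarith)
        _ ≤ (3 / 2) ^ k * (2 * t) ^ (2 * N) := by
            apply mul_le_mul_of_nonneg_left _ (by positivity)
            rw [← Real.rpow_natCast]
            apply Real.rpow_le_rpow_of_exponent_le h2t
            push_cast
            exact hkN
    have h5 : (1 : ℝ) ≤ (2 * t) ^ (2 * N) := one_le_pow₀ h2t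
    have h6 : |ρ ^ k - 1| ≤ ((3 / 2) ^ k + 1) * (2 * t) ^ (2 * N) := by
      have h7 : 0 ≤ ρ ^ k := Real.rpow_nonneg hρ k
      rw [abs_le]
      constructor
      · have : 0 ≤ (3 / 2 : ℝ) ^ k * (2 * t) ^ (2 * N) := by positivity
        linarith
      · linarith
    have h8 : (2 * t) ^ (2 * N) = 4 ^ N * t ^ (2 * N) := by
      rw [mul_pow, pow_mul]
      norm_num
    rw [h8] at h6
    have h9 : 0 ≤ t ^ (2 * N) := by positivity
    calc |ρ ^ k - 1| ≤ ((3 / 2) ^ k + 1) * (4 ^ N * t ^ (2 * N)) := h6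
      _ = (((3 / 2) ^ k + 1) * 4 ^ N) * t ^ (2 * N) := by ring
      _ ≤ (2 * k * Real.exp k + ((3 / 2) ^ k + 1) * 4 ^ N) * (t + t ^ (2 * N)) := by
          apply mul_le_mul (by linarith) (by linarith) h9 (by linarith)

theorem R6_main {k : ℝ} (hk : 0 < k) {N : ℕ} (hN : 1 ≤ N) (hkN : k ≤ 2 * N) : ∃ C : ℝ, 1 ≤ C ∧
    ∀ (a b : ℂ) (B : ℝ), 0 ≤ B → Real.exp (-B) ≤ ‖a‖ → ‖a‖ ≤ Real.exp B →
    |‖b‖ ^ k - ‖a‖ ^ k| ≤ C * Real.exp ((k + 2 * N) * B) * (‖b - a‖ + ‖b - a‖ ^ (2 * N)) := by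
  obtain ⟨C, hC, h⟩ := R6_one hk hkN
  refine ⟨C, hC, ?_⟩
  intro a b B hB ha1 ha2
  have ha0 : 0 < ‖a‖ := lt_of_lt_of_le (Real.exp_pos _) ha1
  have hNR : (1 : ℝ) ≤ N := by exact_mod_cast hN
  set δ : ℝ := ‖b - a‖ with hδ
  have hδ0 : 0 ≤ δ := norm_nonneg _
  set ρ : ℝ := ‖b‖ / ‖a‖ with hρ
  have hρ0 : 0 ≤ ρ := by positivity
  have hainv : ‖a‖⁻¹ ≤ Real.exp B := by
    rw [inv_le_comm₀ ha0 (Real.exp_pos _), ← Real.exp_neg]
    exact ha1
  have h1 : |ρ - 1| ≤ δ * Real.exp B := by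
    have h2 : ρ - 1 = (‖b‖ - ‖a‖) * ‖a‖⁻¹ := by
      rw [hρ]
      field_simp
    rw [h2, abs_mul, abs_of_pos (inv_pos.2 ha0)]
    exact mul_le_mul (abs_norm_sub_norm_le b a) hainv (by positivity) hδ0
  have h3 : ‖b‖ ^ k - ‖a‖ ^ k = ‖a‖ ^ k * (ρ ^ k - 1) := by
    rw [hρ, Real.div_rpow (norm_nonneg _) ha0.le]
    have : ‖a‖ ^ k ≠ 0 := (Real.rpow_pos_of_pos ha0 k).ne'
    field_simp
  have h4 : ‖a‖ ^ k ≤ Real.exp (k * B) := by
    calc ‖a‖ ^ k ≤ (Real.exp B) ^ k := Real.rpow_le_rpow ha0.le ha2 hk.le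
      _ = Real.exp (k * B) := by rw [← Real.exp_mul, mul_comm]
  have h5 : |ρ ^ k - 1| ≤ C * (Real.exp (2 * N * B) * (δ + δ ^ (2 * N))) := by
    refine (h ρ hρ0).trans ?_
    apply mul_le_mul_of_nonneg_left _ (by linarith)
    have h6 : |ρ - 1| ≤ Real.exp (2 * N * B) * δ := by
      refine h1.trans ?_
      rw [mul_comm]
      apply mul_le_mul_of_nonneg_right _ hδ0
      apply Real.exp_le_exp.2
      nlinarith
    have h7 : |ρ - 1| ^ (2 * N) ≤ Real.exp (2 * N * B) * δ ^ (2 * N) := by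
      calc |ρ - 1| ^ (2 * N) ≤ (δ * Real.exp B) ^ (2 * N) := pow_le_pow_left₀ (abs_nonneg _) h1 _
        _ = Real.exp (2 * N * B) * δ ^ (2 * N) := by
            rw [mul_pow, ← Real.exp_nat_mul]
            push_cast
            ring
    calc |ρ - 1| + |ρ - 1| ^ (2 * N) ≤ Real.exp (2 * N * B) * δ + Real.exp (2 * N * B) * δ ^ (2 * N) :=
          add_le_add h6 h7
      _ = _ := by ring
  rw [h3, abs_mul, abs_of_nonneg (by positivity)]
  calc ‖a‖ ^ k * |ρ ^ k - 1| ≤ Real.exp (k * B) * (C * (Real.exp (2 * N * B) * (δ + δ ^ (2 * N)))) :=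
        mul_le_mul h4 h5 (abs_nonneg _) (Real.exp_pos _).le
    _ = C * Real.exp ((k + 2 * N) * B) * (δ + δ ^ (2 * N)) := by
        rw [add_mul, Real.exp_add]
        ring

end Pool.Agent.LibMM99
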