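import Mathlib
import Pool.Agent.LibMM99.R6

/-! # The pointwise inequality on the good event -/

set_option autoImplicit false

namespace Pool.Agent.LibMM99

private lemma R7_pow_add {a b : ℝ} (ha : 0 ≤ a) (hb : 0 ≤ b) (N : ℕ) :
    (a + b) ^ (2 * N) ≤ 4 ^ N * (a ^ (2 * N) + b ^ (2 * N)) := by
  have h4 : (4 : ℝ) ^ N = 2 ^ (2 * N) := by rw [pow_mul]; norm_num
  rw [h4]
  have ha' : 0 ≤ a ^ (2 * N) := by positivity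
  have hb' : 0 ≤ b ^ (2 * N) := by positivity
  rcases le_total a b with h | h
  · calc (a + b) ^ (2 * N) ≤ (2 * b) ^ (2 * N) := pow_le_pow_left₀ (by positivity) (by linarith) _
      _ = 2 ^ (2 * N) * b ^ (2 * N) := mul_pow _ _ _
      _ ≤ 2 ^ (2 * N) * (a ^ (2 * N) + b ^ (2 * N)) := by
          apply mul_le_mul_of_nonneg_left _ (by positivity)
          linarith
  · calc (a + b) ^ (2 * N) ≤ (2 * a) ^ (2 * N) := pow_le_pow_left₀ (by positivity) (by linarith) _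
      _ = 2 ^ (2 * N) * a ^ (2 * N) := mul_pow _ _ _
      _ ≤ 2 ^ (2 * N) * (a ^ (2 * N) + b ^ (2 * N)) := by
          apply mul_le_mul_of_nonneg_left _ (by positivity)
          linarith

private lemma R7_amgm {δ μ : ℝ} (hμ : 0 < μ) : 2 * δ ≤ μ + μ⁻¹ * δ ^ 2 := by
  have h1 : 0 ≤ μ⁻¹ * (δ - μ) ^ 2 := by positivity
  have h2 : μ⁻¹ * (δ - μ) ^ 2 = μ⁻¹ * δ ^ 2 - 2 * δ + μ := by
    field_simp
    ring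
  linarith

private lemma R7_sq {δ h ε : ℝ} (hδ : 0 ≤ δ) (hle : δ ≤ h + ε) : δ ^ 2 ≤ 2 * h ^ 2 + 2 * ε ^ 2 := by
  have h1 : δ ^ 2 ≤ (h + ε) ^ 2 := pow_le_pow_left₀ hδ hle 2
  nlinarith [sq_nonneg (h - ε)]

theorem R7_good {k : ℝ} (hk : 0 < k) {N : ℕ} (hN : 1 ≤ N) (hkN : k ≤ 2 * N) : ∃ C : ℝ, 1 ≤ C ∧
    ∀ (P ψ g h1 ha : ℂ) (B ε μ : ℝ), 0 ≤ B → |P.re| ≤ B → 0 < μ → μ ≤ 1 → 0 ≤ ε →
    ‖ψ - Complex.exp P‖ ≤ ‖h1‖ + ε → ‖g - Complex.exp (((k / 2 : ℝ) : ℂ) * P)‖ ≤ ‖ha‖ + ε →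
    |‖ψ‖ ^ k - ‖g‖ ^ 2| ≤ C * Real.exp ((k + 2 * N) * B) *
      (3 * μ + μ⁻¹ * (2 * ‖h1‖ ^ 2 + 2 * ε ^ 2) + 4 ^ N * (‖h1‖ ^ (2 * N) + ε ^ (2 * N)) +
        μ⁻¹ * (6 * ‖ha‖ ^ 2 + 6 * ε ^ 2)) := by
  obtain ⟨C, hC, h⟩ := R6_main hk hN hkN
  refine ⟨C, hC, ?_⟩
  intro P ψ g h1 ha B ε μ hB hP hμ hμ1 hε hψ hg
  have hNR : (1 : ℝ) ≤ N := by exact_mod_cast hN
  obtain ⟨hP1, hP2⟩ := abs_le.1 hP
  set E : ℝ := Real.exp ((k + 2 * N) * B) with hE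
  have hE0 : 0 < E := Real.exp_pos _
  have hE1 : 1 ≤ E := Real.one_le_exp (by positivity)
  have hμi : 0 < μ⁻¹ := inv_pos.2 hμ
  have hμi1 : 1 ≤ μ⁻¹ := (one_le_inv₀ hμ).2 hμ1
  -- first comparison
  have hna : ‖Complex.exp P‖ = Real.exp P.re := Complex.norm_exp P
  have t1 := h (Complex.exp P) ψ B hB (by rw [hna]; exact Real.exp_le_exp.2 hP1)
    (by rw [hna]; exact Real.exp_le_exp.2 hP2)
  set δ : ℝ := ‖ψ - Complex.exp P‖ with hδ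
  have hδ0 : 0 ≤ δ := norm_nonneg _
  have d1 : δ ≤ μ + μ⁻¹ * (2 * ‖h1‖ ^ 2 + 2 * ε ^ 2) := by
    have e1 := R7_amgm (δ := δ) hμ
    have e2 := R7_sq hδ0 hψ
    have e3 : μ⁻¹ * δ ^ 2 ≤ μ⁻¹ * (2 * ‖h1‖ ^ 2 + 2 * ε ^ 2) := mul_le_mul_of_nonneg_left e2 hμi.le
    linarith
  have d2 : δ ^ (2 * N) ≤ 4 ^ N * (‖h1‖ ^ (2 * N) + ε ^ (2 * N)) :=
    (pow_le_pow_left₀ hδ0 hψ _).trans (R7_pow_add (norm_nonneg _) hε N)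
  -- second comparison
  have hk2 : ‖Complex.exp P‖ ^ k = ‖Complex.exp (((k / 2 : ℝ) : ℂ) * P)‖ ^ 2 := by
    rw [hna, Complex.norm_exp, Complex.re_ofReal_mul, ← Real.exp_mul, ← Real.exp_nat_mul]
    congr 1
    push_cast
    ring
  set a' : ℂ := Complex.exp (((k / 2 : ℝ) : ℂ) * P) with ha'
  have hna' : ‖a'‖ ≤ E := by
    rw [ha', Complex.norm_exp, Complex.re_ofReal_mul]
    apply Real.exp_le_exp.2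
    have e1 : k / 2 * P.re ≤ k / 2 * B := mul_le_mul_of_nonneg_left hP2 (by linarith)
    have e2 : 0 ≤ (k / 2 + 2 * N) * B := by positivity
    linarith
  set δ' : ℝ := ‖g - a'‖ with hδ'
  have hδ'0 : 0 ≤ δ' := norm_nonneg _
  have t2 : |‖g‖ ^ 2 - ‖a'‖ ^ 2| ≤ E * (μ + μ⁻¹ * (4 * ‖ha‖ ^ 2 + 4 * ε ^ 2)) := by
    have e1 : ‖g‖ ^ 2 - ‖a'‖ ^ 2 = (‖g‖ - ‖a'‖) * (‖g‖ + ‖a'‖) := by ring
    have e2 : |‖g‖ - ‖a'‖| ≤ δ' := abs_norm_sub_norm_le g a'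
    have e3 : ‖g‖ ≤ δ' + ‖a'‖ := by
      have := norm_add_le (g - a') a'
      rwa [sub_add_cancel] at this
    have e4 : |‖g‖ ^ 2 - ‖a'‖ ^ 2| ≤ δ' * (δ' + 2 * E) := by
      rw [e1, abs_mul, abs_of_nonneg (by positivity : 0 ≤ ‖g‖ + ‖a'‖)]
      apply mul_le_mul e2 _ (by positivity) hδ'0
      linarith
    have e5 := R7_amgm (δ := δ') hμ
    have e6 := R7_sq hδ'0 hg
    have e7 : δ' ^ 2 ≤ E * (μ⁻¹ * δ' ^ 2) := by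
      have : 1 ≤ E * μ⁻¹ := by nlinarith
      calc δ' ^ 2 = 1 * δ' ^ 2 := (one_mul _).symm
        _ ≤ (E * μ⁻¹) * δ' ^ 2 := mul_le_mul_of_nonneg_right this (by positivity)
        _ = _ := by ring
    calc |‖g‖ ^ 2 - ‖a'‖ ^ 2| ≤ δ' ^ 2 + E * (2 * δ') := by
          refine e4.trans (le_of_eq ?_)
          ring
      _ ≤ E * (μ⁻¹ * δ' ^ 2) + E * (μ + μ⁻¹ * δ' ^ 2) :=
          add_le_add e7 (mul_le_mul_of_nonneg_left e5 hE0.le)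
      _ = E * (μ + μ⁻¹ * (2 * δ' ^ 2)) := by ring
      _ ≤ E * (μ + μ⁻¹ * (4 * ‖ha‖ ^ 2 + 4 * ε ^ 2)) := by
          apply mul_le_mul_of_nonneg_left _ hE0.le
          have : μ⁻¹ * (2 * δ' ^ 2) ≤ μ⁻¹ * (4 * ‖ha‖ ^ 2 + 4 * ε ^ 2) :=
            mul_le_mul_of_nonneg_left (by linarith) hμi.le
          linarith
  have hCE : 0 ≤ C * E := by positivity
  have h3 : |‖ψ‖ ^ k - ‖g‖ ^ 2| ≤ |‖ψ‖ ^ k - ‖Complex.exp P‖ ^ k| + |‖g‖ ^ 2 - ‖a'‖ ^ 2| := by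
    have e1 : ‖ψ‖ ^ k - ‖g‖ ^ 2 = (‖ψ‖ ^ k - ‖Complex.exp P‖ ^ k) - (‖g‖ ^ 2 - ‖a'‖ ^ 2) := by
      rw [hk2]
      ring
    rw [e1]
    exact abs_sub _ _
  have h4 : E * (μ + μ⁻¹ * (4 * ‖ha‖ ^ 2 + 4 * ε ^ 2)) ≤ C * E * (μ + μ⁻¹ * (4 * ‖ha‖ ^ 2 + 4 * ε ^ 2)) := by
    apply mul_le_mul_of_nonneg_right _ (by positivity)
    exact le_mul_of_one_le_left hE0.le hC
  have h5 : δ + δ ^ (2 * N) ≤ (μ + μ⁻¹ * (2 * ‖h1‖ ^ 2 + 2 * ε ^ 2)) +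
      4 ^ N * (‖h1‖ ^ (2 * N) + ε ^ (2 * N)) := add_le_add d1 d2
  have h6 : 0 ≤ μ⁻¹ * (2 * ‖ha‖ ^ 2 + 2 * ε ^ 2) := by positivity
  calc |‖ψ‖ ^ k - ‖g‖ ^ 2| ≤ C * E * (δ + δ ^ (2 * N)) + C * E * (μ + μ⁻¹ * (4 * ‖ha‖ ^ 2 + 4 * ε ^ 2)) := by
        linarith
    _ ≤ C * E * ((μ + μ⁻¹ * (2 * ‖h1‖ ^ 2 + 2 * ε ^ 2)) +
      4 ^ N * (‖h1‖ ^ (2 * N) + ε ^ (2 * N))) + C * E * (μ + μ⁻¹ * (4 * ‖ha‖ ^ 2 + 4 * ε ^ 2)) := by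
        have := mul_le_mul_of_nonneg_left h5 hCE
        linarith
    _ = C * E * ((μ + μ⁻¹ * (2 * ‖h1‖ ^ 2 + 2 * ε ^ 2)) +
      4 ^ N * (‖h1‖ ^ (2 * N) + ε ^ (2 * N)) + (μ + μ⁻¹ * (4 * ‖ha‖ ^ 2 + 4 * ε ^ 2))) := by ring
    _ ≤ _ := by
        apply mul_le_mul_of_nonneg_left _ hCE
        linarith

end Pool.Agent.LibMM99
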