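import Mathlib
import Pool.Agent.LibMM99.T06
import Pool.Agent.LibMM99.T11
import Pool.Agent.LibMM99.T12

set_option autoImplicit false

namespace Pool.Agent.LibMM99

open MeasureTheory Filter Topology
open scoped ComplexConjugate

/-- the terms of the Euler product -/
noncomputable def t13f (κ : ℝ) (n : ℕ) : ℝ := LibZM.tau κ n ^ 2 / n

lemma t13f_nonneg (κ : ℝ) (n : ℕ) : 0 ≤ t13f κ n := by unfold t13f; positivity

lemma t13f_one (κ : ℝ) : t13f κ 1 = 1 := by
  unfold t13f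
  rw [(LibZM.tau_isMultiplicative κ).map_one]; simp

lemma t13f_mul (κ : ℝ) {m n : ℕ} (h : Nat.Coprime m n) : t13f κ (m * n) = t13f κ m * t13f κ n := by
  unfold t13f
  rw [(LibZM.tau_isMultiplicative κ).map_mul_of_coprime h]
  push_cast
  rw [div_mul_div_comm]
  ring

lemma t13f_prime_pow (κ : ℝ) {p : ℕ} (hp : p.Prime) (n : ℕ) : t13f κ (p ^ n) = LibZM.dcoef κ n ^ 2 * ((p:ℝ)⁻¹) ^ n := by
  unfold t13f
  rw [LibZM.tau_prime_pow κ hp]
  push_cast
  rw [inv_pow, div_eq_mul_inv]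

lemma t13_hasSum {κ : ℝ} (hκ : 0 ≤ κ) (s : Finset ℕ) :
    HasSum (fun m : Nat.factoredNumbers s => t13f κ m) (∏ p ∈ s with p.Prime, LibZM.Gsum κ ((p:ℝ)⁻¹)) := by
  have h := (EulerProduct.summable_and_hasSum_factoredNumbers_prod_filter_prime_tsum (f := t13f κ) (t13f_one κ)
    (fun {m n} h => t13f_mul κ h) (fun {p} hp => by
      have h1 : (1:ℝ) < p := by exact_mod_cast hp.one_lt
      have h2 := LibZM.summable_G hκ (z := (p:ℝ)⁻¹) (by positivity) (inv_lt_one_of_one_lt₀ h1)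
      refine h2.congr fun n => ?_
      rw [Real.norm_of_nonneg (t13f_nonneg κ _), t13f_prime_pow κ hp]) s).2
  have e : (∏ p ∈ s with p.Prime, LibZM.Gsum κ ((p:ℝ)⁻¹)) = ∏ p ∈ s with p.Prime, ∑' n : ℕ, t13f κ (p ^ n) := by
    refine Finset.prod_congr rfl fun p hp => ?_
    rw [Finset.mem_filter] at hp
    unfold LibZM.Gsum
    exact tsum_congr fun n => (t13f_prime_pow κ hp.2 n).symm
  rw [e]
  exact h

lemma t13_PS_eq (k u v : ℝ) : PS k u v = ∏ p ∈ prm u v with p.Prime, LibZM.Gsum (k / 2) ((p:ℝ)⁻¹) := by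
  unfold PS
  refine Finset.prod_congr ?_ fun _ _ => rfl
  ext p
  simp only [prm, Finset.mem_filter]
  tauto

lemma t13_mem_smo {u v X : ℝ} {n : ℕ} (h : n ∈ smo u v X) : n ∈ Nat.factoredNumbers (prm u v) := by
  unfold smo at h
  rw [Finset.mem_filter, Finset.mem_Icc] at h
  rw [Nat.mem_factoredNumbers]
  refine ⟨by omega, fun p hp => ?_⟩
  have hp' : p ∈ n.primeFactors := by rwa [Nat.mem_primeFactors_iff_mem_primeFactorsList]
  have hpp := Nat.prime_of_mem_primeFactorsList hp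
  have h2 := h.2 p hp'
  simp only [prm, Finset.mem_filter, Finset.mem_Icc]
  exact ⟨⟨hpp.one_lt.le, Nat.le_floor h2.2⟩, hpp, h2.1⟩

lemma t13_factored {u v : ℝ} (hv : 0 ≤ v) {n : ℕ} (h : n ∈ Nat.factoredNumbers (prm u v)) (Y : ℝ) (hY : (n:ℝ) ≤ Y) : n ∈ smo u v Y := by
  rw [Nat.mem_factoredNumbers] at h
  unfold smo
  rw [Finset.mem_filter, Finset.mem_Icc]
  refine ⟨⟨Nat.pos_of_ne_zero h.1, Nat.le_floor hY⟩, fun p hp => ?_⟩
  have hp' : p ∈ n.primeFactorsList := by rwa [← Nat.mem_primeFactors_iff_mem_primeFactorsList]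
  have h2 := h.2 p hp'
  simp only [prm, Finset.mem_filter, Finset.mem_Icc] at h2
  exact ⟨h2.2.2, (Nat.le_floor_iff hv).1 h2.1.2⟩

theorem g_meanSq {k : ℝ} (hk : 0 < k) : ∃ C : ℝ, 0 < C ∧ ∀ u v X : ℝ, Real.sqrt 2 ≤ u → u ≤ v →
    Real.log v ≤ 2 * Real.log u → 1 ≤ X →
    (∫ x, ‖DS (smo u v X) (fun n => ((LibZM.tau (k / 2) n : ℝ) : ℂ)) x‖ ^ 2 ∂mu ≤ PS k u v) ∧
    (PS k u v - C * Real.exp (-(Real.log X) / (5 * Real.log v)) ≤
      ∫ x, ‖DS (smo u v X) (fun n => ((LibZM.tau (k / 2) n : ℝ) : ℂ)) x‖ ^ 2 ∂mu) := by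
  obtain ⟨r, hr⟩ := exists_nat_ge ((k / 2) ^ 2)
  obtain ⟨C, hC, hCb⟩ := sum_smo_tau_tail_le r
  refine ⟨C * 2 ^ r, by positivity, fun u v X hu huv huv2 hX => ?_⟩
  have h2 : (1:ℝ) < Real.sqrt 2 := by
    rw [Real.lt_sqrt (by norm_num)]; norm_num
  have hu1 : 1 < u := by linarith
  have hv1 : 1 < v := by linarith
  have hlu : 0 < Real.log u := Real.log_pos hu1
  have hlv : 0 < Real.log v := Real.log_pos hv1
  have hκ : 0 ≤ k / 2 := by positivity
  have hint : ∫ x, ‖DS (smo u v X) (fun n => ((LibZM.tau (k / 2) n : ℝ) : ℂ)) x‖ ^ 2 ∂mu = ∑ n ∈ smo u v X, t13f (k / 2) n := by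
    rw [integral_norm_sq _ (fun n hn => by
      unfold smo at hn
      rw [Finset.mem_filter, Finset.mem_Icc] at hn
      exact hn.1.1)]
    refine Finset.sum_congr rfl fun n _ => ?_
    unfold t13f
    rw [Complex.norm_real, Real.norm_eq_abs, sq_abs]
  rw [hint, t13_PS_eq]
  have hS := t13_hasSum hκ (prm u v)
  set s := Nat.factoredNumbers (prm u v) with hs
  have hsub : ∑ n ∈ smo u v X, t13f (k / 2) n = ∑ m ∈ (smo u v X).attach.image (fun n => (⟨n.1, t13_mem_smo n.2⟩ : s)), t13f (k / 2) m := by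
    rw [Finset.sum_image]
    · exact (Finset.sum_attach (smo u v X) (fun n => t13f (k / 2) n)).symm
    · intro a _ b _ hab
      simp only [Subtype.mk.injEq] at hab
      exact Subtype.ext hab
  constructor
  · rw [hsub]
    exact sum_le_hasSum _ (fun m _ => t13f_nonneg _ _) hS
  · rw [sub_le_iff_le_add]
    refine hasSum_le_of_sum_le hS fun T => ?_
    obtain ⟨Y, hY⟩ : ∃ Y : ℝ, ∀ m ∈ T, ((m : ℕ) : ℝ) ≤ Y := by
      refine ⟨((T.sup (fun m => (m : ℕ)) : ℕ) : ℝ), fun m hm => ?_⟩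
      have := Finset.le_sup (f := fun m : s => (m : ℕ)) hm
      exact_mod_cast this
    have h3 : ∑ m ∈ T, t13f (k / 2) m = ∑ n ∈ T.image (fun m : s => (m : ℕ)), t13f (k / 2) n := by
      rw [Finset.sum_image]
      intro a _ b _ hab
      exact Subtype.ext hab
    rw [h3]
    have h4 : T.image (fun m : s => (m : ℕ)) ⊆ smo u v X ∪ (smo u v Y).filter (fun n : ℕ => X < (n : ℝ)) := by
      intro n hn
      rw [Finset.mem_image] at hn
      obtain ⟨m, hm, rfl⟩ := hn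
      rw [Finset.mem_union, Finset.mem_filter]
      by_cases hc : ((m : ℕ) : ℝ) ≤ X
      · exact Or.inl (t13_factored (by linarith) m.2 X hc)
      · exact Or.inr ⟨t13_factored (by linarith) m.2 Y (hY m hm), not_le.1 hc⟩
    have h5 : ∑ n ∈ T.image (fun m : s => (m : ℕ)), t13f (k / 2) n ≤ 
        ∑ n ∈ smo u v X, t13f (k / 2) n + ∑ n ∈ (smo u v Y).filter (fun n : ℕ => X < (n : ℝ)), t13f (k / 2) n := by
      refine (Finset.sum_le_sum_of_subset_of_nonneg h4 fun n _ _ => t13f_nonneg _ _).trans ?_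
      rw [← Finset.sum_union_inter]
      have : 0 ≤ ∑ n ∈ smo u v X ∩ (smo u v Y).filter (fun n : ℕ => X < (n : ℝ)), t13f (k / 2) n := 
        Finset.sum_nonneg fun n _ => t13f_nonneg _ _
      linarith
    refine h5.trans (add_le_add le_rfl ?_)
    have h6 : ∑ n ∈ (smo u v Y).filter (fun n : ℕ => X < (n : ℝ)), t13f (k / 2) n ≤ 
        ∑ n ∈ (smo u v Y).filter (fun n : ℕ => X < (n : ℝ)), LibZM.tau (r : ℝ) n / n := by
      refine Finset.sum_le_sum fun n _ => ?_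
      unfold t13f
      have h7 := (LibZM.tau_sq_le hκ n).trans (LibZM.tau_mono (sq_nonneg (k / 2)) hr n)
      gcongr
    refine h6.trans ((hCb u v X Y hu huv hX).trans ?_)
    have h8 : Real.log v / Real.log u ≤ 2 := by rw [div_le_iff₀ hlu]; exact huv2
    have h9 : (Real.log v / Real.log u) ^ r ≤ 2 ^ r := pow_le_pow_left₀ (by positivity) h8 r
    have := Real.exp_pos (-(Real.log X) / (5 * Real.log v))
    gcongr

end Pool.Agent.LibMM99
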