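import Mathlib
import Pool.Agent.LibMM99.T07
import Pool.Agent.LibMM99.T13
import Pool.Agent.LibMM99.T14
import Pool.Agent.LibMM99.R5
import Pool.Agent.LibMM99.R7

set_option autoImplicit false

namespace Pool.Agent.LibMM99

open MeasureTheory Filter Topology
open scoped ComplexConjugate

/-- `ψ` -/
noncomputable def R8ψ (u v κ : ℝ) : Om → ℂ := DS (smo u v (Real.exp (κ * Real.log v))) (fun _ => 1)

/-- `g` -/
noncomputable def R8g (k u v κ : ℝ) : Om → ℂ :=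
  DS (smo u v (Real.exp (κ * Real.log v))) (fun n => ((LibZM.tau (k / 2) n : ℝ) : ℂ))

/-- the nine building blocks of the error -/
noncomputable def R8f (k : ℝ) (N : ℕ) (u v κ : ℝ) (D m : ℕ) : Fin 9 → Om → ℝ :=
  ![fun _ => 1,
    fun x => ‖R8ψ u v κ x‖ ^ (2 * N),
    fun x => ‖R8g k u v κ x‖ ^ (2 * 1),
    fun x => ‖R5h 1 u v (Real.exp (κ * Real.log v)) D x‖ ^ (2 * 1),
    fun x => ‖R5h 1 u v (Real.exp (κ * Real.log v)) D x‖ ^ (2 * N),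
    fun x => ‖R5h (k / 2) u v (Real.exp (κ * Real.log v)) D x‖ ^ (2 * 1),
    fun x => ‖R4S u v x‖ ^ (2 * (2 * m)),
    fun x => ‖R8ψ u v κ x‖ ^ (2 * (2 * N)),
    fun x => ‖R8g k u v κ x‖ ^ (2 * 2)]

/-- the linear combination -/
noncomputable def R8e (k : ℝ) (N : ℕ) (u v κ : ℝ) (D m : ℕ) (c : Fin 9 → ℝ) (x : Om) : ℝ :=
  ∑ i, c i * R8f k N u v κ D m i x

lemma R8e_eq (k : ℝ) (N : ℕ) (u v κ : ℝ) (D m : ℕ) (c : Fin 9 → ℝ) (x : Om) :
    R8e k N u v κ D m c x =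
      c 0 + c 1 * ‖R8ψ u v κ x‖ ^ (2 * N) + c 2 * ‖R8g k u v κ x‖ ^ 2 +
      c 3 * ‖R5h 1 u v (Real.exp (κ * Real.log v)) D x‖ ^ 2 +
      c 4 * ‖R5h 1 u v (Real.exp (κ * Real.log v)) D x‖ ^ (2 * N) +
      c 5 * ‖R5h (k / 2) u v (Real.exp (κ * Real.log v)) D x‖ ^ 2 +
      c 6 * ‖R4S u v x‖ ^ (2 * (2 * m)) +
      c 7 * ‖R8ψ u v κ x‖ ^ (2 * (2 * N)) +
      c 8 * ‖R8g k u v κ x‖ ^ 4 := by
  unfold R8e R8f
  simp [Fin.sum_univ_succ]
  ring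

lemma R8f_nonneg (k : ℝ) (N : ℕ) (u v κ : ℝ) (D m : ℕ) (i : Fin 9) (x : Om) :
    0 ≤ R8f k N u v κ D m i x := by
  unfold R8f
  fin_cases i <;> simp

lemma R8f_dep (k : ℝ) (N : ℕ) {u v κ : ℝ} (hv : 1 ≤ v) (D m : ℕ) (i : Fin 9) :
    DependsOn (R8f k N u v κ D m i) (coo u v) := by
  have h1 : DependsOn (R8ψ u v κ) (coo u v) := dependsOn_DS_smo _ _ _ _
  have h2 : DependsOn (R8g k u v κ) (coo u v) := dependsOn_DS_smo _ _ _ _
  have h3 : DependsOn (R5h 1 u v (Real.exp (κ * Real.log v)) D) (coo u v) := R5_h_dep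
  have h4 : DependsOn (R5h (k / 2) u v (Real.exp (κ * Real.log v)) D) (coo u v) := R5_h_dep
  have h5 : DependsOn (R4S u v) (coo u v) := R5_S_dep hv
  intro x y hxy
  unfold R8f
  fin_cases i
  · rfl
  · show ‖R8ψ u v κ x‖ ^ (2 * N) = ‖R8ψ u v κ y‖ ^ (2 * N)
    rw [h1 hxy]
  · show ‖R8g k u v κ x‖ ^ (2 * 1) = ‖R8g k u v κ y‖ ^ (2 * 1)
    rw [h2 hxy]
  · show ‖R5h 1 u v (Real.exp (κ * Real.log v)) D x‖ ^ (2 * 1) =
      ‖R5h 1 u v (Real.exp (κ * Real.log v)) D y‖ ^ (2 * 1)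
    rw [h3 hxy]
  · show ‖R5h 1 u v (Real.exp (κ * Real.log v)) D x‖ ^ (2 * N) =
      ‖R5h 1 u v (Real.exp (κ * Real.log v)) D y‖ ^ (2 * N)
    rw [h3 hxy]
  · show ‖R5h (k / 2) u v (Real.exp (κ * Real.log v)) D x‖ ^ (2 * 1) =
      ‖R5h (k / 2) u v (Real.exp (κ * Real.log v)) D y‖ ^ (2 * 1)
    rw [h4 hxy]
  · show ‖R4S u v x‖ ^ (2 * (2 * m)) = ‖R4S u v y‖ ^ (2 * (2 * m))
    rw [h5 hxy]
  · show ‖R8ψ u v κ x‖ ^ (2 * (2 * N)) = ‖R8ψ u v κ y‖ ^ (2 * (2 * N))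
    rw [h1 hxy]
  · show ‖R8g k u v κ x‖ ^ (2 * 2) = ‖R8g k u v κ y‖ ^ (2 * 2)
    rw [h2 hxy]

lemma R8ψ_poly {u v κ : ℝ} (hv : 1 ≤ v) (hκ : 0 ≤ κ) : IsPoly (κ * Real.log v) (R8ψ u v κ) := by
  have hlv : 0 ≤ Real.log v := Real.log_nonneg hv
  have h := IsPoly.ds (u := u) (v := v) (X := Real.exp (κ * Real.log v)) (A := 0)
    (Real.one_le_exp (by positivity)) le_rfl (fun _ => 1) (fun n _ _ => by simp)
  rw [Real.log_exp] at h
  unfold R8ψ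
  simpa using h

lemma R8g_poly {k : ℝ} (hk : 0 ≤ k) {N : ℕ} (hkN : k / 2 ≤ N) {u v κ : ℝ} (hv : 1 ≤ v) (hκ : 0 ≤ κ) :
    IsPoly ((N + 1) * (κ * Real.log v)) (R8g k u v κ) := by
  have hlv : 0 ≤ Real.log v := Real.log_nonneg hv
  have h := IsPoly.ds (u := u) (v := v) (X := Real.exp (κ * Real.log v)) (A := N)
    (Real.one_le_exp (by positivity)) (Nat.cast_nonneg N)
    (fun n => ((LibZM.tau (k / 2) n : ℝ) : ℂ)) (by
      intro n _ hnX
      rw [Complex.norm_real, Real.norm_of_nonneg (LibZM.tau_nonneg (by positivity) n)]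
      exact R5_coef_le (by positivity) hkN (Real.one_le_exp (by positivity)) hnX)
  rw [Real.log_exp] at h
  exact h

lemma R8f_poly {k : ℝ} (hk : 0 ≤ k) {N : ℕ} (hN : 1 ≤ N) (hkN : k / 2 ≤ N) {u v κ : ℝ} (hv : 1 ≤ v) (hκ : 1 ≤ κ)
    {D m : ℕ} (hD : (D : ℝ) ≤ 4 * κ) (hm : (m : ℝ) ≤ 2 * κ) (i : Fin 9) :
    IsPolyR (16 * (N + 1) * (κ * Real.log v)) (R8f k N u v κ D m i) := by
  have hlv : 0 ≤ Real.log v := Real.log_nonneg hv
  have hNR : (1 : ℝ) ≤ N := by exact_mod_cast hN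
  have hκ0 : 0 ≤ κ := by linarith
  have hl : 0 ≤ κ * Real.log v := by positivity
  have hDl : (D : ℝ) * Real.log v ≤ 4 * (κ * Real.log v) := by
    have := mul_le_mul_of_nonneg_right hD hlv
    linarith
  have hml : (m : ℝ) * Real.log v ≤ 2 * (κ * Real.log v) := by
    have := mul_le_mul_of_nonneg_right hm hlv
    linarith
  have hNl : (κ * Real.log v) ≤ N * (κ * Real.log v) := le_mul_of_one_le_left hl hNR
  have hDl0 : 0 ≤ (D : ℝ) * Real.log v := by positivity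
  have hNDl : (N : ℝ) * ((D : ℝ) * Real.log v) ≤ N * (4 * (κ * Real.log v)) := by gcongr
  have h1 := R8ψ_poly (u := u) hv hκ0
  have h2 := R8g_poly (u := u) hk hkN hv hκ0
  have h3 : IsPoly ((1 + 1) * (D * Real.log v)) (R5h 1 u v (Real.exp (κ * Real.log v)) D) := by
    have := R5_h_poly (α := 1) (by norm_num) (r := 1) (by norm_num) (u := u) (X := Real.exp (κ * Real.log v)) (D := D) hv
    simpa using this
  have h4 := R5_h_poly (α := k / 2) (by positivity) (r := N) hkN (u := u) (X := Real.exp (κ * Real.log v)) (D := D) hv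
  have h5 := R5_S_poly (u := u) hv
  have hpow : ∀ (j : ℕ) {a : ℝ} {Φ : Om → ℂ}, IsPoly a Φ → 2 * (j : ℝ) * a ≤ 16 * (N + 1) * (κ * Real.log v) →
      IsPolyR (16 * (N + 1) * (κ * Real.log v)) (fun x => ‖Φ x‖ ^ (2 * j)) := by
    intro j a Φ h ha
    exact (h.normPow j).mono ha
  unfold R8f
  fin_cases i
  · show IsPolyR _ (fun _ => (1 : ℝ))
    refine IsPolyR.const _ (by positivity) ?_
    rw [abs_one]
    exact Real.one_le_exp (by positivity)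
  · exact hpow N h1 (by linarith)
  · exact hpow 1 h2 (by push_cast; linarith)
  · exact hpow 1 h3 (by push_cast; linarith)
  · exact hpow N h3 (by linarith)
  · exact hpow 1 h4 (by push_cast; linarith)
  · exact hpow (2 * m) h5 (by push_cast; linarith)
  · exact hpow (2 * N) h1 (by push_cast; linarith)
  · exact hpow 2 h2 (by push_cast; linarith)

lemma R8e_nonneg {k : ℝ} {N : ℕ} {u v κ : ℝ} {D m : ℕ} {c : Fin 9 → ℝ} (hc : ∀ i, 0 ≤ c i) (x : Om) :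
    0 ≤ R8e k N u v κ D m c x :=
  Finset.sum_nonneg fun i _ => mul_nonneg (hc i) (R8f_nonneg _ _ _ _ _ _ _ i x)

lemma R8e_dep {k : ℝ} {N : ℕ} {u v κ : ℝ} (hv : 1 ≤ v) {D m : ℕ} {c : Fin 9 → ℝ} :
    DependsOn (R8e k N u v κ D m c) (coo u v) := by
  intro x y hxy
  unfold R8e
  refine Finset.sum_congr rfl fun i _ => ?_
  rw [R8f_dep k N hv D m i hxy]

/-- the polynomial length of the error -/
lemma R8e_poly {k : ℝ} (hk : 0 ≤ k) {N : ℕ} (hN : 1 ≤ N) (hkN : k / 2 ≤ N) {u v κ : ℝ}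
    (hv : 1 ≤ v) (hlv : 0.34 ≤ Real.log v) (hκ : 1 ≤ κ)
    {D m : ℕ} (hD : (D : ℝ) ≤ 4 * κ) (hm : (m : ℝ) ≤ 2 * κ) {K : ℝ} (hK : 1 ≤ K) {c : Fin 9 → ℝ}
    (hc0 : ∀ i, 0 ≤ c i) (hc : ∀ i, c i ≤ K * Real.exp κ) :
    IsPolyR ((3 * Real.log K + 30 + 16 * (N + 1)) * κ * Real.log v) (R8e k N u v κ D m c) := by
  have hlK : 0 ≤ Real.log K := Real.log_nonneg hK
  have hl1 : κ ≤ 3 * (κ * Real.log v) := by nlinarith
  have hl0 : 0 ≤ κ * Real.log v := by nlinarith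
  have hcst : ∀ i, IsPolyR ((3 * Real.log K + 3) * (κ * Real.log v)) (fun _ => c i) := by
    intro i
    refine IsPolyR.const _ (by positivity) ?_
    rw [abs_of_nonneg (hc0 i)]
    refine (hc i).trans ?_
    rw [← Real.exp_log (show 0 < K by linarith), ← Real.exp_add, Real.log_exp]
    apply Real.exp_le_exp.2
    have h1 : (1 : ℝ) ≤ 3 * (κ * Real.log v) := hκ.trans hl1
    have h2 : Real.log K ≤ Real.log K * (3 * (κ * Real.log v)) := le_mul_of_one_le_right hlK h1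
    nlinarith
  have hs : IsPolyR (((3 * Real.log K + 3) * (κ * Real.log v) + 16 * (N + 1) * (κ * Real.log v)) +
      (Finset.univ : Finset (Fin 9)).card) (fun x => ∑ i, c i * R8f k N u v κ D m i x) :=
    IsPolyR.sum Finset.univ (fun i x => c i * R8f k N u v κ D m i x)
      (fun i _ => (hcst i).mul (R8f_poly hk hN hkN hv hκ hD hm i))
  have h9 : (((Finset.univ : Finset (Fin 9)).card : ℕ) : ℝ) = 9 := by simp
  rw [h9] at hs
  unfold R8e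
  refine hs.mono ?_
  nlinarith

lemma R8f_cont (k : ℝ) (N : ℕ) {u v κ : ℝ} (hv : 1 ≤ v) (D m : ℕ) (i : Fin 9) :
    Continuous (R8f k N u v κ D m i) := by
  have h1 : Continuous (R8ψ u v κ) := continuous_DS _ _
  have h2 : Continuous (R8g k u v κ) := continuous_DS _ _
  have h3 : ∀ α : ℝ, Continuous (R5h α u v (Real.exp (κ * Real.log v)) D) := fun α => by
    unfold R5h
    exact continuous_DS _ _
  have h5 : Continuous (R4S u v) := (R5_S_poly hv).continuous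
  unfold R8f
  fin_cases i
  · exact continuous_const
  · exact h1.norm.pow _
  · exact h2.norm.pow _
  · exact (h3 1).norm.pow _
  · exact (h3 1).norm.pow _
  · exact (h3 (k / 2)).norm.pow _
  · exact h5.norm.pow _
  · exact h1.norm.pow _
  · exact h2.norm.pow _

lemma R8e_int {k : ℝ} {N : ℕ} {u v κ : ℝ} (hv : 1 ≤ v) {D m : ℕ} {c : Fin 9 → ℝ} :
    ∫ x, R8e k N u v κ D m c x ∂mu =
      c 0 + c 1 * ∫ x, ‖R8ψ u v κ x‖ ^ (2 * N) ∂mu + c 2 * ∫ x, ‖R8g k u v κ x‖ ^ 2 ∂mu +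
      c 3 * ∫ x, ‖R5h 1 u v (Real.exp (κ * Real.log v)) D x‖ ^ 2 ∂mu +
      c 4 * ∫ x, ‖R5h 1 u v (Real.exp (κ * Real.log v)) D x‖ ^ (2 * N) ∂mu +
      c 5 * ∫ x, ‖R5h (k / 2) u v (Real.exp (κ * Real.log v)) D x‖ ^ 2 ∂mu +
      c 6 * ∫ x, ‖R4S u v x‖ ^ (2 * (2 * m)) ∂mu +
      c 7 * ∫ x, ‖R8ψ u v κ x‖ ^ (2 * (2 * N)) ∂mu +
      c 8 * ∫ x, ‖R8g k u v κ x‖ ^ 4 ∂mu := by
  unfold R8e
  rw [integral_finsetSum _ (fun i _ => (integrable_of_continuous (R8f_cont k N hv D m i)).const_mul (c i))]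
  simp only [integral_const_mul]
  unfold R8f
  simp [Fin.sum_univ_succ]
  ring

end Pool.Agent.LibMM99
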