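import Mathlib
import Pool.Agent.LibMM99.T09
import Pool.Agent.LibMM99.R8

set_option autoImplicit false

namespace Pool.Agent.LibMM99

open MeasureTheory Filter Topology
open scoped ComplexConjugate

/-- existence of the majorant -/
def R9E (k C u v κ : ℝ) : Prop := ∃ e : Om → ℝ, (∀ x, 0 ≤ e x) ∧ DependsOn e (coo u v) ∧
  IsPolyR (C * κ * Real.log v) e ∧ (∀ x, |‖R8ψ u v κ x‖ ^ k - ‖R8g k u v κ x‖ ^ 2| ≤ e x) ∧
  ∫ x, e x ∂mu ≤ C * Real.exp (-κ / 10)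

lemma R9_mono {k C C' u v κ : ℝ} (h : R9E k C u v κ) (hC : C ≤ C') (hκ : 0 ≤ κ) (hv : 1 ≤ v) :
    R9E k C' u v κ := by
  obtain ⟨e, h1, h2, h3, h4, h5⟩ := h
  have hlv : 0 ≤ Real.log v := Real.log_nonneg hv
  refine ⟨e, h1, h2, h3.mono (by gcongr), h4, h5.trans (by gcongr)⟩

lemma R9_V : ∃ V : ℝ, 1 ≤ V ∧ ∀ u v : ℝ, Real.sqrt 2 ≤ u → u ≤ v → Real.log v ≤ 2 * Real.log u →
    ∑ p ∈ prm u v, (p : ℝ)⁻¹ ≤ V := by
  obtain ⟨C, hC, h⟩ := sum_inv_prime_le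
  refine ⟨1 + C, by linarith, fun u v hu huv hlog => ?_⟩
  obtain ⟨hq0, hq2⟩ := R5_ratio hu huv hlog
  obtain ⟨hlu, hlv, -, -, -⟩ := R5_logs hu huv
  have h1 := h u v hu huv
  have h2 : Real.log (Real.log v / Real.log u) ≤ Real.log 2 :=
    Real.log_le_log (by positivity) hq2
  have h3 := Real.log_two_lt_d9
  linarith

lemma R9_pow_le {k : ℝ} (hk : 0 < k) {N : ℕ} (hkN : k ≤ 2 * N) {t : ℝ} (ht : 0 ≤ t) :
    t ^ k ≤ 1 + t ^ (2 * N) := by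
  rcases le_total t 1 with h | h
  · have h1 : t ^ k ≤ 1 := Real.rpow_le_one ht h hk.le
    have h2 : 0 ≤ t ^ (2 * N) := by positivity
    linarith
  · have h1 : t ^ k ≤ t ^ ((2 * N : ℕ) : ℝ) := Real.rpow_le_rpow_of_exponent_le h (by push_cast; exact hkN)
    rw [Real.rpow_natCast] at h1
    linarith

/-- crude bound for the difference -/
lemma R9_crude {k : ℝ} (hk : 0 < k) {N : ℕ} (hkN : k ≤ 2 * N) (a b : ℂ) :
    |‖a‖ ^ k - ‖b‖ ^ 2| ≤ 1 + ‖a‖ ^ (2 * N) + ‖b‖ ^ 2 := by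
  have h1 := R9_pow_le hk hkN (norm_nonneg a)
  have h2 : 0 ≤ ‖a‖ ^ k := by positivity
  have h3 : 0 ≤ ‖b‖ ^ 2 := by positivity
  rw [abs_le]
  constructor <;> linarith [show 0 ≤ ‖a‖ ^ (2 * N) by positivity]

/-- moments of `ψ` and `g` -/
lemma R9_mom {k : ℝ} (hk : 0 < k) (N : ℕ) : ∃ M : ℝ, 1 ≤ M ∧ ∀ u v κ : ℝ, Real.sqrt 2 ≤ u → u ≤ v →
    Real.log v ≤ 2 * Real.log u →
    ∫ x, ‖R8ψ u v κ x‖ ^ (2 * N) ∂mu ≤ M ∧ ∫ x, ‖R8g k u v κ x‖ ^ 2 ∂mu ≤ M ∧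
    ∫ x, ‖R8ψ u v κ x‖ ^ (2 * (2 * N)) ∂mu ≤ M ∧ ∫ x, ‖R8g k u v κ x‖ ^ 4 ∂mu ≤ M := by
  obtain ⟨C1, hC1, h1⟩ := psi_moment N
  obtain ⟨C2, hC2, h2⟩ := R5_g_moment (α := k / 2) (by positivity) 1
  obtain ⟨C3, hC3, h3⟩ := psi_moment (2 * N)
  obtain ⟨C4, hC4, h4⟩ := R5_g_moment (α := k / 2) (by positivity) 2
  refine ⟨1 + C1 + C2 + C3 + C4, by linarith, fun u v κ hu huv hlog => ⟨?_, ?_, ?_, ?_⟩⟩
  · have := h1 u v (Real.exp (κ * Real.log v)) hu huv hlog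
    unfold R8ψ
    linarith
  · have := h2 u v (Real.exp (κ * Real.log v)) hu huv hlog
    rw [mul_one] at this
    unfold R8g
    linarith
  · have := h3 u v (Real.exp (κ * Real.log v)) hu huv hlog
    unfold R8ψ
    linarith
  · have := h4 u v (Real.exp (κ * Real.log v)) hu huv hlog
    unfold R8g
    norm_num at this ⊢
    linarith

/-- the case of small `κ` -/
theorem R9_small {k : ℝ} (hk : 0 < k) {N : ℕ} (hN : 1 ≤ N) (hkN : k / 2 ≤ N) (κ0 : ℝ) : ∃ C : ℝ, 1 ≤ C ∧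
    ∀ u v κ : ℝ, Real.sqrt 2 ≤ u → u ≤ v → Real.log v ≤ 2 * Real.log u → 1 ≤ κ → κ ≤ κ0 → R9E k C u v κ := by
  obtain ⟨M, hM1, hM⟩ := R9_mom hk N
  have hkN' : k ≤ 2 * N := by linarith
  refine ⟨(30 + 16 * (N + 1)) + (1 + M + M) * Real.exp (κ0 / 10), by
    have : 0 ≤ (1 + M + M) * Real.exp (κ0 / 10) := by positivity
    have : (0 : ℝ) ≤ N := Nat.cast_nonneg N
    linarith, fun u v κ hu huv hlog hκ hκ0 => ?_⟩
  obtain ⟨hlu, hlv, hlv3, hu1, hv1⟩ := R5_logs hu huv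
  have hκp : 0 ≤ κ := by linarith
  set c : Fin 9 → ℝ := ![1, 1, 1, 0, 0, 0, 0, 0, 0] with hc
  have hc0 : ∀ i, 0 ≤ c i := by
    intro i
    rw [hc]
    fin_cases i <;> simp
  have hc1 : ∀ i, c i ≤ 1 * Real.exp κ := by
    intro i
    have h1 : 1 ≤ Real.exp κ := Real.one_le_exp hκp
    rw [hc, one_mul]
    fin_cases i <;> simp <;> linarith
  have hE : 0 ≤ (1 + M + M) * Real.exp (κ0 / 10) := by positivity
  refine ⟨R8e k N u v κ 0 0 c, R8e_nonneg hc0, R8e_dep hv1.le, ?_, ?_, ?_⟩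
  · have h := R8e_poly (u := u) hk.le hN hkN hv1.le hlv3 hκ (D := 0) (m := 0) (by simpa using hκp)
      (by simpa using hκp) le_rfl hc0 hc1
    refine h.mono ?_
    rw [Real.log_one]
    have h2 : 0 ≤ κ * Real.log v := by positivity
    have h3 : 0 ≤ ((1 + M + M) * Real.exp (κ0 / 10)) * (κ * Real.log v) := by positivity
    nlinarith
  · intro x
    rw [R8e_eq]
    refine (R9_crude hk hkN' _ _).trans (le_of_eq ?_)
    simp [hc]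
  · rw [R8e_int hv1.le]
    obtain ⟨h1, h2, -, -⟩ := hM u v κ hu huv hlog
    have h3 : Real.exp (κ0 / 10) * Real.exp (-κ / 10) ≥ 1 := by
      rw [← Real.exp_add]
      apply Real.one_le_exp
      linarith
    have h4 : (1 + M + M) * 1 ≤ (1 + M + M) * (Real.exp (κ0 / 10) * Real.exp (-κ / 10)) := by gcongr
    have h5 : 0 ≤ (30 + 16 * ((N : ℝ) + 1)) * Real.exp (-κ / 10) := by positivity
    have h6 : (∫ x, ‖R8ψ u v κ x‖ ^ (2 * N) ∂mu) + ∫ x, ‖R8g k u v κ x‖ ^ 2 ∂mu ≤ M + M := by linarith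
    simp [hc]
    linarith

end Pool.Agent.LibMM99
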