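import Mathlib
import Pool.Agent.LibMM99.R9

set_option autoImplicit false

namespace Pool.Agent.LibMM99

open MeasureTheory Filter Topology
open scoped ComplexConjugate

lemma R10_eps {k Q V κ α s : ℝ} (hk : 0 < k) (hQ : k + 1 ≤ Q) (hV : 0 ≤ V) (hκ : 0 ≤ κ) (hα : 0 ≤ α)
    (hαk : α ≤ k + 1) (hs : s ≤ V) {D : ℕ} (hD : 3 * κ ≤ D) :
    Real.exp (α * (6 / 5 * (κ / (80 * Q)) + 6 * s)) * (5 * (5 / 6) ^ D) ≤
      5 * Real.exp (6 * (k + 1) * V) * Real.exp (-κ / 4) := by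
  have hQ0 : 0 < Q := by linarith
  have h1 : ((5 : ℝ) / 6) ^ D ≤ Real.exp (-κ / 2) := by
    have h2 : (5 : ℝ) / 6 ≤ Real.exp (-1 / 6) := by
      have := Real.add_one_le_exp (-1 / 6 : ℝ)
      linarith
    calc ((5 : ℝ) / 6) ^ D ≤ Real.exp (-1 / 6) ^ D := pow_le_pow_left₀ (by norm_num) h2 D
      _ = Real.exp (D * (-1 / 6)) := by rw [← Real.exp_nat_mul]
      _ ≤ Real.exp (-κ / 2) := by
          apply Real.exp_le_exp.2
          linarith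
  have h3 : α * (6 / 5 * (κ / (80 * Q)) + 6 * s) ≤ 6 * (k + 1) * V + κ / 4 := by
    have h4 : α * (6 / 5 * (κ / (80 * Q))) ≤ κ / 4 := by
      have h5 : α ≤ Q := hαk.trans hQ
      have h6 : α * (6 / 5 * (κ / (80 * Q))) = (α / Q) * (6 / 400 * κ) := by
        field_simp
        ring
      rw [h6]
      have h7 : α / Q ≤ 1 := (div_le_one hQ0).2 h5
      have h8 : (α / Q) * (6 / 400 * κ) ≤ 1 * (6 / 400 * κ) := by gcongr
      linarith
    have h5 : α * (6 * s) ≤ (k + 1) * (6 * V) := by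
      rcases le_total 0 s with h | h
      · gcongr
      · have : α * (6 * s) ≤ 0 := mul_nonpos_of_nonneg_of_nonpos hα (by linarith)
        have : 0 ≤ (k + 1) * (6 * V) := by positivity
        linarith
    linarith
  calc Real.exp (α * (6 / 5 * (κ / (80 * Q)) + 6 * s)) * (5 * (5 / 6) ^ D)
      ≤ Real.exp (6 * (k + 1) * V + κ / 4) * (5 * Real.exp (-κ / 2)) := by gcongr
    _ = 5 * Real.exp (6 * (k + 1) * V) * (Real.exp (κ / 4) * Real.exp (-κ / 2)) := by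
        rw [Real.exp_add]; ring
    _ = 5 * Real.exp (6 * (k + 1) * V) * Real.exp (-κ / 4) := by
        rw [← Real.exp_add]
        congr 2
        ring

lemma R10_bad {V Q κ : ℝ} (hV : 1 ≤ V) (hQ : 0 < Q) (hκ1 : 1 ≤ κ) (hκ : 12 * V * (80 * Q) ^ 2 ≤ κ)
    {m : ℕ} (hm1 : κ ≤ m) (hm2 : (m : ℝ) ≤ 2 * κ) {I : ℝ} (hI : I ≤ (2 * m).factorial * V ^ (2 * m)) :
    ((κ / (80 * Q))⁻¹) ^ (2 * (2 * m)) * I ≤ Real.exp (-(2 * κ)) := by
  have hV0 : 0 < V := by linarith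
  have hκ0 : 0 < κ := by linarith
  set B : ℝ := (κ / (80 * Q))⁻¹ with hB
  have hB0 : 0 < B := by positivity
  have h1 : ((2 * m).factorial : ℝ) ≤ (2 * m : ℝ) ^ (2 * m) := by
    have := Nat.factorial_le_pow (2 * m)
    calc ((2 * m).factorial : ℝ) ≤ (((2 * m) ^ (2 * m) : ℕ) : ℝ) := by exact_mod_cast this
      _ = (2 * m : ℝ) ^ (2 * m) := by push_cast; ring
  have h2 : B ^ 2 * (2 * m * V) ≤ 1 / 3 := by
    have h3 : B ^ 2 * (2 * m * V) ≤ B ^ 2 * (2 * (2 * κ) * V) := by gcongr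
    have h4 : B ^ 2 * (2 * (2 * κ) * V) = 4 * V * (80 * Q) ^ 2 / κ := by
      rw [hB]
      field_simp
      ring
    have h5 : 4 * V * (80 * Q) ^ 2 / κ ≤ 1 / 3 := by
      rw [div_le_iff₀ hκ0]
      linarith
    linarith
  have h6 : (1 : ℝ) / 3 ≤ Real.exp (-1) := by
    rw [Real.exp_neg, one_div]
    apply inv_anti₀ (Real.exp_pos _)
    have := Real.exp_one_lt_d9
    linarith
  calc B ^ (2 * (2 * m)) * I ≤ B ^ (2 * (2 * m)) * ((2 * m : ℝ) ^ (2 * m) * V ^ (2 * m)) := by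
        apply mul_le_mul_of_nonneg_left _ (by positivity)
        refine hI.trans ?_
        gcongr
    _ = (B ^ 2 * (2 * m * V)) ^ (2 * m) := by
        rw [pow_mul B 2 (2 * m), mul_pow (B ^ 2), mul_pow (2 * (m : ℝ)) V]
    _ ≤ Real.exp (-1) ^ (2 * m) := pow_le_pow_left₀ (by positivity) (h2.trans h6) _
    _ = Real.exp ((2 * m : ℕ) * (-1)) := by rw [← Real.exp_nat_mul]
    _ ≤ Real.exp (-(2 * κ)) := by
        apply Real.exp_le_exp.2
        push_cast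
        linarith

lemma R10_amgm {a b t μ : ℝ} (ha : 0 ≤ a) (hb : 0 ≤ b) (hμ : 0 < μ) (ht : 1 ≤ t) :
    1 + a + b ≤ μ⁻¹ * t + 3 * μ * (1 + a ^ 2 + b ^ 2) := by
  have h1 : 0 ≤ μ⁻¹ * (1 - μ * (1 + a + b)) ^ 2 := by positivity
  have h2 : μ⁻¹ * (1 - μ * (1 + a + b)) ^ 2 = μ⁻¹ - 2 * (1 + a + b) + μ * (1 + a + b) ^ 2 := by
    field_simp
    ring
  have h3 : (1 + a + b) ^ 2 ≤ 3 * (1 + a ^ 2 + b ^ 2) := by nlinarith [sq_nonneg (a - b), sq_nonneg (1 - a), sq_nonneg (1 - b)]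
  have h4 : μ * (1 + a + b) ^ 2 ≤ μ * (3 * (1 + a ^ 2 + b ^ 2)) := by gcongr
  have h5 : μ⁻¹ * 1 ≤ μ⁻¹ * t := by gcongr
  nlinarith

/-- closeness to the exponential on the good event -/
lemma R10_close {k Q V κ α u v : ℝ} (hk : 0 < k) (hQ : k + 1 ≤ Q) (hV : 0 ≤ V) (hκ : 0 ≤ κ) (hα : 0 ≤ α)
    (hαk : α ≤ k + 1) (hu : Real.sqrt 2 ≤ u) (huv : u ≤ v) (hlog : Real.log v ≤ 2 * Real.log u)
    (hs : ∑ p ∈ prm u v, (p : ℝ)⁻¹ ≤ V) {D : ℕ} (hD : 3 * κ ≤ D) (x : Om)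
    (hA : ‖R4S u v x‖ ≤ κ / (80 * Q)) :
    ‖DS (smo u v (Real.exp (κ * Real.log v))) (fun n => ((LibZM.tau α n : ℝ) : ℂ)) x -
      Complex.exp (α * R4P u v x 1)‖ ≤ ‖R5h α u v (Real.exp (κ * Real.log v)) D x‖ +
      5 * Real.exp (6 * (k + 1) * V) * Real.exp (-κ / 4) := by
  obtain ⟨hlu, hlv, hlv3, hu1, hv1⟩ := R5_logs hu huv
  have h1 := R4_main (u := u) hv1.le hα D x hA
  have h2 := h1.trans (R10_eps hk hQ hV hκ hα hαk hs hD)
  have h3 := R5_split (α := α) hu huv hlog hκ (D := D) (by linarith) x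
  rw [h3] at h2
  have h4 : DS (smo u v (Real.exp (κ * Real.log v))) (fun n => ((LibZM.tau α n : ℝ) : ℂ)) x -
      Complex.exp (α * R4P u v x 1) =
      (DS (smo u v (Real.exp (κ * Real.log v))) (fun n => ((LibZM.tau α n : ℝ) : ℂ)) x +
        R5h α u v (Real.exp (κ * Real.log v)) D x - Complex.exp (α * R4P u v x 1)) -
      R5h α u v (Real.exp (κ * Real.log v)) D x := by ring
  rw [h4]
  refine (norm_sub_le _ _).trans ?_
  linarith

/-- elementary bounds of the exponentials -/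
lemma R10_exp {κ a b : ℝ} (hκ : 0 ≤ κ) (hab : a ≤ b) : Real.exp (a * κ) ≤ Real.exp (b * κ) :=
  Real.exp_le_exp.2 (mul_le_mul_of_nonneg_right hab hκ)

/-- the pointwise bound -/
theorem R10_approx {k : ℝ} (hk : 0 < k) {N : ℕ} (hN : 1 ≤ N) (hkN : k / 2 ≤ N) : ∃ C : ℝ, 1 ≤ C ∧
    ∀ (V κ u v μ ε : ℝ) (D m : ℕ), 0 ≤ V → 1 ≤ κ → Real.sqrt 2 ≤ u → u ≤ v → Real.log v ≤ 2 * Real.log u →
      ∑ p ∈ prm u v, (p : ℝ)⁻¹ ≤ V → 3 * κ ≤ D → 0 < μ → μ ≤ 1 →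
      ε = 5 * Real.exp (6 * (k + 1) * V) * Real.exp (-κ / 4) →
      ∀ x, |‖R8ψ u v κ x‖ ^ k - ‖R8g k u v κ x‖ ^ 2| ≤
        C * Real.exp ((k + 2 * N) * (κ / (80 * (k + 2 * N)) + 6 * V)) *
          (3 * μ + μ⁻¹ * (2 * ‖R5h 1 u v (Real.exp (κ * Real.log v)) D x‖ ^ 2 + 2 * ε ^ 2) +
            4 ^ N * (‖R5h 1 u v (Real.exp (κ * Real.log v)) D x‖ ^ (2 * N) + ε ^ (2 * N)) +
            μ⁻¹ * (6 * ‖R5h (k / 2) u v (Real.exp (κ * Real.log v)) D x‖ ^ 2 + 6 * ε ^ 2)) +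
        (μ⁻¹ * (((κ / (80 * (k + 2 * N)))⁻¹) ^ (2 * (2 * m)) * ‖R4S u v x‖ ^ (2 * (2 * m))) +
          3 * μ * (1 + ‖R8ψ u v κ x‖ ^ (2 * (2 * N)) + ‖R8g k u v κ x‖ ^ 4)) := by
  have hNR : (1 : ℝ) ≤ N := by exact_mod_cast hN
  have hkN' : k ≤ 2 * N := by linarith
  obtain ⟨C, hC, hgood⟩ := R7_good hk hN hkN'
  refine ⟨C, hC, ?_⟩
  intro V κ u v μ ε D m hV hκ hu huv hlog hs hD hμ hμ1 hε x
  set Q : ℝ := k + 2 * N with hQ
  have hQ1 : k + 1 ≤ Q := by rw [hQ]; linarith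
  have hQ0 : 0 < Q := by linarith
  have hκ0 : 0 < κ := by linarith
  have hε0 : 0 ≤ ε := by rw [hε]; positivity
  have hA0 : 0 < κ / (80 * Q) := by positivity
  rcases le_or_gt ‖R4S u v x‖ (κ / (80 * Q)) with hA | hA
  · have h1 := R10_close (α := 1) hk hQ1 hV hκ0.le (by norm_num) (by linarith) hu huv hlog hs hD x hA
    have h2 := R10_close (α := k / 2) hk hQ1 hV hκ0.le (by linarith) (by linarith) hu huv hlog hs hD x hA
    rw [← hε] at h1 h2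
    have h3 : DS (smo u v (Real.exp (κ * Real.log v))) (fun n => ((LibZM.tau 1 n : ℝ) : ℂ)) x =
        R8ψ u v κ x := by
      unfold R8ψ
      rw [t14_psi, t14A_tr]
    rw [h3, Complex.ofReal_one, one_mul] at h1
    have hre : |(R4P u v x 1).re| ≤ κ / (80 * Q) + 6 * V := by
      have := R4_re_le u v x hA
      linarith
    have h4 := hgood (R4P u v x 1) (R8ψ u v κ x) (R8g k u v κ x)
      (R5h 1 u v (Real.exp (κ * Real.log v)) D x) (R5h (k / 2) u v (Real.exp (κ * Real.log v)) D x)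
      (κ / (80 * Q) + 6 * V) ε μ (by positivity) hre hμ hμ1 hε0 h1 h2
    refine h4.trans (le_add_of_nonneg_right ?_)
    positivity
  · have h1 := R9_crude hk hkN' (R8ψ u v κ x) (R8g k u v κ x)
    have h2 : 1 ≤ ((κ / (80 * Q))⁻¹) ^ (2 * (2 * m)) * ‖R4S u v x‖ ^ (2 * (2 * m)) := by
      rw [← mul_pow]
      apply one_le_pow₀
      rw [inv_mul_eq_div, le_div_iff₀ hA0]
      linarith
    have h3 := R10_amgm (a := ‖R8ψ u v κ x‖ ^ (2 * N)) (b := ‖R8g k u v κ x‖ ^ 2) (by positivity)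
      (by positivity) hμ h2
    have h4 : (‖R8ψ u v κ x‖ ^ (2 * N)) ^ 2 = ‖R8ψ u v κ x‖ ^ (2 * (2 * N)) := by
      rw [← pow_mul]
      congr 1
      ring
    have h5 : (‖R8g k u v κ x‖ ^ 2) ^ 2 = ‖R8g k u v κ x‖ ^ 4 := by
      rw [← pow_mul]
    rw [h4, h5] at h3
    refine (h1.trans h3).trans (le_add_of_nonneg_left ?_)
    positivity

end Pool.Agent.LibMM99
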