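import Mathlib
import Pool.Agent.LibMM99.T04
import Pool.Agent.LibMM99.T09
import Pool.Agent.LibMM99.T10

set_option autoImplicit false

namespace Pool.Agent.LibMM99

open MeasureTheory Filter Topology
open scoped ComplexConjugate

private lemma j01_term (r : ℕ) {p a : ℕ} (hp : p.Prime) (ha : 2 ≤ a) :
    Real.log p * LibZM.dcoef (r : ℝ) a / ((p ^ a : ℕ) : ℝ) ≤
      (8 * (1 / (p : ℝ) ^ (3 / 2 : ℝ))) * (LibZM.dcoef (r : ℝ) a * (1 / 2 : ℝ) ^ a) := by
  have hp2 : (2 : ℝ) ≤ p := by exact_mod_cast hp.two_le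
  have hp0 : (0 : ℝ) < p := by linarith
  have hd : 0 ≤ LibZM.dcoef (r : ℝ) a := LibZM.dcoef_nonneg (Nat.cast_nonneg r) a
  have h1 : Real.log p ≤ 2 * (p : ℝ) ^ (1 / 2 : ℝ) := by
    have := Real.log_le_rpow_div (x := (p : ℝ)) hp0.le (ε := 1 / 2) (by norm_num)
    linarith
  have h2 : (2 / (p : ℝ)) ^ a ≤ (2 / (p : ℝ)) ^ 2 :=
    pow_le_pow_of_le_one (by positivity) (by rw [div_le_one hp0]; exact hp2) ha
  have h3 : ((p : ℝ) ^ a)⁻¹ = (2 / (p : ℝ)) ^ a * (1 / 2 : ℝ) ^ a := by
    rw [← mul_pow, ← inv_pow]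
    congr 1
    field_simp
  have h4 : Real.log p * (2 / (p : ℝ)) ^ 2 ≤ 8 * (1 / (p : ℝ) ^ (3 / 2 : ℝ)) := by
    have e1 : (p : ℝ) ^ (3 / 2 : ℝ) * (p : ℝ) ^ (1 / 2 : ℝ) = (p : ℝ) ^ 2 := by
      rw [← Real.rpow_add hp0]
      norm_num
    have e2 : 0 < (p : ℝ) ^ (3 / 2 : ℝ) := by positivity
    have e3 : 0 < (p : ℝ) ^ (1 / 2 : ℝ) := by positivity
    calc Real.log p * (2 / (p : ℝ)) ^ 2 ≤ (2 * (p : ℝ) ^ (1 / 2 : ℝ)) * (2 / (p : ℝ)) ^ 2 := by gcongr
      _ = 8 * (p : ℝ) ^ (1 / 2 : ℝ) / (p : ℝ) ^ 2 := by ring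
      _ = 8 * (1 / (p : ℝ) ^ (3 / 2 : ℝ)) := by
          rw [← e1]
          field_simp
  rw [Nat.cast_pow, div_eq_mul_inv, h3]
  calc Real.log p * LibZM.dcoef (r : ℝ) a * ((2 / (p : ℝ)) ^ a * (1 / 2 : ℝ) ^ a)
      ≤ Real.log p * LibZM.dcoef (r : ℝ) a * ((2 / (p : ℝ)) ^ 2 * (1 / 2 : ℝ) ^ a) := by
        have := Real.log_natCast_nonneg p
        gcongr
    _ = (Real.log p * (2 / (p : ℝ)) ^ 2) * (LibZM.dcoef (r : ℝ) a * (1 / 2 : ℝ) ^ a) := by ring
    _ ≤ _ := by gcongr

private lemma j01_pp (r : ℕ) (N : ℕ) :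
    ∑ d ∈ (Finset.Icc 1 N).filter (fun d : ℕ => IsPrimePow d ∧ ¬ d.Prime),
      ArithmeticFunction.vonMangoldt d * LibZM.tau (r : ℝ) d / d ≤
      (∑' n : ℕ, 8 * (1 / (n : ℝ) ^ (3 / 2 : ℝ))) * (((1 - (1 / 2 : ℝ)) ^ (r : ℝ))⁻¹) := by
  classical
  have hr : (0 : ℝ) ≤ (r : ℝ) := Nat.cast_nonneg r
  set D := (Finset.Icc 1 N).filter (fun d : ℕ => IsPrimePow d ∧ ¬ d.Prime) with hD
  set φ : ℕ → ℕ × ℕ := fun d => (d.minFac, d.factorization d.minFac) with hφ
  have hmem : ∀ d ∈ D, ∃ p a : ℕ, p.Prime ∧ 2 ≤ a ∧ d = p ^ a ∧ φ d = (p, a) ∧ p ≤ N ∧ a ≤ N := by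
    intro d hd
    rw [hD, Finset.mem_filter, Finset.mem_Icc] at hd
    obtain ⟨⟨h1, h2⟩, h3, h4⟩ := hd
    rw [isPrimePow_nat_iff] at h3
    obtain ⟨p, a, hp, ha, rfl⟩ := h3
    have ha2 : 2 ≤ a := by
      by_contra hc
      have : a = 1 := by omega
      subst this
      exact h4 (by simpa using hp)
    have hm : (p ^ a).minFac = p := by
      rw [hp.pow_minFac (by omega)]
    refine ⟨p, a, hp, ha2, rfl, ?_, ?_, ?_⟩
    · simp only [hφ]
      rw [hm, hp.factorization_pow, Finsupp.single_eq_same]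
    · exact (Nat.le_self_pow (by omega) p).trans h2
    · exact (Nat.lt_pow_self hp.one_lt).le.trans h2
  have hinj : Set.InjOn φ D := by
    intro d hd e he hde
    obtain ⟨p, a, hp, ha, rfl, h1, -, -⟩ := hmem d hd
    obtain ⟨q, b, hq, hb, rfl, h2, -, -⟩ := hmem e he
    rw [h1, h2] at hde
    rw [(Prod.mk.inj hde).1, (Prod.mk.inj hde).2]
  set g1 : ℕ → ℝ := fun n => 8 * (1 / (n : ℝ) ^ (3 / 2 : ℝ)) with hg1
  set g2 : ℕ → ℝ := fun a => LibZM.dcoef (r : ℝ) a * (1 / 2 : ℝ) ^ a with hg2
  have hg1s : Summable g1 := (Real.summable_one_div_nat_rpow.2 (by norm_num)).mul_left 8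
  have hg10 : ∀ n, 0 ≤ g1 n := fun n => by positivity
  have hg20 : ∀ n, 0 ≤ g2 n := fun n => mul_nonneg (LibZM.dcoef_nonneg hr n) (by positivity)
  have h1 : ∑ d ∈ D, ArithmeticFunction.vonMangoldt d * LibZM.tau (r : ℝ) d / d ≤
      ∑ d ∈ D, g1 (φ d).1 * g2 (φ d).2 := by
    apply Finset.sum_le_sum
    intro d hd
    obtain ⟨p, a, hp, ha, rfl, h1, -, -⟩ := hmem d hd
    rw [h1, ArithmeticFunction.vonMangoldt_apply_pow (by omega), ArithmeticFunction.vonMangoldt_apply_prime hp,
      LibZM.tau_prime_pow _ hp]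
    exact j01_term r hp ha
  have h2 : ∑ d ∈ D, g1 (φ d).1 * g2 (φ d).2 = ∑ q ∈ D.image φ, g1 q.1 * g2 q.2 := by
    rw [Finset.sum_image hinj]
  have h3 : ∑ q ∈ D.image φ, g1 q.1 * g2 q.2 ≤
      ∑ q ∈ Finset.range (N + 1) ×ˢ Finset.range (N + 1), g1 q.1 * g2 q.2 := by
    apply Finset.sum_le_sum_of_subset_of_nonneg
    · intro q hq
      rw [Finset.mem_image] at hq
      obtain ⟨d, hd, rfl⟩ := hq
      obtain ⟨p, a, hp, ha, rfl, h1, h2, h3⟩ := hmem d hd
      rw [h1, Finset.mem_product, Finset.mem_range, Finset.mem_range]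
      exact ⟨by simpa using Nat.lt_succ_of_le h2, by simpa using Nat.lt_succ_of_le h3⟩
    · intro q _ _
      exact mul_nonneg (hg10 _) (hg20 _)
  rw [Finset.sum_product, ← Finset.sum_mul_sum] at h3
  refine h1.trans (h2.le.trans (h3.trans ?_))
  apply mul_le_mul
  · exact hg1s.sum_le_tsum _ (fun n _ => hg10 n)
  · exact LibZM.partial_binomial_le' hr _ (by norm_num) (by norm_num)
  · exact Finset.sum_nonneg fun i _ => hg20 i
  · exact tsum_nonneg hg10

/-- prime powers in a multiplicative interval -/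
theorem sum_vonMangoldt_tau_le (r : ℕ) : ∃ C : ℝ, 0 < C ∧ ∀ y c : ℝ, 1 ≤ c →
    ∑ d ∈ (Finset.Icc 1 ⌊y⌋₊).filter (fun d : ℕ => y ≤ c * d),
      ArithmeticFunction.vonMangoldt d * LibZM.tau (r : ℝ) d / d ≤ C * (1 + Real.log c) := by
  classical
  obtain ⟨K, hK0, hK⟩ := LibMaier.mertens_first
  have hr : (0 : ℝ) ≤ (r : ℝ) := Nat.cast_nonneg r
  set Z : ℝ := (∑' n : ℕ, 8 * (1 / (n : ℝ) ^ (3 / 2 : ℝ))) * (((1 - (1 / 2 : ℝ)) ^ (r : ℝ))⁻¹) with hZ
  have hZ0 : 0 ≤ Z := by
    apply mul_nonneg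
    · exact tsum_nonneg fun n => by positivity
    · have : (0 : ℝ) ≤ 1 - 1 / 2 := by norm_num
      positivity
  refine ⟨r * (2 + 2 * K) + Z + 1, by positivity, ?_⟩
  intro y c hc
  have hlc : 0 ≤ Real.log c := Real.log_nonneg hc
  have hnn : ∀ d : ℕ, 0 ≤ ArithmeticFunction.vonMangoldt d * LibZM.tau (r : ℝ) d / d := fun d =>
    div_nonneg (mul_nonneg ArithmeticFunction.vonMangoldt_nonneg (LibZM.tau_nonneg hr d)) (Nat.cast_nonneg d)
  rcases lt_or_ge y 1 with hy | hy
  · rw [Nat.floor_eq_zero.2 hy]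
    simp only [Finset.Icc_eq_empty_of_lt Nat.zero_lt_one, Finset.filter_empty, Finset.sum_empty]
    positivity
  set S := (Finset.Icc 1 ⌊y⌋₊).filter (fun d : ℕ => y ≤ c * d) with hS
  have hsplit : ∑ d ∈ S, ArithmeticFunction.vonMangoldt d * LibZM.tau (r : ℝ) d / d =
      ∑ d ∈ S.filter (fun d => d.Prime), ArithmeticFunction.vonMangoldt d * LibZM.tau (r : ℝ) d / d +
      ∑ d ∈ S.filter (fun d => ¬ d.Prime), ArithmeticFunction.vonMangoldt d * LibZM.tau (r : ℝ) d / d :=
    (Finset.sum_filter_add_sum_filter_not _ _ _).symm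
  have hA : ∑ d ∈ S.filter (fun d => ¬ d.Prime), ArithmeticFunction.vonMangoldt d * LibZM.tau (r : ℝ) d / d ≤ Z := by
    refine le_trans ?_ (j01_pp r ⌊y⌋₊)
    have e1 : ∑ d ∈ S.filter (fun d => ¬ d.Prime), ArithmeticFunction.vonMangoldt d * LibZM.tau (r : ℝ) d / d =
        ∑ d ∈ (S.filter (fun d => ¬ d.Prime)).filter (fun d => IsPrimePow d),
          ArithmeticFunction.vonMangoldt d * LibZM.tau (r : ℝ) d / d := by
      symm
      apply Finset.sum_filter_of_ne
      intro d _ hd
      by_contra hc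
      apply hd
      rw [ArithmeticFunction.vonMangoldt_eq_zero_iff.2 hc]
      simp
    rw [e1]
    apply Finset.sum_le_sum_of_subset_of_nonneg
    · intro d hd
      simp only [hS, Finset.mem_filter] at hd ⊢
      tauto
    · intro d _ _
      exact hnn d
  have hB : ∑ d ∈ S.filter (fun d => d.Prime), ArithmeticFunction.vonMangoldt d * LibZM.tau (r : ℝ) d / d ≤
      r * (1 + Real.log c + 2 * K) := by
    have e1 : ∀ d ∈ S.filter (fun d => d.Prime), ArithmeticFunction.vonMangoldt d * LibZM.tau (r : ℝ) d / d =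
        r * (Real.log d / d) := by
      intro d hd
      have hp := (Finset.mem_filter.1 hd).2
      rw [ArithmeticFunction.vonMangoldt_apply_prime hp]
      have := LibZM.tau_prime_pow (r : ℝ) hp 1
      rw [pow_one, LibZM.dcoef_one_right] at this
      rw [this]
      ring
    rw [Finset.sum_congr rfl e1, ← Finset.mul_sum]
    apply mul_le_mul_of_nonneg_left _ hr
    have hnn2 : ∀ d : ℕ, 0 ≤ Real.log d / d := fun d => div_nonneg (Real.log_natCast_nonneg d) (Nat.cast_nonneg d)
    have hup : LibMaier.TN ⌊y⌋₊ ≤ Real.log y + K := by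
      have := (abs_le.1 (hK y hy)).2
      linarith
    rcases lt_or_ge y (2 * c) with hyc | hyc
    · have h2 : ∑ d ∈ S.filter (fun d => d.Prime), Real.log d / d ≤ LibMaier.TN ⌊y⌋₊ := by
        unfold LibMaier.TN
        apply Finset.sum_le_sum_of_subset_of_nonneg
        · intro d hd
          simp only [hS, Finset.mem_filter, Finset.mem_Icc] at hd
          rw [LibMaier.mem_PN]
          exact ⟨hd.1.1.2, hd.2⟩
        · intro d _ _
          exact hnn2 d
      have h3 : Real.log y ≤ Real.log 2 + Real.log c := by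
        rw [← Real.log_mul (by norm_num) (by linarith)]
        exact Real.log_le_log (by linarith) hyc.le
      have := Real.log_two_lt_d9
      linarith
    · have hc0 : 0 < c := by linarith
      have ht : 1 ≤ y / (2 * c) := by rw [le_div_iff₀ (by positivity)]; linarith
      have hty : y / (2 * c) ≤ y := by
        rw [div_le_iff₀ (by positivity)]
        nlinarith
      have h2 : ∑ d ∈ S.filter (fun d => d.Prime), Real.log d / d + LibMaier.TN ⌊y / (2 * c)⌋₊ ≤
          LibMaier.TN ⌊y⌋₊ := by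
        unfold LibMaier.TN
        rw [← Finset.sum_union]
        · apply Finset.sum_le_sum_of_subset_of_nonneg
          · intro d hd
            rw [Finset.mem_union] at hd
            rw [LibMaier.mem_PN]
            rcases hd with hd | hd
            · simp only [hS, Finset.mem_filter, Finset.mem_Icc] at hd
              exact ⟨hd.1.1.2, hd.2⟩
            · rw [LibMaier.mem_PN] at hd
              exact ⟨hd.1.trans (Nat.floor_mono hty), hd.2⟩
          · intro d _ _
            exact hnn2 d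
        · rw [Finset.disjoint_left]
          intro d hd hd2
          simp only [hS, Finset.mem_filter, Finset.mem_Icc] at hd
          rw [LibMaier.mem_PN] at hd2
          have h3 : (d : ℝ) ≤ y / (2 * c) := (Nat.le_floor_iff (by linarith)).1 hd2.1
          have h4 := hd.1.2
          rw [le_div_iff₀ (by positivity)] at h3
          have h5 : (0 : ℝ) < d := by exact_mod_cast hd.2.pos
          nlinarith
      have h3 := (abs_le.1 (hK _ ht)).1
      have h4 : Real.log (y / (2 * c)) = Real.log y - (Real.log 2 + Real.log c) := by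
        rw [Real.log_div (by linarith) (by positivity), Real.log_mul (by norm_num) (by linarith)]
      rw [h4] at h3
      have := Real.log_two_lt_d9
      linarith
  rw [hsplit]
  have h9 : (r : ℝ) * (1 + Real.log c + 2 * K) ≤ (r * (2 + 2 * K)) * (1 + Real.log c) := by
    have : 1 + Real.log c + 2 * K ≤ (2 + 2 * K) * (1 + Real.log c) := by nlinarith [mul_nonneg hK0.le hlc]
    nlinarith
  have h10 : Z ≤ Z * (1 + Real.log c) := by nlinarith [mul_nonneg hZ0 hlc]
  nlinarith

private lemma j01_mem_smo {u v X : ℝ} {n : ℕ} : n ∈ smo u v X ↔ (1 ≤ n ∧ n ≤ ⌊X⌋₊) ∧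
    ∀ p ∈ n.primeFactors, u < (p : ℝ) ∧ (p : ℝ) ≤ v := by
  unfold smo
  rw [Finset.mem_filter, Finset.mem_Icc]

/-- the sum of `d_r(n)/n` over the smooth (or rough) numbers in a multiplicative interval -/
theorem sum_smo_tau_cross (r : ℕ) : ∃ C : ℝ, 0 < C ∧ ∀ u v x c : ℝ, Real.sqrt 2 ≤ u → u ≤ v → 1 ≤ c → 1 < x →
    ∑ n ∈ (smo u v x).filter (fun n : ℕ => x ≤ c * n), LibZM.tau (r : ℝ) n / n ≤
      C * ((1 + Real.log c) / Real.log x) * (Real.log v / Real.log u) ^ r := by
  classical
  obtain ⟨C1, hC1, h1⟩ := sum_vonMangoldt_tau_le r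
  obtain ⟨C2, hC2, h2⟩ := sum_smo_tau_le r
  have hr : (0 : ℝ) ≤ (r : ℝ) := Nat.cast_nonneg r
  refine ⟨1 + 2 * C2 + 2 * C1 * C2, by positivity, ?_⟩
  intro u v x c hu huv hc hx
  have hlc : 0 ≤ Real.log c := Real.log_nonneg hc
  have hlx : 0 < Real.log x := Real.log_pos hx
  have hs2 : (1 : ℝ) < Real.sqrt 2 := by
    rw [Real.lt_sqrt (by norm_num)]; norm_num
  have hlu : 0 < Real.log u := Real.log_pos (by linarith)
  have hlv : 0 < Real.log v := Real.log_pos (by linarith)
  have hq1 : 1 ≤ Real.log v / Real.log u := by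
    rw [one_le_div hlu]
    exact Real.log_le_log (by linarith) huv
  have hQ1 : 1 ≤ (Real.log v / Real.log u) ^ r := one_le_pow₀ hq1
  set Q := (Real.log v / Real.log u) ^ r with hQ
  have hQ0 : 0 < Q := by linarith
  have hτ0 : ∀ n : ℕ, 0 ≤ LibZM.tau (r : ℝ) n / n := fun n =>
    div_nonneg (LibZM.tau_nonneg hr n) (Nat.cast_nonneg n)
  -- total mass
  have hT : ∑ n ∈ smo u v x, LibZM.tau (r : ℝ) n / n ≤ C2 * Q := by
    have := h2 u v x 0 hu huv le_rfl (by norm_num)
    refine le_trans (le_of_eq ?_) this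
    refine Finset.sum_congr rfl fun n _ => ?_
    rw [zero_sub, Real.rpow_neg_one, div_eq_mul_inv]
  have hE0 : 0 ≤ (1 + Real.log c) / Real.log x := by positivity
  rcases Nat.eq_zero_or_pos r with hr0 | hr0
  · -- r = 0
    subst hr0
    have h3 : ∑ n ∈ (smo u v x).filter (fun n : ℕ => x ≤ c * n), LibZM.tau ((0 : ℕ) : ℝ) n / n ≤
        if x ≤ c then 1 else 0 := by
      have e : ∀ n ∈ (smo u v x).filter (fun n : ℕ => x ≤ c * n), LibZM.tau ((0 : ℕ) : ℝ) n / n =
          if n = 1 then (1 : ℝ) else 0 := by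
        intro n _
        rw [Nat.cast_zero, LibZM.tau_zero_eq, ArithmeticFunction.one_apply]
        split_ifs with h
        · rw [h]; norm_num
        · simp
      rw [Finset.sum_congr rfl e, Finset.sum_ite_eq']
      split_ifs with h4 h5 h5
      · exact le_rfl
      · exfalso
        rw [Finset.mem_filter] at h4
        apply h5
        simpa using h4.2
      · norm_num
      · exact le_rfl
    refine h3.trans ?_
    split_ifs with h5
    · have h6 : Real.log x ≤ Real.log c := Real.log_le_log (by linarith) h5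
      have h7 : 1 ≤ (1 + Real.log c) / Real.log x := by
        rw [one_le_div hlx]
        linarith
      have h8 : (1 : ℝ) ≤ (1 + 2 * C2 + 2 * C1 * C2) * ((1 + Real.log c) / Real.log x) := by
        have : (1 : ℝ) ≤ 1 + 2 * C2 + 2 * C1 * C2 := by nlinarith [mul_pos hC1 hC2]
        nlinarith
      nlinarith
    · positivity
  · have hr1 : (1 : ℝ) ≤ (r : ℝ) := by exact_mod_cast hr0
    rcases le_or_gt (Real.log x) (2 * (1 + Real.log c)) with hcase | hcase
    · have h3 : ∑ n ∈ (smo u v x).filter (fun n : ℕ => x ≤ c * n), LibZM.tau (r : ℝ) n / n ≤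
          C2 * Q := by
        refine le_trans ?_ hT
        apply Finset.sum_le_sum_of_subset_of_nonneg (Finset.filter_subset _ _)
        intro n _ _
        exact hτ0 n
      refine h3.trans ?_
      apply mul_le_mul_of_nonneg_right _ hQ0.le
      have h4 : 1 ≤ 2 * ((1 + Real.log c) / Real.log x) := by
        rw [← mul_div_assoc, one_le_div hlx]
        exact hcase
      have h5 : C2 ≤ 2 * C2 * ((1 + Real.log c) / Real.log x) := by nlinarith
      have h6 : 0 ≤ (1 + 2 * C1 * C2) * ((1 + Real.log c) / Real.log x) := by positivity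
      nlinarith
    · -- main case
      set F : ℕ × ℕ → ℝ := fun q => (ArithmeticFunction.vonMangoldt q.1 * LibZM.tau (r : ℝ) q.1 / q.1) *
        (LibZM.tau (r : ℝ) q.2 / q.2) with hF
      have hF0 : ∀ q, 0 ≤ F q := fun q => mul_nonneg
        (div_nonneg (mul_nonneg ArithmeticFunction.vonMangoldt_nonneg (LibZM.tau_nonneg hr _)) (Nat.cast_nonneg _))
        (hτ0 _)
      have hc0 : 0 < c := by linarith
      have hx0 : 0 < x := by linarith
      set S := (smo u v x).filter (fun n : ℕ => x ≤ c * n) with hS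
      have hstep : ∀ n ∈ S, LibZM.tau (r : ℝ) n / n ≤ (2 / Real.log x) * ∑ q ∈ n.divisorsAntidiagonal, F q := by
        intro n hn
        rw [hS, Finset.mem_filter, j01_mem_smo] at hn
        have hn1 : 1 ≤ n := hn.1.1.1
        have hn0 : n ≠ 0 := by omega
        have hnR : (0 : ℝ) < n := by exact_mod_cast hn1
        have hlog : Real.log x - Real.log c ≤ Real.log n := by
          have : Real.log x ≤ Real.log (c * n) := Real.log_le_log hx0 hn.2
          rw [Real.log_mul hc0.ne' hnR.ne'] at this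
          linarith
        have h3 : 1 ≤ (2 / Real.log x) * Real.log n := by
          rw [div_mul_eq_mul_div, one_le_div hlx]
          linarith
        have h4 : LibZM.tau (r : ℝ) n / n * Real.log n ≤ ∑ q ∈ n.divisorsAntidiagonal, F q := by
          rw [← ArithmeticFunction.vonMangoldt_sum, Finset.mul_sum,
            ← Nat.sum_divisorsAntidiagonal (fun d _ => LibZM.tau (r : ℝ) n / n * ArithmeticFunction.vonMangoldt d)]
          apply Finset.sum_le_sum
          intro q hq
          rw [Nat.mem_divisorsAntidiagonal] at hq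
          have hq1 : q.1 ≠ 0 := by
            rintro h
            rw [h, zero_mul] at hq
            exact hn0 hq.1.symm
          have hq2 : q.2 ≠ 0 := by
            rintro h
            rw [h, mul_zero] at hq
            exact hn0 hq.1.symm
          have h5 : LibZM.tau (r : ℝ) n ≤ LibZM.tau (r : ℝ) q.1 * LibZM.tau (r : ℝ) q.2 := by
            rw [← hq.1]
            exact tau_mul_le hr1 _ _
          have h6 : (n : ℝ) = q.1 * q.2 := by
            rw [← hq.1]; push_cast; ring
          simp only [hF]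
          have h7 : (0 : ℝ) < q.1 := by exact_mod_cast Nat.pos_of_ne_zero hq1
          have h8 : (0 : ℝ) < q.2 := by exact_mod_cast Nat.pos_of_ne_zero hq2
          have hv0 : 0 ≤ ArithmeticFunction.vonMangoldt q.1 := ArithmeticFunction.vonMangoldt_nonneg
          calc LibZM.tau (r : ℝ) n / n * ArithmeticFunction.vonMangoldt q.1
              ≤ (LibZM.tau (r : ℝ) q.1 * LibZM.tau (r : ℝ) q.2) / n * ArithmeticFunction.vonMangoldt q.1 := by
                gcongr
            _ = _ := by
                rw [h6]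
                field_simp
        calc LibZM.tau (r : ℝ) n / n ≤ LibZM.tau (r : ℝ) n / n * ((2 / Real.log x) * Real.log n) :=
              le_mul_of_one_le_right (hτ0 n) h3
          _ = (2 / Real.log x) * (LibZM.tau (r : ℝ) n / n * Real.log n) := by ring
          _ ≤ _ := by
              apply mul_le_mul_of_nonneg_left h4
              positivity
      have h5 : ∑ n ∈ S, LibZM.tau (r : ℝ) n / n ≤
          (2 / Real.log x) * ∑ n ∈ S, ∑ q ∈ n.divisorsAntidiagonal, F q := by
        rw [Finset.mul_sum]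
        exact Finset.sum_le_sum hstep
      have h6 : ∑ n ∈ S, ∑ q ∈ n.divisorsAntidiagonal, F q = ∑ q ∈ S.biUnion (fun n => n.divisorsAntidiagonal), F q := by
        rw [Finset.sum_biUnion]
        intro n _ m _ hnm
        rw [Function.onFun, Finset.disjoint_left]
        intro q hq hq2
        rw [Nat.mem_divisorsAntidiagonal] at hq hq2
        exact hnm (hq.1.symm.trans hq2.1)
      have h7 : ∑ q ∈ S.biUnion (fun n => n.divisorsAntidiagonal), F q ≤
          ∑ q ∈ (Finset.Icc 1 ⌊x⌋₊ ×ˢ smo u v x).filter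
            (fun q => q.1 ≤ ⌊x / (q.2 : ℝ)⌋₊ ∧ x / (q.2 : ℝ) ≤ c * q.1), F q := by
        apply Finset.sum_le_sum_of_subset_of_nonneg
        · intro q hq
          rw [Finset.mem_biUnion] at hq
          obtain ⟨n, hn, hq⟩ := hq
          rw [Nat.mem_divisorsAntidiagonal] at hq
          rw [hS, Finset.mem_filter, j01_mem_smo] at hn
          obtain ⟨⟨⟨hn1, hn2⟩, hn3⟩, hn4⟩ := hn
          have hn0 : n ≠ 0 := by omega
          have hq1 : q.1 ≠ 0 := by
            rintro h
            rw [h, zero_mul] at hq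
            exact hn0 hq.1.symm
          have hq2 : q.2 ≠ 0 := by
            rintro h
            rw [h, mul_zero] at hq
            exact hn0 hq.1.symm
          have hle1 : q.1 ≤ n := Nat.le_of_dvd (by omega) ⟨q.2, hq.1.symm⟩
          have hle2 : q.2 ≤ n := Nat.le_of_dvd (by omega) ⟨q.1, by rw [mul_comm]; exact hq.1.symm⟩
          have hcast : (n : ℝ) = q.1 * q.2 := by
            rw [← hq.1]; push_cast; ring
          have h7 : (0 : ℝ) < q.1 := by exact_mod_cast Nat.pos_of_ne_zero hq1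
          have h8 : (0 : ℝ) < q.2 := by exact_mod_cast Nat.pos_of_ne_zero hq2
          have hnx : (n : ℝ) ≤ x := (Nat.le_floor_iff hx0.le).1 hn2
          rw [Finset.mem_filter, Finset.mem_product, Finset.mem_Icc, j01_mem_smo]
          refine ⟨⟨⟨by omega, hle1.trans hn2⟩, ⟨⟨by omega, hle2.trans hn2⟩, ?_⟩⟩, ?_, ?_⟩
          · intro p hp
            apply hn3
            exact Nat.primeFactors_mono ⟨q.1, by rw [mul_comm]; exact hq.1.symm⟩ hn0 hp
          · apply Nat.le_floor
            rw [le_div_iff₀ h8, ← hcast]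
            exact hnx
          · rw [div_le_iff₀ h8, mul_assoc, ← hcast]
            exact hn4
        · intro q _ _
          exact hF0 q
      have h8 : ∑ q ∈ (Finset.Icc 1 ⌊x⌋₊ ×ˢ smo u v x).filter
            (fun q => q.1 ≤ ⌊x / (q.2 : ℝ)⌋₊ ∧ x / (q.2 : ℝ) ≤ c * q.1), F q ≤
          ∑ m ∈ smo u v x, (C1 * (1 + Real.log c)) * (LibZM.tau (r : ℝ) m / m) := by
        rw [Finset.sum_filter, Finset.sum_product_right]
        apply Finset.sum_le_sum
        intro m _
        rw [← Finset.sum_filter]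
        simp only [hF]
        rw [← Finset.sum_mul]
        apply mul_le_mul_of_nonneg_right _ (hτ0 m)
        refine le_trans ?_ (h1 (x / m) c hc)
        apply Finset.sum_le_sum_of_subset_of_nonneg
        · intro d hd
          simp only [Finset.mem_filter, Finset.mem_Icc] at hd ⊢
          exact ⟨⟨hd.1.1, hd.2.1⟩, hd.2.2⟩
        · intro d _ _
          exact div_nonneg (mul_nonneg ArithmeticFunction.vonMangoldt_nonneg (LibZM.tau_nonneg hr _)) (Nat.cast_nonneg _)
      rw [← Finset.mul_sum] at h8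
      have h9 : ∑ n ∈ S, LibZM.tau (r : ℝ) n / n ≤
          (2 / Real.log x) * ((C1 * (1 + Real.log c)) * (C2 * Q)) := by
        refine h5.trans ?_
        apply mul_le_mul_of_nonneg_left _ (by positivity)
        rw [h6]
        refine h7.trans (h8.trans ?_)
        exact mul_le_mul_of_nonneg_left hT (by positivity)
      refine h9.trans ?_
      have h10 : (2 / Real.log x) * ((C1 * (1 + Real.log c)) * (C2 * Q)) =
          (2 * C1 * C2) * ((1 + Real.log c) / Real.log x) * Q := by ring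
      rw [h10]
      apply mul_le_mul_of_nonneg_right _ hQ0.le
      apply mul_le_mul_of_nonneg_right _ hE0
      nlinarith

end Pool.Agent.LibMM99
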