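import Mathlib
import Pool.Agent.LibMM99.T16
import Pool.Agent.LibMM99.J01

set_option autoImplicit false

namespace Pool.Agent.LibMM99

open MeasureTheory Filter Topology
open scoped ComplexConjugate

/-- nonincreasing weights equal to one up to `1/2` and to zero beyond `1`; a jump at `1` is allowed -/
structure IsMono (w : ℝ → ℝ) : Prop where
  anti : Antitone w
  one : ∀ u, u ≤ 1 / 2 → w u = 1
  supp : ∀ u, 1 < u → w u = 0

theorem j02_nonneg {w : ℝ → ℝ} (hw : IsMono w) (x : ℝ) : 0 ≤ w x := by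
  rw [← hw.supp (max x 1 + 1) (by have := le_max_right x 1; linarith)]
  apply hw.anti
  have := le_max_left x 1
  linarith

theorem j02_le_one {w : ℝ → ℝ} (hw : IsMono w) (x : ℝ) : w x ≤ 1 := by
  rw [← hw.one (min x (1 / 2)) (min_le_right _ _)]
  exact hw.anti (min_le_left _ _)

theorem j02_tele (g : ℕ → ℝ) (M : ℕ) :
    ∑ i ∈ Finset.range M, (g i - g (i + 2)) = g 0 + g 1 - g M - g (M + 1) := by
  induction M with
  | zero => simp
  | succ M ih =>
    rw [Finset.sum_range_succ, ih]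
    ring

theorem j02_block {w : ℝ → ℝ} (hw : IsMono w) {al : ℝ} (hal : 0 < al) (M : ℕ)
    (hM : 1 < 1 / 2 - al + M * al) (x : ℝ) (hx1 : x ≤ 1) (hD : 0 < w x - w (x + al)) :
    ∃ i < M, 1 / 2 - al + i * al ≤ x ∧ x ≤ 1 / 2 - al + (i + 1 : ℕ) * al ∧
      w x - w (x + al) ≤ w (1 / 2 - al + i * al) - w (1 / 2 - al + (i + 2 : ℕ) * al) := by
  have hx0 : 1 / 2 - al ≤ x := by
    by_contra h
    push Not at h
    rw [hw.one x (by linarith), hw.one (x + al) (by linarith)] at hD
    linarith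
  have h0 : 0 ≤ (x - (1 / 2 - al)) / al := div_nonneg (by linarith) hal.le
  have h1 := Nat.floor_le h0
  have h2 := Nat.lt_floor_add_one ((x - (1 / 2 - al)) / al)
  obtain ⟨i, hi⟩ : ∃ i, i = ⌊(x - (1 / 2 - al)) / al⌋₊ := ⟨_, rfl⟩
  rw [← hi] at h1 h2
  rw [le_div_iff₀ hal] at h1
  rw [div_lt_iff₀ hal] at h2
  refine ⟨i, ?_, by linarith, by push_cast; linarith, ?_⟩
  · by_contra h
    push Not at h
    have h3 : (M : ℝ) * al ≤ i * al := by
      apply mul_le_mul_of_nonneg_right _ hal.le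
      exact_mod_cast h
    linarith
  · have h3 : w x ≤ w (1 / 2 - al + i * al) := hw.anti (by linarith)
    have h4 : w (1 / 2 - al + (i + 2 : ℕ) * al) ≤ w (x + al) := by
      apply hw.anti
      push_cast
      linarith
    linarith

/-- the key estimate: mass of the crossings -/
theorem mono_sum_le (r : ℕ) : ∃ C : ℝ, 1 ≤ C ∧ ∀ w : ℝ → ℝ, IsMono w → ∀ u v L c : ℝ, Real.sqrt 2 ≤ u → u ≤ v →
    0 < L → 1 ≤ c → (c = 1 ∨ 2 ≤ c) →
    ∑ n ∈ smo u v (Real.exp L), (w (Real.log n / L) - w (Real.log (c * n) / L)) * (LibZM.tau (r : ℝ) n / n) ≤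
      C * (Real.log c / L) * (Real.log v / Real.log u) ^ r := by
  classical
  obtain ⟨C1, hC1, hT10⟩ := sum_smo_tau_le r
  obtain ⟨C2, hC2, hJ⟩ := sum_smo_tau_cross r
  refine ⟨max 1 (4 * C1 + 12 * C2), le_max_left _ _, ?_⟩
  intro w hw u v L c hu huv hL hc1 hc
  have hs2 : (1 : ℝ) < Real.sqrt 2 := by
    rw [show (1 : ℝ) = Real.sqrt 1 by simp]
    exact Real.sqrt_lt_sqrt (by norm_num) (by norm_num)
  have hu1 : 1 < u := lt_of_lt_of_le hs2 hu
  have hv1 : 1 < v := lt_of_lt_of_le hu1 huv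
  have hR : 0 ≤ (Real.log v / Real.log u) ^ r :=
    pow_nonneg (div_nonneg (Real.log_pos hv1).le (Real.log_pos hu1).le) r
  have hf0 : ∀ n : ℕ, 0 ≤ LibZM.tau (r : ℝ) n / n := fun n =>
    div_nonneg (LibZM.tau_nonneg (Nat.cast_nonneg r) n) (Nat.cast_nonneg n)
  have hlc0 : 0 ≤ Real.log c := Real.log_nonneg hc1
  have hCC : 4 * C1 + 12 * C2 ≤ max 1 (4 * C1 + 12 * C2) := le_max_right _ _
  rcases hc with rfl | hc2
  · rw [Real.log_one, zero_div, mul_zero, zero_mul]
    refine le_of_eq (Finset.sum_eq_zero fun n _ => ?_)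
    rw [one_mul, sub_self, zero_mul]
  set al : ℝ := Real.log c / L with hal
  have hlc : 0 < Real.log c := Real.log_pos (by linarith)
  have hal0 : 0 < al := div_pos hlc hL
  have hlog : ∀ n ∈ smo u v (Real.exp L), Real.log (c * n) / L = Real.log n / L + al := by
    intro n hn
    have h1 : 1 ≤ n := ((t16_mem_smo (Real.exp_pos L).le).1 hn).1
    have h2 : (n : ℝ) ≠ 0 := by
      have : (0 : ℝ) < n := by exact_mod_cast h1
      exact this.ne'
    rw [Real.log_mul (by linarith) h2, add_div, hal, add_comm]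
  have hx1 : ∀ n ∈ smo u v (Real.exp L), Real.log n / L ≤ 1 := by
    intro n hn
    obtain ⟨h1, h2, -⟩ := (t16_mem_smo (Real.exp_pos L).le).1 hn
    rw [div_le_one hL]
    have : (0 : ℝ) < n := by exact_mod_cast h1
    rw [Real.log_le_iff_le_exp this]
    exact h2
  have hsum0 : ∑ n ∈ smo u v (Real.exp L), LibZM.tau (r : ℝ) n / n ≤
      C1 * (Real.log v / Real.log u) ^ r := by
    have h := hT10 u v (Real.exp L) 0 hu huv le_rfl (by norm_num)
    refine le_trans (le_of_eq ?_) h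
    refine Finset.sum_congr rfl fun n _ => ?_
    rw [zero_sub, Real.rpow_neg_one, div_eq_mul_inv]
  rcases le_or_gt (1 / 4) al with hbig | hsmall
  · calc ∑ n ∈ smo u v (Real.exp L),
          (w (Real.log n / L) - w (Real.log (c * n) / L)) * (LibZM.tau (r : ℝ) n / n)
        ≤ ∑ n ∈ smo u v (Real.exp L), 1 * (LibZM.tau (r : ℝ) n / n) := by
          refine Finset.sum_le_sum fun n _ => mul_le_mul_of_nonneg_right ?_ (hf0 n)
          have h1 := j02_le_one hw (Real.log n / L)
          have h2 := j02_nonneg hw (Real.log (c * n) / L)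
          linarith
      _ ≤ C1 * (Real.log v / Real.log u) ^ r := by simpa using hsum0
      _ = (C1 * 1) * (Real.log v / Real.log u) ^ r := by rw [mul_one]
      _ ≤ (C1 * (4 * al)) * (Real.log v / Real.log u) ^ r := by
          gcongr
          linarith
      _ ≤ (max 1 (4 * C1 + 12 * C2) * al) * (Real.log v / Real.log u) ^ r := by
          refine mul_le_mul_of_nonneg_right ?_ hR
          have h3 : C1 * (4 * al) = (4 * C1) * al := by ring
          rw [h3]
          exact mul_le_mul_of_nonneg_right (by linarith) hal0.le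
  · obtain ⟨M, hM⟩ : ∃ M : ℕ, 1 < 1 / 2 - al + M * al := by
      obtain ⟨M, hM⟩ := exists_nat_gt ((1 / 2 + al) / al)
      refine ⟨M, ?_⟩
      rw [div_lt_iff₀ hal0] at hM
      linarith
    set g : ℕ → ℝ := fun i => w (1 / 2 - al + i * al) with hg
    have hg0 : ∀ i, 0 ≤ g i - g (i + 2) := by
      intro i
      rw [sub_nonneg]
      apply hw.anti
      have : (i : ℝ) * al ≤ ((i + 2 : ℕ) : ℝ) * al := by
        apply mul_le_mul_of_nonneg_right _ hal0.le
        push_cast; linarith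
      linarith
    set B : ℕ → Finset ℕ := fun i => (smo u v (Real.exp L)).filter
      (fun n : ℕ => 1 / 2 - al + i * al ≤ Real.log n / L ∧
        Real.log n / L ≤ 1 / 2 - al + (i + 1 : ℕ) * al) with hB
    have hmass : ∀ i, ∑ n ∈ B i, LibZM.tau (r : ℝ) n / n ≤
        6 * C2 * al * (Real.log v / Real.log u) ^ r := by
      intro i
      set y : ℝ := Real.exp ((1 / 2 - al + (i + 1 : ℕ) * al) * L) with hy
      have hexp0 : 1 / 2 ≤ 1 / 2 - al + (i + 1 : ℕ) * al := by
        push_cast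
        have : 0 ≤ (i : ℝ) * al := by positivity
        linarith
      have hy1 : 1 < y := by
        rw [hy]
        apply Real.one_lt_exp_iff.2
        apply mul_pos _ hL
        linarith
      have hcL : c = Real.exp (al * L) := by
        rw [hal, div_mul_cancel₀ _ hL.ne', Real.exp_log (by linarith)]
      have hsub : B i ⊆ (smo u v y).filter (fun n : ℕ => y ≤ c * n) := by
        intro n hn
        rw [hB, Finset.mem_filter, t16_mem_smo (Real.exp_pos L).le] at hn
        obtain ⟨⟨h1, h2, h3⟩, h4, h5⟩ := hn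
        have hn0 : (0 : ℝ) < n := by exact_mod_cast h1
        rw [Finset.mem_filter, t16_mem_smo (Real.exp_pos _).le]
        rw [le_div_iff₀ hL] at h4
        rw [div_le_iff₀ hL] at h5
        refine ⟨⟨h1, ?_, h3⟩, ?_⟩
        · exact (Real.log_le_iff_le_exp hn0).1 h5
        · have h6 : Real.exp ((1 / 2 - al + i * al) * L) ≤ n :=
            (Real.le_log_iff_exp_le hn0).1 h4
          calc y = Real.exp (al * L) * Real.exp ((1 / 2 - al + i * al) * L) := by
                rw [hy, ← Real.exp_add]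
                congr 1
                push_cast
                ring
            _ ≤ Real.exp (al * L) * n := by gcongr
            _ = c * n := by rw [← hcL]
      have hylog : Real.log y = (1 / 2 - al + (i + 1 : ℕ) * al) * L := by
        rw [hy, Real.log_exp]
      have hlog2 : (0.69 : ℝ) < Real.log 2 := by
        have := Real.log_two_gt_d9
        linarith
      have hlc2 : Real.log 2 ≤ Real.log c := Real.log_le_log (by norm_num) hc2
      calc ∑ n ∈ B i, LibZM.tau (r : ℝ) n / n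
          ≤ ∑ n ∈ (smo u v y).filter (fun n : ℕ => y ≤ c * n), LibZM.tau (r : ℝ) n / n :=
            Finset.sum_le_sum_of_subset_of_nonneg hsub fun n _ _ => hf0 n
        _ ≤ C2 * ((1 + Real.log c) / Real.log y) * (Real.log v / Real.log u) ^ r :=
            hJ u v y c hu huv hc1 hy1
        _ ≤ C2 * (6 * al) * (Real.log v / Real.log u) ^ r := by
            refine mul_le_mul_of_nonneg_right (mul_le_mul_of_nonneg_left ?_ hC2.le) hR
            rw [hylog]
            calc (1 + Real.log c) / ((1 / 2 - al + (i + 1 : ℕ) * al) * L)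
                ≤ (3 * Real.log c) / (1 / 2 * L) := by
                  gcongr
                  linarith
              _ = 6 * al := by
                  rw [hal]
                  field_simp
                  ring
        _ = 6 * C2 * al * (Real.log v / Real.log u) ^ r := by ring
    have hpt : ∀ n ∈ smo u v (Real.exp L),
        (w (Real.log n / L) - w (Real.log (c * n) / L)) * (LibZM.tau (r : ℝ) n / n) ≤
        ∑ i ∈ Finset.range M, if n ∈ B i then (g i - g (i + 2)) * (LibZM.tau (r : ℝ) n / n)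
          else 0 := by
      intro n hn
      rw [hlog n hn]
      have hnn : ∀ i ∈ Finset.range M, 0 ≤ if n ∈ B i then
          (g i - g (i + 2)) * (LibZM.tau (r : ℝ) n / n) else 0 := by
        intro i _
        split_ifs
        · exact mul_nonneg (hg0 i) (hf0 n)
        · exact le_rfl
      rcases le_or_gt (w (Real.log n / L) - w (Real.log n / L + al)) 0 with h | h
      · exact (mul_nonpos_of_nonpos_of_nonneg h (hf0 n)).trans (Finset.sum_nonneg hnn)
      · obtain ⟨i, hi, h1, h2, h3⟩ := j02_block hw hal0 M hM _ (hx1 n hn) h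
        have hmem : n ∈ B i := by
          rw [hB, Finset.mem_filter]
          exact ⟨hn, h1, h2⟩
        refine le_trans ?_ (Finset.single_le_sum hnn (Finset.mem_range.2 hi))
        rw [if_pos hmem]
        exact mul_le_mul_of_nonneg_right h3 (hf0 n)
    calc ∑ n ∈ smo u v (Real.exp L),
          (w (Real.log n / L) - w (Real.log (c * n) / L)) * (LibZM.tau (r : ℝ) n / n)
        ≤ ∑ n ∈ smo u v (Real.exp L), ∑ i ∈ Finset.range M,
            (if n ∈ B i then (g i - g (i + 2)) * (LibZM.tau (r : ℝ) n / n) else 0) :=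
          Finset.sum_le_sum hpt
      _ = ∑ i ∈ Finset.range M, (g i - g (i + 2)) * ∑ n ∈ B i, LibZM.tau (r : ℝ) n / n := by
          rw [Finset.sum_comm]
          refine Finset.sum_congr rfl fun i _ => ?_
          rw [← Finset.sum_filter, Finset.mul_sum]
          congr 1
          ext n
          rw [Finset.mem_filter]
          constructor
          · exact fun h => h.2
          · exact fun h => ⟨(Finset.mem_filter.1 h).1, h⟩
      _ ≤ ∑ i ∈ Finset.range M, (g i - g (i + 2)) *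
            (6 * C2 * al * (Real.log v / Real.log u) ^ r) :=
          Finset.sum_le_sum fun i _ => mul_le_mul_of_nonneg_left (hmass i) (hg0 i)
      _ = (g 0 + g 1 - g M - g (M + 1)) * (6 * C2 * al * (Real.log v / Real.log u) ^ r) := by
          rw [← Finset.sum_mul, j02_tele]
      _ ≤ 2 * (6 * C2 * al * (Real.log v / Real.log u) ^ r) := by
          refine mul_le_mul_of_nonneg_right ?_ (by positivity)
          have h1 := j02_le_one hw (1 / 2 - al + (0 : ℕ) * al)
          have h2 := j02_le_one hw (1 / 2 - al + (1 : ℕ) * al)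
          have h3 := j02_nonneg hw (1 / 2 - al + (M : ℕ) * al)
          have h4 := j02_nonneg hw (1 / 2 - al + (M + 1 : ℕ) * al)
          simp only [hg]
          linarith
      _ = (12 * C2) * al * (Real.log v / Real.log u) ^ r := by ring
      _ ≤ max 1 (4 * C1 + 12 * C2) * al * (Real.log v / Real.log u) ^ r := by
          refine mul_le_mul_of_nonneg_right (mul_le_mul_of_nonneg_right ?_ hal0.le) hR
          linarith

theorem j02_expand {u t v X L : ℝ} {w : ℝ → ℂ} (hw : ∀ x, 1 < x → w x = 0) (hL : 0 < L)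
    (hX : 0 ≤ X) (hut : u ≤ t) (htv : t ≤ v) (x : Om) :
    DS (smo u t X) (fun _ => 1) x * DS (smo t v (Real.exp L)) (fun n => w (Real.log n / L)) x -
      DS (smo u v (Real.exp L)) (fun n => w (Real.log n / L)) x =
    ∑ q ∈ t16_s u t v (max X (Real.exp L)) (Real.exp L),
      t16_a w L X q * (((Real.sqrt ((q.1 * q.2 : ℕ) : ℝ))⁻¹ : ℝ) : ℂ) * ch x (q.1 * q.2) := by
  classical
  have hE : 0 ≤ Real.exp L := (Real.exp_pos L).le
  set Y := max X (Real.exp L) with hY
  have hY0 : 0 ≤ Y := hX.trans (le_max_left _ _)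
  set s := t16_s u t v Y (Real.exp L) with hs
  have hs0 : ∀ q ∈ s, q.1 ≠ 0 ∧ q.2 ≠ 0 := by
    intro q hq
    rw [hs] at hq
    unfold t16_s at hq
    rw [Finset.mem_product, t16_mem_smo hY0, t16_mem_smo hE] at hq
    obtain ⟨⟨h1, -⟩, ⟨h2, -⟩⟩ := hq
    exact ⟨by omega, by omega⟩
  have h1 : DS (smo u t X) (fun _ => 1) x *
      DS (smo t v (Real.exp L)) (fun n => w (Real.log n / L)) x =
      ∑ q ∈ s, (if (q.1 : ℝ) ≤ X then w (Real.log q.2 / L) else 0) * t16_f x (q.1 * q.2) := by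
    rw [t16_DS, t16_DS]
    have h2 : smo u t X = (smo u t Y).filter (fun c : ℕ => (c : ℝ) ≤ X) := by
      ext c
      rw [Finset.mem_filter, t16_mem_smo hX, t16_mem_smo hY0]
      constructor
      · rintro ⟨a1, a2, a3⟩
        exact ⟨⟨a1, a2.trans (le_max_left _ _), a3⟩, a2⟩
      · rintro ⟨⟨a1, -, a3⟩, a2⟩
        exact ⟨a1, a2, a3⟩
    rw [h2, Finset.sum_filter, Finset.sum_mul_sum, hs]
    unfold t16_s
    rw [Finset.sum_product]
    refine Finset.sum_congr rfl fun c hc => Finset.sum_congr rfl fun m hm => ?_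
    have hq := hs0 (c, m) (by rw [hs]; exact Finset.mem_product.2 ⟨hc, hm⟩)
    simp only at hq ⊢
    rw [t16_f_mul x hq.1 hq.2]
    split_ifs <;> ring
  have h3 : DS (smo u v (Real.exp L)) (fun n => w (Real.log n / L)) x =
      ∑ q ∈ s, w (Real.log ((q.1 * q.2 : ℕ) : ℝ) / L) * t16_f x (q.1 * q.2) := by
    rw [t16_DS, t16_image (Y := Y) (le_max_right _ _) hE hut htv, Finset.sum_image]
    · rw [← hs, Finset.sum_filter]
      refine Finset.sum_congr rfl fun q hq => ?_
      split_ifs with h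
      · rfl
      · have hq0 := hs0 q hq
        have hpos : (0 : ℝ) < ((q.1 * q.2 : ℕ) : ℝ) := by
          exact_mod_cast Nat.pos_of_ne_zero (mul_ne_zero hq0.1 hq0.2)
        rw [hw _ ?_, zero_mul]
        rw [one_lt_div hL, Real.lt_log_iff_exp_lt hpos]
        exact not_le.1 h
    · exact (t16_inj hY0 hE).mono (Finset.coe_subset.2 (Finset.filter_subset _ _))
  rw [h1, h3, ← Finset.sum_sub_distrib]
  refine Finset.sum_congr rfl fun q _ => ?_
  unfold t16_a t16_f
  ring

theorem j02_norm_a {w : ℝ → ℝ} (hw : IsMono w) (L X : ℝ) (hL : 0 < L)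
    (q : ℕ × ℕ) (h1 : q.1 ≠ 0) (h2 : q.2 ≠ 0) :
    ‖t16_a (fun u => (w u : ℂ)) L X q‖ ≤ 1 ∧ ‖t16_a (fun u => (w u : ℂ)) L X q‖ ≤
      (w (Real.log q.2 / L) - w (Real.log ((q.1 : ℝ) * q.2) / L)) +
      (if X < (q.1 : ℝ) then 1 else 0) := by
  have a1 := j02_nonneg hw (Real.log q.2 / L)
  have a2 := j02_le_one hw (Real.log q.2 / L)
  have b1 := j02_nonneg hw (Real.log ((q.1 : ℝ) * q.2) / L)
  have b2 := j02_le_one hw (Real.log ((q.1 : ℝ) * q.2) / L)
  have hq1 : (1 : ℝ) ≤ q.1 := by exact_mod_cast Nat.one_le_iff_ne_zero.2 h1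
  have hq2 : (1 : ℝ) ≤ q.2 := by exact_mod_cast Nat.one_le_iff_ne_zero.2 h2
  have hmono : w (Real.log ((q.1 : ℝ) * q.2) / L) ≤ w (Real.log q.2 / L) := by
    apply hw.anti
    gcongr
    nlinarith
  have hmul : (((q.1 * q.2 : ℕ) : ℝ)) = (q.1 : ℝ) * q.2 := by push_cast; ring
  unfold t16_a
  rw [hmul]
  rcases le_or_gt (q.1 : ℝ) X with h | h
  · rw [if_pos h, if_neg (not_lt.2 h), add_zero, ← Complex.ofReal_sub, Complex.norm_real,
      Real.norm_of_nonneg (by linarith)]
    exact ⟨by linarith, le_rfl⟩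
  · rw [if_neg (not_le.2 h), if_pos h, zero_sub, norm_neg, Complex.norm_real,
      Real.norm_of_nonneg b1]
    exact ⟨b2, by linarith⟩

theorem E_moment_mono (r : ℕ) : ∃ C : ℝ, 1 ≤ C ∧ ∀ w : ℝ → ℝ, IsMono w → ∀ (l0 K V L : ℝ) (J j : ℕ),
    Real.log 2 / 2 ≤ l0 → 1 ≤ K → j < J → l0 * 2 ^ (j + 1) ≤ V → V ≤ L →
    Real.exp (-(kap K J j) / 5) ≤ l0 * 2 ^ (j + 1) / L →
    ∫ x, ‖Ej (fun u => (w u : ℂ)) l0 K V L J j x‖ ^ (2 * r) ∂mu ≤
      (C * (V / L) * (V / (l0 * 2 ^ (j + 1))) ^ (r - 1 : ℝ)) ^ r := by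
  classical
  obtain ⟨C1, hC1, hT10⟩ := sum_smo_tau_le r
  obtain ⟨C2, hC2, hT11a⟩ := sum_smo_tau_tail_le r
  obtain ⟨C3, hC3, hT11b⟩ := sum_smo_log_tau_le r
  obtain ⟨C4, hC4, hJ02⟩ := mono_sum_le r
  refine ⟨max 1 (C4 * (C3 * 2 ^ r) + C1 * (C2 * 2 ^ r)), le_max_left _ _, ?_⟩
  intro w hw l0 K V L J j hl0 hK hj hV hVL hkap
  have hl0pos : 0 < l0 := lt_of_lt_of_le (by have := Real.log_pos (show (1:ℝ) < 2 by norm_num); linarith) hl0
  set a : ℝ := l0 * 2 ^ (j + 1) with ha
  have ha0 : 0 < a := by positivity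
  have hV0 : 0 < V := lt_of_lt_of_le ha0 hV
  have hL0 : 0 < L := lt_of_lt_of_le hV0 hVL
  set κ := kap K J j with hκ
  have hκ0 : 0 ≤ κ := by rw [hκ]; unfold kap; positivity
  set X := Real.exp (κ * a) with hX
  have hX1 : 1 ≤ X := by rw [hX]; exact Real.one_le_exp (by positivity)
  have htj : tj l0 j = Real.exp (l0 * 2 ^ j) := rfl
  have htj1 : tj l0 (j + 1) = Real.exp a := rfl
  have hsq : ∀ i : ℕ, Real.sqrt 2 ≤ tj l0 i := by
    intro i
    have h1 : Real.sqrt 2 = Real.exp (Real.log 2 / 2) := by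
      rw [Real.exp_half, Real.exp_log (by norm_num)]
    rw [h1]
    unfold tj
    apply Real.exp_le_exp.2
    have h2 : (1 : ℝ) ≤ 2 ^ i := one_le_pow₀ (by norm_num)
    nlinarith
  have hjj : tj l0 j ≤ tj l0 (j + 1) := by
    unfold tj
    apply Real.exp_le_exp.2
    have : (2 : ℝ) ^ j ≤ 2 ^ (j + 1) := pow_le_pow_right₀ (by norm_num) (by omega)
    gcongr
  have hjV : tj l0 (j + 1) ≤ Real.exp V := by rw [htj1]; exact Real.exp_le_exp.2 hV
  have hlogr : Real.log (tj l0 (j + 1)) / Real.log (tj l0 j) = 2 := by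
    rw [htj1, htj, Real.log_exp, Real.log_exp, ha, pow_succ]
    field_simp
  have hlog1 : Real.log (tj l0 (j + 1)) = a := by rw [htj1, Real.log_exp]
  -- the sums
  have s1 : ∑ m ∈ smo (tj l0 (j + 1)) (Real.exp V) (Real.exp L), LibZM.tau (r : ℝ) m / m ≤
      C1 * (V / a) ^ r := by
    have h := hT10 (tj l0 (j + 1)) (Real.exp V) (Real.exp L) 0 (hsq _) hjV le_rfl (by norm_num)
    rw [Real.log_exp, hlog1] at h
    refine le_trans (le_of_eq ?_) h
    refine Finset.sum_congr rfl fun n _ => ?_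
    rw [zero_sub, Real.rpow_neg_one, div_eq_mul_inv]
  have s4 : ∀ c : ℕ, 1 ≤ c → ∑ m ∈ smo (tj l0 (j + 1)) (Real.exp V) (Real.exp L),
      (w (Real.log m / L) - w (Real.log ((c : ℝ) * m) / L)) * (LibZM.tau (r : ℝ) m / m) ≤
      C4 * (Real.log c / L) * (V / a) ^ r := by
    intro c hc
    have h := hJ02 w hw (tj l0 (j + 1)) (Real.exp V) L c (hsq _) hjV hL0 (by exact_mod_cast hc)
      (by
        rcases Nat.eq_or_lt_of_le hc with h | h
        · left; exact_mod_cast h.symm
        · right; exact_mod_cast h)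
    rw [Real.log_exp, hlog1] at h
    exact h
  set Y := max X (Real.exp L) with hY
  have s2 : ∑ c ∈ smo (tj l0 j) (tj l0 (j + 1)) Y, Real.log c * LibZM.tau (r : ℝ) c / c ≤
      C3 * 2 ^ r * a := by
    have h := hT11b (tj l0 j) (tj l0 (j + 1)) Y (hsq _) hjj
    rw [hlogr, hlog1] at h
    exact h
  have s3 : ∑ c ∈ (smo (tj l0 j) (tj l0 (j + 1)) Y).filter (fun n : ℕ => X < (n : ℝ)),
      LibZM.tau (r : ℝ) c / c ≤ C2 * 2 ^ r * (a / L) := by
    have h := hT11a (tj l0 j) (tj l0 (j + 1)) X Y (hsq _) hjj hX1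
    rw [hlogr, hlog1] at h
    refine h.trans ?_
    have h2 : Real.exp (-(Real.log X) / (5 * a)) = Real.exp (-κ / 5) := by
      rw [hX, Real.log_exp]
      congr 1
      field_simp
    rw [h2]
    gcongr
  have hE0 : 0 ≤ Real.exp L := (Real.exp_pos L).le
  have hX0 : 0 ≤ X := by linarith
  have hY0 : 0 ≤ Y := hX0.trans (le_max_left _ _)
  set s := t16_s (tj l0 j) (tj l0 (j + 1)) (Real.exp V) Y (Real.exp L) with hs
  have hsmem : ∀ q ∈ s, q.1 ∈ smo (tj l0 j) (tj l0 (j + 1)) Y ∧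
      q.2 ∈ smo (tj l0 (j + 1)) (Real.exp V) (Real.exp L) := by
    intro q hq
    rw [hs] at hq
    unfold t16_s at hq
    exact Finset.mem_product.1 hq
  have hs0 : ∀ q ∈ s, q.1 ≠ 0 ∧ q.2 ≠ 0 := by
    intro q hq
    have h := hsmem q hq
    rw [t16_mem_smo hY0, t16_mem_smo hE0] at h
    obtain ⟨⟨h1, -⟩, ⟨h2, -⟩⟩ := h
    exact ⟨by omega, by omega⟩
  have hexp : ∀ x, Ej (fun u => (w u : ℂ)) l0 K V L J j x = ∑ q ∈ s,
      t16_a (fun u => (w u : ℂ)) L X q * (((Real.sqrt ((q.1 * q.2 : ℕ) : ℝ))⁻¹ : ℝ) : ℂ) *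
        ch x (q.1 * q.2) := by
    intro x
    unfold Ej psi AA
    exact j02_expand (w := fun u => (w u : ℂ)) (fun u hu => by
      simp only [hw.supp u hu, Complex.ofReal_zero]) hL0 hX0 hjj hjV x
  simp_rw [hexp]
  refine (moment_le r s (fun q => q.1 * q.2) (t16_a (fun u => (w u : ℂ)) L X) 1
    (fun q hq => Nat.one_le_iff_ne_zero.2 (mul_ne_zero (hs0 q hq).1 (hs0 q hq).2))
    (t16_inj hY0 hE0) (fun q hq => (j02_norm_a hw L X hL0 q (hs0 q hq).1 (hs0 q hq).2).1)).trans ?_
  rw [one_pow, one_mul]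
  have htau0 : ∀ n : ℕ, 0 ≤ LibZM.tau (r : ℝ) n := fun n => LibZM.tau_nonneg (Nat.cast_nonneg r) n
  have hRV : 0 ≤ (V / a) ^ r := by positivity
  -- the weighted sum
  have hmain : ∑ q ∈ s, ‖t16_a (fun u => (w u : ℂ)) L X q‖ * LibZM.tau (r : ℝ) (q.1 * q.2) /
      ((q.1 * q.2 : ℕ) : ℝ) ≤
      (C4 / L * (C3 * 2 ^ r * a) + C1 * (C2 * 2 ^ r * (a / L))) * (V / a) ^ r := by
    calc ∑ q ∈ s, ‖t16_a (fun u => (w u : ℂ)) L X q‖ * LibZM.tau (r : ℝ) (q.1 * q.2) /
          ((q.1 * q.2 : ℕ) : ℝ)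
        ≤ ∑ q ∈ s, ((w (Real.log q.2 / L) - w (Real.log ((q.1 : ℝ) * q.2) / L)) +
            (if X < (q.1 : ℝ) then 1 else 0)) *
            (LibZM.tau (r : ℝ) q.1 / q.1) * (LibZM.tau (r : ℝ) q.2 / q.2) := by
          refine Finset.sum_le_sum fun q hq => ?_
          have h0 := hs0 q hq
          have h := hsmem q hq
          rw [t16_mem_smo hY0, t16_mem_smo hE0] at h
          have hcop : Nat.Coprime q.1 q.2 := t16_coprime h0.1 h0.2 h.1.2.2 h.2.2.2
          rw [(LibZM.tau_isMultiplicative (r : ℝ)).map_mul_of_coprime hcop]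
          have hn := (j02_norm_a hw L X hL0 q h0.1 h0.2).2
          have t1 := htau0 q.1
          have t2 := htau0 q.2
          have e : ‖t16_a (fun u => (w u : ℂ)) L X q‖ *
              (LibZM.tau (r : ℝ) q.1 * LibZM.tau (r : ℝ) q.2) / ((q.1 * q.2 : ℕ) : ℝ) =
              ‖t16_a (fun u => (w u : ℂ)) L X q‖ * (LibZM.tau (r : ℝ) q.1 / q.1) *
                (LibZM.tau (r : ℝ) q.2 / q.2) := by
            push_cast
            have a1 : (q.1 : ℝ) ≠ 0 := by exact_mod_cast h0.1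
            have a2 : (q.2 : ℝ) ≠ 0 := by exact_mod_cast h0.2
            field_simp
          rw [e]
          gcongr
      _ = ∑ c ∈ smo (tj l0 j) (tj l0 (j + 1)) Y, (LibZM.tau (r : ℝ) c / c) *
            (∑ m ∈ smo (tj l0 (j + 1)) (Real.exp V) (Real.exp L),
              (w (Real.log m / L) - w (Real.log ((c : ℝ) * m) / L)) * (LibZM.tau (r : ℝ) m / m) +
            (if X < (c : ℝ) then 1 else 0) *
              ∑ m ∈ smo (tj l0 (j + 1)) (Real.exp V) (Real.exp L), LibZM.tau (r : ℝ) m / m) := by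
          rw [hs]
          unfold t16_s
          rw [Finset.sum_product]
          refine Finset.sum_congr rfl fun c _ => ?_
          rw [Finset.mul_sum, ← Finset.sum_add_distrib, Finset.mul_sum]
          refine Finset.sum_congr rfl fun m _ => ?_
          simp only
          ring
      _ ≤ ∑ c ∈ smo (tj l0 j) (tj l0 (j + 1)) Y, (LibZM.tau (r : ℝ) c / c) *
            (C4 * (Real.log c / L) * (V / a) ^ r +
            (if X < (c : ℝ) then 1 else 0) * (C1 * (V / a) ^ r)) := by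
          refine Finset.sum_le_sum fun c hc => ?_
          have hc1 : 1 ≤ c := ((t16_mem_smo hY0).1 hc).1
          refine mul_le_mul_of_nonneg_left ?_ (div_nonneg (htau0 c) (Nat.cast_nonneg c))
          refine add_le_add (s4 c hc1) ?_
          refine mul_le_mul_of_nonneg_left s1 ?_
          split_ifs <;> norm_num
      _ = (C4 / L * (∑ c ∈ smo (tj l0 j) (tj l0 (j + 1)) Y,
              Real.log c * LibZM.tau (r : ℝ) c / c) +
            C1 * ∑ c ∈ (smo (tj l0 j) (tj l0 (j + 1)) Y).filter (fun n : ℕ => X < (n : ℝ)),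
              LibZM.tau (r : ℝ) c / c) * (V / a) ^ r := by
          rw [Finset.mul_sum, Finset.sum_filter, Finset.mul_sum, ← Finset.sum_add_distrib,
            Finset.sum_mul]
          refine Finset.sum_congr rfl fun c _ => ?_
          split_ifs <;> ring
      _ ≤ _ := by
          gcongr
  have hsum0 : 0 ≤ ∑ q ∈ s, ‖t16_a (fun u => (w u : ℂ)) L X q‖ * LibZM.tau (r : ℝ) (q.1 * q.2) /
      ((q.1 * q.2 : ℕ) : ℝ) :=
    Finset.sum_nonneg fun q _ => div_nonneg (mul_nonneg (norm_nonneg _) (htau0 _))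
      (Nat.cast_nonneg _)
  refine pow_le_pow_left₀ hsum0 ?_ r
  have hrp : (V / a) ^ r * (a / L) = (V / L) * (V / a) ^ (r - 1 : ℝ) := by
    have h1 : (V / a) ^ r = (V / a) ^ (r - 1 : ℝ) * (V / a) := by
      have hpos : 0 < V / a := by positivity
      rw [← Real.rpow_natCast, ← Real.rpow_add_one hpos.ne']
      congr 1
      ring
    rw [h1]
    field_simp
  have hfac : 0 ≤ (V / L) * (V / a) ^ (r - 1 : ℝ) :=
    mul_nonneg (by positivity) (Real.rpow_nonneg (by positivity) _)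
  calc ∑ q ∈ s, ‖t16_a (fun u => (w u : ℂ)) L X q‖ * LibZM.tau (r : ℝ) (q.1 * q.2) /
        ((q.1 * q.2 : ℕ) : ℝ)
      ≤ (C4 / L * (C3 * 2 ^ r * a) + C1 * (C2 * 2 ^ r * (a / L))) * (V / a) ^ r := hmain
    _ = (C4 * (C3 * 2 ^ r) + C1 * (C2 * 2 ^ r)) * ((V / a) ^ r * (a / L)) := by
        ring
    _ = (C4 * (C3 * 2 ^ r) + C1 * (C2 * 2 ^ r)) * ((V / L) * (V / a) ^ (r - 1 : ℝ)) := by rw [hrp]
    _ ≤ max 1 (C4 * (C3 * 2 ^ r) + C1 * (C2 * 2 ^ r)) * ((V / L) * (V / a) ^ (r - 1 : ℝ)) := by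
        gcongr
        exact le_max_right _ _
    _ = _ := by ring

end Pool.Agent.LibMM99
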