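import Mathlib
import Pool.Agent.LibMM99.Good0
import Pool.Agent.LibMM99.J02

set_option autoImplicit false

namespace Pool.Agent.LibMM99

open MeasureTheory Filter Topology
open scoped ComplexConjugate

theorem goodWeight_mono (r : ℕ) : ∃ CE : ℝ, 1 ≤ CE ∧ ∀ w : ℝ → ℝ, IsMono w → GoodWeight (fun u => (w u : ℂ)) 1 r CE := by
  obtain ⟨C, hC, h⟩ := E_moment_mono r
  refine ⟨C, hC, fun w hw => ⟨le_rfl, ?_, ?_, h w hw⟩⟩
  · simp [hw.one 0 (by norm_num)]
  · intro u _
    have h1 : w u ≤ 1 := by
      rcases le_total u (1 / 2) with h2 | h2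
      · exact (hw.one u h2).le
      · rw [← hw.one (1 / 2) le_rfl]
        exact hw.anti h2
    have h2 : 0 ≤ w u := by
      rcases lt_or_ge 1 u with h3 | h3
      · exact (hw.supp u h3).ge
      · rw [← hw.supp (u + 2) (by
          rcases le_or_gt u (-1) with h4 | h4
          · exfalso; linarith
          · linarith)]
        exact hw.anti (by linarith)
    rw [Complex.norm_real, Real.norm_eq_abs, abs_of_nonneg h2]
    exact h1

end Pool.Agent.LibMM99
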