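import Mathlib
import Pool.Agent.LibMM99.J01
import Pool.Agent.LibMM99.Good
import Pool.Agent.LibMM99.T25

set_option autoImplicit false

namespace Pool.Agent.LibMM99

open MeasureTheory Filter Topology
open scoped ComplexConjugate

/-- the sharp cutoff -/
noncomputable def wsh (u : ℝ) : ℝ := if u ≤ 1 then 1 else 0

/-- continuous approximations of the sharp cutoff -/
noncomputable def wct (ε u : ℝ) : ℝ := min 1 (max 0 ((1 - u) / ε))

theorem isMono_wsh : IsMono wsh where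
  anti := by
    intro a b hab
    unfold wsh
    split_ifs with h1 h2
    · exact le_rfl
    · exact absurd (hab.trans h1) h2
    · exact zero_le_one
    · exact le_rfl
  one := by
    intro u hu
    unfold wsh
    rw [if_pos (by linarith)]
  supp := by
    intro u hu
    unfold wsh
    rw [if_neg (by linarith)]

theorem wct_nonneg (ε u : ℝ) : 0 ≤ wct ε u := le_min zero_le_one (le_max_left _ _)

theorem wct_le_one (ε u : ℝ) : wct ε u ≤ 1 := min_le_left _ _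

theorem isMono_wct {ε : ℝ} (hε : 0 < ε) (hε2 : ε ≤ 1 / 2) : IsMono (wct ε) where
  anti := by
    intro a b hab
    unfold wct
    gcongr
  one := by
    intro u hu
    unfold wct
    have h1 : 1 ≤ (1 - u) / ε := by rw [le_div_iff₀ hε]; linarith
    rw [min_eq_left]
    exact le_trans h1 (le_max_right _ _)
  supp := by
    intro u hu
    unfold wct
    have h1 : (1 - u) / ε ≤ 0 := div_nonpos_of_nonpos_of_nonneg (by linarith) hε.le
    rw [max_eq_left h1]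
    norm_num

theorem isWeight_wct {ε : ℝ} (hε : 0 < ε) (hε2 : ε ≤ 1 / 2) : IsWeight (fun u => (wct ε u : ℂ)) (1 / ε) where
  one_le := by rw [le_div_iff₀ hε]; linarith
  zero := by
    have := (isMono_wct hε hε2).one 0 (by norm_num)
    simp [this]
  supp := by
    intro u hu
    have h1 : (1 - u) / ε ≤ 0 := div_nonpos_of_nonpos_of_nonneg (by linarith) hε.le
    unfold wct
    rw [max_eq_left h1]
    norm_num
  lip := by
    intro u v _ _
    rw [← Complex.ofReal_sub, Complex.norm_real, Real.norm_eq_abs]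
    unfold wct
    have h1 : |min 1 (max 0 ((1 - u) / ε)) - min 1 (max 0 ((1 - v) / ε))| ≤ |max 0 ((1 - u) / ε) - max 0 ((1 - v) / ε)| := by
      have := abs_min_sub_min_le_max 1 (max 0 ((1 - u) / ε)) 1 (max 0 ((1 - v) / ε))
      simpa using this
    have h2 : |max 0 ((1 - u) / ε) - max 0 ((1 - v) / ε)| ≤ |(1 - u) / ε - (1 - v) / ε| := by
      have := abs_max_sub_max_le_max 0 ((1 - u) / ε) 0 ((1 - v) / ε)
      simpa using this
    have h3 : |(1 - u) / ε - (1 - v) / ε| = 1 / ε * |u - v| := by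
      have : (1 - u) / ε - (1 - v) / ε = (1 / ε) * (v - u) := by ring
      rw [this, abs_mul, abs_of_pos (by positivity : 0 < 1 / ε), abs_sub_comm]
    linarith

/-- the difference of the two cutoffs -/
theorem wsh_sub_wct {ε : ℝ} (hε : 0 < ε) (u : ℝ) : 0 ≤ wsh u - wct ε u ∧ wsh u - wct ε u ≤ 1 ∧
    (u < 1 - ε → wsh u - wct ε u = 0) := by
  unfold wsh
  have h0 := wct_nonneg ε u
  have h1 := wct_le_one ε u
  split_ifs with h
  · refine ⟨by linarith, by linarith, fun hu => ?_⟩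
    unfold wct
    have h2 : 1 ≤ (1 - u) / ε := by rw [le_div_iff₀ hε]; linarith
    rw [min_eq_left (le_trans h2 (le_max_right _ _))]
    ring
  · push Not at h
    have h2 : wct ε u = 0 := by
      unfold wct
      have h1 : (1 - u) / ε ≤ 0 := div_nonpos_of_nonpos_of_nonneg (by linarith) hε.le
      rw [max_eq_left h1]
      norm_num
    rw [h2]
    exact ⟨by norm_num, by norm_num, fun _ => by norm_num⟩

/-- coefficients of the difference -/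
noncomputable def dct (ε L : ℝ) (n : ℕ) : ℂ := ((wsh (Real.log n / L) : ℝ) : ℂ) - ((wct ε (Real.log n / L) : ℝ) : ℂ)

theorem norm_dct {ε : ℝ} (hε : 0 < ε) (L : ℝ) (n : ℕ) : ‖dct ε L n‖ ≤ 1 := by
  unfold dct
  rw [← Complex.ofReal_sub, Complex.norm_real, Real.norm_eq_abs]
  obtain ⟨h1, h2, -⟩ := wsh_sub_wct hε (Real.log n / L)
  rw [abs_of_nonneg h1]
  exact h2

theorem DS_sub (s : Finset ℕ) (a b : ℕ → ℂ) (x : Om) : DS s a x - DS s b x = DS s (fun n => a n - b n) x := by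
  unfold DS
  rw [← Finset.sum_sub_distrib]
  refine Finset.sum_congr rfl fun n _ => ?_
  ring

/-- mean square of the difference of the top parts -/
theorem top_diff_sq {δ : ℝ} (hδ : 0 < δ) (hδ1 : δ ≤ 1) : ∃ C : ℝ, 0 < C ∧ ∀ ε : ℝ, 0 < ε → ε ≤ 1 / 2 → ∀ L : ℝ, 1 ≤ L →
    Real.log 2 / 2 / δ ≤ L →
    ∫ x, ‖DS (smo (Real.exp (δ * L)) (Real.exp L) (Real.exp L)) (dct ε L) x‖ ^ 2 ∂mu ≤ C * (ε + 1 / L) := by
  obtain ⟨C, hC, h⟩ := sum_smo_tau_cross 1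
  refine ⟨C * (1 / δ), by positivity, ?_⟩
  intro ε hε hε2 L hL hL2
  have hL0 : 0 < L := by linarith
  have hE : 0 ≤ Real.exp L := (Real.exp_pos L).le
  rw [integral_norm_sq _ (fun n hn => (mem_smo.1 hn).1.1)]
  have h1 := h (Real.exp (δ * L)) (Real.exp L) (Real.exp L) (Real.exp (ε * L))
    (sqrt_two_le_exp (by rw [div_le_iff₀ hδ] at hL2; linarith))
    (Real.exp_le_exp.2 (by nlinarith)) (Real.one_le_exp (by positivity)) (Real.one_lt_exp_iff.2 hL0)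
  rw [Real.log_exp, Real.log_exp, Real.log_exp] at h1
  have h3 : L / (δ * L) = 1 / δ := by field_simp
  rw [h3, pow_one] at h1
  have h4 : C * ((1 + ε * L) / L) * (1 / δ) = C * (1 / δ) * (ε + 1 / L) := by
    field_simp
    ring
  rw [h4] at h1
  refine le_trans ?_ h1
  rw [Finset.sum_filter]
  refine Finset.sum_le_sum fun n hn => ?_
  have hn1 : 1 ≤ n := (mem_smo.1 hn).1.1
  have hnR : (0 : ℝ) < n := by exact_mod_cast hn1
  split_ifs with hc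
  · have h5 : LibZM.tau ((1 : ℕ) : ℝ) n = 1 := by
      rw [Nat.cast_one]
      exact LibZM.tau_one_apply (by omega)
    rw [h5]
    have h6 := norm_dct hε L n
    gcongr
    exact pow_le_one₀ (norm_nonneg _) h6
  · push Not at hc
    have h7 : Real.log n / L < 1 - ε := by
      rw [div_lt_iff₀ hL0]
      have h8 := Real.log_lt_log (by positivity) hc
      rw [Real.log_mul (Real.exp_pos _).ne' hnR.ne', Real.log_exp, Real.log_exp] at h8
      linarith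
    have h9 : dct ε L n = 0 := by
      unfold dct
      rw [← Complex.ofReal_sub, (wsh_sub_wct hε _).2.2 h7, Complex.ofReal_zero]
    rw [h9]
    simp

/-- moments of the difference of the top parts -/
theorem top_diff_moment {δ : ℝ} (hδ : 0 < δ) (hδ1 : δ ≤ 1) (r : ℕ) : ∃ C : ℝ, 0 < C ∧ ∀ ε : ℝ, 0 < ε → ∀ L : ℝ, 1 ≤ L →
    Real.log 2 / 2 / δ ≤ L →
    ∫ x, ‖DS (smo (Real.exp (δ * L)) (Real.exp L) (Real.exp L)) (dct ε L) x‖ ^ (2 * r) ∂mu ≤ C := by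
  obtain ⟨C, hC, h⟩ := sum_smo_tau_le r
  refine ⟨(C * (1 / δ) ^ r) ^ r, by positivity, ?_⟩
  intro ε hε L hL hL2
  have hL0 : 0 < L := by linarith
  set S := smo (Real.exp (δ * L)) (Real.exp L) (Real.exp L) with hS
  have h1 := moment_le r S (fun n => n) (dct ε L) 1
    (fun i hi => (mem_smo.1 hi).1.1) (fun a _ b _ hab => hab) (fun i _ => norm_dct hε L i)
  have h2 := h (Real.exp (δ * L)) (Real.exp L) (Real.exp L) 0
    (sqrt_two_le_exp (by rw [div_le_iff₀ hδ] at hL2; linarith))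
    (Real.exp_le_exp.2 (by nlinarith)) le_rfl (by simp)
  rw [Real.log_exp, Real.log_exp] at h2
  have h3 : L / (δ * L) = 1 / δ := by field_simp
  rw [h3] at h2
  have hτ : ∀ n : ℕ, 0 ≤ LibZM.tau (r : ℝ) n := fun n => LibZM.tau_nonneg (Nat.cast_nonneg r) n
  have h4 : ∑ i ∈ S, ‖dct ε L i‖ * LibZM.tau (r : ℝ) i / i ≤ C * (1 / δ) ^ r := by
    refine le_trans ?_ h2
    apply Finset.sum_le_sum
    intro i hi
    have h5 : (i : ℝ) ^ ((0 : ℝ) - 1) = (i : ℝ)⁻¹ := by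
      rw [zero_sub, Real.rpow_neg_one]
    rw [h5, div_eq_mul_inv, mul_assoc]
    have h6 : 0 ≤ LibZM.tau (r : ℝ) i * (i : ℝ)⁻¹ := mul_nonneg (hτ i) (by positivity)
    have h7 := norm_dct hε L i
    nlinarith
  have hnn : 0 ≤ ∑ i ∈ S, ‖dct ε L i‖ * LibZM.tau (r : ℝ) i / i := by
    apply Finset.sum_nonneg
    intro i _
    have := hτ i
    positivity
  rw [one_pow, one_mul] at h1
  calc ∫ x, ‖DS S (dct ε L) x‖ ^ (2 * r) ∂mu ≤ _ := h1
    _ ≤ _ := by gcongr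

private theorem J03_par {k : ℝ} (hk : 0 < k) {r : ℕ} (hr' : 2 * r < k + 2) {CR η : ℝ} (hη : 0 < η) :
    ∃ δ : ℝ, 0 < δ ∧ δ < 1 ∧ 2 ^ k * (2 ^ k * (2 * CR)) * δ ^ (k / 4 * (k + 2 - 2 * r)) ≤ η / 4 := by
  set γ : ℝ := k / 4 * (k + 2 - 2 * r) with hγ
  have hγ0 : 0 < γ := by rw [hγ]; apply mul_pos (by positivity); linarith
  have h1 : Tendsto (fun δ : ℝ => 2 ^ k * (2 ^ k * (2 * CR)) * δ ^ γ) (𝓝[>] 0) (𝓝 (2 ^ k * (2 ^ k * (2 * CR)) * 0)) := by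
    apply Tendsto.const_mul
    have h2 : Tendsto (fun x : ℝ => x ^ γ) (𝓝 0) (𝓝 ((0 : ℝ) ^ γ)) :=
      (Real.continuousAt_rpow_const 0 γ (Or.inr hγ0.le)).tendsto
    rw [Real.zero_rpow hγ0.ne'] at h2
    exact h2.mono_left nhdsWithin_le_nhds
  rw [mul_zero] at h1
  have h3 : ∀ᶠ δ : ℝ in 𝓝[>] 0, 2 ^ k * (2 ^ k * (2 * CR)) * δ ^ γ < η / 4 := h1.eventually (gt_mem_nhds (by positivity))
  have h4 : ∀ᶠ δ : ℝ in 𝓝[>] 0, δ ∈ Set.Ioo (0 : ℝ) 1 := Ioo_mem_nhdsGT one_pos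
  obtain ⟨δ, h5, h6⟩ := (h3.and h4).exists
  exact ⟨δ, h6.1, h6.2, h5.le⟩

private theorem J03_small {W η c : ℝ} (hW : 0 < W) (hη : 0 < η) (hc : 0 < c) {a : ℝ} (ha : 0 < a) :
    ∃ ρ : ℝ, 0 < ρ ∧ ρ ≤ a ∧ W * ρ ≤ η / c := by
  refine ⟨min a (η / (c * W)), lt_min ha (by positivity), min_le_left _ _, ?_⟩
  calc W * min a (η / (c * W)) ≤ W * (η / (c * W)) := mul_le_mul_of_nonneg_left (min_le_right _ _) hW.le
    _ = η / c := by field_simp

private theorem J03_exp {k : ℝ} {r : ℕ} {δ L : ℝ} (hδ : 0 < δ) (hL : 0 < L) :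
    (δ * L) ^ (k ^ 2 / 4) * (L / L) ^ (k / 2) * (L / (δ * L)) ^ (k * (r - 1) / 2) =
      δ ^ (k / 4 * (k + 2 - 2 * r)) * L ^ (k ^ 2 / 4) := by
  rw [div_self hL.ne', Real.one_rpow, mul_one]
  have h1 : L / (δ * L) = δ⁻¹ := by field_simp
  rw [h1, Real.mul_rpow hδ.le hL.le, Real.inv_rpow hδ.le, ← Real.rpow_neg hδ.le]
  have h2 : δ ^ (k ^ 2 / 4) * L ^ (k ^ 2 / 4) * δ ^ (-(k * (r - 1) / 2)) =
      (δ ^ (k ^ 2 / 4) * δ ^ (-(k * (r - 1) / 2))) * L ^ (k ^ 2 / 4) := by ring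
  rw [h2, ← Real.rpow_add hδ]
  congr 2
  ring

private theorem J03_pt {k : ℝ} (hk : 0 < k) {F A Ra Rb S : ℂ} {B U X Za Zb : ℝ} (nB : 0 ≤ B) (nU : 0 ≤ U)
    (s1 : |‖F‖ ^ k - B| ≤ U) (ptA : ‖A‖ ^ k ≤ X) (apRa : ‖Ra‖ ^ k ≤ Za) (apRb : ‖Rb‖ ^ k ≤ Zb)
    (e1 : S = F * A + (-Ra + Rb)) : ‖S‖ ^ k ≤ 2 ^ k * ((B + U) * X + 2 ^ k * (Za + Zb)) := by
  have h2k : (0 : ℝ) ≤ 2 ^ k := Real.rpow_nonneg (by norm_num) k
  rw [e1]
  refine (norm_add_rpow_le hk _ _).trans ?_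
  apply mul_le_mul_of_nonneg_left _ h2k
  have e2 : ‖F * A‖ ^ k ≤ (B + U) * X := by
    rw [norm_mul, Real.mul_rpow (norm_nonneg _) (norm_nonneg _)]
    have e3 : ‖F‖ ^ k ≤ B + U := by
      have := (abs_le.1 s1).2
      linarith
    exact mul_le_mul e3 ptA (by positivity) (add_nonneg nB nU)
  have e4 : ‖-Ra + Rb‖ ^ k ≤ 2 ^ k * (Za + Zb) := by
    refine (norm_add_rpow_le hk _ _).trans ?_
    apply mul_le_mul_of_nonneg_left _ h2k
    rw [norm_neg]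
    exact add_le_add apRa apRb
  exact add_le_add e2 e4

private theorem J03_intX {A : Om → ℂ} (cA : Continuous A) {D c a q : ℝ} {s : ℕ} (hD : 0 ≤ D) (hc : 0 ≤ c)
    (iQ : ∫ x, ‖A x‖ ^ 2 ∂mu ≤ q) (iA : ∫ x, ‖A x‖ ^ (2 * s) ∂mu ≤ a) :
    ∫ x, (D * ‖A x‖ ^ 2 + c * (1 + ‖A x‖ ^ (2 * s))) ∂mu ≤ D * q + c * (1 + a) := by
  have i1 : Integrable (fun x => ‖A x‖ ^ 2) mu := integrable_of_continuous (cA.norm.pow _)
  have i2 : Integrable (fun x => ‖A x‖ ^ (2 * s)) mu := integrable_of_continuous (cA.norm.pow _)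
  have i3 : Integrable (fun x => D * ‖A x‖ ^ 2) mu := i1.const_mul _
  have i4 : Integrable (fun x => 1 + ‖A x‖ ^ (2 * s)) mu := (integrable_const 1).add i2
  have i5 : Integrable (fun x => c * (1 + ‖A x‖ ^ (2 * s))) mu := i4.const_mul _
  rw [integral_add i3 i5, integral_const_mul, integral_const_mul, integral_add (integrable_const 1) i2]
  have h1 : ∫ _ : Om, (1 : ℝ) ∂mu = 1 := by simp
  rw [h1]
  exact add_le_add (mul_le_mul_of_nonneg_left iQ hD) (mul_le_mul_of_nonneg_left (by linarith) hc)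

private theorem J03_int {B U X Za Zb : Om → ℝ} (cB : Continuous B) (cU : Continuous U) (cX : Continuous X)
    (cZa : Continuous Za) (cZb : Continuous Zb) {C D : Set ℕ} (dB : DependsOn B C) (dU : DependsOn U C)
    (dX : DependsOn X D) (disj : Disjoint C D) (nX : ∀ x, 0 ≤ X x) {b ξ z p : ℝ} (hp : 0 ≤ p) (hb : 0 ≤ b)
    (iB : ∫ x, B x ∂mu ≤ b) (iU : ∫ x, U x ∂mu ≤ b) (iX : ∫ x, X x ∂mu ≤ ξ) (iZa : ∫ x, Za x ∂mu ≤ z)
    (iZb : ∫ x, Zb x ∂mu ≤ z) :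
    ∫ x, p * ((B x + U x) * X x + p * (Za x + Zb x)) ∂mu ≤ p * (2 * b * ξ + p * (2 * z)) := by
  have k1 : Integrable (fun x => (B x + U x) * X x) mu := integrable_of_continuous ((cB.add cU).mul cX)
  have k2 : Integrable (fun x => Za x + Zb x) mu := integrable_of_continuous (cZa.add cZb)
  have k3 : Integrable (fun x => p * (Za x + Zb x)) mu := k2.const_mul _
  have dBU : DependsOn (fun x => B x + U x) C := by
    intro x y hxy
    simp only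
    rw [dB hxy, dU hxy]
  have jBU : ∫ x, (B x + U x) * X x ∂mu = (∫ x, (B x + U x) ∂mu) * ∫ x, X x ∂mu :=
    integral_mul_indep (cB.add cU) cX dBU dX disj
  rw [integral_const_mul, integral_add k1 k3, integral_const_mul,
    integral_add (integrable_of_continuous cZa) (integrable_of_continuous cZb), jBU,
    integral_add (integrable_of_continuous cB) (integrable_of_continuous cU)]
  apply mul_le_mul_of_nonneg_left _ hp
  have h1 : ((∫ x, B x ∂mu) + ∫ x, U x ∂mu) * ∫ x, X x ∂mu ≤ 2 * b * ξ :=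
    mul_le_mul (by linarith) iX (integral_nonneg nX) (by linarith)
  have h2 : p * ((∫ x, Za x ∂mu) + ∫ x, Zb x ∂mu) ≤ p * (2 * z) := mul_le_mul_of_nonneg_left (by linarith) hp
  exact add_le_add h1 h2

private theorem J03_poly {Θ L D c p : ℝ} {A : Om → ℂ} {s : ℕ} (hs1 : 1 ≤ s) {B U Za Zb : Om → ℝ} (hL : 1 ≤ L)
    (hΘ : 2 * (s : ℝ) * (2 + 2) + 6 ≤ Θ)
    (hA : IsPoly (2 * L) A)
    (g1 : IsPolyR (Θ * L) B) (g1' : IsPolyR (Θ * L) U) (g3 : IsPolyR (Θ * L) Za) (g3' : IsPolyR (Θ * L) Zb)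
    (g4 : IsPolyR (Θ * L) (fun _ => D)) (g5 : IsPolyR (Θ * L) (fun _ => c)) (g6 : IsPolyR (Θ * L) (fun _ => p)) :
    IsPolyR ((5 * Θ + 8) * L) (fun x => p * ((B x + U x) * (D * ‖A x‖ ^ 2 + c * (1 + ‖A x‖ ^ (2 * s))) +
      p * (Za x + Zb x))) := by
  have hsR : (1 : ℝ) ≤ s := by exact_mod_cast hs1
  have hsL : 2 * (s : ℝ) * (2 * L) + 1 ≤ Θ * L := by
    have h7 : 2 * (s : ℝ) * 2 + 1 ≤ Θ := by linarith
    calc 2 * (s : ℝ) * (2 * L) + 1 ≤ (2 * (s : ℝ) * 2 + 1) * L := by linarith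
      _ ≤ _ := mul_le_mul_of_nonneg_right h7 (by linarith)
  have h2L : 2 * (2 * L) ≤ Θ * L := by
    have : 4 * L ≤ Θ * L := mul_le_mul_of_nonneg_right (by linarith) (by linarith)
    linarith
  have g2 : IsPolyR (Θ * L + 1) (fun x => B x + U x) := g1.add g1'
  have g7 : IsPolyR (Θ * L) (fun x => ‖A x‖ ^ 2) := hA.normSq.mono (by linarith)
  have g8 : IsPolyR (Θ * L) (fun x => 1 + ‖A x‖ ^ (2 * s)) := by
    have h8 := hA.normPow s
    have h9 : IsPolyR (2 * s * (2 * L)) (fun _ : Om => (1 : ℝ)) := by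
      apply IsPolyR.const 1 (by positivity)
      rw [abs_one]
      exact Real.one_le_exp (by positivity)
    exact (h9.add h8).mono hsL
  have g9 : IsPolyR (Θ * L + Θ * L + 1) (fun x => D * ‖A x‖ ^ 2 + c * (1 + ‖A x‖ ^ (2 * s))) :=
    (g4.mul g7).add (g5.mul g8)
  have g10 : IsPolyR (Θ * L + 1 + (Θ * L + Θ * L + 1))
      (fun x => (B x + U x) * (D * ‖A x‖ ^ 2 + c * (1 + ‖A x‖ ^ (2 * s)))) := g2.mul g9
  have g11 : IsPolyR (Θ * L + 1) (fun x => Za x + Zb x) := g3.add g3'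
  have hΘL : 0 ≤ Θ * L := by linarith
  have g12 : IsPolyR (Θ * L + (Θ * L + 1)) (fun x => p * (Za x + Zb x)) := g6.mul g11
  have g12' : IsPolyR (Θ * L + 1 + (Θ * L + Θ * L + 1)) (fun x => p * (Za x + Zb x)) := g12.mono (by linarith)
  have g13 := g6.mul (g10.add g12')
  apply g13.mono
  linarith

/-- polynomial majorant of the difference between the sharp and the continuous cutoff -/
theorem diff_majorant {k : ℝ} (hk : 0 < k) {C0 : ℝ} (hC0 : 1 ≤ C0) (hS : HasScale k C0) {η : ℝ} (hη : 0 < η) :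
    ∃ ε Θ L0 : ℝ, 0 < ε ∧ ε ≤ 1 / 2 ∧ ∀ L : ℝ, L0 ≤ L → ∃ Ξ : Om → ℝ,
      (∀ x, ‖SS (fun u => (wsh u : ℂ)) L x - SS (fun u => (wct ε u : ℂ)) L x‖ ^ k ≤ Ξ x) ∧
      ∫ x, Ξ x ∂mu ≤ η * L ^ (k ^ 2 / 4) ∧ IsPolyR (Θ * L) Ξ := by
  obtain ⟨r, hr, hr'⟩ := exists_r hk
  obtain ⟨Ca, Ka, hCa, hKa, ha⟩ := scale_product hk hr hC0
  obtain ⟨Cc, hCc, hc⟩ := scale_product_poly k r hC0
  obtain ⟨CE, hCE, hgood⟩ := goodWeight_mono r
  obtain ⟨CR, KR, hCR, hKR, hR⟩ := R_majorant_g hk hr hr' hC0 1 hCE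
  obtain ⟨s, hks, hs1⟩ : ∃ s : ℕ, k ≤ s ∧ 1 ≤ s :=
    ⟨⌈k⌉₊, Nat.le_ceil k, Nat.one_le_iff_ne_zero.2 (Nat.ceil_pos.2 hk).ne'⟩
  obtain ⟨C1, hC1, h1⟩ := rpow_sub_le hk hks
  have h2k : (0 : ℝ) < 2 ^ k := Real.rpow_pos_of_pos (by norm_num) k
  have hCa0 : 0 < Ca := by linarith only [hCa]
  have hCR0 : 0 < CR := by linarith only [hCR]
  obtain ⟨δ, hδ, hδ1, hδ2⟩ := J03_par (r := r) (CR := CR) hk hr' hη
  obtain ⟨CA, hCA, hA'⟩ := top_diff_moment hδ hδ1.le s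
  obtain ⟨CQ, hCQ, hQ⟩ := top_diff_sq hδ hδ1.le
  obtain ⟨ρ, hρ0, hρ1, hρ2⟩ := J03_small (W := 2 ^ k * (2 * Ca) * C1 * (1 + CA)) (η := η) (c := 4) (a := 1)
    (by positivity) hη (by norm_num) (by norm_num)
  obtain ⟨D, hD, h4⟩ := h1 ρ hρ0 hρ1
  obtain ⟨V2, hV2, hV20⟩ : ∃ V2 : ℝ, V2 = 2 ^ k * (2 * Ca) * D * CQ ∧ 0 < V2 := ⟨_, rfl, by positivity⟩
  obtain ⟨ε, hε0, hε2, hε3⟩ := J03_small (W := V2) (η := η) (c := 8) (a := 1 / 2) hV20 hη (by norm_num) (by norm_num)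
  obtain ⟨K, hK1, hK3, hK4⟩ : ∃ K : ℝ, Ka ≤ K ∧ KR ≤ K ∧ 10 + 5 * Real.log (1 / δ) ≤ K :=
    ⟨max (max Ka KR) (10 + 5 * Real.log (1 / δ)), (le_max_left _ _).trans (le_max_left _ _),
      (le_max_right _ _).trans (le_max_left _ _), le_max_right _ _⟩
  have hK0 : 1 ≤ K := le_trans hKa hK1
  have hκ0 : 0 ≤ k ^ 2 / 4 := by positivity
  obtain ⟨Θ1, t0, t1, t2, t3, t4, t5, t6⟩ : ∃ Θ1 : ℝ, 0 ≤ Θ1 ∧ Cc * K ≤ Θ1 ∧ CR * K ≤ Θ1 ∧
      2 * (s : ℝ) * (2 + 2) + 6 ≤ Θ1 ∧ |Real.log D| ≤ Θ1 ∧ |Real.log (C1 * ρ)| ≤ Θ1 ∧ |Real.log (2 ^ k)| ≤ Θ1 := by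
    have n1 : 0 ≤ |Real.log D| := abs_nonneg _
    have n2 : 0 ≤ |Real.log (C1 * ρ)| := abs_nonneg _
    have n3 : 0 ≤ |Real.log (2 ^ k)| := abs_nonneg _
    have n4 : 0 ≤ CR * K := by positivity
    have n5 : 0 ≤ Cc * K := by positivity
    have n6 : 0 ≤ 2 * (s : ℝ) * (2 + 2) := by positivity
    clear ha hc hgood hR h1 hA' hQ h4 hδ2 hρ2 hε3
    refine ⟨Cc * K + CR * K + 2 * s * (2 + 2) + 6 + |Real.log D| + |Real.log (C1 * ρ)| + |Real.log (2 ^ k)|,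
      ?_, ?_, ?_, ?_, ?_, ?_, ?_⟩ <;> linarith
  refine ⟨ε, 5 * Θ1 + 8, max (8 * V2 / η) (max 1 (Real.log 2 / 2 / δ)), hε0, hε2, ?_⟩
  intro L hL
  have hLV : 8 * V2 / η ≤ L := le_trans (le_max_left _ _) hL
  have hL2 : 1 ≤ L := le_trans (le_max_left _ _) (le_trans (le_max_right _ _) hL)
  have hL3 : Real.log 2 / 2 / δ ≤ L := le_trans (le_max_right _ _) (le_trans (le_max_right _ _) hL)
  clear hL
  have hL0 : 0 < L := by linarith only [hL2]
  have hLV' : V2 * (1 / L) ≤ η / 8 := by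
    rw [div_le_iff₀ hη] at hLV
    rw [mul_one_div, div_le_iff₀ hL0]
    linarith only [hLV]
  have hlog2 : 0 < Real.log 2 := Real.log_pos (by norm_num)
  obtain ⟨l0, J, h0, h0', hJ⟩ := exists_scales (lam := δ * L) (by rw [div_le_iff₀ hδ] at hL3; linarith only [hL3])
  have hl0 : 0 < l0 := by linarith only [h0, hlog2]
  obtain ⟨b, e, hbe⟩ := exists_scaleData hS J h0 hK0
  have hbe' : ∀ i < J, ScaleData k C0 (tj l0 i) (tj l0 (i + 1)) (kap K J i) (b i) (e i) := fun i _ => hbe i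
  have tJ : tj l0 J = Real.exp (δ * L) := by unfold tj; rw [hJ]
  have hδL : δ * L ≤ L := mul_le_of_le_one_left hL0.le hδ1.le
  obtain ⟨Ξa, apRa, iRa, pRa⟩ := hR _ (hgood wsh isMono_wsh) l0 K L L J h0 h0'.le hK3 (by rw [hJ]; exact hδL) le_rfl
    (kap_cond hδ hδ1.le hK4 hL0 hJ) b e hbe'
  obtain ⟨Ξb, apRb, iRb, pRb⟩ := hR _ (hgood (wct ε) (isMono_wct hε0 hε2)) l0 K L L J h0 h0'.le hK3
    (by rw [hJ]; exact hδL) le_rfl (kap_cond hδ hδ1.le hK4 hL0 hJ) b e hbe'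
  obtain ⟨s1, s2, s3⟩ := ha l0 K J h0 h0'.le hK1 b e hbe' J le_rfl
  obtain ⟨q1, q2⟩ := hc l0 K J h0 h0'.le hK0 b e hbe' J le_rfl
  have tele1 := fun x => telescoping (fun u => (wsh u : ℂ)) l0 K L L J x
  have tele2 := fun x => telescoping (fun u => (wct ε u : ℂ)) l0 K L L J x
  rw [AA_zero hl0 h0' hL0.le] at tele1 tele2
  have hAA : ∀ x, AA (fun u => (wsh u : ℂ)) l0 L L J x - AA (fun u => (wct ε u : ℂ)) l0 L L J x =
      DS (smo (Real.exp (δ * L)) (Real.exp L) (Real.exp L)) (dct ε L) x := by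
    intro x
    unfold AA
    rw [tJ, DS_sub]
    rfl
  have tele : ∀ x, SS (fun u => (wsh u : ℂ)) L x - SS (fun u => (wct ε u : ℂ)) L x =
      Fj l0 K J J x * DS (smo (Real.exp (δ * L)) (Real.exp L) (Real.exp L)) (dct ε L) x +
        (-RR (fun u => (wsh u : ℂ)) l0 K L L J x + RR (fun u => (wct ε u : ℂ)) l0 K L L J x) := by
    intro x
    rw [tele1 x, tele2 x, ← hAA x]; ring
  have iA := hA' ε hε0 L hL2 hL3
  have iQ := hQ ε hε0 hε2 L hL2 hL3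
  clear ha hc hR hA' hQ h1 hgood hAA tele1 tele2
  have bc : ∀ i < J, Continuous (b i) := fun i _ => (hbe i).b_poly.continuous
  have ec : ∀ i < J, Continuous (e i) := fun i _ => (hbe i).e_poly.continuous
  have nB : ∀ x, 0 ≤ BB b J x := BB_nonneg fun i _ => (hbe i).b_nonneg
  have nU : ∀ x, 0 ≤ UU r l0 K J b e J x := UU_nonneg (fun i _ => (hbe i).b_nonneg) (fun i _ => (hbe i).e_nonneg)
  have dB : DependsOn (BB b J) (coo 1 (tj l0 J)) := dependsOn_BB hl0.le fun i _ => (hbe i).b_dep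
  have dU : DependsOn (UU r l0 K J b e J) (coo 1 (tj l0 J)) :=
    dependsOn_UU hl0.le (fun i _ => (hbe i).b_dep) (fun i _ => (hbe i).e_dep)
  rw [tJ] at dB dU
  have hN0 : 0 < L ^ (k ^ 2 / 4) := Real.rpow_pos_of_pos hL0 _
  have hδκ1 : δ ^ (k ^ 2 / 4) ≤ 1 := Real.rpow_le_one hδ.le hδ1.le hκ0
  have hδN1 : (δ * L) ^ (k ^ 2 / 4) ≤ L ^ (k ^ 2 / 4) := by
    rw [Real.mul_rpow hδ.le hL0.le]; exact mul_le_of_le_one_left hN0.le hδκ1
  rw [hJ] at s2 s3 iRa iRb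
  have hE1 : Real.exp (-K / 10) ≤ 1 := Real.exp_le_one_iff.2 (by linarith only [hK0])
  have iB : ∫ x, BB b J x ∂mu ≤ Ca * L ^ (k ^ 2 / 4) := le_trans s2 (mul_le_mul_of_nonneg_left hδN1 hCa0.le)
  have iU : ∫ x, UU r l0 K J b e J x ∂mu ≤ Ca * L ^ (k ^ 2 / 4) := by
    refine le_trans s3 ?_
    have h5 : Ca * Real.exp (-K / 10) ≤ Ca := mul_le_of_le_one_right hCa0.le hE1
    exact mul_le_mul h5 hδN1 (Real.rpow_nonneg (mul_pos hδ hL0).le _) hCa0.le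
  have iR1 : ∀ Ξ : Om → ℝ, ∫ x, Ξ x ∂mu ≤ CR * (δ * L) ^ (k ^ 2 / 4) * (L / L) ^ (k / 2) *
      (L / (δ * L)) ^ (k * (r - 1) / 2) → ∫ x, Ξ x ∂mu ≤ CR * δ ^ (k / 4 * (k + 2 - 2 * r)) * L ^ (k ^ 2 / 4) := by
    intro Ξ h
    calc ∫ x, Ξ x ∂mu ≤ _ := h
      _ = CR * ((δ * L) ^ (k ^ 2 / 4) * (L / L) ^ (k / 2) * (L / (δ * L)) ^ (k * (r - 1) / 2)) := by ring
      _ = _ := by rw [J03_exp hδ hL0]; ring
  have cA : Continuous (DS (smo (Real.exp (δ * L)) (Real.exp L) (Real.exp L)) (dct ε L)) := continuous_DS _ _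
  have dA : DependsOn (DS (smo (Real.exp (δ * L)) (Real.exp L) (Real.exp L)) (dct ε L))
      (coo (Real.exp (δ * L)) (Real.exp L)) := dependsOn_DS_smo _ _ _ _
  have pA : IsPoly (2 * L) (DS (smo (Real.exp (δ * L)) (Real.exp L) (Real.exp L)) (dct ε L)) := by
    have := IsPoly.ds (u := Real.exp (δ * L)) (v := Real.exp L) (X := Real.exp L) (A := 1) (Real.one_le_exp hL0.le)
      zero_le_one (dct ε L) (by
        intro n hn _
        rw [Real.log_exp]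
        exact (norm_dct hε0 L n).trans (Real.one_le_exp (by linarith only [hL0])))
    rw [Real.log_exp] at this
    exact this.mono (by linarith only [])
  generalize hAdef : DS (smo (Real.exp (δ * L)) (Real.exp L) (Real.exp L)) (dct ε L) = A at tele iA iQ cA dA pA
  have ptA : ∀ x, ‖A x‖ ^ k ≤ D * ‖A x‖ ^ 2 + C1 * ρ * (1 + ‖A x‖ ^ (2 * s)) := by
    intro x
    have h5 := h4 (A x) 0
    rw [norm_zero, Real.zero_rpow hk.ne', sub_zero, sub_zero, zero_pow (by omega), add_zero,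
      abs_of_nonneg (by positivity)] at h5
    exact h5
  have hc1 : 0 ≤ C1 * ρ := by positivity
  refine ⟨_, fun x => J03_pt hk (nB x) (nU x) (s1 x) (ptA x) (apRa x) (apRb x) (tele x), ?_, ?_⟩
  · have cX : Continuous fun x => D * ‖A x‖ ^ 2 + C1 * ρ * (1 + ‖A x‖ ^ (2 * s)) :=
      (continuous_const.mul (cA.norm.pow _)).add (continuous_const.mul (continuous_const.add (cA.norm.pow _)))
    have dX : DependsOn (fun x => D * ‖A x‖ ^ 2 + C1 * ρ * (1 + ‖A x‖ ^ (2 * s)))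
        (coo (Real.exp (δ * L)) (Real.exp L)) := by
      intro x y hxy
      simp only
      rw [dA hxy]
    refine (J03_int (continuous_BB bc) (continuous_UU bc ec) cX pRa.continuous pRb.continuous dB dU dX
      (coo_disjoint le_rfl) (fun x => (Real.rpow_nonneg (norm_nonneg _) k).trans (ptA x)) h2k.le
      (mul_nonneg hCa0.le hN0.le) iB iU (J03_intX cA hD.le hc1 iQ iA) (iR1 _ iRa) (iR1 _ iRb)).trans ?_
    have f1 : 2 ^ k * (2 * (Ca * L ^ (k ^ 2 / 4)) * (D * (CQ * (ε + 1 / L)) + C1 * ρ * (1 + CA)) +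
        2 ^ k * (2 * (CR * δ ^ (k / 4 * (k + 2 - 2 * r)) * L ^ (k ^ 2 / 4)))) =
        (V2 * ε + V2 * (1 / L) + 2 ^ k * (2 * Ca) * C1 * (1 + CA) * ρ +
          2 ^ k * (2 ^ k * (2 * CR)) * δ ^ (k / 4 * (k + 2 - 2 * r))) * L ^ (k ^ 2 / 4) := by
      rw [hV2]; ring
    rw [f1]
    apply mul_le_mul_of_nonneg_right _ hN0.le
    linarith only [hε3, hLV', hρ2, hδ2, hη]
  · have hΘ1L : Θ1 ≤ Θ1 * L := le_mul_of_one_le_right t0 hL2
    have hKδ : Cc * K * (l0 * 2 ^ J) ≤ Θ1 * L := by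
      rw [hJ]
      calc Cc * K * (δ * L) ≤ Cc * K * L :=
            mul_le_mul_of_nonneg_left hδL (mul_nonneg (by linarith only [hCc]) (by linarith only [hK0]))
        _ ≤ _ := mul_le_mul_of_nonneg_right t1 hL0.le
    exact J03_poly hs1 hL2 t3 pA (q1.mono hKδ) (q2.mono hKδ) (pRa.mono (mul_le_mul_of_nonneg_right t2 hL0.le))
      (pRb.mono (mul_le_mul_of_nonneg_right t2 hL0.le)) (isPolyR_const_of_pos hD (t4.trans hΘ1L))
      (isPolyR_const_of_pos (mul_pos hC1 hρ0) (t5.trans hΘ1L)) (isPolyR_const_of_pos h2k (t6.trans hΘ1L))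

end Pool.Agent.LibMM99
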