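import Mathlib
import Pool.Agent.LibMM99.J03
import Pool.Agent.LibMM99.T20b
import Pool.Agent.LibMM99.T26

set_option autoImplicit false

namespace Pool.Agent.LibMM99

open MeasureTheory Filter Topology
open scoped ComplexConjugate

/-- `2 e^{2ΘL}/T` is small when `L` is large and small compared with `log T` -/
theorem err_small (Θ : ℝ) {ε : ℝ} (hε : 0 < ε) : ∃ L1 : ℝ, ∀ L T : ℝ, 1 ≤ L → L1 ≤ L → 1 ≤ T →
    L ≤ 1 / (4 * (|Θ| + 1)) * Real.log T → 2 * Real.exp (2 * (Θ * L)) / T ≤ ε := by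
  obtain ⟨L1, hL1⟩ : ∃ L1 : ℝ, ∀ L, L1 ≤ L → 2 * Real.exp (-L) ≤ ε := by
    have h1 : Tendsto (fun L : ℝ => 2 * Real.exp (-L)) atTop (𝓝 (2 * 0)) :=
      Real.tendsto_exp_neg_atTop_nhds_zero.const_mul 2
    rw [mul_zero] at h1
    have h2 := h1.eventually (gt_mem_nhds hε)
    obtain ⟨L1, h3⟩ := eventually_atTop.1 h2
    exact ⟨L1, fun L hL => (h3 L hL).le⟩
  refine ⟨L1, fun L T hL1' hLL1 hT hLT => ?_⟩
  have hT0 : 0 < T := by linarith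
  have e1 : 4 * (|Θ| + 1) * L ≤ Real.log T := by
    rw [one_div, inv_mul_eq_div, le_div_iff₀ (by positivity)] at hLT
    linarith
  have e2 : Real.exp (4 * (|Θ| + 1) * L) ≤ T := by
    rw [← Real.exp_log hT0]; exact Real.exp_le_exp.2 e1
  have e3 : 2 * Real.exp (2 * (Θ * L)) ≤ 2 * Real.exp (-L) * T := by
    calc 2 * Real.exp (2 * (Θ * L)) ≤ 2 * Real.exp (-L + 4 * (|Θ| + 1) * L) := by
          apply mul_le_mul_of_nonneg_left _ (by norm_num)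
          apply Real.exp_le_exp.2
          have e4 := le_abs_self Θ
          have e5 := abs_nonneg Θ
          nlinarith
      _ = 2 * Real.exp (-L) * Real.exp (4 * (|Θ| + 1) * L) := by rw [Real.exp_add]; ring
      _ ≤ _ := by gcongr
  rw [div_le_iff₀ hT0]
  have e6 := hL1 L hLL1
  calc 2 * Real.exp (2 * (Θ * L)) ≤ 2 * Real.exp (-L) * T := e3
    _ ≤ ε * T := by gcongr

theorem sharp_core {k : ℝ} (hk : 0 < k) {C0 : ℝ} (hC0 : 1 ≤ C0) (hS : HasScale k C0) :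
    ∃ C : ℝ, 0 < C ∧
      Tendsto (fun L : ℝ => (∫ x, ‖SS (fun u => (wsh u : ℂ)) L x‖ ^ k ∂mu) / L ^ (k ^ 2 / 4)) atTop (𝓝 C) ∧
      ∀ ε : ℝ, 0 < ε → ∃ θ L0 : ℝ, 0 < θ ∧ 1 ≤ L0 ∧ ∀ L T : ℝ, L0 ≤ L → 1 ≤ T → L ≤ θ * Real.log T →
      |(1 / T) * (∫ t in (0 : ℝ)..T, ‖SS (fun u => (wsh u : ℂ)) L (xt t)‖ ^ k) - C * L ^ (k ^ 2 / 4)| ≤
        ε * L ^ (k ^ 2 / 4) := by
  obtain ⟨CE, hCE, hgood⟩ := goodWeight_mono ⌈k / 2⌉₊
  obtain ⟨Cap, hCap, hap⟩ := apriori_g hk hC0 hS 1 hCE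
  obtain ⟨cl, Ll, hcl, hLl, hlow⟩ := lower_bound_g hk hC0 hS 1 hCE
  have hcS : ∀ (w : ℝ → ℂ) (L : ℝ), Continuous fun x => ‖SS w L x‖ ^ k := fun w L =>
    ((continuous_norm.comp (continuous_DS _ _)).rpow_const fun _ => Or.inr hk.le)
  set κ4 : ℝ := k ^ 2 / 4 with hκ4
  have hκ0 : 0 ≤ κ4 := by positivity
  set w1 : ℝ → ℂ := fun u => (wsh u : ℂ) with hw1
  -- comparison of the two cutoffs
  have hcomp : ∀ η : ℝ, 0 < η → ∃ ε η1 C1 Θ L0 : ℝ, 0 < ε ∧ ε ≤ 1 / 2 ∧ 0 < η1 ∧ η1 ≤ η ∧ η1 ≤ 1 ∧ η1 * Cap ≤ η ∧ 0 < C1 ∧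
      (∀ a b : ℂ, |‖a + b‖ ^ k - ‖a‖ ^ k| ≤ η1 * ‖a‖ ^ k + C1 * ‖b‖ ^ k) ∧ ∀ L : ℝ, L0 ≤ L → ∃ Ξ : Om → ℝ,
      (∀ x, C1 * ‖SS w1 L x - SS (fun u => (wct ε u : ℂ)) L x‖ ^ k ≤ Ξ x) ∧
      ∫ x, Ξ x ∂mu ≤ η * L ^ κ4 ∧ IsPolyR (Θ * L) Ξ := by
    intro η hη
    set η1 : ℝ := min (min η 1) (η / Cap) with hη1
    have hη10 : 0 < η1 := lt_min (lt_min hη one_pos) (by positivity)
    obtain ⟨C1, hC1, hpd⟩ := pow_diff hk hη10
    obtain ⟨ε, Θ, L0, hε, hε2, h⟩ := diff_majorant hk hC0 hS (η := η / C1) (by positivity)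
    refine ⟨ε, η1, C1, |Real.log C1| + Θ, max L0 1, hε, hε2, hη10, (min_le_left _ _).trans (min_le_left _ _),
      (min_le_left _ _).trans (min_le_right _ _), ?_, hC1, hpd, ?_⟩
    · calc η1 * Cap ≤ η / Cap * Cap := by gcongr; exact min_le_right _ _
        _ = η := by field_simp
    · intro L hL
      have hL1 : 1 ≤ L := (le_max_right _ _).trans hL
      obtain ⟨Ξ, p1, p2, p3⟩ := h L ((le_max_left _ _).trans hL)
      refine ⟨fun x => C1 * Ξ x, fun x => mul_le_mul_of_nonneg_left (p1 x) hC1.le, ?_, ?_⟩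
      · rw [integral_const_mul]
        calc C1 * ∫ x, Ξ x ∂mu ≤ C1 * (η / C1 * L ^ κ4) := by gcongr
          _ = η * L ^ κ4 := by field_simp
      · have g1 : IsPolyR (|Real.log C1| * L) (fun _ => C1) :=
          isPolyR_const_of_pos hC1 (le_mul_of_one_le_right (abs_nonneg _) hL1)
        have g2 := g1.mul p3
        rw [← add_mul] at g2
        exact g2
  -- the limit
  have hlim : ∀ η : ℝ, 0 < η → ∃ ε η1 C1 Θ L0 Cε : ℝ, 0 < ε ∧ ε ≤ 1 / 2 ∧ 0 < η1 ∧ η1 ≤ η ∧ η1 ≤ 1 ∧ η1 * Cap ≤ η ∧ 0 < C1 ∧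
      (∀ a b : ℂ, |‖a + b‖ ^ k - ‖a‖ ^ k| ≤ η1 * ‖a‖ ^ k + C1 * ‖b‖ ^ k) ∧
      (Tendsto (fun L : ℝ => (∫ x, ‖SS (fun u => (wct ε u : ℂ)) L x‖ ^ k ∂mu) / L ^ κ4) atTop (𝓝 Cε)) ∧
      (∀ ε' : ℝ, 0 < ε' → ∃ θ L0 : ℝ, 0 < θ ∧ 1 ≤ L0 ∧ ∀ L T : ℝ, L0 ≤ L → 1 ≤ T → L ≤ θ * Real.log T →
        |(1 / T) * (∫ t in (0 : ℝ)..T, ‖SS (fun u => (wct ε u : ℂ)) L (xt t)‖ ^ k) - Cε * L ^ κ4| ≤ ε' * L ^ κ4) ∧
      (∀ L : ℝ, L0 ≤ L → ∃ Ξ : Om → ℝ,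
      (∀ x, C1 * ‖SS w1 L x - SS (fun u => (wct ε u : ℂ)) L x‖ ^ k ≤ Ξ x) ∧
      ∫ x, Ξ x ∂mu ≤ η * L ^ κ4 ∧ IsPolyR (Θ * L) Ξ) ∧
      (∀ L : ℝ, L0 ≤ L → |(∫ x, ‖SS w1 L x‖ ^ k ∂mu) / L ^ κ4 - Cε| ≤ 3 * η) := by
    intro η hη
    obtain ⟨ε, η1, C1, Θ, L0, hε, hε2, h1, h1', h1'', h2, h3, h4, h5⟩ := hcomp η hη
    obtain ⟨Cε, hCε, hTε⟩ := weighted_core hk hC0 hS (isWeight_wct hε hε2)
    obtain ⟨L1, hL1⟩ := (Metric.tendsto_atTop.1 hCε) η hη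
    refine ⟨ε, η1, C1, Θ, max (max L0 L1) 1, Cε, hε, hε2, h1, h1', h1'', h2, h3, h4, hCε, hTε,
      fun L hL => h5 L (((le_max_left _ _).trans (le_max_left _ _)).trans hL), ?_⟩
    intro L hL
    obtain ⟨Ξ, p1, p2, p3⟩ := h5 L (((le_max_left _ _).trans (le_max_left _ _)).trans hL)
    have q1 := hL1 L (((le_max_right _ _).trans (le_max_left _ _)).trans hL)
    rw [dist_eq_norm, Real.norm_eq_abs] at q1
    have hL1' : 1 ≤ L := (le_max_right _ _).trans hL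
    have hN : 0 < L ^ κ4 := Real.rpow_pos_of_pos (by linarith) _
    have hapc := hap (fun u => (wct ε u : ℂ)) (hgood _ (isMono_wct hε hε2)) L hL1'
    set S1 := SS w1 L with hS1
    set Sc := SS (fun u => (wct ε u : ℂ)) L with hSc
    have j1 : Integrable (fun x => ‖S1 x‖ ^ k) mu := integrable_of_continuous (hcS _ _)
    have j2 : Integrable (fun x => ‖Sc x‖ ^ k) mu := integrable_of_continuous (hcS _ _)
    have j3 : Integrable Ξ mu := integrable_of_continuous p3.continuous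
    have h6 : |(∫ x, ‖S1 x‖ ^ k ∂mu) - ∫ x, ‖Sc x‖ ^ k ∂mu| ≤ η1 * (∫ x, ‖Sc x‖ ^ k ∂mu) + ∫ x, Ξ x ∂mu := by
      rw [← integral_sub j1 j2, ← integral_const_mul, ← integral_add (j2.const_mul _) j3]
      refine le_trans (abs_integral_le_integral_abs) ?_
      refine integral_mono (j1.sub j2).abs ((j2.const_mul _).add j3) ?_
      intro x
      have e1 := h4 (Sc x) (S1 x - Sc x)
      have e2 := p1 x
      rw [add_sub_cancel] at e1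
      simp only
      linarith
    have h7 : η1 * (∫ x, ‖Sc x‖ ^ k ∂mu) ≤ η * L ^ κ4 := by
      calc η1 * (∫ x, ‖Sc x‖ ^ k ∂mu) ≤ η1 * (Cap * L ^ κ4) := by gcongr
        _ = (η1 * Cap) * L ^ κ4 := by ring
        _ ≤ _ := by gcongr
    have h8 : (∫ x, ‖S1 x‖ ^ k ∂mu) / L ^ κ4 - Cε =
        ((∫ x, ‖S1 x‖ ^ k ∂mu) - ∫ x, ‖Sc x‖ ^ k ∂mu) / L ^ κ4 + ((∫ x, ‖Sc x‖ ^ k ∂mu) / L ^ κ4 - Cε) := by
      ring
    rw [h8]
    refine (abs_add_le _ _).trans ?_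
    have h9 : |((∫ x, ‖S1 x‖ ^ k ∂mu) - ∫ x, ‖Sc x‖ ^ k ∂mu) / L ^ κ4| ≤ 2 * η := by
      rw [abs_div, abs_of_pos hN, div_le_iff₀ hN]
      linarith
    linarith
  obtain ⟨C, hC⟩ : ∃ C, Tendsto (fun L : ℝ => (∫ x, ‖SS w1 L x‖ ^ k ∂mu) / L ^ κ4) atTop (𝓝 C) := by
    apply exists_limit
    intro η hη
    obtain ⟨ε, η1, C1, Θ, L0, Cε, -, -, -, -, -, -, -, -, -, -, -, h⟩ := hlim (η / 3) (by positivity)
    exact ⟨Cε, L0, fun L hL => (h L hL).trans (by linarith)⟩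
  have hCpos : 0 < C := by
    refine lt_of_lt_of_le hcl (ge_of_tendsto hC ?_)
    filter_upwards [eventually_ge_atTop Ll] with L hL
    have hL0 : 0 < L := by linarith
    rw [le_div_iff₀ (Real.rpow_pos_of_pos hL0 _)]
    exact hlow _ (hgood _ isMono_wsh) L hL
  refine ⟨C, hCpos, hC, ?_⟩
  intro ε hε
  set η : ℝ := ε / (2 * (C + 20)) with hη
  have hη0 : 0 < η := by positivity
  set η' : ℝ := min η 1 with hη'
  have hη'0 : 0 < η' := lt_min hη0 one_pos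
  have hη'1 : η' ≤ 1 := min_le_right _ _
  have hη'2 : η' ≤ η := min_le_left _ _
  obtain ⟨ε1, η1, C1, Θ, L0, Cε, hε1, hε12, h1, h1', h1'', h2, h3, h4, h5, h6, h7, h8⟩ := hlim η' hη'0
  have hCC : |C - Cε| ≤ 3 * η' := by
    have e1 : Tendsto (fun L : ℝ => |(∫ x, ‖SS w1 L x‖ ^ k ∂mu) / L ^ κ4 - Cε|) atTop (𝓝 |C - Cε|) :=
      (hC.sub_const Cε).abs
    apply le_of_tendsto e1
    filter_upwards [eventually_ge_atTop L0] with L hL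
    exact h8 L hL
  obtain ⟨θ1, L1, hθ1, hL1, h9⟩ := h6 η' hη'0
  obtain ⟨L2, hL2⟩ := err_small Θ hη'0
  refine ⟨min θ1 (1 / (4 * (|Θ| + 1))), max (max L0 L1) (max L2 1), lt_min hθ1 (by positivity),
    (le_max_right _ _).trans (le_max_right _ _), ?_⟩
  intro L T hL hT hLT
  have hT0 : 0 < T := by linarith
  have hLL0 : L0 ≤ L := ((le_max_left _ _).trans (le_max_left _ _)).trans hL
  have hLL1 : L1 ≤ L := ((le_max_right _ _).trans (le_max_left _ _)).trans hL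
  have hLL2 : L2 ≤ L := ((le_max_left _ _).trans (le_max_right _ _)).trans hL
  have hL1' : 1 ≤ L := ((le_max_right _ _).trans (le_max_right _ _)).trans hL
  have hlogT : 0 ≤ Real.log T := Real.log_nonneg hT
  have hLθ1 : L ≤ θ1 * Real.log T := hLT.trans (by gcongr; exact min_le_left _ _)
  have hLθ2 : L ≤ 1 / (4 * (|Θ| + 1)) * Real.log T := hLT.trans (by gcongr; exact min_le_right _ _)
  have hN1 : 1 ≤ L ^ κ4 := Real.one_le_rpow hL1' hκ0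
  have hN : 0 < L ^ κ4 := by linarith
  obtain ⟨Ξ, p1, p2, p3⟩ := h7 L hLL0
  have q1 := h9 L T hLL1 hT hLθ1
  have q2 := hL2 L T hL1' hLL2 hT hLθ2
  have q3 := p3.compare hT0
  set S1 := SS w1 L with hS1
  set Sc := SS (fun u => (wct ε1 u : ℂ)) L with hSc
  have ct1 : Continuous fun t => ‖S1 (xt t)‖ ^ k := (hcS w1 L).comp continuous_xt
  have ct2 : Continuous fun t => ‖Sc (xt t)‖ ^ k := (hcS _ L).comp continuous_xt
  have ct3 : Continuous fun t => Ξ (xt t) := p3.continuous.comp continuous_xt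
  have hT1 : 0 < 1 / T := by positivity
  have i1 : |(∫ t in (0 : ℝ)..T, ‖S1 (xt t)‖ ^ k) - ∫ t in (0 : ℝ)..T, ‖Sc (xt t)‖ ^ k| ≤
      η1 * (∫ t in (0 : ℝ)..T, ‖Sc (xt t)‖ ^ k) + ∫ t in (0 : ℝ)..T, Ξ (xt t) := by
    rw [← intervalIntegral.integral_sub (ct1.intervalIntegrable _ _) (ct2.intervalIntegrable _ _),
      ← intervalIntegral.integral_const_mul,
      ← intervalIntegral.integral_add ((ct2.const_mul _).intervalIntegrable _ _) (ct3.intervalIntegrable _ _)]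
    refine le_trans (intervalIntegral.abs_integral_le_integral_abs hT0.le) ?_
    apply intervalIntegral.integral_mono_on hT0.le
    · exact ((ct1.sub ct2).abs).intervalIntegrable _ _
    · exact ((ct2.const_mul _).add ct3).intervalIntegrable _ _
    · intro t _
      have e1 := h4 (Sc (xt t)) (S1 (xt t) - Sc (xt t))
      have e2 := p1 (xt t)
      rw [add_sub_cancel] at e1
      linarith
  set M1 : ℝ := (1 / T) * (∫ t in (0 : ℝ)..T, ‖S1 (xt t)‖ ^ k) with hM1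
  set Mc : ℝ := (1 / T) * (∫ t in (0 : ℝ)..T, ‖Sc (xt t)‖ ^ k) with hMc
  set MΞ : ℝ := (1 / T) * ∫ t in (0 : ℝ)..T, Ξ (xt t) with hMΞ
  have i2 : |M1 - Mc| ≤ η1 * Mc + MΞ := by
    have e1 : M1 - Mc = (1 / T) * ((∫ t in (0 : ℝ)..T, ‖S1 (xt t)‖ ^ k) - ∫ t in (0 : ℝ)..T, ‖Sc (xt t)‖ ^ k) := by
      rw [hM1, hMc]; ring
    rw [e1, abs_mul, abs_of_pos hT1]
    calc (1 / T) * _ ≤ (1 / T) * (η1 * (∫ t in (0 : ℝ)..T, ‖Sc (xt t)‖ ^ k) + ∫ t in (0 : ℝ)..T, Ξ (xt t)) := by gcongr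
      _ = _ := by rw [hMc, hMΞ]; ring
  have i3 : MΞ ≤ 2 * η' * L ^ κ4 := by
    have e1 := (abs_le.1 q3).2
    have e2 : η' * 1 ≤ η' * L ^ κ4 := by gcongr
    linarith
  have i4 : Mc ≤ (C + 4) * L ^ κ4 := by
    have e1 := (abs_le.1 q1).2
    have e2 := (abs_le.1 hCC).1
    have e3 : Cε ≤ C + 3 := by linarith
    have e4 : Cε * L ^ κ4 ≤ (C + 3) * L ^ κ4 := by gcongr
    have e5 : η' * L ^ κ4 ≤ 1 * L ^ κ4 := by gcongr
    linarith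
  have i5 : η1 * Mc ≤ η' * (C + 4) * L ^ κ4 := by
    calc η1 * Mc ≤ η1 * ((C + 4) * L ^ κ4) := by gcongr
      _ ≤ η' * ((C + 4) * L ^ κ4) := by gcongr
      _ = _ := by ring
  have i6 : |C * L ^ κ4 - Cε * L ^ κ4| ≤ 3 * η' * L ^ κ4 := by
    rw [← sub_mul, abs_mul, abs_of_pos hN]
    gcongr
  have hfin : |M1 - C * L ^ κ4| ≤ (η' * (C + 4) + 2 * η' + η' + 3 * η') * L ^ κ4 := by
    have e1 : M1 - C * L ^ κ4 = (M1 - Mc) + (Mc - Cε * L ^ κ4) + -(C * L ^ κ4 - Cε * L ^ κ4) := by ring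
    rw [e1]
    refine (abs_add_le _ _).trans ?_
    rw [abs_neg]
    have e2 := abs_add_le (M1 - Mc) (Mc - Cε * L ^ κ4)
    linarith
  refine hfin.trans ?_
  have e3 : (η' * (C + 4) + 2 * η' + η' + 3 * η') ≤ ε := by
    have e4 : η' * (C + 10) ≤ η * (C + 20) := by gcongr; linarith
    have e5 : η * (C + 20) = ε / 2 := by rw [hη]; field_simp
    linarith
  gcongr

end Pool.Agent.LibMM99
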