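import Mathlib
import Pool.Agent.LibMM99.J04

set_option autoImplicit false

namespace Pool.Agent.LibMM99

open MeasureTheory Filter Topology
open scoped ComplexConjugate

theorem SS_wsh_eq {N : ℕ} (hN : 2 ≤ N) (t : ℝ) : SS (fun u => (wsh u : ℂ)) (Real.log N) (xt t) =
    ∑ n ∈ Finset.Icc 1 N, (n : ℂ) ^ (-(1 / 2 + t * Complex.I) : ℂ) := by
  have hNR : (0 : ℝ) < N := by exact_mod_cast (by omega : 0 < N)
  have hlog : 0 < Real.log N := Real.log_pos (by exact_mod_cast (by omega : 1 < N))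
  rw [SS_xt, Real.exp_log hNR, Nat.floor_natCast]
  refine Finset.sum_congr rfl fun n hn => ?_
  obtain ⟨h1, h2⟩ := Finset.mem_Icc.1 hn
  have hnR : (0 : ℝ) < n := by exact_mod_cast h1
  have h3 : Real.log n / Real.log N ≤ 1 := by
    rw [div_le_one hlog]
    exact Real.log_le_log hnR (by exact_mod_cast h2)
  unfold wsh
  rw [if_pos h3]
  simp

/-- all moments of partial sums of length `T^{o(1)}` -/
theorem partial_sums_lim {k : ℝ} (hk : 0 < k) {C0 : ℝ} (hC0 : 1 ≤ C0) (hS : HasScale k C0) :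
    ∃ C : ℝ, 0 < C ∧
      Tendsto (fun L : ℝ => (∫ x, ‖SS (fun u => (wsh u : ℂ)) L x‖ ^ k ∂mu) / L ^ (k ^ 2 / 4)) atTop (𝓝 C) ∧ ∀ ε : ℝ, 0 < ε → ∃ A : ℝ, 0 < A ∧ ∀ (N : ℕ) (T : ℝ), A ≤ N → 0 < T → A * Real.log N ≤ Real.log T →
      |(Real.log N) ^ (-(k ^ 2 / 4)) * ((1 / T) * ∫ t in (0 : ℝ)..T,
        ‖∑ n ∈ Finset.Icc 1 N, (n : ℂ) ^ (-(1 / 2 + t * Complex.I) : ℂ)‖ ^ k) - C| < ε := by
  obtain ⟨C, hC, hlim, h⟩ := sharp_core hk hC0 hS
  refine ⟨C, hC, hlim, fun ε hε => ?_⟩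
  obtain ⟨θ, L0, hθ, hL0, h1⟩ := h (ε / 2) (by positivity)
  refine ⟨max (max (Real.exp L0) (1 / θ)) 2, by positivity, ?_⟩
  intro N T hN hT hNT
  have hN2 : 2 ≤ N := by
    have : (2 : ℝ) ≤ N := (le_max_right _ _).trans hN
    exact_mod_cast this
  have hNR : (0 : ℝ) < N := by exact_mod_cast (by omega : 0 < N)
  have hlog : 0 < Real.log N := Real.log_pos (by exact_mod_cast (by omega : 1 < N))
  have hL : L0 ≤ Real.log N := by
    rw [Real.le_log_iff_exp_le hNR]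
    exact ((le_max_left _ _).trans (le_max_left _ _)).trans hN
  have hA2 : 1 / θ * Real.log N ≤ Real.log T :=
    (mul_le_mul_of_nonneg_right ((le_max_right _ _).trans (le_max_left _ _)) hlog.le).trans hNT
  have hlogT : 0 ≤ Real.log T := by
    have : 0 ≤ 1 / θ * Real.log N := by positivity
    linarith
  have hT1 : 1 ≤ T := by
    by_contra hlt
    push Not at hlt
    have := Real.log_neg hT hlt
    linarith
  have hLθ : Real.log N ≤ θ * Real.log T := by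
    rw [one_div, inv_mul_eq_div, div_le_iff₀ hθ] at hA2
    linarith
  have h2 := h1 (Real.log N) T hL hT1 hLθ
  have h3 : ∀ t : ℝ, ‖SS (fun u => (wsh u : ℂ)) (Real.log N) (xt t)‖ ^ k =
      ‖∑ n ∈ Finset.Icc 1 N, (n : ℂ) ^ (-(1 / 2 + t * Complex.I) : ℂ)‖ ^ k := by
    intro t; rw [SS_wsh_eq hN2]
  simp only [h3] at h2
  have hp : 0 < (Real.log N) ^ (k ^ 2 / 4) := Real.rpow_pos_of_pos hlog _
  set M : ℝ := (1 / T) * ∫ t in (0 : ℝ)..T,
        ‖∑ n ∈ Finset.Icc 1 N, (n : ℂ) ^ (-(1 / 2 + t * Complex.I) : ℂ)‖ ^ k with hM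
  rw [Real.rpow_neg hlog.le]
  have h4 : ((Real.log N) ^ (k ^ 2 / 4))⁻¹ * M - C = ((Real.log N) ^ (k ^ 2 / 4))⁻¹ * (M - C * (Real.log N) ^ (k ^ 2 / 4)) := by
    field_simp
  rw [h4, abs_mul, abs_of_pos (inv_pos.2 hp), inv_mul_lt_iff₀ hp]
  have h5 : 0 < Real.log N ^ (k ^ 2 / 4) * ε := by positivity
  linarith

end Pool.Agent.LibMM99
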