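import Mathlib
import Pool.Agent.LibMM99.J03
import Pool.Agent.LibMM99.K5
import Pool.Agent.LibMM99.K6

set_option autoImplicit false

namespace Pool.Agent.LibMM99

open MeasureTheory Filter Topology
open scoped ComplexConjugate

/-- the sharp cutoff as a complex valued weight -/
noncomputable def wshc (u : ℝ) : ℂ := ((wsh u : ℝ) : ℂ)

theorem wshc_supp (u : ℝ) (hu : 1 < u) : wshc u = 0 := by
  unfold wshc
  rw [isMono_wsh.supp u hu, Complex.ofReal_zero]

theorem norm_wshc_le (u : ℝ) : ‖wshc u‖ ≤ 1 := by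
  unfold wshc wsh
  split_ifs <;> simp

theorem s1_norm_b (δ : ℝ) (M : ℕ) (L : ℝ) (n : ℕ) : ‖t22b_b wshc δ M L n‖ ≤ 1 := by
  classical
  by_cases hg : t22b_Good δ M L n
  · rw [t22b_b_pos hg]
    exact norm_wshc_le _
  · rw [t22b_b_neg hg, norm_zero]; norm_num

theorem s1_Q_eq {δ : ℝ} (hδ : 0 < δ) (hδ1 : δ < 1) {w : ℝ → ℂ} (hsupp : ∀ u : ℝ, 1 < u → w u = 0)
    {M : ℕ} (hM : 0 < M) {L : ℝ} (hL : 0 < L) (x : Om) :
    MvPolynomial.eval (fun j => GG δ M L j x) (Qw w δ M) =
      DS (smo (Real.exp (δ * L)) (Real.exp L) (Real.exp L)) (t22b_b w δ M L) x := by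
  classical
  rw [Qw_eval hδ hδ1 w hM hL x]
  unfold DS
  set T := smo (Real.exp (δ * L)) (Real.exp L) (Real.exp L) with hT
  have h1 : ∀ S ∈ (goodS δ M L).filter (fun S => w (uS δ M L S) ≠ 0), (∏ p ∈ S, p).primeFactors = S := by
    intro S hS
    rw [Finset.mem_filter, t22b_mem_goodS] at hS
    exact Nat.primeFactors_prod fun p hp => (t22a_mem_prm.1 (hS.1.1 hp)).1
  rw [← Finset.sum_filter_add_sum_filter_not (goodS δ M L) (fun S => w (uS δ M L S) ≠ 0),
    Finset.sum_eq_zero (s := (goodS δ M L).filter (fun S => ¬ w (uS δ M L S) ≠ 0)), add_zero]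
  swap
  · intro S hS
    have := (Finset.mem_filter.1 hS).2
    rw [not_not] at this
    rw [this, zero_mul, zero_mul]
  rw [← Finset.sum_filter_add_sum_filter_not T (fun n => t22b_b w δ M L n ≠ 0),
    Finset.sum_eq_zero (s := T.filter (fun n => ¬ t22b_b w δ M L n ≠ 0)), add_zero]
  swap
  · intro n hn
    have := (Finset.mem_filter.1 hn).2
    rw [not_not] at this
    rw [this, zero_mul, zero_mul]
  refine Finset.sum_bij' (fun S _ => ∏ p ∈ S, p) (fun n _ => n.primeFactors) ?_ ?_ ?_ ?_ ?_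
  · intro S hS
    have hS1 := h1 S hS
    rw [Finset.mem_filter] at hS
    have hg : t22b_Good δ M L (∏ p ∈ S, p) := by
      unfold t22b_Good
      rw [hS1]; exact ⟨rfl, hS.1⟩
    have hS2 := t22b_mem_goodS.1 hS.1
    have hpr : ∀ p ∈ S, p.Prime := fun p hp => (t22a_mem_prm.1 (hS2.1 hp)).1
    have hpos : 0 < ∏ p ∈ S, p := Finset.prod_pos fun p hp => (hpr p hp).pos
    have hu1 : uS δ M L S ≤ 1 := by
      by_contra hcon
      exact hS.2 (hsupp _ (not_le.1 hcon))
    have hlog := (t22b_uS_set hδ hδ1 hM hL hS2.1).1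
    rw [div_le_iff₀ hL] at hlog
    rw [Finset.mem_filter, t22b_b_pos hg, hS1, hT, t22b_mem_smo (Real.exp_pos _).le]
    refine ⟨⟨hpos, ?_, ?_⟩, hS.2⟩
    · rw [← Real.log_le_iff_le_exp (by exact_mod_cast hpos)]
      nlinarith
    · intro p hp
      rw [hS1] at hp
      exact (t22a_mem_prm.1 (hS2.1 hp)).2
  · intro n hn
    rw [Finset.mem_filter] at hn
    have hg : t22b_Good δ M L n := by
      by_contra hcon
      exact hn.2 (t22b_b_neg hcon)
    rw [Finset.mem_filter]
    exact ⟨hg.2, by rw [← t22b_b_pos (w := w) hg]; exact hn.2⟩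
  · intro S hS
    exact h1 S hS
  · intro n hn
    rw [Finset.mem_filter] at hn
    have hg : t22b_Good δ M L n := by
      by_contra hcon
      exact hn.2 (t22b_b_neg hcon)
    exact hg.1
  · intro S hS
    have hS1 := h1 S hS
    rw [Finset.mem_filter] at hS
    have hg : t22b_Good δ M L (∏ p ∈ S, p) := by
      unfold t22b_Good
      rw [hS1]; exact ⟨rfl, hS.1⟩
    rw [t22b_b_pos hg, hS1]

/-- the coefficients of `A - Q` at good numbers -/
theorem s1_good_coeff {δ : ℝ} (hδ : 0 < δ) (hδ1 : δ < 1)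
    {M : ℕ} (hM : 0 < M) {L : ℝ} (hL : 0 < L) {n : ℕ}
    (hn : n ∈ smo (Real.exp (δ * L)) (Real.exp L) (Real.exp L)) (hg : t22b_Good δ M L n) :
    ‖wshc (Real.log n / L) - t22b_b wshc δ M L n‖ ≤ 1 ∧
      (Real.exp (L / (δ * M)) * n < Real.exp L → wshc (Real.log n / L) - t22b_b wshc δ M L n = 0) := by
  have hM' : (0 : ℝ) < M := by exact_mod_cast hM
  rw [t22b_b_pos hg]
  rw [t22b_mem_smo (Real.exp_pos _).le] at hn
  have hsub := (t22b_mem_goodS.1 hg.2).1
  have h1 := t22b_uS_set hδ hδ1 hM hL hsub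
  rw [hg.1] at h1
  have hn0 : (0 : ℝ) < n := by exact_mod_cast hn.1
  have hlogn : Real.log n ≤ L := by
    rw [Real.log_le_iff_le_exp hn0]; exact hn.2.1
  have hlog0 : 0 ≤ Real.log n := Real.log_natCast_nonneg n
  have hcard : (n.primeFactors.card : ℝ) * (δ * L) ≤ L := by
    apply t22b_prod_le (S := n.primeFactors)
    · intro p hp
      have hp1 := t22a_mem_prm.1 (hsub hp)
      refine ⟨hp1.1, ?_⟩
      rw [Real.lt_log_iff_exp_lt (by exact_mod_cast hp1.1.pos)]
      exact hp1.2.1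
    · rw [hg.1]; exact hlogn
  have hcard' : (n.primeFactors.card : ℝ) ≤ 1 / δ := by
    rw [le_div_iff₀ hδ]
    have : (n.primeFactors.card : ℝ) * δ * L ≤ 1 * L := by linarith
    exact le_of_mul_le_mul_right this hL
  have hw1 : wshc (Real.log n / L) = 1 := by
    unfold wshc wsh
    rw [if_pos (by rw [div_le_one hL]; exact hlogn)]
    simp
  rw [hw1]
  constructor
  · unfold wshc wsh
    split_ifs <;> simp
  · intro hlt
    have h2 : Real.log n / L + 1 / (δ * M) < 1 := by
      have h3 := Real.log_lt_log (by positivity) hlt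
      rw [Real.log_mul (Real.exp_pos _).ne' hn0.ne', Real.log_exp, Real.log_exp] at h3
      have h4 : Real.log n / L + 1 / (δ * M) = (L / (δ * M) + Real.log n) / L := by
        field_simp
        ring
      rw [h4, div_lt_one hL]
      exact h3
    have h5 : (n.primeFactors.card : ℝ) * ((1 - δ) / M) ≤ 1 / (δ * M) := by
      calc (n.primeFactors.card : ℝ) * ((1 - δ) / M) ≤ 1 / δ * (1 / M) := by
            have : 1 - δ ≤ 1 := by linarith
            have : 0 ≤ 1 - δ := by linarith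
            gcongr
        _ = 1 / (δ * M) := by field_simp
    have h6 : uS δ M L n.primeFactors ≤ 1 := by linarith [h1.2]
    unfold wshc wsh
    rw [if_pos h6]
    simp

/-- `window_approx` for the sharp cutoff -/
theorem window_approx_sharp {δ : ℝ} (hδ : 0 < δ) (hδ1 : δ < 1) :
    ∃ C : ℕ → ℝ, ∀ ε : ℝ, 0 < ε → ∃ M0 : ℕ, 1 ≤ M0 ∧ ∀ M : ℕ, M0 ≤ M → ∃ L0 : ℝ, ∀ L : ℝ, L0 ≤ L →
      (∫ x, ‖DS (smo (Real.exp (δ * L)) (Real.exp L) (Real.exp L)) (fun n => ((wsh (Real.log n / L) : ℝ) : ℂ)) x -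
        MvPolynomial.eval (fun j => GG δ M L j x) (Qw wshc δ M)‖ ^ 2 ∂mu ≤ ε) ∧
      (∀ s : ℕ, ∫ x, ‖MvPolynomial.eval (fun j => GG δ M L j x) (Qw wshc δ M)‖ ^ (2 * s) ∂mu ≤ C s) := by
  classical
  choose C hC0 hC using sum_smo_tau_le
  have htau : ∀ (r : ℕ) (L : ℝ), 0 < L → Real.sqrt 2 ≤ Real.exp (δ * L) →
      ∑ n ∈ smo (Real.exp (δ * L)) (Real.exp L) (Real.exp L), LibZM.tau (r : ℝ) n * (n : ℝ)⁻¹ ≤
        C r * (1 / δ) ^ r := by
    intro r L hL h2
    have h := hC r (Real.exp (δ * L)) (Real.exp L) (Real.exp L) 0 h2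
      (Real.exp_le_exp.2 (by nlinarith)) le_rfl (by norm_num)
    rw [Real.log_exp, Real.log_exp] at h
    have h3 : L / (δ * L) = 1 / δ := by field_simp
    rw [h3] at h
    refine le_trans (le_of_eq ?_) h
    refine Finset.sum_congr rfl fun n _ => ?_
    rw [zero_sub, Real.rpow_neg_one]
  obtain ⟨CQ, hCQ, hcross⟩ := sum_smo_tau_cross 1
  refine ⟨fun s => (C s * (1 / δ) ^ s) ^ s, fun ε hε => ?_⟩
  set C1 := C 1 with hC1
  have hC1pos : 0 < C1 := hC0 1
  obtain ⟨M0, hM0⟩ := exists_nat_gt (2 * (CQ / δ ^ 2 + 4 * C1 / δ ^ 3) / ε)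
  have hM0pos : 1 ≤ M0 := by
    have : (0 : ℝ) < M0 := lt_of_le_of_lt (by positivity) hM0
    exact_mod_cast this
  refine ⟨M0, hM0pos, fun M hMM => ?_⟩
  have hM : 2 * (CQ / δ ^ 2 + 4 * C1 / δ ^ 3) / ε < (M : ℝ) :=
    lt_of_lt_of_le hM0 (by exact_mod_cast hMM)
  have hMpos : 0 < M := by
    have : (0 : ℝ) < M := lt_of_le_of_lt (by positivity) hM
    exact_mod_cast this
  have hM' : (0 : ℝ) < M := by exact_mod_cast hMpos
  have hM1 : (1 : ℝ) ≤ M := by exact_mod_cast hMpos
  have hwin : ∀ j : Fin M, ∀ᶠ L : ℝ in atTop, ∑ p ∈ win δ M L j, (p : ℝ)⁻¹ ≤ 2 / (δ * M) := by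
    intro j
    have ha : 0 < δ + (1 - δ) * (j : ℕ) / M := by
      have : 0 ≤ 1 - δ := by linarith
      positivity
    have hab : δ + (1 - δ) * (j : ℕ) / M < δ + (1 - δ) * ((j : ℕ) + 1) / M := by
      have : 0 < 1 - δ := by linarith
      have h1 : ((j : ℕ) : ℝ) < (j : ℕ) + 1 := by linarith
      gcongr
    have h := window_tendsto ha hab
    have hlt : Real.log ((δ + (1 - δ) * ((j : ℕ) + 1) / M) / (δ + (1 - δ) * (j : ℕ) / M)) <
        2 / (δ * M) := by
      have hb : 0 < δ + (1 - δ) * ((j : ℕ) + 1) / M := ha.trans hab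
      have h1 := Real.log_le_sub_one_of_pos (div_pos hb ha)
      refine lt_of_le_of_lt h1 ?_
      have h2 : (δ + (1 - δ) * ((j : ℕ) + 1) / M) / (δ + (1 - δ) * (j : ℕ) / M) - 1 =
          ((1 - δ) / M) / (δ + (1 - δ) * (j : ℕ) / M) := by
        rw [div_sub_one ha.ne']
        congr 1
        ring
      rw [h2]
      have h3 : δ ≤ δ + (1 - δ) * (j : ℕ) / M := by
        have : 0 ≤ (1 - δ) * (j : ℕ) / M := by
          have : 0 ≤ 1 - δ := by linarith
          positivity
        linarith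
      calc ((1 - δ) / M) / (δ + (1 - δ) * (j : ℕ) / M) ≤ (1 / M) / δ := by
            have h4 : 1 - δ ≤ 1 := by linarith
            gcongr
        _ = 1 / (δ * M) := by field_simp
        _ < 2 / (δ * M) := by gcongr; norm_num
    filter_upwards [h.eventually_lt_const hlt] with L hL
    unfold win
    exact hL.le
  have hall := eventually_all.2 hwin
  obtain ⟨L1, hL1⟩ := eventually_atTop.1 hall
  refine ⟨max (max L1 1) (max (Real.log 2 / δ) (2 * CQ / (δ * ε))), fun L hL => ?_⟩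
  have hLL1 : L1 ≤ L := le_trans (le_trans (le_max_left _ _) (le_max_left _ _)) hL
  have hL1' : 1 ≤ L := le_trans (le_trans (le_max_right _ _) (le_max_left _ _)) hL
  have hL2 : Real.log 2 / δ ≤ L := le_trans (le_trans (le_max_left _ _) (le_max_right _ _)) hL
  have hL3 : 2 * CQ / (δ * ε) ≤ L := le_trans (le_trans (le_max_right _ _) (le_max_right _ _)) hL
  have hL0 : 0 < L := by linarith
  have hs2 : Real.sqrt 2 ≤ Real.exp (δ * L) := by
    have h1 : Real.log 2 ≤ δ * L := by
      rw [div_le_iff₀ hδ] at hL2; linarith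
    have h2 : (2 : ℝ) ≤ Real.exp (δ * L) := by
      rw [← Real.log_le_iff_le_exp (by norm_num)]; exact h1
    have h3 : Real.sqrt 2 ≤ 2 := by
      rw [Real.sqrt_le_left (by norm_num)]; norm_num
    linarith
  set T := smo (Real.exp (δ * L)) (Real.exp L) (Real.exp L) with hT
  have hT1 : ∀ n ∈ T, 1 ≤ n := by
    intro n hn
    rw [hT, t22b_mem_smo (Real.exp_pos _).le] at hn
    exact hn.1
  have hV : t22b_V T ≤ C1 / δ := by
    have h := htau 1 L hL0 hs2
    rw [pow_one] at h
    refine le_trans (le_of_eq ?_) (h.trans (le_of_eq (by ring)))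
    unfold t22b_V
    refine Finset.sum_congr rfl fun n hn => ?_
    rw [Nat.cast_one, LibZM.tau_one_apply (by have := hT1 n hn; omega), one_mul]
  constructor
  · have h1 : ∀ x, DS T (fun n => ((wsh (Real.log n / L) : ℝ) : ℂ)) x -
        MvPolynomial.eval (fun j => GG δ M L j x) (Qw wshc δ M) =
        DS T (fun n => wshc (Real.log n / L) - t22b_b wshc δ M L n) x := by
      intro x
      rw [s1_Q_eq hδ hδ1 wshc_supp hMpos hL0 x, DS_sub]
      rfl
    simp_rw [h1]
    rw [integral_norm_sq T hT1]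
    rw [← Finset.sum_filter_add_sum_filter_not T (fun n => t22b_Good δ M L n)]
    have hgood : ∑ n ∈ T.filter (fun n => t22b_Good δ M L n),
        ‖wshc (Real.log n / L) - t22b_b wshc δ M L n‖ ^ 2 / n ≤ CQ * ((1 + L / (δ * M)) / L) * (1 / δ) := by
      have hc := hcross (Real.exp (δ * L)) (Real.exp L) (Real.exp L) (Real.exp (L / (δ * M))) hs2
        (Real.exp_le_exp.2 (by nlinarith)) (Real.one_le_exp (by positivity)) (Real.one_lt_exp_iff.2 hL0)
      rw [Real.log_exp, Real.log_exp, Real.log_exp, pow_one] at hc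
      have h3 : L / (δ * L) = 1 / δ := by field_simp
      rw [h3] at hc
      refine le_trans ?_ hc
      rw [Finset.sum_filter, Finset.sum_filter]
      refine Finset.sum_le_sum fun n hn => ?_
      have hn1 := hT1 n hn
      have hnR : (0 : ℝ) < n := by exact_mod_cast hn1
      by_cases hg : t22b_Good δ M L n
      · rw [if_pos hg]
        obtain ⟨hb1, hb2⟩ := s1_good_coeff hδ hδ1 hMpos hL0 hn hg
        split_ifs with hc2
        · rw [Nat.cast_one, LibZM.tau_one_apply (by omega)]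
          gcongr
          exact pow_le_one₀ (norm_nonneg _) hb1
        · rw [hb2 (not_le.1 hc2)]
          simp
      · rw [if_neg hg]
        split_ifs with hc2
        · rw [Nat.cast_one, LibZM.tau_one_apply (by omega)]
          positivity
        · exact le_rfl
    have hbad : ∑ n ∈ T.filter (fun n => ¬ t22b_Good δ M L n),
        ‖wshc (Real.log n / L) - t22b_b wshc δ M L n‖ ^ 2 / n ≤ (M * (2 / (δ * M)) ^ 2) * t22b_V T := by
      calc ∑ n ∈ T.filter (fun n => ¬ t22b_Good δ M L n),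
            ‖wshc (Real.log n / L) - t22b_b wshc δ M L n‖ ^ 2 / n
          ≤ ∑ n ∈ T.filter (fun n => ¬ t22b_Good δ M L n), (n : ℝ)⁻¹ := by
            refine Finset.sum_le_sum fun n hn => ?_
            rw [Finset.mem_filter] at hn
            rw [t22b_b_neg hn.2, sub_zero, div_eq_mul_inv]
            have h2 := norm_wshc_le (Real.log n / L)
            have h3 : ‖wshc (Real.log n / L)‖ ^ 2 ≤ 1 := pow_le_one₀ (norm_nonneg _) h2
            have h4 : 0 ≤ (n : ℝ)⁻¹ := by positivity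
            nlinarith
        _ ≤ ((∑ j : Fin M, (∑ p ∈ win δ M L j, (p : ℝ)⁻¹) ^ 2) * t22b_V T) := by
            exact t22b_bad_sum (fun n => ¬ t22b_Good δ M L n)
              (fun n hn hng => t22b_bad_of_not_good hδ hδ1 hMpos hL0 hn hng)
        _ ≤ _ := by
            have hV0 : 0 ≤ t22b_V T := Finset.sum_nonneg fun _ _ => by positivity
            gcongr
            calc ∑ j : Fin M, (∑ p ∈ win δ M L j, (p : ℝ)⁻¹) ^ 2
                ≤ ∑ j : Fin M, (2 / (δ * M)) ^ 2 := by
                  refine Finset.sum_le_sum fun j _ => ?_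
                  have h0 : 0 ≤ ∑ p ∈ win δ M L j, (p : ℝ)⁻¹ :=
                    Finset.sum_nonneg fun _ _ => by positivity
                  have := hL1 L hLL1 j
                  gcongr
              _ = M * (2 / (δ * M)) ^ 2 := by simp
    refine (add_le_add hgood hbad).trans ?_
    have hV0 : 0 ≤ t22b_V T := Finset.sum_nonneg fun _ _ => by positivity
    calc CQ * ((1 + L / (δ * M)) / L) * (1 / δ) + (M * (2 / (δ * M)) ^ 2) * t22b_V T
        ≤ CQ * ((1 + L / (δ * M)) / L) * (1 / δ) + (M * (2 / (δ * M)) ^ 2) * (C1 / δ) := by gcongr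
      _ = CQ / (δ * L) + (CQ / δ ^ 2 + 4 * C1 / δ ^ 3) / M := by field_simp; ring
      _ ≤ ε / 2 + ε / 2 := by
          apply add_le_add
          · rw [div_le_iff₀ (by positivity)]
            rw [div_le_iff₀ (by positivity)] at hL3
            linarith
          · rw [div_le_iff₀ hM']
            rw [div_lt_iff₀ hε] at hM
            linarith
      _ = ε := by ring
  · intro s
    have h1 : ∀ x, MvPolynomial.eval (fun j => GG δ M L j x) (Qw wshc δ M) =
        ∑ n ∈ T, t22b_b wshc δ M L n * (((Real.sqrt ((id n : ℕ) : ℝ))⁻¹ : ℝ) : ℂ) * ch x (id n) := by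
      intro x
      rw [s1_Q_eq hδ hδ1 wshc_supp hMpos hL0 x]
      rfl
    simp_rw [h1]
    refine (moment_le s T id (t22b_b wshc δ M L) 1 hT1 Function.injective_id.injOn
      (fun n _ => s1_norm_b δ M L n)).trans ?_
    have h2 := htau s L hL0 hs2
    have h3 : ∑ n ∈ T, ‖t22b_b wshc δ M L n‖ * LibZM.tau (s : ℝ) (id n) / ((id n : ℕ) : ℝ) ≤
        (C s * (1 / δ) ^ s) := by
      calc ∑ n ∈ T, ‖t22b_b wshc δ M L n‖ * LibZM.tau (s : ℝ) (id n) / ((id n : ℕ) : ℝ)
          ≤ ∑ n ∈ T, (LibZM.tau (s : ℝ) n * (n : ℝ)⁻¹) := by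
            refine Finset.sum_le_sum fun n _ => ?_
            have h4 := s1_norm_b δ M L n
            have h5 : 0 ≤ LibZM.tau (s : ℝ) n * (n : ℝ)⁻¹ :=
              mul_nonneg (LibZM.tau_nonneg (Nat.cast_nonneg s) n) (by positivity)
            simp only [id]
            rw [div_eq_mul_inv, mul_assoc]
            nlinarith
        _ ≤ _ := h2
    have h6 : 0 ≤ ∑ n ∈ T, ‖t22b_b wshc δ M L n‖ * LibZM.tau (s : ℝ) (id n) / ((id n : ℕ) : ℝ) :=
      Finset.sum_nonneg fun n _ => div_nonneg (mul_nonneg (norm_nonneg _)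
        (LibZM.tau_nonneg (Nat.cast_nonneg s) _)) (Nat.cast_nonneg _)
    rw [one_pow, one_mul]
    gcongr

end Pool.Agent.LibMM99
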