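import Mathlib
import Pool.Agent.LibMM99.S1

set_option autoImplicit false

namespace Pool.Agent.LibMM99

open MeasureTheory Filter Topology
open scoped ComplexConjugate

/-- moments of sums over rough numbers with bounded coefficients -/
theorem top_moment_one {δ : ℝ} (hδ : 0 < δ) (hδ1 : δ ≤ 1) (r : ℕ) : ∃ C L0 : ℝ, 0 < C ∧ ∀ a : ℕ → ℂ, (∀ n, ‖a n‖ ≤ 1) →
    ∀ L : ℝ, L0 ≤ L →
    ∫ x, ‖DS (smo (Real.exp (δ * L)) (Real.exp L) (Real.exp L)) a x‖ ^ (2 * r) ∂mu ≤ C := by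
  obtain ⟨C, hC, h⟩ := sum_smo_tau_le r
  refine ⟨(C * (1 / δ) ^ r) ^ r, max 1 (Real.log 2 / 2 / δ), by positivity, ?_⟩
  intro a ha L hL'
  have hL : 1 ≤ L := (le_max_left _ _).trans hL'
  have hL2 : Real.log 2 / 2 / δ ≤ L := (le_max_right _ _).trans hL'
  have hL0 : 0 < L := by linarith
  set S := smo (Real.exp (δ * L)) (Real.exp L) (Real.exp L) with hS
  have h1 := moment_le r S (fun n => n) a 1
    (fun i hi => (mem_smo.1 hi).1.1) (fun a _ b _ hab => hab) (fun i _ => ha i)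
  have h2 := h (Real.exp (δ * L)) (Real.exp L) (Real.exp L) 0
    (sqrt_two_le_exp (by rw [div_le_iff₀ hδ] at hL2; linarith))
    (Real.exp_le_exp.2 (by nlinarith)) le_rfl (by simp)
  rw [Real.log_exp, Real.log_exp] at h2
  have h3 : L / (δ * L) = 1 / δ := by field_simp
  rw [h3] at h2
  have hτ : ∀ n : ℕ, 0 ≤ LibZM.tau (r : ℝ) n := fun n => LibZM.tau_nonneg (Nat.cast_nonneg r) n
  have h4 : ∑ i ∈ S, ‖a i‖ * LibZM.tau (r : ℝ) i / i ≤ C * (1 / δ) ^ r := by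
    refine le_trans ?_ h2
    apply Finset.sum_le_sum
    intro i hi
    have h5 : (i : ℝ) ^ ((0 : ℝ) - 1) = (i : ℝ)⁻¹ := by
      rw [zero_sub, Real.rpow_neg_one]
    rw [h5, div_eq_mul_inv, mul_assoc]
    have h6 : 0 ≤ LibZM.tau (r : ℝ) i * (i : ℝ)⁻¹ := mul_nonneg (hτ i) (by positivity)
    have h7 := ha i
    nlinarith
  have hnn : 0 ≤ ∑ i ∈ S, ‖a i‖ * LibZM.tau (r : ℝ) i / i := by
    apply Finset.sum_nonneg
    intro i _
    have := hτ i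
    positivity
  rw [one_pow, one_mul] at h1
  calc ∫ x, ‖DS S a x‖ ^ (2 * r) ∂mu ≤ _ := h1
    _ ≤ _ := by gcongr

theorem s2_close {k : ℝ} (hk : 0 < k) {δ : ℝ} (hδ : 0 < δ) (hδ1 : δ < 1) {ε : ℝ} (hε : 0 < ε) : ∃ M0 : ℕ, ∀ M : ℕ, M0 ≤ M → ∃ L0 : ℝ, ∀ L : ℝ, L0 ≤ L →
    |∫ x, ‖DS (smo (Real.exp (δ * L)) (Real.exp L) (Real.exp L))
        (fun n => wshc (Real.log n / L)) x‖ ^ k ∂mu -
      ∫ x, ‖MvPolynomial.eval (fun j => GG δ M L j x) (Qw wshc δ M)‖ ^ k ∂mu| ≤ ε := by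
  set s : ℕ := ⌈k⌉₊ with hs
  have hks : k ≤ s := Nat.le_ceil k
  obtain ⟨C1, hC1, h1⟩ := rpow_sub_le hk hks
  obtain ⟨Cw, h2⟩ := window_approx_sharp hδ hδ1
  obtain ⟨CA, LA, hCA, h3⟩ := top_moment_one hδ hδ1.le s
  set W : ℝ := 1 + CA + |Cw s| with hW
  have hW0 : 0 < W := by positivity
  set ρ : ℝ := min 1 (ε / (2 * C1 * W)) with hρ
  have hρ0 : 0 < ρ := lt_min one_pos (by positivity)
  have hρ1 : ρ ≤ 1 := min_le_left _ _
  have hρ2 : C1 * ρ * W ≤ ε / 2 := by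
    have : ρ ≤ ε / (2 * C1 * W) := min_le_right _ _
    calc C1 * ρ * W ≤ C1 * (ε / (2 * C1 * W)) * W := by gcongr
      _ = ε / 2 := by field_simp
  obtain ⟨D, hD, h4⟩ := h1 ρ hρ0 hρ1
  obtain ⟨M0, hM01, hM0⟩ := h2 (ε / (2 * D)) (by positivity)
  refine ⟨M0, fun M hM => ?_⟩
  obtain ⟨LQ, hLQ⟩ := hM0 M hM
  refine ⟨max LA LQ, fun L hL => ?_⟩
  have hLA : LA ≤ L := le_trans (le_max_left _ _) hL
  have hLQ' : LQ ≤ L := le_trans (le_max_right _ _) hL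
  obtain ⟨h11, h12⟩ := hLQ L hLQ'
  set A : Om → ℂ := DS (smo (Real.exp (δ * L)) (Real.exp L) (Real.exp L)) (fun n => wshc (Real.log n / L)) with hA
  set B : Om → ℂ := fun x => MvPolynomial.eval (fun j => GG δ M L j x) (Qw wshc δ M) with hB
  have hAc : Continuous A := continuous_DS _ _
  have hBc : Continuous B := k6_cont L _
  have iA : Integrable (fun x => ‖A x‖ ^ k) mu :=
    integrable_of_continuous (hAc.norm.rpow_const fun _ => Or.inr hk.le)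
  have iB : Integrable (fun x => ‖B x‖ ^ k) mu :=
    integrable_of_continuous (hBc.norm.rpow_const fun _ => Or.inr hk.le)
  have i1 : Integrable (fun x => ‖A x - B x‖ ^ 2) mu := integrable_of_continuous (by fun_prop)
  have i2 : Integrable (fun x => ‖A x‖ ^ (2 * s)) mu := integrable_of_continuous (by fun_prop)
  have i3 : Integrable (fun x => ‖B x‖ ^ (2 * s)) mu := integrable_of_continuous (by fun_prop)
  have i5 : Integrable (fun x => D * ‖A x - B x‖ ^ 2) mu := i1.const_mul D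
  have i6 : Integrable (fun x => 1 + ‖A x‖ ^ (2 * s)) mu := (integrable_const 1).add i2
  have i7 : Integrable (fun x => 1 + ‖A x‖ ^ (2 * s) + ‖B x‖ ^ (2 * s)) mu := i6.add i3
  have i8 : Integrable (fun x => C1 * ρ * (1 + ‖A x‖ ^ (2 * s) + ‖B x‖ ^ (2 * s))) mu := i7.const_mul _
  have i9 : Integrable (fun x => D * ‖A x - B x‖ ^ 2 + C1 * ρ * (1 + ‖A x‖ ^ (2 * s) + ‖B x‖ ^ (2 * s))) mu :=
    i5.add i8
  have e1 : ∫ x, (D * ‖A x - B x‖ ^ 2 + C1 * ρ * (1 + ‖A x‖ ^ (2 * s) + ‖B x‖ ^ (2 * s))) ∂mu =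
      D * ∫ x, ‖A x - B x‖ ^ 2 ∂mu + C1 * ρ * (1 + (∫ x, ‖A x‖ ^ (2 * s) ∂mu) + ∫ x, ‖B x‖ ^ (2 * s) ∂mu) := by
    rw [integral_add i5 i8, integral_const_mul, integral_const_mul, integral_add i6 i3,
      integral_add (integrable_const 1) i2]
    simp
  have e2 : D * ∫ x, ‖A x - B x‖ ^ 2 ∂mu ≤ ε / 2 := by
    calc D * ∫ x, ‖A x - B x‖ ^ 2 ∂mu ≤ D * (ε / (2 * D)) := mul_le_mul_of_nonneg_left h11 hD.le
      _ = ε / 2 := by field_simp
  have e3 : C1 * ρ * (1 + (∫ x, ‖A x‖ ^ (2 * s) ∂mu) + ∫ x, ‖B x‖ ^ (2 * s) ∂mu) ≤ ε / 2 := by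
    refine le_trans ?_ hρ2
    have h17 := h3 (fun n => wshc (Real.log n / L)) (fun n => norm_wshc_le _) L hLA
    have h18 := h12 s
    have h19 := le_abs_self (Cw s)
    apply mul_le_mul_of_nonneg_left _ (by positivity)
    rw [hW]
    linarith
  calc |∫ x, ‖A x‖ ^ k ∂mu - ∫ x, ‖B x‖ ^ k ∂mu|
      = |∫ x, (‖A x‖ ^ k - ‖B x‖ ^ k) ∂mu| := by rw [integral_sub iA iB]
    _ ≤ ∫ x, |‖A x‖ ^ k - ‖B x‖ ^ k| ∂mu := abs_integral_le_integral_abs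
    _ ≤ ∫ x, (D * ‖A x - B x‖ ^ 2 + C1 * ρ * (1 + ‖A x‖ ^ (2 * s) + ‖B x‖ ^ (2 * s))) ∂mu :=
        integral_mono (iA.sub iB).abs i9 fun x => h4 (A x) (B x)
    _ ≤ ε := by rw [e1]; linarith

/-- the moment of the sum over rough numbers converges, and the limit is the limit of Gaussian integrals -/
theorem top_limit_sharp {k : ℝ} (hk : 0 < k) {δ : ℝ} (hδ : 0 < δ) (hδ1 : δ < 1) :
    ∃ l : ℝ, Tendsto (fun L : ℝ => ∫ x, ‖DS (smo (Real.exp (δ * L)) (Real.exp L) (Real.exp L))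
        (fun n => wshc (Real.log n / L)) x‖ ^ k ∂mu) atTop (𝓝 l) ∧
      Tendsto (fun M : ℕ => gaussMom k wshc δ M) atTop (𝓝 l) := by
  apply k6_double
  intro ε hε
  obtain ⟨M0, hM0⟩ := s2_close hk hδ hδ1 (ε := ε / 2) (by positivity)
  refine ⟨M0, fun M hM => ?_⟩
  obtain ⟨L0, hL0⟩ := hM0 M hM
  obtain ⟨L1, hL1⟩ := (Metric.tendsto_atTop.1 (k6_gauss hk hδ hδ1 wshc M)) (ε / 2) (by positivity)
  refine ⟨max L0 L1, fun L hL => ?_⟩
  have h1 := hL0 L (le_trans (le_max_left _ _) hL)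
  have h2 := hL1 L (le_trans (le_max_right _ _) hL)
  rw [Real.dist_eq] at h2
  rw [abs_le] at h1 ⊢
  rw [abs_lt] at h2
  constructor
  · linarith [h1.1, h1.2, h2.1, h2.2]
  · linarith [h1.1, h1.2, h2.1, h2.2]

end Pool.Agent.LibMM99
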