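import Mathlib
import Pool.Agent.LibMM99.J05
import Pool.Agent.LibMM99.K7
import Pool.Agent.LibMM99.K8
import Pool.Agent.LibMM99.K9
import Pool.Agent.LibMM99.S2

set_option autoImplicit false

namespace Pool.Agent.LibMM99

open MeasureTheory Filter Topology
open scoped ComplexConjugate

/-- all moments of partial sums of length `T^{o(1)}` with the explicit constant -/
theorem partial_sums_full {k : ℝ} (hk : 0 < k) {C0 : ℝ} (hC0 : 1 ≤ C0) (hS : HasScale k C0) :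
    ∃ (G : ℝ) (g : ℝ → ℝ), 0 < G ∧
      (∀ δ : ℝ, 0 < δ → δ < 1 → Tendsto (fun M : ℕ => gaussMom k wshc δ M) atTop (𝓝 (g δ))) ∧
      Tendsto (fun δ : ℝ => Real.exp (Real.eulerMascheroniConstant * (k ^ 2 / 4)) * δ ^ (k ^ 2 / 4) * g δ)
        (𝓝[>] 0) (𝓝 G) ∧
      ∀ ε : ℝ, 0 < ε → ∃ A : ℝ, 0 < A ∧ ∀ (N : ℕ) (T : ℝ), A ≤ N → 0 < T → A * Real.log N ≤ Real.log T →
      |(Real.log N) ^ (-(k ^ 2 / 4)) * ((1 / T) * ∫ t in (0 : ℝ)..T,
        ‖∑ n ∈ Finset.Icc 1 N, (n : ℂ) ^ (-(1 / 2 + t * Complex.I) : ℂ)‖ ^ k) - LibZM.Aconst (k / 2) * G| < ε := by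
  obtain ⟨C, hC, hlim, hmain⟩ := partial_sums_lim hk hC0 hS
  obtain ⟨CE, hCE, hg⟩ := goodWeight_mono ⌈k / 2⌉₊
  have htop : ∀ δ : ℝ, ∃ l : ℝ, 0 < δ → δ < 1 →
      Tendsto (fun L : ℝ => ∫ x, ‖DS (smo (Real.exp (δ * L)) (Real.exp L) (Real.exp L))
        (fun n => wshc (Real.log n / L)) x‖ ^ k ∂mu) atTop (𝓝 l) ∧
      Tendsto (fun M : ℕ => gaussMom k wshc δ M) atTop (𝓝 l) := by
    intro δ
    by_cases h : 0 < δ ∧ δ < 1
    · obtain ⟨l, h1, h2⟩ := top_limit_sharp hk h.1 h.2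
      exact ⟨l, fun _ _ => ⟨h1, h2⟩⟩
    · exact ⟨0, fun h1 h2 => absurd ⟨h1, h2⟩ h⟩
  choose g hgl using htop
  have ha : 0 < LibZM.Aconst (k / 2) := LibZM.Aconst_pos (by positivity)
  have hf := limit_formula hk hC0 hS hCE (hg _ isMono_wsh) (PS_limit hk) hlim (l := g) (fun δ h1 h2 => (hgl δ h1 h2).1)
  refine ⟨C / LibZM.Aconst (k / 2), g, by positivity, fun δ h1 h2 => (hgl δ h1 h2).2, ?_, ?_⟩
  · have h1 := hf.div_const (LibZM.Aconst (k / 2))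
    refine h1.congr' ?_
    filter_upwards [self_mem_nhdsWithin] with δ hδ
    field_simp
  · intro ε hε
    obtain ⟨A, hA, h⟩ := hmain ε hε
    refine ⟨A, hA, fun N T h1 h2 h3 => ?_⟩
    have h6 : LibZM.Aconst (k / 2) * (C / LibZM.Aconst (k / 2)) = C := by
      field_simp
    rw [h6]
    exact h N T h1 h2 h3

end Pool.Agent.LibMM99
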