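import Mathlib
import Pool.Agent.LibMM99.T07
import Pool.Agent.LibMM99.T13
import Pool.Agent.LibMM99.T14

set_option autoImplicit false

namespace Pool.Agent.LibMM99

open MeasureTheory Filter Topology
open scoped ComplexConjugate

/-- the polynomial approximations exist for every positive integer `k` -/
theorem hasScale_nat (k : ℕ) (hk : 1 ≤ k) : ∃ C : ℝ, 1 ≤ C ∧ HasScale (k : ℝ) C := by
  have hk0 : (0:ℝ) < k := by exact_mod_cast hk
  obtain ⟨C₁, hC₁, hg⟩ := g_meanSq hk0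
  obtain ⟨C₂, hC₂, hh⟩ := h_meanSq k
  refine ⟨4 * (k + 1) + 10 + C₁ + C₂, by nlinarith, fun u v κ hu huv hlog hκ => ?_⟩
  set C : ℝ := 4 * (k + 1) + 10 + C₁ + C₂ with hCdef
  have hC0 : 0 ≤ C := by positivity
  have hu0 : 0 < Real.sqrt 2 := by positivity
  have hu' : 0 < u := lt_of_lt_of_le hu0 hu
  have hv' : 0 < v := lt_of_lt_of_le hu' huv
  have hlv : 0.34 ≤ Real.log v := by
    have h1 : Real.log (Real.sqrt 2) ≤ Real.log v := Real.log_le_log hu0 (hu.trans huv)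
    rw [Real.log_sqrt (by norm_num)] at h1
    have h2 := Real.log_two_gt_d9
    linarith
  have hlv0 : 0 < Real.log v := by linarith
  set X : ℝ := Real.exp (κ * Real.log v) with hX
  have hlX : Real.log X = κ * Real.log v := by rw [hX, Real.log_exp]
  have hX1 : 1 ≤ X := Real.one_le_exp (by positivity)
  set μ : ℝ := Real.exp (-κ / 10) with hμ
  have hμ0 : 0 < μ := Real.exp_pos _
  have hμi : Real.exp (κ / 10) = μ⁻¹ := by
    rw [hμ, ← Real.exp_neg]; congr 1; ring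
  have hμ5 : Real.exp (-(Real.log X) / (5 * Real.log v)) = μ ^ 2 := by
    rw [hμ, ← Real.exp_nat_mul, hlX]
    congr 1
    field_simp
    push_cast
    ring
  have hμ1 : μ ≤ 1 := by
    rw [hμ]; apply Real.exp_le_one_iff.mpr; linarith
  set ψ : Om → ℂ := DS (smo u v X) (fun _ => 1) with hψ
  set g : Om → ℂ := DS (smo u v X) (fun n => ((LibZM.tau ((k : ℝ) / 2) n : ℝ) : ℂ)) with hgdef
  have hψd : DependsOn ψ (coo u v) := dependsOn_DS_smo u v X _
  have hgd : DependsOn g (coo u v) := dependsOn_DS_smo u v X _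
  have hPψ : IsPoly ((0 + 1) * Real.log X) ψ := IsPoly.ds hX1 le_rfl _ (fun n _ _ => by simp)
  have hPg : IsPoly (((k:ℝ) + 1) * Real.log X) g := by
    refine IsPoly.ds hX1 hk0.le _ fun n hn hnX => ?_
    rw [Complex.norm_real, Real.norm_eq_abs, abs_of_nonneg (LibZM.tau_nonneg (by positivity) n)]
    have h1 : LibZM.tau ((k:ℝ) / 2) n ≤ LibZM.tau (k:ℝ) n :=
      LibZM.tau_mono (by positivity) (by linarith) n
    have h2 := tau_le_pow k n
    have h3 : Real.exp ((k:ℝ) * Real.log X) = X ^ k := by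
      rw [mul_comm, ← Real.rpow_def_of_pos (by linarith), Real.rpow_natCast]
    rw [h3]
    refine h1.trans (h2.trans ?_)
    gcongr
  have hψc : Continuous ψ := continuous_DS _ _
  have hgc : Continuous g := continuous_DS _ _
  have hlX0 : 0 ≤ Real.log X := by rw [hlX]; positivity
  have hkl : κ ≤ 3 * (κ * Real.log v) := by nlinarith
  have hPS : 1 ≤ PS k u v := one_le_PS hk0.le u v
  have hgm := hg u v X hu huv hlog hX1
  have hhm := hh u v X hu huv hlog hX1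
  rw [hμ5] at hhm
  have hgm2 := hgm.2
  rw [hμ5] at hgm2
  refine ⟨fun x => ‖g x‖ ^ 2, fun x => μ + μ⁻¹ * ‖ψ x ^ k - g x ^ 2‖ ^ 2, ?_⟩
  refine ⟨fun x => by positivity, fun x => by positivity, ?_, ?_, ?_, ?_, ?_, ?_, ?_, ?_⟩
  · intro x y hxy
    show ‖g x‖ ^ 2 = ‖g y‖ ^ 2
    rw [hgd hxy]
  · intro x y hxy
    show μ + μ⁻¹ * ‖ψ x ^ k - g x ^ 2‖ ^ 2 = μ + μ⁻¹ * ‖ψ y ^ k - g y ^ 2‖ ^ 2
    rw [hgd hxy, hψd hxy]
  · refine hPg.normSq.mono ?_
    rw [hlX]
    have h0 : 0 ≤ κ * Real.log v := by positivity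
    have h1 : 2 * ((k:ℝ) + 1) ≤ C := by rw [hCdef]; nlinarith
    nlinarith
  · have hpk : IsPoly (2 * ((k:ℝ) + 1) * Real.log X) (fun x => ψ x ^ k) :=
      (hPψ.pow k).mono (by nlinarith)
    have hg2 : IsPoly (2 * ((k:ℝ) + 1) * Real.log X) (fun x => g x ^ 2) :=
      (hPg.pow 2).mono (by push_cast; nlinarith)
    have hd := (hpk.sub hg2).normSq
    have hc : IsPolyR (κ / 10) (fun _ => μ⁻¹) := by
      refine IsPolyR.const _ (by positivity) ?_
      rw [abs_of_pos (by positivity), hμi]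
    have hm := hc.mul hd
    have hμp : IsPolyR (κ / 10 + 2 * (2 * ((k:ℝ) + 1) * Real.log X + 1)) (fun _ => μ) := by
      refine IsPolyR.const _ (by positivity) ?_
      rw [abs_of_pos hμ0]
      exact hμ1.trans (Real.one_le_exp (by positivity))
    refine (hμp.add hm).mono ?_
    rw [hlX]
    have h0 : 0 ≤ κ * Real.log v := by positivity
    have h1 : 4 * ((k:ℝ) + 1) + 10 ≤ C := by rw [hCdef]; nlinarith
    nlinarith
  · intro x
    show |‖ψ x‖ ^ (k:ℝ) - ‖g x‖ ^ 2| ≤ μ + μ⁻¹ * ‖ψ x ^ k - g x ^ 2‖ ^ 2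
    rw [Real.rpow_natCast, ← norm_pow, ← norm_pow]
    refine (abs_norm_sub_norm_le _ _).trans ?_
    set h := ‖ψ x ^ k - g x ^ 2‖ with hhdef
    have h0 : 0 ≤ h := norm_nonneg _
    have h1 : 0 ≤ μ⁻¹ * (h - μ) ^ 2 := by positivity
    have h2 : μ⁻¹ * (h - μ) ^ 2 = μ⁻¹ * h ^ 2 - 2 * h + μ := by
      field_simp
      ring
    nlinarith
  · refine hgm.1.trans ?_
    have : 0 ≤ PS k u v * (C * μ) := by positivity
    linarith
  · refine le_trans ?_ hgm2
    have h1 : C₁ * μ ^ 2 ≤ PS k u v * (C * μ) := by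
      have h2 : C₁ * μ ^ 2 ≤ C₁ * μ := by nlinarith
      have h3 : C₁ * μ ≤ C * μ := by
        apply mul_le_mul_of_nonneg_right _ hμ0.le
        rw [hCdef]; nlinarith
      have h4 : C * μ ≤ PS k u v * (C * μ) := le_mul_of_one_le_left (by positivity) hPS
      linarith
    linarith
  · have hi : Integrable (fun x => ‖ψ x ^ k - g x ^ 2‖ ^ 2) mu :=
      integrable_of_continuous (((hψc.pow k).sub (hgc.pow 2)).norm.pow 2)
    have h1 : ∫ x, (μ + μ⁻¹ * ‖ψ x ^ k - g x ^ 2‖ ^ 2) ∂mu =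
        μ + μ⁻¹ * ∫ x, ‖ψ x ^ k - g x ^ 2‖ ^ 2 ∂mu := by
      rw [integral_add (integrable_const _) (hi.const_mul _), integral_const_mul]
      simp
    rw [h1]
    have h2 : μ⁻¹ * ∫ x, ‖ψ x ^ k - g x ^ 2‖ ^ 2 ∂mu ≤ μ⁻¹ * (C₂ * μ ^ 2) :=
      mul_le_mul_of_nonneg_left hhm (by positivity)
    have h3 : μ⁻¹ * (C₂ * μ ^ 2) = C₂ * μ := by field_simp
    have h4 : (1 + C₂) * μ ≤ C * μ := by
      apply mul_le_mul_of_nonneg_right _ hμ0.le
      rw [hCdef]; nlinarith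
    linarith

end Pool.Agent.LibMM99
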